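import Pool.Agent.LS.Core

/-! Part `W0` of the classification of self-dual Leonard systems with integral normalized
intersection numbers (MP_963a96_al). -/
open Finset
namespace LS

theorem w0_two {d : ℕ} {α b : ℕ → ℤ} {x : ℕ → ℝ} {S : ℕ → ℕ → ℝ} (hB : Base d α b)
    (h : Weak d α b x S) {j k : ℕ} (hj : j ≤ d) (hk : k ≤ d) (hx : x j = x k) :
    ∀ i ≤ d, S i j * S 0 k = S i k * S 0 j := by
  intro i
  induction i using Nat.strong_induction_on with
  | _ i ih =>
    intro hi
    rcases i with _ | i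
    · ring
    · have h1 := h.eig i (by omega) j hj
      have h2 := h.eig i (by omega) k hk
      have h3 := ih i (by omega) (by omega)
      have h4 := ih (i - 1) (by omega) (by omega)
      have hb : (b (i+1) : ℝ) ≠ 0 := by
        have := hB.bpos (i+1) (by omega) hi
        exact_mod_cast (by omega : b (i+1) ≠ 0)
      apply mul_left_cancel₀ hb
      rw [← hx] at h2
      linear_combination (-(S 0 k)) * h1 + (S 0 j) * h2 + (x j - α i) * h3 - (b i : ℝ) * h4

theorem w0_orth {d : ℕ} {α b : ℕ → ℤ} {x : ℕ → ℝ} {S : ℕ → ℕ → ℝ}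
    (h : Weak d α b x S) : ∀ i ≤ d, ∀ j ≤ d,
    ∑ l ∈ range (d+1), S l i * S l j = if i = j then 1 else 0 := by
  intro i hi j hj
  rw [← h.orth i hi j hj]
  exact Finset.sum_congr rfl fun l _ => by rw [h.symm l i, h.symm l j]

theorem weak_inj {d : ℕ} {α b : ℕ → ℤ} {x : ℕ → ℝ} {S : ℕ → ℕ → ℝ} (hB : Base d α b)
    (h : Weak d α b x S) : ∀ i ≤ d, ∀ j ≤ d, x i = x j → i = j := by
  intro j hj k hk hx
  by_contra hne
  have h1 := w0_two hB h hj hk hx
  have h2 : ∑ i ∈ range (d+1), (S i j * S i k) * S 0 k =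
      ∑ i ∈ range (d+1), (S i k * S i k) * S 0 j := by
    refine Finset.sum_congr rfl fun i hi => ?_
    have := h1 i (by
      have := Finset.mem_range.1 hi
      omega)
    linear_combination (S i k) * this
  rw [← Finset.sum_mul, ← Finset.sum_mul, w0_orth h j hj k hk, w0_orth h k hk k hk, if_neg hne,
    if_pos rfl, zero_mul, one_mul] at h2
  exact h.ne j hj h2.symm

theorem weak_comp {d : ℕ} {α b : ℕ → ℤ} {x : ℕ → ℝ} {S : ℕ → ℕ → ℝ}
    (h : Weak d α b x S) (c : ℕ → ℝ)
    (hc : ∀ j ≤ d, ∑ i ∈ range (d+1), c i * S i j = 0) : ∀ i ≤ d, c i = 0 := by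
  intro k hk
  have h1 : ∑ l ∈ range (d+1), S k l * ∑ i ∈ range (d+1), c i * S i l = 0 := by
    refine Finset.sum_eq_zero fun l hl => ?_
    rw [hc l (by
      have := Finset.mem_range.1 hl
      omega), mul_zero]
  have h2 : ∑ l ∈ range (d+1), S k l * ∑ i ∈ range (d+1), c i * S i l =
      ∑ i ∈ range (d+1), c i * ∑ l ∈ range (d+1), S i l * S k l := by
    simp only [Finset.mul_sum]
    rw [Finset.sum_comm]
    exact Finset.sum_congr rfl fun i _ => Finset.sum_congr rfl fun l _ => by ring
  rw [h2, Finset.sum_eq_single k] at h1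
  · rw [h.orth k hk k hk, if_pos rfl, mul_one] at h1
    exact h1
  · intro i hi hik
    rw [h.orth i (by
      have := Finset.mem_range.1 hi
      omega) k hk, if_neg hik, mul_zero]
  · intro hk'
    exact absurd (Finset.mem_range.2 (by omega)) hk'

theorem weak_T {d : ℕ} {α b : ℕ → ℤ} {x : ℕ → ℝ} {S : ℕ → ℕ → ℝ} (hB : Base d α b)
    (h : Weak d α b x S) : ∀ i ≤ d, ∀ k ≤ d,
    ∑ l ∈ range (d+1), S i l * x l * S k l = (Te α b i k : ℝ) := by
  intro i hi k hk
  have h1 : ∑ l ∈ range (d+1), S i l * x l * S k l =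
      b i * ∑ l ∈ range (d+1), S (i-1) l * S k l + α i * ∑ l ∈ range (d+1), S i l * S k l
        + b (i+1) * ∑ l ∈ range (d+1), S (i+1) l * S k l := by
    rw [Finset.mul_sum, Finset.mul_sum, Finset.mul_sum, ← Finset.sum_add_distrib,
      ← Finset.sum_add_distrib]
    refine Finset.sum_congr rfl fun l hl => ?_
    have := h.eig i hi l (by
      have := Finset.mem_range.1 hl
      omega)
    linear_combination (S k l) * this
  rw [h1, h.orth (i-1) (by omega) k hk, h.orth i hi k hk]
  have h2 : (b (i+1) : ℝ) * ∑ l ∈ range (d+1), S (i+1) l * S k l =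
      (b (i+1) : ℝ) * if i + 1 = k then 1 else 0 := by
    by_cases hid : i + 1 ≤ d
    · rw [h.orth (i+1) hid k hk]
    · rw [hB.bout (i+1) (by omega)]
      simp
  rw [h2]
  unfold Te
  have hb0 := hB.b0
  by_cases c1 : i = k
  · subst c1
    rw [if_pos rfl, if_pos rfl, if_neg (by omega : ¬ i + 1 = i)]
    by_cases c2 : i - 1 = i
    · have : i = 0 := by omega
      subst this
      simp [hb0]
    · rw [if_neg c2]
      simp
  · rw [if_neg c1, if_neg c1]
    by_cases c2 : i + 1 = k
    · subst c2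
      rw [if_pos rfl, if_pos rfl, if_neg (by omega : ¬ i - 1 = i + 1)]
      simp
    · rw [if_neg c2, if_neg c2]
      by_cases c3 : k + 1 = i
      · subst c3
        rw [if_pos rfl, if_pos (by omega : k + 1 - 1 = k)]
        simp
      · rw [if_neg c3]
        by_cases c4 : i - 1 = k
        · have : i = 0 := by omega
          subst this
          simp [hb0]
        · rw [if_neg c4]
          simp

theorem weak_row {d : ℕ} {α b : ℕ → ℤ} {x : ℕ → ℝ} {S : ℕ → ℕ → ℝ}
    (h : Weak d α b x S) : ∀ i ≤ d, ∀ j ≤ d,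
    x i * S i j = b j * S i (j-1) + α j * S i j + b (j+1) * S i (j+1) := by
  intro i hi j hj
  rw [h.symm i j, h.symm i (j-1), h.symm i (j+1)]
  exact h.eig j hj i hi

end LS
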