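import Pool.Agent.LS.Core
import Pool.Agent.LS.W0

/-! Part `AW1` of the classification of self-dual Leonard systems with integral normalized
intersection numbers (MP_963a96_al). -/
open Finset
namespace LS

theorem aw1_Sout {d : ℕ} {α b : ℕ → ℤ} {x : ℕ → ℝ} {S : ℕ → ℕ → ℝ}
    (h : Weak d α b x S) (i j : ℕ) (hj : d < j) : S i j = 0 := by
  rw [h.symm i j]; exact h.out j i hj

theorem aw1_e0 {d : ℕ} {α b : ℕ → ℤ} {x : ℕ → ℝ} {S : ℕ → ℕ → ℝ} (hB : Base d α b)
    (h : Weak d α b x S) (k : ℕ) : x k * S 0 k = S 1 k := by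
  by_cases hk : k ≤ d
  · have := h.eig 0 (Nat.zero_le _) k hk
    simp only [hB.b0, hB.α0, hB.b1, Int.cast_zero, Int.cast_one, zero_mul,
      one_mul, zero_add] at this
    exact this
  · rw [aw1_Sout h 0 k (by omega), aw1_Sout h 1 k (by omega), mul_zero]

theorem aw1_e1 {d : ℕ} {α b : ℕ → ℤ} {x : ℕ → ℝ} {S : ℕ → ℕ → ℝ} (hB : Base d α b)
    (h : Weak d α b x S) (hd : 3 ≤ d) (k : ℕ) :
    x k * S 1 k = S 0 k + α 1 * S 1 k + b 2 * S 2 k := by
  by_cases hk : k ≤ d
  · have := h.eig 1 (by omega) k hk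
    simp only [hB.b1, Int.cast_one, one_mul, Nat.sub_self, Nat.reduceAdd] at this
    exact this
  · rw [aw1_Sout h 0 k (by omega), aw1_Sout h 1 k (by omega), aw1_Sout h 2 k (by omega)]
    ring

theorem aw1_e2 {d : ℕ} {α b : ℕ → ℤ} {x : ℕ → ℝ} {S : ℕ → ℕ → ℝ}
    (h : Weak d α b x S) (hd : 3 ≤ d) (k : ℕ) :
    x k * S 2 k = b 2 * S 1 k + α 2 * S 2 k + b 3 * S 3 k := by
  by_cases hk : k ≤ d
  · have := h.eig 2 (by omega) k hk
    simpa using this
  · rw [aw1_Sout h 1 k (by omega), aw1_Sout h 2 k (by omega), aw1_Sout h 3 k (by omega)]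
    ring

theorem aw1_Z {d : ℕ} {α b : ℕ → ℤ} {x : ℕ → ℝ} {S : ℕ → ℕ → ℝ}
    (h : Weak d α b x S) (z : ℕ → ℝ) (j : ℕ) :
    ∑ k ∈ range (d+1), (∑ l ∈ range (d+1), z l * S 0 l * S k l) * S k j = z j * S 0 j := by
  by_cases hj : j ≤ d
  · simp only [Finset.sum_mul]
    rw [Finset.sum_comm]
    have : ∀ l ∈ range (d+1), ∑ k ∈ range (d+1), z l * S 0 l * S k l * S k j
        = if l = j then z j * S 0 j else 0 := by
      intro l hl
      have hl' : l ≤ d := by simpa [Nat.lt_succ_iff] using hl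
      have ho := h.orth l hl' j hj
      calc ∑ k ∈ range (d+1), z l * S 0 l * S k l * S k j
          = z l * S 0 l * ∑ k ∈ range (d+1), S l k * S j k := by
            rw [Finset.mul_sum]
            refine Finset.sum_congr rfl fun k _ => ?_
            rw [h.symm l k, h.symm j k]; ring
        _ = _ := by
            rw [ho]
            by_cases hlj : l = j
            · subst hlj; simp
            · simp [hlj]
    rw [Finset.sum_congr rfl this, Finset.sum_ite_eq' (range (d+1)) j]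
    simp [hj]
  · have : ∀ k, S k j = 0 := fun k => aw1_Sout h k j (by omega)
    simp [this]

theorem conic {d : ℕ} {α b : ℕ → ℤ} {x : ℕ → ℝ} {S : ℕ → ℕ → ℝ} (hB : Base d α b)
    (h : Weak d α b x S) (hd : 3 ≤ d) :
    ∃ ω γ ρ : ℝ, ∀ i, i + 1 ≤ d →
      x i ^ 2 - ω * x i * x (i+1) + x (i+1) ^ 2 - γ * (x i + x (i+1)) = ρ := by
  obtain ⟨z, hz⟩ : ∃ z : ℕ → ℝ, ∀ i, z (i+1) = z i - x i * x (i+1) * (x i - x (i+1)) :=
    ⟨fun n => Nat.rec 0 (fun i r => r - x i * x (i+1) * (x i - x (i+1))) n, fun i => rfl⟩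
  obtain ⟨Z, hZdef⟩ : ∃ Z : ℕ → ℝ, Z = fun k => ∑ l ∈ range (d+1), z l * S 0 l * S k l :=
    ⟨_, rfl⟩
  have hZ : ∀ j, ∑ k ∈ range (d+1), Z k * S k j = z j * S 0 j := by
    intro j; rw [hZdef]; exact aw1_Z h z j
  have e0 := aw1_e0 hB h
  have e1 := aw1_e1 hB h hd
  have e2 := aw1_e2 h hd

  obtain ⟨L, hL⟩ : ∃ L : ℕ → ℝ, L = fun k =>
      if k = 1 then x 0 - x 1 + (b 2 : ℝ)^2 * (x 2 - x 1)
      else if k = 2 then (b 2 : ℝ) * α 2 * (x 2 - x 1)
      else if k = 3 then (b 2 : ℝ) * b 3 * (x 2 - x 1) else 0 := ⟨_, rfl⟩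
  have hLsum : ∀ j, ∑ k ∈ range (d+1), L k * S k j =
      (x 0 - x 1 + (b 2 : ℝ)^2 * (x 2 - x 1)) * S 1 j
      + (b 2 : ℝ) * α 2 * (x 2 - x 1) * S 2 j + (b 2 : ℝ) * b 3 * (x 2 - x 1) * S 3 j := by
    intro j
    have hsub : range 4 ⊆ range (d+1) := by
      intro k hk; simp only [Finset.mem_range] at hk ⊢; omega
    rw [← Finset.sum_subset hsub]
    · rw [hL]; simp [Finset.sum_range_succ]
    · intro k _ hk
      have hk4 : 4 ≤ k := by simpa using hk
      have : L k = 0 := by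
        rw [hL]
        simp only
        rw [if_neg (by omega), if_neg (by omega), if_neg (by omega)]
      rw [this, zero_mul]
  have hrow : ∀ i, i ≤ 2 → ∀ j ≤ d,
      x i * S i j = b j * S i (j-1) + α j * S i j + b (j+1) * S i (j+1) :=
    fun i hi j hj => weak_row h i (by omega) j hj
  have hcomp := weak_comp h (fun k => L k - Z k * (x k - x 0)) (by
    intro j hj
    have s1 : ∑ k ∈ range (d+1), Z k * x k * S k j =
        b j * (z (j-1) * S 0 (j-1)) + α j * (z j * S 0 j) + b (j+1) * (z (j+1) * S 0 (j+1)) := by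
      rw [← hZ (j-1), ← hZ j, ← hZ (j+1), Finset.mul_sum, Finset.mul_sum, Finset.mul_sum,
        ← Finset.sum_add_distrib, ← Finset.sum_add_distrib]
      refine Finset.sum_congr rfl fun k hk => ?_
      have hk' : k ≤ d := by simpa [Nat.lt_succ_iff] using hk
      have := weak_row h k hk' j hj
      linear_combination Z k * this
    have s2 : ∑ k ∈ range (d+1), (L k - Z k * (x k - x 0)) * S k j =
        ∑ k ∈ range (d+1), L k * S k j - ∑ k ∈ range (d+1), Z k * x k * S k j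
          + x 0 * ∑ k ∈ range (d+1), Z k * S k j := by
      rw [Finset.mul_sum, ← Finset.sum_sub_distrib, ← Finset.sum_add_distrib]
      refine Finset.sum_congr rfl fun k _ => ?_
      ring
    rw [s2, hLsum, s1, hZ]
    have r0 := hrow 0 (by omega) j hj
    have r1 := hrow 1 (by omega) j hj
    have r2 := hrow 2 (by omega) j hj
    have hzp := hz j
    have e0j := e0 j
    have e1j := e1 j
    have e2j := e2 j
    have e0p := e0 (j+1)
    have e1p := e1 (j+1)
    have e0m := e0 (j-1)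
    have e1m := e1 (j-1)
    have hzm : (b j : ℝ) * z j = b j * (z (j-1) - x (j-1) * x j * (x (j-1) - x j)) := by
      rcases Nat.eq_zero_or_pos j with h0 | h0
      · subst h0; simp [hB.b0]
      · have := hz (j-1)
        rw [Nat.sub_add_cancel h0] at this
        rw [this]

    have B1 : (b j : ℝ) * (x (j-1) ^ 2 * S 0 (j-1)) + α j * (x j ^ 2 * S 0 j)
        + b (j+1) * (x (j+1) ^ 2 * S 0 (j+1))
        = x 0 * S 0 j + α 1 * (x 1 * S 1 j) + b 2 * (x 2 * S 2 j) := by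
      have q1 : x (j-1) ^ 2 * S 0 (j-1) = S 0 (j-1) + α 1 * S 1 (j-1) + b 2 * S 2 (j-1) := by
        linear_combination x (j-1) * e0m + e1m
      have q2 : x j ^ 2 * S 0 j = S 0 j + α 1 * S 1 j + b 2 * S 2 j := by
        linear_combination x j * e0j + e1j
      have q3 : x (j+1) ^ 2 * S 0 (j+1) = S 0 (j+1) + α 1 * S 1 (j+1) + b 2 * S 2 (j+1) := by
        linear_combination x (j+1) * e0p + e1p
      rw [q1, q2, q3]
      linear_combination -r0 - α 1 * r1 - b 2 * r2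
    have B2 : (b j : ℝ) * (x (j-1) * S 0 (j-1)) + α j * (x j * S 0 j)
        + b (j+1) * (x (j+1) * S 0 (j+1)) = x 1 * S 1 j := by
      rw [e0m, e0j, e0p]; linear_combination -r1

    have A1 : (x 0 - x 1 + (b 2 : ℝ)^2 * (x 2 - x 1)) * S 1 j
      + (b 2 : ℝ) * α 2 * (x 2 - x 1) * S 2 j + (b 2 : ℝ) * b 3 * (x 2 - x 1) * S 3 j
      = x j * (x 0 * S 0 j + α 1 * (x 1 * S 1 j) + b 2 * (x 2 * S 2 j))
        - x j ^ 2 * (x 1 * S 1 j) := by
      linear_combination (-(x 0)) * e0j + (x j * x 1) * e1j + (x 1) * e0j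
        - (b 2 : ℝ) * (x 2 - x 1) * e2j
    rw [A1, ← B1, ← B2, hzp]
    linear_combination (S 0 (j-1)) * hzm + (z j) * r0)
  have hinj := weak_inj hB h
  have hZk : ∀ k, 4 ≤ k → k ≤ d → Z k = 0 := by
    intro k hk hkd
    have := hcomp k hkd
    have hLk : L k = 0 := by
      rw [hL]; simp only
      rw [if_neg (by omega), if_neg (by omega), if_neg (by omega)]
    rw [hLk, zero_sub, neg_eq_zero, mul_eq_zero] at this
    rcases this with h1 | h1
    · exact h1
    · have := hinj k hkd 0 (by omega) (by linarith)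
      omega
  have hb2 : (b 2 : ℝ) ≠ 0 := by
    have := hB.bpos 2 (by omega) (by omega)
    exact_mod_cast (by omega : b 2 ≠ 0)
  have hb3 : (b 3 : ℝ) ≠ 0 := by
    have := hB.bpos 3 (by omega) (by omega)
    exact_mod_cast (by omega : b 3 ≠ 0)
  have hZ3 : Z 3 ≠ 0 := by
    intro h3
    have := hcomp 3 (by omega)
    have hL3 : L 3 = (b 2 : ℝ) * b 3 * (x 2 - x 1) := by rw [hL]; simp
    rw [hL3, h3, zero_mul, sub_zero, mul_eq_zero] at this
    rcases this with h1 | h1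
    · exact (mul_ne_zero hb2 hb3) h1
    · have := hinj 2 (by omega) 1 (by omega) (by linarith)
      omega

  have hpoly : ∀ j, j ≤ d → z j * S 0 j = Z 0 * S 0 j + Z 1 * S 1 j + Z 2 * S 2 j + Z 3 * S 3 j := by
    intro j hj
    rw [← hZ j]
    have hsub : range 4 ⊆ range (d+1) := by
      intro k hk; simp only [Finset.mem_range] at hk ⊢; omega
    rw [← Finset.sum_subset hsub]
    · simp [Finset.sum_range_succ]
    · intro k hk1 hk
      have hk4 : 4 ≤ k := by simpa using hk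
      have hk1' : k ≤ d := by simpa [Nat.lt_succ_iff] using hk1
      rw [hZk k hk4 hk1', zero_mul]
  obtain ⟨a3, ha3⟩ : ∃ a3 : ℝ, a3 = Z 3 / (b 2 * b 3) := ⟨_, rfl⟩
  obtain ⟨a2, ha2⟩ : ∃ a2 : ℝ, a2 = Z 2 / b 2 - a3 * (α 1 + α 2) := ⟨_, rfl⟩
  obtain ⟨a1, ha1⟩ : ∃ a1 : ℝ, a1 = Z 1 - Z 2 / b 2 * α 1 + a3 * (α 1 * α 2 - 1 - (b 2 : ℝ)^2) :=
    ⟨_, rfl⟩
  obtain ⟨a0, ha0⟩ : ∃ a0 : ℝ, a0 = Z 0 - Z 2 / b 2 + a3 * α 2 := ⟨_, rfl⟩
  have ha3ne : a3 ≠ 0 := by rw [ha3]; exact div_ne_zero hZ3 (mul_ne_zero hb2 hb3)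
  have hcub : ∀ j, j ≤ d → z j = a0 + a1 * x j + a2 * x j ^ 2 + a3 * x j ^ 3 := by
    intro j hj
    have hne := h.ne j hj
    have e0j := e0 j
    have e1j := e1 j
    have e2j := e2 j
    have t2 : S 2 j = (x j ^ 2 - α 1 * x j - 1) / b 2 * S 0 j := by
      field_simp
      linear_combination (-(1:ℝ)) * e1j - (x j - α 1) * e0j
    have t3 : S 3 j = ((x j - α 2) * (x j ^ 2 - α 1 * x j - 1) - (b 2 : ℝ)^2 * x j) / (b 2 * b 3)
        * S 0 j := by
      have t2' : (b 2 : ℝ) * S 2 j = (x j ^ 2 - α 1 * x j - 1) * S 0 j := by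
        linear_combination (-(1:ℝ)) * e1j - (x j - α 1) * e0j
      field_simp
      linear_combination (-(b 2 : ℝ)) * e2j + (x j - α 2) * t2' + (b 2 : ℝ)^2 * e0j
    have := hpoly j hj
    rw [t3, t2, ← e0j] at this
    have key : (z j - (a0 + a1 * x j + a2 * x j ^ 2 + a3 * x j ^ 3)) * S 0 j = 0 := by
      rw [ha0, ha1, ha2, ha3]
      linear_combination this
    rcases mul_eq_zero.mp key with h1 | h1
    · linarith
    · exact absurd h1 hne
  refine ⟨1 / a3 - 1, - a2 / a3, - a1 / a3, ?_⟩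
  intro i hi
  have h1 := hcub i (by omega)
  have h2 := hcub (i+1) hi
  have h3 := hz i
  have hne : x i - x (i+1) ≠ 0 := by
    intro hh
    have := hinj i (by omega) (i+1) hi (by linarith)
    omega
  have h4 : (x i - x (i+1)) * (x i * x (i+1)) = (x i - x (i+1)) *
      (a3 * (x i ^ 2 + x i * x (i+1) + x (i+1) ^ 2) + a2 * (x i + x (i+1)) + a1) := by
    linear_combination h1 - h2 + h3
  have h5 := mul_left_cancel₀ hne h4
  field_simp
  linear_combination (-(1:ℝ)) * h5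

end LS
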