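import Pool.Agent.LS.Core
import Pool.Agent.LS.W0
import Pool.Agent.LS.AW1

/-! Part `AW2` of the classification of self-dual Leonard systems with integral normalized
intersection numbers (MP_963a96_al). -/
open Finset
namespace LS

theorem aw2_pick {d : ℕ} {α b : ℕ → ℤ} {x : ℕ → ℝ} {S : ℕ → ℕ → ℝ}
    (h : Weak d α b x S) (m j : ℕ) (a : ℝ) :
    ∑ k ∈ range (d+1), (if k = m then a else 0) * S k j = a * S m j := by
  by_cases hm : m ≤ d
  · rw [Finset.sum_eq_single m]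
    · simp
    · intro k _ hk; simp [hk]
    · intro hm'; exact absurd (Finset.mem_range.mpr (by omega)) hm'
  · rw [h.out m j (by omega), mul_zero]
    refine Finset.sum_eq_zero fun k hk => ?_
    have : k ≤ d := by simpa [Nat.lt_succ_iff] using hk
    rw [if_neg (by omega), zero_mul]

theorem aw2_U {d : ℕ} {α b : ℕ → ℤ} {x : ℕ → ℝ} {S : ℕ → ℕ → ℝ}
    (h : Weak d α b x S) (k j : ℕ) (hj : j ≤ d) :
    x k * S k j = b j * S k (j-1) + α j * S k j + b (j+1) * S k (j+1) := by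
  by_cases hk : k ≤ d
  · exact weak_row h k hk j hj
  · rw [h.out k j (by omega), h.out k (j-1) (by omega), h.out k (j+1) (by omega)]
    ring

theorem aw2_R {d : ℕ} {α b : ℕ → ℤ} {x : ℕ → ℝ} {S : ℕ → ℕ → ℝ}
    (h : Weak d α b x S) (i l : ℕ) (hi : i ≤ d) :
    x l * S i l = b i * S (i-1) l + α i * S i l + b (i+1) * S (i+1) l := by
  by_cases hl : l ≤ d
  · exact h.eig i hi l hl
  · rw [h.symm i l, h.symm (i-1) l, h.symm (i+1) l, h.out l i (by omega),
      h.out l (i-1) (by omega), h.out l (i+1) (by omega)]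
    ring

theorem aw2_F1 {d : ℕ} {α b : ℕ → ℤ} {x : ℕ → ℝ} {S : ℕ → ℕ → ℝ}
    (h : Weak d α b x S) (i j : ℕ) (hi : i ≤ d) (hj : j ≤ d) :
    b i * (x (i-1) * S (i-1) j) + α i * (x i * S i j) + b (i+1) * (x (i+1) * S (i+1) j)
      = b j * (x (j-1) * S i (j-1)) + α j * (x j * S i j) + b (j+1) * (x (j+1) * S i (j+1)) := by
  have u1 := aw2_U h (i-1) j hj
  have u2 := aw2_U h i j hj
  have u3 := aw2_U h (i+1) j hj
  have r1 := aw2_R h i (j-1) hi
  have r2 := aw2_R h i j hi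
  have r3 := aw2_R h i (j+1) hi
  linear_combination (b i : ℝ) * u1 + (α i : ℝ) * u2 + (b (i+1) : ℝ) * u3
    - (b j : ℝ) * r1 - (α j : ℝ) * r2 - (b (j+1) : ℝ) * r3

theorem aw2_F2 {d : ℕ} {α b : ℕ → ℤ} {x : ℕ → ℝ} {S : ℕ → ℕ → ℝ} (hB : Base d α b)
    (h : Weak d α b x S) (i j : ℕ) (hi : i ≤ d) (hj : j ≤ d) :
    (b i : ℝ) * (b (i-1) * (x (i-2) * S (i-2) j) + α (i-1) * (x (i-1) * S (i-1) j)
        + b i * (x i * S i j))
      + α i * (b i * (x (i-1) * S (i-1) j) + α i * (x i * S i j)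
        + b (i+1) * (x (i+1) * S (i+1) j))
      + b (i+1) * (b (i+1) * (x i * S i j) + α (i+1) * (x (i+1) * S (i+1) j)
        + b (i+2) * (x (i+2) * S (i+2) j))
      = b j * (x (j-1) ^ 2 * S i (j-1)) + α j * (x j ^ 2 * S i j)
        + b (j+1) * (x (j+1) ^ 2 * S i (j+1)) := by
  have f0 := aw2_F1 h i j hi hj
  have fm : (b i : ℝ) * (b (i-1) * (x (i-2) * S (i-2) j) + α (i-1) * (x (i-1) * S (i-1) j)
        + b i * (x i * S i j)) = b i * (b j * (x (j-1) * S (i-1) (j-1))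
        + α j * (x j * S (i-1) j) + b (j+1) * (x (j+1) * S (i-1) (j+1))) := by
    rcases Nat.eq_zero_or_pos i with h0 | h0
    · subst h0; simp [hB.b0]
    · have := aw2_F1 h (i-1) j (by omega) hj
      rw [Nat.sub_add_cancel h0, Nat.sub_sub] at this
      rw [this]
  have fp : (b (i+1) : ℝ) * (b (i+1) * (x i * S i j) + α (i+1) * (x (i+1) * S (i+1) j)
        + b (i+2) * (x (i+2) * S (i+2) j)) = b (i+1) * (b j * (x (j-1) * S (i+1) (j-1))
        + α j * (x j * S (i+1) j) + b (j+1) * (x (j+1) * S (i+1) (j+1))) := by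
    by_cases h1 : i + 1 ≤ d
    · have := aw2_F1 h (i+1) j h1 hj
      rw [Nat.add_sub_cancel] at this
      rw [this]
    · rw [hB.bout (i+1) (by omega)]; simp
  have r1 := aw2_R h i (j-1) hi
  have r2 := aw2_R h i j hi
  have r3 := aw2_R h i (j+1) hi
  linear_combination fm + (α i : ℝ) * f0 + fp - (b j : ℝ) * x (j-1) * r1
    - (α j : ℝ) * x j * r2 - (b (j+1) : ℝ) * x (j+1) * r3

theorem aw2_main {d : ℕ} {α b : ℕ → ℤ} {x : ℕ → ℝ} {S : ℕ → ℕ → ℝ} (hB : Base d α b)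
    (h : Weak d α b x S) (ω γ ρ : ℝ)
    (hc : ∀ i, i + 1 ≤ d →
      x i ^ 2 - ω * x i * x (i+1) + x (i+1) ^ 2 - γ * (x i + x (i+1)) = ρ)
    (p0 p1 : ℝ) (i j : ℕ) (hi : i ≤ d) (hj : j ≤ d) :
    (b i : ℝ) * b (i-1) * (x (i-2) + x i - ω * x (i-1) - γ) * S (i-2) j
    + (b i : ℝ) * ((α i + α (i-1)) * (x i + x (i-1)) - ω * (α i * x i + α (i-1) * x (i-1))
        - γ * (x i + x (i-1)) - p1 - γ * (α i + α (i-1))) * S (i-1) j
    + ((b i : ℝ) ^ 2 * (2 * x i - ω * x (i-1)) + (b (i+1) : ℝ) ^ 2 * (2 * x i - ω * x (i+1))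
        + (α i : ℝ) ^ 2 * (2 - ω) * x i - 2 * γ * α i * x i - ρ * x i - p0 - p1 * α i
        - γ * ((b i : ℝ) ^ 2 + (α i : ℝ) ^ 2 + (b (i+1) : ℝ) ^ 2)) * S i j
    + (b (i+1) : ℝ) * ((α i + α (i+1)) * (x i + x (i+1)) - ω * (α i * x i + α (i+1) * x (i+1))
        - γ * (x i + x (i+1)) - p1 - γ * (α i + α (i+1))) * S (i+1) j
    + (b (i+1) : ℝ) * b (i+2) * (x i + x (i+2) - ω * x (i+1) - γ) * S (i+2) j
    = (α j * ((2 - ω) * x j ^ 2 - 2 * γ * x j - ρ) - p0 - p1 * x j - γ * x j ^ 2) * S i j := by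
  have E0 := h.eig i hi j hj
  have Em : (b i : ℝ) * (x j * S (i-1) j) = b i * (b (i-1) * S (i-2) j + α (i-1) * S (i-1) j
      + b i * S i j) := by
    rcases Nat.eq_zero_or_pos i with h0 | h0
    · subst h0; simp [hB.b0]
    · have := h.eig (i-1) (by omega) j hj
      rw [Nat.sub_add_cancel h0, Nat.sub_sub] at this
      rw [this]
  have Ep : (b (i+1) : ℝ) * (x j * S (i+1) j) = b (i+1) * (b (i+1) * S i j
      + α (i+1) * S (i+1) j + b (i+2) * S (i+2) j) := by
    by_cases h1 : i + 1 ≤ d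
    · have := h.eig (i+1) h1 j hj
      rw [Nat.add_sub_cancel] at this
      rw [this]
    · rw [hB.bout (i+1) (by omega)]; simp
  have F0 := aw2_U h i j hj
  have F1 := aw2_F1 h i j hi hj
  have F2 := aw2_F2 hB h i j hi hj
  have Cm : (b j : ℝ) * (x (j-1) ^ 2 - ω * x (j-1) * x j + x j ^ 2 - γ * (x (j-1) + x j))
      = b j * ρ := by
    rcases Nat.eq_zero_or_pos j with h0 | h0
    · subst h0; simp [hB.b0]
    · have := hc (j-1) (by omega)
      rw [Nat.sub_add_cancel h0] at this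
      rw [this]
  have Cp : (b (j+1) : ℝ) * (x j ^ 2 - ω * x j * x (j+1) + x (j+1) ^ 2 - γ * (x j + x (j+1)))
      = b (j+1) * ρ := by
    by_cases h1 : j + 1 ≤ d
    · rw [hc j h1]
    · rw [hB.bout (j+1) (by omega)]; simp
  linear_combination F2 - ω * x j * F1 + ω * x (i-1) * Em + ω * α i * x i * E0
    + ω * x (i+1) * Ep - (x i - γ) * (x j * E0 + Em + α i * E0 + Ep) - γ * F1
    + (γ * x i + p1) * E0 + (x j ^ 2 - γ * x j - ρ) * F0 + S i (j-1) * Cm + S i (j+1) * Cp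

theorem aw_rel {d : ℕ} {α b : ℕ → ℤ} {x : ℕ → ℝ} {S : ℕ → ℕ → ℝ} (hB : Base d α b)
    (h : Weak d α b x S) (hd : 3 ≤ d) :
    ∃ γ ρ p0 p1 : ℝ, AWrel d α b x (om x) γ ρ p0 p1 := by
  obtain ⟨ω, γ, ρ, hc⟩ := conic hB h hd
  have hinj := weak_inj hB h
  have w1 : ∀ i, 1 ≤ i → i + 1 ≤ d → x (i+1) + x (i-1) = ω * x i + γ := by
    intro i hi hid
    have c1 := hc (i-1) (by omega)
    have c2 := hc i hid
    rw [Nat.sub_add_cancel hi] at c1
    have h0 : (x (i-1) - x (i+1)) * (x (i+1) + x (i-1) - (ω * x i + γ)) = 0 := by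
      linear_combination c1 - c2
    rcases mul_eq_zero.mp h0 with h1 | h1
    · have := hinj (i-1) (by omega) (i+1) hid (by linarith)
      omega
    · linarith
  have hom : om x = ω := by
    have a1 := w1 1 le_rfl (by omega)
    have a2 := w1 2 (by omega) (by omega)
    simp only [Nat.reduceAdd, Nat.reduceSub] at a1 a2
    have hne : x 1 - x 2 ≠ 0 := by
      intro hh
      have := hinj 1 (by omega) 2 (by omega) (by linarith)
      omega
    have a3 : x 0 - x 3 = (ω + 1) * (x 1 - x 2) := by linear_combination a1 - a2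
    unfold om
    rw [a3, mul_div_assoc, div_self hne]; ring
  rw [hom]
  obtain ⟨p0, hp0⟩ : ∃ p0 : ℝ, p0 = (2 * x 0 - ω * x 1) - ρ * x 0 - γ := ⟨_, rfl⟩
  obtain ⟨p1, hp1⟩ : ∃ p1 : ℝ, p1 = (α 1 : ℝ) * (x 0 + x 1) - ω * (α 1 * x 1)
    - γ * (x 0 + x 1) - γ * α 1 := ⟨_, rfl⟩
  have hmain := aw2_main hB h ω γ ρ hc p0 p1
  have w3 : ∀ j ≤ d, (α j : ℝ) * ((2 - ω) * x j ^ 2 - 2 * γ * x j - ρ)
      = p0 + p1 * x j + γ * x j ^ 2 := by
    intro j hj
    have m := hmain 0 j (Nat.zero_le _) hj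
    have a1 := w1 1 le_rfl (by omega)
    simp only [Nat.reduceAdd, Nat.reduceSub, zero_add, zero_tsub, hB.b0, hB.b1, hB.α0,
      Int.cast_zero, Int.cast_one] at m a1
    have hne := h.ne j hj
    have key : ((α j : ℝ) * ((2 - ω) * x j ^ 2 - 2 * γ * x j - ρ)
      - (p0 + p1 * x j + γ * x j ^ 2)) * S 0 j = 0 := by
      linear_combination -m + (b 2 : ℝ) * S 2 j * a1 - S 0 j * hp0 - S 1 j * hp1
    rcases mul_eq_zero.mp key with h1 | h1
    · linarith
    · exact absurd h1 hne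

  have hcomp : ∀ i ≤ d, ∀ k ≤ d,
      (if k = i - 2 then (b i : ℝ) * b (i-1) * (x (i-2) + x i - ω * x (i-1) - γ) else 0)
      + (if k = i - 1 then (b i : ℝ) * ((α i + α (i-1)) * (x i + x (i-1))
          - ω * (α i * x i + α (i-1) * x (i-1))
          - γ * (x i + x (i-1)) - p1 - γ * (α i + α (i-1))) else 0)
      + (if k = i then (b i : ℝ) ^ 2 * (2 * x i - ω * x (i-1))
          + (b (i+1) : ℝ) ^ 2 * (2 * x i - ω * x (i+1))
          + (α i : ℝ) ^ 2 * (2 - ω) * x i - 2 * γ * α i * x i - ρ * x i - p0 - p1 * α i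
          - γ * ((b i : ℝ) ^ 2 + (α i : ℝ) ^ 2 + (b (i+1) : ℝ) ^ 2) else 0)
      + (if k = i + 1 then (b (i+1) : ℝ) * ((α i + α (i+1)) * (x i + x (i+1))
          - ω * (α i * x i + α (i+1) * x (i+1))
          - γ * (x i + x (i+1)) - p1 - γ * (α i + α (i+1))) else 0)
      + (if k = i + 2 then (b (i+1) : ℝ) * b (i+2) * (x i + x (i+2) - ω * x (i+1) - γ) else 0)
      = 0 := by
    intro i hi
    refine weak_comp h _ ?_
    intro j hj
    simp only [add_mul]
    rw [Finset.sum_add_distrib, Finset.sum_add_distrib, Finset.sum_add_distrib,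
      Finset.sum_add_distrib, aw2_pick h, aw2_pick h, aw2_pick h, aw2_pick h, aw2_pick h]
    have := w3 j hj
    linear_combination hmain i j hi hj + S i j * this
  refine ⟨γ, ρ, p0, p1, ⟨hinj, w1, hc, w3, ?_, ?_⟩⟩
  · intro i hi
    have := hcomp i (by omega) (i+1) hi
    rw [if_neg (by omega), if_neg (by omega), if_neg (by omega), if_pos rfl,
      if_neg (by omega)] at this
    have hb : (b (i+1) : ℝ) ≠ 0 := by
      have := hB.bpos (i+1) (by omega) hi
      exact_mod_cast (by omega : b (i+1) ≠ 0)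
    rw [zero_add, zero_add, zero_add, add_zero] at this
    rcases mul_eq_zero.mp this with h1 | h1
    · exact absurd h1 hb
    · linear_combination h1
  · intro i hi
    have := hcomp i hi i hi
    have q1 : (if i = i - 2 then (b i : ℝ) * b (i-1) * (x (i-2) + x i - ω * x (i-1) - γ) else 0)
        = 0 := by
      split_ifs with h0
      · have : i = 0 := by omega
        subst this; simp [hB.b0]
      · rfl
    have q2 : (if i = i - 1 then (b i : ℝ) * ((α i + α (i-1)) * (x i + x (i-1))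
          - ω * (α i * x i + α (i-1) * x (i-1))
          - γ * (x i + x (i-1)) - p1 - γ * (α i + α (i-1))) else 0) = 0 := by
      split_ifs with h0
      · have : i = 0 := by omega
        subst this; simp [hB.b0]
      · rfl
    rw [q1, q2, if_pos rfl, if_neg (by omega), if_neg (by omega)] at this
    linear_combination this

end LS
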