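import Pool.Agent.LS.Core

/-! Part `CH1` of the classification of self-dual Leonard systems with integral normalized
intersection numbers (MP_963a96_al). -/
open Finset
namespace LS

theorem lemma_Z {d : ℕ} {α b : ℕ → ℤ} {x : ℕ → ℝ} {ω γ ρ p0 p1 : ℝ} (hB : Base d α b)
    (h : AWrel d α b x ω γ ρ p0 p1) (hd : 4 ≤ d) :
    ∀ i, 1 ≤ i → i + 2 ≤ d → α (i-1) = α (i+1) → α i = α (i+2) → α (i-1) = α i := by
  intro i hi1 hi2 hA hB'
  obtain ⟨j, rfl⟩ : ∃ j, i = j + 1 := ⟨i - 1, by omega⟩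
  rw [Nat.add_sub_cancel] at hA ⊢
  have e1 := h.w4 j (by omega)
  have e2 := h.w4 (j + 1) (by omega)
  have e3 := h.w4 (j + 2) (by omega)
  have hA' : (α j : ℝ) = α (j + 2) := by exact_mod_cast hA
  have hB'' : (α (j + 1) : ℝ) = α (j + 3) := by exact_mod_cast hB'
  have n1 : x (j + 2) - x j ≠ 0 := fun h0 => by
    have := h.inj (j + 2) (by omega) j (by omega) (sub_eq_zero.1 h0)
    omega
  have n2 : x (j + 3) - x (j + 1) ≠ 0 := fun h0 => by
    have := h.inj (j + 3) (by omega) (j + 1) (by omega) (sub_eq_zero.1 h0)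
    omega
  rw [show j + 1 + 1 = j + 2 from rfl, ← hA'] at e2
  rw [show j + 2 + 1 = j + 3 from rfl, ← hA', ← hB''] at e3
  have f1 : (α j : ℝ) + α (j + 1) - ω * α j - γ = 0 := by
    refine mul_left_cancel₀ n1 ?_
    linear_combination e2 - e1
  have f2 : (α j : ℝ) + α (j + 1) - ω * α (j + 1) - γ = 0 := by
    refine mul_left_cancel₀ n2 ?_
    linear_combination e3 - e2
  have hω : ω ≠ 0 := by
    intro h0
    have g1 := h.w1 1 le_rfl (by omega)
    have g2 := h.w1 3 (by omega) (by omega)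
    norm_num at g1 g2
    rw [h0] at g1 g2
    have g3 : x 4 = x 0 := by linear_combination g2 - g1
    have := h.inj 4 hd 0 (by omega) g3
    omega
  have f3 : (α j : ℝ) = α (j + 1) := mul_left_cancel₀ hω (by linear_combination f2 - f1)
  exact_mod_cast f3

theorem three_const {d : ℕ} {α b : ℕ → ℤ} {x : ℕ → ℝ} {ω γ ρ p0 p1 : ℝ} (hB : Base d α b)
    (h : AWrel d α b x ω γ ρ p0 p1) (hd : 3 ≤ d) (h3 : Three d α) :
    ∃ a : ℤ, 0 ≤ a ∧ (∀ i, 1 ≤ i → i < d → α i = a) ∧
      ∃ ρ', Chain d a (α d - a) b (fun i => x i - a) ω ρ' := by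
  obtain ⟨i, j, k, hij, hjk, hk, hαij, hαjk⟩ := h3
  obtain ⟨a, ha⟩ : ∃ a : ℤ, a = α i := ⟨_, rfl⟩
  have haj : (α j : ℝ) = a := by rw [ha, hαij]
  have hak : (α k : ℝ) = a := by rw [ha, hαij, hαjk]
  have w3i := h.w3 i (by omega)
  have w3j := h.w3 j (by omega)
  have w3k := h.w3 k hk
  rw [← ha] at w3i
  rw [haj] at w3j
  rw [hak] at w3k
  have nij : x i - x j ≠ 0 := fun h0 => by
    have := h.inj i (by omega) j (by omega) (sub_eq_zero.1 h0)
    omega
  have nik : x i - x k ≠ 0 := fun h0 => by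
    have := h.inj i (by omega) k (by omega) (sub_eq_zero.1 h0)
    omega
  have njk : x j - x k ≠ 0 := fun h0 => by
    have := h.inj j (by omega) k (by omega) (sub_eq_zero.1 h0)
    omega

  have q1 : (p1 + 2 * a * γ) + (γ - a * (2 - ω)) * (x i + x j) = 0 := by
    refine mul_left_cancel₀ nij ?_
    linear_combination w3j - w3i
  have q2 : (p1 + 2 * a * γ) + (γ - a * (2 - ω)) * (x i + x k) = 0 := by
    refine mul_left_cancel₀ nik ?_
    linear_combination w3k - w3i
  have hγ' : γ - a * (2 - ω) = 0 := by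
    refine mul_left_cancel₀ njk ?_
    linear_combination q1 - q2
  have hγ : γ = a * (2 - ω) := by linear_combination hγ'
  have hp1 : p1 = -2 * a * γ := by linear_combination q1 - (x i + x j) * hγ'
  have hp0 : p0 = -a * ρ := by linear_combination -w3i - x i * hp1 - x i ^ 2 * hγ'
  have hα : ∀ m, 1 ≤ m → m < d → α m = a := by
    intro m hm1 hm2
    obtain ⟨n, rfl⟩ : ∃ n, m = n + 1 := ⟨m - 1, by omega⟩
    have g1 := h.w1 (n + 1) (by omega) (by omega)
    rw [Nat.add_sub_cancel] at g1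
    have g2 := h.w2 (n + 1) (by omega)
    have g3 := h.w3 (n + 1) (by omega)
    have m1 : x (n + 1) - x n ≠ 0 := fun h0 => by
      have := h.inj (n + 1) (by omega) n (by omega) (sub_eq_zero.1 h0)
      omega
    have m2 : x (n + 1) - x (n + 1 + 1) ≠ 0 := fun h0 => by
      have := h.inj (n + 1) (by omega) (n + 1 + 1) (by omega) (sub_eq_zero.1 h0)
      omega
    have hQ : (2 - ω) * x (n + 1) ^ 2 - 2 * γ * x (n + 1) - ρ =
        (x (n + 1) - x n) * (x (n + 1) - x (n + 1 + 1)) := by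
      linear_combination g2 + (x (n + 1) - x (n + 1 + 1)) * g1
    have g4 : ((α (n + 1) : ℝ) - a) * ((x (n + 1) - x n) * (x (n + 1) - x (n + 1 + 1))) = 0 := by
      rw [← hQ]
      linear_combination g3 + hp0 + x (n + 1) * hp1 + x (n + 1) ^ 2 * hγ
    have g5 := (mul_eq_zero.1 g4).resolve_right (mul_ne_zero m1 m2)
    have g6 : (α (n + 1) : ℝ) = a := by linear_combination g5
    exact_mod_cast g6
  refine ⟨a, by rw [ha]; exact hB.αnn i, hα, ρ + a ^ 2 * (2 - ω), ?_⟩
  subst hp0 hp1 hγ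
  have hα1 : (α 1 : ℝ) = a := by rw [hα 1 le_rfl (by omega)]
  have hα0 : (α 0 : ℝ) = 0 := by rw [hB.α0]; norm_num
  have hb0 : (b 0 : ℝ) = 0 := by rw [hB.b0]; norm_num
  have hb1 : (b 1 : ℝ) = 1 := by rw [hB.b1]; norm_num
  have hbd : (b (d + 1) : ℝ) = 0 := by rw [hB.bout (d + 1) (by omega)]; norm_num
  obtain ⟨e, rfl⟩ : ∃ e, d = e + 1 := ⟨d - 1, by omega⟩
  have hαe : (α e : ℝ) = a := by rw [hα e (by omega) (by omega)]
  refine ⟨?_, ?_, ?_, ?_, ?_, ?_, ?_, ?_⟩
  · intro i hi j hj hy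
    exact h.inj i hi j hj (by linear_combination hy)
  · intro i hi1 hi2
    have g1 := h.w1 i hi1 hi2
    linear_combination g1
  · intro i hi
    have g2 := h.w2 i hi
    linear_combination g2
  · intro ha0
    have ha0' : (a : ℝ) ≠ 0 := by exact_mod_cast ha0
    have g := h.w4 0 (by omega)
    rw [zero_add, hα0, hα1] at g
    refine mul_left_cancel₀ ha0' ?_
    linear_combination (-1 : ℝ) * g
  · intro hc0
    have hc0' : (α (e + 1) : ℝ) - a ≠ 0 := by
      intro h0
      apply hc0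
      have : (α (e + 1) : ℝ) = a := by linear_combination h0
      rw [sub_eq_zero]
      exact_mod_cast this
    have g := h.w4 e (by omega)
    rw [hαe] at g
    rw [Nat.add_sub_cancel]
    refine mul_left_cancel₀ hc0' ?_
    linear_combination g
  · have g := h.w5 0 (by omega)
    rw [zero_add, hα0, hb0, hb1] at g
    linear_combination g
  · intro i hi1 hi2
    have g := h.w5 i (by omega)
    have hαi : (α i : ℝ) = a := by rw [hα i hi1 (by omega)]
    rw [hαi] at g
    linear_combination g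
  · have g := h.w5 (e + 1) le_rfl
    rw [hbd] at g
    simp only [Nat.add_sub_cancel] at g ⊢
    push_cast
    linear_combination g

end LS
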