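import Pool.Agent.LS.Core
import Pool.Agent.LS.W0

/-! Part `W1` of the classification of self-dual Leonard systems with integral normalized
intersection numbers (MP_963a96_al). -/
open Finset
namespace LS

variable {d : ℕ} {α b : ℕ → ℤ} {lam : ℕ → ℝ} {S : ℕ → ℕ → ℝ} {N : ℕ → ℕ → ℕ → ℤ}

theorem w1_Ndef (h : Str d α b lam S N) (i j k : ℕ) :
    (N i j k : ℝ) = ∑ l ∈ range (d+1), S i l * S j l * S k l / S 0 l := by
  by_cases hi : i ≤ d
  · by_cases hj : j ≤ d
    · by_cases hk : k ≤ d
      · exact h.Ndef i hi j hj k hk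
      · rw [h.Nout i j k (by omega)]
        have h1 : ∀ l ∈ range (d+1), S i l * S j l * S k l / S 0 l = 0 := by
          intro l _
          rw [h.weak.out k l (by omega)]
          ring
        rw [Finset.sum_eq_zero h1]
        norm_num
    · rw [h.Nout i j k (by omega)]
      have h1 : ∀ l ∈ range (d+1), S i l * S j l * S k l / S 0 l = 0 := by
        intro l _
        rw [h.weak.out j l (by omega)]
        ring
      rw [Finset.sum_eq_zero h1]
      norm_num
  · rw [h.Nout i j k (by omega)]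
    have h1 : ∀ l ∈ range (d+1), S i l * S j l * S k l / S 0 l = 0 := by
      intro l _
      rw [h.weak.out i l (by omega)]
      ring
    rw [Finset.sum_eq_zero h1]
    norm_num

theorem w1_one (h : Str d α b lam S N) (l : ℕ) (hl : l ≤ d) : S 1 l = lam l * S 0 l := by
  have h1 := h.weak.eig 0 (Nat.zero_le d) l hl
  rw [h.base.b0, h.base.α0, Nat.zero_add, h.base.b1] at h1
  push_cast at h1
  linarith

theorem w1_col (h : Str d α b lam S N) (l : ℕ) (hl : l ≤ d) (m : ℕ) (hm : m ≤ d) :
    ∑ k ∈ range (d+1), S k l * S k m = if l = m then 1 else 0 := by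
  rw [← h.weak.orth l hl m hm]
  apply Finset.sum_congr rfl
  intro k _
  rw [h.weak.symm k l, h.weak.symm k m]

theorem N_symm (h : Str d α b lam S N) : (∀ i j k, N i j k = N j i k) ∧
    (∀ i j k, N i j k = N i k j) := by
  constructor
  · intro i j k
    have h1 := w1_Ndef h i j k
    have h2 := w1_Ndef h j i k
    have h3 : (N i j k : ℝ) = (N j i k : ℝ) := by
      rw [h1, h2]
      exact Finset.sum_congr rfl (fun l _ => by ring)
    exact_mod_cast h3
  · intro i j k
    have h1 := w1_Ndef h i j k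
    have h2 := w1_Ndef h i k j
    have h3 : (N i j k : ℝ) = (N i k j : ℝ) := by
      rw [h1, h2]
      exact Finset.sum_congr rfl (fun l _ => by ring)
    exact_mod_cast h3

theorem N_zero (h : Str d α b lam S N) : ∀ i ≤ d, ∀ j ≤ d, N 0 i j = if i = j then 1 else 0 := by
  intro i hi j hj
  have h1 := w1_Ndef h 0 i j
  have h2 : (N 0 i j : ℝ) = if i = j then 1 else 0 := by
    rw [h1, ← h.weak.orth i hi j hj]
    apply Finset.sum_congr rfl
    intro l hl
    have hl' : l ≤ d := by
      have := Finset.mem_range.mp hl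
      omega
    have h0 : S 0 l ≠ 0 := ne_of_gt (h.pos l hl')
    field_simp
  by_cases hij : i = j
  · rw [if_pos hij] at h2 ⊢
    exact_mod_cast h2
  · rw [if_neg hij] at h2 ⊢
    exact_mod_cast h2

theorem N_one (h : Str d α b lam S N) : ∀ i ≤ d, ∀ j ≤ d, N 1 i j = Te α b i j := by
  intro i hi j hj
  have h1 := w1_Ndef h 1 i j
  have h2 : (N 1 i j : ℝ) = (Te α b i j : ℝ) := by
    rw [h1, ← weak_T h.base h.weak i hi j hj]
    apply Finset.sum_congr rfl
    intro l hl
    have hl' : l ≤ d := by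
      have := Finset.mem_range.mp hl
      omega
    have h0 : S 0 l ≠ 0 := ne_of_gt (h.pos l hl')
    have h3 := w1_one h l hl'
    rw [h3]
    field_simp
  exact_mod_cast h2

theorem N_rec (h : Str d α b lam S N) : ∀ k ≤ d, ∀ i ≤ d, ∀ j ≤ d,
    b k * N (k-1) i j + α k * N k i j + b (k+1) * N (k+1) i j
      = b i * N k (i-1) j + α i * N k i j + b (i+1) * N k (i+1) j := by
  intro k hk i hi j hj
  have h1 : ((b k * N (k-1) i j + α k * N k i j + b (k+1) * N (k+1) i j : ℤ) : ℝ)
      = ∑ l ∈ range (d+1), lam l * S k l * S i l * S j l / S 0 l := by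
    push_cast
    rw [w1_Ndef h (k-1) i j, w1_Ndef h k i j, w1_Ndef h (k+1) i j, Finset.mul_sum,
      Finset.mul_sum, Finset.mul_sum, ← Finset.sum_add_distrib, ← Finset.sum_add_distrib]
    apply Finset.sum_congr rfl
    intro l hl
    have hl' : l ≤ d := by
      have := Finset.mem_range.mp hl
      omega
    rw [h.weak.eig k hk l hl']
    ring
  have h2 : ((b i * N k (i-1) j + α i * N k i j + b (i+1) * N k (i+1) j : ℤ) : ℝ)
      = ∑ l ∈ range (d+1), lam l * S k l * S i l * S j l / S 0 l := by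
    push_cast
    rw [w1_Ndef h k (i-1) j, w1_Ndef h k i j, w1_Ndef h k (i+1) j, Finset.mul_sum,
      Finset.mul_sum, Finset.mul_sum, ← Finset.sum_add_distrib, ← Finset.sum_add_distrib]
    apply Finset.sum_congr rfl
    intro l hl
    have hl' : l ≤ d := by
      have := Finset.mem_range.mp hl
      omega
    have h3 := h.weak.eig i hi l hl'
    have h4 : lam l * S k l * S i l * S j l / S 0 l
        = (lam l * S i l) * S k l * S j l / S 0 l := by ring
    rw [h4, h3]
    ring
  have h3 := h1.trans h2.symm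
  exact_mod_cast h3

theorem PF1 (h : Str d α b lam S N) : ∀ i ≤ d, ∀ j ≤ d, ∀ m ≤ d,
    ∑ k ∈ range (d+1), (N i j k : ℝ) * S k m = S i m / S 0 m * S j m := by
  intro i hi j hj m hm
  have h1 : ∀ k ∈ range (d+1), (N i j k : ℝ) * S k m
      = ∑ l ∈ range (d+1), S i l * S j l / S 0 l * (S k l * S k m) := by
    intro k _
    rw [w1_Ndef h i j k, Finset.sum_mul]
    apply Finset.sum_congr rfl
    intro l _
    ring
  rw [Finset.sum_congr rfl h1, Finset.sum_comm]
  have h2 : ∀ l ∈ range (d+1), ∑ k ∈ range (d+1), S i l * S j l / S 0 l * (S k l * S k m)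
      = if l = m then S i l * S j l / S 0 l else 0 := by
    intro l hl
    have hl' : l ≤ d := by
      have := Finset.mem_range.mp hl
      omega
    rw [← Finset.mul_sum, w1_col h l hl' m hm]
    by_cases hlm : l = m
    · rw [if_pos hlm, if_pos hlm, mul_one]
    · rw [if_neg hlm, if_neg hlm, mul_zero]
  rw [Finset.sum_congr rfl h2, Finset.sum_ite_eq', if_pos (Finset.mem_range.mpr (by omega))]
  ring

theorem PF2 (h : Str d α b lam S N) : ∀ i ≤ d, ∀ m ≤ d,
    |S i m / S 0 m| ≤ S i 0 / S 0 0 := by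
  intro i hi m hm
  obtain ⟨j, hjm, hjmax⟩ := Finset.exists_max_image (range (d+1))
    (fun j => |S j m| / S j 0) ⟨0, Finset.mem_range.mpr (by omega)⟩
  have hj : j ≤ d := by
    have := Finset.mem_range.mp hjm
    omega
  have hpos : ∀ k, k ≤ d → 0 < S k 0 := by
    intro k hk
    rw [h.weak.symm k 0]
    exact h.pos k hk
  have hSj : 0 < S j 0 := hpos j hj
  have h00 : 0 < S 0 0 := h.pos 0 (Nat.zero_le d)
  have h0m : 0 < S 0 m := h.pos m hm
  have hjm0 : 0 < |S j m| := by
    have h1 := hjmax 0 (Finset.mem_range.mpr (by omega))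
    have h2 : 0 < |S 0 m| / S 0 0 := div_pos (abs_pos.mpr (ne_of_gt h0m)) h00
    have h3 : 0 < |S j m| / S j 0 := lt_of_lt_of_le h2 h1
    by_contra hcon
    have h4 : |S j m| = 0 := le_antisymm (not_lt.mp hcon) (abs_nonneg _)
    rw [h4, zero_div] at h3
    exact lt_irrefl _ h3
  have key : |S i m / S 0 m| * |S j m| ≤ S i 0 / S 0 0 * |S j m| := by
    calc |S i m / S 0 m| * |S j m| = |S i m / S 0 m * S j m| := (abs_mul _ _).symm
      _ = |∑ k ∈ range (d+1), (N i j k : ℝ) * S k m| := by rw [PF1 h i hi j hj m hm]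
      _ ≤ ∑ k ∈ range (d+1), |(N i j k : ℝ) * S k m| := Finset.abs_sum_le_sum_abs _ _
      _ ≤ ∑ k ∈ range (d+1), (|S j m| / S j 0) * ((N i j k : ℝ) * S k 0) := by
          apply Finset.sum_le_sum
          intro k hk
          have hk' : k ≤ d := by
            have := Finset.mem_range.mp hk
            omega
          have hN : (0:ℝ) ≤ (N i j k : ℝ) := by exact_mod_cast h.Nnn i j k
          have hSk : 0 < S k 0 := hpos k hk'
          rw [abs_mul, abs_of_nonneg hN]
          have h1 := hjmax k hk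

          have h2 : |S k m| ≤ |S j m| / S j 0 * S k 0 := by
            rw [div_le_iff₀ hSk] at h1
            exact h1
          calc (N i j k : ℝ) * |S k m| ≤ (N i j k : ℝ) * (|S j m| / S j 0 * S k 0) :=
                mul_le_mul_of_nonneg_left h2 hN
            _ = |S j m| / S j 0 * ((N i j k : ℝ) * S k 0) := by ring
      _ = (|S j m| / S j 0) * (S i 0 / S 0 0 * S j 0) := by
          rw [← Finset.mul_sum, PF1 h i hi j hj 0 (Nat.zero_le d)]
      _ = S i 0 / S 0 0 * |S j m| := by
          field_simp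
  exact le_of_mul_le_mul_right key hjm0

theorem PF3 (h : Str d α b lam S N) : ∀ i ≤ d, 1 ≤ S i 0 / S 0 0 := by
  intro i hi
  have hpos : ∀ k, k ≤ d → 0 < S k 0 := by
    intro k hk
    rw [h.weak.symm k 0]
    exact h.pos k hk
  have h00 : 0 < S 0 0 := h.pos 0 (Nat.zero_le d)
  have hSi : 0 < S i 0 := hpos i hi
  have h1 := PF1 h i hi i hi 0 (Nat.zero_le d)
  have h2 : (N i i 0 : ℝ) * S 0 0 ≤ ∑ k ∈ range (d+1), (N i i k : ℝ) * S k 0 := by
    apply Finset.single_le_sum (f := fun k => (N i i k : ℝ) * S k 0)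
    · intro k hk
      have hk' : k ≤ d := by
        have := Finset.mem_range.mp hk
        omega
      have hN : (0:ℝ) ≤ (N i i k : ℝ) := by exact_mod_cast h.Nnn i i k
      exact mul_nonneg hN (le_of_lt (hpos k hk'))
    · exact Finset.mem_range.mpr (by omega)
  have h3 : N i i 0 = 1 := by
    obtain ⟨hs1, hs2⟩ := N_symm h
    rw [hs2 i i 0, hs1 i 0 i, N_zero h i hi i hi, if_pos rfl]
  rw [h3, h1] at h2
  have h4 : S 0 0 * S 0 0 ≤ S i 0 * S i 0 := by
    have h5 : S i 0 / S 0 0 * S i 0 = S i 0 * S i 0 / S 0 0 := by ring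
    rw [h5, le_div_iff₀ h00] at h2
    push_cast at h2
    linarith
  rw [le_div_iff₀ h00, one_mul]
  nlinarith

theorem lam_eq (h : Str d α b lam S N) : ∀ m ≤ d, lam m = S 1 m / S 0 m := by
  intro m hm
  have h0 : S 0 m ≠ 0 := ne_of_gt (h.pos m hm)
  rw [w1_one h m hm]
  field_simp

end LS
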