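import Pool.Agent.LS.Core
import Pool.Agent.LS.W0
import Pool.Agent.LS.W1

/-! Part `GA4` of the classification of self-dual Leonard systems with integral normalized
intersection numbers (MP_963a96_al). -/
open Finset
namespace LS

noncomputable def ga4_tau (α b : ℕ → ℤ) : ℕ → Polynomial ℚ
  | 0 => 1
  | 1 => Polynomial.C ((b 1 : ℚ)⁻¹) * (Polynomial.X - Polynomial.C (α 0 : ℚ))
  | (n+2) => Polynomial.C ((b (n+2) : ℚ)⁻¹) *
      ((Polynomial.X - Polynomial.C (α (n+1) : ℚ)) * ga4_tau α b (n+1)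
        - Polynomial.C (b (n+1) : ℚ) * ga4_tau α b n)

noncomputable def ga4_t (α b : ℕ → ℤ) (i : ℕ) (x : ℝ) : ℝ := Polynomial.aeval x (ga4_tau α b i)

theorem ga4_t0 (α b : ℕ → ℤ) (x : ℝ) : ga4_t α b 0 x = 1 := by
  simp [ga4_t, ga4_tau]

theorem ga4_t1 (α b : ℕ → ℤ) (x : ℝ) : ga4_t α b 1 x = (b 1 : ℝ)⁻¹ * (x - α 0) := by
  simp [ga4_t, ga4_tau]

theorem ga4_t2 (α b : ℕ → ℤ) (n : ℕ) (x : ℝ) : ga4_t α b (n+2) x =
    (b (n+2) : ℝ)⁻¹ * ((x - α (n+1)) * ga4_t α b (n+1) x - b (n+1) * ga4_t α b n x) := by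
  simp [ga4_t, ga4_tau]

theorem ga4_mv (α b : ℕ → ℤ) (f : ℕ → ℝ) (i j : ℕ) :
    MvPolynomial.aeval f (Polynomial.aeval (MvPolynomial.X j : MvPolynomial ℕ ℚ) (ga4_tau α b i))
      = ga4_t α b i (f j) := by
  rw [← Polynomial.aeval_algHom_apply, MvPolynomial.aeval_X]
  rfl

theorem ga4_S {d : ℕ} {α b : ℕ → ℤ} {lam : ℕ → ℝ} {S : ℕ → ℕ → ℝ}
    {N : ℕ → ℕ → ℕ → ℤ} (h : Str d α b lam S N) (j : ℕ) (hj : j ≤ d) :
    ∀ i, i ≤ d → S i j = ga4_t α b i (lam j) * S 0 j := by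
  have hb : ∀ i, 1 ≤ i → i ≤ d → (b i : ℝ) ≠ 0 := by
    intro i h1 h2
    have := h.base.bpos i h1 h2
    exact_mod_cast (by omega : b i ≠ 0)
  intro i
  induction i using Nat.strong_induction_on with
  | _ i ih =>
    intro hi
    match i, ih, hi with
    | 0, _, _ => rw [ga4_t0]; ring
    | 1, _, hi =>
      have e := h.weak.eig 0 (by omega) j hj
      rw [h.base.b0] at e
      simp only [Nat.zero_add, Int.cast_zero, zero_mul, zero_add] at e
      rw [ga4_t1]
      have := hb 1 (le_refl 1) hi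
      field_simp
      linear_combination -e
    | (n+2), ih, hi =>
      have e := h.weak.eig (n+1) (by omega) j hj
      rw [show n + 1 - 1 = n by omega, show n + 1 + 1 = n + 2 by omega] at e
      have i1 := ih n (by omega) (by omega)
      have i2 := ih (n+1) (by omega) (by omega)
      rw [ga4_t2]
      have hne := hb (n+2) (by omega) hi
      apply mul_left_cancel₀ hne
      have e' : (b (n+2) : ℝ) * S (n+2) j
          = (lam j - α (n+1)) * S (n+1) j - b (n+1) * S n j := by linear_combination -e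
      rw [e', i1, i2]
      field_simp

noncomputable def ga4_n (d : ℕ) (α b : ℕ → ℤ) (x : ℝ) : ℝ :=
  ∑ k ∈ range (d+1), (ga4_t α b k x) ^ 2

theorem ga4_norm {d : ℕ} {α b : ℕ → ℤ} {lam : ℕ → ℝ} {S : ℕ → ℕ → ℝ}
    {N : ℕ → ℕ → ℕ → ℤ} (h : Str d α b lam S N) (j : ℕ) (hj : j ≤ d) :
    (S 0 j) ^ 2 * ga4_n d α b (lam j) = 1 := by
  have o := h.weak.orth j hj j hj
  rw [if_pos rfl] at o
  rw [← o, ga4_n, Finset.mul_sum]
  apply Finset.sum_congr rfl
  intro k hk
  rw [h.weak.symm j k, ga4_S h j hj k (by rw [Finset.mem_range] at hk; omega)]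
  ring

theorem exists_twist {d : ℕ} {α b : ℕ → ℤ} {lam : ℕ → ℝ} {S : ℕ → ℕ → ℝ}
    {N : ℕ → ℕ → ℕ → ℤ} (h : Str d α b lam S N) (π : ℕ → ℕ) (hπ : IsGal d lam π) :
    ∃ ε, Twist d S π ε := by
  have hs := h.weak.symm
  have hSl := fun (j : ℕ) (hj : j ≤ d) (i : ℕ) (hi : i ≤ d) => ga4_S h j hj i hi
  have hn := fun (j : ℕ) (hj : j ≤ d) => ga4_norm h j hj
  have hp := hπ.maps
  have h0d : 0 ≤ d := Nat.zero_le d

  have r1 : ∀ i ≤ d, ∀ j ≤ d, ga4_t α b i (lam (π j)) * ga4_t α b j (lam (π 0))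
      = ga4_t α b j (lam (π i)) * ga4_t α b i (lam (π 0)) := by
    intro i hi j hj
    have base : ga4_t α b i (lam j) * ga4_t α b j (lam 0)
        = ga4_t α b j (lam i) * ga4_t α b i (lam 0) := by
      have hij := hSl j hj i hi
      have hji := hSl i hi j hj
      have hj0 := hSl 0 h0d j hj
      have hi0 := hSl 0 h0d i hi
      rw [hs j 0] at hj0
      rw [hs i 0] at hi0
      rw [hs j i] at hji
      have hne : S 0 0 ≠ 0 := h.weak.ne 0 h0d
      apply mul_right_cancel₀ hne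
      linear_combination (-ga4_t α b i (lam j)) * hj0 + (ga4_t α b j (lam i)) * hi0 - hij + hji
    have := hπ.rel (Polynomial.aeval (MvPolynomial.X j : MvPolynomial ℕ ℚ) (ga4_tau α b i) *
      Polynomial.aeval (MvPolynomial.X 0 : MvPolynomial ℕ ℚ) (ga4_tau α b j) -
      Polynomial.aeval (MvPolynomial.X i : MvPolynomial ℕ ℚ) (ga4_tau α b j) *
      Polynomial.aeval (MvPolynomial.X 0 : MvPolynomial ℕ ℚ) (ga4_tau α b i)) (by
        rw [map_sub, map_mul, map_mul, ga4_mv, ga4_mv, ga4_mv, ga4_mv]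
        linarith [base])
    rw [map_sub, map_mul, map_mul, ga4_mv, ga4_mv, ga4_mv, ga4_mv] at this
    linarith

  have r2 : ∀ i ≤ d, ∀ j ≤ d, (ga4_t α b i (lam (π j))) ^ 2 * ga4_n d α b (lam (π i))
      = (ga4_t α b j (lam (π i))) ^ 2 * ga4_n d α b (lam (π j)) := by
    intro i hi j hj
    have base : (ga4_t α b i (lam j)) ^ 2 * ga4_n d α b (lam i)
        = (ga4_t α b j (lam i)) ^ 2 * ga4_n d α b (lam j) := by
      have hij := hSl j hj i hi
      have hji := hSl i hi j hj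
      rw [hs j i] at hji
      have n1 := hn i hi
      have n2 := hn j hj
      have hne : (S 0 i) ^ 2 * (S 0 j) ^ 2 ≠ 0 :=
        mul_ne_zero (pow_ne_zero _ (h.weak.ne i hi)) (pow_ne_zero _ (h.weak.ne j hj))
      apply mul_right_cancel₀ hne
      have a1 : (ga4_t α b i (lam j)) ^ 2 * ga4_n d α b (lam i) * ((S 0 i) ^ 2 * (S 0 j) ^ 2)
          = (ga4_t α b i (lam j) * S 0 j) ^ 2 * ((S 0 i) ^ 2 * ga4_n d α b (lam i)) := by ring
      have a2 : (ga4_t α b j (lam i)) ^ 2 * ga4_n d α b (lam j) * ((S 0 i) ^ 2 * (S 0 j) ^ 2)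
          = (ga4_t α b j (lam i) * S 0 i) ^ 2 * ((S 0 j) ^ 2 * ga4_n d α b (lam j)) := by ring
      rw [a1, a2, n1, n2, ← hij, ← hji]
    have hsum : ∀ (f : ℕ → ℝ) (l : ℕ), MvPolynomial.aeval f
        (∑ k ∈ range (d+1), (Polynomial.aeval (MvPolynomial.X l : MvPolynomial ℕ ℚ)
          (ga4_tau α b k)) ^ 2) = ga4_n d α b (f l) := by
      intro f l
      rw [map_sum, ga4_n]
      apply Finset.sum_congr rfl
      intro k _
      rw [map_pow, ga4_mv]
    have := hπ.rel ((Polynomial.aeval (MvPolynomial.X j : MvPolynomial ℕ ℚ) (ga4_tau α b i)) ^ 2 *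
      (∑ k ∈ range (d+1), (Polynomial.aeval (MvPolynomial.X i : MvPolynomial ℕ ℚ)
          (ga4_tau α b k)) ^ 2) -
      (Polynomial.aeval (MvPolynomial.X i : MvPolynomial ℕ ℚ) (ga4_tau α b j)) ^ 2 *
      (∑ k ∈ range (d+1), (Polynomial.aeval (MvPolynomial.X j : MvPolynomial ℕ ℚ)
          (ga4_tau α b k)) ^ 2)) (by
        rw [map_sub, map_mul, map_mul, map_pow, map_pow, ga4_mv, ga4_mv, hsum, hsum]
        linarith [base])
    rw [map_sub, map_mul, map_mul, map_pow, map_pow, ga4_mv, ga4_mv, hsum, hsum] at this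
    linarith

  have sq : ∀ i ≤ d, ∀ j ≤ d, (S i (π j)) ^ 2 = (S j (π i)) ^ 2 := by
    intro i hi j hj
    have e1 := hSl (π j) (hp j hj) i hi
    have e2 := hSl (π i) (hp i hi) j hj
    have n1 := hn (π i) (hp i hi)
    have n2 := hn (π j) (hp j hj)
    have r := r2 i hi j hj
    rw [e1, e2]
    have a1 : (ga4_t α b i (lam (π j)) * S 0 (π j)) ^ 2
        = (ga4_t α b i (lam (π j))) ^ 2 * (S 0 (π j)) ^ 2 *
          ((S 0 (π i)) ^ 2 * ga4_n d α b (lam (π i))) := by rw [n1]; ring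
    have a2 : (ga4_t α b j (lam (π i)) * S 0 (π i)) ^ 2
        = (ga4_t α b j (lam (π i))) ^ 2 * (S 0 (π i)) ^ 2 *
          ((S 0 (π j)) ^ 2 * ga4_n d α b (lam (π j))) := by rw [n2]; ring
    rw [a1, a2]
    linear_combination ((S 0 (π j)) ^ 2 * (S 0 (π i)) ^ 2) * r
  classical
  let ε : ℕ → ℤ := fun i => if i ≤ d then (if S i (π 0) = S 0 (π i) then 1 else -1) else 1
  have hε : ∀ i ≤ d, S i (π 0) = (ε i : ℝ) * S 0 (π i) := by
    intro i hi
    by_cases c : S i (π 0) = S 0 (π i)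
    · simp only [ε, if_pos hi, if_pos c]; rw [c]; push_cast; ring
    · simp only [ε, if_pos hi, if_neg c]
      have := sq i hi 0 h0d
      rcases sq_eq_sq_iff_eq_or_eq_neg.mp this with e | e
      · exact absurd e c
      · rw [e]; push_cast; ring
  refine ⟨ε, ?_, ?_, ?_⟩
  · intro i
    by_cases hi : i ≤ d
    · by_cases c : S i (π 0) = S 0 (π i)
      · left; simp only [ε, if_pos hi, if_pos c]
      · right; simp only [ε, if_pos hi, if_neg c]
    · left; simp only [ε, if_neg hi]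
  · simp only [ε, if_pos h0d, if_true]
  · intro i hi j hj
    have e1 := hSl (π j) (hp j hj) i hi
    have e2 := hSl (π i) (hp i hi) j hj
    have e3 := hSl (π 0) (hp 0 h0d) j hj
    have e4 := hSl (π 0) (hp 0 h0d) i hi
    rw [hε j hj] at e3
    rw [hε i hi] at e4
    have r := r1 i hi j hj
    rw [e1, e2]
    linear_combination (ga4_t α b i (lam (π j))) * e3 - (ga4_t α b j (lam (π i))) * e4
      + S 0 (π 0) * r

end LS
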