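import Pool.Agent.LS.Core
import Pool.Agent.LS.W0

/-! Part `GA5` of the classification of self-dual Leonard systems with integral normalized
intersection numbers (MP_963a96_al). -/
open Finset
namespace LS

theorem ga5_reindex {d : ℕ} {lam : ℕ → ℝ} {π : ℕ → ℕ} (hπ : IsGal d lam π) (f : ℕ → ℝ) :
    ∑ l ∈ range (d+1), f (π l) = ∑ l ∈ range (d+1), f l := by
  have hinj : Set.InjOn π (range (d+1) : Finset ℕ) := by
    intro i hi j hj hij
    have hi' : i < d+1 := by simpa using hi
    have hj' : j < d+1 := by simpa using hj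
    exact hπ.inj i (by omega) j (by omega) hij
  have himg : (range (d+1)).image π = range (d+1) := by
    apply Finset.eq_of_subset_of_card_le
    · intro x hx
      rw [Finset.mem_image] at hx
      obtain ⟨i, hi, rfl⟩ := hx
      have := hπ.maps i (by rw [Finset.mem_range] at hi; omega)
      rw [Finset.mem_range]; omega
    · rw [Finset.card_image_of_injOn hinj]
  rw [← Finset.sum_image hinj, himg]

theorem ga5_surj {d : ℕ} {lam : ℕ → ℝ} {π : ℕ → ℕ} (hπ : IsGal d lam π) :
    ∀ u ≤ d, ∃ i ≤ d, π i = u := by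
  have hinj : Set.InjOn π (range (d+1) : Finset ℕ) := by
    intro i hi j hj hij
    have hi' : i < d+1 := by simpa using hi
    have hj' : j < d+1 := by simpa using hj
    exact hπ.inj i (by omega) j (by omega) hij
  have himg : (range (d+1)).image π = range (d+1) := by
    apply Finset.eq_of_subset_of_card_le
    · intro x hx
      rw [Finset.mem_image] at hx
      obtain ⟨i, hi, rfl⟩ := hx
      have := hπ.maps i (by rw [Finset.mem_range] at hi; omega)
      rw [Finset.mem_range]; omega
    · rw [Finset.card_image_of_injOn hinj]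
  intro u hu
  have : u ∈ (range (d+1)).image π := by rw [himg, Finset.mem_range]; omega
  rw [Finset.mem_image] at this
  obtain ⟨i, hi, hi2⟩ := this
  exact ⟨i, by rw [Finset.mem_range] at hi; omega, hi2⟩

theorem ga5_sq {d : ℕ} {S : ℕ → ℕ → ℝ} {π : ℕ → ℕ} {ε : ℕ → ℤ} (ht : Twist d S π ε) (i : ℕ) :
    (ε i : ℝ) * ε i = 1 := by
  rcases ht.sgn i with h | h <;> rw [h] <;> norm_num

theorem conj_weak {d : ℕ} {α b : ℕ → ℤ} {lam : ℕ → ℝ} {S : ℕ → ℕ → ℝ} {π : ℕ → ℕ} {ε : ℕ → ℤ}
    (hW : Weak d α b lam S) (hpos : ∀ j ≤ d, 0 < S 0 j) (hπ : IsGal d lam π)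
    (ht : Twist d S π ε) :
    Weak d α b (fun j => lam (π j)) (fun i j => (ε j : ℝ) * S i (π j)) where
  symm := by
    intro i j
    by_cases hi : i ≤ d
    · by_cases hj : j ≤ d
      · exact ht.sym i hi j hj
      · have h1 : π j = j := hπ.fix j (by omega)
        have h2 : S i j = 0 := by rw [hW.symm]; exact hW.out j i (by omega)
        have h3 : S j (π i) = 0 := hW.out j _ (by omega)
        simp only [h1, h2, h3, mul_zero]
    · have h1 : π i = i := hπ.fix i (by omega)
      have h2 : S i (π j) = 0 := hW.out i _ (by omega)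
      have h3 : S j i = 0 := by rw [hW.symm]; exact hW.out i j (by omega)
      simp only [h1, h2, h3, mul_zero]
  out := by
    intro i j hi
    simp only [hW.out i (π j) hi, mul_zero]
  orth := by
    intro i hi j hj
    rw [← hW.orth i hi j hj, ← ga5_reindex hπ (fun l => S i l * S j l)]
    apply Finset.sum_congr rfl
    intro l _
    have := ga5_sq ht l
    calc (ε l : ℝ) * S i (π l) * ((ε l : ℝ) * S j (π l))
        = ((ε l : ℝ) * ε l) * (S i (π l) * S j (π l)) := by ring
      _ = S i (π l) * S j (π l) := by rw [this, one_mul]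
  ne := by
    intro j hj
    have h1 := hpos (π j) (hπ.maps j hj)
    have h2 : (ε j : ℝ) ≠ 0 := by
      rcases ht.sgn j with h | h <;> rw [h] <;> norm_num
    exact mul_ne_zero h2 (ne_of_gt h1)
  eig := by
    intro i hi j hj
    have h := hW.eig i hi (π j) (hπ.maps j hj)
    calc lam (π j) * ((ε j : ℝ) * S i (π j)) = (ε j : ℝ) * (lam (π j) * S i (π j)) := by ring
      _ = (ε j : ℝ) * (b i * S (i-1) (π j) + α i * S i (π j) + b (i+1) * S (i+1) (π j)) := by
          rw [h]
      _ = _ := by ring

theorem ga5_Te_symm (α b : ℕ → ℤ) (i j : ℕ) : Te α b i j = Te α b j i := by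
  unfold Te
  by_cases h : i = j
  · subst h; simp
  · have h' : ¬ j = i := fun e => h e.symm
    simp only [h, h', if_false]
    by_cases h1 : i + 1 = j
    · have h2 : ¬ j + 1 = i := by omega
      simp only [h1, h2, if_false, if_true]
    · simp only [h1, if_false]

theorem ga5_lin {d : ℕ} {α b : ℕ → ℤ} {lam : ℕ → ℝ} {S : ℕ → ℕ → ℝ}
    {N : ℕ → ℕ → ℕ → ℤ} {π : ℕ → ℕ} {ε : ℕ → ℤ} (h : Str d α b lam S N)
    (hπ : IsGal d lam π) (ht : Twist d S π ε) (i k : ℕ) (hi : i ≤ d) (hk : k ≤ d) :
    ((ε i * ε k * Te α b i k : ℤ) : ℝ)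
      = ∑ l ∈ range (d+1), S (π i) l * lam (π l) * S (π k) l := by
  have hT := weak_T h.base h.weak i hi k hk
  push_cast
  rw [← hT, ← ga5_reindex hπ (fun l => S i l * lam l * S k l), Finset.mul_sum]
  apply Finset.sum_congr rfl
  intro m hm
  have hm' : m ≤ d := by rw [Finset.mem_range] at hm; omega
  have key : ∀ i ≤ d, (ε i : ℝ) * S i (π m) = ε m * S (π i) m := by
    intro i hi
    have h1 := ht.sym i hi m hm'
    have h2 := ga5_sq ht i
    have h3 := ga5_sq ht m
    have h4 : S (π i) m = S m (π i) := h.weak.symm _ _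
    rw [h4]
    calc (ε i : ℝ) * S i (π m) = ((ε m : ℝ) * ε m) * (ε i * S i (π m)) := by rw [h3, one_mul]
      _ = ε m * ε i * ((ε m : ℝ) * S i (π m)) := by ring
      _ = ε m * ε i * ((ε i : ℝ) * S m (π i)) := by rw [h1]
      _ = (ε i * ε i : ℝ) * (ε m * S m (π i)) := by ring
      _ = ε m * S m (π i) := by rw [h2, one_mul]
  have hk1 := key i hi
  have hk2 := key k hk
  have h3 := ga5_sq ht m
  calc (ε i : ℝ) * ε k * (S i (π m) * lam (π m) * S k (π m))
      = ((ε i : ℝ) * S i (π m)) * lam (π m) * ((ε k : ℝ) * S k (π m)) := by ring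
    _ = ((ε m : ℝ) * S (π i) m) * lam (π m) * ((ε m : ℝ) * S (π k) m) := by rw [hk1, hk2]
    _ = ((ε m : ℝ) * ε m) * (S (π i) m * lam (π m) * S (π k) m) := by ring
    _ = _ := by rw [h3, one_mul]

theorem exists_ctx {d : ℕ} {α b : ℕ → ℤ} {lam : ℕ → ℝ} {S : ℕ → ℕ → ℝ}
    {N : ℕ → ℕ → ℕ → ℤ} {π : ℕ → ℕ} {ε : ℕ → ℤ} (h : Str d α b lam S N)
    (hπ : IsGal d lam π) (ht : Twist d S π ε) :
    ∃ p F, Ctx d α b lam S N π ε p F := by
  have hex : ∀ u : ℕ, ∃ i : ℕ, u ≤ d → (i ≤ d ∧ π i = u) := by
    intro u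
    by_cases hu : u ≤ d
    · obtain ⟨i, hi, hi2⟩ := ga5_surj hπ u hu
      exact ⟨i, fun _ => ⟨hi, hi2⟩⟩
    · exact ⟨0, fun h => absurd h hu⟩
  choose p hp using hex
  have hple : ∀ u ≤ d, p u ≤ d := fun u hu => (hp u hu).1
  have hπp : ∀ u ≤ d, π (p u) = u := fun u hu => (hp u hu).2
  have hpπ : ∀ i ≤ d, p (π i) = i := by
    intro i hi
    have h1 := hπ.maps i hi
    exact hπ.inj _ (hple _ h1) i hi (hπp _ h1)
  have hpinj : ∀ u ≤ d, ∀ v ≤ d, p u = p v → u = v := by
    intro u hu v hv huv
    rw [← hπp u hu, ← hπp v hv, huv]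
  obtain ⟨F, hFdef⟩ : ∃ F : ℕ → ℕ → ℤ, F = fun u v =>
    if u ≤ d ∧ v ≤ d then ε (p u) * ε (p v) * Te α b (p u) (p v) else 0 := ⟨_, rfl⟩
  have hF1 : ∀ u ≤ d, ∀ v ≤ d, F u v = ε (p u) * ε (p v) * Te α b (p u) (p v) := by
    intro u hu v hv
    rw [hFdef]
    simp only
    rw [if_pos ⟨hu, hv⟩]
  have hF2 : ∀ u v, d < u → F u v = 0 := by
    intro u v hu
    rw [hFdef]
    simp only
    rw [if_neg (by omega)]
  have hF3 : ∀ u v, d < v → F u v = 0 := by
    intro u v hu
    rw [hFdef]
    simp only
    rw [if_neg (by omega)]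
  have hsymm : ∀ u v, F u v = F v u := by
    intro u v
    by_cases hu : u ≤ d
    · by_cases hv : v ≤ d
      · rw [hF1 u hu v hv, hF1 v hv u hu, ga5_Te_symm α b (p v) (p u)]; ring
      · rw [hF3 u v (by omega), hF2 v u (by omega)]
    · rw [hF2 u v (by omega), hF3 v u (by omega)]
  have hsq : ∀ i, ε i * ε i = 1 := by
    intro i
    rcases ht.sgn i with h | h <;> rw [h] <;> norm_num
  have habs : ∀ i, |ε i| = 1 := by
    intro i
    rcases ht.sgn i with h | h <;> rw [h] <;> norm_num
  have hlin : ∀ u v, (F u v : ℝ) = ∑ l ∈ range (d+1), S u l * lam (π l) * S v l := by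
    intro u v
    by_cases hu : u ≤ d
    · by_cases hv : v ≤ d
      · have := ga5_lin h hπ ht (p u) (p v) (hple u hu) (hple v hv)
        rw [hπp u hu, hπp v hv] at this
        rw [hF1 u hu v hv, this]
      · rw [hF3 u v (by omega)]
        rw [Finset.sum_eq_zero]
        · simp
        · intro l _
          rw [h.weak.out v l (by omega), mul_zero]
    · rw [hF2 u v (by omega)]
      rw [Finset.sum_eq_zero]
      · simp
      · intro l _
        rw [h.weak.out u l (by omega), zero_mul, zero_mul]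
  refine ⟨p, F, ?_⟩
  refine
    { str := h
      gal := hπ
      tw := ht
      path := ?_
      pπ := hpπ
      πp := hπp
      fsgn := ?_
      lin := fun u _ v _ => hlin u v }
  · refine
      { p_le := hple
        p_inj := hpinj
        symm := hsymm
        out := hF2
        diag := ?_
        edge := ?_
        far := ?_
        comm := ?_ }
    · intro u hu
      rw [hF1 u hu u hu, hsq, one_mul]
      unfold Te
      rw [if_pos rfl]
    · intro u hu v hv huv
      rw [hF1 u hu v hv, abs_mul, abs_mul, habs, habs, one_mul, one_mul]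
      have hTe : Te α b (p u) (p v) = b (p v) := by
        unfold Te
        rw [if_neg (by omega), if_pos huv.symm]
      rw [hTe]
      have := h.base.bpos (p v) (by omega) (hple v hv)
      exact abs_of_nonneg (by omega)
    · intro u hu v hv huv
      rw [hF1 u hu v hv]
      have hTe : Te α b (p u) (p v) = 0 := by
        unfold Te
        rw [if_neg (by omega), if_neg (by omega), if_neg (by omega)]
      rw [hTe, mul_zero]
    · intro u hu v hv
      have hreal : ((b u * F (u-1) v + α u * F u v + b (u+1) * F (u+1) v : ℤ) : ℝ)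
          = ((b v * F u (v-1) + α v * F u v + b (v+1) * F u (v+1) : ℤ) : ℝ) := by
        push_cast
        rw [hlin (u-1) v, hlin u v, hlin (u+1) v, hlin u (v-1), hlin u (v+1)]
        simp only [Finset.mul_sum]
        rw [← Finset.sum_add_distrib, ← Finset.sum_add_distrib, ← Finset.sum_add_distrib,
          ← Finset.sum_add_distrib]
        apply Finset.sum_congr rfl
        intro l hl
        have hl' : l ≤ d := by rw [Finset.mem_range] at hl; omega
        have e1 := h.weak.eig u hu l hl'
        have e2 := h.weak.eig v hv l hl'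
        calc (b u : ℝ) * (S (u-1) l * lam (π l) * S v l) + α u * (S u l * lam (π l) * S v l)
              + b (u+1) * (S (u+1) l * lam (π l) * S v l)
            = (b u * S (u-1) l + α u * S u l + b (u+1) * S (u+1) l) * lam (π l) * S v l := by ring
          _ = (lam l * S u l) * lam (π l) * S v l := by rw [e1]
          _ = S u l * lam (π l) * (lam l * S v l) := by ring
          _ = S u l * lam (π l) * (b v * S (v-1) l + α v * S v l + b (v+1) * S (v+1) l) := by
              rw [e2]
          _ = _ := by ring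
      exact_mod_cast hreal
  · intro i hi j hj
    rw [hF1 _ (hπ.maps i hi) _ (hπ.maps j hj), hpπ i hi, hpπ j hj]

end LS
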