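import Pool.Agent.LS.Core
import Pool.Agent.LS.W0
import Pool.Agent.LS.W1
import Pool.Agent.LS.GA4
import Pool.Agent.LS.GA5
import Pool.Agent.LS.AW2
import Pool.Agent.LS.CH1

/-! Part `CHX` of the classification of self-dual Leonard systems with integral normalized
intersection numbers (MP_963a96_al). -/
open Finset
namespace LS

variable {d : ℕ} {α b : ℕ → ℤ} {lam : ℕ → ℝ} {S : ℕ → ℕ → ℝ} {N : ℕ → ℕ → ℕ → ℤ}

theorem isGal_id (d : ℕ) (lam : ℕ → ℝ) : IsGal d lam (fun i => i) where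
  maps := fun _ hi => hi
  inj := fun _ _ _ _ h => h
  fix := fun _ _ => rfl
  rel := fun _ h => h

theorem chx_one (h : Str d α b lam S N) (hd : 4 ≤ d) (h3 : Three d α)
    (π : ℕ → ℕ) (hπ : IsGal d lam π) :
    (∀ i, 1 ≤ i → i < d → α i = α 1) ∧
    ∃ ρ, Chain d (α 1) (α d - α 1) b (fun i => lam (π i) - α 1)
      (om (fun i => lam (π i))) ρ := by
  obtain ⟨ε, hε⟩ := exists_twist h π hπ
  have hw := conj_weak h.weak h.pos hπ hε
  obtain ⟨γ, ρ, p0, p1, haw⟩ := aw_rel h.base hw (by omega)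
  obtain ⟨a, _, hα, ρ', hc⟩ := three_const h.base haw (by omega) h3
  have h1 : α 1 = a := hα 1 le_rfl (by omega)
  subst h1
  exact ⟨hα, ρ', hc⟩

theorem chains (h : Str d α b lam S N) (hd : 4 ≤ d) (h3 : Three d α) :
    (∀ i, 1 ≤ i → i < d → α i = α 1) ∧
    (∀ π, IsGal d lam π → ∃ ρ, Chain d (α 1) (α d - α 1) b (fun i => lam (π i) - α 1)
      (om (fun i => lam (π i))) ρ) ∧
    (∃ ρ, Chain d (α 1) (α d - α 1) b (fun i => lam i - α 1) (om lam) ρ) := by
  have hid := chx_one h hd h3 _ (isGal_id d lam)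
  exact ⟨hid.1, fun π hπ => (chx_one h hd h3 π hπ).2, hid.2⟩

end LS
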