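import Pool.Agent.LS.Core
import Pool.Agent.LS.W0
import Pool.Agent.LS.W1

/-! Part `W3` of the classification of self-dual Leonard systems with integral normalized
intersection numbers (MP_963a96_al). -/
open Finset
namespace LS

theorem w3_shift {d : ℕ} {β : ℕ → ℝ} (h0 : β 0 = 0) (hd : β (d+1) = 0) (v y : ℕ → ℝ) :
    ∑ i ∈ range (d+1), v i * (β i * y (i-1)) = ∑ i ∈ range (d+1), (β (i+1) * v (i+1)) * y i := by
  rw [Finset.sum_range_succ', Finset.sum_range_succ, h0, hd]
  have e : ∑ k ∈ range d, v (k+1) * (β (k+1) * y (k+1-1)) = ∑ x ∈ range d, β (x+1) * v (x+1) * y x :=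
    Finset.sum_congr rfl fun k _ => by
      rw [Nat.add_sub_cancel]
      ring
  rw [e]
  ring

theorem w3_v {d : ℕ} {α b : ℕ → ℤ} {lam : ℕ → ℝ} {S : ℕ → ℕ → ℝ} {N : ℕ → ℕ → ℕ → ℤ}
    (h : Str d α b lam S N) (h0 : ∀ i, α i = 0) : ∀ i ≤ d,
    (b i : ℝ) * ((-1) ^ (i-1) * S (i-1) 0) + (b (i+1) : ℝ) * ((-1) ^ (i+1) * S (i+1) 0) =
      - lam 0 * ((-1) ^ i * S i 0) := by
  intro i hi
  have he := h.weak.eig i hi 0 (Nat.zero_le d)
  rw [h0 i] at he
  push_cast at he
  rcases Nat.eq_zero_or_pos i with rfl | hpos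
  · rw [h.base.b0] at he ⊢
    push_cast
    linear_combination he
  · obtain ⟨k, rfl⟩ : ∃ k, i = k + 1 := ⟨i - 1, by omega⟩
    rw [Nat.add_sub_cancel] at he ⊢
    rw [pow_succ, pow_succ]
    linear_combination (-(-1 : ℝ) ^ k) * he

theorem w3_exJ {d : ℕ} {α b : ℕ → ℤ} {lam : ℕ → ℝ} {S : ℕ → ℕ → ℝ} {N : ℕ → ℕ → ℕ → ℤ}
    (h : Str d α b lam S N) (h0 : ∀ i, α i = 0) : ∃ J ≤ d, lam J = - lam 0 := by
  by_contra hcon
  push Not at hcon
  have hb0 : ((b 0 : ℤ) : ℝ) = 0 := by rw [h.base.b0]; norm_num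
  have hbd : ((b (d+1) : ℤ) : ℝ) = 0 := by rw [h.base.bout _ (Nat.lt_succ_self d)]; norm_num
  set v : ℕ → ℝ := fun i => (-1) ^ i * S i 0 with hv
  have key : ∀ J ≤ d, ∑ i ∈ range (d+1), v i * S i J = 0 := by
    intro J hJ
    have s1 := w3_shift (d := d) (β := fun i => ((b i : ℤ) : ℝ)) hb0 hbd v (fun i => S i J)
    have s2 := w3_shift (d := d) (β := fun i => ((b i : ℤ) : ℝ)) hb0 hbd (fun i => S i J) v
    have e1 : lam J * ∑ i ∈ range (d+1), v i * S i J = - lam 0 * ∑ i ∈ range (d+1), v i * S i J := by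
      calc lam J * ∑ i ∈ range (d+1), v i * S i J
          = ∑ i ∈ range (d+1), v i * (b i * S (i-1) J) +
            ∑ i ∈ range (d+1), (b (i+1) * S (i+1) J) * v i := by
            rw [Finset.mul_sum, ← Finset.sum_add_distrib]
            refine Finset.sum_congr rfl fun i hi => ?_
            have he := h.weak.eig i (Nat.lt_succ_iff.1 (Finset.mem_range.1 hi)) J hJ
            rw [h0 i] at he
            push_cast at he
            linear_combination v i * he
        _ = ∑ i ∈ range (d+1), (b (i+1) * v (i+1)) * S i J +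
            ∑ i ∈ range (d+1), S i J * (b i * v (i-1)) := by rw [s1, s2]
        _ = - lam 0 * ∑ i ∈ range (d+1), v i * S i J := by
            rw [Finset.mul_sum, ← Finset.sum_add_distrib]
            refine Finset.sum_congr rfl fun i hi => ?_
            have he := w3_v h h0 i (Nat.lt_succ_iff.1 (Finset.mem_range.1 hi))
            simp only [hv]
            linear_combination S i J * he
    have e2 : (lam J + lam 0) * ∑ i ∈ range (d+1), v i * S i J = 0 := by linear_combination e1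
    rcases mul_eq_zero.1 e2 with h3 | h3
    · exact absurd (eq_neg_of_add_eq_zero_left h3) (hcon J hJ)
    · exact h3
  have h1 := weak_comp h.weak v key 0 (Nat.zero_le d)
  simp only [hv, pow_zero, one_mul] at h1
  exact h.weak.ne 0 (Nat.zero_le d) h1

theorem w3_col {d : ℕ} {α b : ℕ → ℤ} {lam : ℕ → ℝ} {S : ℕ → ℕ → ℝ} {N : ℕ → ℕ → ℕ → ℤ}
    (h : Str d α b lam S N) (h0 : ∀ i, α i = 0) {J : ℕ} (hJ : J ≤ d) (hl : lam J = - lam 0) :
    ∀ i ≤ d, (-1) ^ i * S i 0 * S 0 J = S i J * S 0 0 := by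
  intro i
  induction i using Nat.strong_induction_on with
  | _ i ih =>
    intro hi
    match i, ih, hi with
    | 0, _, _ => rw [pow_zero]; ring
    | 1, _, hi =>
      have e1 := h.weak.eig 0 (Nat.zero_le d) J hJ
      have e2 := h.weak.eig 0 (Nat.zero_le d) 0 (Nat.zero_le d)
      rw [h.base.b0, h0 0, h.base.b1] at e1 e2
      push_cast at e1 e2
      rw [hl] at e1
      rw [pow_one]
      linear_combination (S 0 0) * e1 + S 0 J * e2
    | (k+2), ih, hi =>
      have i1 := ih (k+1) (by omega) (by omega)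
      have i0 := ih k (by omega) (by omega)
      have e1 := h.weak.eig (k+1) (by omega) J hJ
      have e2 := h.weak.eig (k+1) (by omega) 0 (Nat.zero_le d)
      rw [h0, Nat.add_sub_cancel] at e1 e2
      push_cast at e1 e2
      rw [hl] at e1
      have hb : ((b (k+1+1) : ℤ) : ℝ) ≠ 0 := by
        have := h.base.bpos (k+1+1) (by omega) hi
        exact_mod_cast (by omega : b (k+1+1) ≠ 0)
      apply mul_left_cancel₀ hb
      rw [pow_succ, pow_succ]
      rw [pow_succ] at i1
      linear_combination (-1 : ℝ) ^ k * (-(S 0 J)) * e2 + S 0 0 * e1 - lam 0 * i1 - b (k+1) * i0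

theorem w3_colJ {d : ℕ} {α b : ℕ → ℤ} {lam : ℕ → ℝ} {S : ℕ → ℕ → ℝ} {N : ℕ → ℕ → ℕ → ℤ}
    (h : Str d α b lam S N) (h0 : ∀ i, α i = 0) {J : ℕ} (hJ : J ≤ d) (hl : lam J = - lam 0) :
    ∀ i ≤ d, S i J = (-1) ^ i * S i 0 := by
  have hc := w3_col h h0 hJ hl
  have p0 := h.pos 0 (Nat.zero_le d)
  have pJ := h.pos J hJ
  have o1 := h.weak.orth J hJ J hJ
  have o2 := h.weak.orth 0 (Nat.zero_le d) 0 (Nat.zero_le d)
  rw [if_pos rfl] at o1 o2
  have e1 : S 0 J ^ 2 * ∑ l ∈ range (d+1), S 0 l * S 0 l = S 0 0 ^ 2 * ∑ l ∈ range (d+1), S J l * S J l := by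
    rw [Finset.mul_sum, Finset.mul_sum]
    refine Finset.sum_congr rfl fun l hl' => ?_
    have e := hc l (Nat.lt_succ_iff.1 (Finset.mem_range.1 hl'))
    have hpw : ((-1 : ℝ) ^ l) ^ 2 = 1 := by
      rw [← pow_mul, mul_comm, pow_mul]
      norm_num
    rw [h.weak.symm 0 l, h.weak.symm J l]
    have e2 : ((-1) ^ l * S l 0 * S 0 J) ^ 2 = (S l J * S 0 0) ^ 2 := by rw [e]
    calc S 0 J ^ 2 * (S l 0 * S l 0) = ((-1) ^ l) ^ 2 * (S l 0 * S 0 J) ^ 2 := by
          rw [hpw]
          ring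
      _ = ((-1) ^ l * S l 0 * S 0 J) ^ 2 := by ring
      _ = S 0 0 ^ 2 * (S l J * S l J) := by
          rw [e2]
          ring
  rw [o1, o2, mul_one, mul_one] at e1
  have e3 : S 0 J = S 0 0 := (pow_left_inj₀ pJ.le p0.le two_ne_zero).1 e1
  intro i hi
  have e := hc i hi
  rw [e3] at e
  exact (mul_right_cancel₀ p0.ne' e).symm

theorem w3_unique {d : ℕ} (f : ℕ → ℤ) (hf : ∀ i, 0 ≤ f i)
    (hs : ∑ k ∈ range (d+1), f k * f k = 1) : (∀ k ≤ d, f k = 0 ∨ f k = 1) ∧
    ∀ k ≤ d, ∀ k' ≤ d, f k ≠ 0 → f k' ≠ 0 → k = k' := by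
  have hnn : ∀ i ∈ range (d+1), 0 ≤ f i * f i := fun i _ => mul_self_nonneg _
  constructor
  · intro k hk
    have h1 := Finset.single_le_sum hnn (Finset.mem_range.2 (Nat.lt_succ_of_le hk))
    rw [hs] at h1
    have h2 := hf k
    have h3 : f k ≤ 1 := by nlinarith
    omega
  · intro k hk k' hk' h1 h2
    by_contra hne
    have h3 : ∑ x ∈ ({k, k'} : Finset ℕ), f x * f x ≤ ∑ x ∈ range (d+1), f x * f x := by
      refine Finset.sum_le_sum_of_subset_of_nonneg ?_ fun i _ _ => mul_self_nonneg _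
      intro x hx
      rcases Finset.mem_insert.1 hx with rfl | hx
      · exact Finset.mem_range.2 (Nat.lt_succ_of_le hk)
      · rw [Finset.mem_singleton.1 hx]
        exact Finset.mem_range.2 (Nat.lt_succ_of_le hk')
    rw [hs, Finset.sum_pair hne] at h3
    have h4 := hf k
    have h5 := hf k'
    have h6 : 1 ≤ f k := by omega
    have h7 : 1 ≤ f k' := by omega
    nlinarith

theorem w3_PF {d : ℕ} {α b : ℕ → ℤ} {lam : ℕ → ℝ} {S : ℕ → ℕ → ℝ} {N : ℕ → ℕ → ℕ → ℤ}
    (h : Str d α b lam S N) (h0 : ∀ i, α i = 0) {J : ℕ} (hJ : J ≤ d) (hl : lam J = - lam 0) :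
    ∀ i ≤ d, ∀ m ≤ d, ∑ k ∈ range (d+1), (N J i k : ℝ) * S k m = (-1) ^ m * S i m := by
  intro i hi m hm
  rw [PF1 h J hJ i hi m hm, h.weak.symm J m, w3_colJ h h0 hJ hl m hm, h.weak.symm m 0]
  have := (h.pos m hm).ne'
  field_simp

theorem w3_sq {d : ℕ} {α b : ℕ → ℤ} {lam : ℕ → ℝ} {S : ℕ → ℕ → ℝ} {N : ℕ → ℕ → ℕ → ℤ}
    (h : Str d α b lam S N) (h0 : ∀ i, α i = 0) {J : ℕ} (hJ : J ≤ d) (hl : lam J = - lam 0) :
    ∀ i ≤ d, ∑ k ∈ range (d+1), N J i k * N J i k = 1 := by
  intro i hi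
  have hN : ∀ k ≤ d, (N J i k : ℝ) = ∑ l ∈ range (d+1), (-1) ^ l * S i l * S k l := by
    intro k hk
    rw [h.Ndef J hJ i hi k hk]
    refine Finset.sum_congr rfl fun l hl' => ?_
    have hl'' := Nat.lt_succ_iff.1 (Finset.mem_range.1 hl')
    have h3 := (h.pos l hl'').ne'
    rw [h.weak.symm J l, w3_colJ h h0 hJ hl l hl'', h.weak.symm l 0]
    field_simp
  have e : ((∑ k ∈ range (d+1), N J i k * N J i k : ℤ) : ℝ) = 1 := by
    push_cast
    calc ∑ k ∈ range (d+1), (N J i k : ℝ) * N J i k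
        = ∑ k ∈ range (d+1), ∑ l ∈ range (d+1), (-1) ^ l * S i l * ((N J i k : ℝ) * S k l) := by
          refine Finset.sum_congr rfl fun k hk => ?_
          conv_lhs => rw [hN k (Nat.lt_succ_iff.1 (Finset.mem_range.1 hk))]
          rw [← hN k (Nat.lt_succ_iff.1 (Finset.mem_range.1 hk))]
          nth_rewrite 2 [hN k (Nat.lt_succ_iff.1 (Finset.mem_range.1 hk))]
          rw [Finset.mul_sum]
          refine Finset.sum_congr rfl fun l _ => ?_
          ring
      _ = ∑ l ∈ range (d+1), (-1) ^ l * S i l * ∑ k ∈ range (d+1), (N J i k : ℝ) * S k l := by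
          rw [Finset.sum_comm]
          refine Finset.sum_congr rfl fun l _ => ?_
          rw [Finset.mul_sum]
      _ = ∑ l ∈ range (d+1), S i l * S i l := by
          refine Finset.sum_congr rfl fun l hl' => ?_
          rw [w3_PF h h0 hJ hl i hi l (Nat.lt_succ_iff.1 (Finset.mem_range.1 hl'))]
          have hpw : ((-1 : ℝ) ^ l) ^ 2 = 1 := by
            rw [← pow_mul, mul_comm, pow_mul]
            norm_num
          linear_combination S i l * S i l * hpw
      _ = 1 := by
          rw [h.weak.orth i hi i hi, if_pos rfl]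
  exact_mod_cast e

theorem bip {d : ℕ} {α b : ℕ → ℤ} {lam : ℕ → ℝ} {S : ℕ → ℕ → ℝ} {N : ℕ → ℕ → ℕ → ℤ}
    (h : Str d α b lam S N) (h0 : ∀ i, α i = 0) :
    Pers d α b ∧ (∀ j ≤ d, lam (d - j) = - lam j) ∧
    (∀ i ≤ d, ∀ j ≤ d, S i (d - j) = (-1) ^ i * S i j) := by
  obtain ⟨J, hJ, hl⟩ := w3_exJ h h0
  have h1d := h.base.one_le
  obtain ⟨hs1, hs2⟩ := N_symm h
  have hU : ∀ i ≤ d, (∀ k ≤ d, N J i k = 0 ∨ N J i k = 1) ∧
      ∀ k ≤ d, ∀ k' ≤ d, N J i k ≠ 0 → N J i k' ≠ 0 → k = k' := fun i hi =>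
    w3_unique (fun k => N J i k) (fun k => h.Nnn J i k) (w3_sq h h0 hJ hl i hi)
  have hlam0 : lam 0 ≠ 0 := by
    rw [lam_eq h 0 (Nat.zero_le d)]
    have := PF3 h 1 h1d
    linarith
  have hJ0 : J ≠ 0 := by
    rintro rfl
    apply hlam0
    linarith
  have hN1 : ∀ k ≤ d, N J 1 k = Te α b J k := fun k hk => by
    rw [hs1 J 1 k]
    exact N_one h J hJ k hk
  have hJd : J = d := by
    by_contra hne
    have hlt : J + 1 ≤ d := by omega
    have a1 := hN1 (J+1) hlt
    have a2 := hN1 (J-1) (by omega)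
    unfold Te at a1 a2
    rw [if_neg (by omega), if_pos rfl] at a1
    rw [if_neg (by omega), if_neg (by omega), if_pos (by omega)] at a2
    have b1 := h.base.bpos (J+1) (by omega) hlt
    have b2 := h.base.bpos J (by omega) hJ
    have := (hU 1 h1d).2 (J+1) hlt (J-1) (by omega) (by omega) (by omega)
    omega
  subst hJd
  have hP0 : N J 0 J = 1 := by
    rw [hs1 J 0 J, N_zero h J hJ J hJ, if_pos rfl]
  have main : ∀ k ≤ J, N J k (J - k) = 1 ∧ (1 ≤ k → b (J + 1 - k) = b k) := by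
    intro k
    induction k using Nat.strong_induction_on with
    | _ k ih =>
      intro hk
      rcases Nat.eq_zero_or_pos k with rfl | hpos
      · exact ⟨by rw [Nat.sub_zero]; exact hP0, fun h => absurd h (by norm_num)⟩
      · obtain ⟨m, rfl⟩ : ∃ m, k = m + 1 := ⟨k - 1, by omega⟩
        obtain ⟨i1, -⟩ := ih m (by omega) (by omega)
        have hr := N_rec h m (by omega) (J - (m+1)) (by omega) J hJ
        rw [h0, h0] at hr
        have z1 : b m * N (m-1) (J - (m+1)) J = 0 := by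
          rcases Nat.eq_zero_or_pos m with rfl | hm
          · rw [h.base.b0, zero_mul]
          · obtain ⟨i2, -⟩ := ih (m-1) (by omega) (by omega)
            have : N (m-1) (J - (m+1)) J = 0 := by
              by_contra hne
              rw [hs2 (m-1) (J - (m+1)) J, hs1 (m-1) J (J - (m+1))] at hne
              have := (hU (m-1) (by omega)).2 (J - (m+1)) (by omega) (J - (m-1)) (by omega) hne
                (by rw [i2]; norm_num)
              omega
            rw [this, mul_zero]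
        have z2 : b (J - (m+1)) * N m (J - (m+1) - 1) J = 0 := by
          rcases Nat.eq_zero_or_pos (J - (m+1)) with h3 | h3
          · rw [h3, h.base.b0, zero_mul]
          · have : N m (J - (m+1) - 1) J = 0 := by
              by_contra hne
              rw [hs2 m (J - (m+1) - 1) J, hs1 m J (J - (m+1) - 1)] at hne
              have := (hU m (by omega)).2 (J - (m+1) - 1) (by omega) (J - m) (by omega) hne
                (by rw [i1]; norm_num)
              omega
            rw [this, mul_zero]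
        have z3 : N m (J - (m+1) + 1) J = 1 := by
          rw [hs2, hs1, show J - (m+1) + 1 = J - m by omega]
          exact i1
        have z4 : N (m+1) (J - (m+1)) J = N J (m+1) (J - (m+1)) := by
          rw [hs2, hs1]
        rw [z1, z2, z3, z4, show J - (m+1) + 1 = J - m by omega] at hr
        have hr' : b (m+1) * N J (m+1) (J - (m+1)) = b (J - m) := by linarith
        have hbp := h.base.bpos (J - m) (by omega) (by omega)
        have h4 : N J (m+1) (J - (m+1)) = 1 := by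
          rcases (hU (m+1) hk).1 (J - (m+1)) (by omega) with h5 | h5
          · rw [h5, mul_zero] at hr'
            omega
          · exact h5
        refine ⟨h4, fun _ => ?_⟩
        rw [h4, mul_one] at hr'
        rw [show J + 1 - (m + 1) = J - m by omega, hr']
  have hS : ∀ k ≤ J, ∀ l ≤ J, S (J - k) l = (-1) ^ l * S k l := by
    intro k hk l hl'
    rw [← w3_PF h h0 hJ hl k hk l hl', Finset.sum_eq_single (J - k)]
    · rw [(main k hk).1]
      push_cast
      ring
    · intro i hi hne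
      have hi' := Nat.lt_succ_iff.1 (Finset.mem_range.1 hi)
      have : N J k i = 0 := by
        by_contra h5
        exact hne ((hU k hk).2 i hi' (J - k) (by omega) h5 (by rw [(main k hk).1]; norm_num))
      rw [this]
      push_cast
      ring
    · intro hne
      exact absurd (Finset.mem_range.2 (by omega)) hne
  have hS' : ∀ i ≤ J, ∀ j ≤ J, S i (J - j) = (-1) ^ i * S i j := by
    intro i hi j hj
    rw [h.weak.symm i (J - j), hS j hj i hi, h.weak.symm j i]
  refine ⟨⟨fun i _ => by rw [h0, h0], fun i h1 hi => (main i hi).2 h1⟩, ?_, hS'⟩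
  intro j hj
  rw [lam_eq h (J - j) (by omega), lam_eq h j hj, hS' 1 h1d j hj, hS' 0 (Nat.zero_le _) j hj, pow_one,
    pow_zero]
  have := (h.pos j hj).ne'
  field_simp

end LS
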