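import Pool.Agent.LS.Core
import Pool.Agent.LS.W0
import Pool.Agent.LS.W1
import Pool.Agent.LS.W3
import Pool.Agent.LS.CHX

/-! Part `A0` of the classification of self-dual Leonard systems with integral normalized
intersection numbers (MP_963a96_al). -/
open Finset
namespace LS

variable {d : ℕ} {α b : ℕ → ℤ} {lam : ℕ → ℝ} {S : ℕ → ℕ → ℝ} {N : ℕ → ℕ → ℕ → ℤ}

theorem A0 {e : ℕ} (h : Str (2 * e + 1) α b lam S N) (he : 2 ≤ e) (h0 : ∀ i, α i = 0) :
    ∀ π, IsGal (2 * e + 1) lam π →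
      EndChain e (fun i => ((b i ^ 2 : ℤ) : ℝ)) ((b (e + 1) ^ 2 : ℤ) : ℝ)
        (fun i => (-1 : ℝ) ^ i * lam (π i)) (-1 * om (fun i => lam (π i))) := by
  intro π hπ
  have h3 : Three (2 * e + 1) α := ⟨0, 1, 2, by omega, by omega, by omega, by rw [h0 0, h0 1],
    by rw [h0 1, h0 2]⟩
  obtain ⟨ρ, hC⟩ := (chains h (by omega) h3).2.1 π hπ
  obtain ⟨hpers, hlam, _⟩ := bip h h0
  have hx : ∀ i, i ≤ 2 * e + 1 → lam (π (2 * e + 1 - i)) = - lam (π i) := by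
    intro i hi
    have h1 := hπ.rel (MvPolynomial.X (2 * e + 1 - i) + MvPolynomial.X i) (by
      rw [map_add, MvPolynomial.aeval_X, MvPolynomial.aeval_X, hlam i hi]
      ring)
    rw [map_add, MvPolynomial.aeval_X, MvPolynomial.aeval_X] at h1
    linarith
  have hxe : lam (π (e + 1)) = - lam (π e) := by
    have h1 := hx e (by omega)
    have h2 : 2 * e + 1 - e = e + 1 := by omega
    rw [h2] at h1
    exact h1
  have hc1 : ∀ i, 1 ≤ i → i + 1 ≤ 2 * e + 1 →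
      lam (π (i + 1)) + lam (π (i - 1)) = om (fun i => lam (π i)) * lam (π i) := by
    intro i h1 h2
    have h4 := hC.c1 i h1 h2
    simp only [h0, Int.cast_zero, sub_zero] at h4
    exact h4
  have hce : lam (π (e - 1)) = (om (fun i => lam (π i)) + 1) * lam (π e) := by
    have h4 := hc1 e (by omega) (by omega)
    rw [hxe] at h4
    linear_combination h4
  have hρ : ρ = (2 + om (fun i => lam (π i))) * lam (π e) ^ 2 := by
    have h4 := hC.c2 e (by omega)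
    simp only [h0, Int.cast_zero, sub_zero] at h4
    rw [hxe] at h4
    linear_combination -h4
  have he0 : 2 * lam (π 0) - om (fun i => lam (π i)) * lam (π 1) = ρ * lam (π 0) := by
    have h4 := hC.e0
    simp only [h0, Int.cast_zero, sub_zero] at h4
    linear_combination h4
  have hei : ∀ i, 1 ≤ i → i + 1 ≤ 2 * e + 1 →
      (b i : ℝ) ^ 2 * (2 * lam (π i) - om (fun i => lam (π i)) * lam (π (i - 1)))
        + (b (i + 1) : ℝ) ^ 2 * (2 * lam (π i) - om (fun i => lam (π i)) * lam (π (i + 1)))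
        = ρ * lam (π i) := by
    intro i h1 h2
    have h4 := hC.ei i h1 h2
    simp only [h0, Int.cast_zero, sub_zero] at h4
    exact h4
  have hinj : ∀ i, i ≤ 2 * e + 1 → ∀ j, j ≤ 2 * e + 1 → lam (π i) = lam (π j) → i = j := by
    intro i hi j hj hij
    have h4 := hC.inj i hi j hj
    simp only [h0, Int.cast_zero, sub_zero] at h4
    exact h4 hij
  have hbpos : ∀ i, 1 ≤ i → i ≤ 2 * e + 1 → (1 : ℤ) ≤ b i ^ 2 := by
    intro i h1 h2
    have h4 := h.base.bpos i h1 h2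
    nlinarith
  generalize om (fun i => lam (π i)) = ω at *
  refine ⟨he, ?_, ?_, ?_, ?_, ?_, ?_, ?_, ?_, ?_⟩
  · show ((b 1 ^ 2 : ℤ) : ℝ) = 1
    rw [h.base.b1]
    norm_num
  · intro i h1 h2
    show (1 : ℝ) ≤ ((b i ^ 2 : ℤ) : ℝ)
    exact_mod_cast hbpos i h1 (by omega)
  · exact_mod_cast hbpos (e + 1) (by omega) (by omega)
  · intro i hi j hj hij
    have hij' : (-1 : ℝ) ^ i * lam (π i) = (-1 : ℝ) ^ j * lam (π j) := hij
    rcases neg_one_pow_eq_or ℝ i with hi1 | hi1 <;> rcases neg_one_pow_eq_or ℝ j with hj1 | hj1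
    · rw [hi1, hj1] at hij'
      exact hinj i (by omega) j (by omega) (by linarith)
    · rw [hi1, hj1] at hij'
      have h5 := hx j (by omega)
      have h6 := hinj i (by omega) (2 * e + 1 - j) (by omega) (by rw [h5]; linarith)
      omega
    · rw [hi1, hj1] at hij'
      have h5 := hx j (by omega)
      have h6 := hinj i (by omega) (2 * e + 1 - j) (by omega) (by rw [h5]; linarith)
      omega
    · rw [hi1, hj1] at hij'
      exact hinj i (by omega) j (by omega) (by linarith)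
  · intro i h1 h2
    obtain ⟨k, rfl⟩ : ∃ k, i = k + 1 := ⟨i - 1, by omega⟩
    have h4 := hc1 (k + 1) h1 (by omega)
    rw [Nat.add_sub_cancel] at h4 ⊢
    show (-1 : ℝ) ^ (k + 1 + 1) * lam (π (k + 1 + 1)) + (-1 : ℝ) ^ k * lam (π k)
      = -1 * ω * ((-1 : ℝ) ^ (k + 1) * lam (π (k + 1)))
    rw [pow_succ, pow_succ]
    linear_combination ((-1 : ℝ) ^ k) * h4
  · obtain ⟨k, rfl⟩ : ∃ k, e = k + 1 := ⟨e - 1, by omega⟩
    rw [Nat.add_sub_cancel] at hce ⊢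
    show (-1 : ℝ) ^ k * lam (π k) = (-1 * ω - 1) * ((-1 : ℝ) ^ (k + 1) * lam (π (k + 1)))
    rw [pow_succ]
    linear_combination ((-1 : ℝ) ^ k) * hce
  · have hs : ((-1 : ℝ) ^ e) ^ 2 = 1 := by
      rw [← pow_mul, mul_comm, pow_mul]
      norm_num
    show 2 * ((-1 : ℝ) ^ 0 * lam (π 0)) - -1 * ω * ((-1 : ℝ) ^ 1 * lam (π 1))
      = (2 - -1 * ω) * ((-1 : ℝ) ^ e * lam (π e)) ^ 2 * ((-1 : ℝ) ^ 0 * lam (π 0))
    rw [mul_pow, hs, hρ] at *
    linear_combination he0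
  · intro i h1 h2
    obtain ⟨k, rfl⟩ : ∃ k, i = k + 1 := ⟨i - 1, by omega⟩
    have h4 := hei (k + 1) h1 (by omega)
    rw [Nat.add_sub_cancel] at h4 ⊢
    have hs : ((-1 : ℝ) ^ e) ^ 2 = 1 := by
      rw [← pow_mul, mul_comm, pow_mul]
      norm_num
    show ((b (k + 1) ^ 2 : ℤ) : ℝ) * (2 * ((-1 : ℝ) ^ (k + 1) * lam (π (k + 1)))
        - -1 * ω * ((-1 : ℝ) ^ k * lam (π k)))
      + ((b (k + 1 + 1) ^ 2 : ℤ) : ℝ) * (2 * ((-1 : ℝ) ^ (k + 1) * lam (π (k + 1)))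
        - -1 * ω * ((-1 : ℝ) ^ (k + 1 + 1) * lam (π (k + 1 + 1))))
      = (2 - -1 * ω) * ((-1 : ℝ) ^ e * lam (π e)) ^ 2 * ((-1 : ℝ) ^ (k + 1) * lam (π (k + 1)))
    rw [mul_pow, hs, pow_succ, pow_succ]
    push_cast
    rw [hρ] at h4
    linear_combination (-((-1 : ℝ) ^ k)) * h4
  · obtain ⟨k, rfl⟩ : ∃ k, e = k + 1 := ⟨e - 1, by omega⟩
    have h4 := hei (k + 1) (by omega) (by omega)
    rw [Nat.add_sub_cancel] at h4 ⊢
    have hs : ((-1 : ℝ) ^ (k + 1)) ^ 2 = 1 := by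
      rw [← pow_mul, mul_comm, pow_mul]
      norm_num
    show ((b (k + 1) ^ 2 : ℤ) : ℝ) * (2 * ((-1 : ℝ) ^ (k + 1) * lam (π (k + 1)))
        - -1 * ω * ((-1 : ℝ) ^ k * lam (π k)))
      + (2 - -1 * ω) * ((b (k + 1 + 1) ^ 2 : ℤ) : ℝ) * ((-1 : ℝ) ^ (k + 1) * lam (π (k + 1)))
      = (2 - -1 * ω) * ((-1 : ℝ) ^ (k + 1) * lam (π (k + 1))) ^ 2
        * ((-1 : ℝ) ^ (k + 1) * lam (π (k + 1)))
    rw [mul_pow, hs, pow_succ]
    push_cast
    rw [hρ, hxe] at h4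
    linear_combination (-((-1 : ℝ) ^ k)) * h4

theorem A3 (h : Str d α b lam S N) (hd : 4 ≤ d) (h0 : ∀ i < d, α i = 0) (hc : 1 ≤ α d) :
    ∀ π, IsGal d lam π →
      EndChain d (fun i => ((b i ^ 2 : ℤ) : ℝ)) ((α d ^ 2 : ℤ) : ℝ)
        (fun i => (1 : ℝ) ^ i * lam (π i)) (1 * om (fun i => lam (π i))) := by
  intro π hπ
  have h3 : Three d α := ⟨0, 1, 2, by omega, by omega, by omega,
    by rw [h0 0 (by omega), h0 1 (by omega)], by rw [h0 1 (by omega), h0 2 (by omega)]⟩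
  obtain ⟨ρ, hC⟩ := (chains h hd h3).2.1 π hπ
  have h01 : α 1 = 0 := h0 1 (by omega)
  have hcd : α d - α 1 ≠ 0 := by omega
  have hinj : ∀ i, i ≤ d → ∀ j, j ≤ d → lam (π i) = lam (π j) → i = j := by
    intro i hi j hj hij
    have h4 := hC.inj i hi j hj
    simp only [h01, Int.cast_zero, sub_zero] at h4
    exact h4 hij
  have hc1 : ∀ i, 1 ≤ i → i + 1 ≤ d →
      lam (π (i + 1)) + lam (π (i - 1)) = om (fun i => lam (π i)) * lam (π i) := by
    intro i h1 h2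
    have h4 := hC.c1 i h1 h2
    simp only [h01, Int.cast_zero, sub_zero] at h4
    exact h4
  have hce : lam (π (d - 1)) = (om (fun i => lam (π i)) - 1) * lam (π d) := by
    have h4 := hC.cd hcd
    simp only [h01, Int.cast_zero, sub_zero] at h4
    exact h4
  have hρ : ρ = (2 - om (fun i => lam (π i))) * lam (π d) ^ 2 := by
    have h4 := hC.c2 (d - 1) (by omega)
    have h5 : d - 1 + 1 = d := by omega
    simp only [h01, Int.cast_zero, sub_zero, h5] at h4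
    rw [hce] at h4
    linear_combination -h4
  have he0 : 2 * lam (π 0) - om (fun i => lam (π i)) * lam (π 1) = ρ * lam (π 0) := by
    have h4 := hC.e0
    simp only [h01, Int.cast_zero, sub_zero] at h4
    linear_combination h4
  have hei : ∀ i, 1 ≤ i → i + 1 ≤ d →
      (b i : ℝ) ^ 2 * (2 * lam (π i) - om (fun i => lam (π i)) * lam (π (i - 1)))
        + (b (i + 1) : ℝ) ^ 2 * (2 * lam (π i) - om (fun i => lam (π i)) * lam (π (i + 1)))
        = ρ * lam (π i) := by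
    intro i h1 h2
    have h4 := hC.ei i h1 h2
    simp only [h01, Int.cast_zero, sub_zero] at h4
    exact h4
  have hed : (b d : ℝ) ^ 2 * (2 * lam (π d) - om (fun i => lam (π i)) * lam (π (d - 1)))
      + (2 - om (fun i => lam (π i))) * (α d : ℝ) ^ 2 * lam (π d) = ρ * lam (π d) := by
    have h4 := hC.ed
    simp only [h01, Int.cast_zero, sub_zero] at h4
    exact h4
  have hbpos : ∀ i, 1 ≤ i → i ≤ d → (1 : ℤ) ≤ b i ^ 2 := by
    intro i h1 h2
    have h4 := h.base.bpos i h1 h2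
    nlinarith
  generalize om (fun i => lam (π i)) = ω at *
  refine ⟨by omega, ?_, ?_, ?_, ?_, ?_, ?_, ?_, ?_, ?_⟩
  · show ((b 1 ^ 2 : ℤ) : ℝ) = 1
    rw [h.base.b1]
    norm_num
  · intro i h1 h2
    show (1 : ℝ) ≤ ((b i ^ 2 : ℤ) : ℝ)
    exact_mod_cast hbpos i h1 h2
  · have h4 : (1 : ℤ) ≤ α d ^ 2 := by nlinarith
    exact_mod_cast h4
  · intro i hi j hj hij
    have hij' : (1 : ℝ) ^ i * lam (π i) = (1 : ℝ) ^ j * lam (π j) := hij
    rw [one_pow, one_pow, one_mul, one_mul] at hij'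
    exact hinj i hi j hj hij'
  · intro i h1 h2
    have h4 := hc1 i h1 h2
    show (1 : ℝ) ^ (i + 1) * lam (π (i + 1)) + (1 : ℝ) ^ (i - 1) * lam (π (i - 1))
      = 1 * ω * ((1 : ℝ) ^ i * lam (π i))
    simp only [one_pow, one_mul]
    exact h4
  · show (1 : ℝ) ^ (d - 1) * lam (π (d - 1)) = (1 * ω - 1) * ((1 : ℝ) ^ d * lam (π d))
    simp only [one_pow, one_mul]
    exact hce
  · show 2 * ((1 : ℝ) ^ 0 * lam (π 0)) - 1 * ω * ((1 : ℝ) ^ 1 * lam (π 1))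
      = (2 - 1 * ω) * ((1 : ℝ) ^ d * lam (π d)) ^ 2 * ((1 : ℝ) ^ 0 * lam (π 0))
    simp only [one_pow, one_mul]
    rw [he0, hρ]
  · intro i h1 h2
    have h4 := hei i h1 h2
    show ((b i ^ 2 : ℤ) : ℝ) * (2 * ((1 : ℝ) ^ i * lam (π i))
        - 1 * ω * ((1 : ℝ) ^ (i - 1) * lam (π (i - 1))))
      + ((b (i + 1) ^ 2 : ℤ) : ℝ) * (2 * ((1 : ℝ) ^ i * lam (π i))
        - 1 * ω * ((1 : ℝ) ^ (i + 1) * lam (π (i + 1))))
      = (2 - 1 * ω) * ((1 : ℝ) ^ d * lam (π d)) ^ 2 * ((1 : ℝ) ^ i * lam (π i))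
    simp only [one_pow, one_mul]
    push_cast
    rw [h4, hρ]
  · show ((b d ^ 2 : ℤ) : ℝ) * (2 * ((1 : ℝ) ^ d * lam (π d))
        - 1 * ω * ((1 : ℝ) ^ (d - 1) * lam (π (d - 1))))
      + (2 - 1 * ω) * ((α d ^ 2 : ℤ) : ℝ) * ((1 : ℝ) ^ d * lam (π d))
      = (2 - 1 * ω) * ((1 : ℝ) ^ d * lam (π d)) ^ 2 * ((1 : ℝ) ^ d * lam (π d))
    simp only [one_pow, one_mul]
    push_cast
    rw [hed, hρ]

end LS
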