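import Pool.Agent.LS.Core
import Pool.Agent.LS.W0
import Pool.Agent.LS.W1
import Pool.Agent.LS.W3

/-! Part `A1` of the classification of self-dual Leonard systems with integral normalized
intersection numbers (MP_963a96_al). -/
open Finset
namespace LS

variable {d : ℕ} {α b : ℕ → ℤ} {lam : ℕ → ℝ} {S : ℕ → ℕ → ℝ} {N : ℕ → ℕ → ℕ → ℤ}

theorem A1 {d : ℕ} {b : ℕ → ℤ} {y : ℕ → ℝ} {ω ρ : ℝ} (h : Chain d 0 0 b y ω ρ)
    (hd : 4 ≤ d) (hb1 : b 1 = 1) (hb : ∀ i, 1 ≤ i → i ≤ d → 1 ≤ b i) (hb2 : b 2 = 1) :
    ∀ i, 1 ≤ i → i ≤ d → b i = 1 := by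
  have hb1' : (b 1 : ℝ) = 1 := by
    rw [hb1]
    norm_num
  have hb2' : (b 2 : ℝ) = 1 := by
    rw [hb2]
    norm_num
  have e0 := h.e0
  rw [Int.cast_zero] at e0
  have c1 := h.c1 1 le_rfl (by omega)
  have e1 := h.ei 1 le_rfl (by omega)
  simp only [Nat.reduceAdd, Nat.sub_self] at c1 e1
  rw [hb1', hb2'] at e1
  have h1 : (4 - ω ^ 2 - ρ) * y 1 = 0 := by
    linear_combination e1 + ω * c1
  have hρ : ρ = 4 - ω ^ 2 := by
    rcases mul_eq_zero.1 h1 with h2 | h2
    · linear_combination -h2
    · exfalso
      have hy0 : y 0 ≠ 0 := by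
        intro h3
        have := h.inj 0 (by omega) 1 (by omega) (by rw [h3, h2])
        omega
      rw [h2] at e0 c1
      have hρ2 : ρ = 2 := by
        have : (ρ - 2) * y 0 = 0 := by linear_combination -e0
        rcases mul_eq_zero.1 this with h4 | h4
        · linear_combination h4
        · exact absurd h4 hy0
      have c2 := h.c1 2 (by omega) (by omega)
      have c3 := h.c1 3 (by omega) (by omega)
      have e2 := h.ei 2 (by omega) (by omega)
      simp only [Nat.reduceAdd, Nat.reduceSub] at c2 c3 e2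
      rw [h2] at c2 e2
      rw [hb2', hρ2] at e2
      have hy2 : y 2 = - y 0 := by linear_combination c1
      have hy3 : y 3 = - ω * y 0 := by
        rw [hy2] at c2
        linear_combination c2
      rw [hy2, hy3] at e2
      have hb3 := hb 3 (by omega) (by omega)
      have hb3' : (1 : ℝ) ≤ (b 3 : ℝ) := by exact_mod_cast hb3
      have h5 : ((b 3 : ℝ) ^ 2 * y 0) * (ω ^ 2 - 2) = 0 := by linear_combination e2
      have hω : ω ^ 2 = 2 := by
        rcases mul_eq_zero.1 h5 with h6 | h6
        · exact absurd h6 (mul_ne_zero (by positivity) hy0)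
        · linear_combination h6
      have := h.inj 4 (by omega) 2 (by omega) (by
        rw [hy2, hy3] at c3
        rw [hy2]
        linear_combination c3 - y 0 * hω)
      omega
  intro i
  induction i with
  | zero => intro h; omega
  | succ i ih =>
    intro _ hi
    rcases Nat.eq_zero_or_pos i with rfl | hi0
    · exact hb1
    have hbi : (b i : ℝ) = 1 := by
      rw [ih hi0 (by omega)]
      norm_num
    have ei := h.ei i hi0 hi
    have ci := h.c1 i hi0 hi
    rw [hbi, hρ] at ei
    have h2 : ((b (i + 1) : ℝ) ^ 2 - 1) * (2 * y i - ω * y (i + 1)) = 0 := by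
      linear_combination ei + ω * ci
    have hbp := hb (i + 1) (by omega) hi
    rcases mul_eq_zero.1 h2 with h3 | h3
    · have h4 : ((b (i + 1)) ^ 2 - 1 : ℤ) = 0 := by exact_mod_cast h3
      nlinarith
    · exfalso
      rcases Nat.lt_or_ge (i + 1) d with h4 | h4
      · have c2 := h.c1 (i + 1) (by omega) (by omega)
        rw [Nat.add_sub_cancel] at c2
        have := h.inj (i + 1 + 1) (by omega) i (by omega) (by linear_combination c2 - h3)
        omega
      · have hd' : d = i + 1 := by omega
        subst hd'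
        have ed := h.ed
        rw [Nat.add_sub_cancel, Int.cast_zero, hρ] at ed
        have hy : y (i + 1) ≠ 0 := by
          intro h5
          rw [h5] at h3
          have := h.inj (i + 1) le_rfl i (by omega) (by rw [h5]; linear_combination (-1 / 2 : ℝ) * h3)
          omega
        have hω2 : ω - 2 ≠ 0 := by
          intro h5
          have := h.inj (i + 1) le_rfl i (by omega) (by
            linear_combination (-1 / 2 : ℝ) * h3 - (1 / 2 : ℝ) * y (i + 1) * h5)
          omega
        have hω2' : ω + 2 ≠ 0 := by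
          intro h5
          have e5 : y i = - y (i + 1) := by
            linear_combination (1 / 2 : ℝ) * h3 + (1 / 2 : ℝ) * y (i + 1) * h5
          have := h.inj (i - 1) (by omega) (i + 1) le_rfl (by
            linear_combination ci + ω * e5 - y (i + 1) * h5)
          omega
        have h6 : ((b (i + 1) : ℝ) ^ 2 - 2) * (((ω - 2) * (ω + 2)) * y (i + 1)) = 0 := by
          linear_combination (-2 : ℝ) * ed + (-ω * (b (i + 1) : ℝ) ^ 2) * h3
        rcases mul_eq_zero.1 h6 with h7 | h7
        · have h8 : ((b (i + 1)) ^ 2 - 2 : ℤ) = 0 := by exact_mod_cast h7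
          have h9 : b (i + 1) < 2 := by nlinarith
          have h10 : b (i + 1) = 1 := by omega
          rw [h10] at h8
          norm_num at h8
        · exact mul_ne_zero (mul_ne_zero hω2 hω2') hy h7

theorem A2 (h : Str d α b lam S N) (h0 : ∀ i, α i = 0) (hd : Even d) (hd2 : 2 ≤ d) :
    b 2 = 1 := by
  have hbout : b (d + 1) = 0 := h.base.bout _ (by omega)
  have key : ∀ i, 1 ≤ i → i ≤ d → 1 + b 2 * N 2 i i = b i ^ 2 + b (i + 1) ^ 2 := by
    intro i hi hi'
    have e1 := N_rec h 1 (by omega) i hi' i hi'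
    simp only [Nat.sub_self, Nat.reduceAdd] at e1
    rw [h0 1, h0 i, N_zero h i hi' i hi', if_pos rfl, h.base.b1, N_one h (i - 1) (by omega) i hi'] at e1
    have e2 : Te α b (i - 1) i = b i := by
      unfold Te
      rw [if_neg (by omega), if_pos (by omega)]
    rw [e2] at e1
    have e3 : b (i + 1) * N 1 (i + 1) i = b (i + 1) ^ 2 := by
      rcases Nat.lt_or_ge i d with h3 | h3
      · rw [N_one h (i + 1) (by omega) i hi']
        unfold Te
        rw [if_neg (by omega), if_neg (by omega), if_pos rfl, pow_two]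
      · have : i = d := by omega
        subst this
        rw [hbout]
        ring
    rw [e3] at e1
    linear_combination e1
  have hpar : ∀ k, (2 * k + 1 ≤ d → b 2 ∣ b (2 * k + 1) ^ 2 - 1) ∧ (2 * k + 2 ≤ d → b 2 ∣ b (2 * k + 2) ^ 2) := by
    intro k
    induction k with
    | zero =>
      constructor
      · intro _
        rw [Nat.mul_zero, Nat.zero_add, h.base.b1]
        norm_num
      · intro _
        rw [Nat.mul_zero, Nat.zero_add]
        exact Dvd.intro_left (b 2) (by ring)
    | succ k ih =>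
      have s1 : 2 * (k + 1) + 1 ≤ d → b 2 ∣ b (2 * (k + 1) + 1) ^ 2 - 1 := by
        intro hk
        obtain ⟨m, hm⟩ := ih.2 (by omega)
        have e1 := key (2 * k + 2) (by omega) (by omega)
        have e2 : 2 * (k + 1) + 1 = 2 * k + 2 + 1 := by ring
        rw [e2]
        exact ⟨N 2 (2 * k + 2) (2 * k + 2) - m, by linear_combination -e1 - hm⟩
      refine ⟨s1, fun hk => ?_⟩
      obtain ⟨m, hm⟩ := s1 (by omega)
      have e1 := key (2 * (k + 1) + 1) (by omega) (by omega)
      exact ⟨N 2 (2 * (k + 1) + 1) (2 * (k + 1) + 1) - m, by linear_combination -e1 - hm⟩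
  obtain ⟨hP, -, -⟩ := bip h h0
  have hbd : b d = 1 := by
    have e1 := hP.2 1 le_rfl (by omega)
    rw [Nat.add_sub_cancel, h.base.b1] at e1
    exact e1
  obtain ⟨m, hm⟩ := hd
  obtain ⟨k, hk⟩ : ∃ k, d = 2 * k + 2 := ⟨m - 1, by omega⟩
  have h1 := (hpar k).2 (by omega)
  rw [← hk, hbd, one_pow] at h1
  have h2 := h.base.bpos 2 (by omega) hd2
  exact Int.eq_one_of_dvd_one (by omega) h1

end LS
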