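import Pool.Agent.LS.Core

/-! Part `B1` of the classification of self-dual Leonard systems with integral normalized
intersection numbers (MP_963a96_al). -/
open Finset
namespace LS

theorem B1 {d : ℕ} {a c : ℤ} {b : ℕ → ℤ} {y : ℕ → ℝ} {ω ρ : ℝ} (h : Chain d a c b y ω ρ)
    (hd : 3 ≤ d) (ha : 1 ≤ a) (hb1 : b 1 = 1) :
    y 0 ≠ 0 ∧ ρ = (2 - ω) * y 0 ^ 2 ∧ ω ≠ 2 ∧ y 0 ^ 2 = 1 + ω + (a:ℝ) ^ 2 ∧
    (((b 2 : ℝ)) ^ 2 - 1) * ω ^ 2 + ((b 2 : ℝ) ^ 2 - (a:ℝ) ^ 2) * (ω - 1) = 0 ∧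
    ω ≠ 1 ∧ ω ≠ 0 ∧ ω ≠ -1 ∧ ω ^ 2 + ω - 1 ≠ 0 := by
  have ha0 : a ≠ 0 := by omega
  have y1 := h.c0 ha0
  have y2 : y 2 = (ω ^ 2 - ω - 1) * y 0 := by
    have h1 := h.c1 1 le_rfl (by omega)
    simp only [Nat.reduceAdd, Nat.sub_self] at h1
    rw [y1] at h1
    linear_combination h1
  have y3 : y 3 = ω * ((ω ^ 2 - ω - 1) * y 0) - (ω - 1) * y 0 := by
    have h1 := h.c1 2 (by omega) (by omega)
    simp only [Nat.reduceAdd, Nat.add_one_sub_one] at h1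
    rw [y1, y2] at h1
    linear_combination h1
  have hY : y 0 ≠ 0 := by
    intro h0
    have h1 := h.inj 0 (by omega) 1 (by omega) (by rw [y1, h0, mul_zero])
    omega
  have hρ : ρ = (2 - ω) * y 0 ^ 2 := by
    have h1 := h.c2 0 (by omega)
    simp only [zero_add] at h1
    rw [y1] at h1
    linear_combination -h1
  have hω2 : ω ≠ 2 := by
    intro h2
    have h1 := h.inj 0 (by omega) 1 (by omega) (by rw [y1, h2]; ring)
    omega
  have h2ω : (2 - ω) * y 0 ≠ 0 := mul_ne_zero (sub_ne_zero.2 (Ne.symm hω2)) hY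
  have hY2 : y 0 ^ 2 = 1 + ω + (a:ℝ) ^ 2 := by
    have h1 := h.e0
    rw [y1, hρ] at h1
    have h3 : (2 - ω) * y 0 * (y 0 ^ 2 - (1 + ω + (a:ℝ) ^ 2)) = 0 := by
      linear_combination -h1
    have h4 := (mul_eq_zero.1 h3).resolve_left h2ω
    linarith
  have hq : (((b 2 : ℝ)) ^ 2 - 1) * ω ^ 2 + ((b 2 : ℝ) ^ 2 - (a:ℝ) ^ 2) * (ω - 1) = 0 := by
    have h1 := h.ei 1 le_rfl (by omega)
    simp only [Nat.reduceAdd, Nat.sub_self] at h1
    rw [y1, y2, hρ, hb1] at h1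
    push_cast at h1
    have h3 : (2 - ω) * y 0 * ((((b 2 : ℝ)) ^ 2 - 1) * ω ^ 2 +
        ((b 2 : ℝ) ^ 2 - (a:ℝ) ^ 2) * (ω - 1)) = 0 := by
      linear_combination h1 + (2 - ω) * y 0 * (ω - 1) * hY2
    exact (mul_eq_zero.1 h3).resolve_left h2ω
  refine ⟨hY, hρ, hω2, hY2, hq, ?_, ?_, ?_, ?_⟩
  · intro h1
    have h2 := h.inj 2 (by omega) 3 (by omega) (by rw [y2, y3, h1]; ring)
    omega
  · intro h1
    have h2 := h.inj 1 (by omega) 2 (by omega) (by rw [y1, y2, h1]; ring)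
    omega
  · intro h1
    have h2 := h.inj 0 (by omega) 2 (by omega) (by rw [y2, h1]; ring)
    omega
  · intro h1
    have h2 := h.inj 1 (by omega) 3 (by omega) (by
      rw [y1, y3]
      linear_combination (-(ω - 2) * y 0) * h1)
    omega

theorem B2 {d : ℕ} {a c : ℤ} {b : ℕ → ℤ} {y : ℕ → ℝ} {ω ρ : ℝ} (h : Chain d a c b y ω ρ)
    (hd : 3 ≤ d) (ha : 1 ≤ a) (hb1 : b 1 = 1) (hb : ∀ i, 1 ≤ i → i ≤ d → 1 ≤ b i) :
    ω < 2 ∧ (ω ≤ -2 → a = 1 ∧ b 2 = 1) := by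
  obtain ⟨hY, hρ, hω2, hY2, hq, -, -, -, -⟩ := B1 h hd ha hb1
  have ha0 : a ≠ 0 := by omega
  have y1 := h.c0 ha0
  constructor
  · by_contra hcon
    have hω : 2 < ω := lt_of_le_of_ne (not_lt.1 hcon) (Ne.symm hω2)
    have hind : ∀ i, i + 1 ≤ d → 0 < y i / y 0 ∧ (ω - 1) * (y i / y 0) ≤ y (i + 1) / y 0 := by
      intro i
      induction i with
      | zero =>
        intro _
        rw [div_self hY, zero_add, y1, mul_div_assoc, div_self hY]
        exact ⟨one_pos, le_rfl⟩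
      | succ i ih =>
        intro hi
        obtain ⟨h1, h2⟩ := ih (by omega)
        have h3 : 0 < y (i + 1) / y 0 := by nlinarith
        refine ⟨h3, ?_⟩
        have h4 := h.c1 (i + 1) (by omega) hi
        rw [Nat.add_sub_cancel] at h4
        have h5 : y (i + 1 + 1) / y 0 = ω * (y (i + 1) / y 0) - y i / y 0 := by
          have h6 : y (i + 1 + 1) = ω * y (i + 1) - y i := by linarith
          rw [h6]
          ring
        rw [h5]
        nlinarith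
    obtain ⟨e, rfl⟩ : ∃ e, d = e + 1 := ⟨d - 1, by omega⟩
    obtain ⟨h1, h2⟩ := hind e le_rfl
    have h3 : 0 < y (e + 1) / y 0 := by nlinarith
    by_cases hc : c = 0
    · have h4 := h.ed
      rw [hc, hρ, Nat.add_sub_cancel] at h4
      push_cast at h4
      have h5 : (b (e + 1) : ℝ) ^ 2 * (2 * (y (e + 1) / y 0) - ω * (y e / y 0)) =
          (2 - ω) * y 0 ^ 2 * (y (e + 1) / y 0) := by
        field_simp
        linear_combination h4
      have h6 : 0 ≤ (b (e + 1) : ℝ) ^ 2 * (2 * (y (e + 1) / y 0) - ω * (y e / y 0)) := by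
        apply mul_nonneg (sq_nonneg _)
        nlinarith
      have h7 : (2 - ω) * y 0 ^ 2 * (y (e + 1) / y 0) < 0 := by
        apply mul_neg_of_neg_of_pos _ h3
        exact mul_neg_of_neg_of_pos (by linarith) (by positivity)
      linarith
    · have h4 := h.cd hc
      rw [Nat.add_sub_cancel] at h4
      have h5 : y e / y 0 = (ω - 1) * (y (e + 1) / y 0) := by
        rw [h4]
        ring
      nlinarith
  · intro hω
    have hb2 : (1 : ℝ) ≤ (b 2 : ℝ) := by exact_mod_cast hb 2 (by omega) (by omega)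
    have hB : (1 : ℝ) ≤ (b 2 : ℝ) ^ 2 := by nlinarith
    have haR : (1 : ℝ) ≤ (a : ℝ) := by exact_mod_cast ha
    have h1 : 0 < ω ^ 2 + ω - 1 := by nlinarith
    have h2 : (b 2 : ℝ) ^ 2 * (ω ^ 2 + ω - 1) = ω ^ 2 + (a : ℝ) ^ 2 * (ω - 1) := by
      linear_combination hq
    have h3 : (a : ℝ) ^ 2 ≤ 1 := by
      by_contra h4
      have h5 : 1 < (a : ℝ) ^ 2 := not_le.1 h4
      nlinarith [mul_le_mul_of_nonneg_right hB h1.le]
    have h4 : a = 1 := by
      have h5 : (a : ℝ) ≤ 1 := by nlinarith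
      have h6 : a ≤ 1 := by exact_mod_cast h5
      omega
    refine ⟨h4, ?_⟩
    rw [h4] at h2
    push_cast at h2
    have h5 : ((b 2 : ℝ) ^ 2 - 1) * (ω ^ 2 + ω - 1) = 0 := by linear_combination h2
    have h6 : (b 2 : ℝ) ^ 2 - 1 = 0 := (mul_eq_zero.1 h5).resolve_right h1.ne'
    have h7 : (b 2 : ℝ) = 1 := by nlinarith
    exact_mod_cast h7

end LS
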