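import Pool.Agent.LS.Core
import Pool.Agent.LS.B1

/-! Part `B3` of the classification of self-dual Leonard systems with integral normalized
intersection numbers (MP_963a96_al). -/
open Finset
namespace LS

theorem B3 {d : ℕ} {c : ℤ} {b : ℕ → ℤ} {y : ℕ → ℝ} {ω ρ : ℝ} (h : Chain d 1 c b y ω ρ)
    (hd : 3 ≤ d) (hb1 : b 1 = 1) (hb : ∀ i, 1 ≤ i → i ≤ d → 1 ≤ b i) (hb2 : b 2 = 1) :
    (∀ i, 1 ≤ i → i ≤ d → b i = 1) ∧ (c = 0 ∨ c = 1 ∨ c = -1) := by
  obtain ⟨hy0, hρ, hω2, hy02, -⟩ := B1 h hd le_rfl hb1
  have hρ' : ρ = 4 - ω ^ 2 := by
    rw [hρ, hy02]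
    push_cast
    ring
  have hωm2 : ω ≠ -2 := by
    intro h1
    apply hy0
    have h2 : y 0 ^ 2 = 0 := by
      rw [hy02, h1]
      push_cast
      norm_num
    exact pow_eq_zero_iff (two_ne_zero) |>.1 h2
  have hω4 : 4 - ω ^ 2 ≠ 0 := by
    intro h1
    have h2 : (2 - ω) * (2 + ω) = 0 := by linear_combination h1
    rcases mul_eq_zero.1 h2 with h3 | h3
    · exact hω2 (by linarith)
    · exact hωm2 (by linarith)
  have hyd : y (d - 1) ≠ y d := fun h1 => by
    have := h.inj (d - 1) (by omega) d le_rfl h1
    omega
  have hcdy : ∀ t : ℝ, y (d - 1) = t * y d → y d ≠ 0 := fun t h1 h2 => by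
    apply hyd
    rw [h1, h2, mul_zero]
  have hall : ∀ i, 1 ≤ i → i ≤ d → b i = 1 := by
    intro i hi1
    induction i, hi1 using Nat.le_induction with
    | base => intro _; exact hb1
    | succ i hi1 ih =>
      intro hid
      have hbi := ih (by omega)
      have h1 := h.ei i hi1 hid
      have h2 := h.c1 i hi1 hid
      rw [hbi, hρ'] at h1
      push_cast at h1
      have h3 : ((b (i + 1) : ℝ) ^ 2 - 1) * (2 * y i - ω * y (i + 1)) = 0 := by
        linear_combination h1 + ω * h2
      have hbge := hb (i + 1) (by omega) hid
      rcases mul_eq_zero.1 h3 with h4 | h4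
      · have h5 : ((b (i + 1) : ℝ) - 1) * (b (i + 1) + 1) = 0 := by linear_combination h4
        have hbge' : (1 : ℝ) ≤ b (i + 1) := by exact_mod_cast hbge
        rcases mul_eq_zero.1 h5 with h6 | h6
        · have h7 : (b (i + 1) : ℝ) = 1 := by linarith
          exact_mod_cast h7
        · exfalso
          linarith
      · exfalso
        by_cases hi2 : i + 2 ≤ d
        · have h5 := h.c1 (i + 1) (by omega) hi2
          rw [Nat.add_sub_cancel] at h5
          have h6 : y (i + 1 + 1) = y i := by linarith
          have := h.inj (i + 1 + 1) (by omega) i (by omega) h6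
          omega
        · have hid' : i = d - 1 := by omega
          have hid2 : i + 1 = d := by omega
          rw [hid2, hid'] at h4
          have hyd0 : y d ≠ 0 := hcdy (ω / 2) (by linarith)
          by_cases hc : c = 0
          · have h5 := h.ed
            rw [hc, hρ'] at h5
            push_cast at h5
            have h6 : ((b d : ℝ) ^ 2 - 2) * ((4 - ω ^ 2) * y d) = 0 := by
              linear_combination 2 * h5 + (b d : ℝ) ^ 2 * ω * h4
            rcases mul_eq_zero.1 h6 with h7 | h7
            · have h8 : (b d : ℤ) ^ 2 = 2 := by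
                have : (b d : ℝ) ^ 2 = 2 := by linarith
                exact_mod_cast this
              have h9 := hb d (by omega) le_rfl
              have h10 : b d < 2 := by nlinarith
              have h11 : b d = 1 := by omega
              rw [h11] at h8
              norm_num at h8
            · rcases mul_eq_zero.1 h7 with h8 | h8
              · exact hω4 h8
              · exact hyd0 h8
          · have h5 := h.cd hc
            have h6 : (ω - 2) * y d = 0 := by linear_combination h4 - 2 * h5
            rcases mul_eq_zero.1 h6 with h7 | h7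
            · exact hω2 (by linarith)
            · exact hyd0 h7
  refine ⟨hall, ?_⟩
  by_cases hc : c = 0
  · left; exact hc
  · right
    have h5 := h.cd hc
    have hyd0 : y d ≠ 0 := hcdy _ h5
    have h6 := h.ed
    rw [hall d (by omega) le_rfl, hρ'] at h6
    push_cast at h6
    have h7 : ((c : ℝ) ^ 2 - 1) * ((2 - ω) * y d) = 0 := by
      linear_combination h6 + ω * h5
    have h8 : (2 - ω) * y d ≠ 0 := mul_ne_zero (fun h9 => hω2 (by linarith)) hyd0
    have h9 : ((c : ℝ) - 1) * (c + 1) = 0 := by
      rcases mul_eq_zero.1 h7 with h10 | h10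
      · linear_combination h10
      · exact absurd h10 h8
    rcases mul_eq_zero.1 h9 with h10 | h10
    · left
      have : (c : ℝ) = 1 := by linarith
      exact_mod_cast this
    · right
      have : (c : ℝ) = -1 := by linarith
      exact_mod_cast this

end LS
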