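import Pool.Agent.LS.Core
import Pool.Agent.LS.W0

/-! Part `GA1` of the classification of self-dual Leonard systems with integral normalized
intersection numbers (MP_963a96_al). -/
open Finset
namespace LS

theorem ga1_Te (α b : ℕ → ℤ) (i k : ℕ) : Te α b i k =
    (if i = k then α i else 0) + (if i + 1 = k then b k else 0) + (if k + 1 = i then b i else 0) := by
  unfold Te
  split_ifs <;> omega

theorem ga1_eig {d : ℕ} {α b : ℕ → ℤ} {lam : ℕ → ℝ} {S : ℕ → ℕ → ℝ} (hB : Base d α b)
    (h : Weak d α b lam S) {i j : ℕ} (hi : i ≤ d) (hj : j ≤ d) :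
    ∑ k ∈ range (d + 1), (Te α b i k : ℝ) * S k j = lam j * S i j := by
  rw [h.eig i hi j hj]
  have h1 : ∀ k : ℕ, (Te α b i k : ℝ) * S k j =
      (if i = k then (α i : ℝ) * S i j else 0) + (if i + 1 = k then (b (i + 1) : ℝ) * S (i + 1) j else 0) +
        (if i - 1 = k then (b i : ℝ) * S (i - 1) j else 0) := by
    intro k
    rw [ga1_Te]
    push_cast
    rw [add_mul, add_mul]
    refine congrArg₂ (· + ·) (congrArg₂ (· + ·) ?_ ?_) ?_
    · by_cases h2 : i = k
      · subst h2
        rw [if_pos rfl, if_pos rfl]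
      · rw [if_neg h2, if_neg h2, zero_mul]
    · by_cases h2 : i + 1 = k
      · subst h2
        rw [if_pos rfl, if_pos rfl]
      · rw [if_neg h2, if_neg h2, zero_mul]
    · by_cases h2 : k + 1 = i
      · subst h2
        rw [if_pos rfl, Nat.add_sub_cancel, if_pos rfl]
      · rw [if_neg h2, zero_mul]
        by_cases h3 : i - 1 = k
        · have h4 : i = 0 := by omega
          rw [if_pos h3, h4, hB.b0, Int.cast_zero, zero_mul]
        · rw [if_neg h3]
  rw [Finset.sum_congr rfl fun k _ => h1 k, Finset.sum_add_distrib, Finset.sum_add_distrib,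
    Finset.sum_ite_eq, Finset.sum_ite_eq, Finset.sum_ite_eq,
    if_pos (Finset.mem_range.2 (by omega : i < d + 1)),
    if_pos (Finset.mem_range.2 (by omega : i - 1 < d + 1))]
  have h5 : (if i + 1 ∈ range (d + 1) then (b (i + 1) : ℝ) * S (i + 1) j else 0) = b (i + 1) * S (i + 1) j := by
    by_cases h6 : i + 1 ∈ range (d + 1)
    · rw [if_pos h6]
    · rw [if_neg h6, hB.bout (i + 1) (by
        rw [Finset.mem_range] at h6
        omega), Int.cast_zero, zero_mul]
  rw [h5]
  ring

def ga1_M (d : ℕ) (α b : ℕ → ℤ) : Matrix (Fin (d + 1)) (Fin (d + 1)) ℚ := fun i k => (Te α b i k : ℚ)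

theorem ga1_root {d : ℕ} {α b : ℕ → ℤ} {lam : ℕ → ℝ} {S : ℕ → ℕ → ℝ} (hB : Base d α b)
    (h : Weak d α b lam S) {j : ℕ} (hj : j ≤ d) :
    ((ga1_M d α b).charpoly.map (algebraMap ℚ ℝ)).eval (lam j) = 0 := by
  rw [← Matrix.charpoly_map, Matrix.eval_charpoly, ← Matrix.exists_mulVec_eq_zero_iff]
  refine ⟨fun i => S i j, ?_, ?_⟩
  · intro h0
    have h1 := congrFun h0 ⟨0, by omega⟩
    exact h.ne j hj h1
  · have h2 : Matrix.mulVec ((ga1_M d α b).map (algebraMap ℚ ℝ)) (fun i : Fin (d + 1) => S i j) =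
        fun i : Fin (d + 1) => lam j * S i j := by
      funext i
      have h3 := ga1_eig hB h (i := i) (j := j) (by omega) hj
      rw [← h3, ← Fin.sum_univ_eq_sum_range (fun k => (Te α b i k : ℝ) * S k j) (d + 1)]
      rw [Matrix.mulVec, dotProduct]
      refine Finset.sum_congr rfl fun k _ => ?_
      rw [Matrix.map_apply]
      have h4 : (algebraMap ℚ ℝ) (ga1_M d α b i k) = (Te α b i k : ℝ) := by
        unfold ga1_M
        exact map_intCast (algebraMap ℚ ℝ) _
      rw [h4]
    rw [Matrix.sub_mulVec, h2]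
    funext i
    simp [Matrix.scalar_apply]

theorem ga1_splits {d : ℕ} {α b : ℕ → ℤ} {lam : ℕ → ℝ} {S : ℕ → ℕ → ℝ} (hB : Base d α b)
    (h : Weak d α b lam S) :
    ((ga1_M d α b).charpoly.map (algebraMap ℚ ℝ)).Splits ∧
      ∀ x : ℝ, ((ga1_M d α b).charpoly.map (algebraMap ℚ ℝ)).eval x = 0 → ∃ k ≤ d, x = lam k := by
  have hmon : ((ga1_M d α b).charpoly.map (algebraMap ℚ ℝ)).Monic := (Matrix.charpoly_monic _).map _
  have hdeg : ((ga1_M d α b).charpoly.map (algebraMap ℚ ℝ)).natDegree = d + 1 := by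
    rw [(Matrix.charpoly_monic _).natDegree_map, Matrix.charpoly_natDegree_eq_dim, Fintype.card_fin]
  obtain ⟨g, hg⟩ : ∃ g, g = (ga1_M d α b).charpoly.map (algebraMap ℚ ℝ) := ⟨_, rfl⟩
  have hroot : ∀ j ≤ d, g.eval (lam j) = 0 := fun j hj => by
    rw [hg]
    exact ga1_root hB h hj
  rw [← hg] at hmon hdeg ⊢
  have hinj : Set.InjOn lam (range (d + 1) : Finset ℕ) := by
    intro i hi j hj hij
    rw [Finset.mem_coe, Finset.mem_range] at hi hj
    exact weak_inj hB h i (by omega) j (by omega) hij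
  have hcard : ((range (d + 1)).image lam).card = d + 1 := by
    rw [Finset.card_image_of_injOn hinj, Finset.card_range]
  have hsub : (range (d + 1)).image lam ⊆ g.roots.toFinset := by
    intro x hx
    obtain ⟨j, hj, rfl⟩ := Finset.mem_image.1 hx
    rw [Finset.mem_range] at hj
    rw [Multiset.mem_toFinset, Polynomial.mem_roots hmon.ne_zero]
    exact hroot j (by omega)
  have h1 := Finset.card_le_card hsub
  have h2 := Multiset.toFinset_card_le g.roots
  have h3 := Polynomial.card_roots' g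
  rw [hcard] at h1
  rw [hdeg] at h3
  constructor
  · rw [Polynomial.splits_iff_card_roots, hdeg]
    omega
  · intro x hx
    have h4 : (range (d + 1)).image lam = g.roots.toFinset :=
      Finset.eq_of_subset_of_card_le hsub (by rw [hcard]; omega)
    have h5 : x ∈ g.roots.toFinset := by
      rw [Multiset.mem_toFinset, Polynomial.mem_roots hmon.ne_zero]
      exact hx
    rw [← h4] at h5
    obtain ⟨k, hk, hk'⟩ := Finset.mem_image.1 h5
    rw [Finset.mem_range] at hk
    exact ⟨k, by omega, hk'.symm⟩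

theorem fixed_field {d : ℕ} {α b : ℕ → ℤ} {lam : ℕ → ℝ} {S : ℕ → ℕ → ℝ} {N : ℕ → ℕ → ℕ → ℤ}
    (h : Str d α b lam S N) (P Q : MvPolynomial ℕ ℚ) (hQ : MvPolynomial.aeval lam Q ≠ 0)
    (hfix : ∀ π, IsGal d lam π →
      MvPolynomial.aeval (fun i => lam (π i)) P * MvPolynomial.aeval lam Q
        = MvPolynomial.aeval lam P * MvPolynomial.aeval (fun i => lam (π i)) Q) :
    ∃ r : ℚ, MvPolynomial.aeval lam P = (r : ℝ) * MvPolynomial.aeval lam Q := by
  have hB := h.base
  have hW := h.weak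
  obtain ⟨hsp, hall⟩ := ga1_splits hB hW
  obtain ⟨f, hf⟩ : ∃ f, f = (ga1_M d α b).charpoly := ⟨_, rfl⟩
  have hf0 : f ≠ 0 := by
    rw [hf]
    exact (Matrix.charpoly_monic _).ne_zero
  have hroot : ∀ j ≤ d, Polynomial.aeval (lam j) f = 0 := by
    intro j hj
    rw [Polynomial.aeval_def, Polynomial.eval₂_eq_eval_map, hf]
    exact ga1_root hB hW hj
  rw [← hf] at hsp hall
  have hmem : ∀ j ≤ d, lam j ∈ f.rootSet ℝ := fun j hj =>
    Polynomial.mem_rootSet.2 ⟨hf0, hroot j hj⟩
  let K : IntermediateField ℚ ℝ := IntermediateField.adjoin ℚ (f.rootSet ℝ)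
  have hK : f.IsSplittingField ℚ K := IntermediateField.adjoin_rootSet_isSplittingField hsp
  have hfd : FiniteDimensional ℚ K := Polynomial.IsSplittingField.finiteDimensional K f
  have hnor : Normal ℚ K := Normal.of_isSplittingField f
  have hgal : IsGalois ℚ K := ⟨⟩
  obtain ⟨lamK, hlamK⟩ : ∃ g : ℕ → K, ∀ j, ((g j : K) : ℝ) = lam j := by
    refine ⟨fun j => if hj : j ≤ d then ⟨lam j, IntermediateField.subset_adjoin ℚ _ (hmem j hj)⟩ else 0, ?_⟩
    intro j
    by_cases hj : j ≤ d
    · simp only [dif_pos hj]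
    · simp only [dif_neg hj]
      rw [h.lamout j (by omega)]
      rfl
  have hval : ∀ R : MvPolynomial ℕ ℚ, ∀ u : ℕ → K,
      ((MvPolynomial.aeval u R : K) : ℝ) = MvPolynomial.aeval (fun i => ((u i : K) : ℝ)) R := by
    intro R u
    exact MvPolynomial.comp_aeval_apply (f := u) K.val R
  have hperm : ∀ σ : K ≃ₐ[ℚ] K, ∃ π : ℕ → ℕ, (∀ i ≤ d, π i ≤ d) ∧ (∀ i, d < i → π i = i) ∧
      ∀ i, σ (lamK i) = lamK (π i) := by
    intro σ
    have h1 : ∀ i, ∃ k, (i ≤ d → k ≤ d) ∧ (d < i → k = i) ∧ σ (lamK i) = lamK k := by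
      intro i
      by_cases hi : i ≤ d
      · have h2 : Polynomial.aeval (lamK i) f = 0 := by
          apply Subtype.ext
          have h3 : ((Polynomial.aeval (lamK i) f : K) : ℝ) = Polynomial.aeval ((lamK i : K) : ℝ) f :=
            (Polynomial.aeval_algHom_apply K.val (lamK i) f).symm
          rw [h3, hlamK, hroot i hi]
          rfl
        have h4 : Polynomial.aeval (σ (lamK i)) f = 0 := by
          have := Polynomial.aeval_algHom_apply (σ : K →ₐ[ℚ] K) (lamK i) f
          rw [h2, map_zero] at this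
          exact this
        have h5 : Polynomial.aeval ((σ (lamK i) : K) : ℝ) f = 0 := by
          have h3 : Polynomial.aeval ((σ (lamK i) : K) : ℝ) f = ((Polynomial.aeval (σ (lamK i)) f : K) : ℝ) :=
            Polynomial.aeval_algHom_apply K.val (σ (lamK i)) f
          rw [h3, h4]
          rfl
        rw [Polynomial.aeval_def, Polynomial.eval₂_eq_eval_map] at h5
        obtain ⟨k, hk, hk'⟩ := hall _ h5
        refine ⟨k, fun _ => hk, fun h6 => absurd hi (by omega), ?_⟩
        apply Subtype.ext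
        rw [hk', hlamK]
      · refine ⟨i, fun h6 => absurd h6 hi, fun _ => rfl, ?_⟩
        have h6 : lamK i = 0 := by
          apply Subtype.ext
          rw [hlamK, h.lamout i (by omega)]
          rfl
        rw [h6, map_zero]
    choose π hπ using h1
    exact ⟨π, fun i hi => (hπ i).1 hi, fun i hi => (hπ i).2.1 hi, fun i => (hπ i).2.2⟩
  have hsig : ∀ (σ : K ≃ₐ[ℚ] K) (π : ℕ → ℕ), (∀ i, σ (lamK i) = lamK (π i)) → ∀ R : MvPolynomial ℕ ℚ,
      MvPolynomial.aeval (fun i => lam (π i)) R = ((σ (MvPolynomial.aeval lamK R) : K) : ℝ) := by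
    intro σ π hπ R
    have h1 : σ (MvPolynomial.aeval lamK R) = MvPolynomial.aeval (fun i => σ (lamK i)) R :=
      MvPolynomial.comp_aeval_apply (f := lamK) (σ : K →ₐ[ℚ] K) R
    rw [h1, hval]
    have h2 : (fun i => lam (π i)) = fun i => ((σ (lamK i) : K) : ℝ) := by
      funext i
      rw [hπ, hlamK]
    rw [h2]
  have hid : ∀ R : MvPolynomial ℕ ℚ, MvPolynomial.aeval lam R = ((MvPolynomial.aeval lamK R : K) : ℝ) := by
    intro R
    rw [hval]
    have h2 : lam = fun i => ((lamK i : K) : ℝ) := by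
      funext i
      rw [hlamK]
    rw [← h2]
  have hQK : MvPolynomial.aeval lamK Q ≠ 0 := by
    intro h0
    apply hQ
    rw [hid, h0]
    rfl
  have hfixed : ∀ σ : K ≃ₐ[ℚ] K, σ (MvPolynomial.aeval lamK P / MvPolynomial.aeval lamK Q) =
      MvPolynomial.aeval lamK P / MvPolynomial.aeval lamK Q := by
    intro σ
    obtain ⟨π, h1, h2, h3⟩ := hperm σ
    have hG : IsGal d lam π := by
      refine ⟨h1, ?_, h2, ?_⟩
      · intro i hi j hj hij
        have h4 : σ (lamK i) = σ (lamK j) := by rw [h3, h3, hij]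
        have h5 : lamK i = lamK j := σ.injective h4
        have h6 : lam i = lam j := by rw [← hlamK, ← hlamK, h5]
        exact weak_inj hB hW i hi j hj h6
      · intro R hR
        rw [hid] at hR
        have h4 : MvPolynomial.aeval lamK R = 0 := Subtype.ext hR
        rw [hsig σ π h3 R, h4, map_zero]
        rfl
    have h7 := hfix π hG
    rw [hsig σ π h3 P, hsig σ π h3 Q, hid, hid] at h7
    have h8 : σ (MvPolynomial.aeval lamK P) * MvPolynomial.aeval lamK Q =
        MvPolynomial.aeval lamK P * σ (MvPolynomial.aeval lamK Q) := by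
      apply Subtype.ext
      exact h7
    have h9 : σ (MvPolynomial.aeval lamK Q) ≠ 0 := by
      rw [Ne, map_eq_zero]
      exact hQK
    rw [map_div₀, div_eq_div_iff h9 hQK]
    exact h8
  obtain ⟨r, hr⟩ := (IsGalois.mem_range_algebraMap_iff_fixed (F := ℚ) (E := K) _).2 hfixed
  refine ⟨r, ?_⟩
  rw [eq_div_iff hQK] at hr
  rw [hid P, hid Q, ← hr]
  rfl

end LS
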