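import Pool.Agent.LS.Core
import Pool.Agent.LS.W0
import Pool.Agent.LS.GA1

/-! Part `GA2` of the classification of self-dual Leonard systems with integral normalized
intersection numbers (MP_963a96_al). -/
open Finset
namespace LS

variable {d : ℕ} {α b : ℕ → ℤ} {lam : ℕ → ℝ} {S : ℕ → ℕ → ℝ} {N : ℕ → ℕ → ℕ → ℤ}

theorem om_dich (h : Str d α b lam S N) (hd : 3 ≤ d) :
    (∃ r : ℚ, om lam = r) ∨ ∃ π, IsGal d lam π ∧ om (fun i => lam (π i)) ≠ om lam := by
  classical
  by_cases hex : ∃ π, IsGal d lam π ∧ om (fun i => lam (π i)) ≠ om lam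
  · exact Or.inr hex
  · left
    push Not at hex
    have hinj := weak_inj h.base h.weak
    have hQ : MvPolynomial.aeval lam (MvPolynomial.X 1 - MvPolynomial.X 2 : MvPolynomial ℕ ℚ) ≠ 0 := by
      simp only [map_sub, MvPolynomial.aeval_X]
      intro h0
      have := hinj 1 (by omega) 2 (by omega) (sub_eq_zero.1 h0)
      omega
    obtain ⟨r, hr⟩ := fixed_field h (MvPolynomial.X 0 - MvPolynomial.X 3)
      (MvPolynomial.X 1 - MvPolynomial.X 2) hQ (by
        intro π hπ
        have h1 := hex π hπ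
        simp only [map_sub, MvPolynomial.aeval_X] at hQ ⊢
        have hQ' : lam (π 1) - lam (π 2) ≠ 0 := by
          intro h0
          have h2 := hinj (π 1) (hπ.maps 1 (by omega)) (π 2) (hπ.maps 2 (by omega)) (sub_eq_zero.1 h0)
          have h3 := hπ.inj 1 (by omega) 2 (by omega) h2
          omega
        unfold om at h1
        have h4 : (lam (π 0) - lam (π 3)) / (lam (π 1) - lam (π 2)) = (lam 0 - lam 3) / (lam 1 - lam 2) := by
          linarith
        rw [div_eq_div_iff hQ' hQ] at h4
        exact h4)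
    simp only [map_sub, MvPolynomial.aeval_X] at hQ hr
    refine ⟨r - 1, ?_⟩
    unfold om
    rw [hr, mul_div_cancel_right₀ _ hQ]
    push_cast
    ring

theorem exists_moved (h : Str d α b lam S N)
    (hr : ¬ ∀ j ≤ d, ∃ r : ℚ, lam j = r) :
    ∃ π, IsGal d lam π ∧ ∃ j ≤ d, π j ≠ j := by
  by_contra hcon
  push Not at hcon
  apply hr
  intro j hj
  obtain ⟨r, hr'⟩ := fixed_field h (MvPolynomial.X j) 1 (by simp) (by
    intro π hπ
    simp only [MvPolynomial.aeval_X, map_one, mul_one]
    rw [hcon π hπ j hj])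
  refine ⟨r, ?_⟩
  simpa using hr'

end LS
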