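import Pool.Agent.LS.Core
import Pool.Agent.LS.W0
import Pool.Agent.LS.W1

/-! Part `GA3` of the classification of self-dual Leonard systems with integral normalized
intersection numbers (MP_963a96_al). -/
open Finset
namespace LS

variable {d : ℕ} {α b : ℕ → ℤ} {lam : ℕ → ℝ} {S : ℕ → ℕ → ℝ} {N : ℕ → ℕ → ℕ → ℤ}

theorem t_integral (h : Str d α b lam S N) : ∀ i ≤ d, ∀ j ≤ d, IsIntegral ℤ (S i j / S 0 j) := by
  intro i hi m hm
  have hne : S 0 m ≠ 0 := h.weak.ne m hm
  let V : Submodule ℤ ℝ := Submodule.span ℤ ((fun k => S k m) '' (↑(range (d+1)) : Set ℕ))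
  have hmem : ∀ k ≤ d, S k m ∈ V := fun k hk =>
    Submodule.subset_span ⟨k, by simpa using Nat.lt_succ_of_le hk, rfl⟩
  have hV : V ≠ ⊥ := by
    intro h0
    have h1 := hmem 0 (Nat.zero_le d)
    rw [h0, Submodule.mem_bot] at h1
    exact hne h1
  have hfg : V.FG := Submodule.fg_span ((Finset.finite_toSet _).image _)
  refine isIntegral_of_smul_mem_submodule V hV hfg _ ?_
  intro n hn
  induction hn using Submodule.span_induction with
  | mem x hx =>
    obtain ⟨j, hj, rfl⟩ := hx
    have hj' : j ≤ d := by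
      have : j < d + 1 := by simpa using hj
      omega
    have h1 := PF1 h i hi j hj' m hm
    show S i m / S 0 m * S j m ∈ V
    rw [← h1]
    refine Submodule.sum_mem _ fun k hk => ?_
    have hk' : k ≤ d := by
      have := Finset.mem_range.1 hk
      omega
    have h2 : (N i j k : ℝ) * S k m = (N i j k) • S k m := by
      rw [zsmul_eq_mul]
    rw [h2]
    exact Submodule.smul_mem _ _ (hmem k hk')
  | zero =>
    rw [smul_zero]
    exact Submodule.zero_mem _
  | add x y _ _ hx hy =>
    rw [smul_add]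
    exact Submodule.add_mem _ hx hy
  | smul c x _ hx =>
    rw [smul_comm]
    exact Submodule.smul_mem _ _ hx

theorem lam_integral (h : Str d α b lam S N) : ∀ j ≤ d, IsIntegral ℤ (lam j) := by
  intro j hj
  rw [lam_eq h j hj]
  exact t_integral h 1 h.base.one_le j hj

theorem int_of_rat (x : ℝ) (hx : IsIntegral ℤ x) (r : ℚ) (hr : x = r) : ∃ n : ℤ, x = n := by
  subst hr
  have h1 : IsIntegral ℤ (algebraMap ℚ ℝ r) := hx
  have h2 : IsIntegral ℤ r := (isIntegral_algebraMap_iff (algebraMap ℚ ℝ).injective).1 h1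
  obtain ⟨n, hn⟩ := IsIntegrallyClosed.isIntegral_iff.1 h2
  refine ⟨n, ?_⟩
  rw [← hn]
  simp

end LS
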