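import Pool.Agent.LS.Core

/-! Part `NT` of the classification of self-dual Leonard systems with integral normalized
intersection numbers (MP_963a96_al). -/
open Finset
namespace LS

theorem nt_quad {D t ω ω' : ℝ} (hD : D ≠ 0) (h : D * ω ^ 2 + t * (ω - 1) = 0)
    (h' : D * ω' ^ 2 + t * (ω' - 1) = 0) (hne : ω ≠ ω') :
    ω * ω' = ω + ω' ∧ (ω - 1) * (ω' - 1) = 1 ∧ ω + ω' = -t / D := by
  have hd : ω - ω' ≠ 0 := sub_ne_zero.2 hne
  have h1 : D * (ω + ω') = -t := by
    have e : (ω - ω') * (D * (ω + ω') + t) = 0 := by linear_combination h - h'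
    rcases mul_eq_zero.1 e with e1 | e1
    · exact absurd e1 hd
    · linarith
  have h2 : D * (ω * ω') = -t := by
    have e : (ω - ω') * (D * (ω * ω') + t) = 0 := by linear_combination ω' * h - ω * h'
    rcases mul_eq_zero.1 e with e1 | e1
    · exact absurd e1 hd
    · linarith
  have h3 : ω * ω' = ω + ω' := by
    apply mul_left_cancel₀ hD
    rw [h1, h2]
  refine ⟨h3, by linear_combination h3, ?_⟩
  rw [eq_div_iff hD]
  linarith

theorem nt_neg {ω ω' : ℝ} (h : (ω - 1) * (ω' - 1) = 1) (h1 : ω < 2) (h2 : ω' < 2)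
    (hne : ω ≠ ω') : ω < 1 ∧ ω' < 1 ∧ ω + ω' < 0 := by
  have key : ∀ x y : ℝ, (x - 1) * (y - 1) = 1 → x < 2 → y < 2 → x < 1 := by
    intro x y hxy hx hy
    by_contra hc
    rw [not_lt] at hc
    have h3 : 0 < y - 1 := by
      by_contra h4
      rw [not_lt] at h4
      have h5 : (x - 1) * (y - 1) ≤ 0 := mul_nonpos_of_nonneg_of_nonpos (by linarith) h4
      linarith
    have h6 : (x - 1) * (y - 1) ≤ 1 * (y - 1) := mul_le_mul_of_nonneg_right (by linarith) h3.le
    linarith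
  have h3 := key ω ω' h h1 h2
  have h4 := key ω' ω (by linear_combination h) h2 h1
  refine ⟨h3, h4, ?_⟩
  have h5 : 0 < (ω - ω') ^ 2 := by
    have : ω - ω' ≠ 0 := sub_ne_zero.2 hne
    positivity
  by_contra hc
  rw [not_lt] at hc
  have h6 : (ω + ω' - 2) ^ 2 = (ω - ω') ^ 2 + 4 := by linear_combination 4 * h
  nlinarith

theorem nt_small {ω ω' : ℝ} {n : ℤ} (h : (ω - 1) * (ω' - 1) = 1) (h1 : ω < 2) (h2 : ω' < 2)
    (h3 : -2 < ω) (h4 : -2 < ω') (hne : ω ≠ ω') (hn : ω + ω' = n) : ω ^ 2 + ω - 1 = 0 := by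
  obtain ⟨h5, h6, h7⟩ := nt_neg h h1 h2 hne
  have h8 : 0 < (ω + 2) * (ω' + 2) := mul_pos (by linarith) (by linarith)
  have h9 : -(4 / 3) < ω + ω' := by nlinarith
  have h10 : (n : ℝ) < 0 := by rw [← hn]; exact h7
  have h11 : (-2 : ℝ) < n := by rw [← hn]; linarith
  have h12 : n < 0 := by exact_mod_cast h10
  have h13 : -2 < n := by exact_mod_cast h11
  have h14 : n = -1 := by omega
  rw [h14] at hn
  push_cast at hn
  have h15 : ω' = -1 - ω := by linarith
  rw [h15] at h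
  nlinarith

theorem nt_range {ω ω' : ℝ} (h : (ω - 1) * (ω' - 1) = 1) (h1 : ω < -2) :
    2 / 3 < ω' ∧ ω' < 1 := by
  constructor
  · by_contra hc
    rw [not_lt] at hc
    have h2 : 0 ≤ (-(ω - 1) - 3) * (1 / 3) := by linarith
    nlinarith
  · by_contra hc
    rw [not_lt] at hc
    have h3 : (ω - 1) * (ω' - 1) ≤ 0 := mul_nonpos_of_nonpos_of_nonneg (by linarith) (by linarith)
    linarith

end LS
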