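import Pool.Agent.LS.Core
import Pool.Agent.LS.W0
import Pool.Agent.LS.W1
import Pool.Agent.LS.GA2
import Pool.Agent.LS.GA3
import Pool.Agent.LS.GA4
import Pool.Agent.LS.GA5
import Pool.Agent.LS.CHX
import Pool.Agent.LS.B1
import Pool.Agent.LS.NT

/-! Part `B4` of the classification of self-dual Leonard systems with integral normalized
intersection numbers (MP_963a96_al). -/
open Finset
namespace LS

variable {d : ℕ} {α b : ℕ → ℤ} {lam : ℕ → ℝ} {S : ℕ → ℕ → ℝ} {N : ℕ → ℕ → ℕ → ℤ}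

theorem b4_conj (h : Str d α b lam S N) (hd : 4 ≤ d) (h3 : Three d α) (ha : 1 ≤ α 1)
    (hneg : ¬(α 1 = 1 ∧ b 2 = 1)) {π : ℕ → ℕ} (hπ : IsGal d lam π) :
    -2 < om (fun i => lam (π i)) ∧ om (fun i => lam (π i)) < 2 ∧
    (((b 2 : ℝ)) ^ 2 - 1) * om (fun i => lam (π i)) ^ 2 +
      ((b 2 : ℝ) ^ 2 - (α 1 : ℝ) ^ 2) * (om (fun i => lam (π i)) - 1) = 0 ∧
    om (fun i => lam (π i)) ≠ 1 ∧ om (fun i => lam (π i)) ≠ 0 ∧ om (fun i => lam (π i)) ≠ -1 ∧
    om (fun i => lam (π i)) ^ 2 + om (fun i => lam (π i)) - 1 ≠ 0 ∧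
    IsIntegral ℤ (om (fun i => lam (π i))) := by
  obtain ⟨ρ, hc⟩ := (chains h hd h3).2.1 π hπ
  obtain ⟨hy0, hρ, hω2, hy02, hquad, h1, h0, hm1, hgold⟩ := B1 hc (by omega) ha h.base.b1
  obtain ⟨hlt, hle⟩ := B2 hc (by omega) ha h.base.b1 h.base.bpos
  refine ⟨?_, hlt, hquad, h1, h0, hm1, hgold, ?_⟩
  · by_contra hcon
    exact hneg (hle (not_lt.1 hcon))
  · have h4 : om (fun i => lam (π i)) =
        (lam (π 0) - (α 1 : ℝ)) ^ 2 - 1 - (α 1 : ℝ) ^ 2 := by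
      linear_combination (-1 : ℝ) * hy02
    have h5 : IsIntegral ℤ (lam (π 0)) := lam_integral h _ (hπ.maps 0 (by omega))
    have h6 : IsIntegral ℤ ((α 1 : ℤ) : ℝ) := isIntegral_algebraMap (R := ℤ) (A := ℝ) (x := α 1)
    rw [h4]
    exact (((h5.sub h6).pow 2).sub isIntegral_one).sub (h6.pow 2)

theorem B4 (h : Str d α b lam S N) (hd : 4 ≤ d) (h3 : Three d α) (ha : 1 ≤ α 1) :
    α 1 = 1 ∧ b 2 = 1 := by
  by_contra hneg
  have hid := b4_conj h hd h3 ha hneg (isGal_id d lam)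
  have hom : om (fun i => lam i) = om lam := rfl
  rw [hom] at hid
  obtain ⟨hgt, hlt, hquad, h1, h0, hm1, hgold, hint⟩ := hid

  have hb2 : (1 : ℝ) ≤ b 2 := by exact_mod_cast h.base.bpos 2 (by omega) (by omega)
  have ha' : (1 : ℝ) ≤ α 1 := by exact_mod_cast ha
  have hD : (b 2 : ℝ) ^ 2 - 1 ≠ 0 := by
    intro hD
    have h4 : (b 2 : ℝ) = 1 := by nlinarith
    have h5 : b 2 = 1 := by exact_mod_cast h4
    rw [h4] at hquad
    have h6 : (1 - (α 1 : ℝ) ^ 2) * (om lam - 1) = 0 := by linear_combination hquad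
    rcases mul_eq_zero.1 h6 with h7 | h7
    · have h8 : (α 1 : ℝ) = 1 := by nlinarith
      exact hneg ⟨by exact_mod_cast h8, h5⟩
    · exact h1 (by linarith)
  rcases om_dich h (by omega) with ⟨r, hr⟩ | ⟨π, hπ, hne⟩
  · obtain ⟨n, hn⟩ := int_of_rat _ hint r hr
    rw [hn] at hgt hlt h1 h0 hm1
    have h4 : -2 < n := by exact_mod_cast hgt
    have h5 : n < 2 := by exact_mod_cast hlt
    have h6 : n = -1 ∨ n = 0 ∨ n = 1 := by omega
    rcases h6 with h6 | h6 | h6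
    · apply hm1; rw [h6]; norm_num
    · apply h0; rw [h6]; norm_num
    · apply h1; rw [h6]; norm_num
  · obtain ⟨hgt', hlt', hquad', -, -, -, -, hint'⟩ := b4_conj h hd h3 ha hneg hπ
    obtain ⟨h4, h5, h6⟩ := nt_quad hD hquad hquad' (Ne.symm hne)
    have h7 : IsIntegral ℤ (om lam + om (fun i => lam (π i))) := hint.add hint'
    have h8 : om lam + om (fun i => lam (π i)) =
        ((-((b 2 : ℚ) ^ 2 - (α 1 : ℚ) ^ 2) / ((b 2 : ℚ) ^ 2 - 1) : ℚ) : ℝ) := by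
      rw [h6]
      push_cast
      ring
    obtain ⟨n, hn⟩ := int_of_rat _ h7 _ h8
    exact hgold (nt_small h5 hlt hlt' hgt hgt' (Ne.symm hne) hn)

end LS
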