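import Pool.Agent.LS.Core

/-! Part `E1` of the classification of self-dual Leonard systems with integral normalized
intersection numbers (MP_963a96_al). -/
open Finset
namespace LS

theorem e1_WV (ω : ℝ) (n : ℕ) : 2 * Wp ω (n + 1) - ω * Wp ω n = (ω - 2) * Vp ω n ∧
    2 * Wp ω (n + 2) - ω * Wp ω (n + 1) = (ω - 2) * Vp ω (n + 1) := by
  induction n with
  | zero =>
    constructor
    · show 2 * (ω - 1) - ω * 1 = (ω - 2) * 1
      ring
    · show 2 * (ω * (ω - 1) - 1) - ω * (ω - 1) = (ω - 2) * (ω + 1)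
      ring
  | succ n ih =>
    refine ⟨ih.2, ?_⟩
    have h1 : Wp ω (n + 1 + 2) = ω * Wp ω (n + 2) - Wp ω (n + 1) := rfl
    have h2 : Wp ω (n + 1 + 1) = ω * Wp ω (n + 1) - Wp ω n := rfl
    have h3 : Vp ω (n + 1 + 1) = ω * Vp ω (n + 1) - Vp ω n := rfl
    have h4 : Wp ω (n + 2) = ω * Wp ω (n + 1) - Wp ω n := rfl
    have h5 := ih.1
    have h6 := ih.2
    rw [h1, h2, h3]
    rw [h4] at h6
    linear_combination ω * h6 - h5

theorem e1_W {e : ℕ} {B : ℕ → ℝ} {C : ℝ} {y : ℕ → ℝ} {ω : ℝ} (h : EndChain e B C y ω) :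
    ∀ k ≤ e, y (e - k) = Wp ω k * y e := by
  intro k
  induction k using Nat.strong_induction_on with
  | _ k ih =>
    intro hk
    match k, ih, hk with
    | 0, _, _ =>
      show y (e - 0) = 1 * y e
      rw [one_mul, Nat.sub_zero]
    | 1, _, _ => exact h.ce
    | k + 2, ih, hk =>
      have h1 := ih k (by omega) (by omega)
      have h2 := ih (k + 1) (by omega) (by omega)
      have h3 := h.c1 (e - (k + 1)) (by omega) (by omega)
      rw [show e - (k + 1) + 1 = e - k by omega, show e - (k + 1) - 1 = e - (k + 2) by omega, h1,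
        h2] at h3
      show y (e - (k + 2)) = (ω * Wp ω (k + 1) - Wp ω k) * y e
      linear_combination h3

theorem E1 {e : ℕ} {B : ℕ → ℝ} {C : ℝ} {y : ℕ → ℝ} {ω : ℝ} (h : EndChain e B C y ω) :
    y e ≠ 0 ∧ ω ≠ 2 ∧ (∀ k ≤ e, y (e - k) = Wp ω k * y e) ∧
    C + (1 + ω) * B e = y e ^ 2 ∧
    B (e-1) * (ω ^ 2 + ω - 1) - B e = y e ^ 2 * (ω - 1) ∧
    (3 ≤ e → B (e-2) * (ω ^ 3 + ω ^ 2 - 2 * ω - 1) - (ω + 1) * B (e-1)
      = y e ^ 2 * (ω ^ 2 - ω - 1)) ∧
    y 0 * y e = - Vp ω (e-1) := by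
  have he := h.two_le
  have hne : y (e - 1) ≠ y e := fun h0 => by
    have := h.inj (e - 1) (by omega) e le_rfl h0
    omega
  have hy : y e ≠ 0 := fun h0 => hne (by rw [h.ce, h0, mul_zero])
  have hω : ω ≠ 2 := fun h0 => hne (by rw [h.ce, h0]; ring)
  have hω' : 2 - ω ≠ 0 := fun h0 => hω (by linarith)
  have hW := e1_W h
  have W1 : Wp ω 1 = ω - 1 := rfl
  have W2 : Wp ω 2 = ω * (ω - 1) - 1 := rfl
  have W3 : Wp ω 3 = ω * (ω * (ω - 1) - 1) - (ω - 1) := rfl
  have hc : (2 - ω) * y e ≠ 0 := mul_ne_zero hω' hy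
  refine ⟨hy, hω, hW, ?_, ?_, ?_, ?_⟩
  · apply mul_left_cancel₀ hc
    have h1 := h.ee
    rw [h.ce] at h1
    linear_combination h1
  · apply mul_left_cancel₀ hc
    have h1 := h.ei (e - 1) (by omega) (by omega)
    have h2 := hW 1 (by omega)
    have h3 := hW 2 he
    rw [show e - 1 + 1 = e by omega, show e - 1 - 1 = e - 2 by omega, h3, h2, W1, W2] at h1
    linear_combination h1
  · intro h3e
    apply mul_left_cancel₀ hc
    have h1 := h.ei (e - 2) (by omega) (by omega)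
    have h2 := hW 1 (by omega)
    have h3 := hW 2 he
    have h4 := hW 3 h3e
    rw [show e - 2 + 1 = e - 1 by omega, show e - 2 - 1 = e - 3 by omega, h4, h3, h2, W1, W2,
      W3] at h1
    linear_combination h1
  · apply mul_left_cancel₀ hc
    have h1 := h.e0
    have h2 := hW e le_rfl
    have h3 := hW (e - 1) (by omega)
    rw [Nat.sub_self] at h2
    rw [show e - (e - 1) = 1 by omega] at h3
    have h4 := (e1_WV ω (e - 1)).1
    rw [show e - 1 + 1 = e by omega] at h4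
    have h5 : 2 * y 0 - ω * y 1 = (ω - 2) * Vp ω (e - 1) * y e := by
      rw [h2, h3]
      linear_combination y e * h4
    linear_combination h5 - h1

end LS
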