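import Pool.Agent.LS.Core
import Pool.Agent.LS.E1

/-! Part `E2` of the classification of self-dual Leonard systems with integral normalized
intersection numbers (MP_963a96_al). -/
open Finset
namespace LS

theorem E2 {e : ℕ} {B : ℕ → ℝ} {C : ℝ} {y : ℕ → ℝ} {ω : ℝ} (h : EndChain e B C y ω)
    (hB : B (e-1) = B e) : (∀ i, 1 ≤ i → i ≤ e → B i = 1) ∧ C = 1 := by
  obtain ⟨hye, hω2, hW, r1, r2, -, r4⟩ := E1 h
  have h2e := h.two_le
  have hβ := h.Bpos e (by omega) (le_refl e)
  rw [hB] at r2
  have hω1 : ω ≠ 1 := by
    intro hω
    have w2 := hW 2 h2e
    have e2 : Wp ω 2 = -1 := by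
      simp only [Wp]
      rw [hω]
      norm_num
    rw [e2] at w2
    by_cases h3 : 3 ≤ e
    · have w3 := hW 3 h3
      have e3 : Wp ω 3 = -1 := by
        simp only [Wp]
        rw [hω]
        norm_num
      rw [e3] at w3
      have := h.inj (e-2) (by omega) (e-3) (by omega) (w2.trans w3.symm)
      omega
    · have he : e = 2 := by omega
      subst he
      have e4 : Vp ω (2-1) = 2 := by
        show ω + 1 = 2
        rw [hω]
        norm_num
      rw [e4] at r4
      have w2' : y 0 = -1 * y 2 := w2
      rw [w2'] at r4
      rw [hω] at r1
      have hC := h.Cpos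
      nlinarith
  have hg : y e ^ 2 = B e * (ω + 2) := by
    have h1 : (ω - 1) * (B e * (ω + 2) - y e ^ 2) = 0 := by linear_combination r2
    rcases mul_eq_zero.1 h1 with h2 | h2
    · exact absurd (by linarith) hω1
    · linarith
  have hC : C = B e := by linear_combination r1 + hg
  have hall : ∀ k, k + 1 ≤ e → B (e - k) = B e := by
    intro k
    induction k with
    | zero => intro _; rfl
    | succ k ih =>
      intro hk
      have ih' := ih (by omega)
      set i := e - (k+1) with hi
      have hi1 : 1 ≤ i := by omega
      have hi2 : i + 1 ≤ e := by omega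
      rw [show e - k = i + 1 by omega] at ih'
      have h1 := h.ei i hi1 hi2
      have h2 := h.c1 i hi1 hi2
      rw [ih', hg] at h1
      have h3 : (B i - B e) * (2 * y i - ω * y (i-1)) = 0 := by
        linear_combination h1 + ω * B e * h2
      rcases mul_eq_zero.1 h3 with h4 | h4
      · linarith
      · exfalso
        by_cases hi3 : 2 ≤ i
        · have h5 := h.c1 (i-1) (by omega) (by omega)
          rw [show i - 1 + 1 = i by omega, show i - 1 - 1 = i - 2 by omega] at h5
          have h6 : y (i-2) = y i := by linarith
          have := h.inj (i-2) (by omega) i (by omega) h6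
          omega
        · have hi4 : i = 1 := by omega
          rw [hi4] at h4 h2
          norm_num at h4 h2
          have e0 := h.e0
          rw [hg] at e0
          have hy0 : y 0 ≠ 0 := by
            intro hy
            rw [hy] at h4
            have h7 : y 1 = y 0 := by rw [hy]; linarith
            have := h.inj 1 (by omega) 0 (by omega) h7
            omega
          have h8 : (ω ^ 2 - 4) * ((2 * B e - 1) * y 0) = 0 := by
            linear_combination 2 * e0 + ω * h4
          have h9 : (2 * B e - 1) * y 0 ≠ 0 := mul_ne_zero (by linarith) hy0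
          have h10 := (mul_eq_zero.1 h8).resolve_right h9
          have h11 : (ω - 2) * (ω + 2) = 0 := by linear_combination h10
          rcases mul_eq_zero.1 h11 with h12 | h12
          · exact hω2 (by linarith)
          · have hω : ω = -2 := by linarith
            rw [hω] at h4 h2
            have h13 : y 2 = y 0 := by linarith
            have := h.inj 2 (by omega) 0 (by omega) h13
            omega
  have hβ1 : B e = 1 := by
    rw [← hall (e-1) (by omega), show e - (e-1) = 1 by omega]
    exact h.B1
  refine ⟨fun i hi1 hi2 => ?_, by rw [hC, hβ1]⟩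
  have := hall (e-i) (by omega)
  rw [show e - (e - i) = i by omega] at this
  rw [this, hβ1]

end LS
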