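import Pool.Agent.LS.Core
import Pool.Agent.LS.E1

/-! Part `E3` of the classification of self-dual Leonard systems with integral normalized
intersection numbers (MP_963a96_al). -/
open Finset
namespace LS

theorem e3_Wpos {w : ℝ} (hw : 2 ≤ w) (k : ℕ) : 0 < Wp w k ∧ Wp w k ≤ Wp w (k+1) := by
  induction k with
  | zero =>
    simp only [Wp, Nat.zero_add]
    constructor
    · norm_num
    · linarith
  | succ k ih =>
    obtain ⟨h1, h2⟩ := ih
    have h3 : 0 < Wp w (k+1) := lt_of_lt_of_le h1 h2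
    refine ⟨h3, ?_⟩
    show Wp w (k+1) ≤ w * Wp w (k+1) - Wp w k
    nlinarith

theorem e3_Vpos {w : ℝ} (hw : 2 ≤ w) (k : ℕ) : 0 < Vp w k ∧ Vp w k ≤ Vp w (k+1) := by
  induction k with
  | zero =>
    simp only [Vp, Nat.zero_add]
    constructor
    · norm_num
    · linarith
  | succ k ih =>
    obtain ⟨h1, h2⟩ := ih
    have h3 : 0 < Vp w (k+1) := lt_of_lt_of_le h1 h2
    refine ⟨h3, ?_⟩
    show Vp w (k+1) ≤ w * Vp w (k+1) - Vp w k
    nlinarith

theorem e3_Dpos {w : ℝ} (hw : 2 ≤ w) (k : ℕ) :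
    0 < Vp w (k+1) - Wp w k ∧ Vp w (k+1) - Wp w k ≤ Vp w (k+2) - Wp w (k+1) := by
  induction k with
  | zero =>
    simp only [Vp, Wp, Nat.zero_add]
    constructor
    · linarith
    · nlinarith
  | succ k ih =>
    obtain ⟨h1, h2⟩ := ih
    have h3 : 0 < Vp w (k+1+1) - Wp w (k+1) := lt_of_lt_of_le h1 h2
    refine ⟨h3, ?_⟩
    show Vp w (k+1+1) - Wp w (k+1) ≤ (w * Vp w (k+1+1) - Vp w (k+1)) - (w * Wp w (k+1) - Wp w k)
    have h4 : Vp w (k+2) = Vp w (k+1+1) := rfl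
    rw [h4] at h2
    nlinarith

theorem e3_neg (w : ℝ) (k : ℕ) :
    Wp (-w) k = (-1) ^ k * Vp w k ∧ Vp (-w) k = (-1) ^ k * Wp w k := by
  induction k using Nat.twoStepInduction with
  | zero => simp [Wp, Vp]
  | one =>
    simp only [Wp, Vp]
    constructor <;> ring
  | more k ih1 ih2 =>
    constructor
    · show -w * Wp (-w) (k+1) - Wp (-w) k = (-1) ^ (k+2) * (w * Vp w (k+1) - Vp w k)
      rw [ih1.1, ih2.1]
      ring
    · show -w * Vp (-w) (k+1) - Vp (-w) k = (-1) ^ (k+2) * (w * Wp w (k+1) - Wp w k)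
      rw [ih1.2, ih2.2]
      ring

theorem E3a {e : ℕ} {B : ℕ → ℝ} {C : ℝ} {y : ℕ → ℝ} {ω : ℝ} (h : EndChain e B C y ω) :
    ω < 2 := by
  obtain ⟨hye, hω2, hW, -, -, -, hlast⟩ := E1 h
  by_contra hcon
  push Not at hcon
  have h0 := hW e le_rfl
  rw [Nat.sub_self] at h0
  rw [h0] at hlast
  have h1 := (e3_Wpos hcon e).1
  have h2 := (e3_Vpos hcon (e-1)).1
  have h3 : 0 < Wp ω e * (y e * y e) := mul_pos h1 (mul_self_pos.mpr hye)
  nlinarith

theorem E3b {e : ℕ} {B : ℕ → ℝ} {C : ℝ} {y : ℕ → ℝ} {ω : ℝ} (h : EndChain e B C y ω) :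
    ω ≠ 0 ∧ ω ≠ -1 ∧ ω ≠ 1 := by
  obtain ⟨hye, hω2, hW, hC, -, -, hlast⟩ := E1 h
  have he2 := h.two_le
  have hW1 := hW 1 (by omega)
  have hW2 := hW 2 (by omega)
  have hW0 := hW 0 (by omega)
  simp only [Wp, Nat.sub_zero] at hW0 hW1 hW2
  refine ⟨?_, ?_, ?_⟩
  · intro hω
    subst hω
    have h1 : y (e - 1) = y (e - 2) := by rw [hW1, hW2]; ring
    have := h.inj (e-1) (by omega) (e-2) (by omega) h1
    omega
  · intro hω
    subst hω
    have h1 : y e = y (e - 2) := by rw [hW2]; ring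
    have := h.inj e le_rfl (e-2) (by omega) h1
    omega
  · intro hω
    subst hω
    rcases Nat.lt_or_ge e 3 with h3 | h3
    · have he : e = 2 := by omega
      subst he
      have h1 : y 0 = - y 2 := by
        have : (2 - 2 : ℕ) = 0 := rfl
        rw [this] at hW2
        rw [hW2]; ring
      have h2 : Vp 1 (2 - 1) = 2 := by
        show Vp 1 1 = 2
        simp only [Vp]; norm_num
      rw [h2, h1] at hlast
      have hC1 := h.Cpos
      have hB2 := h.Bpos 2 (by omega) le_rfl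
      nlinarith
    · have hW3 := hW 3 (by omega)
      simp only [Wp] at hW3
      have h1 : y (e - 2) = y (e - 3) := by rw [hW2, hW3]; ring
      have := h.inj (e-2) (by omega) (e-3) (by omega) h1
      omega

theorem E3c {e : ℕ} {B : ℕ → ℝ} {C : ℝ} {y : ℕ → ℝ} {ω : ℝ} (h : EndChain e B C y ω)
    (hw : ω ≤ -2) (n : ℤ) (hn : y e ^ 2 = n) : False := by
  obtain ⟨hye, hω2, hW, hC, -, -, hlast⟩ := E1 h
  have he2 := h.two_le
  have hg : (1:ℝ) ≤ y e ^ 2 := by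
    have h1 : (0:ℝ) < y e ^ 2 := by positivity
    rw [hn] at h1 ⊢
    have h2 : (0:ℤ) < n := by exact_mod_cast h1
    have h3 : (1:ℤ) ≤ n := h2
    exact_mod_cast h3
  obtain ⟨k, rfl⟩ : ∃ k, e = k + 1 := ⟨e - 1, by omega⟩
  have h0 := hW (k+1) le_rfl
  rw [Nat.sub_self] at h0
  rw [h0, Nat.add_sub_cancel] at hlast
  obtain ⟨w, hwdef⟩ : ∃ w : ℝ, w = -ω := ⟨_, rfl⟩
  have hω : ω = -w := by rw [hwdef]; ring
  subst hω
  have hw2 : 2 ≤ w := by linarith
  rw [(e3_neg w (k+1)).1, (e3_neg w k).2] at hlast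
  have h1 := (e3_Dpos hw2 k).1
  have h2 := (e3_Wpos hw2 k).1
  have h3 : (-1:ℝ) ^ k * (-1:ℝ) ^ k = 1 := by
    rw [← mul_pow]; norm_num
  have h4 : Vp w (k+1) * y (k+1) ^ 2 = Wp w k := by
    have h5 : (-1:ℝ) ^ (k+1) = - (-1:ℝ) ^ k := by ring
    rw [h5] at hlast
    have h6 : (-1:ℝ) ^ k * (Vp w (k+1) * y (k+1) ^ 2) = (-1:ℝ) ^ k * Wp w k := by
      linear_combination - hlast
    have h7 := congrArg (fun t => (-1:ℝ) ^ k * t) h6
    simp only [← mul_assoc, h3, one_mul] at h7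
    exact h7
  have h5 : Vp w (k+1) * 1 ≤ Vp w (k+1) * y (k+1) ^ 2 :=
    mul_le_mul_of_nonneg_left hg (by linarith)
  linarith

theorem E3d {e : ℕ} {B : ℕ → ℝ} {C : ℝ} {y : ℕ → ℝ} {ω : ℝ} (h : EndChain e B C y ω)
    (he : 3 ≤ e) : ω ^ 2 + ω - 1 ≠ 0 := by
  obtain ⟨hye, hω2, hW, hC, -, -, hlast⟩ := E1 h
  intro hq
  have hW1 := hW 1 (by omega)
  have hW3 := hW 3 (by omega)
  simp only [Wp] at hW1 hW3
  have h1 : y (e - 1) = y (e - 3) := by
    rw [hW1, hW3]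
    have h2 : ω * (ω * (ω - 1) - 1) - (ω - 1) = ω - 1 := by
      linear_combination (ω - 2) * hq
    rw [h2]
  have := h.inj (e-1) (by omega) (e-3) (by omega) h1
  omega

end LS
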