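import Pool.Agent.LS.Core
import Pool.Agent.LS.E1

/-! Part `E4` of the classification of self-dual Leonard systems with integral normalized
intersection numbers (MP_963a96_al). -/
open Finset
namespace LS

theorem e4_rel {e : ℕ} {B : ℕ → ℝ} {C : ℝ} {y : ℕ → ℝ} {ω : ℝ} (h : EndChain e B C y ω)
    (he : 3 ≤ e) (hω : 2 + ω ≠ 0) :
    ∃ K, K * (2 + ω) = y e ^ 2 ∧ 0 < y e ^ 2 ∧ C - K = -(1 + ω) * (B e - K) ∧
      B e - K = (ω ^ 2 + ω - 1) * (B (e - 1) - K) ∧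
      (ω + 1) * (B (e - 1) - K) = (ω ^ 3 + ω ^ 2 - 2 * ω - 1) * (B (e - 2) - K) := by
  obtain ⟨hy, _, _, h1, h2, h3, _⟩ := E1 h
  have h3' := h3 he
  have hK : y e ^ 2 / (2 + ω) * (2 + ω) = y e ^ 2 := div_mul_cancel₀ _ hω
  refine ⟨y e ^ 2 / (2 + ω), hK, by positivity, ?_, ?_, ?_⟩
  · linear_combination h1 - hK
  · linear_combination -h2 + (ω - 1) * hK
  · linear_combination -h3' + (ω ^ 2 - ω - 1) * hK

theorem E4 {e : ℕ} {B : ℕ → ℝ} {C : ℝ} {y y' : ℕ → ℝ} {ω ω' : ℝ} (h : EndChain e B C y ω)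
    (h' : EndChain e B C y' ω') (he : 3 ≤ e) (hw : ω < -2) (h1 : 2 / 3 < ω') (h2 : ω' < 1) :
    False := by
  obtain ⟨K, hK, hg, e0, e1, e2⟩ := e4_rel h he (by linarith)
  obtain ⟨K', hK', hg', e0', e1', e2'⟩ := e4_rel h' he (by linarith)
  have hK0 : K < 0 := by nlinarith
  have p1 := h.Bpos e (by omega) le_rfl
  have p2 := h.Bpos (e - 1) (by omega) (by omega)
  have p3 := h.Bpos (e - 2) (by omega) (by omega)

  have hCB : B e < C := by
    have q1 : 0 < B e - K := by linarith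
    nlinarith
  have hBB : B (e - 2) < B (e - 1) := by
    obtain ⟨w, hw'⟩ : ∃ w, w = -ω := ⟨_, rfl⟩
    have hww : 2 < w := by linarith
    have hωw : ω = -w := by linarith
    rw [hωw] at e2
    have q3 : 0 < B (e - 2) - K := by linarith
    have q4 : (w - 1) * (B (e - 1) - K) = (w ^ 3 - w ^ 2 - 2 * w + 1) * (B (e - 2) - K) := by
      linear_combination -e2
    have q5 : 0 < (w - 2) * (w ^ 2 + w - 1) := mul_pos (by linarith) (by nlinarith)
    have q6 : 0 < (w - 2) * (w ^ 2 + w - 1) * (B (e - 2) - K) := mul_pos q5 q3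
    have q7 : (w - 1) * (B (e - 1) - B (e - 2)) = (w - 2) * (w ^ 2 + w - 1) * (B (e - 2) - K) := by
      linear_combination q4
    have q8 : 0 < (w - 1) * (B (e - 1) - B (e - 2)) := by rw [q7]; exact q6
    have q9 : 0 < B (e - 1) - B (e - 2) := (pos_iff_pos_of_mul_pos q8).1 (by linarith)
    linarith

  have f1 : B e - K' < 0 := by
    by_contra hcon
    push Not at hcon
    nlinarith
  have f2 : B (e - 1) - K' < 0 := by
    have c1 : 0 < ω' ^ 2 + ω' - 1 := by nlinarith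
    by_contra hcon
    push Not at hcon
    have := mul_nonneg c1.le hcon
    linarith
  have f3 : 0 < B (e - 2) - K' := by
    have c2 : ω' ^ 3 + ω' ^ 2 - 2 * ω' - 1 < 0 := by
      have : 0 < ω' * (2 - ω' ^ 2 - ω') := mul_pos (by linarith) (by nlinarith)
      nlinarith
    by_contra hcon
    push Not at hcon
    have c3 := mul_nonneg_of_nonpos_of_nonpos c2.le hcon
    have c4 : (ω' + 1) * (B (e - 1) - K') < 0 := mul_neg_of_pos_of_neg (by linarith) f2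
    linarith
  linarith

theorem E5 {B : ℕ → ℝ} {C : ℝ} {y : ℕ → ℝ} {ω : ℝ} (h : EndChain 2 B C y ω) (m : ℤ)
    (hm : 1 ≤ m) (hB : B 2 = (m:ℝ) ^ 2) (s : ℤ) (hs : 1 ≤ s) (hω : ω ^ 2 = s - s * ω)
    (hirr : ∀ r : ℚ, ω ≠ r) : False := by
  obtain ⟨hy, _, hW, h1, h2, _, h4⟩ := E1 h
  have hW2 := hW 2 le_rfl
  have eW : Wp ω 2 = ω * (ω - 1) - 1 := by
    simp [Wp]
  have eV : Vp ω 1 = ω + 1 := by
    simp [Vp]
  rw [eW] at hW2
  norm_num at hW2 h2 h4
  rw [eV] at h4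
  rw [h.B1, hB] at h2
  have hg : (ω ^ 2 - ω - 1) * y 2 ^ 2 = -(ω + 1) := by
    rw [hW2] at h4
    linear_combination h4
  have key : (m : ℝ) ^ 2 * (ω ^ 2 - ω - 1) = ω ^ 2 * (ω ^ 2 - 2) := by
    linear_combination -(ω ^ 2 - ω - 1) * h2 - (ω - 1) * hg
  have lin : ((m : ℝ) ^ 2 * (s + 1) - s * (s ^ 2 + 2 * s - 2)) * ω =
      (m : ℝ) ^ 2 * (s - 1) - s * (s ^ 2 + s - 2) := by
    have k1 : (m : ℝ) ^ 2 * (s - s * ω - ω - 1) = (s - s * ω) * (s - s * ω - 2) := by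
      rw [← hω]
      exact key
    linear_combination -k1 - (s : ℝ) ^ 2 * hω
  have z1 : m ^ 2 * (s + 1) - s * (s ^ 2 + 2 * s - 2) = 0 := by
    by_contra hcon
    have hcon' : ((m : ℝ) ^ 2 * (s + 1) - s * (s ^ 2 + 2 * s - 2)) ≠ 0 := by exact_mod_cast hcon
    apply hirr (((m : ℚ) ^ 2 * (s - 1) - s * (s ^ 2 + s - 2)) / ((m : ℚ) ^ 2 * (s + 1) - s * (s ^ 2 + 2 * s - 2)))
    push_cast
    rw [eq_div_iff hcon', mul_comm]
    exact lin
  have z1' : ((m : ℝ) ^ 2 * (s + 1) - s * (s ^ 2 + 2 * s - 2)) = 0 := by exact_mod_cast z1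
  rw [z1', zero_mul] at lin
  have z2 : m ^ 2 * (s - 1) - s * (s ^ 2 + s - 2) = 0 := by exact_mod_cast lin.symm
  rcases eq_or_lt_of_le hs with hs1 | hs1
  · rw [← hs1] at z1
    have : 2 * m ^ 2 = 1 := by linarith
    omega
  · have z3 : (s - 1) * (m ^ 2 - s * (s + 2)) = 0 := by linear_combination z2
    have z4 : m ^ 2 - s * (s + 2) = 0 := (mul_eq_zero.1 z3).resolve_left (by omega)
    rcases le_or_gt m s with g | g
    · nlinarith
    · nlinarith

end LS
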