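import Pool.Agent.LS.Core
import Pool.Agent.LS.W0
import Pool.Agent.LS.GA3

/-! Part `RV3` of the classification of self-dual Leonard systems with integral normalized
intersection numbers (MP_963a96_al). -/
open Finset
namespace LS

theorem rv3_lin {d : ℕ} {ω : ℝ} {y : ℕ → ℝ}
    (h : ∀ i, 1 ≤ i → i + 1 ≤ d → y (i+1) + y (i-1) = ω * y i) :
    ∀ i, i + 2 ≤ d → y (i+2) = Up ω (i+1) * y 1 - Up ω i * y 0 := by
  intro i
  induction i using Nat.strong_induction_on with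
  | _ i ih =>
    intro hi
    have h1 := h (i+1) (by omega) (by omega)
    rw [show i + 1 + 1 = i + 2 from rfl, show i + 1 - 1 = i from rfl] at h1
    match i, ih, hi, h1 with
    | 0, _, _, h1 =>
      simp only [Up]
      linarith
    | 1, ih, hi, h1 =>
      have h2 := ih 0 (by omega) (by omega)
      simp only [Up] at h2 ⊢
      linear_combination h1 + ω * h2
    | (n+2), ih, hi, h1 =>
      have h2 := ih (n+1) (by omega) (by omega)
      have h3 := ih n (by omega) (by omega)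
      have e1 : Up ω (n+2+1) = ω * Up ω (n+2) - Up ω (n+1) := rfl
      have e2 : Up ω (n+2) = ω * Up ω (n+1) - Up ω n := rfl
      rw [show n + 1 + 2 = n + 2 + 1 from rfl, show n + 1 + 1 = n + 2 from rfl] at h2
      rw [e1]
      linear_combination h1 + ω * h2 - h3 + y 0 * e2

noncomputable def rv3_P (t : ℤ) : ℕ → Polynomial ℤ
  | 0 => 1
  | 1 => Polynomial.X + Polynomial.C t
  | (k+2) => Polynomial.X * rv3_P t (k+1) - rv3_P t k

theorem rv3_P_spec (t : ℤ) : ∀ k, ((rv3_P t k).Monic ∧ (rv3_P t k).degree = ((k : ℕ) : WithBot ℕ)) ∧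
    (rv3_P t (k+1)).Monic ∧ (rv3_P t (k+1)).degree = ((k+1 : ℕ) : WithBot ℕ) := by
  intro k
  induction k with
  | zero =>
    refine ⟨⟨Polynomial.monic_one, by simp [rv3_P]⟩, ?_, ?_⟩
    · exact Polynomial.monic_X_add_C t
    · simp only [rv3_P]
      rw [Polynomial.degree_X_add_C]
      rfl
  | succ k ih =>
    obtain ⟨⟨h1, h2⟩, h3, h4⟩ := ih
    refine ⟨⟨h3, h4⟩, ?_⟩
    have hX : (Polynomial.X * rv3_P t (k+1)).Monic := Polynomial.monic_X.mul h3
    have hd : (Polynomial.X * rv3_P t (k+1)).degree = ((k+1+1 : ℕ) : WithBot ℕ) := by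
      rw [Polynomial.degree_mul, Polynomial.degree_X, h4]
      norm_cast
      omega
    have hlt : (rv3_P t k).degree < (Polynomial.X * rv3_P t (k+1)).degree := by
      rw [hd, h2]
      exact_mod_cast (by omega : k < k+1+1)
    refine ⟨?_, ?_⟩
    · exact hX.sub_of_left hlt
    · show (Polynomial.X * rv3_P t (k+1) - rv3_P t k).degree = _
      rw [Polynomial.degree_sub_eq_left_of_degree_lt hlt, hd]

theorem rv3_int {ω : ℝ} (t : ℤ) {m : ℕ} (hm : 1 ≤ m)
    (h : IsIntegral ℤ (Polynomial.aeval ω (rv3_P t m))) : IsIntegral ℤ ω := by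
  refine IsIntegral.of_aeval_monic ((rv3_P_spec t m).1.1) ?_ h
  rw [Polynomial.natDegree_eq_of_degree_eq_some (rv3_P_spec t m).1.2]
  omega

theorem rv3_Up (ω : ℝ) : ∀ m, Polynomial.aeval ω (rv3_P 0 m) = Up ω m ∧
    Polynomial.aeval ω (rv3_P 0 (m+1)) = Up ω (m+1) := by
  intro m
  induction m with
  | zero => simp [rv3_P, Up]
  | succ m ih =>
    refine ⟨ih.2, ?_⟩
    show Polynomial.aeval ω (Polynomial.X * rv3_P 0 (m+1) - rv3_P 0 m) = ω * Up ω (m+1) - Up ω m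
    rw [map_sub, map_mul, Polynomial.aeval_X, ih.1, ih.2]

theorem rv3_Vp (ω : ℝ) : ∀ m, Polynomial.aeval ω (rv3_P 1 m) = Vp ω m ∧
    Polynomial.aeval ω (rv3_P 1 (m+1)) = Vp ω (m+1) := by
  intro m
  induction m with
  | zero => simp [rv3_P, Vp]
  | succ m ih =>
    refine ⟨ih.2, ?_⟩
    show Polynomial.aeval ω (Polynomial.X * rv3_P 1 (m+1) - rv3_P 1 m) = ω * Vp ω (m+1) - Vp ω m
    rw [map_sub, map_mul, Polynomial.aeval_X, ih.1, ih.2]

theorem rev_U {d : ℕ} {c a1 B ω : ℝ} {y : ℕ → ℝ} (h : RevC d c a1 B y ω) :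
    y 0 ^ 2 - c ^ 2 / 4 = 1 + Up ω (d-2) := by
  have hd := h.three_le
  obtain ⟨n, rfl⟩ : ∃ n, d = n + 3 := ⟨d - 3, by omega⟩
  have hlin := rv3_lin h.c1
  have h1 := hlin (n+1) (by omega)
  have h2 := hlin n (by omega)
  have a1' := h.anti 0 (by omega)
  have a2' := h.anti 1 (by omega)
  rw [show n + 3 - 0 = n + 1 + 2 from rfl] at a1'
  rw [show n + 3 - 1 = n + 2 from rfl] at a2'
  have e3 : Up ω (n+2) = ω * Up ω (n+1) - Up ω n := rfl
  rw [show n + 1 + 1 = n + 2 from rfl] at h1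
  rw [show n + 3 - 2 = n + 1 from rfl]
  have e1 : (Up ω (n+1) - 1) * y 0 = Up ω (n+2) * y 1 := by linear_combination h1 - a1'
  have e2 : (Up ω (n+1) + 1) * y 1 = Up ω n * y 0 := by linear_combination a2' - h2
  have key : (1 + Up ω (n+1)) * (y 0 ^ 2 - ω * y 0 * y 1 + y 1 ^ 2) =
      2 * y 0 ^ 2 - ω * y 0 * y 1 := by
    linear_combination y 0 * e1 + y 1 * e2 + y 0 * y 1 * e3
  have hn := h.n
  rw [← key] at hn
  exact mul_right_cancel₀ h.Q0 hn

theorem Up_integral {ω z : ℝ} {m : ℕ} (hm : 1 ≤ m) (hz : IsIntegral ℤ z) (h : Up ω m = z) :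
    IsIntegral ℤ ω := by
  apply rv3_int 0 hm
  rw [(rv3_Up ω m).1, h]
  exact hz

theorem Vp_integral {ω z : ℝ} {m : ℕ} (hm : 1 ≤ m) (hz : IsIntegral ℤ z) (h : Vp ω m = z) :
    IsIntegral ℤ ω := by
  apply rv3_int 1 hm
  rw [(rv3_Vp ω m).1, h]
  exact hz

end LS
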