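import Pool.Agent.LS.Core
import Pool.Agent.LS.W0
import Pool.Agent.LS.W1
import Pool.Agent.LS.GA2
import Pool.Agent.LS.GA3
import Pool.Agent.LS.RV3
import Pool.Agent.LS.CHX
import Pool.Agent.LS.NT
import Pool.Agent.LS.E1
import Pool.Agent.LS.E2
import Pool.Agent.LS.E3
import Pool.Agent.LS.E4

/-! Part `E6` of the classification of self-dual Leonard systems with integral normalized
intersection numbers (MP_963a96_al). -/
open Finset
namespace LS

variable {d : ℕ} {α b : ℕ → ℤ} {lam : ℕ → ℝ} {S : ℕ → ℕ → ℝ} {N : ℕ → ℕ → ℕ → ℤ}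

theorem end_number (h : Str d α b lam S N) (hd : 4 ≤ d) (e : ℕ) (he : 2 ≤ e) (hed : e ≤ d)
    (B : ℕ → ℤ) (C : ℤ) (σ : ℝ) (hσ : σ = 1 ∨ σ = -1)
    (h2 : e = 2 → ∃ m : ℤ, 1 ≤ m ∧ B 2 = m ^ 2)
    (hall : ∀ π, IsGal d lam π → EndChain e (fun i => (B i : ℝ)) (C : ℝ)
      (fun i => σ ^ i * lam (π i)) (σ * om (fun i => lam (π i)))) :
    (∀ i, 1 ≤ i → i ≤ e → B i = 1) ∧ C = 1 := by
  have hid : EndChain e (fun i => (B i : ℝ)) (C : ℝ) (fun i => σ ^ i * lam i) (σ * om lam) :=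
    hall (fun i => i) (isGal_id d lam)
  have hσ2 : σ * σ = 1 := by
    rcases hσ with h1 | h1 <;> rw [h1] <;> norm_num
  have hσint : IsIntegral ℤ σ := by
    rcases hσ with h1 | h1
    · rw [h1]; exact isIntegral_one
    · rw [h1]; exact isIntegral_one.neg
  by_cases hB : B (e-1) = B e
  · obtain ⟨h1, h3⟩ := E2 hid (by simp only [hB])
    refine ⟨fun i hi hie => ?_, ?_⟩
    · have := h1 i hi hie
      exact_mod_cast this
    · exact_mod_cast h3
  exfalso
  obtain ⟨D, hD⟩ : ∃ D : ℝ, D = (B (e-1) : ℝ) - (B e : ℝ) := ⟨_, rfl⟩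
  obtain ⟨t, ht⟩ : ∃ t : ℝ, t = (B (e-1) : ℝ) - (C : ℝ) := ⟨_, rfl⟩
  have hDne : D ≠ 0 := by
    rw [hD]
    intro h0
    apply hB
    have : (B (e-1) : ℝ) = (B e : ℝ) := by linarith
    exact_mod_cast this
  have key : ∀ π, IsGal d lam π → D * (σ * om (fun i => lam (π i))) ^ 2
      + t * ((σ * om (fun i => lam (π i))) - 1) = 0 ∧
      IsIntegral ℤ (σ * om (fun i => lam (π i))) := by
    intro π hπ
    obtain ⟨-, -, -, hC, hm, -, hlast⟩ := E1 (hall π hπ)
    refine ⟨?_, ?_⟩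
    · rw [hD, ht]
      linear_combination hm - (σ * om (fun i => lam (π i)) - 1) * hC
    · have h1 := lam_integral h (π 0) (hπ.maps 0 (by omega))
      have h3 := lam_integral h (π e) (hπ.maps e hed)
      have h4 : IsIntegral ℤ (-((σ ^ 0 * lam (π 0)) * (σ ^ e * lam (π e)))) :=
        (((hσint.pow 0).mul h1).mul ((hσint.pow e).mul h3)).neg
      refine Vp_integral (m := e - 1) (by omega) h4 ?_
      rw [hlast, neg_neg]
  have hkid : D * (σ * om lam) ^ 2 + t * ((σ * om lam) - 1) = 0 ∧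
      IsIntegral ℤ (σ * om lam) := key (fun i => i) (isGal_id d lam)
  by_cases hrat : ∃ r : ℚ, om lam = r
  · obtain ⟨r, hr⟩ := hrat
    have hr' : ∃ r' : ℚ, σ * om lam = r' := by
      rcases hσ with h1 | h1
      · exact ⟨r, by rw [h1, hr, one_mul]⟩
      · exact ⟨-r, by rw [h1, hr]; push_cast; ring⟩
    obtain ⟨r', hr'⟩ := hr'
    obtain ⟨n, hn⟩ := int_of_rat _ hkid.2 r' hr'
    have h1 := E3a hid
    obtain ⟨h3, h4, h5⟩ := E3b hid
    rw [hn] at h1 h3 h4 h5
    have h1' : n < 2 := by exact_mod_cast h1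
    have h3' : n ≠ 0 := by exact_mod_cast h3
    have h4' : n ≠ -1 := by exact_mod_cast h4
    have h5' : n ≠ 1 := by exact_mod_cast h5
    have h6 : n ≤ -2 := by omega
    obtain ⟨-, -, -, hC, -, -, -⟩ := E1 hid
    refine E3c hid (by rw [hn]; exact_mod_cast h6) (C + (1 + n) * B e) ?_
    rw [← hC, hn]
    push_cast
    ring
  · obtain ⟨π, hπ, hne⟩ := (om_dich h (by omega)).resolve_left hrat
    have hΩirr : ∀ r : ℚ, σ * om lam ≠ r := by
      intro r hr
      apply hrat
      have h1 : om lam = σ * r := by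
        rw [← hr, ← mul_assoc, hσ2, one_mul]
      rcases hσ with h3 | h3
      · exact ⟨r, by rw [h1, h3, one_mul]⟩
      · exact ⟨-r, by rw [h1, h3]; push_cast; ring⟩
    have hkπ := key π hπ
    obtain ⟨Ω, hΩ⟩ : ∃ Ω : ℝ, Ω = σ * om lam := ⟨_, rfl⟩
    obtain ⟨Ω', hΩ'⟩ : ∃ Ω' : ℝ, Ω' = σ * om (fun i => lam (π i)) := ⟨_, rfl⟩
    have hcπ := hall π hπ
    rw [← hΩ] at hkid hΩirr hid
    rw [← hΩ'] at hkπ hcπ
    have hΩne : Ω ≠ Ω' := by
      rw [hΩ, hΩ']
      intro h0
      apply hne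
      have h1 := congrArg (fun z => σ * z) h0
      simp only [← mul_assoc, hσ2, one_mul] at h1
      exact h1.symm
    obtain ⟨hp, hone, hsum⟩ := nt_quad hDne hkid.1 hkπ.1 hΩne
    have hlt := E3a hid
    have hlt' := E3a hcπ
    obtain ⟨hn1, hn2, hn3⟩ := nt_neg hone hlt hlt' hΩne
    have hrs : ∃ r : ℚ, Ω + Ω' = r := by
      refine ⟨-((B (e-1) : ℚ) - (C : ℚ)) / ((B (e-1) : ℚ) - (B e : ℚ)), ?_⟩
      rw [hsum, hD, ht]
      push_cast
      rfl
    obtain ⟨r, hr⟩ := hrs
    obtain ⟨n, hn⟩ := int_of_rat _ (hkid.2.add hkπ.2) r hr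
    have hnneg : n < 0 := by
      rw [hn] at hn3
      exact_mod_cast hn3
    have hquad : Ω ^ 2 = ((-n : ℤ) : ℝ) - ((-n : ℤ) : ℝ) * Ω := by
      push_cast
      have h1 : Ω' = n - Ω := by linarith
      rw [h1] at hp
      linear_combination -hp
    rcases Nat.lt_or_ge e 3 with h3 | h3
    · have he' : e = 2 := by omega
      subst he'
      obtain ⟨m, hm, hBm⟩ := h2 rfl
      exact E5 hid m hm (by simp only [hBm]; push_cast; rfl) (-n) (by omega) hquad hΩirr
    · rcases lt_or_ge (-2 : ℝ) Ω with h4 | h4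
      · rcases lt_or_ge (-2 : ℝ) Ω' with h5 | h5
        · exact E3d hid h3 (nt_small hone hlt hlt' h4 h5 hΩne hn)
        · have h6 : Ω' < -2 := by
            rcases lt_or_eq_of_le h5 with h6 | h6
            · exact h6
            · exfalso
              apply hΩirr (2/3)
              rw [h6] at hone
              push_cast
              linarith
          have hone' : (Ω' - 1) * (Ω - 1) = 1 := by rw [mul_comm]; exact hone
          obtain ⟨h7, h8⟩ := nt_range hone' h6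
          exact E4 hcπ hid h3 h6 h7 h8
      · have h6 : Ω < -2 := by
          rcases lt_or_eq_of_le h4 with h6 | h6
          · exact h6
          · exfalso
            apply hΩirr (-2)
            rw [h6]
            push_cast
            rfl
        obtain ⟨h7, h8⟩ := nt_range hone h6
        exact E4 hid hcπ h3 h6 h7 h8

end LS
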