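import Pool.Agent.LS.Core
import Pool.Agent.LS.W0
import Pool.Agent.LS.W1
import Pool.Agent.LS.W3
import Pool.Agent.LS.CHX
import Pool.Agent.LS.A1
import Pool.Agent.LS.A0
import Pool.Agent.LS.E6

/-! Part `CA` of the classification of self-dual Leonard systems with integral normalized
intersection numbers (MP_963a96_al). -/
open Finset
namespace LS

theorem ca_sq (m : ℤ) (hm : 1 ≤ m) (h : m ^ 2 = 1) : m = 1 := by
  have h1 : (m - 1) * (m + 1) = 0 := by linear_combination h
  rcases mul_eq_zero.mp h1 with h2 | h2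
  · omega
  · omega

variable {d : ℕ} {α b : ℕ → ℤ} {lam : ℕ → ℝ} {S : ℕ → ℕ → ℝ} {N : ℕ → ℕ → ℕ → ℤ}

theorem classA (h : Str d α b lam S N) (hd : 4 ≤ d) (h0 : ∀ i < d, α i = 0) :
    (∀ i, 1 ≤ i → i ≤ d → b i = 1) ∧ (α d = 0 ∨ α d = 1) := by
  rcases eq_or_lt_of_le (h.base.αnn d) with hz | hp
  · have hα : ∀ i, α i = 0 := by
      intro i
      rcases lt_trichotomy i d with h1 | h1 | h1
      · exact h0 i h1
      · rw [h1]; exact hz.symm
      · exact h.base.αout i h1
    refine ⟨?_, Or.inl hz.symm⟩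
    rcases Nat.even_or_odd d with hev | hodd
    · have hb2 := A2 h hα hev (by omega)
      have h3 : Three d α := ⟨0, 1, 2, by omega, by omega, by omega, by rw [hα, hα],
        by rw [hα, hα]⟩
      obtain ⟨_, _, ρ, hch⟩ := chains h hd h3
      have e1 : α d - α 1 = 0 := by rw [hα, hα, sub_self]
      rw [e1, hα 1] at hch
      exact A1 hch hd h.base.b1 h.base.bpos hb2
    · obtain ⟨e, he⟩ := hodd
      subst he
      have he2 : 2 ≤ e := by omega
      have hEC := A0 h he2 hα
      have hres := end_number h hd e he2 (by omega) (fun i => b i ^ 2) (b (e + 1) ^ 2) (-1)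
        (Or.inr rfl) (fun _ => ⟨b 2, h.base.bpos 2 (by omega) (by omega), rfl⟩) hEC
      obtain ⟨hB, hC⟩ := hres
      have hlow : ∀ i, 1 ≤ i → i ≤ e + 1 → b i = 1 := by
        intro i hi1 hi2
        rcases Nat.lt_or_ge e i with hlt | hge
        · have hie : i = e + 1 := by omega
          rw [hie]
          exact ca_sq _ (h.base.bpos (e + 1) (by omega) (by omega)) hC
        · exact ca_sq _ (h.base.bpos i hi1 (by omega)) (hB i hi1 hge)
      intro i hi1 hi2
      rcases Nat.lt_or_ge (e + 1) i with hlt | hge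
      · have hp := (bip h hα).1.2 (2 * e + 1 + 1 - i) (by omega) (by omega)
        have hidx : 2 * e + 1 + 1 - (2 * e + 1 + 1 - i) = i := by omega
        rw [hidx] at hp
        rw [hp]
        exact hlow _ (by omega) (by omega)
      · exact hlow i hi1 hge
  · have hEC := A3 h hd h0 hp
    have hres := end_number h hd d (by omega) le_rfl (fun i => b i ^ 2) (α d ^ 2) 1
      (Or.inl rfl) (fun h2 => absurd h2 (by omega)) hEC
    obtain ⟨hB, hC⟩ := hres
    refine ⟨?_, Or.inr (ca_sq _ hp hC)⟩
    intro i hi1 hi2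
    exact ca_sq _ (h.base.bpos i hi1 hi2) (hB i hi1 hi2)

end LS
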