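import Pool.Agent.LS.Core
import Pool.Agent.LS.W0
import Pool.Agent.LS.W1

/-! Part `W2` of the classification of self-dual Leonard systems with integral normalized
intersection numbers (MP_963a96_al). -/
open Finset
namespace LS

theorem w2_rev {d : ℕ} {α b : ℕ → ℤ} {lam : ℕ → ℝ} {S : ℕ → ℕ → ℝ} (hB : Base d α b)
    (hW : Weak d α b lam S) (hp : Pers d α b) {l : ℕ} (hl : l ≤ d) (i : ℕ) (hi : i ≤ d) :
    lam l * S (d - i) l = b i * S (d - (i - 1)) l + α i * S (d - i) l +
      b (i + 1) * S (d - (i + 1)) l := by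
  have h1 := hW.eig (d - i) (by omega) l hl
  have h2 : α (d - i) = α i := hp.1 i hi
  have h3 : (b (d - i) : ℝ) * S (d - i - 1) l = b (i + 1) * S (d - (i + 1)) l := by
    by_cases h : i = d
    · subst h
      rw [Nat.sub_self, hB.b0, hB.bout (i + 1) (by omega)]
      simp
    · have h4 := hp.2 (i + 1) (by omega) (by omega)
      have h5 : d + 1 - (i + 1) = d - i := by omega
      rw [h5] at h4
      rw [h4, Nat.sub_sub]
  have h6 : (b (d - i + 1) : ℝ) * S (d - i + 1) l = b i * S (d - (i - 1)) l := by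
    by_cases h : i = 0
    · subst h
      rw [Nat.sub_zero, hB.bout (d + 1) (by omega), hB.b0]
      simp
    · have h4 := hp.2 i (by omega) hi
      have h5 : d + 1 - i = d - i + 1 := by omega
      have h7 : d - (i - 1) = d - i + 1 := by omega
      rw [h5] at h4
      rw [h4, h7]
  rw [h2, h3, h6] at h1
  linarith

theorem w2_eta {d : ℕ} {α b : ℕ → ℤ} {lam : ℕ → ℝ} {S : ℕ → ℕ → ℝ} (hB : Base d α b)
    (hW : Weak d α b lam S) (hp : Pers d α b) {l : ℕ} (hl : l ≤ d) :
    ∀ i ≤ d, S (d - i) l = S d l / S 0 l * S i l := by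
  have h0 := hW.ne l hl
  intro i
  induction i using Nat.strong_induction_on with
  | _ i ih =>
    intro hi
    rcases i with _ | i
    · rw [Nat.sub_zero, div_mul_cancel₀ _ h0]
    · have h1 := w2_rev hB hW hp hl i (by omega)
      have h2 := hW.eig i (by omega) l hl
      have h3 := ih i (by omega) (by omega)
      have h4 : (b i : ℝ) * S (d - (i - 1)) l = b i * (S d l / S 0 l * S (i - 1) l) := by
        rcases i with _ | i
        · rw [hB.b0]; simp
        · rw [ih (i + 1 - 1) (by omega) (by omega)]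
      have h5 : (b (i + 1) : ℝ) ≠ 0 := by
        have := hB.bpos (i + 1) (by omega) hi
        have h6 : (1 : ℝ) ≤ b (i + 1) := by exact_mod_cast this
        linarith
      rw [h3, h4] at h1
      apply mul_left_cancel₀ h5
      linear_combination (-1 : ℝ) * h1 + S d l / S 0 l * h2

theorem pers_zero {d : ℕ} {α b : ℕ → ℤ} {lam : ℕ → ℝ} {S : ℕ → ℕ → ℝ} {N : ℕ → ℕ → ℕ → ℤ}
    (h : Str d α b lam S N) (hp : Pers d α b) : ∀ i, α i = 0 := by
  have hB := h.base
  have hW := h.weak
  have hd1 := hB.one_le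
  obtain ⟨η, hη⟩ : ∃ η : ℕ → ℝ, ∀ l, η l = S d l / S 0 l := ⟨_, fun _ => rfl⟩
  have hrev : ∀ l ≤ d, ∀ i ≤ d, S (d - i) l = η l * S i l := fun l hl i hi => by
    rw [hη]; exact w2_eta hB hW hp hl i hi
  have hS0 : ∀ j ≤ d, 0 < S j 0 := fun j hj => by rw [hW.symm]; exact h.pos j hj
  have hSnn : ∀ j, 0 ≤ S j 0 := fun j => by
    by_cases hj : j ≤ d
    · exact (hS0 j hj).le
    · rw [hW.out j 0 (by omega)]
  have hsq : ∀ l ≤ d, η l = 1 ∨ η l = -1 := fun l hl => by
    have h1 := hrev l hl 0 (by omega)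
    have h2 := hrev l hl d le_rfl
    rw [Nat.sub_zero] at h1
    rw [Nat.sub_self, h1] at h2
    have h3 : (η l * η l - 1) * S 0 l = 0 := by linear_combination (-1 : ℝ) * h2
    rcases mul_eq_zero.1 h3 with h4 | h4
    · have h5 : (η l - 1) * (η l + 1) = 0 := by linear_combination h4
      rcases mul_eq_zero.1 h5 with h6 | h6
      · left; linarith
      · right; linarith
    · exact absurd h4 (hW.ne l hl)
  have hη0 : η 0 = 1 := by
    rcases hsq 0 (by omega) with h1 | h1
    · exact h1
    · exfalso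
      have h2 := hrev 0 (by omega) 0 (by omega)
      rw [Nat.sub_zero, h1] at h2
      have h3 := hS0 d le_rfl
      have h4 := hS0 0 (by omega)
      linarith

  have hcol : ∀ i ≤ d, S i d = η i * S i 0 := fun i hi => by
    have h1 := hrev i hi 0 (by omega)
    rw [Nat.sub_zero] at h1
    rw [hW.symm i d, h1, hW.symm 0 i]
  have hlam : ∀ m ≤ d, lam m * S 0 m = S 1 m := fun m hm => by
    have h1 := hW.eig 0 (by omega) m hm
    rw [hB.b0, hB.α0, hB.b1] at h1
    simpa using h1
  have h00 := hS0 0 (by omega)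
  have hlamd : lam d = η 1 * lam 0 := by
    have h1 := hlam d le_rfl
    have h2 := hlam 0 (by omega)
    rw [hcol 0 (by omega), hcol 1 hd1, hη0] at h1
    have h3 : (lam d - η 1 * lam 0) * S 0 0 = 0 := by linear_combination h1 - η 1 * h2
    rcases mul_eq_zero.1 h3 with h4 | h4
    · linarith
    · exact absurd h4 h00.ne'
  have hη1 : η 1 = -1 := by
    rcases hsq 1 hd1 with h1 | h1
    · exfalso
      rw [h1, one_mul] at hlamd
      have := weak_inj hB hW d le_rfl 0 (by omega) hlamd
      omega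
    · exact h1
  rw [hη1] at hlamd
  intro i
  by_cases hi : i ≤ d
  · have hpm : ∀ j k, j ≤ d → k ≤ d → -1 ≤ η j * η k := fun j k hj hk => by
      rcases hsq j hj with h1 | h1 <;> rcases hsq k hk with h2 | h2 <;> rw [h1, h2] <;> norm_num
    have h1 := hW.eig i hi d le_rfl
    have h2 := hW.eig i hi 0 (by omega)
    rw [hcol i hi, hlamd] at h1
    have hη2 : η i * η i = 1 := by
      rcases hsq i hi with h1 | h1 <;> rw [h1] <;> norm_num
    have hb : ∀ j, (0 : ℝ) ≤ b j := fun j => by
      by_cases hj : 1 ≤ j ∧ j ≤ d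
      · have := hB.bpos j hj.1 hj.2
        exact_mod_cast (by omega : (0 : ℤ) ≤ b j)
      · by_cases hj0 : j = 0
        · rw [hj0, hB.b0]; simp
        · rw [hB.bout j (by omega)]; simp
    have h3 : -(b i * S (i - 1) 0) ≤ η i * (b i * S (i - 1) d) := by
      rw [hcol (i - 1) (by omega)]
      have h4 := hpm i (i - 1) hi (by omega)
      have h5 : 0 ≤ b i * S (i - 1) 0 := mul_nonneg (hb i) (hSnn _)
      nlinarith
    have h4 : -(b (i + 1) * S (i + 1) 0) ≤ η i * (b (i + 1) * S (i + 1) d) := by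
      by_cases hi1 : i + 1 ≤ d
      · rw [hcol (i + 1) hi1]
        have h4 := hpm i (i + 1) hi hi1
        have h5 : 0 ≤ b (i + 1) * S (i + 1) 0 := mul_nonneg (hb (i + 1)) (hSnn _)
        nlinarith
      · rw [hB.bout (i + 1) (by omega)]
        simp
    have h5 : η i * (-1 * lam 0 * (η i * S i 0)) = η i * (b i * S (i - 1) d) +
        α i * S i 0 * (η i * η i) + η i * (b (i + 1) * S (i + 1) d) := by
      rw [h1]; ring
    have h6 : η i * (-1 * lam 0 * (η i * S i 0)) = - (lam 0 * S i 0) * (η i * η i) := by ring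
    rw [h6, hη2, mul_one, mul_one] at h5
    have h7 : (α i : ℝ) * S i 0 ≤ 0 := by linarith
    have h8 := hS0 i hi
    have h9 : (α i : ℝ) ≤ 0 := by
      by_contra hcon
      push Not at hcon
      have := mul_pos hcon h8
      linarith
    have h10 : α i ≤ 0 := by exact_mod_cast h9
    exact le_antisymm h10 (hB.αnn i)
  · exact hB.αout i (by omega)

end LS
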