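import Pool.Agent.LS.Core
import Pool.Agent.LS.W0
import Pool.Agent.LS.W1
import Pool.Agent.LS.W2
import Pool.Agent.LS.CHX
import Pool.Agent.LS.B1
import Pool.Agent.LS.B3
import Pool.Agent.LS.B4

/-! Part `CB` of the classification of self-dual Leonard systems with integral normalized
intersection numbers (MP_963a96_al). -/
open Finset
namespace LS

variable {d : ℕ} {α b : ℕ → ℤ} {lam : ℕ → ℝ} {S : ℕ → ℕ → ℝ} {N : ℕ → ℕ → ℕ → ℤ}

theorem classB (h : Str d α b lam S N) (hd : 4 ≤ d) (h3 : Three d α) (ha : 1 ≤ α 1) :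
    (∀ i, 1 ≤ i → i ≤ d → b i = 1) ∧ (∀ i, 1 ≤ i → i < d → α i = 1) ∧
    (α d = 1 ∨ α d = 2) := by
  obtain ⟨h1, h2⟩ := B4 h hd h3 ha
  obtain ⟨hc, -, ρ, hch⟩ := chains h hd h3
  rw [h1] at hc hch
  obtain ⟨hb, hcc⟩ := B3 hch (by omega) h.base.b1 h.base.bpos h2
  refine ⟨hb, hc, ?_⟩
  rcases hcc with e | e | e
  · left; omega
  · right; omega
  · exfalso
    have hαd : α d = 0 := by omega
    have hP : Pers d α b := by
      refine ⟨?_, ?_⟩
      · intro i hi
        rcases Nat.eq_zero_or_pos i with h0 | h0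
        · subst h0; rw [Nat.sub_zero, hαd, h.base.α0]
        · rcases Nat.lt_or_ge i d with h4 | h4
          · rw [hc i h0 h4, hc (d - i) (by omega) (by omega)]
          · have : i = d := by omega
            subst this; rw [Nat.sub_self, hαd, h.base.α0]
      · intro i hi hid
        rw [hb i hi hid, hb (d + 1 - i) (by omega) (by omega)]
    have := pers_zero h hP 1
    omega

end LS
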