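import Pool.Agent.LS.Core
import Pool.Agent.LS.W0
import Pool.Agent.LS.W1

/-! Part `K1` of the classification of self-dual Leonard systems with integral normalized
intersection numbers (MP_963a96_al). -/
open Finset
namespace LS

theorem no_integer_t {d : ℕ} {α b : ℕ → ℤ} (hd : 2 ≤ d) (hB : Base d α b)
    (t : ℕ → ℕ → ℤ) (w : ℕ → ℝ)
    (ht0 : ∀ j ≤ d, t 0 j = 1)
    (hD : ∀ i ≤ d, 1 ≤ t i 0)
    (habs : ∀ i ≤ d, ∀ j ≤ d, |t i j| ≤ t i 0)
    (hsym : ∀ i ≤ d, ∀ j ≤ d, t i j * t j 0 = t j i * t i 0)
    (hrec : ∀ i ≤ d, ∀ j ≤ d,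
      t 1 j * t i j = b i * t (i-1) j + α i * t i j + b (i+1) * t (i+1) j)
    (hinj : ∀ i ≤ d, ∀ j ≤ d, t 1 i = t 1 j → i = j)
    (hw : ∑ i ∈ range (d+1), w i = 1)
    (hnorm : ∑ i ∈ range (d+1), (t 2 i : ℝ) ^ 2 * w i = 1) : False := by
  have hb1 := hB.b1
  have hα1 := hB.αnn 1
  have hα2 := hB.αnn 2
  have hb2 := hB.bpos 2 (by omega) hd
  have D1p := hD 1 (by omega)
  have D2p := hD 2 hd
  have r10 := hrec 1 (by omega) 0 (by omega)
  have r12 := hrec 1 (by omega) 2 hd
  have r20 := hrec 2 hd 0 (by omega)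
  norm_num at r10 r12 r20
  rw [hb1, ht0 0 (by omega)] at r10
  rw [hb1, ht0 2 hd] at r12
  have s12 := hsym 1 (by omega) 2 hd
  have hl2 : t 1 2 = t 1 0 * (t 1 2 * (t 1 0 - α 1) - b 2 * t 2 1) := by
    linear_combination (-t 1 2) * r10 - b 2 * s12
  have habs2 := habs 1 (by omega) 2 hd
  rw [abs_le] at habs2
  have hcase : t 1 2 = -t 1 0 ∨ t 1 2 = 0 := by
    obtain ⟨q, hq⟩ : ∃ q, t 1 2 = t 1 0 * q := ⟨_, hl2⟩
    rw [hq] at habs2
    have q1 : q < 2 := by nlinarith [habs2.1, habs2.2]
    have q2 : -2 < q := by nlinarith [habs2.1, habs2.2]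
    have q3 : q ≠ 1 := by
      rintro rfl
      rw [mul_one] at hq
      have := hinj 2 hd 0 (by omega) hq
      omega
    have q4 : q = -1 ∨ q = 0 := by omega
    rcases q4 with rfl | rfl
    · left
      rw [hq]
      ring
    · right
      rw [hq, mul_zero]
  rcases hcase with hl | hl
  ·
    have key : ∀ i, i ≤ d → |t i 2| = t i 0 := by
      intro i
      induction i using Nat.strong_induction_on with
      | _ i ih =>
        intro hi
        rcases Nat.eq_zero_or_pos i with rfl | hi0
        · rw [ht0 2 hd, ht0 0 (by omega)]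
          rfl
        · rcases Nat.lt_or_ge i 2 with h2 | h2
          · obtain rfl : i = 1 := by omega
            rw [hl, abs_neg]
            exact abs_of_nonneg (by omega)
          · obtain ⟨j, rfl⟩ : ∃ j, i = j + 2 := ⟨i - 2, by omega⟩
            have a1 := ih j (by omega) (by omega)
            have a2 := ih (j + 1) (by omega) (by omega)
            have e1 := hrec (j + 1) (by omega) 0 (by omega)
            have e2 := hrec (j + 1) (by omega) 2 hd
            rw [Nat.add_sub_cancel] at e1 e2
            rw [show j + 1 + 1 = j + 2 from rfl] at e1 e2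
            have hbp := hB.bpos (j + 2) (by omega) hi
            have hb' : 0 ≤ b (j + 1) := by
              have := hB.bpos (j + 1) (by omega) (by omega)
              omega
            have hα' := hB.αnn (j + 1)
            have e3 : |t 1 2 * t (j + 1) 2| ≤ b (j + 1) * |t j 2| + α (j + 1) * |t (j + 1) 2| +
                b (j + 2) * |t (j + 2) 2| := by
              rw [e2]
              refine (abs_add_le _ _).trans (add_le_add ((abs_add_le _ _).trans (add_le_add ?_ ?_)) ?_)
              · rw [abs_mul, abs_of_nonneg hb']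
              · rw [abs_mul, abs_of_nonneg hα']
              · rw [abs_mul, abs_of_nonneg (by omega : 0 ≤ b (j + 2))]
            rw [abs_mul, a1, a2, hl, abs_neg, abs_of_nonneg (by omega : 0 ≤ t 1 0)] at e3
            have e4 : b (j + 2) * t (j + 2) 0 ≤ b (j + 2) * |t (j + 2) 2| := by linarith
            have e5 : t (j + 2) 0 ≤ |t (j + 2) 2| := le_of_mul_le_mul_left e4 (by omega)
            exact le_antisymm (habs (j + 2) hi 2 hd) e5
    have key2 : ∀ i, i ≤ d → t 2 i ^ 2 = t 2 0 ^ 2 := by
      intro i hi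
      have e1 := hsym i hi 2 hd
      have e2 := congrArg abs e1
      rw [abs_mul, abs_mul, key i hi, abs_of_nonneg (by omega : 0 ≤ t 2 0),
        abs_of_nonneg (by have := hD i hi; omega : 0 ≤ t i 0), mul_comm] at e2
      have e3 : t 2 0 = |t 2 i| := mul_right_cancel₀ (by have := hD i hi; omega : t i 0 ≠ 0) e2
      rw [e3, sq_abs]
    have hD2 : t 2 0 = 1 := by
      have e1 : ∑ i ∈ range (d+1), (t 2 i : ℝ) ^ 2 * w i = (t 2 0 : ℝ) ^ 2 * ∑ i ∈ range (d+1), w i := by
        rw [Finset.mul_sum]
        refine Finset.sum_congr rfl fun i hi => ?_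
        have := key2 i (by rw [Finset.mem_range] at hi; omega)
        have e : (t 2 i : ℝ) ^ 2 = (t 2 0 : ℝ) ^ 2 := by exact_mod_cast this
        rw [e]
      rw [hnorm, hw, mul_one] at e1
      have e2 : t 2 0 ^ 2 = 1 := by exact_mod_cast e1.symm
      nlinarith
    rw [hD2, mul_one, mul_one] at r20
    have hb3 : b 3 * t 3 0 = 0 ∨ 1 ≤ b 3 * t 3 0 := by
      rcases Nat.lt_or_ge d 3 with h3 | h3
      · left
        rw [hB.bout 3 h3, zero_mul]
      · right
        have := hB.bpos 3 (by omega) h3
        have := hD 3 h3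
        nlinarith
    have e1 : 0 ≤ (b 2 - 1) * t 1 0 := mul_nonneg (by omega) (by omega)
    have e2 : (b 2 - 1) * t 1 0 = b 2 * t 1 0 - t 1 0 := by ring
    have e3 : (b 2 - 1) * t 1 0 = 0 := by omega
    have e4 : b 2 = 1 := by
      rcases mul_eq_zero.1 e3 with h | h
      · omega
      · omega
    rw [e4, hD2] at r10
    rw [hl, e4] at r12
    have h22 := habs 2 hd 2 hd
    rw [hD2, abs_le] at h22
    have e5 : 0 ≤ α 1 * t 1 0 := mul_nonneg hα1 (by omega)
    have e6 : α 1 * t 1 0 = 0 := by nlinarith [h22.2]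
    rw [e6] at r10
    have e7 : t 1 0 < 2 := by nlinarith
    have e8 : t 1 0 = 1 := by omega
    rw [e8] at r10
    omega
  ·
    rw [hl, zero_mul] at s12
    have h21 : t 2 1 = 0 := (mul_eq_zero.1 s12.symm).resolve_right (by omega)
    have r11 := hrec 1 (by omega) 1 (by omega)
    have r21 := hrec 2 hd 1 (by omega)
    norm_num at r11 r21
    rw [hb1, ht0 1 (by omega), h21] at r11
    rw [h21] at r21
    have h11 : t 1 1 * (t 1 1 - α 1) = 1 := by linear_combination r11
    have hα10 : α 1 = 0 ∧ (t 1 1 = 1 ∨ t 1 1 = -1) := by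
      rcases Int.isUnit_iff.1 (IsUnit.of_mul_eq_one _ h11) with h | h
      · rw [h] at h11
        exact ⟨by omega, Or.inl h⟩
      · rw [h] at h11
        exact ⟨by omega, Or.inr h⟩
    obtain ⟨hα10, hl1⟩ := hα10
    rw [hl] at r12
    have hb22 : b 2 * -t 2 2 = 1 := by linear_combination r12
    have hb21 : b 2 = 1 := by
      rcases Int.isUnit_iff.1 (IsUnit.of_mul_eq_one _ hb22) with h | h
      · exact h
      · omega
    rw [hb21] at r10 r20 r21 hb22
    have hb3 : b 3 * t 3 1 = -t 1 1 := by linear_combination -r21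
    have h3d : 3 ≤ d := by
      by_contra h
      rw [hB.bout 3 (by omega), zero_mul] at hb3
      omega
    have hb3p := hB.bpos 3 (by omega) h3d
    have hb31 : b 3 = 1 := by
      have : b 3 * (-(t 3 1) * t 1 1) = 1 := by
        have h1 : t 1 1 * t 1 1 = 1 := by
          rcases hl1 with h | h <;> rw [h] <;> norm_num
        linear_combination (-t 1 1) * hb3 + h1
      rcases Int.isUnit_iff.1 (IsUnit.of_mul_eq_one _ this) with h | h
      · exact h
      · omega
    rw [hb31] at hb3 r20
    have D3p := hD 3 h3d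
    have s31 := hsym 3 h3d 1 (by omega)
    have hl3 : t 1 3 * t 3 0 = -t 1 1 * t 1 0 := by
      rw [← s31]
      linear_combination t 1 0 * hb3
    rw [hα10] at r10
    have hD2 : t 2 0 = t 1 0 ^ 2 - 1 := by linear_combination -r10
    have hD3 : t 3 0 ≤ t 1 0 := by
      refine Int.le_of_dvd (by omega) ?_
      rcases hl1 with h | h
      · exact ⟨-t 1 3, by rw [h] at hl3; linear_combination hl3⟩
      · exact ⟨t 1 3, by rw [h] at hl3; linear_combination -hl3⟩
    have hsum : t 1 0 + t 3 0 = t 2 0 * (t 1 0 - α 2) := by linear_combination -r20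
    have hpos : 1 ≤ t 1 0 - α 2 := by
      by_contra h
      have : t 2 0 * (t 1 0 - α 2) ≤ 0 := mul_nonpos_of_nonneg_of_nonpos (by omega) (by omega)
      omega
    have hle : t 2 0 ≤ t 1 0 + t 3 0 := by
      rw [hsum]
      nlinarith
    have hD1 : t 1 0 < 3 := by nlinarith
    have hD1' : t 1 0 = 1 ∨ t 1 0 = 2 := by omega
    rcases hD1' with h1 | h1
    · rw [h1] at hD2
      norm_num at hD2
      omega
    · rw [h1] at hD2 hD3 hsum hl3
      norm_num at hD2
      rw [hD2] at hsum
      have h30 : t 3 0 = 1 := by omega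
      have hα2' : α 2 = 1 := by omega
      rw [h30, mul_one] at hl3
      have h13 : t 1 3 = -2 := by
        rcases hl1 with h | h
        · rw [h] at hl3
          omega
        · rw [h] at hl3
          have := hinj 3 h3d 0 (by omega) (by rw [h1]; omega)
          omega
      have r13 := hrec 1 (by omega) 3 h3d
      have r23 := hrec 2 hd 3 h3d
      norm_num at r13 r23
      rw [hb1, ht0 3 h3d, hα10, hb21, h13] at r13
      rw [hb21, hα2', hb31, h13] at r23
      have h33 := habs 3 h3d 3 h3d
      rw [h30, abs_le] at h33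
      omega

end LS
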