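import Pool.Agent.LS.Core
import Pool.Agent.LS.W0
import Pool.Agent.LS.W1
import Pool.Agent.LS.GA2
import Pool.Agent.LS.GA3
import Pool.Agent.LS.K1

/-! Part `K2` of the classification of self-dual Leonard systems with integral normalized
intersection numbers (MP_963a96_al). -/
open Finset
namespace LS

variable {d : ℕ} {α b : ℕ → ℤ} {lam : ℕ → ℝ} {S : ℕ → ℕ → ℝ} {N : ℕ → ℕ → ℕ → ℤ}

theorem k2_rat (h : Str d α b lam S N) (hr : ∀ j ≤ d, ∃ r : ℚ, lam j = r) :
    ∀ i ≤ d, ∀ j ≤ d, ∃ r : ℚ, S i j / S 0 j = r := by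
  intro i
  induction i using Nat.strong_induction_on with
  | _ i ih =>
    intro hi j hj
    have hne := h.weak.ne j hj
    rcases Nat.eq_zero_or_pos i with h0 | h0
    · subst h0
      exact ⟨1, by rw [div_self hne]; norm_num⟩
    · obtain ⟨m, rfl⟩ : ∃ m, i = m + 1 := ⟨i - 1, by omega⟩
      have hm : m ≤ d := by omega
      obtain ⟨r, hr'⟩ := hr j hj
      obtain ⟨r1, h1⟩ := ih m (by omega) hm j hj
      obtain ⟨r2, h2⟩ := ih (m - 1) (by omega) (by omega) j hj
      have hb : (b (m + 1) : ℝ) ≠ 0 := by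
        have := h.base.bpos (m + 1) (by omega) hi
        have h3 : (1 : ℝ) ≤ (b (m + 1) : ℝ) := by exact_mod_cast this
        positivity
      have he := h.weak.eig m hm j hj
      refine ⟨(r * r1 - b m * r2 - α m * r1) / b (m + 1), ?_⟩
      have hbq : (((b (m + 1) : ℤ) : ℚ) : ℝ) = (b (m + 1) : ℝ) := by norm_cast
      push_cast
      rw [eq_div_iff hb, ← h1, ← h2, ← hr']
      field_simp
      linarith

theorem not_all_rational (h : Str d α b lam S N) (hd : 2 ≤ d) :
    ¬ ∀ j ≤ d, ∃ r : ℚ, lam j = r := by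
  intro hr
  have hint : ∀ i j : ℕ, ∃ n : ℤ, i ≤ d → j ≤ d → S i j / S 0 j = n := by
    intro i j
    by_cases hi : i ≤ d
    · by_cases hj : j ≤ d
      · obtain ⟨r, hr'⟩ := k2_rat h hr i hi j hj
        obtain ⟨n, hn⟩ := int_of_rat _ (t_integral h i hi j hj) r hr'
        exact ⟨n, fun _ _ => hn⟩
      · exact ⟨0, fun _ h' => absurd h' hj⟩
    · exact ⟨0, fun h' => absurd h' hi⟩
  choose t ht using hint
  have hSpos := h.pos
  refine no_integer_t hd h.base t (fun i => S 0 i ^ 2) ?_ ?_ ?_ ?_ ?_ ?_ ?_ ?_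
  · intro j hj
    have h1 := ht 0 j (by omega) hj
    rw [div_self (h.weak.ne j hj)] at h1
    exact_mod_cast h1.symm
  · intro i hi
    have h1 := ht i 0 hi (by omega)
    have h2 := PF3 h i hi
    rw [h1] at h2
    exact_mod_cast h2
  · intro i hi j hj
    have h1 := ht i 0 hi (by omega)
    have h2 := PF2 h i hi j hj
    rw [h1, ht i j hi hj] at h2
    exact_mod_cast h2
  · intro i hi j hj
    have h0 := h.weak.ne 0 (by omega)
    have hi0 := h.weak.ne i hi
    have hj0 := h.weak.ne j hj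
    have h1 : S i j / S 0 j * (S j 0 / S 0 0) = S j i / S 0 i * (S i 0 / S 0 0) := by
      rw [h.weak.symm j 0, h.weak.symm i 0, h.weak.symm j i]
      field_simp
    rw [ht i j hi hj, ht j 0 hj (by omega), ht j i hj hi, ht i 0 hi (by omega)] at h1
    exact_mod_cast h1
  · intro i hi j hj
    have hj0 := h.weak.ne j hj
    have he := h.weak.eig i hi j hj
    have hl := lam_eq h j hj
    rw [ht 1 j (by omega) hj] at hl
    have h1 : (t i j : ℝ) * S 0 j = S i j := by
      rw [← ht i j hi hj]; field_simp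
    have h2 : (t (i - 1) j : ℝ) * S 0 j = S (i - 1) j := by
      rw [← ht (i - 1) j (by omega) hj]; field_simp
    have h3 : (b (i + 1) : ℝ) * ((t (i + 1) j : ℝ) * S 0 j) = b (i + 1) * S (i + 1) j := by
      by_cases hi1 : i + 1 ≤ d
      · rw [← ht (i + 1) j hi1 hj]; field_simp
      · rw [h.base.bout (i + 1) (by omega)]; simp
    have h4 : ((t 1 j * t i j : ℤ) : ℝ) =
        ((b i * t (i - 1) j + α i * t i j + b (i + 1) * t (i + 1) j : ℤ) : ℝ) := by
      push_cast
      refine mul_right_cancel₀ hj0 ?_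
      have h5 : (t 1 j : ℝ) * t i j * S 0 j = lam j * S i j := by
        rw [hl, ← h1]; ring
      rw [h5, he, ← h1, ← h2]
      linear_combination -h3
    exact_mod_cast h4
  · intro i hi j hj hij
    refine weak_inj h.base h.weak i hi j hj ?_
    rw [lam_eq h i hi, lam_eq h j hj, ht 1 i (by omega) hi, ht 1 j (by omega) hj, hij]
  · have h1 := h.weak.orth 0 (by omega) 0 (by omega)
    rw [if_pos rfl] at h1
    rw [← h1]
    exact Finset.sum_congr rfl fun i _ => by ring
  · have h1 := h.weak.orth 2 hd 2 hd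
    rw [if_pos rfl] at h1
    rw [← h1]
    refine Finset.sum_congr rfl fun i hi => ?_
    have hi' : i ≤ d := by
      rw [Finset.mem_range] at hi; omega
    have h0 := h.weak.ne i hi'
    rw [← ht 2 i hd hi']
    field_simp

theorem exists_moved' (h : Str d α b lam S N) (hd : 2 ≤ d) :
    ∃ π, IsGal d lam π ∧ ∃ j ≤ d, π j ≠ j :=
  exists_moved h (not_all_rational h hd)

end LS
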