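import Pool.Agent.LS.Core

/-! Part `PT` of the classification of self-dual Leonard systems with integral normalized
intersection numbers (MP_963a96_al). -/
open Finset
namespace LS

variable {d : ℕ} {α b : ℕ → ℤ} {p : ℕ → ℕ} {F : ℕ → ℕ → ℤ}

theorem PathF.adj (hB : Base d α b) (hF : PathF d α b p F) {u v : ℕ} (hu : u ≤ d) (hv : v ≤ d)
    (huv : u ≠ v) (h : F u v ≠ 0) :
    (p v = p u + 1 ∧ |F u v| = b (p v)) ∨ (p u = p v + 1 ∧ |F u v| = b (p u)) := by
  have hne : p u ≠ p v := fun h1 => huv (hF.p_inj u hu v hv h1)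
  rcases Nat.lt_or_gt_of_ne hne with h1 | h1
  · left
    have h2 : p v = p u + 1 := by
      by_contra hcon
      exact h (hF.far u hu v hv (by omega))
    exact ⟨h2, hF.edge u hu v hv h2⟩
  · right
    have h2 : p u = p v + 1 := by
      by_contra hcon
      apply h
      rw [hF.symm u v]
      exact hF.far v hv u hu (by omega)
    refine ⟨h2, ?_⟩
    rw [hF.symm u v]
    exact hF.edge v hv u hu h2

theorem PathF.ne_zero (hB : Base d α b) (hF : PathF d α b p F) {u v : ℕ} (hu : u ≤ d)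
    (hv : v ≤ d) (h : p v = p u + 1) : F u v ≠ 0 := by
  intro h0
  have h1 := hF.edge u hu v hv h
  rw [h0, abs_zero] at h1
  have h2 := hB.bpos (p v) (by omega) (hF.p_le v hv)
  omega

theorem PathF.surj (hF : PathF d α b p F) : ∀ k ≤ d, ∃ u ≤ d, p u = k := by
  intro k hk
  have hsub : (range (d + 1)).image p ⊆ range (d + 1) := by
    intro x hx
    rw [mem_image] at hx
    obtain ⟨u, hu, rfl⟩ := hx
    rw [mem_range] at hu ⊢
    have := hF.p_le u (by omega)
    omega
  have hcard : ((range (d + 1)).image p).card = (range (d + 1)).card := by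
    apply card_image_of_injOn
    intro u hu v hv huv
    rw [mem_coe, mem_range] at hu hv
    exact hF.p_inj u (by omega) v (by omega) huv
  have heq := Finset.eq_of_subset_of_card_le hsub hcard.ge
  have hk' : k ∈ (range (d + 1)).image p := by
    rw [heq, mem_range]
    omega
  rw [mem_image] at hk'
  obtain ⟨u, hu, hu2⟩ := hk'
  rw [mem_range] at hu
  exact ⟨u, by omega, hu2⟩

theorem PathF.deg (hB : Base d α b) (hF : PathF d α b p F) {u v w t : ℕ} (hu : u ≤ d) (hv : v ≤ d)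
    (hw : w ≤ d) (ht : t ≤ d) (h1 : u ≠ v) (h2 : u ≠ w) (h3 : u ≠ t) (h4 : v ≠ w) (h5 : v ≠ t)
    (h6 : w ≠ t) (hv0 : F u v ≠ 0) (hw0 : F u w ≠ 0) : F u t = 0 := by
  by_contra hcon
  rcases hF.adj hB hu hv h1 hv0 with ⟨a1, _⟩ | ⟨a1, _⟩ <;>
  rcases hF.adj hB hu hw h2 hw0 with ⟨a2, _⟩ | ⟨a2, _⟩ <;>
  rcases hF.adj hB hu ht h3 hcon with ⟨a3, _⟩ | ⟨a3, _⟩ <;>
  first
  | exact h4 (hF.p_inj v hv w hw (by omega))
  | exact h5 (hF.p_inj v hv t ht (by omega))
  | exact h6 (hF.p_inj w hw t ht (by omega))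

theorem PathF.tri (hB : Base d α b) (hF : PathF d α b p F) {u v w : ℕ} (hu : u ≤ d) (hv : v ≤ d)
    (hw : w ≤ d) (h1 : u ≠ v) (h2 : v ≠ w) (h3 : u ≠ w) (h4 : F u v ≠ 0) (h5 : F v w ≠ 0) :
    F u w = 0 := by
  by_contra hcon
  rcases hF.adj hB hu hv h1 h4 with ⟨a1, _⟩ | ⟨a1, _⟩ <;>
  rcases hF.adj hB hv hw h2 h5 with ⟨a2, _⟩ | ⟨a2, _⟩ <;>
  rcases hF.adj hB hu hw h3 hcon with ⟨a3, _⟩ | ⟨a3, _⟩ <;>
  omega

theorem PathF.mono (hB : Base d α b) (hF : PathF d α b p F) (k : ℕ) (v : ℕ → ℕ)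
    (hv : ∀ i ≤ k, v i ≤ d) (hinj : ∀ i ≤ k, ∀ j ≤ k, v i = v j → i = j)
    (hadj : ∀ i < k, F (v i) (v (i+1)) ≠ 0) :
    (∀ i ≤ k, p (v i) = p (v 0) + i) ∨ (∀ i ≤ k, p (v i) + i = p (v 0)) := by
  induction k with
  | zero =>
    left
    intro i hi
    have : i = 0 := by omega
    subst this
    rfl
  | succ k ih =>
    have hkk : F (v k) (v (k + 1)) ≠ 0 := hadj k (by omega)
    have hne : v k ≠ v (k + 1) := fun h0 => by
      have := hinj k (by omega) (k + 1) le_rfl h0
      omega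
    have hstep := hF.adj hB (hv k (by omega)) (hv (k + 1) le_rfl) hne hkk
    rcases Nat.eq_zero_or_pos k with hk | hk
    · subst hk
      rcases hstep with ⟨a1, _⟩ | ⟨a1, _⟩
      · left
        intro i hi
        have : i = 0 ∨ i = 1 := by omega
        rcases this with rfl | rfl
        · rfl
        · simpa using a1
      · right
        intro i hi
        have : i = 0 ∨ i = 1 := by omega
        rcases this with rfl | rfl
        · rfl
        · simpa using a1.symm
    · rcases ih (fun i hi => hv i (by omega)) (fun i hi j hj => hinj i (by omega) j (by omega))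
        (fun i hi => hadj i (by omega)) with h1 | h1
      · left
        have e1 := h1 k le_rfl
        have e2 := h1 (k - 1) (by omega)
        rcases hstep with ⟨a1, _⟩ | ⟨a1, _⟩
        · intro i hi
          rcases Nat.lt_or_ge i (k + 1) with h2 | h2
          · exact h1 i (by omega)
          · have : i = k + 1 := by omega
            subst this
            omega
        · exfalso
          have := hinj (k - 1) (by omega) (k + 1) le_rfl
            (hF.p_inj _ (hv (k - 1) (by omega)) _ (hv (k + 1) le_rfl) (by omega))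
          omega
      · right
        have e1 := h1 k le_rfl
        have e2 := h1 (k - 1) (by omega)
        rcases hstep with ⟨a1, _⟩ | ⟨a1, _⟩
        · exfalso
          have := hinj (k - 1) (by omega) (k + 1) le_rfl
            (hF.p_inj _ (hv (k - 1) (by omega)) _ (hv (k + 1) le_rfl) (by omega))
          omega
        · intro i hi
          rcases Nat.lt_or_ge i (k + 1) with h2 | h2
          · exact h1 i (by omega)
          · have : i = k + 1 := by omega
            subst this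
            omega

theorem PathF.recur0 (hB : Base d α b) (hF : PathF d α b p F) : ∀ v ≤ d,
    F 1 v = b v * F 0 (v-1) + α v * F 0 v + b (v+1) * F 0 (v+1) := by
  intro v hv
  have h := hF.comm 0 (by omega) v hv
  rw [hB.b0, hB.α0, zero_add, hB.b1] at h
  linarith

theorem PathF.recur1 (hB : Base d α b) (hF : PathF d α b p F) : ∀ v ≤ d,
    b 2 * F 2 v = b v * F 1 (v-1) + (α v - α 1) * F 1 v + b (v+1) * F 1 (v+1) - F 0 v := by
  intro v hv
  have h := hF.comm 1 hB.one_le v hv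
  rw [hB.b1] at h
  norm_num at h
  linarith

theorem PathF.recurk (hB : Base d α b) (hF : PathF d α b p F) : ∀ u < d, ∀ v ≤ d,
    b (u+1) * F (u+1) v
      = b v * F u (v-1) + (α v - α u) * F u v + b (v+1) * F u (v+1) - b u * F (u-1) v := by
  intro u hu v hv
  have h := hF.comm u (by omega) v hv
  linarith

theorem PathF.three (hF : PathF d α b p F) {u v w : ℕ} (hu : u ≤ d) (hv : v ≤ d) (hw : w ≤ d)
    (h1 : u ≠ v) (h2 : v ≠ w) (h3 : u ≠ w) (e1 : F u u = F v v) (e2 : F v v = F w w) :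
    Three d α := by
  rw [hF.diag u hu, hF.diag v hv] at e1
  rw [hF.diag v hv, hF.diag w hw] at e2
  have g1 : p u ≠ p v := fun h0 => h1 (hF.p_inj u hu v hv h0)
  have g2 : p v ≠ p w := fun h0 => h2 (hF.p_inj v hv w hw h0)
  have g3 : p u ≠ p w := fun h0 => h3 (hF.p_inj u hu w hw h0)
  have l1 := hF.p_le u hu
  have l2 := hF.p_le v hv
  have l3 := hF.p_le w hw
  rcases Nat.lt_or_gt_of_ne g1 with a1 | a1
  · rcases Nat.lt_or_gt_of_ne g2 with a2 | a2
    · exact ⟨p u, p v, p w, a1, a2, l3, e1, e2⟩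
    · rcases Nat.lt_or_gt_of_ne g3 with a3 | a3
      · exact ⟨p u, p w, p v, a3, a2, l2, e1.trans e2, e2.symm⟩
      · exact ⟨p w, p u, p v, a3, a1, l2, (e1.trans e2).symm, e1⟩
  · rcases Nat.lt_or_gt_of_ne g2 with a2 | a2
    · rcases Nat.lt_or_gt_of_ne g3 with a3 | a3
      · exact ⟨p v, p u, p w, a1, a3, l3, e1.symm, e1.trans e2⟩
      · exact ⟨p v, p w, p u, a2, a3, l1, e2, (e1.trans e2).symm⟩
    · exact ⟨p w, p v, p u, a2, a1, l1, e2.symm, e1.symm⟩

theorem three_of (α : ℕ → ℤ) {i j k : ℕ} (hi : i ≤ d) (hj : j ≤ d) (hk : k ≤ d)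
    (h1 : i ≠ j) (h2 : j ≠ k) (h3 : i ≠ k) (e1 : α i = α j) (e2 : α j = α k) : Three d α := by
  rcases Nat.lt_or_gt_of_ne h1 with a1 | a1
  · rcases Nat.lt_or_gt_of_ne h2 with a2 | a2
    · exact ⟨i, j, k, a1, a2, hk, e1, e2⟩
    · rcases Nat.lt_or_gt_of_ne h3 with a3 | a3
      · exact ⟨i, k, j, a3, a2, hj, e1.trans e2, e2.symm⟩
      · exact ⟨k, i, j, a3, a1, hj, (e1.trans e2).symm, e1⟩
  · rcases Nat.lt_or_gt_of_ne h2 with a2 | a2
    · rcases Nat.lt_or_gt_of_ne h3 with a3 | a3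
      · exact ⟨j, i, k, a1, a3, hk, e1.symm, e1.trans e2⟩
      · exact ⟨j, k, i, a2, a3, hi, e2, (e1.trans e2).symm⟩
    · exact ⟨k, j, i, a2, a1, hi, e2.symm, e1.symm⟩

theorem sq_ne (m n : ℤ) (hm : 1 ≤ m) (hn : 1 ≤ n) : m ^ 2 ≠ n ^ 2 + 1 := by
  intro h
  rcases le_or_gt m n with h1 | h1
  · nlinarith
  · nlinarith

end LS
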