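import Pool.Agent.LS.Core
import Pool.Agent.LS.PT

/-! Part `Q1` of the classification of self-dual Leonard systems with integral normalized
intersection numbers (MP_963a96_al). -/
open Finset
namespace LS

variable {d : ℕ} {α b : ℕ → ℤ} {p : ℕ → ℕ} {F : ℕ → ℕ → ℤ}

theorem Q1 (hB : Base d α b) (hF : PathF d α b p F) (hd : 4 ≤ d) (h1 : F 0 1 = 0)
    (h2 : F 0 2 = 0) (h3 : F 0 3 = 0) (h4 : F 0 4 = 0) : Three d α := by
  have e11 : F 1 1 = F 0 0 := by
    have h := hF.recur0 hB 1 (by omega)
    have hb := hB.b1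
    simp only [show 1 - 1 = 0 from rfl, show 1 + 1 = 2 from rfl, h1, h2, hb] at h
    linarith
  have e12 : F 1 2 = 0 := by
    have h := hF.recur0 hB 2 (by omega)
    simp only [show 2 - 1 = 1 from rfl, show 2 + 1 = 3 from rfl, h1, h2, h3] at h
    linarith
  have e13 : F 1 3 = 0 := by
    have h := hF.recur0 hB 3 (by omega)
    simp only [show 3 - 1 = 2 from rfl, show 3 + 1 = 4 from rfl, h2, h3, h4] at h
    linarith
  have e22 : F 2 2 = F 1 1 := by
    have h := hF.recur1 hB 2 (by omega)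
    simp only [show 2 - 1 = 1 from rfl, show 2 + 1 = 3 from rfl, e12, e13, h2] at h
    have hb2 := hB.bpos 2 (by omega) (by omega)
    have h' : b 2 * F 2 2 = b 2 * F 1 1 := by linarith
    exact mul_left_cancel₀ (by omega) h'
  exact hF.three (u := 0) (v := 1) (w := 2) (by omega) (by omega) (by omega) (by omega) (by omega)
    (by omega) e11.symm e22.symm

theorem Q16 (hB : Base d α b) (hF : PathF d α b p F) (M' M : ℕ) (h1 : 1 ≤ M')
    (h2 : M' + 3 ≤ M) (h3 : M < d) (hM' : F 0 M' ≠ 0) (hM : F 0 M ≠ 0)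
    (h0 : ∀ v, 1 ≤ v → v ≤ d → v ≠ M' → v ≠ M → F 0 v = 0) : False := by
  have hz : ∀ v, 1 ≤ v → v ≠ M' → v ≠ M → F 0 v = 0 := by
    intro v hv1 hv2 hv3
    by_cases hvd : v ≤ d
    · exact h0 v hv1 hvd hv2 hv3
    · rw [hF.symm]
      exact hF.out v 0 (by omega)
  have hbne : ∀ i, 1 ≤ i → i ≤ d → b i ≠ 0 := by
    intro i hi1 hi2
    have := hB.bpos i hi1 hi2
    omega

  have hup : ∀ m, m < d → F 0 m ≠ 0 → F 0 (m+1) = 0 → F 0 (m+2) = 0 → F 1 (m+1) ≠ 0 := by
    intro m hm hne hz1 hz2
    have h := hF.recur0 hB (m+1) (by omega)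
    simp only [show m + 1 - 1 = m from by omega, show m + 1 + 1 = m + 2 from by omega, hz1, hz2]
      at h
    have h' : F 1 (m+1) = b (m+1) * F 0 m := by linarith
    rw [h']
    exact mul_ne_zero (hbne _ (by omega) (by omega)) hne
  have hdown : ∀ m, 1 ≤ m → m + 1 ≤ d → F 0 (m+1) ≠ 0 → F 0 m = 0 → F 0 (m-1) = 0 →
      F 1 m ≠ 0 := by
    intro m hm1 hm hne hz1 hz2
    have h := hF.recur0 hB m (by omega)
    simp only [hz1, hz2] at h
    have h' : F 1 m = b (m+1) * F 0 (m+1) := by linarith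
    rw [h']
    exact mul_ne_zero (hbne _ (by omega) (by omega)) hne
  have hM1 : F 1 (M+1) ≠ 0 :=
    hup M h3 hM (hz _ (by omega) (by omega) (by omega)) (hz _ (by omega) (by omega) (by omega))
  have hM'1 : F 1 (M'+1) ≠ 0 :=
    hup M' (by omega) hM' (hz _ (by omega) (by omega) (by omega))
      (hz _ (by omega) (by omega) (by omega))
  by_cases c1 : M' = 1
  · subst c1
    have h10 : F 1 0 ≠ 0 := by
      rw [hF.symm]
      exact hM'
    exact hM1 (hF.deg hB (u := 1) (v := 0) (w := 1 + 1) (t := M + 1) (by omega) (by omega)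
      (by omega) (by omega) (by omega) (by omega) (by omega) (by omega) (by omega) (by omega)
      h10 hM'1)
  · by_cases c2 : M' = 2
    · subst c2
      obtain ⟨m, rfl⟩ : ∃ m, M = m + 1 := ⟨M - 1, by omega⟩
      have hm : F 1 m ≠ 0 :=
        hdown m (by omega) (by omega) hM (hz _ (by omega) (by omega) (by omega))
          (hz _ (by omega) (by omega) (by omega))
      exact hM1 (hF.deg hB (u := 1) (v := 2 + 1) (w := m) (t := m + 1 + 1) (by omega) (by omega)
        (by omega) (by omega) (by omega) (by omega) (by omega) (by omega) (by omega) (by omega)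
        hM'1 hm)
    · obtain ⟨m, rfl⟩ : ∃ m, M' = m + 1 := ⟨M' - 1, by omega⟩
      have hm : F 1 m ≠ 0 :=
        hdown m (by omega) (by omega) hM' (hz _ (by omega) (by omega) (by omega))
          (hz _ (by omega) (by omega) (by omega))
      exact hM1 (hF.deg hB (u := 1) (v := m) (w := m + 1 + 1) (t := M + 1) (by omega) (by omega)
        (by omega) (by omega) (by omega) (by omega) (by omega) (by omega) (by omega) (by omega)
        hm hM'1)

end LS
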