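import Pool.Agent.LS.Core
import Pool.Agent.LS.PT

/-! Part `Q10` of the classification of self-dual Leonard systems with integral normalized
intersection numbers (MP_963a96_al). -/
open Finset
namespace LS

variable {d : ℕ} {α b : ℕ → ℤ} {p : ℕ → ℕ} {F : ℕ → ℕ → ℤ}

theorem q10_out (hF : PathF d α b p F) (u v : ℕ) (h : d < v) : F u v = 0 := by
  rw [hF.symm]; exact hF.out v u h

theorem q10_facts (hB : Base d α b) (hF : PathF d α b p F) (hd : 7 ≤ d) (h1 : F 0 1 = 0)
    (h2 : F 0 2 = 0) (h3 : F 0 3 = 0) (h4 : F 0 4 ≠ 0) (h5 : F 0 5 ≠ 0)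
    (h0 : ∀ v, 6 ≤ v → v ≤ d → F 0 v = 0) :
    F 1 1 = F 0 0 ∧ F 1 3 ≠ 0 ∧ F 1 6 ≠ 0 ∧ F 1 4 = 0 ∧ F 1 5 = 0 ∧ F 1 2 = 0 ∧
    b 2 * F 2 3 = (α 3 - α 1) * F 1 3 ∧ b 2 * F 2 6 = (α 6 - α 1) * F 1 6 ∧ F 2 7 ≠ 0 ∧
    b 3 * F 3 4 = b 4 * F 2 3 + (α 4 - α 2) * F 2 4 + b 5 * F 2 5 ∧
    b 3 * F 3 5 = b 5 * F 2 4 + (α 5 - α 2) * F 2 5 + b 6 * F 2 6 ∧
    (8 ≤ d → F 3 8 ≠ 0) := by
  have h0' : ∀ v, 6 ≤ v → F 0 v = 0 := by
    intro v hv
    by_cases hvd : v ≤ d
    · exact h0 v hv hvd
    · exact q10_out hF 0 v (by omega)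
  have hb : ∀ i, 1 ≤ i → i ≤ 7 → b i ≠ 0 := by
    intro i hi hi7
    have := hB.bpos i hi (by omega)
    omega
  have h1' : ∀ v, 7 ≤ v → F 1 v = 0 := by
    intro v hv
    by_cases hvd : v ≤ d
    · have := hF.recur0 hB v hvd
      rw [h0' (v-1) (by omega), h0' v (by omega), h0' (v+1) (by omega)] at this
      simpa using this
    · exact q10_out hF 1 v (by omega)
  have hb2 := hb 2 (by omega) (by omega)
  have h2' : ∀ v, 8 ≤ v → F 2 v = 0 := by
    intro v hv
    by_cases hvd : v ≤ d
    · have := hF.recur1 hB v hvd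
      rw [h1' (v-1) (by omega), h1' v (by omega), h1' (v+1) (by omega), h0' v (by omega)] at this
      have h' : b 2 * F 2 v = 0 := by simpa using this
      rcases mul_eq_zero.mp h' with h | h
      · exact absurd h hb2
      · exact h
    · exact q10_out hF 2 v (by omega)
  have e11 := hF.recur0 hB 1 (by omega)
  have e12 := hF.recur0 hB 2 (by omega)
  have e13 := hF.recur0 hB 3 (by omega)
  have e14 := hF.recur0 hB 4 (by omega)
  have e15 := hF.recur0 hB 5 (by omega)
  have e16 := hF.recur0 hB 6 (by omega)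
  simp only [Nat.reduceSub, Nat.reduceAdd] at e11 e12 e13 e14 e15 e16
  have h06 : F 0 6 = 0 := h0' 6 (by omega)
  have h07 : F 0 7 = 0 := h0' 7 (by omega)
  rw [hB.b1, h1, h2] at e11
  rw [h1, h2, h3] at e12
  rw [h2, h3] at e13
  rw [h3] at e14
  rw [h06] at e15
  rw [h06, h07] at e16
  have f11 : F 1 1 = F 0 0 := by rw [e11]; ring
  have f12 : F 1 2 = 0 := by rw [e12]; ring
  have f13' : F 1 3 = b 4 * F 0 4 := by rw [e13]; ring
  have f13 : F 1 3 ≠ 0 := by rw [f13']; exact mul_ne_zero (hb 4 (by omega) (by omega)) h4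
  have f16' : F 1 6 = b 6 * F 0 5 := by rw [e16]; ring
  have f16 : F 1 6 ≠ 0 := by rw [f16']; exact mul_ne_zero (hb 6 (by omega) (by omega)) h5
  have f14 : F 1 4 = 0 := hF.deg hB (u := 1) (v := 3) (w := 6) (t := 4) (by omega) (by omega)
    (by omega) (by omega) (by omega) (by omega) (by omega) (by omega) (by omega) (by omega) f13 f16
  have f15 : F 1 5 = 0 := hF.deg hB (u := 1) (v := 3) (w := 6) (t := 5) (by omega) (by omega)
    (by omega) (by omega) (by omega) (by omega) (by omega) (by omega) (by omega) (by omega) f13 f16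
  have f17 : F 1 7 = 0 := h1' 7 (by omega)
  have f18 : F 1 8 = 0 := h1' 8 (by omega)
  have e23 := hF.recur1 hB 3 (by omega)
  have e26 := hF.recur1 hB 6 (by omega)
  have e27 := hF.recur1 hB 7 (by omega)
  simp only [Nat.reduceSub, Nat.reduceAdd] at e23 e26 e27
  rw [f12, f14, h3] at e23
  rw [f15, f17, h06] at e26
  rw [f17, f18, h07] at e27
  have f23 : b 2 * F 2 3 = (α 3 - α 1) * F 1 3 := by rw [e23]; ring
  have f26 : b 2 * F 2 6 = (α 6 - α 1) * F 1 6 := by rw [e26]; ring
  have f27 : F 2 7 ≠ 0 := by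
    intro h
    rw [h] at e27
    have h' : b 7 * F 1 6 = 0 := by linarith only [e27]
    rcases mul_eq_zero.mp h' with h | h
    · exact hb 7 (by omega) (by omega) h
    · exact f16 h
  have e34 := hF.recurk hB 2 (by omega) 4 (by omega)
  have e35 := hF.recurk hB 2 (by omega) 5 (by omega)
  simp only [Nat.reduceSub, Nat.reduceAdd] at e34 e35
  rw [f14] at e34
  rw [f15] at e35
  refine ⟨f11, f13, f16, f14, f15, f12, f23, f26, f27, by rw [e34]; ring, by rw [e35]; ring, ?_⟩
  intro hd8
  have e38 := hF.recurk hB 2 (by omega) 8 hd8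
  simp only [Nat.reduceSub, Nat.reduceAdd] at e38
  rw [h2' 8 (by omega), h2' 9 (by omega), f18] at e38
  intro h
  rw [h] at e38
  have h' : b 8 * F 2 7 = 0 := by linarith only [e38]
  rcases mul_eq_zero.mp h' with h | h
  · have := hB.bpos 8 (by omega) hd8
    omega
  · exact f27 h

theorem q10_big (hB : Base d α b) (hF : PathF d α b p F) (hd : 8 ≤ d) (h1 : F 0 1 = 0)
    (h2 : F 0 2 = 0) (h3 : F 0 3 = 0) (h4 : F 0 4 ≠ 0) (h5 : F 0 5 ≠ 0)
    (h0 : ∀ v, 6 ≤ v → v ≤ d → F 0 v = 0) : Three d α := by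
  obtain ⟨f11, f13, f16, f14, f15, f12, f23, f26, f27, f34, f35, f38⟩ :=
    q10_facts hB hF (by omega) h1 h2 h3 h4 h5 h0
  have f38 := f38 hd
  have hb : ∀ i, 1 ≤ i → i ≤ 8 → b i ≠ 0 := by
    intro i hi hi7
    have := hB.bpos i hi (by omega)
    omega
  have f31 : F 3 1 ≠ 0 := by rw [hF.symm]; exact f13
  have g32 : F 3 2 = 0 := hF.deg hB (u := 3) (v := 1) (w := 8) (t := 2) (by omega) (by omega)
    (by omega) (by omega) (by omega) (by omega) (by omega) (by omega) (by omega) (by omega) f31 f38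
  have g34 : F 3 4 = 0 := hF.deg hB (u := 3) (v := 1) (w := 8) (t := 4) (by omega) (by omega)
    (by omega) (by omega) (by omega) (by omega) (by omega) (by omega) (by omega) (by omega) f31 f38
  have g35 : F 3 5 = 0 := hF.deg hB (u := 3) (v := 1) (w := 8) (t := 5) (by omega) (by omega)
    (by omega) (by omega) (by omega) (by omega) (by omega) (by omega) (by omega) (by omega) f31 f38
  have g23 : F 2 3 = 0 := by rw [hF.symm]; exact g32
  rw [g23] at f23 f34
  rw [g34] at f34
  rw [g35] at f35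
  have a31 : α 3 = α 1 := by
    have h' : (α 3 - α 1) * F 1 3 = 0 := by linarith only [f23]
    rcases mul_eq_zero.mp h' with h | h
    · omega
    · exact absurd h f13
  have g25 : F 2 5 = 0 := by
    by_contra h
    have g24 : F 2 4 = 0 := hF.deg hB (u := 2) (v := 5) (w := 7) (t := 4) (by omega) (by omega)
      (by omega) (by omega) (by omega) (by omega) (by omega) (by omega) (by omega) (by omega) h f27
    rw [g24] at f34
    have h' : b 5 * F 2 5 = 0 := by linarith only [f34]
    rcases mul_eq_zero.mp h' with h2 | h2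
    · exact hb 5 (by omega) (by omega) h2
    · exact h h2
  rw [g25] at f35
  have g26 : F 2 6 = 0 := by
    by_contra h
    have g24 : F 2 4 = 0 := hF.deg hB (u := 2) (v := 6) (w := 7) (t := 4) (by omega) (by omega)
      (by omega) (by omega) (by omega) (by omega) (by omega) (by omega) (by omega) (by omega) h f27
    rw [g24] at f35
    have h' : b 6 * F 2 6 = 0 := by linarith only [f35]
    rcases mul_eq_zero.mp h' with h2 | h2
    · exact hb 6 (by omega) (by omega) h2
    · exact h h2
  rw [g26] at f26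
  have a61 : α 6 = α 1 := by
    have h' : (α 6 - α 1) * F 1 6 = 0 := by linarith only [f26]
    rcases mul_eq_zero.mp h' with h | h
    · omega
    · exact absurd h f16
  exact three_of (d := d) α (i := 1) (j := 3) (k := 6) (by omega) (by omega) (by omega) (by omega)
    (by omega) (by omega) a31.symm (by rw [a31, a61])

theorem q10_seven (hB : Base 7 α b) (hF : PathF 7 α b p F) (h1 : F 0 1 = 0)
    (h2 : F 0 2 = 0) (h3 : F 0 3 = 0) (h4 : F 0 4 ≠ 0) (h5 : F 0 5 ≠ 0)
    (h0 : ∀ v, 6 ≤ v → v ≤ 7 → F 0 v = 0) : Three 7 α := by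
  obtain ⟨f11, f13, f16, f14, f15, f12, f23, f26, f27, f34, f35, -⟩ :=
    q10_facts hB hF (by omega) h1 h2 h3 h4 h5 h0
  have hb : ∀ i, 1 ≤ i → i ≤ 7 → b i ≠ 0 := by
    intro i hi hi7
    have := hB.bpos i hi (by omega)
    omega
  have f31 : F 3 1 ≠ 0 := by rw [hF.symm]; exact f13
  have g23 : F 2 3 = 0 := by
    by_contra h
    have g24 : F 2 4 = 0 := hF.deg hB (u := 2) (v := 3) (w := 7) (t := 4) (by omega) (by omega)
      (by omega) (by omega) (by omega) (by omega) (by omega) (by omega) (by omega) (by omega) h f27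
    have g25 : F 2 5 = 0 := hF.deg hB (u := 2) (v := 3) (w := 7) (t := 5) (by omega) (by omega)
      (by omega) (by omega) (by omega) (by omega) (by omega) (by omega) (by omega) (by omega) h f27
    have g32 : F 3 2 ≠ 0 := by rw [hF.symm]; exact h
    have g34 : F 3 4 = 0 := hF.deg hB (u := 3) (v := 1) (w := 2) (t := 4) (by omega) (by omega)
      (by omega) (by omega) (by omega) (by omega) (by omega) (by omega) (by omega) (by omega) f31 g32
    rw [g24, g25, g34] at f34
    have h' : b 4 * F 2 3 = 0 := by linarith only [f34]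
    rcases mul_eq_zero.mp h' with h2 | h2
    · exact hb 4 (by omega) (by omega) h2
    · exact h h2
  rw [g23] at f23
  have a31 : α 3 = α 1 := by
    have h' : (α 3 - α 1) * F 1 3 = 0 := by linarith only [f23]
    rcases mul_eq_zero.mp h' with h | h
    · omega
    · exact absurd h f13
  by_cases g26 : F 2 6 = 0
  · rw [g26] at f26
    have a61 : α 6 = α 1 := by
      have h' : (α 6 - α 1) * F 1 6 = 0 := by linarith only [f26]
      rcases mul_eq_zero.mp h' with h | h
      · omega
      · exact absurd h f16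
    exact three_of (d := 7) α (i := 1) (j := 3) (k := 6) (by omega) (by omega) (by omega) (by omega)
      (by omega) (by omega) a31.symm (by rw [a31, a61])
  · have g24 : F 2 4 = 0 := hF.deg hB (u := 2) (v := 6) (w := 7) (t := 4) (by omega) (by omega)
      (by omega) (by omega) (by omega) (by omega) (by omega) (by omega) (by omega) (by omega) g26 f27
    have g25 : F 2 5 = 0 := hF.deg hB (u := 2) (v := 6) (w := 7) (t := 5) (by omega) (by omega)
      (by omega) (by omega) (by omega) (by omega) (by omega) (by omega) (by omega) (by omega) g26 f27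
    rw [g24, g25] at f35
    have g35 : F 3 5 ≠ 0 := by
      intro h
      rw [h] at f35
      have h' : b 6 * F 2 6 = 0 := by linarith only [f35]
      rcases mul_eq_zero.mp h' with h2 | h2
      · exact hb 6 (by omega) (by omega) h2
      · exact g26 h2

    let v : ℕ → ℕ := fun i => match i with
      | 0 => 4 | 1 => 0 | 2 => 5 | 3 => 3 | 4 => 1 | 5 => 6 | 6 => 2 | _ => 7
    have hm := hF.mono hB 7 v
      (by decide)
      (by decide)
      (by
        intro i hi
        interval_cases i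
        · show F 4 0 ≠ 0; rw [hF.symm]; exact h4
        · show F 0 5 ≠ 0; exact h5
        · show F 5 3 ≠ 0; rw [hF.symm]; exact g35
        · show F 3 1 ≠ 0; exact f31
        · show F 1 6 ≠ 0; exact f16
        · show F 6 2 ≠ 0; rw [hF.symm]; exact g26
        · show F 2 7 ≠ 0; exact f27)
    have d0 := hF.diag 0 (by omega)
    have d1 := hF.diag 1 (by omega)
    have l4 := hF.p_le 4 (by omega)
    have l7 := hF.p_le 7 (by omega)
    rcases hm with hm | hm
    · have m1 : p 0 = p 4 + 1 := hm 1 (by omega)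
      have m4 : p 1 = p 4 + 4 := hm 4 (by omega)
      have m7 : p 7 = p 4 + 7 := hm 7 (by omega)
      have q0 : p 0 = 1 := by omega
      have q1 : p 1 = 4 := by omega
      rw [q0] at d0
      rw [q1] at d1
      exact three_of (d := 7) α (i := 3) (j := 1) (k := 4) (by omega) (by omega) (by omega)
        (by omega) (by omega) (by omega) a31 (by rw [← d0, ← d1, f11])
    · have m1 : p 0 + 1 = p 4 := hm 1 (by omega)
      have m4 : p 1 + 4 = p 4 := hm 4 (by omega)
      have m7 : p 7 + 7 = p 4 := hm 7 (by omega)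
      have q0 : p 0 = 6 := by omega
      have q1 : p 1 = 3 := by omega
      rw [q0] at d0
      rw [q1] at d1
      exact three_of (d := 7) α (i := 1) (j := 3) (k := 6) (by omega) (by omega) (by omega)
        (by omega) (by omega) (by omega) a31.symm (by rw [← d0, ← d1, f11])

theorem Q10 (hB : Base d α b) (hF : PathF d α b p F) (hd : 7 ≤ d) (h1 : F 0 1 = 0)
    (h2 : F 0 2 = 0) (h3 : F 0 3 = 0) (h4 : F 0 4 ≠ 0) (h5 : F 0 5 ≠ 0)
    (h0 : ∀ v, 6 ≤ v → v ≤ d → F 0 v = 0) : Three d α := by
  rcases Nat.lt_or_ge 7 d with h | h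
  · exact q10_big hB hF (by omega) h1 h2 h3 h4 h5 h0
  · obtain rfl : d = 7 := by omega
    exact q10_seven hB hF h1 h2 h3 h4 h5 h0

end LS
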