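import Pool.Agent.LS.Core
import Pool.Agent.LS.PT

/-! Part `Q12` of the classification of self-dual Leonard systems with integral normalized
intersection numbers (MP_963a96_al). -/
open Finset
namespace LS

variable {d : ℕ} {α b : ℕ → ℤ} {p : ℕ → ℕ} {F : ℕ → ℕ → ℤ}

theorem q12_step (hB : Base 6 α b) (hF : PathF 6 α b p F) {u v : ℕ} (hu : u ≤ 6) (hv : v ≤ 6)
    (huv : u ≠ v) (h : F u v ≠ 0) : p v = p u + 1 ∨ p u = p v + 1 := by
  rcases hF.adj hB hu hv huv h with h | h
  · exact Or.inl h.1
  · exact Or.inr h.1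

theorem q12_ne (hF : PathF 6 α b p F) {u v : ℕ} (hu : u ≤ 6) (hv : v ≤ 6)
    (huv : u ≠ v) : p u ≠ p v := fun h => huv (hF.p_inj u hu v hv h)

theorem q12_up (a b c : ℕ) (h : b = a + 1) (s : c = b + 1 ∨ b = c + 1) (n : a ≠ c) :
    c = b + 1 := by omega

theorem q12_dn (a b c : ℕ) (h : a = b + 1) (s : c = b + 1 ∨ b = c + 1) (n : a ≠ c) :
    b = c + 1 := by omega

theorem q12_chain3 (x0 x1 x2 x3 : ℕ)
    (s0 : x1 = x0 + 1 ∨ x0 = x1 + 1) (s1 : x2 = x1 + 1 ∨ x1 = x2 + 1)
    (s2 : x3 = x2 + 1 ∨ x2 = x3 + 1) (n0 : x0 ≠ x2) (n1 : x1 ≠ x3) :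
    x3 = x0 + 3 ∨ x0 = x3 + 3 := by
  rcases s0 with h | h
  · have h1 := q12_up x0 x1 x2 h s1 n0
    have h2 := q12_up x1 x2 x3 h1 s2 n1
    left; omega
  · have h1 := q12_dn x0 x1 x2 h s1 n0
    have h2 := q12_dn x1 x2 x3 h1 s2 n1
    right; omega

theorem q12_chain6 (x0 x1 x2 x3 x4 x5 x6 : ℕ) (b0 : x0 ≤ 6) (b6 : x6 ≤ 6)
    (s0 : x1 = x0 + 1 ∨ x0 = x1 + 1) (s1 : x2 = x1 + 1 ∨ x1 = x2 + 1)
    (s2 : x3 = x2 + 1 ∨ x2 = x3 + 1) (s3 : x4 = x3 + 1 ∨ x3 = x4 + 1)
    (s4 : x5 = x4 + 1 ∨ x4 = x5 + 1) (s5 : x6 = x5 + 1 ∨ x5 = x6 + 1)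
    (n0 : x0 ≠ x2) (n1 : x1 ≠ x3) (n2 : x2 ≠ x4) (n3 : x3 ≠ x5) (n4 : x4 ≠ x6) :
    (x0 = 0 ∧ x1 = 1 ∧ x2 = 2 ∧ x3 = 3 ∧ x4 = 4 ∧ x5 = 5 ∧ x6 = 6) ∨
      (x0 = 6 ∧ x1 = 5 ∧ x2 = 4 ∧ x3 = 3 ∧ x4 = 2 ∧ x5 = 1 ∧ x6 = 0) := by
  rcases s0 with h | h
  · have h1 := q12_up x0 x1 x2 h s1 n0
    have h2 := q12_up x1 x2 x3 h1 s2 n1
    have h3 := q12_up x2 x3 x4 h2 s3 n2
    have h4 := q12_up x3 x4 x5 h3 s4 n3
    have h5 := q12_up x4 x5 x6 h4 s5 n4
    clear s1 s2 s3 s4 s5 n0 n1 n2 n3 n4
    left; omega
  · have h1 := q12_dn x0 x1 x2 h s1 n0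
    have h2 := q12_dn x1 x2 x3 h1 s2 n1
    have h3 := q12_dn x2 x3 x4 h2 s3 n2
    have h4 := q12_dn x3 x4 x5 h3 s4 n3
    have h5 := q12_dn x4 x5 x6 h4 s5 n4
    clear s1 s2 s3 s4 s5 n0 n1 n2 n3 n4
    right; omega

theorem q12_one (x : ℤ) (hx : 1 ≤ x) (h : x ^ 2 - 1 = 0) : x = 1 := by nlinarith

theorem Q12 (hB : Base 6 α b) (hF : PathF 6 α b p F) (h1 : F 0 1 = 0)
    (h2 : F 0 2 = 0) (h3 : F 0 3 = 0) (h4 : F 0 4 ≠ 0) (h5 : F 0 5 ≠ 0) (h6 : F 0 6 = 0) :
    Three 6 α := by
  have b1 := hB.b1
  have b7 : b 7 = 0 := hB.bout 7 (by norm_num)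
  have hb2 : 1 ≤ b 2 := hB.bpos 2 (by norm_num) (by norm_num)
  have hb3 : 1 ≤ b 3 := hB.bpos 3 (by norm_num) (by norm_num)
  have hb4 : 1 ≤ b 4 := hB.bpos 4 (by norm_num) (by norm_num)
  have hb5 : 1 ≤ b 5 := hB.bpos 5 (by norm_num) (by norm_num)
  have hb6 : 1 ≤ b 6 := hB.bpos 6 (by norm_num) (by norm_num)
  have a0 := hB.α0
  have r1 := hF.recur0 hB 1 (by norm_num)
  have r2 := hF.recur0 hB 2 (by norm_num)
  have r3 := hF.recur0 hB 3 (by norm_num)
  have r6 := hF.recur0 hB 6 (by norm_num)
  have s2 := hF.recur1 hB 2 (by norm_num)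
  have s3 := hF.recur1 hB 3 (by norm_num)
  have s4 := hF.recur1 hB 4 (by norm_num)
  have s5 := hF.recur1 hB 5 (by norm_num)
  have s6 := hF.recur1 hB 6 (by norm_num)
  have t3 := hF.recurk hB 2 (by norm_num) 3 (by norm_num)
  have t4 := hF.recurk hB 2 (by norm_num) 4 (by norm_num)
  have t5 := hF.recurk hB 2 (by norm_num) 5 (by norm_num)
  have t6 := hF.recurk hB 2 (by norm_num) 6 (by norm_num)
  norm_num at r1 r2 r3 r6 s2 s3 s4 s5 s6 t3 t4 t5 t6
  have f11 : F 1 1 = F 0 0 := by rw [r1, h1, h2, b1]; ring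
  have f12 : F 1 2 = 0 := by rw [r2, h1, h2, h3]; ring
  have f13 : F 1 3 = b 4 * F 0 4 := by rw [r3, h2, h3]; ring
  have f16 : F 1 6 = b 6 * F 0 5 := by rw [r6, h6, b7]; ring
  have n13 : F 1 3 ≠ 0 := by rw [f13]; exact mul_ne_zero (by linarith) h4
  have n16 : F 1 6 ≠ 0 := by rw [f16]; exact mul_ne_zero (by linarith) h5
  have f14 : F 1 4 = 0 := hF.deg hB (u := 1) (v := 3) (w := 6) (t := 4) (by norm_num) (by norm_num)
    (by norm_num) (by norm_num) (by norm_num) (by norm_num) (by norm_num) (by norm_num)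
    (by norm_num) (by norm_num) n13 n16
  have f15 : F 1 5 = 0 := hF.deg hB (u := 1) (v := 3) (w := 6) (t := 5) (by norm_num) (by norm_num)
    (by norm_num) (by norm_num) (by norm_num) (by norm_num) (by norm_num) (by norm_num)
    (by norm_num) (by norm_num) n13 n16
  have g22 : b 2 * F 2 2 = b 2 * F 1 1 + b 3 * F 1 3 := by rw [s2, f12, h2]; ring
  have g23 : b 2 * F 2 3 = (α 3 - α 1) * F 1 3 := by rw [s3, f12, f14, h3]; ring
  have g24 : b 2 * F 2 4 = (b 4 ^ 2 - 1) * F 0 4 := by rw [s4, f14, f15, f13]; ring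
  have g25 : b 2 * F 2 5 = (b 6 ^ 2 - 1) * F 0 5 := by rw [s5, f14, f15, f16]; ring
  have g26 : b 2 * F 2 6 = (α 6 - α 1) * F 1 6 := by rw [s6, f15, h6, b7]; ring
  rw [b7] at t6
  rw [f14] at t4
  rw [f15] at t5
  have sy31 := hF.symm 3 1
  have sy61 := hF.symm 6 1
  have sy32 := hF.symm 3 2
  have sy62 := hF.symm 6 2
  have eqa : F 2 3 = 0 → α 3 = α 1 := by
    intro h
    rw [h] at g23
    have : (α 3 - α 1) * F 1 3 = 0 := by linarith
    rcases mul_eq_zero.1 this with h | h
    · linarith
    · exact absurd h n13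
  by_cases c3 : F 2 3 = 0
  · have e31 := eqa c3
    by_cases c6 : F 2 6 = 0
    · rw [c6] at g26
      have : (α 6 - α 1) * F 1 6 = 0 := by linarith
      have e61 : α 6 = α 1 := by
        rcases mul_eq_zero.1 this with h | h
        · linarith
        · exact absurd h n16
      exact three_of α (i := 1) (j := 3) (k := 6) (by norm_num) (by norm_num) (by norm_num)
        (by norm_num) (by norm_num) (by norm_num) e31.symm (by rw [e31, e61])
    · have n62 : F 6 2 ≠ 0 := by rw [sy62]; exact c6
      have n61 : F 6 1 ≠ 0 := by rw [sy61]; exact n16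
      have n31 : F 3 1 ≠ 0 := by rw [sy31]; exact n13
      have l31 := q12_step hB hF (u := 3) (v := 1) (by norm_num) (by norm_num) (by norm_num) n31
      have l16 := q12_step hB hF (u := 1) (v := 6) (by norm_num) (by norm_num) (by norm_num) n16
      have l62 := q12_step hB hF (u := 6) (v := 2) (by norm_num) (by norm_num) (by norm_num) n62
      have l50 := q12_step hB hF (u := 0) (v := 5) (by norm_num) (by norm_num) (by norm_num) h5
      have l04 := q12_step hB hF (u := 0) (v := 4) (by norm_num) (by norm_num) (by norm_num) h4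
      have n36 := q12_ne hF (u := 3) (v := 6) (by norm_num) (by norm_num) (by norm_num)
      have n12 := q12_ne hF (u := 1) (v := 2) (by norm_num) (by norm_num) (by norm_num)
      have n45 := q12_ne hF (u := 4) (v := 5) (by norm_num) (by norm_num) (by norm_num)
      have q0 := hF.p_le 0 (by norm_num)
      have q1 := hF.p_le 1 (by norm_num)
      have q2 := hF.p_le 2 (by norm_num)
      have q3 := hF.p_le 3 (by norm_num)
      have q4 := hF.p_le 4 (by norm_num)
      have q5 := hF.p_le 5 (by norm_num)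
      have q6 := hF.p_le 6 (by norm_num)
      have d0 := hF.diag 0 (by norm_num)
      have d1 := hF.diag 1 (by norm_num)
      by_cases c5 : F 2 5 = 0
      · by_cases c4 : F 2 4 = 0
        ·
          have eb4 : b 4 = 1 := by
            rw [c4] at g24
            have : (b 4 ^ 2 - 1) * F 0 4 = 0 := by linarith
            rcases mul_eq_zero.1 this with h | h
            · exact q12_one _ hb4 h
            · exact absurd h h4
          have eb6 : b 6 = 1 := by
            rw [c5] at g25
            have : (b 6 ^ 2 - 1) * F 0 5 = 0 := by linarith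
            rcases mul_eq_zero.1 this with h | h
            · exact q12_one _ hb6 h
            · exact absurd h h5
          have n35 : F 3 5 ≠ 0 := by
            intro h
            rw [h, c4, c5] at t5
            have : b 6 * F 2 6 = 0 := by linarith
            rcases mul_eq_zero.1 this with h | h
            · linarith
            · exact c6 h
          have l35 := q12_step hB hF (u := 3) (v := 5) (by norm_num) (by norm_num) (by norm_num) n35
          have m15 := q12_ne hF (u := 1) (v := 5) (by norm_num) (by norm_num) (by norm_num)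
          have m30 := q12_ne hF (u := 3) (v := 0) (by norm_num) (by norm_num) (by norm_num)
          have hor : (p 2 = 0 ∧ p 6 = 1 ∧ p 1 = 2 ∧ p 3 = 3 ∧ p 5 = 4 ∧ p 0 = 5 ∧ p 4 = 6) ∨
              (p 2 = 6 ∧ p 6 = 5 ∧ p 1 = 4 ∧ p 3 = 3 ∧ p 5 = 2 ∧ p 0 = 1 ∧ p 4 = 0) :=
            q12_chain6 (p 2) (p 6) (p 1) (p 3) (p 5) (p 0) (p 4) q2 q4 l62.symm l16.symm l31.symm
              l35 l50.symm l04 n12.symm n36.symm m15 m30 n45.symm
          rcases hor with ⟨k2, k6, k1, k3, k5, k0, k4⟩ | ⟨k2, k6, k1, k3, k5, k0, k4⟩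
          · have d2 := hF.diag 2 (by norm_num)
            have d3 := hF.diag 3 (by norm_num)
            rw [k0] at d0
            rw [k1] at d1
            rw [k2, a0] at d2
            rw [k3] at d3
            have es : |F 0 4| = b (p 4) := hF.edge 0 (by norm_num) 4 (by norm_num) (by rw [k4, k0])
            rw [k4, eb6] at es
            have es2 : F 0 4 ^ 2 = 1 := by rw [← sq_abs, es]; norm_num
            rw [f13, eb4, d2, d1] at g22
            rw [c3, c4, d2, d3, f13, eb4] at t3
            have x1 : b 2 * α 2 = - (b 3 * F 0 4) := by linarith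
            have x2 : b 3 * α 3 = - (b 2 * F 0 4) := by linarith
            have x3 : (b 2 * b 3) * (α 2 * α 3 - 1) = 0 := by
              have : (b 2 * α 2) * (b 3 * α 3) = b 2 * b 3 * (F 0 4) ^ 2 := by rw [x1, x2]; ring
              rw [es2] at this
              linarith
            have x4 : α 2 * α 3 = 1 := by
              rcases mul_eq_zero.1 x3 with h | h
              · exfalso
                have : 0 < b 2 * b 3 := by positivity
                linarith
              · linarith
            have y2 := hB.αnn 2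
            have y3 := hB.αnn 3
            have z2 : α 2 = 1 := Int.eq_one_of_mul_eq_one_right y2 x4
            have z3 : α 3 = 1 := by rw [z2] at x4; linarith
            exact three_of α (i := 1) (j := 2) (k := 3) (by norm_num) (by norm_num) (by norm_num)
              (by norm_num) (by norm_num) (by norm_num) (by rw [← e31, z2, z3]) (by rw [z2, z3])
          · rw [k0] at d0
            rw [k1] at d1
            exact three_of α (i := 1) (j := 3) (k := 4) (by norm_num) (by norm_num) (by norm_num)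
              (by norm_num) (by norm_num) (by norm_num) e31.symm
              (by rw [e31, ← d0, ← f11, d1])
        ·
          have l24 := q12_step hB hF (u := 2) (v := 4) (by norm_num) (by norm_num) (by norm_num) c4
          have m64 := q12_ne hF (u := 6) (v := 4) (by norm_num) (by norm_num) (by norm_num)
          have m20 := q12_ne hF (u := 2) (v := 0) (by norm_num) (by norm_num) (by norm_num)
          have hor : (p 1 = 1 ∧ p 0 = 5) ∨ (p 1 = 5 ∧ p 0 = 1) := by
            rcases q12_chain6 (p 3) (p 1) (p 6) (p 2) (p 4) (p 0) (p 5) q3 q5 l31 l16 l62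
              l24 l04.symm l50 n36 n12 m64 m20 n45 with h | h
            · exact Or.inl ⟨h.2.1, h.2.2.2.2.2.1⟩
            · exact Or.inr ⟨h.2.1, h.2.2.2.2.2.1⟩
          rcases hor with ⟨k1, k0⟩ | ⟨k1, k0⟩
          · rw [k0] at d0
            rw [k1] at d1
            exact three_of α (i := 1) (j := 3) (k := 5) (by norm_num) (by norm_num) (by norm_num)
              (by norm_num) (by norm_num) (by norm_num) e31.symm
              (by rw [e31, ← d0, ← f11, d1])
          · rw [k0] at d0
            rw [k1] at d1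
            exact three_of α (i := 1) (j := 3) (k := 5) (by norm_num) (by norm_num) (by norm_num)
              (by norm_num) (by norm_num) (by norm_num) e31.symm
              (by rw [e31, ← d0, ← f11, d1])
      ·
        exfalso
        have c4 : F 2 4 = 0 := hF.deg hB (u := 2) (v := 6) (w := 5) (t := 4) (by norm_num)
          (by norm_num) (by norm_num) (by norm_num) (by norm_num) (by norm_num) (by norm_num)
          (by norm_num) (by norm_num) (by norm_num) c6 c5
        have n34 : F 3 4 ≠ 0 := by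
          intro h
          rw [h, c3, c4] at t4
          have : b 5 * F 2 5 = 0 := by linarith
          rcases mul_eq_zero.1 this with h | h
          · linarith
          · exact c5 h
        have l34 := q12_step hB hF (u := 3) (v := 4) (by norm_num) (by norm_num) (by norm_num) n34
        have l25 := q12_step hB hF (u := 2) (v := 5) (by norm_num) (by norm_num) (by norm_num) c5
        have m65 := q12_ne hF (u := 6) (v := 5) (by norm_num) (by norm_num) (by norm_num)
        have m20 := q12_ne hF (u := 2) (v := 0) (by norm_num) (by norm_num) (by norm_num)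
        rcases q12_chain6 (p 3) (p 1) (p 6) (p 2) (p 5) (p 0) (p 4) q3 q4 l31 l16 l62
              l25 l50.symm l04 n36 n12 m65 m20 n45.symm with h | h
        · rw [h.1, h.2.2.2.2.2.2] at l34; norm_num at l34
        · rw [h.1, h.2.2.2.2.2.2] at l34; norm_num at l34
  · exfalso
    have n32 : F 3 2 ≠ 0 := by rw [sy32]; exact c3
    have n31 : F 3 1 ≠ 0 := by rw [sy31]; exact n13
    by_cases c6 : F 2 6 = 0
    · have f34 : F 3 4 = 0 := hF.deg hB (u := 3) (v := 1) (w := 2) (t := 4) (by norm_num)
        (by norm_num) (by norm_num) (by norm_num) (by norm_num) (by norm_num) (by norm_num)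
        (by norm_num) (by norm_num) (by norm_num) n31 n32
      have f35 : F 3 5 = 0 := hF.deg hB (u := 3) (v := 1) (w := 2) (t := 5) (by norm_num)
        (by norm_num) (by norm_num) (by norm_num) (by norm_num) (by norm_num) (by norm_num)
        (by norm_num) (by norm_num) (by norm_num) n31 n32
      have f36 : F 3 6 = 0 := hF.deg hB (u := 3) (v := 1) (w := 2) (t := 6) (by norm_num)
        (by norm_num) (by norm_num) (by norm_num) (by norm_num) (by norm_num) (by norm_num)
        (by norm_num) (by norm_num) (by norm_num) n31 n32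
      have c4 : F 2 4 = 0 := by
        by_contra c4
        have f25 : F 2 5 = 0 := hF.deg hB (u := 2) (v := 3) (w := 4) (t := 5) (by norm_num)
          (by norm_num) (by norm_num) (by norm_num) (by norm_num) (by norm_num) (by norm_num)
          (by norm_num) (by norm_num) (by norm_num) c3 c4
        rw [f35, f25, c6] at t5
        have : b 5 * F 2 4 = 0 := by linarith
        rcases mul_eq_zero.1 this with h | h
        · linarith
        · exact c4 h
      rw [f36, c6] at t6
      have x1 : b 6 * (F 2 5 - b 2 * F 0 5) = 0 := by rw [f16] at t6; linarith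
      have x2 : F 2 5 = b 2 * F 0 5 := by
        rcases mul_eq_zero.1 x1 with h | h
        · linarith
        · linarith
      rw [x2] at g25
      have x3 : (b 6 ^ 2 - 1 - b 2 ^ 2) * F 0 5 = 0 := by linarith
      rcases mul_eq_zero.1 x3 with h | h
      · exact sq_ne (b 6) (b 2) hb6 hb2 (by linarith)
      · exact h5 h
    · have l31 := q12_step hB hF (u := 3) (v := 1) (by norm_num) (by norm_num) (by norm_num) n31
      have l16 := q12_step hB hF (u := 1) (v := 6) (by norm_num) (by norm_num) (by norm_num) n16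
      have l26 := q12_step hB hF (u := 2) (v := 6) (by norm_num) (by norm_num) (by norm_num) c6
      have l32 := q12_step hB hF (u := 3) (v := 2) (by norm_num) (by norm_num) (by norm_num) n32
      have n36 := q12_ne hF (u := 3) (v := 6) (by norm_num) (by norm_num) (by norm_num)
      have n12 := q12_ne hF (u := 1) (v := 2) (by norm_num) (by norm_num) (by norm_num)
      have hc := q12_chain3 (p 6) (p 1) (p 3) (p 2) l16.symm l31.symm l32 n36.symm n12
      clear l31 l16 l32 n36 n12
      omega

end LS
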