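import Pool.Agent.LS.Core
import Pool.Agent.LS.PT

/-! Part `Q14` of the classification of self-dual Leonard systems with integral normalized
intersection numbers (MP_963a96_al). -/
open Finset
namespace LS

variable {d : ℕ} {α b : ℕ → ℤ} {p : ℕ → ℕ} {F : ℕ → ℕ → ℤ}

theorem q14_ne {a s : ℤ} (ha : 1 ≤ a) (hs : s ≠ 0) : a * s ≠ 0 :=
  mul_ne_zero (by omega) hs

theorem Q14 (hB : Base d α b) (hF : PathF d α b p F) (hd : 6 ≤ d) (M' : ℕ) (h1 : 1 ≤ M')
    (h2 : M' ≤ 3 ∨ (M' = 4 ∧ 7 ≤ d)) (hM' : F 0 M' ≠ 0) (hM : F 0 d ≠ 0)
    (h0 : ∀ v, 1 ≤ v → v < d → v ≠ M' → F 0 v = 0) : Three d α := by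
  have hd1 : F 1 (d - 1) ≠ 0 := by
    have e := PathF.recur0 hB hF (d - 1) (by omega)
    rw [h0 (d - 1 - 1) (by omega) (by omega) (by rcases h2 with h2 | h2 <;> omega),
      h0 (d - 1) (by omega) (by omega) (by rcases h2 with h2 | h2 <;> omega),
      show d - 1 + 1 = d by omega] at e
    rw [e, mul_zero, mul_zero, zero_add, zero_add]
    exact q14_ne (hB.bpos d (by omega) le_rfl) hM
  have hcase : M' = 1 ∨ M' = 2 ∨ M' = 3 ∨ (M' = 4 ∧ 7 ≤ d) := by omega
  rcases hcase with rfl | rfl | rfl | ⟨rfl, h7⟩
  · exfalso
    have e10 : F 1 0 ≠ 0 := by rw [hF.symm]; exact hM'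
    have e12 : F 1 2 ≠ 0 := by
      have e := PathF.recur0 hB hF 2 (by omega)
      rw [h0 2 (by omega) (by omega) (by omega), h0 (2 + 1) (by omega) (by omega) (by omega)] at e
      rw [e, mul_zero, mul_zero, add_zero, add_zero]
      exact q14_ne (hB.bpos 2 (by omega) (by omega)) hM'
    exact hd1 (PathF.deg hB hF (by omega) (by omega) (by omega) (by omega) (by omega) (by omega)
      (by omega) (by omega) (by omega) (by omega) e10 e12)
  · have e13 : F 1 3 ≠ 0 := by
      have e := PathF.recur0 hB hF 3 (by omega)
      rw [h0 3 (by omega) (by omega) (by omega), h0 (3 + 1) (by omega) (by omega) (by omega)] at e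
      rw [e, mul_zero, mul_zero, add_zero, add_zero]
      exact q14_ne (hB.bpos 3 (by omega) (by omega)) hM'
    have e12 : F 1 2 = 0 := PathF.deg hB hF (by omega) (by omega) (by omega) (by omega) (by omega)
      (by omega) (by omega) (by omega) (by omega) (by omega) e13 hd1
    have e1d : F 1 d = 0 := PathF.deg hB hF (by omega) (by omega) (by omega) (by omega) (by omega)
      (by omega) (by omega) (by omega) (by omega) (by omega) e13 hd1
    have a2 : α 2 = 0 := by
      have e := PathF.recur0 hB hF 2 (by omega)
      rw [show 2 - 1 = 1 from rfl, h0 1 (by omega) (by omega) (by omega),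
        h0 (2 + 1) (by omega) (by omega) (by omega), e12] at e
      rw [mul_zero, mul_zero, add_zero, zero_add] at e
      rcases mul_eq_zero.mp e.symm with h | h
      · exact h
      · exact absurd h hM'
    have ad : α d = 0 := by
      have e := PathF.recur0 hB hF d le_rfl
      rw [h0 (d - 1) (by omega) (by omega) (by omega), hB.bout (d + 1) (by omega), e1d] at e
      rw [mul_zero, zero_mul, add_zero, zero_add] at e
      rcases mul_eq_zero.mp e.symm with h | h
      · exact h
      · exact absurd h hM
    exact three_of α (i := 0) (j := 2) (k := d) (by omega) (by omega) le_rfl (by omega) (by omega)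
      (by omega) (by rw [hB.α0, a2]) (by rw [a2, ad])
  · exfalso
    have e12 : F 1 2 ≠ 0 := by
      have e := PathF.recur0 hB hF 2 (by omega)
      rw [show 2 - 1 = 1 from rfl, h0 1 (by omega) (by omega) (by omega),
        h0 2 (by omega) (by omega) (by omega)] at e
      rw [e, mul_zero, mul_zero, zero_add, zero_add]
      exact q14_ne (hB.bpos 3 (by omega) (by omega)) hM'
    have e14 : F 1 4 ≠ 0 := by
      have e := PathF.recur0 hB hF 4 (by omega)
      rw [h0 4 (by omega) (by omega) (by omega), h0 (4 + 1) (by omega) (by omega) (by omega)] at e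
      rw [e, mul_zero, mul_zero, add_zero, add_zero]
      exact q14_ne (hB.bpos 4 (by omega) (by omega)) hM'
    exact hd1 (PathF.deg hB hF (by omega) (by omega) (by omega) (by omega) (by omega) (by omega)
      (by omega) (by omega) (by omega) (by omega) e12 e14)
  · exfalso
    have e13 : F 1 3 ≠ 0 := by
      have e := PathF.recur0 hB hF 3 (by omega)
      rw [show 3 - 1 = 2 from rfl, h0 2 (by omega) (by omega) (by omega),
        h0 3 (by omega) (by omega) (by omega)] at e
      rw [e, mul_zero, mul_zero, zero_add, zero_add]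
      exact q14_ne (hB.bpos 4 (by omega) (by omega)) hM'
    have e15 : F 1 5 ≠ 0 := by
      have e := PathF.recur0 hB hF 5 (by omega)
      rw [h0 5 (by omega) (by omega) (by omega), h0 (5 + 1) (by omega) (by omega) (by omega)] at e
      rw [e, mul_zero, mul_zero, add_zero, add_zero]
      exact q14_ne (hB.bpos 5 (by omega) (by omega)) hM'
    exact hd1 (PathF.deg hB hF (by omega) (by omega) (by omega) (by omega) (by omega) (by omega)
      (by omega) (by omega) (by omega) (by omega) e13 e15)

theorem Q15 (hB : Base 6 α b) (hF : PathF 6 α b p F) (h1 : F 0 1 = 0)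
    (h2 : F 0 2 = 0) (h3 : F 0 3 = 0) (h4 : F 0 4 ≠ 0) (h5 : F 0 5 = 0) (h6 : F 0 6 ≠ 0) :
    Three 6 α := by
  have b1 := hB.b1
  have p2 := hB.bpos 2 (by omega) (by omega)
  have p3 := hB.bpos 3 (by omega) (by omega)
  have p4 := hB.bpos 4 (by omega) (by omega)
  have p5 := hB.bpos 5 (by omega) (by omega)
  have p6 := hB.bpos 6 (by omega) (by omega)
  have b7 : b 7 = 0 := hB.bout 7 (by omega)
  have n4 := hB.αnn 4
  have n6 := hB.αnn 6
  have F11 : F 1 1 = F 0 0 := by
    have e := PathF.recur0 hB hF 1 (by omega)
    norm_num [h1, h2, b1] at e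
    exact e
  have F12 : F 1 2 = 0 := by
    have e := PathF.recur0 hB hF 2 (by omega)
    norm_num [h1, h2, h3] at e
    exact e
  have F13 : F 1 3 = b 4 * F 0 4 := by
    have e := PathF.recur0 hB hF 3 (by omega)
    norm_num [h2, h3] at e
    exact e
  have F14 : F 1 4 = α 4 * F 0 4 := by
    have e := PathF.recur0 hB hF 4 (by omega)
    norm_num [h3, h5] at e
    exact e
  have F15 : F 1 5 = b 5 * F 0 4 + b 6 * F 0 6 := by
    have e := PathF.recur0 hB hF 5 (by omega)
    norm_num [h5] at e
    exact e
  have F16 : F 1 6 = α 6 * F 0 6 := by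
    have e := PathF.recur0 hB hF 6 (by omega)
    norm_num [h5, b7] at e
    exact e
  have F23 : b 2 * F 2 3 = (α 3 - α 1) * F 1 3 + b 4 * F 1 4 := by
    have e := PathF.recur1 hB hF 3 (by omega)
    norm_num [F12, h3] at e
    exact e
  have F24 : b 2 * F 2 4 = b 4 * F 1 3 + (α 4 - α 1) * F 1 4 + b 5 * F 1 5 - F 0 4 :=
    PathF.recur1 hB hF 4 (by omega)
  have F25 : b 2 * F 2 5 = b 5 * F 1 4 + (α 5 - α 1) * F 1 5 + b 6 * F 1 6 := by
    have e := PathF.recur1 hB hF 5 (by omega)
    norm_num [h5] at e
    exact e
  have F26 : b 2 * F 2 6 = b 6 * F 1 5 + (α 6 - α 1) * F 1 6 - F 0 6 := by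
    have e := PathF.recur1 hB hF 6 (by omega)
    norm_num [b7] at e
    exact e
  have F34 : b 3 * F 3 4 = b 4 * F 2 3 + (α 4 - α 2) * F 2 4 + b 5 * F 2 5 - b 2 * F 1 4 :=
    PathF.recurk hB hF 2 (by omega) 4 (by omega)
  have n13 : F 1 3 ≠ 0 := by rw [F13]; exact q14_ne p4 h4
  by_cases a4 : α 4 = 0
  · by_cases a6 : α 6 = 0
    · exact three_of α (i := 0) (j := 4) (k := 6) (by omega) (by omega) le_rfl (by omega) (by omega)
        (by omega) (by rw [hB.α0, a4]) (by rw [a4, a6])
    · have n16 : F 1 6 ≠ 0 := by rw [F16]; exact mul_ne_zero a6 h6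
      have z15 : F 1 5 = 0 := PathF.deg hB hF (by omega) (by omega) (by omega) (by omega) (by omega)
        (by omega) (by omega) (by omega) (by omega) (by omega) n13 n16
      have z62 : F 6 2 = 0 := PathF.deg hB hF (u := 6) (v := 0) (w := 1) (t := 2) (by omega)
        (by omega) (by omega) (by omega) (by omega)
        (by omega) (by omega) (by omega) (by omega) (by omega) (by rw [hF.symm]; exact h6)
        (by rw [hF.symm]; exact n16)
      rw [hF.symm] at z62
      rw [z62, z15, F16] at F26
      have e : (α 6 - α 1) * α 6 = 1 := by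
        have : ((α 6 - α 1) * α 6) * F 0 6 = 1 * F 0 6 := by linarith
        exact mul_right_cancel₀ h6 this
      have ha6 : α 6 = 1 := by
        rcases Int.isUnit_iff.mp (IsUnit.of_mul_eq_one_right _ e) with h | h
        · exact h
        · omega
      have ha1 : α 1 = 0 := by rw [ha6] at e; linarith
      exact three_of α (i := 0) (j := 1) (k := 4) (by omega) (by omega) (by omega) (by omega)
        (by omega) (by omega) (by rw [hB.α0, ha1]) (by rw [ha1, a4])
  · have n14 : F 1 4 ≠ 0 := by rw [F14]; exact mul_ne_zero a4 h4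
    have z15 : F 1 5 = 0 := PathF.deg hB hF (by omega) (by omega) (by omega) (by omega) (by omega)
      (by omega) (by omega) (by omega) (by omega) (by omega) n13 n14
    have z16 : F 1 6 = 0 := PathF.deg hB hF (by omega) (by omega) (by omega) (by omega) (by omega)
      (by omega) (by omega) (by omega) (by omega) (by omega) n13 n14
    have n41 : F 4 1 ≠ 0 := by rw [hF.symm]; exact n14
    have n40 : F 4 0 ≠ 0 := by rw [hF.symm]; exact h4
    have z42 : F 4 2 = 0 := PathF.deg hB hF (by omega) (by omega) (by omega) (by omega) (by omega)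
      (by omega) (by omega) (by omega) (by omega) (by omega) n40 n41
    have z43 : F 4 3 = 0 := PathF.deg hB hF (by omega) (by omega) (by omega) (by omega) (by omega)
      (by omega) (by omega) (by omega) (by omega) (by omega) n40 n41
    have z24 : F 2 4 = 0 := by rw [hF.symm]; exact z42
    have z34 : F 3 4 = 0 := by rw [hF.symm]; exact z43
    have F25' : b 2 * F 2 5 = b 5 * F 1 4 := by rw [F25, z15, z16]; ring
    have n25 : F 2 5 ≠ 0 := by
      intro h
      rw [h, mul_zero] at F25'
      exact q14_ne p5 n14 F25'.symm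
    have F26' : b 2 * F 2 6 = - F 0 6 := by rw [F26, z15, z16]; ring
    have n26 : F 2 6 ≠ 0 := by
      intro h
      rw [h, mul_zero] at F26'
      exact h6 (by linarith)
    have z23 : F 2 3 = 0 := PathF.deg hB hF (by omega) (by omega) (by omega) (by omega) (by omega)
      (by omega) (by omega) (by omega) (by omega) (by omega) n25 n26
    have ea : α 3 + α 4 = α 1 := by
      rw [z23, mul_zero, F13, F14] at F23
      have : (b 4 * F 0 4) * (α 3 + α 4 - α 1) = 0 := by linarith
      rcases mul_eq_zero.mp this with h | h
      · exact absurd h (q14_ne p4 h4)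
      · linarith
    have eb : b 5 = b 2 := by
      rw [z34, z23, z24] at F34
      have h : F 1 4 * ((b 5 - b 2) * (b 5 + b 2)) = 0 := by
        linear_combination (-b 2) * F34 - b 5 * F25'
      rcases mul_eq_zero.mp h with h | h
      · exact absurd h n14
      · rcases mul_eq_zero.mp h with h | h
        · linarith
        · exfalso; linarith
    have e2514 : F 2 5 = F 1 4 := by
      rw [eb] at F25'
      exact mul_left_cancel₀ (by omega) F25'
    have hm := PathF.mono hB hF 6 (fun i => if i = 0 then 3 else if i = 1 then 1 else if i = 2 then 4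
      else if i = 3 then 0 else if i = 4 then 6 else if i = 5 then 2 else 5)
      (by intro i hi; interval_cases i <;> simp)
      (by intro i hi j hj; interval_cases i <;> interval_cases j <;> simp)
      (by
        intro i hi
        interval_cases i
        · simpa using (by rw [hF.symm]; exact n13 : F 3 1 ≠ 0)
        · simpa using n14
        · simpa using n40
        · simpa using h6
        · simpa using (by rw [hF.symm]; exact n26 : F 6 2 ≠ 0)
        · simpa using n25)
    have dg0 := hF.diag 0 (by omega)
    have dg1 := hF.diag 1 (by omega)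
    rcases hm with hm | hm
    · have q1 := hm 1 (by omega)
      have q3 := hm 3 (by omega)
      have q6 := hm 6 (by omega)
      norm_num at q1 q3 q6
      have := hF.p_le 5 (by omega)
      have hp3 : p 3 = 0 := by omega
      rw [hp3] at q1 q3
      norm_num at q1 q3
      rw [q3] at dg0
      rw [q1] at dg1
      exfalso
      apply a4
      rw [F11, dg0] at dg1
      linarith
    · have q1 := hm 1 (by omega)
      have q2 := hm 2 (by omega)
      have q3 := hm 3 (by omega)
      have q5 := hm 5 (by omega)
      have q6 := hm 6 (by omega)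
      norm_num at q1 q2 q3 q5 q6
      have := hF.p_le 3 (by omega)
      have hp3 : p 3 = 6 := by omega
      have hp5 : p 5 = 0 := by omega
      have hp2 : p 2 = 1 := by omega
      have hp0 : p 0 = 3 := by omega
      have hp4 : p 4 = 4 := by omega
      have hp1 : p 1 = 5 := by omega
      rw [hp0] at dg0
      rw [hp1] at dg1
      have a35 : α 3 = α 5 := by rw [← dg0, ← dg1, F11]
      have g1 := hF.edge 5 (by omega) 2 (by omega) (by omega)
      rw [hp2, b1, hF.symm, e2514] at g1
      have g2 := hF.edge 4 (by omega) 1 (by omega) (by omega)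
      rw [hp1, hF.symm, g1] at g2
      have g3 := hF.edge 0 (by omega) 4 (by omega) (by omega)
      rw [hp4] at g3
      rw [F14, abs_mul] at g1
      have ga : |α 4| = 1 := by
        have h := Int.isUnit_iff.mp (IsUnit.of_mul_eq_one _ g1)
        rcases h with h | h
        · exact h
        · have := abs_nonneg (α 4); omega
      have gs : |F 0 4| = 1 := by rw [ga, one_mul] at g1; exact g1
      have ha4 : α 4 = 1 := by rw [abs_of_nonneg n4] at ga; exact ga
      have hb4 : b 4 = 1 := by rw [← g3, gs]
      rw [z24, mul_zero, F13, F14, z15, ha4, hb4] at F24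
      have ha1 : α 1 = 1 := by
        have h : F 0 4 * (1 - α 1) = 0 := by linarith
        rcases mul_eq_zero.mp h with h | h
        · exact absurd h h4
        · linarith
      have ha3 : α 3 = 0 := by linarith
      exact three_of α (i := 0) (j := 3) (k := 5) (by omega) (by omega) (by omega) (by omega)
        (by omega) (by omega) (by rw [hB.α0, ha3]) a35

end LS
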