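import Pool.Agent.LS.Core
import Pool.Agent.LS.PT

/-! Part `Q2` of the classification of self-dual Leonard systems with integral normalized
intersection numbers (MP_963a96_al). -/
open Finset
namespace LS

variable {d : ℕ} {α b : ℕ → ℤ} {p : ℕ → ℕ} {F : ℕ → ℕ → ℤ}

theorem q2_out (hF : PathF d α b p F) {u v : ℕ} (hv : d < v) : F u v = 0 := by
  rw [hF.symm]; exact hF.out _ _ hv

theorem q2_A (hB : Base d α b) (hF : PathF d α b p F)
    (h0 : ∀ v, 3 ≤ v → v ≤ d → F 0 v = 0) :
    ∀ u, u ≤ d → ∀ v, u + 3 ≤ v → F u v = 0 := by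
  intro u
  induction u using Nat.strong_induction_on with
  | _ u ih =>
    intro hu v hv
    by_cases hvd : v ≤ d
    · rcases Nat.eq_zero_or_pos u with h | h
      · subst h; exact h0 v (by omega) hvd
      · obtain ⟨k, rfl⟩ : ∃ k, u = k + 1 := ⟨u - 1, by omega⟩
        have hr := PathF.recurk hB hF k (by omega) v hvd
        have e1 : F k (v-1) = 0 := ih k (by omega) (by omega) _ (by omega)
        have e2 : F k v = 0 := ih k (by omega) (by omega) _ (by omega)
        have e3 : F k (v+1) = 0 := ih k (by omega) (by omega) _ (by omega)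
        have e4 : b k * F (k-1) v = 0 := by
          rcases Nat.eq_zero_or_pos k with h' | h'
          · subst h'; rw [hB.b0]; ring
          · rw [ih (k-1) (by omega) (by omega) _ (by omega)]; ring
        rw [e1, e2, e3, e4] at hr
        have hb : b (k+1) ≠ 0 := by have := hB.bpos (k+1) (by omega) (by omega); omega
        have : b (k+1) * F (k+1) v = 0 := by rw [hr]; ring
        exact (mul_eq_zero.mp this).resolve_left hb
    · exact q2_out hF (by omega)

theorem q2_B (hB : Base d α b) (hF : PathF d α b p F)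
    (h0 : ∀ v, 3 ≤ v → v ≤ d → F 0 v = 0) :
    ∀ u, u + 2 ≤ d → b 2 * F u (u+2) = F 0 2 * b (u+1) * b (u+2) := by
  intro u
  induction u with
  | zero => intro _; simp only [Nat.zero_add]; rw [hB.b1]; ring
  | succ k ih =>
    intro hk
    have hr := PathF.recurk hB hF k (by omega) (k+3) (by omega)
    have hA := q2_A hB hF h0
    have e2 : F k (k+3) = 0 := hA k (by omega) _ (by omega)
    have e3 : F k (k+3+1) = 0 := hA k (by omega) _ (by omega)
    have e4 : b k * F (k-1) (k+3) = 0 := by
      rcases Nat.eq_zero_or_pos k with h' | h'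
      · subst h'; rw [hB.b0]; ring
      · rw [hA (k-1) (by omega) _ (by omega)]; ring
    have e1 : k + 3 - 1 = k + 2 := by omega
    rw [e1, e2, e3, e4] at hr
    have hb : b (k+1) ≠ 0 := by have := hB.bpos (k+1) (by omega) (by omega); omega
    have ih' := ih (by omega)
    show b 2 * F (k+1) (k+3) = F 0 2 * b (k+2) * b (k+3)
    apply mul_left_cancel₀ hb
    linear_combination b 2 * hr + b (k+3) * ih'

theorem q2_C (hB : Base d α b) (hF : PathF d α b p F)
    (h0 : ∀ v, 3 ≤ v → v ≤ d → F 0 v = 0) :
    ∀ u, u + 1 ≤ d → b 2 * F u (u+1)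
      = b (u+1) * (F 0 2 * (α u + α (u+1) - α 1) + b 2 * F 0 1) := by
  intro u
  induction u with
  | zero => intro _; simp only [Nat.zero_add]; rw [hB.b1, hB.α0]; ring
  | succ k ih =>
    intro hk
    have hr := PathF.recurk hB hF k (by omega) (k+2) (by omega)
    have hA := q2_A hB hF h0
    have e3 : F k (k+2+1) = 0 := hA k (by omega) _ (by omega)
    have e4 : b k * F (k-1) (k+2) = 0 := by
      rcases Nat.eq_zero_or_pos k with h' | h'
      · subst h'; rw [hB.b0]; ring
      · rw [hA (k-1) (by omega) _ (by omega)]; ring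
    have e1 : k + 2 - 1 = k + 1 := by omega
    rw [e1, e3, e4] at hr
    have hb : b (k+1) ≠ 0 := by have := hB.bpos (k+1) (by omega) (by omega); omega
    have ih' := ih (by omega)
    have hB2 := q2_B hB hF h0 k (by omega)
    show b 2 * F (k+1) (k+2)
      = b (k+2) * (F 0 2 * (α (k+1) + α (k+2) - α 1) + b 2 * F 0 1)
    apply mul_left_cancel₀ hb
    linear_combination b 2 * hr + b (k+2) * ih' + (α (k+2) - α k) * hB2

theorem q2_ne (hB : Base d α b) (hF : PathF d α b p F) (h2 : F 0 2 ≠ 0)
    (h0 : ∀ v, 3 ≤ v → v ≤ d → F 0 v = 0) : ∀ u, u + 2 ≤ d → F u (u+2) ≠ 0 := by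
  intro u hu h
  have hb := q2_B hB hF h0 u hu
  rw [h, mul_zero] at hb
  have h1 : b (u+1) ≠ 0 := by have := hB.bpos (u+1) (by omega) (by omega); omega
  have h3 : b (u+2) ≠ 0 := by have := hB.bpos (u+2) (by omega) (by omega); omega
  exact (mul_ne_zero (mul_ne_zero h2 h1) h3) hb.symm

theorem Q2 (hB : Base d α b) (hF : PathF d α b p F) (hd : 4 ≤ d) (h2 : F 0 2 ≠ 0)
    (h0 : ∀ v, 3 ≤ v → v ≤ d → F 0 v = 0) : ∀ i, 1 ≤ i → i + 3 ≤ d → α i = α (i+2) := by
  intro i hi hid
  have n1 : F (i+1) (i-1) ≠ 0 := by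
    have := q2_ne hB hF h2 h0 (i-1) (by omega)
    rw [show i - 1 + 2 = i + 1 by omega] at this
    rwa [hF.symm]
  have n2 : F (i+1) (i+3) ≠ 0 := q2_ne hB hF h2 h0 (i+1) (by omega)
  have z1 : F (i+1) i = 0 :=
    PathF.deg hB hF (u := i+1) (v := i-1) (w := i+3) (t := i) (by omega) (by omega) (by omega)
      (by omega) (by omega) (by omega) (by omega) (by omega) (by omega) (by omega) n1 n2
  have z2 : F (i+1) (i+2) = 0 :=
    PathF.deg hB hF (u := i+1) (v := i-1) (w := i+3) (t := i+2) (by omega) (by omega) (by omega)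
      (by omega) (by omega) (by omega) (by omega) (by omega) (by omega) (by omega) n1 n2
  have c1 := q2_C hB hF h0 i (by omega)
  have c2 := q2_C hB hF h0 (i+1) (by omega)
  rw [hF.symm i (i+1), z1, mul_zero] at c1
  rw [show i + 1 + 1 = i + 2 by omega, z2, mul_zero] at c2
  have hb1 : b (i+1) ≠ 0 := by have := hB.bpos (i+1) (by omega) (by omega); omega
  have hb2 : b (i+2) ≠ 0 := by have := hB.bpos (i+2) (by omega) (by omega); omega
  have d1 := (mul_eq_zero.mp c1.symm).resolve_left hb1
  have d2 := (mul_eq_zero.mp c2.symm).resolve_left hb2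
  have : F 0 2 * (α i - α (i+2)) = 0 := by linear_combination d1 - d2
  have := (mul_eq_zero.mp this).resolve_left h2
  omega

theorem U1 (hB : Base 4 α b) (hF : PathF 4 α b p F) (h2 : F 0 2 ≠ 0)
    (h0 : ∀ v, 3 ≤ v → v ≤ 4 → F 0 v = 0) : α 1 = α 3 ∧ (α 2 = 0 ∨ α 2 = α 4) := by
  have hd : (4:ℕ) ≤ 4 := le_refl 4
  have q := Q2 hB hF hd h2 h0 1 (by omega) (by omega)
  refine ⟨q, ?_⟩
  have n24 : F 2 4 ≠ 0 := q2_ne hB hF h2 h0 2 (by omega)
  have n20 : F 2 0 ≠ 0 := by rwa [hF.symm]
  have n13 : F 1 3 ≠ 0 := q2_ne hB hF h2 h0 1 (by omega)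
  by_cases h01 : F 0 1 = 0
  · left
    have z : F 2 1 = 0 :=
      PathF.deg hB hF (u := 2) (v := 0) (w := 4) (t := 1) (by omega) (by omega) (by omega)
        (by omega) (by omega) (by omega) (by omega) (by omega) (by omega) (by omega) n20 n24
    have c := q2_C hB hF h0 1 (by omega)
    simp only [Nat.reduceAdd] at c
    rw [hF.symm 1 2, z, h01] at c
    have hb2 : b 2 ≠ 0 := by have := hB.bpos 2 (by omega) (by omega); omega
    have c' : b 2 * (F 0 2 * α 2) = 0 := by linear_combination -c
    exact (mul_eq_zero.mp ((mul_eq_zero.mp c').resolve_left hb2)).resolve_left h2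
  · right
    have z23 : F 2 3 = 0 :=
      PathF.deg hB hF (u := 2) (v := 0) (w := 4) (t := 3) (by omega) (by omega) (by omega)
        (by omega) (by omega) (by omega) (by omega) (by omega) (by omega) (by omega) n20 n24
    have z14 : F 1 4 = 0 := q2_A hB hF h0 1 (by omega) 4 (by omega)
    have z25 : F 2 5 = 0 := q2_out hF (by omega)
    have z34 : F 3 4 = 0 := by
      have hm := PathF.mono hB hF 4 (fun i => if i = 0 then 3 else if i = 1 then 1 else
        if i = 2 then 0 else if i = 3 then 2 else 4)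
        (by intro i hi; interval_cases i <;> simp)
        (by intro i hi j hj; interval_cases i <;> interval_cases j <;> simp)
        (by
          intro i hi
          interval_cases i
          · simpa [hF.symm 3 1] using n13
          · simpa [hF.symm 1 0] using h01
          · simpa using h2
          · simpa using n24)
      rcases hm with hm | hm
      · have := hm 4 (le_refl 4)
        simp at this
        exact hF.far 3 (by omega) 4 (by omega) (by omega)
      · have := hm 4 (le_refl 4)
        simp at this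
        rw [hF.symm]
        exact hF.far 4 (by omega) 3 (by omega) (by omega)
    have hr := PathF.recurk hB hF 2 (by omega) 4 (by omega)
    simp only [Nat.reduceAdd, Nat.reduceSub] at hr
    rw [z34, z23, z25, z14] at hr
    have : (α 4 - α 2) * F 2 4 = 0 := by linear_combination -hr
    have := (mul_eq_zero.mp this).resolve_right n24
    omega

end LS
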