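import Pool.Agent.LS.Core
import Pool.Agent.LS.PT

/-! Part `Q3` of the classification of self-dual Leonard systems with integral normalized
intersection numbers (MP_963a96_al). -/
open Finset
namespace LS

variable {d : ℕ} {α b : ℕ → ℤ} {p : ℕ → ℕ} {F : ℕ → ℕ → ℤ}

theorem q3_z0 (hF : PathF d α b p F) {m : ℕ} (h0 : ∀ v, m ≤ v → v ≤ d → F 0 v = 0) :
    ∀ v, m ≤ v → F 0 v = 0 := by
  intro v hv
  by_cases h : v ≤ d
  · exact h0 v hv h
  · rw [hF.symm 0 v]
    exact hF.out v 0 (by omega)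

theorem q3_z1 (hB : Base d α b) (hF : PathF d α b p F) {m : ℕ}
    (h0 : ∀ v, m ≤ v → F 0 v = 0) : ∀ v, m + 1 ≤ v → F 1 v = 0 := by
  intro v hv
  by_cases h : v ≤ d
  · rw [hF.recur0 hB v h, h0 (v - 1) (by omega), h0 v (by omega), h0 (v + 1) (by omega)]
    ring
  · rw [hF.symm 1 v]
    exact hF.out v 1 (by omega)

theorem q3_z2 (hB : Base d α b) (hF : PathF d α b p F) (hd : 2 ≤ d) {m : ℕ}
    (h0 : ∀ v, m ≤ v → F 0 v = 0) : ∀ v, m + 2 ≤ v → F 2 v = 0 := by
  intro v hv
  have h1 := q3_z1 hB hF h0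
  by_cases h : v ≤ d
  · have e := hF.recur1 hB v h
    rw [h1 (v - 1) (by omega), h1 v (by omega), h1 (v + 1) (by omega), h0 v (by omega)] at e
    have hb := hB.bpos 2 (by omega) hd
    have e2 : b 2 * F 2 v = 0 := by
      rw [e]
      ring
    rcases mul_eq_zero.1 e2 with e3 | e3
    · omega
    · exact e3
  · rw [hF.symm 2 v]
    exact hF.out v 2 (by omega)

theorem q3_deg (hB : Base d α b) (hF : PathF d α b p F) (u v w : ℕ) (hv0 : F u v ≠ 0)
    (hw0 : F u w ≠ 0) (hu : u ≤ d) (hv : v ≤ d) (hw : w ≤ d) (h1 : u ≠ v) (h2 : u ≠ w)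
    (h3 : v ≠ w) : ∀ t, t ≠ u → t ≠ v → t ≠ w → F u t = 0 := by
  intro t h4 h5 h6
  by_cases ht : t ≤ d
  · exact hF.deg hB hu hv hw ht h1 h2 (Ne.symm h4) h3 (Ne.symm h5) (Ne.symm h6) hv0 hw0
  · rw [hF.symm u t]
    exact hF.out t u (by omega)

theorem Q3 (hB : Base d α b) (hF : PathF d α b p F) (hd : 5 ≤ d) (h1 : F 0 1 = 0)
    (h2 : F 0 2 = 0) (h3 : F 0 3 ≠ 0) (h0 : ∀ v, 4 ≤ v → v ≤ d → F 0 v = 0) : False := by
  have b2 := hB.bpos 2 (by omega) (by omega)
  have b3 := hB.bpos 3 (by omega) (by omega)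
  have b4 := hB.bpos 4 (by omega) (by omega)
  have b5 := hB.bpos 5 (by omega) (by omega)
  have z0 := q3_z0 hF h0
  have z1 := q3_z1 hB hF z0
  have z4 := z0 4 (by omega)
  have z5 := z0 5 (by omega)
  have y5 := z1 5 (by omega)
  have y6 := z1 6 (by omega)
  have e12 := hF.recur0 hB 2 (by omega)
  have e13 := hF.recur0 hB 3 (by omega)
  have e14 := hF.recur0 hB 4 (by omega)
  have f3 := hF.recur1 hB 3 (by omega)
  have f5 := hF.recur1 hB 5 (by omega)
  norm_num [h1, h2, z4, z5, y5, y6] at e12 e13 e14 f3 f5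
  have n12 : F 1 2 ≠ 0 := by
    rw [e12]
    exact mul_ne_zero (by omega) h3
  have n14 : F 1 4 ≠ 0 := by
    rw [e14]
    exact mul_ne_zero (by omega) h3
  have d1 := q3_deg hB hF 1 2 4 n12 n14 (by omega) (by omega) (by omega) (by omega) (by omega)
    (by omega)
  have x13 := d1 3 (by omega) (by omega) (by omega)
  have n25 : F 2 5 ≠ 0 := by
    intro h
    rw [h, mul_zero] at f5
    exact mul_ne_zero (by omega) n14 f5.symm
  have n21 : F 2 1 ≠ 0 := by
    rw [hF.symm 2 1]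
    exact n12
  have d2 := q3_deg hB hF 2 1 5 n21 n25 (by omega) (by omega) (by omega) (by omega) (by omega)
    (by omega)
  have x23 := d2 3 (by omega) (by omega) (by omega)
  rw [x23, x13, e12, e14] at f3
  have e : (b 3 ^ 2 + b 4 ^ 2 - 1) * F 0 3 = 0 := by linarith
  rcases mul_eq_zero.1 e with h | h
  · nlinarith
  · exact h3 h

theorem Q4 (hB : Base d α b) (hF : PathF d α b p F) (hd : 6 ≤ d) (h1 : F 0 1 = 0)
    (h2 : F 0 2 = 0) (h3 : F 0 3 = 0) (h4 : F 0 4 ≠ 0) (h0 : ∀ v, 5 ≤ v → v ≤ d → F 0 v = 0) :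
    Three d α := by
  have b2 := hB.bpos 2 (by omega) (by omega)
  have b3 := hB.bpos 3 (by omega) (by omega)
  have b4 := hB.bpos 4 (by omega) (by omega)
  have b5 := hB.bpos 5 (by omega) (by omega)
  have b6 := hB.bpos 6 (by omega) (by omega)
  have z0 := q3_z0 hF h0
  have z1 := q3_z1 hB hF z0
  have z5 := z0 5 (by omega)
  have z6 := z0 6 (by omega)
  have y6 := z1 6 (by omega)
  have y7 := z1 7 (by omega)
  have e12 := hF.recur0 hB 2 (by omega)
  have e13 := hF.recur0 hB 3 (by omega)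
  have e14 := hF.recur0 hB 4 (by omega)
  have e15 := hF.recur0 hB 5 (by omega)
  have f3 := hF.recur1 hB 3 (by omega)
  have f4 := hF.recur1 hB 4 (by omega)
  have f5 := hF.recur1 hB 5 (by omega)
  have f6 := hF.recur1 hB 6 (by omega)
  norm_num [h1, h2, h3, z5, z6, y6, y7] at e12 e13 e14 e15 f3 f4 f5 f6
  have n13 : F 1 3 ≠ 0 := by
    rw [e13]
    exact mul_ne_zero (by omega) h4
  have n15 : F 1 5 ≠ 0 := by
    rw [e15]
    exact mul_ne_zero (by omega) h4
  have d1 := q3_deg hB hF 1 3 5 n13 n15 (by omega) (by omega) (by omega) (by omega) (by omega)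
    (by omega)
  have x14 := d1 4 (by omega) (by omega) (by omega)
  have n26 : F 2 6 ≠ 0 := by
    intro h
    rw [h, mul_zero] at f6
    exact mul_ne_zero (by omega) n15 f6.symm
  have n24 : F 2 4 ≠ 0 := by
    intro h
    rw [h, mul_zero, x14, e13, e15] at f4
    have e : (b 4 ^ 2 + b 5 ^ 2 - 1) * F 0 4 = 0 := by linarith
    rcases mul_eq_zero.1 e with h | h
    · nlinarith
    · exact h4 h
  have d2 := q3_deg hB hF 2 4 6 n24 n26 (by omega) (by omega) (by omega) (by omega) (by omega)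
    (by omega)
  have x23 := d2 3 (by omega) (by omega) (by omega)
  have x25 := d2 5 (by omega) (by omega) (by omega)
  rw [x23, x14, e12] at f3
  rw [x25, x14] at f5
  have g3 : (α 3 - α 1) * F 1 3 = 0 := by linarith
  have g5 : (α 5 - α 1) * F 1 5 = 0 := by linarith
  have k3 : α 3 = α 1 := by
    rcases mul_eq_zero.1 g3 with h | h
    · linarith
    · exact absurd h n13
  have k5 : α 5 = α 1 := by
    rcases mul_eq_zero.1 g5 with h | h
    · linarith
    · exact absurd h n15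
  exact three_of α (i := 1) (j := 3) (k := 5) (by omega) (by omega) (by omega) (by omega)
    (by omega) (by omega) k3.symm (by rw [k3, k5])

end LS
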