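import Pool.Agent.LS.Core
import Pool.Agent.LS.PT

/-! Part `Q5` of the classification of self-dual Leonard systems with integral normalized
intersection numbers (MP_963a96_al). -/
open Finset
namespace LS

variable {d : ℕ} {α b : ℕ → ℤ} {p : ℕ → ℕ} {F : ℕ → ℕ → ℤ}

theorem q5_z0 (hF : PathF d α b p F) {m : ℕ} (h0 : ∀ v, m ≤ v → v ≤ d → F 0 v = 0) :
    ∀ v, m ≤ v → F 0 v = 0 := by
  intro v hv
  by_cases h : v ≤ d
  · exact h0 v hv h
  · rw [hF.symm 0 v]
    exact hF.out v 0 (by omega)

theorem q5_z1 (hB : Base d α b) (hF : PathF d α b p F) {m : ℕ}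
    (h0 : ∀ v, m ≤ v → F 0 v = 0) : ∀ v, m + 1 ≤ v → F 1 v = 0 := by
  intro v hv
  by_cases h : v ≤ d
  · rw [hF.recur0 hB v h, h0 (v - 1) (by omega), h0 v (by omega), h0 (v + 1) (by omega)]
    ring
  · rw [hF.symm 1 v]
    exact hF.out v 1 (by omega)

theorem q5_z2 (hB : Base d α b) (hF : PathF d α b p F) (hd : 2 ≤ d) {m : ℕ}
    (h0 : ∀ v, m ≤ v → F 0 v = 0) : ∀ v, m + 2 ≤ v → F 2 v = 0 := by
  intro v hv
  have h1 := q5_z1 hB hF h0
  by_cases h : v ≤ d
  · have e := hF.recur1 hB v h
    rw [h1 (v - 1) (by omega), h1 v (by omega), h1 (v + 1) (by omega), h0 v (by omega)] at e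
    have hb := hB.bpos 2 (by omega) hd
    have e2 : b 2 * F 2 v = 0 := by
      rw [e]
      ring
    rcases mul_eq_zero.1 e2 with e3 | e3
    · omega
    · exact e3
  · rw [hF.symm 2 v]
    exact hF.out v 2 (by omega)

theorem q5_deg (hB : Base d α b) (hF : PathF d α b p F) (u v w : ℕ) (hv0 : F u v ≠ 0)
    (hw0 : F u w ≠ 0) (hu : u ≤ d) (hv : v ≤ d) (hw : w ≤ d) (h1 : u ≠ v) (h2 : u ≠ w)
    (h3 : v ≠ w) : ∀ t, t ≠ u → t ≠ v → t ≠ w → F u t = 0 := by
  intro t h4 h5 h6
  by_cases ht : t ≤ d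
  · exact hF.deg hB hu hv hw ht h1 h2 (Ne.symm h4) h3 (Ne.symm h5) (Ne.symm h6) hv0 hw0
  · rw [hF.symm u t]
    exact hF.out t u (by omega)

theorem q5_z3 (hB : Base d α b) (hF : PathF d α b p F) (hd : 3 ≤ d) {m : ℕ}
    (h0 : ∀ v, m ≤ v → F 0 v = 0) : ∀ v, m + 3 ≤ v → F 3 v = 0 := by
  intro v hv
  have h1 := q5_z1 hB hF h0
  have h2 := q5_z2 hB hF (by omega) h0
  by_cases h : v ≤ d
  · have e := hF.recurk hB 2 (by omega) v h
    rw [h2 (v - 1) (by omega), h2 v (by omega), h2 (v + 1) (by omega)] at e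
    have e4 : F (2 - 1) v = 0 := h1 v (by omega)
    rw [e4] at e
    have hb := hB.bpos 3 (by omega) hd
    have e2 : b 3 * F 3 v = 0 := by
      have : b (2 + 1) * F (2 + 1) v = 0 := by
        rw [e]
        ring
      exact this
    rcases mul_eq_zero.1 e2 with e3 | e3
    · omega
    · exact e3
  · rw [hF.symm 3 v]
    exact hF.out v 3 (by omega)

theorem q5_cz {c x : ℤ} (hc : 1 ≤ c) (h : c * x = 0) : x = 0 := by
  rcases mul_eq_zero.1 h with h1 | h1
  · omega
  · exact h1

theorem q5_cne {c x : ℤ} (hc : 1 ≤ c) (h : x ≠ 0) : c * x ≠ 0 :=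
  mul_ne_zero (by omega) h

theorem q5_chain (hB : Base 6 α b) (hF : PathF 6 α b p F) (v : ℕ → ℕ)
    (hle : ∀ i ≤ 6, v i ≤ 6) (hinj : ∀ i ≤ 6, ∀ j ≤ 6, v i = v j → i = j)
    (hadj : ∀ i < 6, F (v i) (v (i + 1)) ≠ 0) :
    (∀ i ≤ 6, p (v i) = i) ∨ (∀ i ≤ 6, p (v i) = 6 - i) := by
  have q0 := hF.p_le _ (hle 0 (by omega))
  have q6 := hF.p_le _ (hle 6 (by omega))
  rcases hF.mono hB 6 v hle hinj hadj with h | h
  · left
    intro i hi
    have r6 := h 6 (by omega)
    have ri := h i hi
    omega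
  · right
    intro i hi
    have r6 := h 6 (by omega)
    have ri := h i hi
    omega

theorem Q5 (hB : Base d α b) (hF : PathF d α b p F) (hd : 6 ≤ d) (h1 : F 0 1 ≠ 0)
    (h2 : F 0 2 = 0) (h3 : F 0 3 ≠ 0) (h0 : ∀ v, 4 ≤ v → v ≤ d → F 0 v = 0) : Three d α := by
  have b2 := hB.bpos 2 (by omega) (by omega)
  have b3 := hB.bpos 3 (by omega) (by omega)
  have b4 := hB.bpos 4 (by omega) (by omega)
  have b5 := hB.bpos 5 (by omega) (by omega)
  have b6 := hB.bpos 6 (by omega) (by omega)
  have z0 := q5_z0 hF h0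
  have z1 := q5_z1 hB hF z0
  have z2 := q5_z2 hB hF (by omega) z0
  have z3 := q5_z3 hB hF (by omega) z0
  have z4 := z0 4 (by omega)
  have z5 := z0 5 (by omega)
  have y5 := z1 5 (by omega)
  have y6 := z1 6 (by omega)
  have x26 := z2 6 (by omega)
  have x27 := z2 7 (by omega)
  have s10 := hF.symm 1 0
  have s21 := hF.symm 2 1
  have s32 := hF.symm 3 2
  have s30 := hF.symm 3 0
  have e12 := hF.recur0 hB 2 (by omega)
  have e13 := hF.recur0 hB 3 (by omega)
  have e14 := hF.recur0 hB 4 (by omega)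
  have f2 := hF.recur1 hB 2 (by omega)
  have f3 := hF.recur1 hB 3 (by omega)
  have f4 := hF.recur1 hB 4 (by omega)
  have f5 := hF.recur1 hB 5 (by omega)
  have g3 := hF.recurk hB 2 (by omega) 3 (by omega)
  have g4 := hF.recurk hB 2 (by omega) 4 (by omega)
  have g6 := hF.recurk hB 2 (by omega) 6 (by omega)
  norm_num [h2, z4, z5, y5, y6, x26, x27] at e12 e13 e14 f2 f3 f4 f5 g3 g4 g6
  have n10 : F 1 0 ≠ 0 := by
    rw [s10]
    exact h1
  have n14 : F 1 4 ≠ 0 := by
    rw [e14]
    exact q5_cne b4 h3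
  have d1 := q5_deg hB hF 1 0 4 n10 n14 (by omega) (by omega) (by omega) (by omega) (by omega)
    (by omega)
  have x12 := d1 2 (by omega) (by omega) (by omega)
  have x13 := d1 3 (by omega) (by omega) (by omega)
  have a3 : α 3 = 0 := by
    rw [x13] at e13
    rcases mul_eq_zero.1 e13.symm with h | h
    · exact h
    · exact absurd h h3
  rw [x12, x13] at f2
  have x22 : F 2 2 = F 1 1 := by
    have : b 2 * (F 2 2 - F 1 1) = 0 := by linarith
    have := q5_cz b2 this
    linarith
  have n25 : F 2 5 ≠ 0 := by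
    intro h
    rw [h, mul_zero] at f5
    exact q5_cne b5 n14 f5.symm
  have n36 : F 3 6 ≠ 0 := by
    intro h
    rw [h, mul_zero] at g6
    exact q5_cne b6 n25 g6.symm
  have n30 : F 3 0 ≠ 0 := by
    rw [s30]
    exact h3
  have d3 := q5_deg hB hF 3 0 6 n30 n36 (by omega) (by omega) (by omega) (by omega) (by omega)
    (by omega)
  have x32 := d3 2 (by omega) (by omega) (by omega)
  have x23 : F 2 3 = 0 := by
    rw [← s32]
    exact x32
  rw [x23, x13] at g3
  by_cases x24 : F 2 4 = 0
  · have x33 : F 3 3 = F 2 2 := by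
      rw [x24] at g3
      have : b 3 * (F 3 3 - F 2 2) = 0 := by linarith
      have := q5_cz b3 this
      linarith
    exact hF.three (u := 1) (v := 2) (w := 3) (by omega) (by omega) (by omega) (by omega)
      (by omega) (by omega) x22.symm x33.symm
  · by_cases hd7 : 7 ≤ d
    · exfalso
      have b7 := hB.bpos 7 (by omega) (by omega)
      have x37 := z3 7 (by omega)
      have x38 := z3 8 (by omega)
      have k7 := hF.recurk hB 3 (by omega) 7 (by omega)
      have s42 := hF.symm 4 2
      norm_num [x37, x38, x27] at k7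
      have n47 : F 4 7 ≠ 0 := by
        intro h
        rw [h, mul_zero] at k7
        exact q5_cne b7 n36 k7.symm
      have n41 : F 4 1 ≠ 0 := by
        rw [hF.symm 4 1]
        exact n14
      have d4 := q5_deg hB hF 4 1 7 n41 n47 (by omega) (by omega) (by omega) (by omega)
        (by omega) (by omega)
      exact x24 (by rw [← s42]; exact d4 2 (by omega) (by omega) (by omega))
    · obtain rfl : d = 6 := by omega
      have hch := q5_chain hB hF (fun i => [6, 3, 0, 1, 4, 2, 5].getD i 0) (by decide)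
        (by decide) (by
          intro i hi
          interval_cases i
          · change F 6 3 ≠ 0
            rw [hF.symm 6 3]
            exact n36
          · exact n30
          · exact h1
          · exact n14
          · change F 4 2 ≠ 0
            rw [hF.symm 4 2]
            exact x24
          · exact n25)
      have k1 := hF.diag 1 (by omega)
      have k2 := hF.diag 2 (by omega)
      have a0 := hB.α0
      rcases hch with h | h
      · have q1 : p 1 = 3 := h 3 (by omega)
        have q2 : p 2 = 5 := h 5 (by omega)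
        rw [q1] at k1
        rw [q2] at k2
        exact three_of α (i := 0) (j := 3) (k := 5) (by omega) (by omega) (by omega) (by omega)
          (by omega) (by omega) (by linarith) (by linarith)
      · have q1 : p 1 = 3 := h 3 (by omega)
        have q2 : p 2 = 1 := h 5 (by omega)
        rw [q1] at k1
        rw [q2] at k2
        exact three_of α (i := 0) (j := 3) (k := 1) (by omega) (by omega) (by omega) (by omega)
          (by omega) (by omega) (by linarith) (by linarith)

theorem Q6 (hB : Base d α b) (hF : PathF d α b p F) (hd : 6 ≤ d) (h1 : F 0 1 = 0)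
    (h2 : F 0 2 ≠ 0) (h3 : F 0 3 ≠ 0) (h0 : ∀ v, 4 ≤ v → v ≤ d → F 0 v = 0) : Three d α := by
  have b2 := hB.bpos 2 (by omega) (by omega)
  have b3 := hB.bpos 3 (by omega) (by omega)
  have b4 := hB.bpos 4 (by omega) (by omega)
  have b5 := hB.bpos 5 (by omega) (by omega)
  have b6 := hB.bpos 6 (by omega) (by omega)
  have z0 := q5_z0 hF h0
  have z1 := q5_z1 hB hF z0
  have z2 := q5_z2 hB hF (by omega) z0
  have z4 := z0 4 (by omega)
  have z5 := z0 5 (by omega)
  have y5 := z1 5 (by omega)
  have y6 := z1 6 (by omega)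
  have x26 := z2 6 (by omega)
  have x27 := z2 7 (by omega)
  have s20 := hF.symm 2 0
  have s30 := hF.symm 3 0
  have s21 := hF.symm 2 1
  have s31 := hF.symm 3 1
  have e14 := hF.recur0 hB 4 (by omega)
  have f5 := hF.recur1 hB 5 (by omega)
  have g3 := hF.recurk hB 2 (by omega) 3 (by omega)
  have g6 := hF.recurk hB 2 (by omega) 6 (by omega)
  have k4 := hF.recurk hB 3 (by omega) 4 (by omega)
  norm_num [h1, z4, z5, y5, y6, x26, x27] at e14 f5 g3 g6 k4
  have n14 : F 1 4 ≠ 0 := by
    rw [e14]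
    exact q5_cne b4 h3
  have n25 : F 2 5 ≠ 0 := by
    intro h
    rw [h, mul_zero] at f5
    exact q5_cne b5 n14 f5.symm
  have n20 : F 2 0 ≠ 0 := by
    rw [s20]
    exact h2
  have d2 := q5_deg hB hF 2 0 5 n20 n25 (by omega) (by omega) (by omega) (by omega) (by omega)
    (by omega)
  have x23 := d2 3 (by omega) (by omega) (by omega)
  have x24 := d2 4 (by omega) (by omega) (by omega)
  have n36 : F 3 6 ≠ 0 := by
    intro h
    rw [h, mul_zero] at g6
    exact q5_cne b6 n25 g6.symm
  have n30 : F 3 0 ≠ 0 := by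
    rw [s30]
    exact h3
  have d3 := q5_deg hB hF 3 0 6 n30 n36 (by omega) (by omega) (by omega) (by omega) (by omega)
    (by omega)
  have x13 : F 1 3 = 0 := by
    rw [← s31]
    exact d3 1 (by omega) (by omega) (by omega)
  have x34 := d3 4 (by omega) (by omega) (by omega)
  have x35 := d3 5 (by omega) (by omega) (by omega)
  rw [x23, x24, x13] at g3
  rw [x34, x35, x24] at k4
  have x33 : F 3 3 = F 2 2 := by
    have : b 3 * (F 3 3 - F 2 2) = 0 := by linarith
    have := q5_cz b3 this
    linarith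
  have x44 : F 4 4 = F 3 3 := by
    have : b 4 * (F 4 4 - F 3 3) = 0 := by linarith
    have := q5_cz b4 this
    linarith
  exact hF.three (u := 2) (v := 3) (w := 4) (by omega) (by omega) (by omega) (by omega)
    (by omega) (by omega) x33.symm x44.symm

theorem Q7 (hB : Base d α b) (hF : PathF d α b p F) (hd : 6 ≤ d) (h1 : F 0 1 = 0)
    (h2 : F 0 2 ≠ 0) (h3 : F 0 3 = 0) (h4 : F 0 4 ≠ 0) (h0 : ∀ v, 5 ≤ v → v ≤ d → F 0 v = 0) :
    Three d α := by
  have b2 := hB.bpos 2 (by omega) (by omega)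
  have b3 := hB.bpos 3 (by omega) (by omega)
  have b4 := hB.bpos 4 (by omega) (by omega)
  have b5 := hB.bpos 5 (by omega) (by omega)
  have b6 := hB.bpos 6 (by omega) (by omega)
  have z0 := q5_z0 hF h0
  have z1 := q5_z1 hB hF z0
  have z5 := z0 5 (by omega)
  have z6 := z0 6 (by omega)
  have y6 := z1 6 (by omega)
  have y7 := z1 7 (by omega)
  have s20 := hF.symm 2 0
  have s21 := hF.symm 2 1
  have e12 := hF.recur0 hB 2 (by omega)
  have e13 := hF.recur0 hB 3 (by omega)
  have e14 := hF.recur0 hB 4 (by omega)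
  have e15 := hF.recur0 hB 5 (by omega)
  have f3 := hF.recur1 hB 3 (by omega)
  have f6 := hF.recur1 hB 6 (by omega)
  norm_num [h1, h3, z5, z6, y6, y7] at e12 e13 e14 e15 f3 f6
  have n15 : F 1 5 ≠ 0 := by
    rw [e15]
    exact q5_cne b5 h4
  have n26 : F 2 6 ≠ 0 := by
    intro h
    rw [h, mul_zero] at f6
    exact q5_cne b6 n15 f6.symm
  have n20 : F 2 0 ≠ 0 := by
    rw [s20]
    exact h2
  have d2 := q5_deg hB hF 2 0 6 n20 n26 (by omega) (by omega) (by omega) (by omega) (by omega)
    (by omega)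
  have x12 : F 1 2 = 0 := by
    rw [← s21]
    exact d2 1 (by omega) (by omega) (by omega)
  have x23 := d2 3 (by omega) (by omega) (by omega)
  have a2 : α 2 = 0 := by
    rw [x12] at e12
    rcases mul_eq_zero.1 e12.symm with h | h
    · exact h
    · exact absurd h h2
  have x14 : F 1 4 = 0 := by
    by_contra n14
    have d1 := q5_deg hB hF 1 4 5 n14 n15 (by omega) (by omega) (by omega) (by omega) (by omega)
      (by omega)
    have x13 := d1 3 (by omega) (by omega) (by omega)
    rw [x23, x12, x13] at f3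
    have : b 4 * F 1 4 = 0 := by linarith
    exact n14 (q5_cz b4 this)
  have a4 : α 4 = 0 := by
    rw [x14] at e14
    rcases mul_eq_zero.1 e14.symm with h | h
    · exact h
    · exact absurd h h4
  have a0 := hB.α0
  exact three_of α (i := 0) (j := 2) (k := 4) (by omega) (by omega) (by omega) (by omega)
    (by omega) (by omega) (by rw [a0, a2]) (by rw [a2, a4])

end LS
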