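import Pool.Agent.LS.Core
import Pool.Agent.LS.PT

/-! Part `Q8` of the classification of self-dual Leonard systems with integral normalized
intersection numbers (MP_963a96_al). -/
open Finset
namespace LS

variable {d : ℕ} {α b : ℕ → ℤ} {p : ℕ → ℕ} {F : ℕ → ℕ → ℤ}

theorem q8_z0 (hF : PathF d α b p F) {m : ℕ} (h0 : ∀ v, m ≤ v → v ≤ d → F 0 v = 0) :
    ∀ v, m ≤ v → F 0 v = 0 := by
  intro v hv
  by_cases h : v ≤ d
  · exact h0 v hv h
  · rw [hF.symm 0 v]
    exact hF.out v 0 (by omega)

theorem q8_z1 (hB : Base d α b) (hF : PathF d α b p F) {m : ℕ}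
    (h0 : ∀ v, m ≤ v → F 0 v = 0) : ∀ v, m + 1 ≤ v → F 1 v = 0 := by
  intro v hv
  by_cases h : v ≤ d
  · rw [hF.recur0 hB v h, h0 (v - 1) (by omega), h0 v (by omega), h0 (v + 1) (by omega)]
    ring
  · rw [hF.symm 1 v]
    exact hF.out v 1 (by omega)

theorem q8_z2 (hB : Base d α b) (hF : PathF d α b p F) (hd : 2 ≤ d) {m : ℕ}
    (h0 : ∀ v, m ≤ v → F 0 v = 0) : ∀ v, m + 2 ≤ v → F 2 v = 0 := by
  intro v hv
  have h1 := q8_z1 hB hF h0
  by_cases h : v ≤ d
  · have e := hF.recur1 hB v h
    rw [h1 (v - 1) (by omega), h1 v (by omega), h1 (v + 1) (by omega), h0 v (by omega)] at e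
    have hb := hB.bpos 2 (by omega) hd
    have e2 : b 2 * F 2 v = 0 := by
      rw [e]
      ring
    rcases mul_eq_zero.1 e2 with e3 | e3
    · omega
    · exact e3
  · rw [hF.symm 2 v]
    exact hF.out v 2 (by omega)

theorem q8_deg (hB : Base d α b) (hF : PathF d α b p F) (u v w : ℕ) (hv0 : F u v ≠ 0)
    (hw0 : F u w ≠ 0) (hu : u ≤ d) (hv : v ≤ d) (hw : w ≤ d) (h1 : u ≠ v) (h2 : u ≠ w)
    (h3 : v ≠ w) : ∀ t, t ≠ u → t ≠ v → t ≠ w → F u t = 0 := by
  intro t h4 h5 h6
  by_cases ht : t ≤ d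
  · exact hF.deg hB hu hv hw ht h1 h2 (Ne.symm h4) h3 (Ne.symm h5) (Ne.symm h6) hv0 hw0
  · rw [hF.symm u t]
    exact hF.out t u (by omega)

theorem q8_z3 (hB : Base d α b) (hF : PathF d α b p F) (hd : 3 ≤ d) {m : ℕ}
    (h0 : ∀ v, m ≤ v → F 0 v = 0) : ∀ v, m + 3 ≤ v → F 3 v = 0 := by
  intro v hv
  have h1 := q8_z1 hB hF h0
  have h2 := q8_z2 hB hF (by omega) h0
  by_cases h : v ≤ d
  · have e := hF.recurk hB 2 (by omega) v h
    rw [h2 (v - 1) (by omega), h2 v (by omega), h2 (v + 1) (by omega)] at e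
    have e4 : F (2 - 1) v = 0 := h1 v (by omega)
    rw [e4] at e
    have hb := hB.bpos 3 (by omega) hd
    have e2 : b 3 * F 3 v = 0 := by
      have : b (2 + 1) * F (2 + 1) v = 0 := by
        rw [e]
        ring
      exact this
    rcases mul_eq_zero.1 e2 with e3 | e3
    · omega
    · exact e3
  · rw [hF.symm 3 v]
    exact hF.out v 3 (by omega)

theorem q8_cz {c x : ℤ} (hc : 1 ≤ c) (h : c * x = 0) : x = 0 := by
  rcases mul_eq_zero.1 h with h1 | h1
  · omega
  · exact h1

theorem q8_cne {c x : ℤ} (hc : 1 ≤ c) (h : x ≠ 0) : c * x ≠ 0 :=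
  mul_ne_zero (by omega) h

theorem q8_chain (hB : Base 6 α b) (hF : PathF 6 α b p F) (v : ℕ → ℕ)
    (hle : ∀ i ≤ 6, v i ≤ 6) (hinj : ∀ i ≤ 6, ∀ j ≤ 6, v i = v j → i = j)
    (hadj : ∀ i < 6, F (v i) (v (i + 1)) ≠ 0) :
    (∀ i ≤ 6, p (v i) = i) ∨ (∀ i ≤ 6, p (v i) = 6 - i) := by
  have q0 := hF.p_le _ (hle 0 (by omega))
  have q6 := hF.p_le _ (hle 6 (by omega))
  rcases hF.mono hB 6 v hle hinj hadj with h | h
  · left
    intro i hi
    have r6 := h 6 (by omega)
    have ri := h i hi
    omega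
  · right
    intro i hi
    have r6 := h 6 (by omega)
    have ri := h i hi
    omega

theorem Q8 (hB : Base d α b) (hF : PathF d α b p F) (hd : 6 ≤ d) (h1 : F 0 1 = 0)
    (h2 : F 0 2 = 0) (h3 : F 0 3 ≠ 0) (h4 : F 0 4 ≠ 0) (h0 : ∀ v, 5 ≤ v → v ≤ d → F 0 v = 0) :
    Three d α := by
  have b2 := hB.bpos 2 (by omega) (by omega)
  have b3 := hB.bpos 3 (by omega) (by omega)
  have b4 := hB.bpos 4 (by omega) (by omega)
  have b5 := hB.bpos 5 (by omega) (by omega)
  have b6 := hB.bpos 6 (by omega) (by omega)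
  have b1 := hB.b1
  have z0 := q8_z0 hF h0
  have z1 := q8_z1 hB hF z0
  have z2 := q8_z2 hB hF (by omega) z0
  have z5 := z0 5 (by omega)
  have z6 := z0 6 (by omega)
  have y6 := z1 6 (by omega)
  have y7 := z1 7 (by omega)
  have x27 := z2 7 (by omega)
  have s21 := hF.symm 2 1
  have s30 := hF.symm 3 0
  have e11 := hF.recur0 hB 1 (by omega)
  have e12 := hF.recur0 hB 2 (by omega)
  have e15 := hF.recur0 hB 5 (by omega)
  have f5 := hF.recur1 hB 5 (by omega)
  have f6 := hF.recur1 hB 6 (by omega)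
  have g3 := hF.recurk hB 2 (by omega) 3 (by omega)
  have g4 := hF.recurk hB 2 (by omega) 4 (by omega)
  have k4 := hF.recurk hB 3 (by omega) 4 (by omega)
  norm_num [h1, h2, z5, z6, y6, y7, b1] at e11 e12 e15 f5 f6 g3 g4 k4
  have n12 : F 1 2 ≠ 0 := by
    rw [e12]
    exact q8_cne b3 h3
  have n15 : F 1 5 ≠ 0 := by
    rw [e15]
    exact q8_cne b5 h4
  have d1 := q8_deg hB hF 1 2 5 n12 n15 (by omega) (by omega) (by omega) (by omega) (by omega)
    (by omega)
  have x13 := d1 3 (by omega) (by omega) (by omega)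
  have x14 := d1 4 (by omega) (by omega) (by omega)
  have n26 : F 2 6 ≠ 0 := by
    intro h
    rw [h, mul_zero] at f6
    exact q8_cne b6 n15 f6.symm
  have n21 : F 2 1 ≠ 0 := by
    rw [s21]
    exact n12
  have d2 := q8_deg hB hF 2 1 6 n21 n26 (by omega) (by omega) (by omega) (by omega) (by omega)
    (by omega)
  have x23 := d2 3 (by omega) (by omega) (by omega)
  have x24 := d2 4 (by omega) (by omega) (by omega)
  have x25 := d2 5 (by omega) (by omega) (by omega)
  rw [x25, x14] at f5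
  have a5 : α 5 = α 1 := by
    have : (α 5 - α 1) * F 1 5 = 0 := by linarith
    rcases mul_eq_zero.1 this with h | h
    · linarith
    · exact absurd h n15
  rw [x23, x24, x13] at g3
  have x33 : F 3 3 = F 2 2 := by
    have : b 3 * (F 3 3 - F 2 2) = 0 := by linarith
    have := q8_cz b3 this
    linarith
  rw [x23, x24, x25, x14] at g4
  have x34 : F 3 4 = 0 := by
    have : b 3 * F 3 4 = 0 := by linarith
    exact q8_cz b3 this
  rw [x34, x24] at k4
  have hfin : F 3 5 = 0 → Three d α := by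
    intro x35
    rw [x35] at k4
    have x44 : F 4 4 = F 3 3 := by
      have : b 4 * (F 4 4 - F 3 3) = 0 := by linarith
      have := q8_cz b4 this
      linarith
    exact hF.three (u := 2) (v := 3) (w := 4) (by omega) (by omega) (by omega) (by omega)
      (by omega) (by omega) x33.symm x44.symm
  by_cases x35 : F 3 5 = 0
  · exact hfin x35
  by_cases hd7 : 7 ≤ d
  · exact hfin (by
      have b7 := hB.bpos 7 (by omega) (by omega)
      have x28 := z2 8 (by omega)
      have k7 := hF.recurk hB 2 (by omega) 7 (by omega)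
      norm_num [x27, x28, y7] at k7
      have n37 : F 3 7 ≠ 0 := by
        intro h
        rw [h, mul_zero] at k7
        exact q8_cne b7 n26 k7.symm
      have n30 : F 3 0 ≠ 0 := by
        rw [s30]
        exact h3
      exact q8_deg hB hF 3 0 7 n30 n37 (by omega) (by omega) (by omega) (by omega)
        (by omega) (by omega) 5 (by omega) (by omega) (by omega))
  · obtain rfl : d = 6 := by omega
    have hch := q8_chain hB hF (fun i => [4, 0, 3, 5, 1, 2, 6].getD i 0) (by decide)
      (by decide) (by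
        intro i hi
        interval_cases i
        · change F 4 0 ≠ 0
          rw [hF.symm 4 0]
          exact h4
        · exact h3
        · exact x35
        · change F 5 1 ≠ 0
          rw [hF.symm 5 1]
          exact n15
        · exact n12
        · exact n26)
    have k0 := hF.diag 0 (by omega)
    have k1 := hF.diag 1 (by omega)
    rcases hch with h | h
    · have q0 : p 0 = 1 := h 1 (by omega)
      have q1 : p 1 = 4 := h 4 (by omega)
      rw [q0] at k0
      rw [q1] at k1
      exact three_of α (i := 1) (j := 4) (k := 5) (by omega) (by omega) (by omega) (by omega)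
        (by omega) (by omega) (by linarith) (by linarith)
    · have q0 : p 0 = 5 := h 1 (by omega)
      have q1 : p 1 = 2 := h 4 (by omega)
      rw [q0] at k0
      rw [q1] at k1
      exact three_of α (i := 1) (j := 2) (k := 5) (by omega) (by omega) (by omega) (by omega)
        (by omega) (by omega) (by linarith) (by linarith)

theorem Q9 (hB : Base d α b) (hF : PathF d α b p F) (hd : 6 ≤ d) (h1 : F 0 1 = 0)
    (h2 : F 0 2 = 0) (h3 : F 0 3 ≠ 0) (h4 : F 0 4 = 0) (h5 : F 0 5 ≠ 0)
    (h0 : ∀ v, 6 ≤ v → v ≤ d → F 0 v = 0) : Three d α := by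
  have b3 := hB.bpos 3 (by omega) (by omega)
  have b6 := hB.bpos 6 (by omega) (by omega)
  have z0 := q8_z0 hF h0
  have z6 := z0 6 (by omega)
  have z7 := z0 7 (by omega)
  have e12 := hF.recur0 hB 2 (by omega)
  have e13 := hF.recur0 hB 3 (by omega)
  have e15 := hF.recur0 hB 5 (by omega)
  have e16 := hF.recur0 hB 6 (by omega)
  norm_num [h1, h2, h4, z6, z7] at e12 e13 e15 e16
  have n12 : F 1 2 ≠ 0 := by
    rw [e12]
    exact q8_cne b3 h3
  have n16 : F 1 6 ≠ 0 := by
    rw [e16]
    exact q8_cne b6 h5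
  have d1 := q8_deg hB hF 1 2 6 n12 n16 (by omega) (by omega) (by omega) (by omega) (by omega)
    (by omega)
  have x13 := d1 3 (by omega) (by omega) (by omega)
  have x15 := d1 5 (by omega) (by omega) (by omega)
  have a3 : α 3 = 0 := by
    rw [x13] at e13
    rcases mul_eq_zero.1 e13.symm with h | h
    · exact h
    · exact absurd h h3
  have a5 : α 5 = 0 := by
    rw [x15] at e15
    rcases mul_eq_zero.1 e15.symm with h | h
    · exact h
    · exact absurd h h5
  have a0 := hB.α0
  exact three_of α (i := 0) (j := 3) (k := 5) (by omega) (by omega) (by omega) (by omega)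
    (by omega) (by omega) (by rw [a0, a3]) (by rw [a3, a5])

theorem Q13 (hB : Base d α b) (hF : PathF d α b p F) (hd : 7 ≤ d) (h1 : F 0 1 = 0)
    (h2 : F 0 2 = 0) (h3 : F 0 3 = 0) (h4 : F 0 4 ≠ 0) (h5 : F 0 5 = 0) (h6 : F 0 6 ≠ 0)
    (h0 : ∀ v, 7 ≤ v → v ≤ d → F 0 v = 0) : Three d α := by
  have b4 := hB.bpos 4 (by omega) (by omega)
  have b7 := hB.bpos 7 (by omega) (by omega)
  have z0 := q8_z0 hF h0
  have z7 := z0 7 (by omega)
  have z8 := z0 8 (by omega)
  have e13 := hF.recur0 hB 3 (by omega)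
  have e14 := hF.recur0 hB 4 (by omega)
  have e16 := hF.recur0 hB 6 (by omega)
  have e17 := hF.recur0 hB 7 (by omega)
  norm_num [h1, h2, h3, h5, z7, z8] at e13 e14 e16 e17
  have n13 : F 1 3 ≠ 0 := by
    rw [e13]
    exact q8_cne b4 h4
  have n17 : F 1 7 ≠ 0 := by
    rw [e17]
    exact q8_cne b7 h6
  have d1 := q8_deg hB hF 1 3 7 n13 n17 (by omega) (by omega) (by omega) (by omega) (by omega)
    (by omega)
  have x14 := d1 4 (by omega) (by omega) (by omega)
  have x16 := d1 6 (by omega) (by omega) (by omega)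
  have a4 : α 4 = 0 := by
    rw [x14] at e14
    rcases mul_eq_zero.1 e14.symm with h | h
    · exact h
    · exact absurd h h4
  have a6 : α 6 = 0 := by
    rw [x16] at e16
    rcases mul_eq_zero.1 e16.symm with h | h
    · exact h
    · exact absurd h h6
  have a0 := hB.α0
  exact three_of α (i := 0) (j := 4) (k := 6) (by omega) (by omega) (by omega) (by omega)
    (by omega) (by omega) (by rw [a0, a4]) (by rw [a4, a6])

end LS
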