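import Pool.Agent.LS.Core
import Pool.Agent.LS.PT
import Pool.Agent.LS.Q1
import Pool.Agent.LS.Q2
import Pool.Agent.LS.Q3
import Pool.Agent.LS.Q5
import Pool.Agent.LS.Q8
import Pool.Agent.LS.Q10
import Pool.Agent.LS.Q12
import Pool.Agent.LS.Q14

/-! Part `Q17` of the classification of self-dual Leonard systems with integral normalized
intersection numbers (MP_963a96_al). -/
open Finset
namespace LS

variable {d : ℕ} {α b : ℕ → ℤ} {p : ℕ → ℕ} {F : ℕ → ℕ → ℤ}

theorem Q17 (hB : Base d α b) (hF : PathF d α b p F) (hd : 6 ≤ d)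
    (h : ∃ v, 2 ≤ v ∧ v ≤ d ∧ F 0 v ≠ 0) : Three d α := by
  classical
  obtain ⟨v0, hv2, hvd, hv0⟩ := h
  obtain ⟨M, hMd, hM0, hM2, hMax⟩ : ∃ M, M ≤ d ∧ F 0 M ≠ 0 ∧ 2 ≤ M ∧
      ∀ v, M < v → v ≤ d → F 0 v = 0 := by
    refine ⟨Nat.findGreatest (fun v => F 0 v ≠ 0) d, Nat.findGreatest_le d,
      Nat.findGreatest_spec (P := fun v => F 0 v ≠ 0) hvd hv0,
      hv2.trans (Nat.le_findGreatest hvd hv0), ?_⟩
    intro v h1 h2
    by_contra h
    exact Nat.findGreatest_is_greatest (P := fun v => F 0 v ≠ 0) h1 h2 h
  by_cases hex : ∃ M', 1 ≤ M' ∧ M' < M ∧ F 0 M' ≠ 0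
  · obtain ⟨M', h1, hlt, hM'⟩ := hex
    have h0 : ∀ v, 1 ≤ v → v ≤ d → v ≠ M' → v ≠ M → F 0 v = 0 := by
      intro v hv1 hvd hvM' hvM
      exact PathF.deg hB hF (by omega) (by omega) hMd hvd (by omega) (by omega) (by omega)
        (by omega) (by omega) (by omega) hM' hM0
    by_cases h5 : 5 ≤ M'
    · exact Q1 hB hF (by omega) (h0 1 (by omega) (by omega) (by omega) (by omega))
        (h0 2 (by omega) (by omega) (by omega) (by omega))
        (h0 3 (by omega) (by omega) (by omega) (by omega))
        (h0 4 (by omega) (by omega) (by omega) (by omega))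
    · by_cases hMlt : M < d
      · by_cases h3 : M' + 3 ≤ M
        · exact (Q16 hB hF M' M h1 h3 hMlt hM' hM0 h0).elim
        · have hc : (M' = 1 ∧ M = 2) ∨ (M' = 1 ∧ M = 3) ∨ (M' = 2 ∧ M = 3) ∨ (M' = 2 ∧ M = 4) ∨
              (M' = 3 ∧ M = 4) ∨ (M' = 3 ∧ M = 5) ∨ (M' = 4 ∧ M = 5) ∨ (M' = 4 ∧ M = 6) := by omega
          rcases hc with ⟨rfl, rfl⟩ | ⟨rfl, rfl⟩ | ⟨rfl, rfl⟩ | ⟨rfl, rfl⟩ | ⟨rfl, rfl⟩ |
            ⟨rfl, rfl⟩ | ⟨rfl, rfl⟩ | ⟨rfl, rfl⟩
          · have hq := Q2 hB hF (by omega) hM0 (fun v h3 hvd => hMax v (by omega) hvd)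
            exact three_of α (i := 1) (j := 3) (k := 5) (by omega) (by omega) (by omega) (by omega)
              (by omega) (by omega) (hq 1 (by omega) (by omega)) (hq 3 (by omega) (by omega))
          · exact Q5 hB hF hd hM' (h0 2 (by omega) (by omega) (by omega) (by omega)) hM0
              (fun v h3 hvd => hMax v (by omega) hvd)
          · exact Q6 hB hF hd (h0 1 (by omega) (by omega) (by omega) (by omega)) hM' hM0
              (fun v h3 hvd => hMax v (by omega) hvd)
          · exact Q7 hB hF hd (h0 1 (by omega) (by omega) (by omega) (by omega)) hM'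
              (h0 3 (by omega) (by omega) (by omega) (by omega)) hM0
              (fun v h3 hvd => hMax v (by omega) hvd)
          · exact Q8 hB hF hd (h0 1 (by omega) (by omega) (by omega) (by omega))
              (h0 2 (by omega) (by omega) (by omega) (by omega)) hM' hM0
              (fun v h3 hvd => hMax v (by omega) hvd)
          · exact Q9 hB hF hd (h0 1 (by omega) (by omega) (by omega) (by omega))
              (h0 2 (by omega) (by omega) (by omega) (by omega)) hM'
              (h0 4 (by omega) (by omega) (by omega) (by omega)) hM0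
              (fun v h3 hvd => hMax v (by omega) hvd)
          · by_cases h7 : 7 ≤ d
            · exact Q10 hB hF h7 (h0 1 (by omega) (by omega) (by omega) (by omega))
                (h0 2 (by omega) (by omega) (by omega) (by omega))
                (h0 3 (by omega) (by omega) (by omega) (by omega)) hM' hM0
                (fun v h3 hvd => hMax v (by omega) hvd)
            · obtain rfl : d = 6 := by omega
              exact Q12 hB hF (h0 1 (by omega) (by omega) (by omega) (by omega))
                (h0 2 (by omega) (by omega) (by omega) (by omega))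
                (h0 3 (by omega) (by omega) (by omega) (by omega)) hM' hM0
                (hMax 6 (by omega) (by omega))
          · exact Q13 hB hF (by omega) (h0 1 (by omega) (by omega) (by omega) (by omega))
              (h0 2 (by omega) (by omega) (by omega) (by omega))
              (h0 3 (by omega) (by omega) (by omega) (by omega)) hM'
              (h0 5 (by omega) (by omega) (by omega) (by omega)) hM0
              (fun v h3 hvd => hMax v (by omega) hvd)
      · obtain rfl : M = d := by omega
        by_cases hq : M' ≤ 3 ∨ (M' = 4 ∧ 7 ≤ M)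
        · exact Q14 hB hF hd M' h1 hq hM' hM0
            (fun v hv1 hvd hvM' => h0 v hv1 (by omega) hvM' (by omega))
        · obtain rfl : M = 6 := by omega
          obtain rfl : M' = 4 := by omega
          exact Q15 hB hF (h0 1 (by omega) (by omega) (by omega) (by omega))
            (h0 2 (by omega) (by omega) (by omega) (by omega))
            (h0 3 (by omega) (by omega) (by omega) (by omega)) hM'
            (h0 5 (by omega) (by omega) (by omega) (by omega)) hM0
  · have h0 : ∀ v, 1 ≤ v → v ≤ d → v ≠ M → F 0 v = 0 := by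
      intro v hv1 hvd hvM
      rcases lt_or_gt_of_ne hvM with h | h
      · by_contra hne
        exact hex ⟨v, hv1, h, hne⟩
      · exact hMax v h hvd
    have hc : M = 2 ∨ M = 3 ∨ M = 4 ∨ 5 ≤ M := by omega
    rcases hc with rfl | rfl | rfl | h5
    · have hq := Q2 hB hF (by omega) hM0 (fun v h3 hvd => hMax v (by omega) hvd)
      exact three_of α (i := 1) (j := 3) (k := 5) (by omega) (by omega) (by omega) (by omega)
        (by omega) (by omega) (hq 1 (by omega) (by omega)) (hq 3 (by omega) (by omega))
    · exact (Q3 hB hF (by omega) (h0 1 (by omega) (by omega) (by omega))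
        (h0 2 (by omega) (by omega) (by omega)) hM0
        (fun v h3 hvd => hMax v (by omega) hvd)).elim
    · exact Q4 hB hF hd (h0 1 (by omega) (by omega) (by omega))
        (h0 2 (by omega) (by omega) (by omega)) (h0 3 (by omega) (by omega) (by omega)) hM0
        (fun v h3 hvd => hMax v (by omega) hvd)
    · exact Q1 hB hF (by omega) (h0 1 (by omega) (by omega) (by omega))
        (h0 2 (by omega) (by omega) (by omega)) (h0 3 (by omega) (by omega) (by omega))
        (h0 4 (by omega) (by omega) (by omega))

end LS
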