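import Pool.Agent.LS.Core
import Pool.Agent.LS.PT

/-! Part `R01` of the classification of self-dual Leonard systems with integral normalized
intersection numbers (MP_963a96_al). -/
open Finset
namespace LS

variable {d : ℕ} {α b : ℕ → ℤ}

variable {p : ℕ → ℕ} {F : ℕ → ℕ → ℤ}

theorem r01_ne (hB : Base d α b) (hF : PathF d α b p F)
    (h0 : ∀ v, 2 ≤ v → v ≤ d → F 0 v = 0) : F 0 1 ≠ 0 := by
  have hd := hB.one_le
  have hp0 := hF.p_le 0 (by omega)
  by_cases hc : p 0 + 1 ≤ d
  · obtain ⟨u, hu, hpu⟩ := hF.surj (p 0 + 1) hc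
    have h1 := hF.ne_zero hB (by omega : 0 ≤ d) hu hpu
    have hu0 : u ≠ 0 := by
      rintro rfl
      omega
    by_cases hu1 : u = 1
    · rw [← hu1]
      exact h1
    · exact absurd (h0 u (by omega) hu) h1
  · obtain ⟨u, hu, hpu⟩ := hF.surj (p 0 - 1) (by omega)
    have h1 := hF.ne_zero hB hu (by omega : 0 ≤ d) (by omega)
    rw [hF.symm] at h1
    have hu0 : u ≠ 0 := by
      rintro rfl
      omega
    by_cases hu1 : u = 1
    · rw [← hu1]
      exact h1
    · exact absurd (h0 u (by omega) hu) h1

theorem r01_ind (hB : Base d α b) (hF : PathF d α b p F)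
    (h0 : ∀ v, 2 ≤ v → v ≤ d → F 0 v = 0) : ∀ u ≤ d,
    (∀ v, u + 2 ≤ v → F u v = 0) ∧ (u < d → F u (u+1) = F 0 1 * b (u+1)) := by
  have hout : ∀ u v, d < v → F u v = 0 := fun u v h => by rw [hF.symm, hF.out v u h]
  intro u
  induction u using Nat.strong_induction_on with
  | _ u ih =>
    intro hu
    rcases u with _ | u
    · refine ⟨fun v hv => ?_, fun _ => ?_⟩
      · by_cases hvd : v ≤ d
        · exact h0 v (by omega) hvd
        · exact hout 0 v (by omega)
      · rw [zero_add, hB.b1, mul_one]
    · have h1 := ih u (by omega) (by omega)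
      have hb := hB.bpos (u+1) (by omega) hu
      have h2 : ∀ v, u + 3 ≤ v + 1 → (b u : ℤ) * F (u-1) v = 0 := by
        intro v hv
        rcases Nat.eq_zero_or_pos u with h | h
        · subst h
          rw [hB.b0, zero_mul]
        · rw [(ih (u-1) (by omega) (by omega)).1 v (by omega), mul_zero]
      refine ⟨fun v hv => ?_, fun hud => ?_⟩
      · by_cases hvd : v ≤ d
        · have h3 := hF.recurk hB u (by omega) v hvd
          rw [h1.1 (v-1) (by omega), h1.1 v (by omega), h1.1 (v+1) (by omega), h2 v (by omega)] at h3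
          have h4 : b (u+1) * F (u+1) v = 0 := by
            rw [h3]
            ring
          rcases mul_eq_zero.1 h4 with h | h
          · omega
          · exact h
        · exact hout _ v (by omega)
      · have h3 := hF.recurk hB u (by omega) (u+1+1) (by omega)
        rw [h1.1 (u+1+1) (by omega), h1.1 (u+1+1+1) (by omega), h2 (u+1+1) (by omega)] at h3
        have h5 : u + 1 + 1 - 1 = u + 1 := by omega
        rw [h5, h1.2 (by omega)] at h3
        have hb0 : b (u+1) ≠ 0 := by omega
        apply mul_left_cancel₀ hb0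
        rw [h3]
        ring

theorem row01 (hB : Base d α b) (hF : PathF d α b p F)
    (h0 : ∀ v, 2 ≤ v → v ≤ d → F 0 v = 0) : (∀ u ≤ d, p u = u) ∨ (∀ u ≤ d, p u = d - u) := by
  have hs := r01_ne hB hF h0
  have hind := r01_ind hB hF h0
  have hm := hF.mono hB d (fun i => i) (fun i hi => hi) (fun i _ j _ h => h) (fun i hi => by
    show F i (i+1) ≠ 0
    rw [(hind i (by omega)).2 hi]
    have hb := hB.bpos (i+1) (by omega) (by omega)
    exact mul_ne_zero hs (by omega))
  have hpd := hF.p_le d le_rfl
  have hp0 := hF.p_le 0 (by omega)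
  rcases hm with hm | hm
  · left
    intro u hu
    have h1 : p u = p 0 + u := hm u hu
    have h2 : p d = p 0 + d := hm d le_rfl
    omega
  · right
    intro u hu
    have h1 : p u + u = p 0 := hm u hu
    have h2 : p d + d = p 0 := hm d le_rfl
    omega

end LS
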