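import Pool.Agent.LS.Core
import Pool.Agent.LS.W0

/-! Part `RV1` of the classification of self-dual Leonard systems with integral normalized
intersection numbers (MP_963a96_al). -/
open Finset
namespace LS

theorem rev_data {d : ℕ} {α b : ℕ → ℤ} {lam : ℕ → ℝ} {S : ℕ → ℕ → ℝ} {N : ℕ → ℕ → ℕ → ℤ}
    {π : ℕ → ℕ} {ε : ℕ → ℤ} {p : ℕ → ℕ} {F : ℕ → ℕ → ℤ}
    (h : Ctx d α b lam S N π ε p F) (hπ : ∀ j ≤ d, π j = d - j) :
    (∀ i ≤ d, α (d - i) = α d - α i) ∧ (∀ i, 1 ≤ i → i ≤ d → b (d + 1 - i) = b i) ∧
    (∀ j ≤ d, lam (d - j) = α d - lam j) := by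
  have hB := h.str.base
  have hW := h.str.weak
  have hP := h.path
  have hd := hB.one_le
  have hp : ∀ u ≤ d, p u = d - u := by
    intro u hu
    have h1 := h.pπ (d - u) (by omega)
    rw [hπ _ (by omega)] at h1
    rwa [show d - (d - u) = u by omega] at h1
  have hdiag : ∀ u ≤ d, F u u = α (d - u) := fun u hu => by rw [hP.diag u hu, hp u hu]
  have hfar : ∀ u ≤ d, ∀ v ≤ d, u + 1 < v → F u v = 0 := by
    intro u hu v hv huv
    rw [hP.symm]
    apply hP.far v hv u hu
    rw [hp v hv, hp u hu]
    omega
  have hfar0 : ∀ u v, u + 1 < v → F u v = 0 := by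
    intro u v huv
    rcases Nat.lt_or_ge d v with hv | hv
    · rw [hP.symm]; exact hP.out v u hv
    · exact hfar u (by omega) v hv huv
  have hedge : ∀ u, u + 1 ≤ d → |F u (u + 1)| = b (d - u) := by
    intro u hu
    rw [hP.symm, hP.edge (u + 1) hu u (by omega) (by rw [hp _ hu, hp u (by omega)]; omega),
      hp u (by omega)]
  set s : ℤ := F 0 1 with hs
  set c : ℤ := α d with hc

  have hoff : ∀ u, u + 1 ≤ d → F u (u + 1) = s * b (u + 1) := by
    intro u
    induction u with
    | zero => intro _; rw [zero_add, hB.b1, mul_one, hs]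
    | succ u ih =>
      intro hu
      have h1 := ih (by omega)
      have h2 := hP.comm u (by omega) (u + 2) (by omega)
      have z1 : F (u - 1) (u + 2) = 0 := hfar0 _ _ (by omega)
      have z2 : F u (u + 2) = 0 := hfar0 _ _ (by omega)
      have z3 : F u (u + 2 + 1) = 0 := hfar0 _ _ (by omega)
      rw [z1, z2, z3, show u + 2 - 1 = u + 1 by omega, h1] at h2
      have h3 : 0 < b (u + 1) := hB.bpos _ (by omega) (by omega)
      have h4 : b (u + 1) * F (u + 1) (u + 2) = b (u + 1) * (s * b (u + 2)) := by linarith
      exact mul_left_cancel₀ h3.ne' h4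
  have hα : ∀ u ≤ d, α (d - u) = c + s * α u := by
    intro u
    induction u with
    | zero => intro _; rw [Nat.sub_zero, hB.α0, mul_zero, add_zero]
    | succ u ih =>
      intro hu
      have h1 := ih (by omega)
      have h2 := hP.comm u (by omega) (u + 1) hu
      have z2 : F u (u + 1 + 1) = 0 := hfar0 _ _ (by omega)
      rw [z2, show u + 1 - 1 = u by omega, hoff u hu, hdiag (u + 1) hu, hdiag u (by omega), h1] at h2
      have z1 : b u * F (u - 1) (u + 1) = 0 := by
        rcases Nat.eq_zero_or_pos u with h0 | h0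
        · rw [h0, hB.b0, zero_mul]
        · rw [hfar0 _ _ (by omega), mul_zero]
      rw [z1] at h2
      have h3 : 0 < b (u + 1) := hB.bpos _ (by omega) (by omega)
      have h4 : b (u + 1) * α (d - (u + 1)) = b (u + 1) * (c + s * α (u + 1)) := by linarith
      exact mul_left_cancel₀ h3.ne' h4
  have hbb : ∀ u, u + 1 ≤ d → |s| * b (u + 1) = b (d - u) := by
    intro u hu
    have h3 : 0 < b (u + 1) := hB.bpos _ (by omega) hu
    rw [← hedge u hu, hoff u hu, abs_mul, abs_of_pos h3]
  have hbd : 0 < b d := hB.bpos d hd le_rfl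
  have hs1 : |s| = 1 := by
    have h1 := hbb (d - 1) (by omega)
    rw [show d - 1 + 1 = d by omega, show d - (d - 1) = 1 by omega, hB.b1] at h1
    have h0 : 0 ≤ |s| := abs_nonneg s
    nlinarith

  have hF : ∀ u ≤ d, ∀ v ≤ d, F u v = (if u = v then c else 0) + s * Te α b u v := by
    have key : ∀ u v, u < v → v ≤ d → F u v = s * Te α b u v := by
      intro u v huv hv
      rcases Nat.lt_or_ge (u + 1) v with h1 | h1
      · rw [hfar0 u v h1]
        unfold Te
        rw [if_neg (by omega), if_neg (by omega), if_neg (by omega), mul_zero]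
      · obtain rfl : v = u + 1 := by omega
        rw [hoff u hv]
        unfold Te
        rw [if_neg (by omega), if_pos rfl]
    intro u hu v hv
    rcases lt_trichotomy u v with h1 | h1 | h1
    · rw [if_neg (by omega), zero_add, key u v h1 hv]
    · subst h1
      rw [if_pos rfl, hdiag u hu, hα u hu]
      unfold Te
      rw [if_pos rfl]
    · rw [if_neg (by omega), zero_add, hP.symm, key v u h1 hu]
      congr 1
      unfold Te
      rcases Nat.lt_or_ge (v + 1) u with h2 | h2
      · rw [if_neg (by omega), if_neg (by omega), if_neg (by omega), if_neg (by omega),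
          if_neg (by omega), if_neg (by omega)]
      · obtain rfl : u = v + 1 := by omega
        rw [if_neg (by omega), if_pos rfl, if_neg (by omega), if_neg (by omega), if_pos rfl]
  have hlam : ∀ l ≤ d, lam (π l) = c + s * lam l := by
    have h1 : ∀ u ≤ d, ∀ v ≤ d,
        ∑ l ∈ range (d+1), S u l * (lam (π l) - c - s * lam l) * S v l = 0 := by
      intro u hu v hv
      have e1 := h.lin u hu v hv
      have e2 := hW.orth u hu v hv
      have e3 := weak_T hB hW u hu v hv
      have e4 : ∑ l ∈ range (d+1), S u l * (lam (π l) - c - s * lam l) * S v l =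
          ∑ l ∈ range (d+1), S u l * lam (π l) * S v l -
          c * ∑ l ∈ range (d+1), S u l * S v l - s * ∑ l ∈ range (d+1), S u l * lam l * S v l := by
        rw [Finset.mul_sum, Finset.mul_sum, ← Finset.sum_sub_distrib, ← Finset.sum_sub_distrib]
        refine Finset.sum_congr rfl fun l _ => ?_
        ring
      rw [e4, ← e1, e2, e3, hF u hu v hv]
      push_cast
      split_ifs <;> ring
    intro l hl
    have h2 := weak_comp hW (fun l => S 0 l * (lam (π l) - c - s * lam l)) (fun j hj => by
      have := h1 0 (by omega) j hj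
      rw [← this]
      refine Finset.sum_congr rfl fun l _ => ?_
      rw [hW.symm l j]) l hl
    have h3 := hW.ne l hl
    have h4 : lam (π l) - c - s * lam l = 0 := by
      rcases mul_eq_zero.mp h2 with h | h
      · exact absurd h h3
      · exact h
    linarith
  have hsm : s = -1 := by
    rcases (abs_eq (zero_le_one)).mp hs1 with h1 | h1
    · exfalso
      have h2 := hα d le_rfl
      rw [Nat.sub_self, hB.α0, h1, one_mul, ← hc] at h2
      have hc0 : c = 0 := by omega
      have h3 := hlam 0 (by omega)
      rw [h1, hc0, hπ 0 (by omega), Nat.sub_zero] at h3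
      push_cast at h3
      have h4 := weak_inj hB hW d le_rfl 0 (by omega) (by linarith)
      omega
    · exact h1
  refine ⟨fun i hi => ?_, fun i h1 h2 => ?_, fun j hj => ?_⟩
  · rw [hα i hi, hsm]; ring
  · have h3 := hbb (i - 1) (by omega)
    rw [hs1, one_mul, show i - 1 + 1 = i by omega, show d - (i - 1) = d + 1 - i by omega] at h3
    exact h3.symm
  · have h3 := hlam j hj
    rw [hπ j hj, hsm] at h3
    rw [h3]
    push_cast
    ring

end LS
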