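import Pool.Agent.LS.Core
import Pool.Agent.LS.W0
import Pool.Agent.LS.W1
import Pool.Agent.LS.AW2

/-! Part `RV2` of the classification of self-dual Leonard systems with integral normalized
intersection numbers (MP_963a96_al). -/
open Finset
namespace LS

theorem rev_centered {d : ℕ} {α b : ℕ → ℤ} {lam : ℕ → ℝ} {S : ℕ → ℕ → ℝ}
    {N : ℕ → ℕ → ℕ → ℤ} (h : Str d α b lam S N) (hd : 3 ≤ d) (hc : 1 ≤ α d)
    (h1 : ∀ i ≤ d, α (d - i) = α d - α i) (h2 : ∀ i, 1 ≤ i → i ≤ d → b (d + 1 - i) = b i)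
    (h3 : ∀ j ≤ d, lam (d - j) = α d - lam j) :
    RevC d (α d) ((α 1 : ℝ) - α d / 2) ((b 2 : ℝ) ^ 2) (fun i => lam i - α d / 2) (om lam) := by
  obtain ⟨γ, ρ, p0, p1, hA⟩ := aw_rel h.base h.weak hd
  set ω := om lam with hω
  have hα0 : (α 0 : ℝ) = 0 := by
    rw [h.base.α0]
    norm_num
  have hb0 : (b 0 : ℝ) = 0 := by
    rw [h.base.b0]
    norm_num
  have hb1 : (b 1 : ℝ) = 1 := by
    rw [h.base.b1]
    norm_num
  have hc1 : (1 : ℝ) ≤ (α d : ℝ) := by exact_mod_cast hc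
  have hα : ∀ i ≤ d, (α (d - i) : ℝ) = (α d : ℝ) - α i := fun i hi => by
    rw [h1 i hi]
    push_cast
    ring
  obtain ⟨s, hs⟩ : ∃ s : ℝ, (α d : ℝ) = 2 * s := ⟨(α d : ℝ) / 2, by ring⟩

  have hγ : γ = (2 - ω) * s := by
    have e1 := hA.w1 1 le_rfl (by omega)
    have e2 := hA.w1 (d - 1) (by omega) (by omega)
    have e3 : d - 1 + 1 = d - 0 := by omega
    have e4 : d - 1 - 1 = d - 2 := by omega
    rw [e3, e4, h3 0 (by omega), h3 2 (by omega), h3 1 (by omega)] at e2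
    simp only [Nat.reduceAdd, Nat.sub_self] at e1
    rw [hs] at e2
    linear_combination (-1 / 2 : ℝ) * e1 + (-1 / 2 : ℝ) * e2
  obtain ⟨R, rfl⟩ : ∃ R : ℝ, ρ = R - (2 - ω) * s ^ 2 := ⟨ρ + (2 - ω) * s ^ 2, by ring⟩
  obtain ⟨q1, rfl⟩ : ∃ q : ℝ, p1 = q - 2 * γ * s := ⟨p1 + 2 * γ * s, by ring⟩
  obtain ⟨q0, rfl⟩ : ∃ q : ℝ, p0 = q - (q1 - 2 * γ * s) * s - γ * s ^ 2 - s * R :=
    ⟨p0 + (q1 - 2 * γ * s) * s + γ * s ^ 2 + s * R, by ring⟩
  subst hγ
  have w2' : (lam 0 - s) ^ 2 - ω * (lam 0 - s) * (lam 1 - s) + (lam 1 - s) ^ 2 = R := by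
    have e1 := hA.w2 0 (by omega)
    simp only [Nat.zero_add] at e1
    linear_combination e1
  have w3' : ∀ i ≤ d, ((α i : ℝ) - s) * ((2 - ω) * (lam i - s) ^ 2 - R) = q0 + q1 * (lam i - s) := by
    intro i hi
    have e1 := hA.w3 i hi
    linear_combination e1
  have hq : q0 = 0 := by
    have e1 := w3' 0 (by omega)
    have e2 := w3' (d - 0) (by omega)
    rw [hα 0 (by omega), h3 0 (by omega), hs] at e2
    rw [hα0] at e1 e2
    linear_combination (-1 / 2 : ℝ) * e1 + (-1 / 2 : ℝ) * e2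
  have w5' : ∀ i ≤ d, (b i : ℝ) ^ 2 * (2 * (lam i - s) - ω * (lam (i-1) - s)) +
      (b (i+1) : ℝ) ^ 2 * (2 * (lam i - s) - ω * (lam (i+1) - s)) + ((α i : ℝ) - s) ^ 2 * (2 - ω) * (lam i - s) -
      R * (lam i - s) = q1 * ((α i : ℝ) - s) + q0 := by
    intro i hi
    have e1 := hA.w5 i hi
    linear_combination e1
  subst hq
  have a0 := w3' 0 (by omega)
  have a1' := w3' 1 (by omega)
  have c0 := w5' 0 (by omega)
  have c1 := w5' 1 (by omega)
  simp only [Nat.zero_add, Nat.zero_sub, Nat.reduceAdd, Nat.sub_self] at c0 c1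
  rw [hα0] at a0 c0
  rw [hb0, hb1] at c0
  rw [hb1] at c1
  have hinj := hA.inj
  have hanti : ∀ i ≤ d, lam (d - i) - s = - (lam i - s) := fun i hi => by
    rw [h3 i hi, hs]
    ring
  have y0ne : lam 0 - s ≠ 0 := by
    intro h0
    have e1 := hanti 0 (by omega)
    rw [Nat.sub_zero] at e1
    have e2 : lam d = lam 0 := by linear_combination e1 - 2 * h0
    have := hinj d le_rfl 0 (by omega) e2
    omega
  have y01 : (lam 0 - s) - (lam 1 - s) ≠ 0 := by
    intro h0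
    have e2 : lam 0 = lam 1 := by linear_combination h0
    have := hinj 0 (by omega) 1 (by omega) e2
    omega
  have y01' : (lam 0 - s) + (lam 1 - s) ≠ 0 := by
    intro h0
    have e1 := hanti 0 (by omega)
    rw [Nat.sub_zero] at e1
    have e2 : lam d = lam 1 := by linear_combination e1 - h0
    have := hinj d le_rfl 1 (by omega) e2
    omega
  have hn : ((lam 0 - s) ^ 2 - s ^ 2) * R = 2 * (lam 0 - s) ^ 2 - ω * (lam 0 - s) * (lam 1 - s) := by
    linear_combination (-(lam 0 - s)) * c0 - s * a0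
  have hRne : R ≠ 0 := by
    intro h0
    rw [h0] at hn w2'
    have e1 : (lam 0 - s) * (2 * (lam 0 - s) - ω * (lam 1 - s)) = 0 := by linear_combination -hn
    rcases mul_eq_zero.1 e1 with e2 | e2
    · exact y0ne e2
    · have e3 : ((lam 0 - s) - (lam 1 - s)) * ((lam 0 - s) + (lam 1 - s)) = 0 := by
        linear_combination (lam 0 - s) * e2 - w2'
      rcases mul_eq_zero.1 e3 with e4 | e4
      · exact y01 e4
      · exact y01' e4
  have hhalf : (α d : ℝ) / 2 = s := by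
    rw [hs]
    ring
  have hα1 : 0 ≤ (α 1 : ℝ) := by exact_mod_cast h.base.αnn 1
  have hα2 : 0 ≤ (α (d - 1) : ℝ) := by exact_mod_cast h.base.αnn (d - 1)
  rw [hα 1 (by omega)] at hα2
  refine ⟨hd, hc1, ?_, ?_, ?_, ?_, ?_, ?_, ?_, ?_⟩
  · rw [abs_le]
    constructor <;> linarith
  · intro i hi j hj hij
    exact hinj i hi j hj (by linarith)
  · intro i hi
    simp only [hhalf]
    exact hanti i hi
  · intro i hi hi'
    simp only [hhalf]
    linear_combination hA.w1 i hi hi'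
  · simp only [hhalf]
    rw [w2']
    exact hRne
  · simp only [hhalf]
    rw [hs]
    have e1 : ((lam 0 - s) - (lam 1 - s)) * (2 * ((α 1 : ℝ) - s) * ((lam 0 - s) + (1 - ω) * (lam 1 - s)) * (lam 0 - s) -
        2 * s * ((1 - ω) * (lam 0 - s) + (lam 1 - s)) * (lam 1 - s)) = 0 := by
      linear_combination (-2 * (lam 0 - s)) * a1' + (2 * (lam 1 - s)) * a0 +
        (2 * ((α 1 : ℝ) - s) * (lam 0 - s) + 2 * s * (lam 1 - s)) * w2'
    rcases mul_eq_zero.1 e1 with e2 | e2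
    · exact absurd e2 y01
    · linear_combination e2
  · simp only [hhalf]
    rw [w2', hs]
    linear_combination hn
  · simp only [hhalf]
    rw [w2', hs]
    linear_combination (lam 0 - s) * c1 - ((α 1 : ℝ) - s) * a0

end LS
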