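import Pool.Agent.LS.Core

/-! Part `RV4` of the classification of self-dual Leonard systems with integral normalized
intersection numbers (MP_963a96_al). -/
open Finset
namespace LS

theorem rv4_step {ω a b c : ℝ} (hω : ω ≤ -2) (h : a = ω * b - c) (h1 : b * c ≤ 0)
    (h2 : c ^ 2 ≤ b ^ 2) : a * b ≤ 0 ∧ b ^ 2 ≤ a ^ 2 := by
  have h3 : 0 ≤ b ^ 2 := sq_nonneg b
  have h4 : -(b * c) ≤ b ^ 2 := by
    nlinarith [sq_nonneg (b + c), sq_nonneg (b - c)]
  have h5 : a * b ≤ -(b ^ 2) := by
    rw [h]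
    nlinarith
  refine ⟨by linarith, ?_⟩

  by_cases hb : b = 0
  · rw [hb]
    nlinarith [sq_nonneg a]
  · have hb2 : 0 < b ^ 2 := by positivity
    have h6 : b ^ 2 * b ^ 2 ≤ a ^ 2 * b ^ 2 := by nlinarith
    exact le_of_mul_le_mul_right h6 hb2

theorem rv4_main {d : ℕ} {ω : ℝ} {y : ℕ → ℝ} (hω : ω ≤ -2)
    (anti : ∀ i ≤ d, y (d - i) = - y i)
    (c1 : ∀ i, 1 ≤ i → i + 1 ≤ d → y (i+1) + y (i-1) = ω * y i) :
    ∀ k i, 1 ≤ i → i + k = (d + 1) / 2 → y (i-1) * y i ≤ 0 ∧ (y i) ^ 2 ≤ (y (i-1)) ^ 2 := by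
  intro k
  induction k with
  | zero =>
    intro i hi hk
    rcases Nat.even_or_odd' d with ⟨m, hm | hm⟩
    · have hi2 : i = m := by omega
      subst hi2
      have h0 := anti i (by omega)
      rw [show d - i = i by omega] at h0
      have h1 : y i = 0 := by linarith
      rw [h1]
      refine ⟨by simp, ?_⟩
      have := sq_nonneg (y (i-1))
      simpa using this
    · have hi2 : i = m + 1 := by omega
      subst hi2
      have h0 := anti m (by omega)
      rw [show d - m = m + 1 by omega] at h0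
      rw [show m + 1 - 1 = m from rfl, h0]
      constructor
      · nlinarith [sq_nonneg (y m)]
      · rw [neg_sq]
  | succ k ih =>
    intro i hi hk
    have h1 := ih (i+1) (by omega) (by omega)
    rw [show i + 1 - 1 = i from rfl] at h1
    have h2 := c1 i hi (by omega)
    exact rv4_step hω (by linarith) h1.1 h1.2

theorem rev_neg {d : ℕ} {c a1 B ω : ℝ} {y : ℕ → ℝ} (h : RevC d c a1 B y ω) (hω : ω ≤ -2) :
    False := by
  have hd := h.three_le
  have hmain := rv4_main hω h.anti h.c1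
  have h1 := hmain ((d+1)/2 - 1) 1 le_rfl (by omega)
  have h2 := hmain ((d+1)/2 - 2) 2 (by omega) (by omega)
  rw [show 1 - 1 = 0 from rfl] at h1
  rw [show 2 - 1 = 1 from rfl] at h2
  have hc := h.c1 1 le_rfl (by omega)
  rw [show 1 + 1 = 2 from rfl, show 1 - 1 = 0 from rfl] at hc
  have hy01 : y 0 ≠ y 1 := fun he => by
    have := h.inj 0 (by omega) 1 (by omega) he
    omega
  have hy0d : y 1 ≠ - y 0 := fun he => by
    have h3 := h.anti 0 (by omega)
    rw [show d - 0 = d from rfl] at h3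
    have := h.inj 1 (by omega) d le_rfl (by rw [h3, he])
    omega
  have hy1 : y 1 ≠ 0 := fun he => by
    have h3 := h.anti 1 (by omega)
    have := h.inj 1 (by omega) (d-1) (by omega) (by rw [h3, he]; simp)
    omega
  obtain ⟨R, hR⟩ : ∃ R, R = - y 0 / y 1 := ⟨_, rfl⟩
  have hy0 : y 0 = - R * y 1 := by
    rw [hR]
    field_simp
  have hy1s : 0 < y 1 ^ 2 := by positivity

  have hR0 : 0 ≤ R := by
    have h3 := h1.1
    rw [hy0] at h3
    by_contra hcon
    push Not at hcon
    nlinarith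
  have hR1 : 1 < R := by
    have h3 := h1.2
    rw [hy0] at h3
    have h4 : 1 ≤ R ^ 2 := by
      by_contra hcon
      push Not at hcon
      nlinarith
    have h5 : 1 ≤ R := by nlinarith
    refine lt_of_le_of_ne h5 fun he => hy0d ?_
    rw [hy0, ← he]
    ring

  have hRw : R ≤ -ω := by
    have h3 : y 2 = (ω + R) * y 1 := by
      rw [hy0] at hc
      linarith
    have h4 := h2.1
    rw [h3] at h4
    by_contra hcon
    push Not at hcon
    nlinarith
  have he1 := h.e1
  rw [hy0] at he1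
  have ha := abs_le.1 h.a1le
  have hc1 := h.cpos

  have h6 : (2 * a1 * R * (1 - ω - R) - c * ((1 - ω) * R - 1)) * y 1 ^ 2 = 0 := by
    linear_combination - he1
  have h7 : 2 * a1 * R * (1 - ω - R) - c * ((1 - ω) * R - 1) = 0 := by
    rcases mul_eq_zero.1 h6 with h8 | h8
    · exact h8
    · exact absurd h8 hy1s.ne'
  have h9 : 0 < R * (1 - ω - R) := mul_pos (by linarith) (by linarith)
  have h10 : 2 * a1 * (R * (1 - ω - R)) ≤ c * (R * (1 - ω - R)) :=
    mul_le_mul_of_nonneg_right (by linarith [ha.2]) h9.le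
  have h11 : c * (R ^ 2 - 1) ≤ 0 := by nlinarith
  have h12 : 0 < R ^ 2 - 1 := by nlinarith
  nlinarith

end LS
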