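import Pool.Agent.LS.Core

/-! Part `RV5` of the classification of self-dual Leonard systems with integral normalized
intersection numbers (MP_963a96_al). -/
open Finset
namespace LS

theorem rv5_step {u v w ω : ℝ} (hω : 3 ≤ ω) (_h1 : 0 ≤ w * v) (h2 : w ^ 2 ≤ v ^ 2)
    (h3 : w + u = ω * v) : 0 ≤ v * u ∧ v ^ 2 ≤ u ^ 2 := by
  have hu : u = ω * v - w := by linarith
  have h4 : w * v ≤ v ^ 2 := by nlinarith [sq_nonneg (v - w)]
  have h5 : (ω - 1) * v ^ 2 ≤ v * u := by
    rw [hu]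
    nlinarith
  have h6 : 2 * v ^ 2 ≤ v * u := by nlinarith [sq_nonneg v]
  refine ⟨by nlinarith [sq_nonneg v], ?_⟩
  nlinarith [sq_nonneg (u - v)]

theorem rv5_claim {d : ℕ} {c a1 B ω : ℝ} {y : ℕ → ℝ} (h : RevC d c a1 B y ω) (hω : 3 ≤ ω)
    (hd : 4 ≤ d) : ∀ k i : ℕ, i + k = d / 2 → 1 ≤ i →
      0 ≤ y i * y (i - 1) ∧ y i ^ 2 ≤ y (i - 1) ^ 2 := by
  intro k
  induction k with
  | zero =>
    intro i hi hi1
    have hi2 : i = d / 2 := by omega
    rcases Nat.even_or_odd d with he | ho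
    · have h1 : d - i = i := by
        obtain ⟨r, hr⟩ := he
        omega
      have h2 := h.anti i (by omega)
      rw [h1] at h2
      have h3 : y i = 0 := by linarith
      rw [h3]
      constructor
      · simp
      · nlinarith [sq_nonneg (y (i - 1))]
    · have h1 : d - i = i + 1 := by
        obtain ⟨r, hr⟩ := ho
        omega
      have h2 := h.anti i (by omega)
      rw [h1] at h2
      have h3 := h.c1 i hi1 (by omega)
      have h4 : y (i - 1) = (ω + 1) * y i := by rw [h2] at h3; linarith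
      rw [h4]
      constructor
      · nlinarith [sq_nonneg (y i)]
      · nlinarith [sq_nonneg (y i), mul_nonneg (by linarith : (0:ℝ) ≤ ω) (sq_nonneg (y i)),
          mul_nonneg (mul_nonneg (by linarith : (0:ℝ) ≤ ω) (by linarith : (0:ℝ) ≤ ω))
            (sq_nonneg (y i))]
  | succ k ih =>
    intro i hi hi1
    have h1 := ih (i + 1) (by omega) (by omega)
    have h2 : i + 1 - 1 = i := by omega
    rw [h2] at h1
    have h3 := h.c1 i hi1 (by omega)
    exact rv5_step hω h1.1 h1.2 h3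

theorem rev_big {d : ℕ} {c a1 B ω : ℝ} {y : ℕ → ℝ} (h : RevC d c a1 B y ω) (hω : 3 ≤ ω)
    (hd : 4 ≤ d) : False := by
  have h2 := rv5_claim h hω hd (d / 2 - 2) 2 (by omega) (by norm_num)
  norm_num at h2
  obtain ⟨h2a, h2b⟩ := h2
  have hy1 : y 1 ≠ 0 := by
    intro h0
    have h3 := h.anti 1 (by omega)
    rw [h0, neg_zero] at h3
    have h4 := h.inj (d - 1) (by omega) 1 (by omega) (by rw [h3, h0])
    omega
  have h3 := h.c1 1 le_rfl (by omega)
  norm_num at h3
  have e1 := h.e1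
  have ha := (abs_le.1 h.a1le).1
  have hc := h.cpos
  obtain ⟨t, ht⟩ : ∃ t, y 2 = t * y 1 := ⟨y 2 / y 1, by field_simp⟩
  have hsq : 0 < y 1 ^ 2 := by positivity
  have ht0 : 0 ≤ t := by
    rw [ht] at h2a
    by_contra hcon
    push Not at hcon
    nlinarith
  have ht1 : t ≤ 1 := by
    rw [ht] at h2b
    by_contra hcon
    push Not at hcon
    have : 1 < t ^ 2 := by nlinarith
    nlinarith
  have hy0 : y 0 = (ω - t) * y 1 := by rw [ht] at h3; linarith
  rw [hy0] at e1
  have e2 : (2 * a1 * (1 - t) * (ω - t)) * y 1 ^ 2 = (c * ((1 - ω) * (ω - t) + 1)) * y 1 ^ 2 := by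
    linarith [e1]
  have e3 := mul_right_cancel₀ hsq.ne' e2
  have h5 : 0 ≤ (1 - t) * (ω - t) := mul_nonneg (by linarith) (by linarith)
  have h6 : -c * ((1 - t) * (ω - t)) ≤ 2 * a1 * ((1 - t) * (ω - t)) :=
    mul_le_mul_of_nonneg_right (by linarith) h5
  have h7 : 0 ≤ c * ((2 - ω - t) * (ω - t) + 1) := by nlinarith
  have h8 : (2 - ω - t) * (ω - t) + 1 < 0 := by nlinarith
  nlinarith

end LS
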