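import Pool.Agent.LS.Core

/-! Part `RV6` of the classification of self-dual Leonard systems with integral normalized
intersection numbers (MP_963a96_al). -/
open Finset
namespace LS

theorem rv6_ap {d : ℕ} {c a1 B : ℝ} {y : ℕ → ℝ} (h : RevC d c a1 B y 2) :
    ∀ i, i ≤ d → y i = y 0 - i * (y 0 - y 1) := by
  have key : ∀ i, i + 1 ≤ d → y i = y 0 - i * (y 0 - y 1) ∧ y (i + 1) = y 0 - (i + 1) * (y 0 - y 1) := by
    intro i
    induction i with
    | zero =>
      intro _
      constructor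
      · push_cast; ring
      · push_cast; ring
    | succ n ih =>
      intro hn
      obtain ⟨h1, h2⟩ := ih (by omega)
      have h3 := h.c1 (n + 1) (by omega) hn
      have e : n + 1 - 1 = n := by omega
      rw [e] at h3
      refine ⟨by push_cast; exact h2, ?_⟩
      push_cast
      linarith
  intro i hi
  rcases Nat.lt_or_ge i d with h1 | h1
  · exact (key i h1).1
  · have h3 := h.three_le
    obtain ⟨j, rfl⟩ : ∃ j, i = j + 1 := ⟨i - 1, by omega⟩
    have h2 := (key j (by omega)).2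
    push_cast
    exact h2

theorem rev_small {d : ℕ} {c a1 B ω : ℝ} {y : ℕ → ℝ} (h : RevC d c a1 B y ω)
    (hω : ω = 0 ∨ ω = -1) : False := by
  have h3 := h.three_le
  have hd := h.anti 0 (by omega)
  rw [Nat.sub_zero] at hd
  rcases hω with rfl | rfl
  · have h1 := h.c1 1 le_rfl (by omega)
    norm_num at h1
    have h2 : y 2 = y d := by rw [hd]; linarith
    have := h.inj 2 (by omega) d le_rfl h2
    omega
  · have h1 := h.c1 1 le_rfl (by omega)
    have h2 := h.c1 2 (by omega) (by omega)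
    norm_num at h1 h2
    have h4 : y 3 = y 0 := by linarith
    have := h.inj 3 (by omega) 0 (by omega) h4
    omega

theorem rev_one {d : ℕ} {c a1 B : ℝ} {y : ℕ → ℝ} (h : RevC d c a1 B y 1)
    (c' a' B' : ℤ) (h1 : c = c') (h2 : a1 + c / 2 = a') (h3 : B = B') : False := by
  have h3' := h.three_le
  have hd := h.anti 0 (by omega)
  rw [Nat.sub_zero] at hd
  have c1 := h.c1 1 le_rfl (by omega)
  have c2 := h.c1 2 (by omega) (by omega)
  norm_num at c1 c2
  have hd3 : d = 3 := by
    have h4 : y 3 = y d := by rw [hd]; linarith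
    exact (h.inj 3 (by omega) d le_rfl h4).symm
  subst hd3
  have ha := h.anti 1 (by omega)
  norm_num at ha
  have hy0 : y 0 = 2 * y 1 := by linarith
  have hy2 : y 2 = -y 1 := ha
  have hy1 : y 1 ≠ 0 := by
    intro h0
    have h4 : y 1 = y 2 := by rw [hy2, h0]; ring
    have := h.inj 1 (by omega) 2 (by omega) h4
    omega
  have hy1s : y 1 ^ 2 ≠ 0 := pow_ne_zero 2 hy1
  have e1 := h.e1
  have n := h.n
  have d1 := h.d1
  rw [hy0] at e1 n d1
  rw [hy2] at d1
  have ea : 8 * a1 = c := by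
    apply mul_right_cancel₀ hy1s
    linear_combination e1
  have en : 4 * y 1 ^ 2 = 2 + c ^ 2 / 4 := by
    apply mul_right_cancel₀ hy1s
    linear_combination (1 / 3) * n
  have ed : 2 * (3 * B + a1 ^ 2 - 3 * y 1 ^ 2) = -(c / 2) * a1 := by
    apply mul_right_cancel₀ hy1s
    linear_combination d1
  have hc : (8 : ℝ) * a' = 5 * c' := by
    rw [← h1, ← h2]
    linarith
  have hc' : 8 * a' = 5 * c' := by exact_mod_cast hc
  obtain ⟨m, hm⟩ : ∃ m, c' = 8 * m := ⟨2 * a' - c' - (0 : ℤ) + (c' - 2 * a') + (c' / 8), by omega⟩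
  have ha1 : a1 = m := by
    have : (c' : ℝ) = 8 * m := by exact_mod_cast hm
    linarith
  have hcm : c = 8 * m := by rw [h1]; exact_mod_cast hm
  have hB : (2 : ℝ) * B' = 1 + 6 * m ^ 2 := by
    rw [← h3]
    rw [hcm, ha1] at ed
    rw [hcm] at en
    linarith
  have hB' : 2 * B' = 1 + 6 * m ^ 2 := by exact_mod_cast hB
  omega

theorem rev_three {c a1 B ω : ℝ} {y : ℕ → ℝ} (h : RevC 3 c a1 B y ω) (hω : 3 ≤ ω)
    (w c' a' B' : ℤ) (h0 : ω = w) (h1 : c = c') (h2 : a1 + c / 2 = a') (h3 : B = B')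
    (hB : 1 ≤ B') : False := by
  have ha := h.anti 1 (by omega)
  norm_num at ha
  have c1 := h.c1 1 le_rfl (by omega)
  norm_num at c1
  have hy2 : y 2 = -y 1 := ha
  have hy0 : y 0 = (ω + 1) * y 1 := by rw [hy2] at c1; linarith
  have hy1 : y 1 ≠ 0 := by
    intro h0
    have h4 : y 1 = y 2 := by rw [hy2, h0]; ring
    have := h.inj 1 (by omega) 2 (by omega) h4
    omega
  have hy1s : y 1 ^ 2 ≠ 0 := pow_ne_zero 2 hy1
  have e1 := h.e1
  have n := h.n
  have d1 := h.d1
  have hcpos := h.cpos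
  have ha1 := (abs_le.1 h.a1le).1
  rw [hy0] at e1
  have ea : 4 * a1 * (ω + 1) = c * (2 - ω ^ 2) := by
    apply mul_right_cancel₀ hy1s
    linear_combination e1
  have hω4 : ω < 4 := by
    by_contra hcon
    push Not at hcon
    have h5 : -(2 * c) * (ω + 1) ≤ 4 * a1 * (ω + 1) :=
      mul_le_mul_of_nonneg_right (by linarith) (by linarith)
    rw [ea] at h5
    have h6 : 0 < c * (ω ^ 2 - 2 * ω - 4) := by
      apply mul_pos (by linarith)
      nlinarith
    nlinarith
  have hw : w = 3 := by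
    have g1 : (3 : ℝ) ≤ w := by rw [← h0]; exact hω
    have g2 : (w : ℝ) < 4 := by rw [← h0]; exact hω4
    have g1' : 3 ≤ w := by exact_mod_cast g1
    have g2' : w < 4 := by exact_mod_cast g2
    omega
  have hω3 : ω = 3 := by rw [h0, hw]; norm_num
  subst hω3
  have hy0' : y 0 = 4 * y 1 := by rw [hy0]; ring
  rw [hy0'] at n d1
  rw [hy2] at d1
  have ea' : 16 * a1 = -7 * c := by linarith
  have en : 16 * y 1 ^ 2 = 4 + c ^ 2 / 4 := by
    apply mul_right_cancel₀ hy1s
    linear_combination (1 / 5) * n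
  have ed : 4 * (-10 + 5 * B - a1 ^ 2 - 5 * y 1 ^ 2) = 21 / 2 * c * a1 := by
    apply mul_right_cancel₀ hy1s
    linear_combination d1
  have hc : (c' : ℝ) = 16 * a' := by
    rw [← h1, ← h2]
    linarith
  have hcm : c = 16 * a' := by rw [h1, hc]
  have ham : a1 = -7 * a' := by linarith
  have hB : (4 : ℝ) * B' = 9 - 180 * a' ^ 2 := by
    rw [← h3]
    rw [hcm, ham] at ed
    rw [hcm] at en
    linarith
  have hB'' : 4 * B' = 9 - 180 * a' ^ 2 := by exact_mod_cast hB
  have ha' : 1 ≤ a' := by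
    by_contra hcon
    push Not at hcon
    have g : a' ≤ 0 := by omega
    have g' : (a' : ℝ) ≤ 0 := by exact_mod_cast g
    linarith
  nlinarith

theorem rev_two {d : ℕ} {c a1 B : ℝ} {y : ℕ → ℝ} (h : RevC d c a1 B y 2)
    (B' : ℤ) (h3 : B = B') : False := by
  have h3' := h.three_le
  have hd := h.anti 0 (by omega)
  rw [Nat.sub_zero] at hd
  have hap := rv6_ap h d le_rfl
  rw [hd] at hap
  have hap2 := rv6_ap h 2 (by omega)
  have hδ : y 0 - y 1 ≠ 0 := by
    intro h0
    have h4 : y 0 = y 1 := by linarith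
    have := h.inj 0 (by omega) 1 (by omega) h4
    omega
  obtain ⟨δ, hδe⟩ : ∃ δ, δ = y 0 - y 1 := ⟨_, rfl⟩
  rw [← hδe] at hδ hap hap2
  have hy1 : y 1 = y 0 - δ := by linarith
  have hy2 : y 2 = y 0 - 2 * δ := by
    rw [hap2]
    push_cast
    ring
  have hd0 : (d : ℝ) ≠ 0 := by
    have : d ≠ 0 := by omega
    exact_mod_cast this
  have hy0 : 2 * y 0 = d * δ := by linarith
  have hy00 : y 0 ≠ 0 := by
    intro h0
    rw [h0, mul_zero] at hy0
    exact (mul_ne_zero hd0 hδ) hy0.symm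
  have e1 := h.e1
  have n := h.n
  have d1 := h.d1
  rw [hy1] at e1 n d1
  rw [hy2] at d1
  have ea : 2 * a1 * y 0 = -c * (y 0 - δ) := by
    apply mul_right_cancel₀ hδ
    linear_combination e1
  have en : y 0 ^ 2 - c ^ 2 / 4 = d := by
    apply mul_right_cancel₀ (pow_ne_zero 2 hδ)
    linear_combination n + δ * hy0
  have ed : y 0 * (-2 + 2 * B - δ * (y 0 - δ)) = c / 2 * δ * a1 := by
    apply mul_right_cancel₀ hδ
    linear_combination d1
  have ek : B' * d = 2 * (d : ℝ) - 2 := by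
    rw [← h3]
    have g : (B * d - (2 * d - 2)) * y 0 ^ 2 = 0 := by
      have g1 : y 0 ^ 2 * (2 * B - 2) = δ * (y 0 - δ) * d := by
        linear_combination y 0 * ed + (c / 4 * δ) * ea + (δ * (y 0 - δ)) * en
      have g2 : δ * (d : ℝ) = 2 * y 0 := by linarith
      have g3 : y 0 ^ 2 * (2 * B - 2) * d = 2 * y 0 * (y 0 * d - 2 * y 0) := by
        rw [g1]
        have : δ * (y 0 - δ) * d * d = (δ * d) * (y 0 * d - δ * d) := by ring
        rw [this, g2]
      linear_combination (1 / 2) * g3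
    have g' := (mul_eq_zero.1 g).resolve_right (pow_ne_zero 2 hy00)
    linarith
  have ek' : B' * d = 2 * (d : ℤ) - 2 := by exact_mod_cast ek
  have h5 : (3 : ℤ) ≤ d := by exact_mod_cast h3'
  rcases le_or_gt B' 1 with g | g
  · nlinarith
  · nlinarith

end LS
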