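import Pool.Agent.LS.Core
import Pool.Agent.LS.W0
import Pool.Agent.LS.W1
import Pool.Agent.LS.GA2
import Pool.Agent.LS.GA3
import Pool.Agent.LS.GA4
import Pool.Agent.LS.GA5
import Pool.Agent.LS.RV1
import Pool.Agent.LS.RV2
import Pool.Agent.LS.RV3
import Pool.Agent.LS.RV4
import Pool.Agent.LS.RV5
import Pool.Agent.LS.RV6

/-! Part `RV7` of the classification of self-dual Leonard systems with integral normalized
intersection numbers (MP_963a96_al). -/
open Finset
namespace LS

theorem reversal_only {d : ℕ} {α b : ℕ → ℤ} {lam : ℕ → ℝ} {S : ℕ → ℕ → ℝ}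
    {N : ℕ → ℕ → ℕ → ℤ} (h : Str d α b lam S N) (hd : 3 ≤ d)
    (hall : ∀ π, IsGal d lam π → (∀ j ≤ d, π j = j) ∨ (∀ j ≤ d, π j = d - j))
    (hex : ∃ π, IsGal d lam π ∧ ∀ j ≤ d, π j = d - j) : α d = 0 := by
  obtain ⟨π, hπ, hrev⟩ := hex
  obtain ⟨ε, hε⟩ := exists_twist h π hπ
  obtain ⟨p, F, hctx⟩ := exists_ctx h hπ hε
  obtain ⟨r1, r2, r3⟩ := rev_data hctx hrev
  by_contra hne
  have hα := h.base.αnn d
  have hc : 1 ≤ α d := by omega
  have hR := rev_centered h hd hc r1 r2 r3
  have hrat : ∃ r : ℚ, om lam = r := by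
    rcases om_dich h hd with hr | ⟨π', hπ', hne'⟩
    · exact hr
    · exfalso
      apply hne'
      rcases hall π' hπ' with h1 | h1
      · simp only [om]
        rw [h1 0 (by omega), h1 1 (by omega), h1 2 (by omega), h1 3 (by omega)]
      · simp only [om]
        rw [h1 0 (by omega), h1 1 (by omega), h1 2 (by omega), h1 3 (by omega),
          r3 0 (by omega), r3 1 (by omega), r3 2 (by omega), r3 3 (by omega)]
        have e1 : (α d : ℝ) - lam 0 - (α d - lam 3) = -(lam 0 - lam 3) := by ring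
        have e2 : (α d : ℝ) - lam 1 - (α d - lam 2) = -(lam 1 - lam 2) := by ring
        rw [e1, e2, neg_div_neg_eq]
  have hint : IsIntegral ℤ (om lam) := by
    have hU := rev_U hR
    have h0 := r3 0 (by omega)
    rw [Nat.sub_zero] at h0
    have hz : IsIntegral ℤ (-(lam 0 * lam d) - 1) :=
      (((lam_integral h 0 (by omega)).mul (lam_integral h d le_rfl)).neg).sub isIntegral_one
    refine Up_integral (m := d - 2) (by omega) hz ?_
    rw [h0]
    linarith
  obtain ⟨r, hr⟩ := hrat
  obtain ⟨n, hn⟩ := int_of_rat (om lam) hint r hr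
  rw [hn] at hR
  have e1 : ((α 1 : ℝ) - α d / 2) + (α d : ℝ) / 2 = (α 1 : ℤ) := by ring
  have e2 : ((b 2 : ℝ)) ^ 2 = ((b 2 ^ 2 : ℤ) : ℝ) := by push_cast; ring
  rcases le_or_gt n (-2) with g | g
  · exact rev_neg hR (by exact_mod_cast g)
  · rcases le_or_gt 3 n with g' | g'
    · rcases Nat.lt_or_ge d 4 with g2 | g2
      · have hd3 : d = 3 := by omega
        subst hd3
        refine rev_three hR (by exact_mod_cast g') n (α 3) (α 1) (b 2 ^ 2) rfl rfl e1 e2 ?_
        have hb := h.base.bpos 2 (by omega) (by omega)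
        nlinarith
      · exact rev_big hR (by exact_mod_cast g') g2
    · have hcase : n = 0 ∨ n = -1 ∨ n = 1 ∨ n = 2 := by omega
      rcases hcase with rfl | rfl | rfl | rfl
      · exact rev_small hR (Or.inl (by norm_num))
      · exact rev_small hR (Or.inr (by norm_num))
      · exact rev_one (by simpa using hR) (α d) (α 1) (b 2 ^ 2) rfl e1 e2
      · exact rev_two (by simpa using hR) (b 2 ^ 2) e2

end LS
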