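import Pool.Agent.LS.Core
import Pool.Agent.LS.PT

/-! Part `U2` of the classification of self-dual Leonard systems with integral normalized
intersection numbers (MP_963a96_al). -/
open Finset
namespace LS

variable {α b : ℕ → ℤ} {p : ℕ → ℕ} {F : ℕ → ℕ → ℤ}

structure u2_Eqs (α b : ℕ → ℤ) (F : ℕ → ℕ → ℤ) : Prop where
  b1 : b 1 = 1
  b2 : 1 ≤ b 2
  b3 : 1 ≤ b 3
  b4 : 1 ≤ b 4
  a0 : α 0 = 0
  a1 : 0 ≤ α 1
  a2 : 0 ≤ α 2
  a3 : 0 ≤ α 3
  a4 : 0 ≤ α 4
  r11 : F 1 1 = F 0 0 + α 1 * F 0 1 + b 2 * F 0 2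
  r12 : F 1 2 = b 2 * F 0 1 + α 2 * F 0 2 + b 3 * F 0 3
  r13 : F 1 3 = b 3 * F 0 2 + α 3 * F 0 3 + b 4 * F 0 4
  r14 : F 1 4 = b 4 * F 0 3 + α 4 * F 0 4
  r22 : b 2 * F 2 2 = b 2 * F 1 1 + (α 2 - α 1) * F 1 2 + b 3 * F 1 3 - F 0 2
  r23 : b 2 * F 2 3 = b 3 * F 1 2 + (α 3 - α 1) * F 1 3 + b 4 * F 1 4 - F 0 3
  r24 : b 2 * F 2 4 = b 4 * F 1 3 + (α 4 - α 1) * F 1 4 - F 0 4
  r33 : b 3 * F 3 3 = b 3 * F 2 2 + (α 3 - α 2) * F 2 3 + b 4 * F 2 4 - b 2 * F 1 3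
  r34 : b 3 * F 3 4 = b 4 * F 2 3 + (α 4 - α 2) * F 2 4 - b 2 * F 1 4
  r44 : b 4 * F 4 4 = b 4 * F 3 3 + (α 4 - α 3) * F 3 4 - b 3 * F 2 4
  s10 : F 1 0 = F 0 1
  s20 : F 2 0 = F 0 2
  s30 : F 3 0 = F 0 3
  s40 : F 4 0 = F 0 4
  s21 : F 2 1 = F 1 2
  s31 : F 3 1 = F 1 3
  s41 : F 4 1 = F 1 4
  s32 : F 3 2 = F 2 3
  s42 : F 4 2 = F 2 4
  s43 : F 4 3 = F 3 4

theorem u2_eqs (hB : Base 4 α b) (hF : PathF 4 α b p F) : u2_Eqs α b F := by
  have hb5 : b 5 = 0 := hB.bout 5 (by norm_num)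
  have hb1 := hB.b1
  have s10 := hF.symm 1 0
  have s20 := hF.symm 2 0
  have s30 := hF.symm 3 0
  have s40 := hF.symm 4 0
  have s21 := hF.symm 2 1
  have s31 := hF.symm 3 1
  have s41 := hF.symm 4 1
  have s32 := hF.symm 3 2
  have s42 := hF.symm 4 2
  have s43 := hF.symm 4 3
  have q11 := hF.recur0 hB 1 (by norm_num)
  have q12 := hF.recur0 hB 2 (by norm_num)
  have q13 := hF.recur0 hB 3 (by norm_num)
  have q14 := hF.recur0 hB 4 (by norm_num)
  have q22 := hF.recur1 hB 2 (by norm_num)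
  have q23 := hF.recur1 hB 3 (by norm_num)
  have q24 := hF.recur1 hB 4 (by norm_num)
  have q33 := hF.recurk hB 2 (by norm_num) 3 (by norm_num)
  have q34 := hF.recurk hB 2 (by norm_num) 4 (by norm_num)
  have q44 := hF.recurk hB 3 (by norm_num) 4 (by norm_num)
  norm_num [hb5, hb1] at q11 q12 q13 q14 q22 q23 q24 q33 q34 q44
  refine ⟨hb1, hB.bpos 2 (by norm_num) (by norm_num), hB.bpos 3 (by norm_num) (by norm_num),
    hB.bpos 4 (by norm_num) (by norm_num), hB.α0, hB.αnn 1, hB.αnn 2, hB.αnn 3, hB.αnn 4,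
    ?_, ?_, ?_, ?_, ?_, ?_, ?_, ?_, ?_, ?_, s10, s20, s30, s40, s21, s31, s41, s32, s42, s43⟩
  · linarith
  · linarith
  · linarith
  · linarith
  · rw [q22]
  · rw [q23]
  · rw [q24]
  · linarith
  · linarith
  · linarith

theorem u2_pos (hF : PathF 4 α b p F) :
    (p 0 ≤ 4 ∧ p 1 ≤ 4 ∧ p 2 ≤ 4 ∧ p 3 ≤ 4 ∧ p 4 ≤ 4) ∧
    (p 0 ≠ p 1 ∧ p 0 ≠ p 2 ∧ p 0 ≠ p 3 ∧ p 0 ≠ p 4 ∧ p 1 ≠ p 2 ∧ p 1 ≠ p 3 ∧ p 1 ≠ p 4 ∧
      p 2 ≠ p 3 ∧ p 2 ≠ p 4 ∧ p 3 ≠ p 4) := by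
  have hle := hF.p_le
  have hi : ∀ u ≤ 4, ∀ v ≤ 4, u ≠ v → p u ≠ p v := fun u hu v hv h e => h (hF.p_inj u hu v hv e)
  refine ⟨⟨hle 0 (by norm_num), hle 1 (by norm_num), hle 2 (by norm_num), hle 3 (by norm_num),
    hle 4 (by norm_num)⟩, ?_⟩
  refine ⟨?_, ?_, ?_, ?_, ?_, ?_, ?_, ?_, ?_, ?_⟩ <;>
    exact hi _ (by norm_num) _ (by norm_num) (by norm_num)

def u2_A (x y : ℕ) : Prop := y = x + 1 ∨ x = y + 1

theorem u2_A.symm {x y : ℕ} (h : u2_A x y) : u2_A y x := Or.symm h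

theorem u2_adj (hB : Base 4 α b) (hF : PathF 4 α b p F) {u v : ℕ} (hu : u ≤ 4) (hv : v ≤ 4)
    (huv : u ≠ v) (h : F u v ≠ 0) : u2_A (p u) (p v) :=
  (hF.adj hB hu hv huv h).imp And.left And.left

theorem u2_c3 {x y z : ℕ} (h1 : u2_A x y) (h2 : u2_A y z) (h3 : u2_A z x) : False := by
  unfold u2_A at *; omega

theorem u2_c4 {x y z w : ℕ} (h1 : u2_A x y) (h2 : u2_A y z) (h3 : u2_A z w) (h4 : u2_A w x)
    (d1 : x ≠ z) (d2 : y ≠ w) : False := by
  unfold u2_A at *; omega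

theorem u2_c5 {x y z w t : ℕ} (h1 : u2_A x y) (h2 : u2_A y z) (h3 : u2_A z w) (h4 : u2_A w t)
    (h5 : u2_A t x) : False := by
  unfold u2_A at *; omega

theorem u2_chain {x0 x1 x2 x3 x4 : ℕ} (l0 : x0 ≤ 4) (l4 : x4 ≤ 4)
    (h1 : u2_A x0 x1) (h2 : u2_A x1 x2) (h3 : u2_A x2 x3) (h4 : u2_A x3 x4)
    (d02 : x0 ≠ x2) (d13 : x1 ≠ x3) (d24 : x2 ≠ x4) :
    (x0 = 0 ∧ x1 = 1 ∧ x2 = 2 ∧ x3 = 3 ∧ x4 = 4) ∨
      (x4 = 0 ∧ x3 = 1 ∧ x2 = 2 ∧ x1 = 3 ∧ x0 = 4) := by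
  unfold u2_A at *; omega

theorem u2_E (hF : PathF 4 α b p F) {u v k : ℕ} (hu : u ≤ 4) (hv : v ≤ 4) (h1 : p u = k)
    (h2 : p v = k + 1) : |F u v| = b (k+1) := by
  have := hF.edge u hu v hv (by rw [h1, h2])
  rwa [h2] at this

theorem u2_E' (hF : PathF 4 α b p F) {u v k : ℕ} (hu : u ≤ 4) (hv : v ≤ 4) (h1 : p v = k)
    (h2 : p u = k + 1) : |F u v| = b (k+1) := by
  rw [hF.symm]; exact u2_E hF hv hu h1 h2

theorem u2_D (hF : PathF 4 α b p F) {u k : ℕ} (hu : u ≤ 4) (h1 : p u = k) : F u u = α k := by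
  rw [hF.diag u hu, h1]

theorem u2_one {x y : ℤ} (hx : 1 ≤ x) (h : x * y = 1) : x = 1 ∧ y = 1 := by
  have := Int.eq_one_or_neg_one_of_mul_eq_one h
  have hx1 : x = 1 := by omega
  exact ⟨hx1, by rw [hx1] at h; linarith⟩

theorem u2_mul {x y : ℤ} (hx : 1 ≤ x) (h : x * y = 0) : y = 0 :=
  (mul_eq_zero.mp h).resolve_left (by omega)

theorem u2_abs {x y : ℤ} (hx : 1 ≤ x) : |x * y| = x * |y| := by
  rw [abs_mul, abs_of_pos (by omega)]

theorem u2_sq1 {x : ℤ} (hx : 1 ≤ x) : 0 ≤ x ^ 2 - 1 := by nlinarith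

theorem u2_sqeq {x y : ℤ} (hx : 1 ≤ x) (hy : 1 ≤ y) (h : x * x = y * y) : x = y := by
  rcases mul_self_eq_mul_self_iff.mp h with h | h
  · exact h
  · omega

theorem U2 (hB : Base 4 α b) (hF : PathF 4 α b p F) (h1 : F 0 1 = 0)
    (h2 : F 0 2 = 0) (h3 : F 0 3 ≠ 0) (h4 : F 0 4 = 0) :
    α 3 = 0 ∧ α 4 = α 1 ∧ ((p 0 = 0 ∧ p 3 = 1 ∧ p 2 = 2 ∧ p 1 = 3 ∧ p 4 = 4) ∨
      (p 4 = 0 ∧ p 1 = 1 ∧ p 2 = 2 ∧ p 3 = 3 ∧ p 0 = 4)) := by
  obtain ⟨b1, b2, b3, b4, a0, a1, a2, a3, a4, r11, r12, r13, r14, r22, r23, r24, r33, r34, r44,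
    s10, s20, s30, s40, s21, s31, s41, s32, s42, s43⟩ := u2_eqs hB hF
  obtain ⟨⟨l0, l1, l2, l3, l4⟩, ⟨d01, d02, d03, d04, d12, d13, d14, d23, d24, d34⟩⟩ := u2_pos hF
  rw [h1, h2] at r12
  rw [h2, h4] at r13
  rw [h4] at r14 r24
  have f12 : F 1 2 = b 3 * F 0 3 := by rw [r12]; ring
  have f14 : F 1 4 = b 4 * F 0 3 := by rw [r14]; ring
  have n12 : F 1 2 ≠ 0 := by
    rw [f12]; exact mul_ne_zero (by linarith) h3
  have n14 : F 1 4 ≠ 0 := by
    rw [f14]; exact mul_ne_zero (by linarith) h3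
  have z13 : F 1 3 = 0 := hF.deg hB (u := 1) (v := 2) (w := 4) (t := 3) (by norm_num) (by norm_num)
    (by norm_num) (by norm_num) (by norm_num) (by norm_num) (by norm_num) (by norm_num)
    (by norm_num) (by norm_num) n12 n14
  have hα3 : α 3 = 0 := by
    have : α 3 * F 0 3 = 0 := by rw [← z13, r13]; ring
    exact (mul_eq_zero.mp this).resolve_right h3
  have n23 : F 2 3 ≠ 0 := by
    intro h0
    have e : (b 3 ^ 2 + b 4 ^ 2 - 1) * F 0 3 = 0 := by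
      rw [h0, z13, f12, f14] at r23
      linear_combination -r23
    rcases mul_eq_zero.mp e with e | e
    · have := u2_sq1 b3
      have := u2_sq1 b4
      linarith
    · exact h3 e
  have z24 : F 2 4 = 0 := hF.deg hB (u := 2) (v := 1) (w := 3) (t := 4) (by norm_num) (by norm_num)
    (by norm_num) (by norm_num) (by norm_num) (by norm_num) (by norm_num) (by norm_num)
    (by norm_num) (by norm_num) (by rw [s21]; exact n12) n23
  have hα4 : α 4 = α 1 := by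
    have : (α 4 - α 1) * F 1 4 = 0 := by rw [z24, z13] at r24; linear_combination -r24
    linarith [(mul_eq_zero.mp this).resolve_right n14]
  refine ⟨hα3, hα4, ?_⟩
  have e03 := u2_adj hB hF (u := 0) (v := 3) (by norm_num) (by norm_num) (by norm_num) h3
  have e12 := u2_adj hB hF (u := 1) (v := 2) (by norm_num) (by norm_num) (by norm_num) n12
  have e14 := u2_adj hB hF (u := 1) (v := 4) (by norm_num) (by norm_num) (by norm_num) n14
  have e23 := u2_adj hB hF (u := 2) (v := 3) (by norm_num) (by norm_num) (by norm_num) n23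
  exact u2_chain l0 l4 e03 e23.symm e12.symm e14 d02 d13.symm d24

theorem U3 (hB : Base 4 α b) (hF : PathF 4 α b p F) (h1 : F 0 1 ≠ 0)
    (h2 : F 0 2 = 0) (h3 : F 0 3 ≠ 0) (h4 : F 0 4 = 0) : Three 4 α := by
  obtain ⟨b1, b2, b3, b4, a0, a1, a2, a3, a4, r11, r12, r13, r14, r22, r23, r24, r33, r34, r44,
    s10, s20, s30, s40, s21, s31, s41, s32, s42, s43⟩ := u2_eqs hB hF
  obtain ⟨⟨l0, l1, l2, l3, l4⟩, ⟨d01, d02, d03, d04, d12, d13, d14, d23, d24, d34⟩⟩ := u2_pos hF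
  rw [h2] at r11 r12 r13 r22
  rw [h4] at r13 r14 r24
  have f14' : F 1 4 = b 4 * F 0 3 := by rw [r14]; ring
  have n14 : F 1 4 ≠ 0 := by
    rw [f14']; exact mul_ne_zero (by linarith) h3
  have z12 : F 1 2 = 0 := hF.deg hB (u := 1) (v := 0) (w := 4) (t := 2) (by norm_num) (by norm_num)
    (by norm_num) (by norm_num) (by norm_num) (by norm_num) (by norm_num) (by norm_num)
    (by norm_num) (by norm_num) (by rw [s10]; exact h1) n14
  have z13 : F 1 3 = 0 := hF.deg hB (u := 1) (v := 0) (w := 4) (t := 3) (by norm_num) (by norm_num)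
    (by norm_num) (by norm_num) (by norm_num) (by norm_num) (by norm_num) (by norm_num)
    (by norm_num) (by norm_num) (by rw [s10]; exact h1) n14
  have hα3 : α 3 = 0 := by
    have : α 3 * F 0 3 = 0 := by rw [← z13, r13]; ring
    exact (mul_eq_zero.mp this).resolve_right h3
  have e03 := u2_adj hB hF (u := 0) (v := 3) (by norm_num) (by norm_num) (by norm_num) h3
  have e01 := u2_adj hB hF (u := 0) (v := 1) (by norm_num) (by norm_num) (by norm_num) h1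
  have e14 := u2_adj hB hF (u := 1) (v := 4) (by norm_num) (by norm_num) (by norm_num) n14
  have z34 : F 3 4 = 0 := by
    by_contra n34
    have e34 := u2_adj hB hF (u := 3) (v := 4) (by norm_num) (by norm_num) (by norm_num) n34
    exact u2_c4 e03 e34 e14.symm e01.symm d04 d13.symm
  rw [z12, z13] at r22 r23
  rw [z12] at r12
  rw [z34] at r34 r44
  rw [z13] at r24 r33
  rw [hα3] at r23 r33 r44
  have f22 : F 2 2 = F 1 1 := by
    have : b 2 * (F 2 2 - F 1 1) = 0 := by linear_combination r22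
    linarith [u2_mul b2 this]
  have n24 : F 2 4 ≠ 0 := by
    intro z24
    rw [z24] at r34 r24
    have e1 : b 4 * (F 2 3 - b 2 * F 0 3) = 0 := by rw [f14'] at r34; linear_combination -r34
    have e2 : F 2 3 = b 2 * F 0 3 := by linarith [u2_mul b4 e1]
    have e3 : (b 4 ^ 2 - b 2 ^ 2 - 1) * F 0 3 = 0 := by
      rw [e2, f14'] at r23; linear_combination -r23
    rcases mul_eq_zero.mp e3 with e | e
    · exact sq_ne (b 4) (b 2) b4 b2 (by linarith)
    · exact h3 e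
  have e24 := u2_adj hB hF (u := 2) (v := 4) (by norm_num) (by norm_num) (by norm_num) n24
  have z23 : F 2 3 = 0 := by
    by_contra n23
    have e23 := u2_adj hB hF (u := 2) (v := 3) (by norm_num) (by norm_num) (by norm_num) n23
    exact u2_c5 e01 e14 e24.symm e23 e03.symm
  rw [z23] at r23 r34
  have hb4 : b 4 = 1 := by
    have e : (b 4 * b 4 - 1 * 1) * F 0 3 = 0 := by rw [f14'] at r23; linear_combination -r23
    rcases mul_eq_zero.mp e with e | e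
    · exact u2_sqeq b4 le_rfl (by linarith)
    · exact absurd e h3
  have hprod : (α 4 - α 2) * (α 4 - α 1) = b 2 * b 2 := by
    have : ((α 4 - α 2) * (α 4 - α 1) - b 2 * b 2) * F 1 4 = 0 := by
      linear_combination -b 2 * r34 - (α 4 - α 2) * r24
    rcases mul_eq_zero.mp this with e | e
    · linarith
    · exact absurd e n14
  have f14 : F 1 4 = F 0 3 := by rw [r14, hb4]; ring
  have key : b 2 = 1 → α 1 = α 2 := by
    intro hb2
    rw [hb2] at hprod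
    rcases Int.eq_one_or_neg_one_of_mul_eq_one' (by simpa using hprod) with ⟨x, y⟩ | ⟨x, y⟩ <;>
      linarith
  rcases u2_chain l3 l2 e03.symm e01 e14 e24.symm d13.symm d04 d12 with
    ⟨p3, p0, p1, p4, p2⟩ | ⟨p2, p4, p1, p0, p3⟩
  · have f03 := u2_E' hF (u := 0) (v := 3) (by norm_num) (by norm_num) p3 p0
    have f01 := u2_E hF (u := 0) (v := 1) (by norm_num) (by norm_num) p0 p1
    have g14 := u2_E hF (u := 1) (v := 4) (by norm_num) (by norm_num) p1 p4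
    norm_num [b1] at f03 f01 g14
    have g : |b 2 * F 0 1| = |b 3 * F 0 3| := by
      have : b 2 * F 0 1 = - (b 3 * F 0 3) := by linarith
      rw [this, abs_neg]
    rw [u2_abs b2, u2_abs b3, f01, f03] at g
    rw [f14, f03] at g14
    have hb2 : b 2 = 1 := u2_sqeq b2 le_rfl (by linarith)
    have ha := key hb2
    have k00 := u2_D hF (u := 0) (by norm_num) p0
    have k11 := u2_D hF (u := 1) (by norm_num) p1
    have : α 1 * F 0 1 = 0 := by rw [k00, k11] at r11; linarith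
    have ha1 : α 1 = 0 := (mul_eq_zero.mp this).resolve_right h1
    exact three_of α (i := 0) (j := 1) (k := 2) (by norm_num) (by norm_num) (by norm_num)
      (by norm_num) (by norm_num) (by norm_num) (by linarith) (by linarith)
  · have f03 := u2_E hF (u := 0) (v := 3) (by norm_num) (by norm_num) p0 p3
    have g14 := u2_E' hF (u := 1) (v := 4) (by norm_num) (by norm_num) p4 p1
    norm_num [b1] at f03 g14
    rw [f14, f03, hb4] at g14
    have ha := key g14.symm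
    have k22 := u2_D hF (u := 2) (by norm_num) p2
    have k11 := u2_D hF (u := 1) (by norm_num) p1
    exact three_of α (i := 0) (j := 1) (k := 2) (by norm_num) (by norm_num) (by norm_num)
      (by norm_num) (by norm_num) (by norm_num) (by linarith) (by linarith)

end LS
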