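import Pool.Agent.LS.Core
import Pool.Agent.LS.PT

/-! Part `U4` of the classification of self-dual Leonard systems with integral normalized
intersection numbers (MP_963a96_al). -/
open Finset
namespace LS

variable {α b : ℕ → ℤ} {p : ℕ → ℕ} {F : ℕ → ℕ → ℤ}

theorem u4_chain (hB : Base 4 α b) (hF : PathF 4 α b p F) (v : ℕ → ℕ)
    (hv : ∀ i ≤ 4, v i ≤ 4) (hinj : ∀ i ≤ 4, ∀ j ≤ 4, v i = v j → i = j)
    (hadj : ∀ i < 4, F (v i) (v (i+1)) ≠ 0) :
    (p (v 0) = 0 ∧ p (v 1) = 1 ∧ p (v 2) = 2 ∧ p (v 3) = 3 ∧ p (v 4) = 4) ∨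
    (p (v 4) = 0 ∧ p (v 3) = 1 ∧ p (v 2) = 2 ∧ p (v 1) = 3 ∧ p (v 0) = 4) := by
  have h0 := hF.p_le (v 0) (hv 0 (by norm_num))
  have h4 := hF.p_le (v 4) (hv 4 (by norm_num))
  rcases PathF.mono hB hF 4 v hv hinj hadj with h | h
  · left
    have e1 := h 1 (by norm_num)
    have e2 := h 2 (by norm_num)
    have e3 := h 3 (by norm_num)
    have e4 := h 4 (by norm_num)
    omega
  · right
    have e1 := h 1 (by norm_num)
    have e2 := h 2 (by norm_num)
    have e3 := h 3 (by norm_num)
    have e4 := h 4 (by norm_num)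
    omega

theorem u4_far (hF : PathF 4 α b p F) {u v : ℕ} (hu : u ≤ 4) (hv : v ≤ 4)
    (h : p u + 1 < p v ∨ p v + 1 < p u) : F u v = 0 := by
  rcases h with h | h
  · exact hF.far u hu v hv h
  · rw [hF.symm]
    exact hF.far v hv u hu h

theorem u4_rows (hB : Base 4 α b) (hF : PathF 4 α b p F) (h1 : F 0 1 = 0) (h4 : F 0 4 = 0)
    (h23 : F 2 3 = 0) :
    F 1 1 = F 0 0 + b 2 * F 0 2 ∧ F 1 2 = α 2 * F 0 2 + b 3 * F 0 3 ∧
    F 1 3 = b 3 * F 0 2 + α 3 * F 0 3 ∧ F 1 4 = b 4 * F 0 3 ∧
    b 2 * F 2 2 = b 2 * F 1 1 + (α 2 - α 1) * F 1 2 + b 3 * F 1 3 - F 0 2 ∧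
    0 = b 3 * F 1 2 + (α 3 - α 1) * F 1 3 + b 4 * F 1 4 - F 0 3 ∧
    b 2 * F 2 4 = b 4 * F 1 3 + (α 4 - α 1) * F 1 4 ∧
    b 3 * F 3 4 = (α 4 - α 2) * F 2 4 - b 2 * F 1 4 := by
  have h5 : b 5 = 0 := hB.bout 5 (by norm_num)
  have e1 := hF.recur0 hB 1 (by norm_num)
  have e2 := hF.recur0 hB 2 (by norm_num)
  have e3 := hF.recur0 hB 3 (by norm_num)
  have e4 := hF.recur0 hB 4 (by norm_num)
  have f2 := hF.recur1 hB 2 (by norm_num)
  have f3 := hF.recur1 hB 3 (by norm_num)
  have f4 := hF.recur1 hB 4 (by norm_num)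
  have g4 := hF.recurk hB 2 (by norm_num) 4 (by norm_num)
  norm_num [h5, hB.b1, h1, h4, h23] at e1 e2 e3 e4 f2 f3 f4 g4
  refine ⟨e1, e2, e3, e4, f2, ?_, f4, g4⟩
  linarith

theorem U4 (hB : Base 4 α b) (hF : PathF 4 α b p F) (h1 : F 0 1 = 0)
    (h2 : F 0 2 ≠ 0) (h3 : F 0 3 ≠ 0) (h4 : F 0 4 = 0) : Three 4 α ∨ Pers 4 α b := by
  have h23 : F 2 3 = 0 := by
    by_contra hc
    have := PathF.tri hB hF (u := 2) (v := 0) (w := 3) (by norm_num) (by norm_num) (by norm_num)
      (by norm_num) (by norm_num) (by norm_num) (by rw [hF.symm]; exact h2) h3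
    exact hc this
  obtain ⟨e1, e2, e3, e4, f2, f3, f4, g4⟩ := u4_rows hB hF h1 h4 h23
  have hb2 := hB.bpos 2 (by norm_num) (by norm_num)
  have hb3 := hB.bpos 3 (by norm_num) (by norm_num)
  have hb4 := hB.bpos 4 (by norm_num) (by norm_num)
  have h14 : F 1 4 ≠ 0 := by
    rw [e4]
    exact mul_ne_zero (by omega) h3
  have d0 := hF.diag 0 (by norm_num)
  have d1 := hF.diag 1 (by norm_num)
  have d2 := hF.diag 2 (by norm_num)
  have d3 := hF.diag 3 (by norm_num)
  have d4 := hF.diag 4 (by norm_num)
  have a1 := hB.αnn 1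
  have a2 := hB.αnn 2
  have a3 := hB.αnn 3
  have a4 := hB.αnn 4
  have key : F 1 2 = 0 → F 1 3 = 0 → b 4 = 1 ∧ F 1 4 = F 0 3 ∧ α 2 * F 0 2 + b 3 * F 0 3 = 0 ∧
      b 3 * F 0 2 + α 3 * F 0 3 = 0 ∧ b 2 * F 2 2 = b 2 * F 1 1 - F 0 2 ∧
      b 2 * F 2 4 = (α 4 - α 1) * F 0 3 ∧ b 3 * F 3 4 = (α 4 - α 2) * F 2 4 - b 2 * F 0 3 := by
    intro h12 h13
    rw [h12, h13] at f2 f3
    rw [h12] at e2
    rw [h13] at e3 f4
    have h5 : (b 4 * b 4 - 1) * F 0 3 = 0 := by
      rw [e4] at f3
      linarith
    have h6 : b 4 * b 4 = 1 := by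
      rcases mul_eq_zero.1 h5 with h | h
      · linarith
      · exact absurd h h3
    have h7 : b 4 = 1 := by nlinarith
    have h8 : F 1 4 = F 0 3 := by rw [e4, h7, one_mul]
    rw [h8] at f4 g4
    exact ⟨h7, h8, e2.symm, e3.symm, by linarith, by linarith, g4⟩
  by_cases h24 : F 2 4 = 0
  ·
    have h34 : F 3 4 ≠ 0 := by
      intro h34
      rw [h34, h24] at g4
      have : b 2 * F 1 4 = 0 := by linarith
      rcases mul_eq_zero.1 this with h | h
      · omega
      · exact h14 h
    have hc := u4_chain hB hF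
      (fun i => if i = 0 then 2 else if i = 1 then 0 else if i = 2 then 3 else if i = 3 then 4 else 1)
      (by intro i hi; interval_cases i <;> norm_num)
      (by intro i hi j hj; interval_cases i <;> interval_cases j <;> norm_num)
      (by
        intro i hi
        interval_cases i <;> norm_num
        · rw [hF.symm]; exact h2
        · exact h3
        · exact h34
        · rw [hF.symm]; exact h14)
    norm_num at hc
    have h12 : F 1 2 = 0 := u4_far hF (by norm_num) (by norm_num) (by omega)
    have h13 : F 1 3 = 0 := u4_far hF (by norm_num) (by norm_num) (by omega)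
    obtain ⟨k1, k2, k3, k4, k5, k6, k7⟩ := key h12 h13
    have h41 : α 4 = α 1 := by
      rw [h24, mul_zero] at k6
      rcases mul_eq_zero.1 k6.symm with h | h
      · linarith
      · exact absurd h h3
    rcases hc with ⟨q0, q1, q2, q3, q4⟩ | ⟨q0, q1, q2, q3, q4⟩
    · exfalso
      rw [q4] at d1
      rw [q1] at d0
      rw [d0, d1] at e1
      have : b 2 * F 0 2 = 0 := by linarith
      rcases mul_eq_zero.1 this with h | h
      · omega
      · exact h2 h
    · rw [q0, hB.α0] at d1
      rw [q3] at d0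
      rw [q4] at d2
      have r14 := hF.edge 1 (by norm_num) 4 (by norm_num) (by rw [q0, q1])
      have r43 := hF.edge 4 (by norm_num) 3 (by norm_num) (by rw [q1, q2])
      have r02 := hF.edge 0 (by norm_num) 2 (by norm_num) (by rw [q3, q4])
      rw [q1, hB.b1, k2] at r14
      rw [q2, hF.symm] at r43
      rw [q4, k1] at r02
      rw [d1, d0] at e1

      have hs' : F 0 2 = -1 := by
        rcases abs_eq (by norm_num : (0:ℤ) ≤ 1) |>.1 r02 with h | h
        · rw [h] at e1
          omega
        · exact h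
      have hb3' : b 3 = 1 := by
        rw [h24, mul_zero, zero_sub] at k7
        have h9 : b 3 * b 2 = b 2 := by
          have := congrArg abs k7
          rw [abs_mul, abs_neg, abs_mul, r43, r14, abs_of_nonneg (by omega : (0:ℤ) ≤ b 3),
            abs_of_nonneg (by omega : (0:ℤ) ≤ b 2)] at this
          linarith
        have h10 : b 2 * (b 3 - 1) = 0 := by linarith
        rcases mul_eq_zero.1 h10 with h | h
        · omega
        · linarith
      rw [hb3', hs'] at k3 k4
      rw [hs', d1] at k5
      rw [hs'] at e1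
      have hs : F 0 3 = 1 := by
        rcases abs_eq (by norm_num : (0:ℤ) ≤ 1) |>.1 r14 with h | h
        · exact h
        · rw [h] at k3
          omega
      rw [hs] at k3 k4
      have hα2 : α 2 = 1 := by linarith
      have hα3 : α 3 = 1 := by linarith
      have hb2' : b 2 = 1 := by linarith
      rw [hb2', d2] at k5
      left
      exact ⟨2, 3, 4, by norm_num, by norm_num, by norm_num, by linarith, by linarith⟩
  ·
    have h34 : F 3 4 = 0 := by
      rw [hF.symm]
      exact PathF.deg hB hF (u := 4) (v := 1) (w := 2) (t := 3) (by norm_num) (by norm_num)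
        (by norm_num) (by norm_num) (by norm_num) (by norm_num) (by norm_num) (by norm_num)
        (by norm_num) (by norm_num) (by rw [hF.symm]; exact h14) (by rw [hF.symm]; exact h24)
    have hc := u4_chain hB hF
      (fun i => if i = 0 then 3 else if i = 1 then 0 else if i = 2 then 2 else if i = 3 then 4 else 1)
      (by intro i hi; interval_cases i <;> norm_num)
      (by intro i hi j hj; interval_cases i <;> interval_cases j <;> norm_num)
      (by
        intro i hi
        interval_cases i <;> norm_num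
        · rw [hF.symm]; exact h3
        · exact h2
        · exact h24
        · rw [hF.symm]; exact h14)
    norm_num at hc
    have h12 : F 1 2 = 0 := u4_far hF (by norm_num) (by norm_num) (by omega)
    have h13 : F 1 3 = 0 := u4_far hF (by norm_num) (by norm_num) (by omega)
    obtain ⟨k1, k2, k3, k4, k5, k6, k7⟩ := key h12 h13
    rw [h34, mul_zero] at k7

    have k8 : (α 4 - α 2) * (α 4 - α 1) = b 2 * b 2 := by
      have h9 : ((α 4 - α 2) * (α 4 - α 1) - b 2 * b 2) * F 0 3 = 0 := by
        linear_combination (-(α 4 - α 2)) * k6 - b 2 * k7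
      rcases mul_eq_zero.1 h9 with h | h
      · linarith
      · exact absurd h h3

    suffices hmain : b 3 = b 2 ∧ α 2 = 1 ∧ α 3 = b 2 * b 2 ∧ |α 4 - α 2| = 1 by
      obtain ⟨m1, m2, m3, m4⟩ := hmain
      rcases abs_eq (by norm_num : (0:ℤ) ≤ 1) |>.1 m4 with h | h
      · rw [h] at k8
        have h10 : α 1 = 2 - b 2 * b 2 := by linarith
        have h11 : b 2 = 1 := by nlinarith
        rw [h11] at h10 m3
        left
        exact ⟨1, 2, 3, by norm_num, by norm_num, by norm_num, by linarith, by linarith⟩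
      · rw [h] at k8
        have h10 : α 4 = 0 := by linarith
        have h11 : α 1 = α 3 := by linarith
        right
        refine ⟨?_, ?_⟩
        · intro i hi
          interval_cases i
          · norm_num [h10, hB.α0]
          · norm_num [h11]
          · norm_num
          · norm_num [h11]
          · norm_num [h10, hB.α0]
        · intro i hi1 hi2
          interval_cases i
          · norm_num [k1, hB.b1]
          · norm_num [m1]
          · norm_num [m1]
          · norm_num [k1, hB.b1]
    have k7' : (α 4 - α 2) * F 2 4 = b 2 * F 0 3 := by linarith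
    have n7 := congrArg abs k7'
    rw [abs_mul, abs_mul, abs_of_nonneg (by omega : (0:ℤ) ≤ b 2)] at n7
    have n3 : α 2 * |F 0 2| = b 3 * |F 0 3| := by
      have h9 : α 2 * F 0 2 = -(b 3 * F 0 3) := by linarith
      have := congrArg abs h9
      rw [abs_mul, abs_neg, abs_mul, abs_of_nonneg a2,
        abs_of_nonneg (by omega : (0:ℤ) ≤ b 3)] at this
      exact this
    have n4 : b 3 * |F 0 2| = α 3 * |F 0 3| := by
      have h9 : b 3 * F 0 2 = -(α 3 * F 0 3) := by linarith
      have := congrArg abs h9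
      rw [abs_mul, abs_neg, abs_mul, abs_of_nonneg a3,
        abs_of_nonneg (by omega : (0:ℤ) ≤ b 3)] at this
      exact this
    rcases hc with ⟨q0, q1, q2, q3, q4⟩ | ⟨q0, q1, q2, q3, q4⟩
    · have r30 := hF.edge 3 (by norm_num) 0 (by norm_num) (by rw [q0, q1])
      have r02 := hF.edge 0 (by norm_num) 2 (by norm_num) (by rw [q1, q2])
      have r24 := hF.edge 2 (by norm_num) 4 (by norm_num) (by rw [q2, q3])
      rw [q1, hB.b1, hF.symm] at r30
      rw [q2] at r02
      rw [q3] at r24
      rw [r30, r02] at n3 n4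
      rw [r24, r30] at n7

      have h9 : |α 4 - α 2| * (α 2 * b 2) = b 2 := by rw [n3]; linarith
      have h10 : |α 4 - α 2| * α 2 = 1 := by
        have : b 2 * (|α 4 - α 2| * α 2 - 1) = 0 := by linarith
        rcases mul_eq_zero.1 this with h | h
        · omega
        · linarith
      have h11 : |α 4 - α 2| = 1 := by
        rcases Int.eq_one_or_neg_one_of_mul_eq_one h10 with h | h
        · exact h
        · have := abs_nonneg (α 4 - α 2)
          omega
      rw [h11] at h10
      have h12' : α 2 = 1 := by linarith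
      rw [h12'] at n3
      have h13' : b 3 = b 2 := by linarith
      rw [h13'] at n4
      exact ⟨h13', h12', by linarith, h11⟩
    · have r14 := hF.edge 1 (by norm_num) 4 (by norm_num) (by rw [q0, q1])
      have r42 := hF.edge 4 (by norm_num) 2 (by norm_num) (by rw [q1, q2])
      have r20 := hF.edge 2 (by norm_num) 0 (by norm_num) (by rw [q2, q3])
      rw [q1, hB.b1, k2] at r14
      rw [q2, hF.symm] at r42
      rw [q3, hF.symm] at r20
      rw [r14, r20] at n3 n4
      rw [r42, r14] at n7
      rw [q0, hB.α0] at d1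
      rw [q3] at d0
      rw [d0, d1] at e1

      have h9 : α 2 = 1 := by
        have : b 3 * (α 2 - 1) = 0 := by linarith
        rcases mul_eq_zero.1 this with h | h
        · omega
        · linarith
      have h10 : |α 4 - α 2| = 1 := by
        have : b 2 * (|α 4 - α 2| - 1) = 0 := by linarith
        rcases mul_eq_zero.1 this with h | h
        · omega
        · linarith
      have h11 : α 3 = b 2 * b 3 := by
        have h12' : α 3 = -(b 2 * F 0 2) := by linarith
        have := congrArg abs h12'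
        rw [abs_of_nonneg a3, abs_neg, abs_mul, r20,
          abs_of_nonneg (by omega : (0:ℤ) ≤ b 2)] at this
        exact this
      have h12' : b 3 = b 2 := by
        have : b 3 * (b 3 - b 2) = 0 := by linarith
        rcases mul_eq_zero.1 this with h | h
        · omega
        · linarith
      rw [h12'] at h11
      exact ⟨h12', h9, h11, h10⟩

end LS
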