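import Pool.Agent.LS.Core
import Pool.Agent.LS.PT

/-! Part `U5` of the classification of self-dual Leonard systems with integral normalized
intersection numbers (MP_963a96_al). -/
open Finset
namespace LS

variable {α b : ℕ → ℤ} {p : ℕ → ℕ} {F : ℕ → ℕ → ℤ}

structure u5_Eqs (α b : ℕ → ℤ) (F : ℕ → ℕ → ℤ) : Prop where
  b1 : b 1 = 1
  b2 : 1 ≤ b 2
  b3 : 1 ≤ b 3
  b4 : 1 ≤ b 4
  a0 : α 0 = 0
  a1 : 0 ≤ α 1
  a2 : 0 ≤ α 2
  a3 : 0 ≤ α 3
  a4 : 0 ≤ α 4
  r11 : F 1 1 = F 0 0 + α 1 * F 0 1 + b 2 * F 0 2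
  r12 : F 1 2 = b 2 * F 0 1 + α 2 * F 0 2 + b 3 * F 0 3
  r13 : F 1 3 = b 3 * F 0 2 + α 3 * F 0 3 + b 4 * F 0 4
  r14 : F 1 4 = b 4 * F 0 3 + α 4 * F 0 4
  r22 : b 2 * F 2 2 = b 2 * F 1 1 + (α 2 - α 1) * F 1 2 + b 3 * F 1 3 - F 0 2
  r23 : b 2 * F 2 3 = b 3 * F 1 2 + (α 3 - α 1) * F 1 3 + b 4 * F 1 4 - F 0 3
  r24 : b 2 * F 2 4 = b 4 * F 1 3 + (α 4 - α 1) * F 1 4 - F 0 4
  r33 : b 3 * F 3 3 = b 3 * F 2 2 + (α 3 - α 2) * F 2 3 + b 4 * F 2 4 - b 2 * F 1 3
  r34 : b 3 * F 3 4 = b 4 * F 2 3 + (α 4 - α 2) * F 2 4 - b 2 * F 1 4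
  r44 : b 4 * F 4 4 = b 4 * F 3 3 + (α 4 - α 3) * F 3 4 - b 3 * F 2 4
  s10 : F 1 0 = F 0 1
  s20 : F 2 0 = F 0 2
  s30 : F 3 0 = F 0 3
  s40 : F 4 0 = F 0 4
  s21 : F 2 1 = F 1 2
  s31 : F 3 1 = F 1 3
  s41 : F 4 1 = F 1 4
  s32 : F 3 2 = F 2 3
  s42 : F 4 2 = F 2 4
  s43 : F 4 3 = F 3 4

theorem u5_eqs (hB : Base 4 α b) (hF : PathF 4 α b p F) : u5_Eqs α b F := by
  have hb5 : b 5 = 0 := hB.bout 5 (by norm_num)
  have hb1 := hB.b1
  have s10 := hF.symm 1 0
  have s20 := hF.symm 2 0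
  have s30 := hF.symm 3 0
  have s40 := hF.symm 4 0
  have s21 := hF.symm 2 1
  have s31 := hF.symm 3 1
  have s41 := hF.symm 4 1
  have s32 := hF.symm 3 2
  have s42 := hF.symm 4 2
  have s43 := hF.symm 4 3
  have q11 := hF.recur0 hB 1 (by norm_num)
  have q12 := hF.recur0 hB 2 (by norm_num)
  have q13 := hF.recur0 hB 3 (by norm_num)
  have q14 := hF.recur0 hB 4 (by norm_num)
  have q22 := hF.recur1 hB 2 (by norm_num)
  have q23 := hF.recur1 hB 3 (by norm_num)
  have q24 := hF.recur1 hB 4 (by norm_num)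
  have q33 := hF.recurk hB 2 (by norm_num) 3 (by norm_num)
  have q34 := hF.recurk hB 2 (by norm_num) 4 (by norm_num)
  have q44 := hF.recurk hB 3 (by norm_num) 4 (by norm_num)
  norm_num [hb5, hb1] at q11 q12 q13 q14 q22 q23 q24 q33 q34 q44
  refine ⟨hb1, hB.bpos 2 (by norm_num) (by norm_num), hB.bpos 3 (by norm_num) (by norm_num),
    hB.bpos 4 (by norm_num) (by norm_num), hB.α0, hB.αnn 1, hB.αnn 2, hB.αnn 3, hB.αnn 4,
    ?_, ?_, ?_, ?_, ?_, ?_, ?_, ?_, ?_, ?_, s10, s20, s30, s40, s21, s31, s41, s32, s42, s43⟩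
  · linarith
  · linarith
  · linarith
  · linarith
  · rw [q22]
  · rw [q23]
  · rw [q24]
  · linarith
  · linarith
  · linarith

theorem u5_pos (hF : PathF 4 α b p F) :
    (p 0 ≤ 4 ∧ p 1 ≤ 4 ∧ p 2 ≤ 4 ∧ p 3 ≤ 4 ∧ p 4 ≤ 4) ∧
    (p 0 ≠ p 1 ∧ p 0 ≠ p 2 ∧ p 0 ≠ p 3 ∧ p 0 ≠ p 4 ∧ p 1 ≠ p 2 ∧ p 1 ≠ p 3 ∧ p 1 ≠ p 4 ∧
      p 2 ≠ p 3 ∧ p 2 ≠ p 4 ∧ p 3 ≠ p 4) := by
  have hle := hF.p_le
  have hi : ∀ u ≤ 4, ∀ v ≤ 4, u ≠ v → p u ≠ p v := fun u hu v hv h e => h (hF.p_inj u hu v hv e)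
  refine ⟨⟨hle 0 (by norm_num), hle 1 (by norm_num), hle 2 (by norm_num), hle 3 (by norm_num),
    hle 4 (by norm_num)⟩, ?_⟩
  refine ⟨?_, ?_, ?_, ?_, ?_, ?_, ?_, ?_, ?_, ?_⟩ <;>
    exact hi _ (by norm_num) _ (by norm_num) (by norm_num)

def u5_A (x y : ℕ) : Prop := y = x + 1 ∨ x = y + 1

theorem u5_A.symm {x y : ℕ} (h : u5_A x y) : u5_A y x := Or.symm h

theorem u5_adj (hB : Base 4 α b) (hF : PathF 4 α b p F) {u v : ℕ} (hu : u ≤ 4) (hv : v ≤ 4)
    (huv : u ≠ v) (h : F u v ≠ 0) : u5_A (p u) (p v) :=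
  (hF.adj hB hu hv huv h).imp And.left And.left

theorem u5_c3 {x y z : ℕ} (h1 : u5_A x y) (h2 : u5_A y z) (h3 : u5_A z x) : False := by
  unfold u5_A at *; omega

theorem u5_c4 {x y z w : ℕ} (h1 : u5_A x y) (h2 : u5_A y z) (h3 : u5_A z w) (h4 : u5_A w x)
    (d1 : x ≠ z) (d2 : y ≠ w) : False := by
  unfold u5_A at *; omega

theorem u5_c5 {x y z w t : ℕ} (h1 : u5_A x y) (h2 : u5_A y z) (h3 : u5_A z w) (h4 : u5_A w t)
    (h5 : u5_A t x) : False := by
  unfold u5_A at *; omega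

theorem u5_chain {x0 x1 x2 x3 x4 : ℕ} (l0 : x0 ≤ 4) (l4 : x4 ≤ 4)
    (h1 : u5_A x0 x1) (h2 : u5_A x1 x2) (h3 : u5_A x2 x3) (h4 : u5_A x3 x4)
    (d02 : x0 ≠ x2) (d13 : x1 ≠ x3) (d24 : x2 ≠ x4) :
    (x0 = 0 ∧ x1 = 1 ∧ x2 = 2 ∧ x3 = 3 ∧ x4 = 4) ∨
      (x4 = 0 ∧ x3 = 1 ∧ x2 = 2 ∧ x1 = 3 ∧ x0 = 4) := by
  unfold u5_A at *; omega

theorem u5_E (hF : PathF 4 α b p F) {u v k : ℕ} (hu : u ≤ 4) (hv : v ≤ 4) (h1 : p u = k)
    (h2 : p v = k + 1) : |F u v| = b (k+1) := by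
  have := hF.edge u hu v hv (by rw [h1, h2])
  rwa [h2] at this

theorem u5_E' (hF : PathF 4 α b p F) {u v k : ℕ} (hu : u ≤ 4) (hv : v ≤ 4) (h1 : p v = k)
    (h2 : p u = k + 1) : |F u v| = b (k+1) := by
  rw [hF.symm]; exact u5_E hF hv hu h1 h2

theorem u5_D (hF : PathF 4 α b p F) {u k : ℕ} (hu : u ≤ 4) (h1 : p u = k) : F u u = α k := by
  rw [hF.diag u hu, h1]

theorem u5_one {x y : ℤ} (hx : 1 ≤ x) (h : x * y = 1) : x = 1 ∧ y = 1 := by
  have := Int.eq_one_or_neg_one_of_mul_eq_one h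
  have hx1 : x = 1 := by omega
  exact ⟨hx1, by rw [hx1] at h; linarith⟩

theorem u5_mul {x y : ℤ} (hx : 1 ≤ x) (h : x * y = 0) : y = 0 :=
  (mul_eq_zero.mp h).resolve_left (by omega)

theorem u5_abs {x y : ℤ} (hx : 1 ≤ x) : |x * y| = x * |y| := by
  rw [abs_mul, abs_of_pos (by omega)]

theorem u5_sq1 {x : ℤ} (hx : 1 ≤ x) : 0 ≤ x ^ 2 - 1 := by nlinarith

theorem u5_sqeq {x y : ℤ} (hx : 1 ≤ x) (hy : 1 ≤ y) (h : x * x = y * y) : x = y := by
  rcases mul_self_eq_mul_self_iff.mp h with h | h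
  · exact h
  · omega

theorem u5_nadj (hB : Base 4 α b) (hF : PathF 4 α b p F) {u v : ℕ} (hu : u ≤ 4) (hv : v ≤ 4)
    (h : F u v = 0) : ¬ u5_A (p u) (p v) := by
  rintro (e | e)
  · exact hF.ne_zero hB hu hv e h
  · exact hF.ne_zero hB hv hu e (by rw [hF.symm]; exact h)

theorem u5_perm {x0 x1 x2 x3 x4 : ℕ} (l0 : x0 ≤ 4) (l1 : x1 ≤ 4) (l2 : x2 ≤ 4) (l3 : x3 ≤ 4)
    (l4 : x4 ≤ 4)
    (dd : x0 ≠ x1 ∧ x0 ≠ x2 ∧ x0 ≠ x3 ∧ x0 ≠ x4 ∧ x1 ≠ x2 ∧ x1 ≠ x3 ∧ x1 ≠ x4 ∧
      x2 ≠ x3 ∧ x2 ≠ x4 ∧ x3 ≠ x4)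
    (h04 : u5_A x0 x4) (_h13 : u5_A x1 x3) (h01 : ¬ u5_A x0 x1) (h02 : ¬ u5_A x0 x2)
    (h03 : ¬ u5_A x0 x3) (h12 : ¬ u5_A x1 x2) (h14 : ¬ u5_A x1 x4) :
    (x0 = 0 ∧ x4 = 1 ∧ x2 = 2 ∧ x3 = 3 ∧ x1 = 4) ∨
      (x1 = 0 ∧ x3 = 1 ∧ x2 = 2 ∧ x4 = 3 ∧ x0 = 4) := by
  unfold u5_A at *
  interval_cases x0 <;> interval_cases x4 <;> first | (exfalso; omega) | omega

theorem U5 (hB : Base 4 α b) (hF : PathF 4 α b p F) (h1 : F 0 1 = 0)
    (h2 : F 0 2 = 0) (h3 : F 0 3 = 0) (h4 : F 0 4 ≠ 0) : Three 4 α := by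
  obtain ⟨b1, b2, b3, b4, a0, a1, a2, a3, a4, r11, r12, r13, r14, r22, r23, r24, r33, r34, r44,
    s10, s20, s30, s40, s21, s31, s41, s32, s42, s43⟩ := u5_eqs hB hF
  obtain ⟨⟨l0, l1, l2, l3, l4⟩, dd⟩ := u5_pos hF
  obtain ⟨d01, d02, d03, d04, d12, d13, d14, d23, d24, d34⟩ := id dd
  rw [h1, h2] at r11
  rw [h1, h2, h3] at r12
  rw [h2, h3] at r13
  rw [h3] at r14 r23
  rw [h2] at r22
  have z12 : F 1 2 = 0 := by rw [r12]; ring
  rw [z12] at r22 r23
  have f13 : F 1 3 = b 4 * F 0 4 := by rw [r13]; ring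
  have f14 : F 1 4 = α 4 * F 0 4 := by rw [r14]; ring
  have n13 : F 1 3 ≠ 0 := by
    rw [f13]; exact mul_ne_zero (by linarith) h4
  have e04 := u5_adj hB hF (u := 0) (v := 4) (by norm_num) (by norm_num) (by norm_num) h4
  have e13 := u5_adj hB hF (u := 1) (v := 3) (by norm_num) (by norm_num) (by norm_num) n13
  by_cases hα4 : α 4 = 0
  ·
    have z14 : F 1 4 = 0 := by rw [f14, hα4]; ring
    have m01 := u5_nadj hB hF (u := 0) (v := 1) (by norm_num) (by norm_num) h1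
    have m02 := u5_nadj hB hF (u := 0) (v := 2) (by norm_num) (by norm_num) h2
    have m03 := u5_nadj hB hF (u := 0) (v := 3) (by norm_num) (by norm_num) h3
    have m12 := u5_nadj hB hF (u := 1) (v := 2) (by norm_num) (by norm_num) z12
    have m14 := u5_nadj hB hF (u := 1) (v := 4) (by norm_num) (by norm_num) z14
    have P := u5_perm l0 l1 l2 l3 l4 dd e04 e13 m01 m02 m03 m12 m14
    have g24 : b 2 * F 2 4 = (b 4 ^ 2 - 1) * F 0 4 := by
      rw [r24, f13, z14]; ring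
    rcases P with ⟨q0, q4, q2, q3, q1⟩ | ⟨q1, q3, q2, q4, q0⟩
    · have f04 := u5_E hF (u := 0) (v := 4) (by norm_num) (by norm_num) q0 q4
      have f24 := u5_E' hF (u := 2) (v := 4) (by norm_num) (by norm_num) q4 q2
      norm_num [b1] at f04 f24
      have g := congrArg abs g24
      rw [u5_abs b2, abs_mul, f24, f04,
        abs_of_nonneg (u5_sq1 b4)] at g
      exact absurd (by linarith : b 4 ^ 2 = b 2 ^ 2 + 1) (sq_ne (b 4) (b 2) b4 b2)
    · have k13 := u5_E hF (u := 1) (v := 3) (by norm_num) (by norm_num) q1 q3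
      norm_num [b1] at k13
      rw [f13, u5_abs b4] at k13
      obtain ⟨hb4, -⟩ := u5_one b4 k13
      rw [hb4] at g24
      have h0 : b 2 * F 2 4 = 0 := by rw [g24]; ring
      exact absurd (u5_mul b2 h0) (hF.ne_zero hB (by norm_num) (by norm_num) (by rw [q2, q4]))
  ·
    have n14 : F 1 4 ≠ 0 := by
      rw [f14]; exact mul_ne_zero hα4 h4
    have e14 := u5_adj hB hF (u := 1) (v := 4) (by norm_num) (by norm_num) (by norm_num) n14
    have z24 : F 2 4 = 0 := by
      have := hF.deg hB (u := 4) (v := 0) (w := 1) (t := 2) (by norm_num) (by norm_num)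
        (by norm_num) (by norm_num) (by norm_num) (by norm_num) (by norm_num) (by norm_num)
        (by norm_num) (by norm_num) (by rw [s40]; exact h4) (by rw [s41]; exact n14)
      rw [← s42]; exact this
    have z34 : F 3 4 = 0 := by
      have := hF.deg hB (u := 4) (v := 0) (w := 1) (t := 3) (by norm_num) (by norm_num)
        (by norm_num) (by norm_num) (by norm_num) (by norm_num) (by norm_num) (by norm_num)
        (by norm_num) (by norm_num) (by rw [s40]; exact h4) (by rw [s41]; exact n14)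
      rw [← s43]; exact this
    rw [z24] at r24 r34
    rw [z34] at r34
    have g34 : b 4 * F 2 3 = b 2 * F 1 4 := by linear_combination -r34
    have n23 : F 2 3 ≠ 0 := by
      intro z23
      rw [z23] at g34
      exact n14 (u5_mul b2 (by rw [← g34]; ring))
    have e23 := u5_adj hB hF (u := 2) (v := 3) (by norm_num) (by norm_num) (by norm_num) n23
    have g24 : b 4 ^ 2 - 1 + (α 4 - α 1) * α 4 = 0 := by
      have : (b 4 ^ 2 - 1 + (α 4 - α 1) * α 4) * F 0 4 = 0 := by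
        rw [f13, f14] at r24; linear_combination -r24
      exact (mul_eq_zero.mp this).resolve_right h4
    have g23 : b 2 * F 2 3 = F 0 4 * b 4 * (α 3 + α 4 - α 1) := by
      rw [r23, f13, f14]; ring
    have A14 : |F 1 4| = α 4 * |F 0 4| := by rw [f14, abs_mul, abs_of_nonneg a4]
    have A13 : |F 1 3| = b 4 * |F 0 4| := by rw [f13, u5_abs b4]
    have A23 : b 4 * |F 2 3| = b 2 * |F 1 4| := by
      have := congrArg abs g34
      rwa [u5_abs b4, u5_abs b2] at this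
    rcases u5_chain l0 l2 e04 e14.symm e13 e23.symm d01 d34.symm d12 with
      ⟨q0, q4, q1, q3, q2⟩ | ⟨q2, q3, q1, q4, q0⟩
    · have f04 := u5_E hF (u := 0) (v := 4) (by norm_num) (by norm_num) q0 q4
      have k14 := u5_E' hF (u := 1) (v := 4) (by norm_num) (by norm_num) q4 q1
      have k13 := u5_E hF (u := 1) (v := 3) (by norm_num) (by norm_num) q1 q3
      have k23 := u5_E' hF (u := 2) (v := 3) (by norm_num) (by norm_num) q3 q2
      norm_num [b1] at f04 k14 k13 k23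
      rw [k14, f04] at A14
      rw [k13, f04] at A13
      rw [k23, k14] at A23
      have hα : α 4 = b 2 := by linarith
      have hb24 : b 2 = b 4 := u5_sqeq b2 b4 (by linarith)
      rw [hb24] at hα
      rw [hα] at g24
      have hk : b 4 * (2 * b 4 - α 1) = 1 := by linear_combination g24
      obtain ⟨hb4, hα1⟩ := u5_one b4 hk
      rw [hb4] at hα1
      have g3 : F 2 3 = F 0 4 * α 3 := by
        rw [hb24, hα, hb4] at g23
        have h' : α 1 = 1 := by linarith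
        rw [h'] at g23
        linarith
      have g3' := congrArg abs g3
      rw [abs_mul, k23, f04, abs_of_nonneg a3] at g3'
      exact three_of α (i := 1) (j := 3) (k := 4) (by norm_num) (by norm_num) (by norm_num)
        (by norm_num) (by norm_num) (by norm_num) (by linarith) (by linarith)
    · have f04 := u5_E' hF (u := 0) (v := 4) (by norm_num) (by norm_num) q4 q0
      have k14 := u5_E hF (u := 1) (v := 4) (by norm_num) (by norm_num) q1 q4
      have k13 := u5_E' hF (u := 1) (v := 3) (by norm_num) (by norm_num) q3 q1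
      have k23 := u5_E hF (u := 2) (v := 3) (by norm_num) (by norm_num) q2 q3
      norm_num [b1] at f04 k14 k13 k23
      rw [k14, f04] at A14
      rw [k13, f04] at A13
      rw [k23, k14] at A23
      have hb43 : b 4 * (b 4 * b 3 - 1) = 0 := by rw [A13] at A23; linear_combination -A23
      obtain ⟨hb4, hb3⟩ := u5_one b4 (by linarith [u5_mul b4 hb43] : b 4 * b 3 = 1)
      rw [hb4] at A14 g24
      have hα4' : α 4 = 1 := by linarith
      rw [hα4'] at g24
      have k11 := u5_D hF (u := 1) (by norm_num) q1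
      have k00 := u5_D hF (u := 0) (by norm_num) q0
      rw [k11, k00] at r11
      exact three_of α (i := 1) (j := 2) (k := 4) (by norm_num) (by norm_num) (by norm_num)
        (by norm_num) (by norm_num) (by norm_num) (by linarith) (by linarith)

theorem U6 (hB : Base 4 α b) (hF : PathF 4 α b p F)
    (h12 : (F 0 1 ≠ 0 ∧ F 0 2 = 0) ∨ (F 0 1 = 0 ∧ F 0 2 ≠ 0))
    (h3 : F 0 3 = 0) (h4 : F 0 4 ≠ 0) : Three 4 α := by
  obtain ⟨b1, b2, b3, b4, a0, a1, a2, a3, a4, r11, r12, r13, r14, r22, r23, r24, r33, r34, r44,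
    s10, s20, s30, s40, s21, s31, s41, s32, s42, s43⟩ := u5_eqs hB hF
  obtain ⟨⟨l0, l1, l2, l3, l4⟩, dd⟩ := u5_pos hF
  obtain ⟨d01, d02, d03, d04, d12, d13, d14, d23, d24, d34⟩ := id dd
  rcases h12 with ⟨h1, h2⟩ | ⟨h1, h2⟩
  · rw [h2, h3] at r12
    rw [h2, h3] at r13
    have n12 : F 1 2 ≠ 0 := by
      have : F 1 2 = b 2 * F 0 1 := by rw [r12]; ring
      rw [this]; exact mul_ne_zero (by linarith) h1
    have n13 : F 1 3 ≠ 0 := by
      have : F 1 3 = b 4 * F 0 4 := by rw [r13]; ring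
      rw [this]; exact mul_ne_zero (by linarith) h4
    exact absurd (hF.deg hB (u := 1) (v := 0) (w := 2) (t := 3) (by norm_num) (by norm_num)
      (by norm_num) (by norm_num) (by norm_num) (by norm_num) (by norm_num) (by norm_num)
      (by norm_num) (by norm_num) (by rw [s10]; exact h1) n12) n13
  · rw [h1] at r12
    rw [h3] at r12 r13 r14 r23
    have f12 : F 1 2 = α 2 * F 0 2 := by rw [r12]; ring
    have f13 : F 1 3 = b 3 * F 0 2 + b 4 * F 0 4 := by rw [r13]; ring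
    have f14 : F 1 4 = α 4 * F 0 4 := by rw [r14]; ring
    have e04 := u5_adj hB hF (u := 0) (v := 4) (by norm_num) (by norm_num) (by norm_num) h4
    have e02 := u5_adj hB hF (u := 0) (v := 2) (by norm_num) (by norm_num) (by norm_num) h2
    have z24 : F 2 4 = 0 := hF.tri hB (u := 2) (v := 0) (w := 4) (by norm_num) (by norm_num)
      (by norm_num) (by norm_num) (by norm_num) (by norm_num) (by rw [s20]; exact h2) h4
    rw [z24] at r24 r34
    by_cases hα2 : α 2 = 0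
    · by_cases hα4 : α 4 = 0
      · exact three_of α (i := 0) (j := 2) (k := 4) (by norm_num) (by norm_num) (by norm_num)
          (by norm_num) (by norm_num) (by norm_num) (by rw [a0, hα2]) (by rw [hα2, hα4])
      · have n14 : F 1 4 ≠ 0 := by
          rw [f14]; exact mul_ne_zero hα4 h4
        have e14 := u5_adj hB hF (u := 1) (v := 4) (by norm_num) (by norm_num) (by norm_num) n14
        have z34 : F 3 4 = 0 := by
          have := hF.deg hB (u := 4) (v := 0) (w := 1) (t := 3) (by norm_num) (by norm_num)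
            (by norm_num) (by norm_num) (by norm_num) (by norm_num) (by norm_num) (by norm_num)
            (by norm_num) (by norm_num) (by rw [s40]; exact h4) (by rw [s41]; exact n14)
          rw [← s43]; exact this
        rw [z34] at r34
        have g34 : b 4 * F 2 3 = b 2 * F 1 4 := by linear_combination -r34
        have n23 : F 2 3 ≠ 0 := by
          intro z23
          rw [z23] at g34
          exact n14 (u5_mul b2 (by rw [← g34]; ring))
        have e23 := u5_adj hB hF (u := 2) (v := 3) (by norm_num) (by norm_num) (by norm_num) n23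
        have z13 : F 1 3 = 0 := by
          by_contra n13
          have e13 := u5_adj hB hF (u := 1) (v := 3) (by norm_num) (by norm_num) (by norm_num) n13
          exact u5_c5 e04 e14.symm e13 e23.symm e02.symm
        have hk : α 4 * (α 4 - α 1) = 1 := by
          have : (α 4 * (α 4 - α 1) - 1) * F 0 4 = 0 := by
            rw [z13, f14] at r24; linear_combination -r24
          linarith [(mul_eq_zero.mp this).resolve_right h4]
        obtain ⟨h4', h5⟩ := u5_one (by omega : 1 ≤ α 4) hk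
        exact three_of α (i := 0) (j := 1) (k := 2) (by norm_num) (by norm_num) (by norm_num)
          (by norm_num) (by norm_num) (by norm_num) (by linarith) (by linarith)
    · have n12 : F 1 2 ≠ 0 := by
        rw [f12]; exact mul_ne_zero hα2 h2
      have e12 := u5_adj hB hF (u := 1) (v := 2) (by norm_num) (by norm_num) (by norm_num) n12
      by_cases hα4 : α 4 = 0
      · have z14 : F 1 4 = 0 := by rw [f14, hα4]; ring
        rw [z14] at r24
        have g24 : F 0 4 = b 4 * F 1 3 := by linear_combination r24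
        have n13 : F 1 3 ≠ 0 := by
          intro h0
          rw [h0] at g24
          exact h4 (by rw [g24]; ring)
        have e13 := u5_adj hB hF (u := 1) (v := 3) (by norm_num) (by norm_num) (by norm_num) n13
        have g3 : b 3 * F 0 2 = (1 - b 4 ^ 2) * F 1 3 := by
          rw [g24] at f13; linear_combination -f13
        have A04 : b 4 * |F 1 3| = |F 0 4| := by
          rw [g24, u5_abs b4]
        rcases u5_chain l4 l3 e04.symm e02 e12.symm e13 d24.symm d01 d23 with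
          ⟨q4, q0, q2, q1, q3⟩ | ⟨q3, q1, q2, q0, q4⟩
        · have f04 := u5_E' hF (u := 0) (v := 4) (by norm_num) (by norm_num) q4 q0
          norm_num [b1] at f04
          rw [f04] at A04
          obtain ⟨hb4, -⟩ := u5_one b4 A04
          rw [hb4] at g3
          exact absurd (u5_mul b3 (by rw [g3]; ring)) h2
        · have k13 := u5_E' hF (u := 1) (v := 3) (by norm_num) (by norm_num) q3 q1
          have f02 := u5_E' hF (u := 0) (v := 2) (by norm_num) (by norm_num) q2 q0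
          norm_num [b1] at k13 f02
          have g := congrArg abs g3
          rw [u5_abs b3, abs_mul, f02, k13,
            abs_of_nonpos (by linarith [u5_sq1 b4] : 1 - b 4 ^ 2 ≤ 0)] at g
          exact absurd (by linarith : b 4 ^ 2 = b 3 ^ 2 + 1) (sq_ne (b 4) (b 3) b4 b3)
      · exfalso
        have n14 : F 1 4 ≠ 0 := by
          rw [f14]; exact mul_ne_zero hα4 h4
        have e14 := u5_adj hB hF (u := 1) (v := 4) (by norm_num) (by norm_num) (by norm_num) n14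
        exact u5_c4 e04 e14.symm e12 e02.symm d01 d24.symm

end LS
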