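import Pool.Agent.LS.Core
import Pool.Agent.LS.PT

/-! Part `U7` of the classification of self-dual Leonard systems with integral normalized
intersection numbers (MP_963a96_al). -/
open Finset
namespace LS

variable {α b : ℕ → ℤ} {p : ℕ → ℕ} {F : ℕ → ℕ → ℤ}

structure u7_Eqs (α b : ℕ → ℤ) (F : ℕ → ℕ → ℤ) : Prop where
  b1 : b 1 = 1
  b2 : 1 ≤ b 2
  b3 : 1 ≤ b 3
  b4 : 1 ≤ b 4
  a0 : α 0 = 0
  a1 : 0 ≤ α 1
  a2 : 0 ≤ α 2
  a3 : 0 ≤ α 3
  a4 : 0 ≤ α 4
  r11 : F 1 1 = F 0 0 + α 1 * F 0 1 + b 2 * F 0 2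
  r12 : F 1 2 = b 2 * F 0 1 + α 2 * F 0 2 + b 3 * F 0 3
  r13 : F 1 3 = b 3 * F 0 2 + α 3 * F 0 3 + b 4 * F 0 4
  r14 : F 1 4 = b 4 * F 0 3 + α 4 * F 0 4
  r22 : b 2 * F 2 2 = b 2 * F 1 1 + (α 2 - α 1) * F 1 2 + b 3 * F 1 3 - F 0 2
  r23 : b 2 * F 2 3 = b 3 * F 1 2 + (α 3 - α 1) * F 1 3 + b 4 * F 1 4 - F 0 3
  r24 : b 2 * F 2 4 = b 4 * F 1 3 + (α 4 - α 1) * F 1 4 - F 0 4
  r33 : b 3 * F 3 3 = b 3 * F 2 2 + (α 3 - α 2) * F 2 3 + b 4 * F 2 4 - b 2 * F 1 3
  r34 : b 3 * F 3 4 = b 4 * F 2 3 + (α 4 - α 2) * F 2 4 - b 2 * F 1 4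
  r44 : b 4 * F 4 4 = b 4 * F 3 3 + (α 4 - α 3) * F 3 4 - b 3 * F 2 4
  s10 : F 1 0 = F 0 1
  s20 : F 2 0 = F 0 2
  s30 : F 3 0 = F 0 3
  s40 : F 4 0 = F 0 4
  s21 : F 2 1 = F 1 2
  s31 : F 3 1 = F 1 3
  s41 : F 4 1 = F 1 4
  s32 : F 3 2 = F 2 3
  s42 : F 4 2 = F 2 4
  s43 : F 4 3 = F 3 4

theorem u7_eqs (hB : Base 4 α b) (hF : PathF 4 α b p F) : u7_Eqs α b F := by
  have hb5 : b 5 = 0 := hB.bout 5 (by norm_num)
  have hb1 := hB.b1
  have s10 := hF.symm 1 0
  have s20 := hF.symm 2 0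
  have s30 := hF.symm 3 0
  have s40 := hF.symm 4 0
  have s21 := hF.symm 2 1
  have s31 := hF.symm 3 1
  have s41 := hF.symm 4 1
  have s32 := hF.symm 3 2
  have s42 := hF.symm 4 2
  have s43 := hF.symm 4 3
  have q11 := hF.recur0 hB 1 (by norm_num)
  have q12 := hF.recur0 hB 2 (by norm_num)
  have q13 := hF.recur0 hB 3 (by norm_num)
  have q14 := hF.recur0 hB 4 (by norm_num)
  have q22 := hF.recur1 hB 2 (by norm_num)
  have q23 := hF.recur1 hB 3 (by norm_num)
  have q24 := hF.recur1 hB 4 (by norm_num)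
  have q33 := hF.recurk hB 2 (by norm_num) 3 (by norm_num)
  have q34 := hF.recurk hB 2 (by norm_num) 4 (by norm_num)
  have q44 := hF.recurk hB 3 (by norm_num) 4 (by norm_num)
  norm_num [hb5, hb1] at q11 q12 q13 q14 q22 q23 q24 q33 q34 q44
  refine ⟨hb1, hB.bpos 2 (by norm_num) (by norm_num), hB.bpos 3 (by norm_num) (by norm_num),
    hB.bpos 4 (by norm_num) (by norm_num), hB.α0, hB.αnn 1, hB.αnn 2, hB.αnn 3, hB.αnn 4,
    ?_, ?_, ?_, ?_, ?_, ?_, ?_, ?_, ?_, ?_, s10, s20, s30, s40, s21, s31, s41, s32, s42, s43⟩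
  · linarith
  · linarith
  · linarith
  · linarith
  · rw [q22]
  · rw [q23]
  · rw [q24]
  · linarith
  · linarith
  · linarith

theorem u7_pos (hF : PathF 4 α b p F) :
    (p 0 ≤ 4 ∧ p 1 ≤ 4 ∧ p 2 ≤ 4 ∧ p 3 ≤ 4 ∧ p 4 ≤ 4) ∧
    (p 0 ≠ p 1 ∧ p 0 ≠ p 2 ∧ p 0 ≠ p 3 ∧ p 0 ≠ p 4 ∧ p 1 ≠ p 2 ∧ p 1 ≠ p 3 ∧ p 1 ≠ p 4 ∧
      p 2 ≠ p 3 ∧ p 2 ≠ p 4 ∧ p 3 ≠ p 4) := by
  have hle := hF.p_le
  have hi : ∀ u ≤ 4, ∀ v ≤ 4, u ≠ v → p u ≠ p v := fun u hu v hv h e => h (hF.p_inj u hu v hv e)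
  refine ⟨⟨hle 0 (by norm_num), hle 1 (by norm_num), hle 2 (by norm_num), hle 3 (by norm_num),
    hle 4 (by norm_num)⟩, ?_⟩
  refine ⟨?_, ?_, ?_, ?_, ?_, ?_, ?_, ?_, ?_, ?_⟩ <;>
    exact hi _ (by norm_num) _ (by norm_num) (by norm_num)

def u7_A (x y : ℕ) : Prop := y = x + 1 ∨ x = y + 1

theorem u7_A.symm {x y : ℕ} (h : u7_A x y) : u7_A y x := Or.symm h

theorem u7_adj (hB : Base 4 α b) (hF : PathF 4 α b p F) {u v : ℕ} (hu : u ≤ 4) (hv : v ≤ 4)
    (huv : u ≠ v) (h : F u v ≠ 0) : u7_A (p u) (p v) :=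
  (hF.adj hB hu hv huv h).imp And.left And.left

theorem u7_c3 {x y z : ℕ} (h1 : u7_A x y) (h2 : u7_A y z) (h3 : u7_A z x) : False := by
  unfold u7_A at *; omega

theorem u7_c4 {x y z w : ℕ} (h1 : u7_A x y) (h2 : u7_A y z) (h3 : u7_A z w) (h4 : u7_A w x)
    (d1 : x ≠ z) (d2 : y ≠ w) : False := by
  unfold u7_A at *; omega

theorem u7_c5 {x y z w t : ℕ} (h1 : u7_A x y) (h2 : u7_A y z) (h3 : u7_A z w) (h4 : u7_A w t)
    (h5 : u7_A t x) : False := by
  unfold u7_A at *; omega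

theorem u7_chain {x0 x1 x2 x3 x4 : ℕ} (l0 : x0 ≤ 4) (l4 : x4 ≤ 4)
    (h1 : u7_A x0 x1) (h2 : u7_A x1 x2) (h3 : u7_A x2 x3) (h4 : u7_A x3 x4)
    (d02 : x0 ≠ x2) (d13 : x1 ≠ x3) (d24 : x2 ≠ x4) :
    (x0 = 0 ∧ x1 = 1 ∧ x2 = 2 ∧ x3 = 3 ∧ x4 = 4) ∨
      (x4 = 0 ∧ x3 = 1 ∧ x2 = 2 ∧ x1 = 3 ∧ x0 = 4) := by
  unfold u7_A at *; omega

theorem u7_E (hF : PathF 4 α b p F) {u v k : ℕ} (hu : u ≤ 4) (hv : v ≤ 4) (h1 : p u = k)
    (h2 : p v = k + 1) : |F u v| = b (k+1) := by
  have := hF.edge u hu v hv (by rw [h1, h2])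
  rwa [h2] at this

theorem u7_E' (hF : PathF 4 α b p F) {u v k : ℕ} (hu : u ≤ 4) (hv : v ≤ 4) (h1 : p v = k)
    (h2 : p u = k + 1) : |F u v| = b (k+1) := by
  rw [hF.symm]; exact u7_E hF hv hu h1 h2

theorem u7_D (hF : PathF 4 α b p F) {u k : ℕ} (hu : u ≤ 4) (h1 : p u = k) : F u u = α k := by
  rw [hF.diag u hu, h1]

theorem u7_one {x y : ℤ} (hx : 1 ≤ x) (h : x * y = 1) : x = 1 ∧ y = 1 := by
  have := Int.eq_one_or_neg_one_of_mul_eq_one h
  have hx1 : x = 1 := by omega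
  exact ⟨hx1, by rw [hx1] at h; linarith⟩

theorem u7_mul {x y : ℤ} (hx : 1 ≤ x) (h : x * y = 0) : y = 0 :=
  (mul_eq_zero.mp h).resolve_left (by omega)

theorem u7_abs {x y : ℤ} (hx : 1 ≤ x) : |x * y| = x * |y| := by
  rw [abs_mul, abs_of_pos (by omega)]

theorem u7_sq1 {x : ℤ} (hx : 1 ≤ x) : 0 ≤ x ^ 2 - 1 := by nlinarith

theorem u7_sqeq {x y : ℤ} (hx : 1 ≤ x) (hy : 1 ≤ y) (h : x * x = y * y) : x = y := by
  rcases mul_self_eq_mul_self_iff.mp h with h | h
  · exact h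
  · omega

theorem u7_nadj (hB : Base 4 α b) (hF : PathF 4 α b p F) {u v : ℕ} (hu : u ≤ 4) (hv : v ≤ 4)
    (h : F u v = 0) : ¬ u7_A (p u) (p v) := by
  rintro (e | e)
  · exact hF.ne_zero hB hu hv e h
  · exact hF.ne_zero hB hv hu e (by rw [hF.symm]; exact h)

theorem u7_Z (hB : Base 4 α b) (hF : PathF 4 α b p F) {u v : ℕ} (hu : u ≤ 4) (hv : v ≤ 4)
    (huv : u ≠ v) (h : ¬ u7_A (p u) (p v)) : F u v = 0 := by
  by_contra hne
  exact h (u7_adj hB hF hu hv huv hne)

theorem U7 (hB : Base 4 α b) (hF : PathF 4 α b p F) (h1 : F 0 1 = 0)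
    (h2 : F 0 2 = 0) (h3 : F 0 3 ≠ 0) (h4 : F 0 4 ≠ 0) :
    Three 4 α ∨ (α 1 = α 3 ∧ α 2 = α 4) := by
  obtain ⟨b1, b2, b3, b4, a0, a1, a2, a3, a4, r11, r12, r13, r14, r22, r23, r24, r33, r34, r44,
    s10, s20, s30, s40, s21, s31, s41, s32, s42, s43⟩ := u7_eqs hB hF
  obtain ⟨⟨l0, l1, l2, l3, l4⟩, dd⟩ := u7_pos hF
  obtain ⟨d01, d02, d03, d04, d12, d13, d14, d23, d24, d34⟩ := id dd
  have z34 : F 3 4 = 0 := hF.tri hB (u := 3) (v := 0) (w := 4) (by norm_num) (by norm_num)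
    (by norm_num) (by norm_num) (by norm_num) (by norm_num) (by rw [s30]; exact h3) h4
  rw [h1, h2] at r12
  rw [h2] at r13 r22
  rw [z34] at r34
  have f12 : F 1 2 = b 3 * F 0 3 := by rw [r12]; ring
  have n12 : F 1 2 ≠ 0 := by
    rw [f12]; exact mul_ne_zero (by linarith) h3
  have e03 := u7_adj hB hF (u := 0) (v := 3) (by norm_num) (by norm_num) (by norm_num) h3
  have e04 := u7_adj hB hF (u := 0) (v := 4) (by norm_num) (by norm_num) (by norm_num) h4
  have e12 := u7_adj hB hF (u := 1) (v := 2) (by norm_num) (by norm_num) (by norm_num) n12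
  have T : ∀ {i j k : ℕ}, i ≤ 4 → j ≤ 4 → k ≤ 4 → i ≠ j → j ≠ k → i ≠ k → α i = α j →
      α j = α k → Three 4 α := fun hi hj hk x y z e f => three_of α hi hj hk x y z e f
  by_cases n13 : F 1 3 = 0
  · by_cases n14 : F 1 4 = 0
    ·
      rw [n13, n14] at r24
      have g24 : b 2 * F 2 4 = - F 0 4 := by rw [r24]; ring
      have n24 : F 2 4 ≠ 0 := by
        intro z
        rw [z] at g24
        apply h4
        linarith
      have e24 := u7_adj hB hF (u := 2) (v := 4) (by norm_num) (by norm_num) (by norm_num) n24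
      have P := u7_chain l3 l1 e03.symm e04 e24.symm e12.symm d34.symm.symm d02 d14.symm
      have z23 : F 2 3 = 0 := by
        apply u7_Z hB hF (by norm_num) (by norm_num) (by norm_num)
        unfold u7_A
        omega
      rw [z23, n13, n14, f12] at r23
      have hb3 : b 3 = 1 := by
        have h0 : (b 3 - 1) * ((b 3 + 1) * F 0 3) = 0 := by linear_combination -r23
        rcases mul_eq_zero.mp h0 with h | h
        · linarith
        · rcases mul_eq_zero.mp h with h | h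
          · linarith
          · exact absurd h h3
      rw [z23, n14] at r34
      have hα42 : α 4 = α 2 := by
        have h0 : (α 4 - α 2) * F 2 4 = 0 := by linear_combination -r34
        rcases mul_eq_zero.mp h0 with h | h
        · linarith
        · exact absurd h n24
      have f13 : α 3 * F 0 3 = -(b 4 * F 0 4) := by rw [n13] at r13; linear_combination -r13
      have f14 : b 4 * F 0 3 = -(α 4 * F 0 4) := by rw [n14] at r14; linear_combination -r14
      have A13 := congrArg abs f13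
      rw [abs_neg, abs_mul, abs_mul, abs_of_nonneg a3, abs_of_pos (by linarith : 0 < b 4)] at A13
      have A14 := congrArg abs f14
      rw [abs_neg, abs_mul, abs_mul, abs_of_nonneg a4, abs_of_pos (by linarith : 0 < b 4)] at A14
      have A12 := congrArg abs f12
      rw [hb3, one_mul] at A12
      left
      rcases P with ⟨q3, q0, q4, q2, q1⟩ | ⟨q1, q2, q4, q0, q3⟩
      · have k03 := u7_E' hF (u := 0) (v := 3) (by norm_num) (by norm_num) q3 q0
        have k04 := u7_E hF (u := 0) (v := 4) (by norm_num) (by norm_num) q0 q4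
        have k12 := u7_E' hF (u := 1) (v := 2) (by norm_num) (by norm_num) q2 q1
        norm_num [b1] at k03 k04 k12
        rw [k12, k03] at A12
        rw [k03, k04, A12] at A13
        rw [k03, k04, A12] at A14
        have hb2 : b 2 = 1 := by
          have : b 2 * α 4 = 1 := by linarith
          exact (u7_one b2 this).1
        rw [hb2] at A13 A14
        exact T (i := 2) (j := 3) (k := 4) (by norm_num) (by norm_num) (by norm_num) (by norm_num)
          (by norm_num) (by norm_num) (by linarith) (by linarith)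
      · have k12 := u7_E hF (u := 1) (v := 2) (by norm_num) (by norm_num) q1 q2
        have k24 := u7_E hF (u := 2) (v := 4) (by norm_num) (by norm_num) q2 q4
        have k04 := u7_E' hF (u := 0) (v := 4) (by norm_num) (by norm_num) q4 q0
        have k03 := u7_E hF (u := 0) (v := 3) (by norm_num) (by norm_num) q0 q3
        norm_num [b1] at k12 k24 k04 k03
        rw [k12, k03] at A12
        rw [k04, k03, hb3, ← A12] at A13 A14
        exact T (i := 2) (j := 3) (k := 4) (by norm_num) (by norm_num) (by norm_num) (by norm_num)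
          (by norm_num) (by norm_num) (by linarith) (by linarith)
    ·
      exfalso
      have e14 := u7_adj hB hF (u := 1) (v := 4) (by norm_num) (by norm_num) (by norm_num) n14
      have P := u7_chain l3 l2 e03.symm e04 e14.symm e12 d34.symm.symm d01 d24.symm
      have z24 : F 2 4 = 0 := by
        apply u7_Z hB hF (by norm_num) (by norm_num) (by norm_num)
        unfold u7_A
        omega
      have z23 : F 2 3 = 0 := by
        apply u7_Z hB hF (by norm_num) (by norm_num) (by norm_num)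
        unfold u7_A
        omega
      rw [z24, z23] at r34
      exact n14 (u7_mul b2 (by linear_combination r34))
  ·
    have e13 := u7_adj hB hF (u := 1) (v := 3) (by norm_num) (by norm_num) (by norm_num) n13
    have P := u7_chain l4 l2 e04.symm e03 e13.symm e12 d34.symm d01 d23.symm
    have z14 : F 1 4 = 0 := by
      apply u7_Z hB hF (by norm_num) (by norm_num) (by norm_num)
      unfold u7_A
      omega
    have z24 : F 2 4 = 0 := by
      apply u7_Z hB hF (by norm_num) (by norm_num) (by norm_num)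
      unfold u7_A
      omega
    have z23 : F 2 3 = 0 := by
      apply u7_Z hB hF (by norm_num) (by norm_num) (by norm_num)
      unfold u7_A
      omega
    rw [z14, z24] at r24
    have hs : F 0 4 = b 4 * F 1 3 := by linear_combination r24
    rw [z14] at r14
    have hs' : b 4 * F 0 3 = -(α 4 * F 0 4) := by linear_combination -r14
    rw [z14, z23, f12] at r23
    have h23 : (b 3 ^ 2 - 1) * F 0 3 + (α 3 - α 1) * F 1 3 = 0 := by linear_combination -r23
    have As := congrArg abs hs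
    rw [u7_abs b4] at As
    have A12 := congrArg abs f12
    rw [u7_abs b3] at A12
    have As' := congrArg abs hs'
    rw [abs_neg, u7_abs b4, abs_mul, abs_of_nonneg a4] at As'
    rcases P with ⟨q4, q0, q3, q1, q2⟩ | ⟨q2, q1, q3, q0, q4⟩
    · left
      have k04 := u7_E' hF (u := 0) (v := 4) (by norm_num) (by norm_num) q4 q0
      have k13 := u7_E' hF (u := 1) (v := 3) (by norm_num) (by norm_num) q3 q1
      norm_num [b1] at k04 k13
      rw [k04, k13] at As
      obtain ⟨hb4, hb3⟩ := u7_one b4 As.symm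
      rw [hb3] at h23
      have h31 : α 3 = α 1 := by
        have h0 : (α 3 - α 1) * F 1 3 = 0 := by linear_combination h23
        rcases mul_eq_zero.mp h0 with h | h
        · linarith
        · exact absurd h n13
      have h30 : α 3 = 0 := by
        rw [hb4] at hs r13
        have h0 : α 3 * F 0 3 = 0 := by linear_combination -r13 - hs
        exact (mul_eq_zero.mp h0).resolve_right h3
      exact T (i := 0) (j := 1) (k := 3) (by norm_num) (by norm_num) (by norm_num) (by norm_num)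
        (by norm_num) (by norm_num) (by linarith) (by linarith)
    · right
      have k12 := u7_E' hF (u := 1) (v := 2) (by norm_num) (by norm_num) q2 q1
      have k13 := u7_E hF (u := 1) (v := 3) (by norm_num) (by norm_num) q1 q3
      have k03 := u7_E' hF (u := 0) (v := 3) (by norm_num) (by norm_num) q3 q0
      have k04 := u7_E hF (u := 0) (v := 4) (by norm_num) (by norm_num) q0 q4
      norm_num [b1] at k12 k13 k03 k04
      rw [k12, k03] at A12
      obtain ⟨hb3, -⟩ := u7_one b3 A12.symm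
      rw [k04, k13] at As
      have hb2 : b 2 = 1 := by
        have h0 : b 4 * (b 2 - 1) = 0 := by linear_combination -As
        have := u7_mul b4 h0
        linarith
      rw [k03, k04, hb3] at As'
      have hα4 : α 4 = 1 := by
        have h0 : b 4 * (α 4 - 1) = 0 := by linear_combination -As'
        have := u7_mul b4 h0
        linarith
      rw [hb3] at h23
      have h31 : α 3 = α 1 := by
        have h0 : (α 3 - α 1) * F 1 3 = 0 := by linear_combination h23
        rcases mul_eq_zero.mp h0 with h | h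
        · linarith
        · exact absurd h n13
      have f33 := u7_D hF (u := 3) (by norm_num) q3
      have f22 := u7_D hF (u := 2) (by norm_num) q2
      rw [f33, f22, z23, z24, hb3, hb2, a0] at r33
      have hf : F 1 3 = - α 2 := by linear_combination r33
      have hab : |F 1 3| = 1 := by rw [k13, hb2]
      rw [hf, abs_neg, abs_of_nonneg a2] at hab
      exact ⟨h31.symm, by rw [hab, hα4]⟩

theorem spec4 (hB : Base 4 α b) {x x' : ℕ → ℝ} {ω γ ρ p0 p1 ω' γ' : ℝ}
    (h : AWrel 4 α b x ω γ ρ p0 p1)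
    (w' : ∀ i, 1 ≤ i → i + 1 ≤ 4 → x' (i+1) + x' (i-1) = ω' * x' i + γ')
    (h3 : α 3 = 0) (h4 : α 4 = α 1)
    (hx : (x' 0 = x 0 ∧ x' 1 = x 3 ∧ x' 2 = x 2 ∧ x' 3 = x 1 ∧ x' 4 = x 4) ∨
      (x' 0 = x 4 ∧ x' 1 = x 1 ∧ x' 2 = x 2 ∧ x' 3 = x 3 ∧ x' 4 = x 0)) : Three 4 α := by
  have hinj : ∀ i ≤ 4, ∀ j ≤ 4, i ≠ j → x i ≠ x j := fun i hi j hj hij e => hij (h.inj i hi j hj e)
  have w1 := h.w1 1 (by norm_num) (by norm_num)
  have w2 := h.w1 2 (by norm_num) (by norm_num)
  have w3 := h.w1 3 (by norm_num) (by norm_num)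
  have v1 := w' 1 (by norm_num) (by norm_num)
  have v2 := w' 2 (by norm_num) (by norm_num)
  have v3 := w' 3 (by norm_num) (by norm_num)
  have q0 := h.w4 0 (by norm_num)
  have q1 := h.w4 1 (by norm_num)
  have q2 := h.w4 2 (by norm_num)
  have q3 := h.w4 3 (by norm_num)
  norm_num at w1 w2 w3 v1 v2 v3 q0 q1 q2 q3
  have a0 : (α 0 : ℝ) = 0 := by rw [hB.α0]; norm_num
  have a3 : (α 3 : ℝ) = 0 := by rw [h3]; norm_num
  have a4 : (α 4 : ℝ) = α 1 := by rw [h4]
  rw [a0] at q0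
  rw [a3] at q2 q3
  rw [a4] at q3

  have k1 : ω * (x 1 - x 2) = -(ω' * (x 2 - x 3)) := by
    rcases hx with ⟨e0, e1, e2, e3, e4⟩ | ⟨e0, e1, e2, e3, e4⟩
    · rw [e0, e1, e2] at v1
      rw [e1, e2, e3] at v2
      linear_combination -w1 + w2 + v1 - v2
    · rw [e4, e2, e3] at v3
      rw [e1, e2, e3] at v2
      linear_combination -w1 + w2 + v3 - v2
  have k2 : ω * (x 2 - x 3) = -(ω' * (x 1 - x 2)) := by
    rcases hx with ⟨e0, e1, e2, e3, e4⟩ | ⟨e0, e1, e2, e3, e4⟩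
    · rw [e2, e3, e4] at v3
      rw [e1, e2, e3] at v2
      linear_combination -w2 + w3 + v2 - v3
    · rw [e0, e1, e2] at v1
      rw [e1, e2, e3] at v2
      linear_combination -w2 + w3 + v2 - v1
  have k3 : ω * ((x 1 - x 2) - (x 2 - x 3)) * ((x 1 - x 2) + (x 2 - x 3)) = 0 := by
    linear_combination (x 1 - x 2) * k1 - (x 2 - x 3) * k2
  have hω : ω ≠ 0 := by
    intro h0
    rw [h0] at w1 w3
    exact hinj 0 (by norm_num) 4 (by norm_num) (by norm_num) (by linarith)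
  have hg : x 1 - x 2 = x 2 - x 3 := by
    rcases mul_eq_zero.mp k3 with h0 | h0
    · rcases mul_eq_zero.mp h0 with h0 | h0
      · exact absurd h0 hω
      · linarith
    · exact absurd (by linarith : x 1 = x 3) (hinj 1 (by norm_num) 3 (by norm_num) (by norm_num))
  have hg0 : x 1 - x 2 ≠ 0 := fun h0 =>
    hinj 1 (by norm_num) 2 (by norm_num) (by norm_num) (by linarith)
  have g0 : x 0 - x 1 = (ω - 1) * (x 1 - x 2) := by linear_combination w1 - w2 + hg
  have g3 : x 3 - x 4 = (ω - 1) * (x 1 - x 2) := by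
    linear_combination w2 - w3 - ω * hg
  have E1 : ((α 1 : ℝ) - γ) * ω * (x 1 - x 2) = α 2 * (x 1 - x 2) := by
    linear_combination q0 - q1 - ((α 1 : ℝ) - γ) * g0 - (α 2 : ℝ) * hg + (α 2 : ℝ) * w2
  have E2 : -((α 2 : ℝ) * (x 1 - x 2)) - γ * ω * (x 1 - x 2) + α 1 * (x 1 - x 2)
      - α 1 * ω * (ω - 1) * (x 1 - x 2) = 0 := by
    linear_combination q2 - q3 - (α 2 : ℝ) * w2 - γ * hg + γ * g3 + (α 1 : ℝ) * w3
      + (α 1 : ℝ) * hg + (α 1 : ℝ) * ω * g3
  have key : (α 1 : ℝ) * ((ω - 1) * (ω + 1)) * (x 1 - x 2) = 0 := by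
    linear_combination E1 - E2
  rcases mul_eq_zero.mp key with h0 | h0
  · rcases mul_eq_zero.mp h0 with h0 | h0
    · have hα1 : α 1 = 0 := by exact_mod_cast h0
      exact three_of α (i := 0) (j := 1) (k := 3) (by norm_num) (by norm_num) (by norm_num)
        (by norm_num) (by norm_num) (by norm_num) (by rw [hB.α0, hα1]) (by rw [hα1, h3])
    · rcases mul_eq_zero.mp h0 with h0 | h0
      · rw [h0] at g0
        exact absurd (by linarith : x 0 = x 1) (hinj 0 (by norm_num) 1 (by norm_num) (by norm_num))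
      · have h1 : ω = -1 := by linarith
        rw [h1] at g0
        exact absurd (by linarith : x 0 = x 3) (hinj 0 (by norm_num) 3 (by norm_num) (by norm_num))
  · exact absurd h0 hg0

end LS
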