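import Pool.Agent.LS.Core
import Pool.Agent.LS.PT
import Pool.Agent.LS.W0
import Pool.Agent.LS.W1
import Pool.Agent.LS.W2
import Pool.Agent.LS.GA5
import Pool.Agent.LS.AW2
import Pool.Agent.LS.CH1
import Pool.Agent.LS.Q2
import Pool.Agent.LS.U2
import Pool.Agent.LS.U4
import Pool.Agent.LS.U5
import Pool.Agent.LS.U7

/-! Part `U8` of the classification of self-dual Leonard systems with integral normalized
intersection numbers (MP_963a96_al). -/
open Finset
namespace LS

variable {α b : ℕ → ℤ} {p : ℕ → ℕ} {F : ℕ → ℕ → ℤ}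

variable {lam : ℕ → ℝ} {S : ℕ → ℕ → ℝ} {N : ℕ → ℕ → ℕ → ℤ} {π : ℕ → ℕ} {ε : ℕ → ℤ}

theorem u8_deg (hB : Base 4 α b) (hF : PathF 4 α b p F) {v w t : ℕ} (hv : v ≤ 4) (hw : w ≤ 4)
    (ht : t ≤ 4) (h1 : 0 ≠ v) (h2 : 0 ≠ w) (h3 : 0 ≠ t) (h4 : v ≠ w) (h5 : v ≠ t) (h6 : w ≠ t)
    (hv0 : F 0 v ≠ 0) (hw0 : F 0 w ≠ 0) : F 0 t = 0 :=
  hF.deg hB (by norm_num) hv hw ht h1 h2 h3 h4 h5 h6 hv0 hw0

theorem U8 (h : Ctx 4 α b lam S N π ε p F) (hM : ∃ v, 2 ≤ v ∧ v ≤ 4 ∧ F 0 v ≠ 0) :
    Three 4 α := by
  have hB := h.str.base
  have hF := h.path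
  obtain ⟨γ, ρ, p0, p1, hAW⟩ := aw_rel hB h.str.weak (by norm_num)
  have Z := lemma_Z hB hAW (by norm_num)
  by_cases h4 : F 0 4 = 0
  · by_cases h3 : F 0 3 = 0
    · have h2 : F 0 2 ≠ 0 := by
        obtain ⟨v, hv2, hv4, hv⟩ := hM
        interval_cases v
        · exact hv
        · exact absurd h3 hv
        · exact absurd h4 hv
      have h0 : ∀ v, 3 ≤ v → v ≤ 4 → F 0 v = 0 := by
        intro v hv3 hv4
        interval_cases v
        · exact h3
        · exact h4
      obtain ⟨e13, e2⟩ := U1 hB hF h2 h0
      rcases e2 with e2 | e2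
      · have := Z 1 (by norm_num) (by norm_num) (by norm_num; rw [hB.α0, e2]) (by norm_num; exact e13)
        norm_num at this
        exact three_of α (i := 0) (j := 1) (k := 2) (by norm_num) (by norm_num) (by norm_num)
          (by norm_num) (by norm_num) (by norm_num) this (by rw [← this, hB.α0, e2])
      · have := Z 2 (by norm_num) (by norm_num) (by norm_num; exact e13) (by norm_num; exact e2)
        norm_num at this
        exact three_of α (i := 1) (j := 2) (k := 3) (by norm_num) (by norm_num) (by norm_num)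
          (by norm_num) (by norm_num) (by norm_num) this (by rw [← this, e13])
    · by_cases h2 : F 0 2 = 0
      · by_cases h1 : F 0 1 = 0
        · obtain ⟨a3, a4, hp⟩ := U2 hB hF h1 h2 h3 h4
          have hW' := conj_weak h.str.weak h.str.pos h.gal h.tw
          obtain ⟨γ', ρ', p0', p1', hAW'⟩ := aw_rel hB hW' (by norm_num)
          refine spec4 (x' := fun j => lam (π j)) hB hAW hAW'.w1 a3 a4 ?_
          have π0 := h.πp 0 (by norm_num)
          have π1 := h.πp 1 (by norm_num)
          have π2 := h.πp 2 (by norm_num)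
          have π3 := h.πp 3 (by norm_num)
          have π4 := h.πp 4 (by norm_num)
          rcases hp with ⟨q0, q3, q2, q1, q4⟩ | ⟨q4, q1, q2, q3, q0⟩
          · left
            rw [q0] at π0
            rw [q1] at π1
            rw [q2] at π2
            rw [q3] at π3
            rw [q4] at π4
            simp only [π0, π1, π2, π3, π4, and_self]
          · right
            rw [q0] at π0
            rw [q1] at π1
            rw [q2] at π2
            rw [q3] at π3
            rw [q4] at π4
            simp only [π0, π1, π2, π3, π4, and_self]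
        · exact U3 hB hF h1 h2 h3 h4
      · have h1 : F 0 1 = 0 := u8_deg hB hF (v := 2) (w := 3) (t := 1) (by norm_num) (by norm_num)
          (by norm_num) (by norm_num) (by norm_num) (by norm_num) (by norm_num) (by norm_num)
          (by norm_num) h2 h3
        rcases U4 hB hF h1 h2 h3 h4 with k | k
        · exact k
        · have z := pers_zero h.str k
          exact three_of α (i := 0) (j := 1) (k := 2) (by norm_num) (by norm_num) (by norm_num)
            (by norm_num) (by norm_num) (by norm_num) (by rw [z, z]) (by rw [z, z])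
  · by_cases h3 : F 0 3 = 0
    · by_cases h2 : F 0 2 = 0
      · by_cases h1 : F 0 1 = 0
        · exact U5 hB hF h1 h2 h3 h4
        · exact U6 hB hF (Or.inl ⟨h1, h2⟩) h3 h4
      · have h1 : F 0 1 = 0 := u8_deg hB hF (v := 2) (w := 4) (t := 1) (by norm_num) (by norm_num)
          (by norm_num) (by norm_num) (by norm_num) (by norm_num) (by norm_num) (by norm_num)
          (by norm_num) h2 h4
        exact U6 hB hF (Or.inr ⟨h1, h2⟩) h3 h4
    · have h1 : F 0 1 = 0 := u8_deg hB hF (v := 3) (w := 4) (t := 1) (by norm_num) (by norm_num)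
        (by norm_num) (by norm_num) (by norm_num) (by norm_num) (by norm_num) (by norm_num)
        (by norm_num) h3 h4
      have h2 : F 0 2 = 0 := u8_deg hB hF (v := 3) (w := 4) (t := 2) (by norm_num) (by norm_num)
        (by norm_num) (by norm_num) (by norm_num) (by norm_num) (by norm_num) (by norm_num)
        (by norm_num) h3 h4
      rcases U7 hB hF h1 h2 h3 h4 with k | ⟨e13, e24⟩
      · exact k
      · have := Z 2 (by norm_num) (by norm_num) (by norm_num; exact e13) (by norm_num; exact e24)
        norm_num at this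
        exact three_of α (i := 1) (j := 2) (k := 3) (by norm_num) (by norm_num) (by norm_num)
          (by norm_num) (by norm_num) (by norm_num) this (by rw [← this, e13])

end LS
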