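import Pool.Agent.LS.Core
import Pool.Agent.LS.PT
import Pool.Agent.LS.W1

/-! Part `V11` of the classification of self-dual Leonard systems with integral normalized
intersection numbers (MP_963a96_al). -/
open Finset
namespace LS

variable {α b : ℕ → ℤ} {p : ℕ → ℕ} {F : ℕ → ℕ → ℤ}

variable {lam : ℕ → ℝ} {S : ℕ → ℕ → ℝ} {N : ℕ → ℕ → ℕ → ℤ}

theorem spec5N (h : Str 5 α b lam S N)
    (hs : α 3 = α 1 ∧ α 5 = α 2 ∧ b 4 = 1 ∧ b 5 = b 3 ∧ α 4 = b 2 ∧ b 2 * α 2 = b 3 ^ 2) :
    Three 5 α := by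
  obtain ⟨h3, h5, hb4, hb5, h4, hX⟩ := hs
  obtain ⟨s1, s2⟩ := N_symm h
  have hz := N_zero h
  have ho := N_one h
  have r := N_rec h
  have hb1 := h.base.b1
  have hb6 : b 6 = 0 := h.base.bout 6 (by norm_num)
  have hb2 := h.base.bpos 2 (by norm_num) (by norm_num)
  have hb3 := h.base.bpos 3 (by norm_num) (by norm_num)
  have hA0 := h.base.αnn 1
  have hα0 := h.base.α0
  have z24 : N 0 2 4 = 0 := by have := hz 2 (by norm_num) 4 (by norm_num); simpa using this
  have z55 : N 0 5 5 = 1 := by have := hz 5 (by norm_num) 5 (by norm_num); simpa using this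
  have z34 : N 0 3 4 = 0 := by have := hz 3 (by norm_num) 4 (by norm_num); simpa using this
  have z44 : N 0 4 4 = 1 := by have := hz 4 (by norm_num) 4 (by norm_num); simpa using this
  have z45 : N 0 4 5 = 0 := by have := hz 4 (by norm_num) 5 (by norm_num); simpa using this
  have z35 : N 0 3 5 = 0 := by have := hz 3 (by norm_num) 5 (by norm_num); simpa using this
  have o14 : N 1 1 4 = 0 := by have := ho 1 (by norm_num) 4 (by norm_num); simpa [Te] using this
  have o24 : N 1 2 4 = 0 := by have := ho 2 (by norm_num) 4 (by norm_num); simpa [Te] using this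
  have o25 : N 1 2 5 = 0 := by have := ho 2 (by norm_num) 5 (by norm_num); simpa [Te] using this
  have o34 : N 1 3 4 = 1 := by
    have := ho 3 (by norm_num) 4 (by norm_num); rw [← hb4]; simpa [Te] using this
  have o35 : N 1 3 5 = 0 := by have := ho 3 (by norm_num) 5 (by norm_num); simpa [Te] using this
  have o44 : N 1 4 4 = b 2 := by
    have := ho 4 (by norm_num) 4 (by norm_num); rw [← h4]; simpa [Te] using this
  have o45 : N 1 4 5 = b 3 := by
    have := ho 4 (by norm_num) 5 (by norm_num); rw [← hb5]; simpa [Te] using this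
  have o54 : N 1 5 4 = b 3 := by rw [s2 1 5 4]; exact o45
  have o55 : N 1 5 5 = α 2 := by
    have := ho 5 (by norm_num) 5 (by norm_num); rw [← h5]; simpa [Te] using this
  have e124 := r 1 (by norm_num) 2 (by norm_num) 4 (by norm_num)
  have e155 := r 1 (by norm_num) 5 (by norm_num) 5 (by norm_num)
  norm_num at e124 e155
  rw [hb1, z24, o24, o14, o34] at e124
  rw [hb1, z55, o55, o45, hb5, h5, hb6] at e155
  have d1 : b 2 ∣ b 3 := ⟨N 2 2 4, by linarith⟩
  obtain ⟨t, ht⟩ := d1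
  have hX2 : α 2 = b 2 * (t ^ 2) := by
    have : b 2 * α 2 = b 2 * (b 2 * t ^ 2) := by rw [hX, ht]; ring
    exact mul_left_cancel₀ (by omega) this
  have d2 : b 2 ∣ 1 := by
    refine ⟨b 3 * t + α 2 * t ^ 2 - α 1 * t ^ 2 - N 2 5 5, ?_⟩
    have e : b 2 * (b 3 * t) = b 3 * b 3 := by rw [show b 2 * (b 3 * t) = b 3 * (b 2 * t) by ring, ← ht]
    have e' : b 2 * (α 2 * t ^ 2) = α 2 * α 2 := by
      rw [show b 2 * (α 2 * t ^ 2) = α 2 * (b 2 * t ^ 2) by ring, ← hX2]
    have e'' : b 2 * (α 1 * t ^ 2) = α 1 * α 2 := by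
      rw [show b 2 * (α 1 * t ^ 2) = α 1 * (b 2 * t ^ 2) by ring, ← hX2]
    rw [mul_sub, mul_sub, mul_add, e, e', e'']
    linarith
  have hβ : b 2 = 1 := by
    have := Int.le_of_dvd (by norm_num) d2
    omega
  rw [hβ] at e124 e155 o44 hX h4
  have hX1 : α 2 = b 3 ^ 2 := by linarith
  rw [hX1] at e155 o55 h5
  have n224 : N 2 2 4 = b 3 := by linarith
  have n255 : N 2 5 5 = b 3 ^ 2 + b 3 ^ 4 - α 1 * b 3 ^ 2 - 1 := by linear_combination e155
  have e134 := r 1 (by norm_num) 3 (by norm_num) 4 (by norm_num)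
  have e144 := r 1 (by norm_num) 4 (by norm_num) 4 (by norm_num)
  have e145 := r 1 (by norm_num) 4 (by norm_num) 5 (by norm_num)
  have e135 := r 1 (by norm_num) 3 (by norm_num) 5 (by norm_num)
  have e244 := r 2 (by norm_num) 4 (by norm_num) 4 (by norm_num)
  have e245 := r 2 (by norm_num) 4 (by norm_num) 5 (by norm_num)
  have e234 := r 2 (by norm_num) 3 (by norm_num) 4 (by norm_num)
  have e344 := r 3 (by norm_num) 4 (by norm_num) 4 (by norm_num)
  norm_num at e134 e144 e145 e135 e244 e245 e234 e344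
  rw [hb1, z34, o34, hβ, o24, hb4, o44, h3] at e134
  rw [hb1, z44, o44, hβ, hb4, o34, h4, hb5, o54] at e144
  rw [hb1, z45, o45, hβ, hb4, o35, h4, hb5, o55] at e145
  rw [hb1, z35, o35, hβ, o25, hb4, o45, h3] at e135
  have n234 : N 2 3 4 = 1 := by linarith
  have n244 : N 2 4 4 = 1 + b 3 ^ 2 - α 1 := by linear_combination e144
  have n245 : N 2 4 5 = b 3 * (1 + b 3 ^ 2 - α 1) := by linear_combination e145
  have n254 : N 2 5 4 = b 3 * (1 + b 3 ^ 2 - α 1) := by rw [s2 2 5 4]; exact n245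
  have n235 : N 2 3 5 = b 3 := by linarith
  rw [hβ, o44, hX1, n244, hb4, n234, h4, hb5, n254] at e244
  rw [hβ, o45, hX1, n245, hb4, n235, h4, hb5, n255] at e245
  rw [hβ, o34, hX1, n234, n224, h3, hb4, n244] at e234
  have hc0 : b 3 ≠ 0 := by omega
  have n344 : b 3 * N 3 4 4 = 1 + b 3 ^ 2 - α 1 := by linear_combination e244
  have n345 : N 3 4 5 = b 3 ^ 2 - α 1 := by
    apply mul_left_cancel₀ hc0
    linear_combination e245
  have n354 : N 3 5 4 = b 3 ^ 2 - α 1 := by rw [s2 3 5 4]; exact n345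
  have n334 : N 3 3 4 = b 3 := by
    apply mul_left_cancel₀ hc0
    linear_combination e234
  rw [n244, h3, hb4, n334, h4, hb5, n354] at e344
  have n444 : N 4 4 4 = (1 - α 1) * N 3 4 4 := by linear_combination e344
  have p255 := h.Nnn 2 5 5
  have p444 := h.Nnn 4 4 4
  have hA : α 1 ≤ b 3 ^ 2 := by
    by_contra hcon
    have h1 : b 3 ^ 2 + 1 ≤ α 1 := by omega
    have h2 : 0 ≤ (α 1 - (b 3 ^ 2 + 1)) * b 3 ^ 2 := mul_nonneg (by linarith) (sq_nonneg _)
    rw [n255] at p255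
    nlinarith
  have p344 : 1 ≤ N 3 4 4 := by
    by_contra hcon
    have h1 : N 3 4 4 ≤ 0 := by omega
    have h2 : b 3 * N 3 4 4 ≤ 0 := mul_nonpos_of_nonneg_of_nonpos (by omega) h1
    linarith
  have hA1 : α 1 ≤ 1 := by
    by_contra hcon
    have h1 : 1 - α 1 ≤ -1 := by omega
    rw [n444] at p444
    nlinarith
  rcases (show α 1 = 0 ∨ α 1 = 1 by omega) with h0 | h0
  · exact ⟨0, 1, 3, by norm_num, by norm_num, by norm_num, by omega, by omega⟩
  · exact ⟨1, 3, 4, by norm_num, by norm_num, by norm_num, by omega, by omega⟩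

theorem spec5w (x x' : ℕ → ℝ) (ω γ ω' γ' : ℝ) (hinj : ∀ i ≤ 5, ∀ j ≤ 5, x i = x j → i = j)
    (w : ∀ i, 1 ≤ i → i + 1 ≤ 5 → x (i+1) + x (i-1) = ω * x i + γ)
    (w' : ∀ i, 1 ≤ i → i + 1 ≤ 5 → x' (i+1) + x' (i-1) = ω' * x' i + γ')
    (hx : (x' 0 = x 0 ∧ x' 1 = x 4 ∧ x' 2 = x 2 ∧ x' 3 = x 3 ∧ x' 4 = x 1 ∧ x' 5 = x 5) ∨
      (x' 0 = x 5 ∧ x' 1 = x 1 ∧ x' 2 = x 3 ∧ x' 3 = x 2 ∧ x' 4 = x 4 ∧ x' 5 = x 0)) : False := by
  have w1 := w 1 (by norm_num) (by norm_num)
  have w2 := w 2 (by norm_num) (by norm_num)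
  have w3 := w 3 (by norm_num) (by norm_num)
  have w4 := w 4 (by norm_num) (by norm_num)
  have v1 := w' 1 (by norm_num) (by norm_num)
  have v2 := w' 2 (by norm_num) (by norm_num)
  have v3 := w' 3 (by norm_num) (by norm_num)
  have v4 := w' 4 (by norm_num) (by norm_num)
  norm_num at w1 w2 w3 w4 v1 v2 v3 v4
  have n23 : x 2 - x 3 ≠ 0 := fun hc => by
    have := hinj 2 (by norm_num) 3 (by norm_num) (by linarith); omega
  have n03 : x 0 - x 3 ≠ 0 := fun hc => by
    have := hinj 0 (by norm_num) 3 (by norm_num) (by linarith); omega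
  have a0 : x 0 - x 3 = (ω + 1) * (x 1 - x 2) := by linear_combination w1 - w2
  have a1 : x 1 - x 4 = (ω + 1) * (x 2 - x 3) := by linear_combination w2 - w3
  have a2 : x 2 - x 5 = (ω + 1) * (x 3 - x 4) := by linear_combination w3 - w4
  have c0 : x' 0 - x' 3 = (ω' + 1) * (x' 1 - x' 2) := by linear_combination v1 - v2
  have c1 : x' 1 - x' 4 = (ω' + 1) * (x' 2 - x' 3) := by linear_combination v2 - v3
  have c2 : x' 2 - x' 5 = (ω' + 1) * (x' 3 - x' 4) := by linear_combination v3 - v4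
  have he : ω + 1 ≠ 0 := fun hc => by rw [hc, zero_mul] at a0; exact n03 a0
  rcases hx with ⟨h0, h1, h2, h3, h4, h5⟩ | ⟨h0, h1, h2, h3, h4, h5⟩
  · rw [h1, h4, h2, h3] at c1
    rw [h0, h3, h1, h2] at c0
    rw [h2, h5, h3, h4] at c2
    have hee : ω' + 1 = -(ω + 1) := by
      apply mul_right_cancel₀ n23
      linear_combination -c1 - a1
    rw [hee] at c0 c2
    have e1 : x 1 + x 4 - 2 * x 2 = 0 := by
      have : (ω + 1) * (x 1 + x 4 - 2 * x 2) = 0 := by linear_combination c0 - a0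
      exact (mul_eq_zero.mp this).resolve_left he
    have e2 : x 1 + x 4 - 2 * x 3 = 0 := by
      have : (ω + 1) * (x 1 + x 4 - 2 * x 3) = 0 := by linear_combination a2 - c2
      exact (mul_eq_zero.mp this).resolve_left he
    apply n23
    linarith
  · rw [h1, h4, h2, h3] at c1
    rw [h0, h3, h1, h2] at c0
    rw [h2, h5, h3, h4] at c2
    have hee : ω' + 1 = -(ω + 1) := by
      apply mul_right_cancel₀ n23
      linear_combination c1 - a1
    rw [hee] at c0 c2
    have e1 : x 1 + x 4 - 2 * x 2 = 0 := by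
      have : (ω + 1) * (x 1 + x 4 - 2 * x 2) = 0 := by linear_combination -c2 - a0
      exact (mul_eq_zero.mp this).resolve_left he
    have e2 : x 1 + x 4 - 2 * x 3 = 0 := by
      have : (ω + 1) * (x 1 + x 4 - 2 * x 3) = 0 := by linear_combination c0 + a2
      exact (mul_eq_zero.mp this).resolve_left he
    apply n23
    linarith

end LS
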