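import Pool.Agent.LS.Core
import Pool.Agent.LS.PT

/-! Part `V3` of the classification of self-dual Leonard systems with integral normalized
intersection numbers (MP_963a96_al). -/
open Finset
namespace LS

variable {α b : ℕ → ℤ} {p : ℕ → ℕ} {F : ℕ → ℕ → ℤ}

theorem v3_ne {a s : ℤ} (ha : 1 ≤ a) (hs : s ≠ 0) : a * s ≠ 0 :=
  mul_ne_zero (by omega) hs

theorem V3 (hB : Base 5 α b) (hF : PathF 5 α b p F) (h1 : F 0 1 ≠ 0)
    (h2 : F 0 2 = 0) (h3 : F 0 3 ≠ 0) (h4 : F 0 4 = 0) (h5 : F 0 5 = 0) : Three 5 α := by
  have b1 := hB.b1
  have p2 := hB.bpos 2 (by omega) (by omega)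
  have p3 := hB.bpos 3 (by omega) (by omega)
  have p4 := hB.bpos 4 (by omega) (by omega)
  have p5 := hB.bpos 5 (by omega) (by omega)
  have b6 : b 6 = 0 := hB.bout 6 (by omega)
  have F11 : F 1 1 = F 0 0 + α 1 * F 0 1 := by
    have e := PathF.recur0 hB hF 1 (by omega)
    norm_num [h2, b1] at e
    exact e
  have F12 : F 1 2 = b 2 * F 0 1 + b 3 * F 0 3 := by
    have e := PathF.recur0 hB hF 2 (by omega)
    norm_num [h2] at e
    exact e
  have F13 : F 1 3 = α 3 * F 0 3 := by
    have e := PathF.recur0 hB hF 3 (by omega)
    norm_num [h2, h4] at e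
    exact e
  have F14 : F 1 4 = b 4 * F 0 3 := by
    have e := PathF.recur0 hB hF 4 (by omega)
    norm_num [h4, h5] at e
    exact e
  have F15 : F 1 5 = 0 := by
    have e := PathF.recur0 hB hF 5 (by omega)
    norm_num [h4, h5, b6] at e
    exact e
  have n14 : F 1 4 ≠ 0 := by rw [F14]; exact v3_ne p4 h3
  have n10 : F 1 0 ≠ 0 := by rw [hF.symm]; exact h1
  have z12 : F 1 2 = 0 := PathF.deg hB hF (by omega) (by omega) (by omega) (by omega) (by omega)
    (by omega) (by omega) (by omega) (by omega) (by omega) n10 n14
  have z13 : F 1 3 = 0 := PathF.deg hB hF (by omega) (by omega) (by omega) (by omega) (by omega)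
    (by omega) (by omega) (by omega) (by omega) (by omega) n10 n14
  have a3 : α 3 = 0 := by
    rw [F13] at z13
    rcases mul_eq_zero.mp z13 with h | h
    · exact h
    · exact absurd h h3
  have eF12 : b 2 * F 0 1 + b 3 * F 0 3 = 0 := by rw [← F12]; exact z12
  have F22 : F 2 2 = F 1 1 := by
    have e := PathF.recur1 hB hF 2 (by omega)
    norm_num [z12, z13, h2] at e
    rcases e with e | e
    · exact e
    · omega
  have F23 : b 2 * F 2 3 = (b 4 ^ 2 - 1) * F 0 3 := by
    have e := PathF.recur1 hB hF 3 (by omega)
    norm_num [z12, z13, F14] at e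
    linear_combination e
  have F24 : b 2 * F 2 4 = (α 4 - α 1) * F 1 4 := by
    have e := PathF.recur1 hB hF 4 (by omega)
    norm_num [z13, F15, h4] at e
    exact e
  have F25 : b 2 * F 2 5 = b 5 * F 1 4 := by
    have e := PathF.recur1 hB hF 5 (by omega)
    norm_num [F15, h5, b6] at e
    exact e
  have n25 : F 2 5 ≠ 0 := by
    intro h
    rw [h, mul_zero] at F25
    exact v3_ne p5 n14 F25.symm
  have F33 : b 3 * F 3 3 = b 3 * F 2 2 - α 2 * F 2 3 + b 4 * F 2 4 := by
    have e := PathF.recurk hB hF 2 (by omega) 3 (by omega)
    norm_num [z13, a3] at e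
    linear_combination e
  have F34 : b 3 * F 3 4 = b 4 * F 2 3 + (α 4 - α 2) * F 2 4 + b 5 * F 2 5 - b 2 * F 1 4 :=
    PathF.recurk hB hF 2 (by omega) 4 (by omega)
  have n30 : F 3 0 ≠ 0 := by rw [hF.symm]; exact h3
  have z34 : F 3 4 = 0 := by
    by_contra hne
    have hm := PathF.mono hB hF 3 (fun i => if i = 0 then 3 else if i = 1 then 0 else
      if i = 2 then 1 else 4)
      (by intro i hi; interval_cases i <;> simp)
      (by intro i hi j hj; interval_cases i <;> interval_cases j <;> simp)
      (by
        intro i hi
        interval_cases i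
        · simpa using n30
        · simpa using h1
        · simpa using n14)
    have ha := PathF.adj hB hF (u := 3) (v := 4) (by omega) (by omega) (by omega) hne
    rcases hm with hm | hm
    · have q := hm 3 (by omega)
      norm_num at q
      rcases ha with ha | ha <;> omega
    · have q := hm 3 (by omega)
      norm_num at q
      rcases ha with ha | ha <;> omega
  have dg0 := hF.diag 0 (by omega)
  have dg1 := hF.diag 1 (by omega)
  have dg2 := hF.diag 2 (by omega)
  have dg3 := hF.diag 3 (by omega)
  by_cases z23 : F 2 3 = 0
  · have hb4 : b 4 = 1 := by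
      rw [z23, mul_zero] at F23
      rcases mul_eq_zero.mp F23.symm with h | h
      · have : (b 4 - 1) * (b 4 + 1) = 0 := by linear_combination h
        rcases mul_eq_zero.mp this with h | h <;> omega
      · exact absurd h h3
    by_cases z24 : F 2 4 = 0
    · rw [z23, z24, mul_zero, mul_zero, sub_zero, add_zero] at F33
      have e33 : F 3 3 = F 2 2 := mul_left_cancel₀ (by omega) F33
      exact PathF.three hF (u := 1) (v := 2) (w := 3) (by omega) (by omega) (by omega) (by omega)
        (by omega) (by omega) F22.symm e33.symm
    · have hm := PathF.mono hB hF 5 (fun i => if i = 0 then 3 else if i = 1 then 0 else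
        if i = 2 then 1 else if i = 3 then 4 else if i = 4 then 2 else 5)
        (by intro i hi; interval_cases i <;> simp)
        (by intro i hi j hj; interval_cases i <;> interval_cases j <;> simp)
        (by
          intro i hi
          interval_cases i
          · simpa using n30
          · simpa using h1
          · simpa using n14
          · simpa using (by rw [hF.symm]; exact z24 : F 4 2 ≠ 0)
          · simpa using n25)
      rcases hm with hm | hm
      · have q1 := hm 1 (by omega)
        have q2 := hm 2 (by omega)
        have q3 := hm 3 (by omega)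
        have q4 := hm 4 (by omega)
        have q5 := hm 5 (by omega)
        norm_num at q1 q2 q3 q4 q5
        have := hF.p_le 5 (by omega)
        have hp3 : p 3 = 0 := by omega
        have hp0 : p 0 = 1 := by omega
        have hp1 : p 1 = 2 := by omega
        have hp4 : p 4 = 3 := by omega
        have hp2 : p 2 = 4 := by omega
        rw [hp0] at dg0
        rw [hp1] at dg1
        rw [hp2] at dg2
        rw [hp3, hB.α0] at dg3
        have g1 := hF.edge 3 (by omega) 0 (by omega) (by omega)
        rw [hp0, b1, hF.symm] at g1
        have g2 := hF.edge 0 (by omega) 1 (by omega) (by omega)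
        rw [hp1] at g2
        have g3 := hF.edge 1 (by omega) 4 (by omega) (by omega)
        rw [hp4, F14, hb4, one_mul, g1] at g3
        have g4 : b 2 * |F 0 1| = b 3 * |F 0 3| := by
          have h : |b 2 * F 0 1| = |b 3 * F 0 3| := by
            rw [← abs_neg (b 3 * F 0 3)]; congr 1; linarith
          rw [abs_mul, abs_mul, abs_of_pos (by omega : 0 < b 2),
            abs_of_pos (by omega : 0 < b 3)] at h
          exact h
        rw [g2, g1, ← g3] at g4
        have hb2 : b 2 = 1 := by
          rcases Int.isUnit_iff.mp (IsUnit.of_mul_eq_one _ (by rw [g4]; norm_num : b 2 * b 2 = 1))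
            with h | h
          · exact h
          · omega
        rw [hb2] at g2 F24 eF12
        rw [← g3] at F33 eF12
        rw [dg3, z23, hb4] at F33
        rw [F14, hb4] at F24
        have hs : F 0 3 = - F 0 1 := by linarith
        have hc : F 0 1 = 1 ∨ F 0 1 = -1 := by
          rcases abs_choice (F 0 1) with h | h <;> omega
        rcases hc with hc | hc
        · rw [hc] at hs F11
          rw [hs] at F24
          have k1 : α 2 = 2 * α 1 := by linarith
          have k2 : α 4 = 2 * α 1 := by linarith
          have k3 : α 1 = 0 := by linarith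
          exact three_of α (i := 0) (j := 1) (k := 2) (by omega) (by omega) (by omega) (by omega)
            (by omega) (by omega) (by rw [hB.α0, k3]) (by rw [k1, k3]; rfl)
        · rw [hc] at F11
          have k1 : α 2 = 0 := by linarith
          have k2 : α 4 = 0 := by linarith
          exact three_of α (i := 0) (j := 2) (k := 4) (by omega) (by omega) (by omega) (by omega)
            (by omega) (by omega) (by rw [hB.α0, k1]) (by rw [k1, k2])
      · have q1 := hm 1 (by omega)
        have q2 := hm 2 (by omega)
        have q3 := hm 3 (by omega)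
        have q4 := hm 4 (by omega)
        have q5 := hm 5 (by omega)
        norm_num at q1 q2 q3 q4 q5
        have := hF.p_le 3 (by omega)
        have hp2 : p 2 = 1 := by omega
        have hp1 : p 1 = 3 := by omega
        rw [hp1, a3] at dg1
        rw [hp2, F22, dg1] at dg2
        exact three_of α (i := 0) (j := 1) (k := 3) (by omega) (by omega) (by omega) (by omega)
          (by omega) (by omega) (by rw [hB.α0, dg2]) (by rw [a3, dg2])
  · exfalso
    have z24 : F 2 4 = 0 := PathF.deg hB hF (by omega) (by omega) (by omega) (by omega) (by omega)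
      (by omega) (by omega) (by omega) (by omega) (by omega) z23 n25
    have hm := PathF.mono hB hF 5 (fun i => if i = 0 then 5 else if i = 1 then 2 else
      if i = 2 then 3 else if i = 3 then 0 else if i = 4 then 1 else 4)
      (by intro i hi; interval_cases i <;> simp)
      (by intro i hi j hj; interval_cases i <;> interval_cases j <;> simp)
      (by
        intro i hi
        interval_cases i
        · simpa using (by rw [hF.symm]; exact n25 : F 5 2 ≠ 0)
        · simpa using z23
        · simpa using n30
        · simpa using h1
        · simpa using n14)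
    have hb4 : b 4 ≠ 1 := by
      intro h
      rw [h] at F23
      norm_num at F23
      rcases F23 with h | h
      · omega
      · exact z23 h
    rcases hm with hm | hm
    · have q1 := hm 1 (by omega)
      have q2 := hm 2 (by omega)
      have q3 := hm 3 (by omega)
      have q4 := hm 4 (by omega)
      have q5 := hm 5 (by omega)
      norm_num at q1 q2 q3 q4 q5
      have := hF.p_le 4 (by omega)
      have hp5 : p 5 = 0 := by omega
      have hp2 : p 2 = 1 := by omega
      have hp3 : p 3 = 2 := by omega
      have hp0 : p 0 = 3 := by omega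
      have hp1 : p 1 = 4 := by omega
      have hp4 : p 4 = 5 := by omega
      have g1 := hF.edge 5 (by omega) 2 (by omega) (by omega)
      rw [hp2, b1, hF.symm] at g1
      have g2 := hF.edge 3 (by omega) 0 (by omega) (by omega)
      rw [hp0, hF.symm] at g2
      have g3 := hF.edge 0 (by omega) 1 (by omega) (by omega)
      rw [hp1] at g3
      have g4 := hF.edge 1 (by omega) 4 (by omega) (by omega)
      rw [hp4] at g4
      have g5 : b 5 = b 4 * b 3 := by
        rw [← g4, F14, abs_mul, abs_of_pos (by omega : 0 < b 4), g2]
      have g6 : b 2 = b 5 * b 5 := by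
        have h : |b 2 * F 2 5| = |b 5 * F 1 4| := by rw [F25]
        rw [abs_mul, abs_mul, abs_of_pos (by omega : 0 < b 2),
            abs_of_pos (by omega : 0 < b 5), g1, g4, mul_one] at h
        exact h
      have g7 : b 2 * b 4 = b 3 * b 3 := by
        have h : |b 2 * F 0 1| = |b 3 * F 0 3| := by
          rw [← abs_neg (b 3 * F 0 3)]; congr 1; linarith
        rw [abs_mul, abs_mul, abs_of_pos (by omega : 0 < b 2),
          abs_of_pos (by omega : 0 < b 3), g3, g2] at h
        exact h
      rw [g6, g5] at g7
      have h : (b 3 * b 3) * (b 4 * b 4 * b 4) = (b 3 * b 3) * 1 := by linear_combination g7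
      have h' : b 4 * b 4 * b 4 = 1 :=
        mul_left_cancel₀ (mul_ne_zero (by omega) (by omega)) h
      rcases Int.isUnit_iff.mp (IsUnit.of_mul_eq_one_right _ h') with h | h
      · exact hb4 h
      · omega
    · have q1 := hm 1 (by omega)
      have q2 := hm 2 (by omega)
      have q3 := hm 3 (by omega)
      have q4 := hm 4 (by omega)
      have q5 := hm 5 (by omega)
      norm_num at q1 q2 q3 q4 q5
      have := hF.p_le 5 (by omega)
      have hp4 : p 4 = 0 := by omega
      have hp1 : p 1 = 1 := by omega
      have g1 := hF.edge 4 (by omega) 1 (by omega) (by omega)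
      rw [hp1, b1, hF.symm, F14, abs_mul, abs_of_pos (by omega : 0 < b 4)] at g1
      rcases Int.isUnit_iff.mp (IsUnit.of_mul_eq_one _ g1) with h | h
      · exact hb4 h
      · omega

end LS
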