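import Pool.Agent.LS.Core
import Pool.Agent.LS.PT

/-! Part `V4` of the classification of self-dual Leonard systems with integral normalized
intersection numbers (MP_963a96_al). -/
open Finset
namespace LS

variable {α b : ℕ → ℤ} {p : ℕ → ℕ} {F : ℕ → ℕ → ℤ}

theorem v4_ar1 (a1 a2 a3 a4 b2 b3 b4 b5 s s' F13 F14 F25 F00 F11 : ℤ)
    (p2 : 1 ≤ b2) (p3 : 1 ≤ b3) (p4 : 1 ≤ b4) (p5 : 1 ≤ b5) (a2n : 0 ≤ a2)
    (h25 : b5 = b2) (hF13 : F13 = b3 * s' + a3 * s) (hF13' : F13 = (a1 - a4) * s) (hne : F13 ≠ 0)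
    (hb4 : b4 ^ 2 - 1 = (a1 - a3) * (a1 - a4)) (hF14 : F14 = b4 * s)
    (hrel : b2 * F25 = b5 * F14) (h12 : a2 * s' + b3 * s = 0) (hF11 : F11 = F00 + b2 * s')
    (w25 : |F25| = 1) (w02 : |s'| = b2) (w03 : |s| = b3) (w14 : |F14| = b5)
    (d0 : F00 = a2) (d1 : F11 = a4) : False := by
  have e1 : b2 = b5 * b5 := by
    have h := congrArg abs hrel
    rw [abs_mul, abs_mul, w25, w14, abs_of_pos (by omega : (0:ℤ) < b2),
      abs_of_pos (by omega : (0:ℤ) < b5)] at h
    linarith only [h]
  have e2 : b2 = 1 := by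
    rw [h25] at e1
    have h : b2 * (b2 - 1) = 0 := by linarith only [e1]
    rcases mul_eq_zero.mp h with h | h
    · omega
    · omega
  subst h25
  have e3 : b4 * b3 = 1 := by
    rw [hF14, abs_mul, w03, abs_of_pos (by omega : (0:ℤ) < b4)] at w14
    rw [w14, e2]
  have e4 : b4 = 1 := Int.eq_one_or_neg_one_of_mul_eq_one e3 |>.resolve_right (by omega)
  have e5 : b3 = 1 := by rw [e4] at e3; linarith only [e3]
  subst e4 e5
  rw [e2] at w02 hF11
  have e6 : a1 - a3 = 0 := by
    have h : (a1 - a3) * (a1 - a4) = 0 := by linarith only [hb4]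
    rcases mul_eq_zero.mp h with h | h
    · exact h
    · exfalso; apply hne; rw [hF13', h, zero_mul]
  have hs' : s' = 1 ∨ s' = -1 := by
    rcases abs_eq (by norm_num : (0:ℤ) ≤ 1) |>.mp w02 with h | h
    · left; exact h
    · right; exact h
  have hs : s = 1 ∨ s = -1 := by
    rcases abs_eq (by norm_num : (0:ℤ) ≤ 1) |>.mp w03 with h | h
    · left; exact h
    · right; exact h
  rcases hs' with hs' | hs' <;> rcases hs with hs | hs <;> subst hs' <;> subst hs <;> omega

theorem v4_ar2 (a1 a3 a4 b2 b3 b4 b5 s s' F13 F14 F25 F00 F11 : ℤ)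
    (p2 : 1 ≤ b2) (p3 : 1 ≤ b3) (p4 : 1 ≤ b4) (p5 : 1 ≤ b5)
    (hs' : s' ≠ 0) (hF13' : F13 = (a1 - a4) * s) (hne : F13 ≠ 0)
    (hb4 : b4 ^ 2 - 1 = (a1 - a3) * (a1 - a4)) (hF14 : F14 = b4 * s)
    (hrel : b2 * F25 = b5 * F14) (hF11 : F11 = F00 + b2 * s')
    (w25 : |F25| = b5) (w03 : |s| = b3) (w14 : |F14| = 1)
    (d0 : F00 = a3) (d1 : F11 = a1) : False := by
  have e3 : b4 * b3 = 1 := by
    rw [hF14, abs_mul, w03, abs_of_pos (by omega : (0:ℤ) < b4)] at w14
    exact w14
  have e4 : b4 = 1 := Int.eq_one_or_neg_one_of_mul_eq_one e3 |>.resolve_right (by omega)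
  subst e4
  have e1 : b2 * b5 = b5 := by
    have h := congrArg abs hrel
    rw [abs_mul, abs_mul, w25, w14, abs_of_pos (by omega : (0:ℤ) < b2),
      abs_of_pos (by omega : (0:ℤ) < b5)] at h
    linarith only [h]
  have e2 : b2 = 1 := by
    have h : b5 * (b2 - 1) = 0 := by linarith only [e1]
    rcases mul_eq_zero.mp h with h | h
    · omega
    · omega
  have e6 : a1 - a3 = 0 := by
    have h : (a1 - a3) * (a1 - a4) = 0 := by linarith only [hb4]
    rcases mul_eq_zero.mp h with h | h
    · exact h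
    · exfalso; apply hne; rw [hF13', h, zero_mul]
  rw [e2] at hF11
  omega

theorem v4_ar3 (b2 b3 b4 b5 s F14 F25 F34 : ℤ)
    (p2 : 1 ≤ b2) (p3 : 1 ≤ b3) (p5 : 1 ≤ b5) (hb4 : b4 = 1)
    (hF14 : F14 = b4 * s) (h34 : F34 ≠ 0)
    (hrel : b2 * F25 = b5 * F14) (hrel2 : b5 * F34 = b3 * F25)
    (hrel3 : b3 * F34 = b5 * F25 - b2 * F14)
    (hw : (|F25| = 1 ∧ |F14| = b5) ∨ (|F14| = 1 ∧ |F34| = b2 ∧ |s| = b3)) : False := by
  have e1 : b2 * F34 = b3 * F14 := by
    have h : b5 * (b2 * F34 - b3 * F14) = 0 := by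
      linear_combination b2 * hrel2 + b3 * hrel
    rcases mul_eq_zero.mp h with h | h
    · omega
    · linarith only [h]
  have e2 : b3 ^ 2 = b5 ^ 2 - b2 ^ 2 := by
    have h : F34 * (b3 ^ 2 - (b5 ^ 2 - b2 ^ 2)) = 0 := by
      linear_combination b3 * hrel3 - b5 * hrel2 + b2 * e1
    rcases mul_eq_zero.mp h with h | h
    · exact absurd h h34
    · linarith only [h]
  have e3 : b2 < b5 := by
    by_contra h
    have h' : b5 ≤ b2 := by omega
    have : b5 ^ 2 ≤ b2 ^ 2 := by nlinarith only [h', p5, p2]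
    have : (1:ℤ) ≤ b3 ^ 2 := by nlinarith only [p3]
    omega
  rcases hw with ⟨w25, w14⟩ | ⟨w14, w34, w03⟩
  · have e4 : b2 = b5 * b5 := by
      have h := congrArg abs hrel
      rw [abs_mul, abs_mul, w25, w14, abs_of_pos (by omega : (0:ℤ) < b2),
        abs_of_pos (by omega : (0:ℤ) < b5)] at h
      linarith only [h]
    nlinarith only [e4, e3, p5]
  · have e5 : b3 = 1 := by
      rw [hF14, abs_mul, w03, hb4, abs_one, one_mul] at w14
      exact w14
    have e6 : b2 * b2 = 1 := by
      have h := congrArg abs e1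
      rw [abs_mul, abs_mul, w34, w14, abs_of_pos (by omega : (0:ℤ) < b2),
        abs_of_pos (by omega : (0:ℤ) < b3), e5] at h
      linarith only [h]
    have e7 : b2 = 1 := by nlinarith only [e6, p2]
    rw [e5, e7] at e2
    have e8 : b5 ≤ 1 := by
      by_contra h
      have : 2 ≤ b5 := by omega
      nlinarith only [e2, this]
    omega

theorem V4 (hB : Base 5 α b) (hF : PathF 5 α b p F) (h1 : F 0 1 = 0)
    (h2 : F 0 2 ≠ 0) (h3 : F 0 3 ≠ 0) (h4 : F 0 4 = 0) (h5 : F 0 5 = 0) : Three 5 α := by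
  have hbp : ∀ i, 1 ≤ i → i ≤ 5 → 1 ≤ b i := fun i hi hi5 => hB.bpos i hi hi5
  have hb6 : b 6 = 0 := hB.bout 6 (by omega)
  have e11 := hF.recur0 hB 1 (by omega)
  have e12 := hF.recur0 hB 2 (by omega)
  have e13 := hF.recur0 hB 3 (by omega)
  have e14 := hF.recur0 hB 4 (by omega)
  have e15 := hF.recur0 hB 5 (by omega)
  simp only [Nat.reduceSub, Nat.reduceAdd] at e11 e12 e13 e14 e15
  rw [hB.b1, h1] at e11
  rw [h1] at e12
  rw [h4] at e13
  rw [h4, h5] at e14
  rw [h4, h5, hb6] at e15
  have f11 : F 1 1 = F 0 0 + b 2 * F 0 2 := by rw [e11]; ring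
  have f12 : F 1 2 = α 2 * F 0 2 + b 3 * F 0 3 := by rw [e12]; ring
  have f13 : F 1 3 = b 3 * F 0 2 + α 3 * F 0 3 := by rw [e13]; ring
  have f14 : F 1 4 = b 4 * F 0 3 := by rw [e14]; ring
  have f15 : F 1 5 = 0 := by rw [e15]; ring
  have p2 := hbp 2 (by omega) (by omega)
  have p3 := hbp 3 (by omega) (by omega)
  have p4 := hbp 4 (by omega) (by omega)
  have p5 := hbp 5 (by omega) (by omega)
  have g14 : F 1 4 ≠ 0 := by rw [f14]; exact mul_ne_zero (by omega) h3
  have e25 := hF.recur1 hB 5 (by omega)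
  have e23 := hF.recur1 hB 3 (by omega)
  have e24 := hF.recur1 hB 4 (by omega)
  simp only [Nat.reduceSub, Nat.reduceAdd] at e25 e23 e24
  rw [f15, h5, hb6] at e25
  have hrel : b 2 * F 2 5 = b 5 * F 1 4 := by rw [e25]; ring
  have g25 : F 2 5 ≠ 0 := by
    intro h
    rw [h, mul_zero] at hrel
    rcases mul_eq_zero.mp hrel.symm with h' | h'
    · omega
    · exact g14 h'
  have g20 : F 2 0 ≠ 0 := by rw [hF.symm]; exact h2
  have g21 : F 2 1 = 0 := hF.deg hB (u := 2) (v := 0) (w := 5) (t := 1) (by omega) (by omega)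
    (by omega) (by omega) (by omega) (by omega) (by omega) (by omega) (by omega) (by omega) g20 g25
  have g23 : F 2 3 = 0 := hF.deg hB (u := 2) (v := 0) (w := 5) (t := 3) (by omega) (by omega)
    (by omega) (by omega) (by omega) (by omega) (by omega) (by omega) (by omega) (by omega) g20 g25
  have g24 : F 2 4 = 0 := hF.deg hB (u := 2) (v := 0) (w := 5) (t := 4) (by omega) (by omega)
    (by omega) (by omega) (by omega) (by omega) (by omega) (by omega) (by omega) (by omega) g20 g25
  have g12 : F 1 2 = 0 := by rw [hF.symm]; exact g21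
  rw [g23, g12] at e23
  rw [g24, f15, h4] at e24
  rw [g12] at f12

  have r23 : (α 3 - α 1) * F 1 3 + (b 4 ^ 2 - 1) * F 0 3 = 0 := by
    rw [f14] at e23; linarith only [e23]
  have r24 : F 1 3 = (α 1 - α 4) * F 0 3 := by
    rw [f14] at e24
    have h : b 4 * (F 1 3 - (α 1 - α 4) * F 0 3) = 0 := by linarith only [e24]
    rcases mul_eq_zero.mp h with h' | h'
    · omega
    · linarith only [h']
  have e33 := hF.recurk hB 2 (by omega) 3 (by omega)
  have e34 := hF.recurk hB 2 (by omega) 4 (by omega)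
  simp only [Nat.reduceSub, Nat.reduceAdd] at e33 e34
  rw [g23, g24] at e33 e34
  have r34 : b 3 * F 3 4 = b 5 * F 2 5 - b 2 * F 1 4 := by rw [e34]; ring
  have r33 : b 3 * F 3 3 = b 3 * F 2 2 - b 2 * F 1 3 := by rw [e33]; ring
  have g30 : F 3 0 ≠ 0 := by rw [hF.symm]; exact h3
  have hadj := fun {u v : ℕ} (hu : u ≤ 5) (hv : v ≤ 5) (h : p v = p u + 1) =>
    hF.edge u hu v hv h
  have q0 := hF.p_le 0 (by omega)
  have q1 := hF.p_le 1 (by omega)
  have q4 := hF.p_le 4 (by omega)
  have q5 := hF.p_le 5 (by omega)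
  have d0 := hF.diag 0 (by omega)
  have d1 := hF.diag 1 (by omega)
  have s25 : F 5 2 = F 2 5 := hF.symm 5 2
  have s02 : F 2 0 = F 0 2 := hF.symm 2 0
  have s03 : F 3 0 = F 0 3 := hF.symm 3 0
  have s13 : F 3 1 = F 1 3 := hF.symm 3 1
  have s14 : F 4 1 = F 1 4 := hF.symm 4 1
  have s34 : F 4 3 = F 3 4 := hF.symm 4 3
  by_cases g13 : F 1 3 = 0
  ·
    rw [g13] at r24 r23 r33
    have hb4 : b 4 = 1 := by
      have h : (b 4 ^ 2 - 1) * F 0 3 = 0 := by linarith only [r23]
      rcases mul_eq_zero.mp h with h' | h'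
      · nlinarith only [h', p4]
      · exact absurd h' h3
    have a41 : α 4 = α 1 := by
      rcases mul_eq_zero.mp r24.symm with h' | h'
      · omega
      · exact absurd h' h3
    have r3322 : F 2 2 = F 3 3 := by
      have h : b 3 * (F 3 3 - F 2 2) = 0 := by linarith only [r33]
      rcases mul_eq_zero.mp h with h' | h'
      · omega
      · omega

    have g35 : F 3 5 = 0 := by
      by_contra h
      have := hF.mono hB 3 (fun i => match i with | 0 => 5 | 1 => 2 | 2 => 0 | _ => 3)
        (by decide) (by decide)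
        (by
          intro i hi
          interval_cases i
          · show F 5 2 ≠ 0; rw [s25]; exact g25
          · show F 2 0 ≠ 0; exact g20
          · show F 0 3 ≠ 0; exact h3)
      rcases this with hm | hm
      · have m3 : p 3 = p 5 + 3 := hm 3 (by omega)
        have := hF.far 5 (by omega) 3 (by omega) (by omega)
        rw [hF.symm] at this
        exact h this
      · have m3 : p 3 + 3 = p 5 := hm 3 (by omega)
        exact h (hF.far 3 (by omega) 5 (by omega) (by omega))
    have e44 := hF.recurk hB 3 (by omega) 4 (by omega)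
    have e45 := hF.recurk hB 3 (by omega) 5 (by omega)
    simp only [Nat.reduceSub, Nat.reduceAdd] at e44 e45
    rw [g35, g24, hb4] at e44
    rw [g35, hb6] at e45
    by_cases g34 : F 3 4 = 0
    · rw [g34] at e44
      have r44 : F 3 3 = F 4 4 := by linarith only [e44]
      exact hF.three (u := 2) (v := 3) (w := 4) (by omega) (by omega) (by omega) (by omega)
        (by omega) (by omega) r3322 r44
    · exfalso
      have hm := hF.mono hB 5 (fun i => match i with
          | 0 => 5 | 1 => 2 | 2 => 0 | 3 => 3 | 4 => 4 | _ => 1)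
        (by decide) (by decide)
        (by
          intro i hi
          interval_cases i
          · show F 5 2 ≠ 0; rw [s25]; exact g25
          · show F 2 0 ≠ 0; exact g20
          · show F 0 3 ≠ 0; exact h3
          · show F 3 4 ≠ 0; exact g34
          · show F 4 1 ≠ 0; rw [s14]; exact g14)
      have g45 : F 4 5 = 0 := by
        rcases hm with hm | hm
        · have m4 : p 4 = p 5 + 4 := hm 4 (by omega)
          rw [hF.symm]
          exact hF.far 5 (by omega) 4 (by omega) (by omega)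
        · have m4 : p 4 + 4 = p 5 := hm 4 (by omega)
          exact hF.far 4 (by omega) 5 (by omega) (by omega)
      rw [g45] at e45
      have hrel2 : b 5 * F 3 4 = b 3 * F 2 5 := by linarith only [e45]
      refine v4_ar3 (b 2) (b 3) (b 4) (b 5) (F 0 3) (F 1 4) (F 2 5) (F 3 4) p2 p3 p5 hb4 f14 g34
        hrel hrel2 r34 ?_
      rcases hm with hm | hm
      · left
        have m1 : p 2 = p 5 + 1 := hm 1 (by omega)
        have m4 : p 4 = p 5 + 4 := hm 4 (by omega)
        have m5 : p 1 = p 5 + 5 := hm 5 (by omega)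
        have w1 := hadj (u := 5) (v := 2) (by omega) (by omega) m1
        have w5 := hadj (u := 4) (v := 1) (by omega) (by omega) (by omega)
        rw [s25, (by omega : p 2 = 1), hB.b1] at w1
        rw [s14, (by omega : p 1 = 5)] at w5
        exact ⟨w1, w5⟩
      · right
        have m3 : p 3 + 3 = p 5 := hm 3 (by omega)
        have m2 : p 0 + 2 = p 5 := hm 2 (by omega)
        have m4 : p 4 + 4 = p 5 := hm 4 (by omega)
        have m5 : p 1 + 5 = p 5 := hm 5 (by omega)
        have w1 := hadj (u := 1) (v := 4) (by omega) (by omega) (by omega)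
        have w2 := hadj (u := 4) (v := 3) (by omega) (by omega) (by omega)
        have w3 := hadj (u := 3) (v := 0) (by omega) (by omega) (by omega)
        rw [(by omega : p 4 = 1), hB.b1] at w1
        rw [s34, (by omega : p 3 = 2)] at w2
        rw [s03, (by omega : p 0 = 3)] at w3
        exact ⟨w1, w2, w3⟩
  ·
    exfalso
    have g31 : F 3 1 ≠ 0 := by rw [s13]; exact g13
    have g34 : F 3 4 = 0 := hF.deg hB (u := 3) (v := 0) (w := 1) (t := 4) (by omega) (by omega)
      (by omega) (by omega) (by omega) (by omega) (by omega) (by omega) (by omega) (by omega)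
      g30 g31
    rw [g34] at r34
    have hb52 : b 5 = b 2 := by
      have h : F 1 4 * (b 5 ^ 2 - b 2 ^ 2) = 0 := by
        linear_combination (-b 2) * r34 - b 5 * hrel
      rcases mul_eq_zero.mp h with h' | h'
      · exact absurd h' g14
      · have h'' : (b 5 - b 2) * (b 5 + b 2) = 0 := by linarith only [h']
        rcases mul_eq_zero.mp h'' with h3 | h3
        · omega
        · omega
    have hb4 : b 4 ^ 2 - 1 = (α 1 - α 3) * (α 1 - α 4) := by
      have h : F 0 3 * (b 4 ^ 2 - 1 - (α 1 - α 3) * (α 1 - α 4)) = 0 := by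
        rw [r24] at r23
        linarith only [r23]
      rcases mul_eq_zero.mp h with h' | h'
      · exact absurd h' h3
      · linarith only [h']
    have hm := hF.mono hB 5 (fun i => match i with
          | 0 => 5 | 1 => 2 | 2 => 0 | 3 => 3 | 4 => 1 | _ => 4)
        (by decide) (by decide)
        (by
          intro i hi
          interval_cases i
          · show F 5 2 ≠ 0; rw [s25]; exact g25
          · show F 2 0 ≠ 0; exact g20
          · show F 0 3 ≠ 0; exact h3
          · show F 3 1 ≠ 0; exact g31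
          · show F 1 4 ≠ 0; exact g14)
    rcases hm with hm | hm
    · have m1 : p 2 = p 5 + 1 := hm 1 (by omega)
      have m2 : p 0 = p 5 + 2 := hm 2 (by omega)
      have m3 : p 3 = p 5 + 3 := hm 3 (by omega)
      have m4 : p 1 = p 5 + 4 := hm 4 (by omega)
      have m5 : p 4 = p 5 + 5 := hm 5 (by omega)
      have w1 := hadj (u := 5) (v := 2) (by omega) (by omega) m1
      have w2 := hadj (u := 2) (v := 0) (by omega) (by omega) (by omega)
      have w3 := hadj (u := 0) (v := 3) (by omega) (by omega) (by omega)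
      have w5 := hadj (u := 1) (v := 4) (by omega) (by omega) (by omega)
      rw [s25, (by omega : p 2 = 1), hB.b1] at w1
      rw [s02, (by omega : p 0 = 2)] at w2
      rw [(by omega : p 3 = 3)] at w3
      rw [(by omega : p 4 = 5)] at w5
      rw [(by omega : p 0 = 2)] at d0
      rw [(by omega : p 1 = 4)] at d1
      exact v4_ar1 (α 1) (α 2) (α 3) (α 4) (b 2) (b 3) (b 4) (b 5) (F 0 3) (F 0 2) (F 1 3) (F 1 4)
        (F 2 5) (F 0 0) (F 1 1) p2 p3 p4 p5 (hB.αnn 2) hb52 f13 r24 g13 hb4 f14 hrel f12.symm f11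
        w1 w2 w3 w5 d0 d1
    · have m1 : p 2 + 1 = p 5 := hm 1 (by omega)
      have m2 : p 0 + 2 = p 5 := hm 2 (by omega)
      have m3 : p 3 + 3 = p 5 := hm 3 (by omega)
      have m4 : p 1 + 4 = p 5 := hm 4 (by omega)
      have m5 : p 4 + 5 = p 5 := hm 5 (by omega)
      have w1 := hadj (u := 4) (v := 1) (by omega) (by omega) (by omega)
      have w3 := hadj (u := 3) (v := 0) (by omega) (by omega) (by omega)
      have w5 := hadj (u := 2) (v := 5) (by omega) (by omega) (by omega)
      rw [s14, (by omega : p 1 = 1), hB.b1] at w1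
      rw [s03, (by omega : p 0 = 3)] at w3
      rw [(by omega : p 5 = 5)] at w5
      rw [(by omega : p 0 = 3)] at d0
      rw [(by omega : p 1 = 1)] at d1
      exact v4_ar2 (α 1) (α 3) (α 4) (b 2) (b 3) (b 4) (b 5) (F 0 3) (F 0 2) (F 1 3) (F 1 4)
        (F 2 5) (F 0 0) (F 1 1) p2 p3 p4 p5 h2 r24 g13 hb4 f14 hrel f11 w5 w3 w1 d0 d1

end LS
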