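import Pool.Agent.LS.Core
import Pool.Agent.LS.PT

/-! Part `V5` of the classification of self-dual Leonard systems with integral normalized
intersection numbers (MP_963a96_al). -/
open Finset
namespace LS

variable {α b : ℕ → ℤ} {p : ℕ → ℕ} {F : ℕ → ℕ → ℤ}

theorem v5_ne (hF : PathF 5 α b p F) {u v : ℕ} (hu : u ≤ 5) (hv : v ≤ 5) (h : u ≠ v) :
    p u ≠ p v := fun e => h (hF.p_inj u hu v hv e)

theorem v5_adj (hB : Base 5 α b) (hF : PathF 5 α b p F) {u v : ℕ} (hu : u ≤ 5) (hv : v ≤ 5)
    (huv : u ≠ v) (h : F u v ≠ 0) : p v = p u + 1 ∨ p u = p v + 1 := by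
  rcases hF.adj hB hu hv huv h with h | h
  · exact Or.inl h.1
  · exact Or.inr h.1

theorem v5_next (hB : Base 5 α b) (hF : PathF 5 α b p F) {u : ℕ} (hu : u ≤ 5) (h : p u < 5) :
    ∃ v ≤ 5, p v = p u + 1 ∧ F u v ≠ 0 := by
  obtain ⟨v, hv, e⟩ := hF.surj (p u + 1) (by omega)
  exact ⟨v, hv, e, hF.ne_zero hB hu hv e⟩

theorem v5_prev (hB : Base 5 α b) (hF : PathF 5 α b p F) {u : ℕ} (hu : u ≤ 5) (h : 1 ≤ p u) :
    ∃ v ≤ 5, p u = p v + 1 ∧ F u v ≠ 0 := by
  have := hF.p_le u hu
  obtain ⟨v, hv, e⟩ := hF.surj (p u - 1) (by omega)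
  have e' : p u = p v + 1 := by omega
  refine ⟨v, hv, e', ?_⟩
  rw [hF.symm u v]
  exact hF.ne_zero hB hv hu e'

theorem v5_w (hF : PathF 5 α b p F) {u v k : ℕ} (hu : u ≤ 5) (hv : v ≤ 5) (h : p v = k)
    (hk : p v = p u + 1) : |F u v| = b k := by
  rw [← h]; exact hF.edge u hu v hv hk

theorem v5_w' (hF : PathF 5 α b p F) {u v k : ℕ} (hu : u ≤ 5) (hv : v ≤ 5) (h : p u = k)
    (hk : p u = p v + 1) : |F u v| = b k := by
  rw [hF.symm u v, ← h]; exact hF.edge v hv u hu hk

theorem v5_d (hF : PathF 5 α b p F) {u k : ℕ} (hu : u ≤ 5) (h : p u = k) : F u u = α k := by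
  rw [← h]; exact hF.diag u hu

theorem v5_up {x y w : ℕ} (k : ℕ) (h : y = x + 1 ∨ x = y + 1) (hw : w = k) (hx : x = k + 1)
    (hn : y ≠ w) : y = k + 2 := by omega

theorem v5_dn {x y w : ℕ} (k : ℕ) (h : y = x + 1 ∨ x = y + 1) (hw : w = k + 2) (hx : x = k + 1)
    (hn : y ≠ w) : y = k := by omega

theorem v5_sq {x : ℤ} (h : 1 ≤ x) : 1 ≤ x ^ 2 := by nlinarith

theorem v5_fin {x y z : ℤ} (h : 1 ≤ x) (hy : 0 ≤ y) (hz : 0 ≤ z)
    (e : - (x ^ 2 * y) = z * (x ^ 2 - 1)) : y = 0 := by
  have h1 := v5_sq h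
  have h2 : 0 ≤ z * (x ^ 2 - 1) := mul_nonneg hz (by linarith)
  nlinarith [mul_nonneg (sub_nonneg.mpr h1) hy]

theorem v5_end (hB : Base 5 α b) (hF : PathF 5 α b p F) {u w : ℕ} (hu : u ≤ 5)
    (h : ∀ v ≤ 5, v ≠ u → v ≠ w → F u v = 0) : p u = 0 ∨ p u = 5 := by
  by_contra hc
  have := hF.p_le u hu
  obtain ⟨v, hv, e, hne⟩ := v5_next hB hF hu (by omega)
  obtain ⟨v', hv', e', hne'⟩ := v5_prev hB hF hu (by omega)
  have h1 : v = w := by
    by_contra h1
    exact hne (h v hv (by rintro rfl; omega) h1)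
  have h2 : v' = w := by
    by_contra h1
    exact hne' (h v' hv' (by rintro rfl; omega) h1)
  subst h1
  subst h2
  omega

theorem V5 (hB : Base 5 α b) (hF : PathF 5 α b p F) (h1 : F 0 1 = 0)
    (h2 : F 0 2 = 0) (h3 : F 0 3 = 0) (h4 : F 0 4 ≠ 0) (h5 : F 0 5 = 0) :
    Three 5 α ∨ (p 0 = 0 ∧ p 4 = 1 ∧ p 2 = 2 ∧ p 3 = 3 ∧ p 1 = 4 ∧ p 5 = 5) ∨
      (p 5 = 0 ∧ p 1 = 1 ∧ p 3 = 2 ∧ p 2 = 3 ∧ p 4 = 4 ∧ p 0 = 5) := by
  have b1 := hB.b1
  have b6 : b 6 = 0 := hB.bout 6 (by norm_num)
  have hb2 := hB.bpos 2 (by norm_num) (by norm_num)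
  have hb3 := hB.bpos 3 (by norm_num) (by norm_num)
  have hb4 := hB.bpos 4 (by norm_num) (by norm_num)
  have hb5 := hB.bpos 5 (by norm_num) (by norm_num)
  have r01 := hF.recur0 hB 1 (by norm_num)
  have r02 := hF.recur0 hB 2 (by norm_num)
  have r03 := hF.recur0 hB 3 (by norm_num)
  have r04 := hF.recur0 hB 4 (by norm_num)
  have r05 := hF.recur0 hB 5 (by norm_num)
  have r12 := hF.recur1 hB 2 (by norm_num)
  have r13 := hF.recur1 hB 3 (by norm_num)
  have r14 := hF.recur1 hB 4 (by norm_num)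
  have r15 := hF.recur1 hB 5 (by norm_num)
  norm_num [b1, b6, h1, h2, h3, h5] at r01 r02 r03 r04 r05 r12 r13 r14 r15
  have n13 : F 1 3 ≠ 0 := by
    rw [r03]; exact mul_ne_zero (by omega) h4
  have n15 : F 1 5 ≠ 0 := by
    rw [r05]; exact mul_ne_zero (by omega) h4
  have z14 : F 1 4 = 0 := hF.deg hB (by norm_num) (by norm_num) (by norm_num) (by norm_num)
    (by norm_num) (by norm_num) (by norm_num) (by norm_num) (by norm_num) (by norm_num) n13 n15
  have a4 : α 4 = 0 := by
    rw [r04] at z14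
    rcases mul_eq_zero.mp z14 with h | h
    · exact h
    · exact absurd h h4
  have e24 : b 2 * F 2 4 = (b 4 ^ 2 + b 5 ^ 2 - 1) * F 0 4 := by
    rw [r14, z14, r03, r05]; ring
  have n24 : F 2 4 ≠ 0 := by
    intro h
    rw [h, mul_zero] at e24
    have g4 := v5_sq hb4
    have g5 := v5_sq hb5
    have := mul_ne_zero (show b 4 ^ 2 + b 5 ^ 2 - 1 ≠ 0 by linarith) h4
    exact this e24.symm
  have n42 : F 4 2 ≠ 0 := by rw [hF.symm 4 2]; exact n24
  have n40 : F 4 0 ≠ 0 := by rw [hF.symm 4 0]; exact h4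
  have n51 : F 5 1 ≠ 0 := by rw [hF.symm 5 1]; exact n15
  have z43 : F 4 3 = 0 := hF.deg hB (by norm_num) (by norm_num) (by norm_num) (by norm_num)
    (by norm_num) (by norm_num) (by norm_num) (by norm_num) (by norm_num) (by norm_num) n40 n42
  have z34 : F 3 4 = 0 := by rw [hF.symm 3 4]; exact z43
  have A04 := v5_adj hB hF (u := 0) (v := 4) (by norm_num) (by norm_num) (by norm_num) h4
  have A42 := v5_adj hB hF (u := 4) (v := 2) (by norm_num) (by norm_num) (by norm_num) n42
  have n31 : F 3 1 ≠ 0 := by rw [hF.symm 3 1]; exact n13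
  have D20 := v5_ne hF (u := 2) (v := 0) (by norm_num) (by norm_num) (by norm_num)
  have P0 : p 0 = 0 ∨ p 0 = 5 := by
    refine v5_end hB hF (w := 4) (by norm_num) ?_
    intro v hv h0 h4'
    interval_cases v
    · exact absurd rfl h0
    · exact h1
    · exact h2
    · exact h3
    · exact absurd rfl h4'
    · exact h5
  by_cases n25 : F 2 5 = 0
  ·
    right
    have A31 := v5_adj hB hF (u := 3) (v := 1) (by norm_num) (by norm_num) (by norm_num) n31
    have A15 := v5_adj hB hF (u := 1) (v := 5) (by norm_num) (by norm_num) (by norm_num) n15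
    have D12 := v5_ne hF (u := 1) (v := 2) (by norm_num) (by norm_num) (by norm_num)
    have D53 := v5_ne hF (u := 5) (v := 3) (by norm_num) (by norm_num) (by norm_num)
    have z20 : F 2 0 = 0 := by rw [hF.symm 2 0]; exact h2
    have z21 : F 2 1 = 0 := by rw [hF.symm 2 1]; exact r02
    rcases P0 with P0 | P0
    · left
      have p4 : p 4 = 1 := by clear D20 A42 A31 A15 D12 D53; omega
      have p2 : p 2 = 2 := v5_up 0 A42 P0 p4 D20
      obtain ⟨v, hv, e, hne⟩ := v5_next hB hF (u := 2) (by norm_num) (by omega)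
      have p3 : p 3 = 3 := by
        interval_cases v
        · exact absurd z20 hne
        · exact absurd z21 hne
        · exact absurd e (by omega)
        · rw [e, p2]
        · exact absurd e (by omega)
        · exact absurd n25 hne
      have p1 : p 1 = 4 := v5_up 2 A31 p2 p3 D12
      have p5 : p 5 = 5 := v5_up 3 A15 p3 p1 D53
      exact ⟨P0, p4, p2, p3, p1, p5⟩
    · right
      have p4 : p 4 = 4 := by
        have := hF.p_le 4 (by norm_num)
        clear D20 A42 A31 A15 D12 D53; omega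
      have p2 : p 2 = 3 := v5_dn 3 A42 P0 p4 D20
      obtain ⟨v, hv, e, hne⟩ := v5_prev hB hF (u := 2) (by norm_num) (by omega)
      have p3 : p 3 = 2 := by
        interval_cases v
        · exact absurd z20 hne
        · exact absurd z21 hne
        · exact absurd e (by omega)
        · omega
        · exact absurd e (by omega)
        · exact absurd n25 hne
      have p1 : p 1 = 1 := v5_dn 1 A31 p2 p3 D12
      have p5 : p 5 = 0 := v5_dn 0 A15 p3 p1 D53
      exact ⟨p5, p1, p3, p2, p4, P0⟩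
  ·
    have n52 : F 5 2 ≠ 0 := by rw [hF.symm 5 2]; exact n25
    have z23 : F 2 3 = 0 := hF.deg hB (by norm_num) (by norm_num) (by norm_num) (by norm_num)
      (by norm_num) (by norm_num) (by norm_num) (by norm_num) (by norm_num) (by norm_num) n24 n25
    have z53 : F 5 3 = 0 := hF.deg hB (by norm_num) (by norm_num) (by norm_num) (by norm_num)
      (by norm_num) (by norm_num) (by norm_num) (by norm_num) (by norm_num) (by norm_num) n51 n52
    have z35 : F 3 5 = 0 := by rw [hF.symm 3 5]; exact z53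
    have a31 : α 3 = α 1 := by
      rw [z23, r02, z14] at r13
      have : (α 3 - α 1) * F 1 3 = 0 := by linear_combination -r13
      rcases mul_eq_zero.mp this with h | h
      · linarith
      · exact absurd h n13
    have r23 := hF.recurk hB 2 (by norm_num) 4 (by norm_num)
    have r25 := hF.recurk hB 2 (by norm_num) 5 (by norm_num)
    norm_num [z34, z35, z23, z14, a4, b6] at r23 r25
    have A25 := v5_adj hB hF (u := 2) (v := 5) (by norm_num) (by norm_num) (by norm_num) n25
    have A51 := v5_adj hB hF (u := 5) (v := 1) (by norm_num) (by norm_num) (by norm_num) n51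
    have A13 := v5_adj hB hF (u := 1) (v := 3) (by norm_num) (by norm_num) (by norm_num) n13
    have D54 := v5_ne hF (u := 5) (v := 4) (by norm_num) (by norm_num) (by norm_num)
    have D12 := v5_ne hF (u := 1) (v := 2) (by norm_num) (by norm_num) (by norm_num)
    have D35 := v5_ne hF (u := 3) (v := 5) (by norm_num) (by norm_num) (by norm_num)
    have e25 : b 2 * F 2 5 = (α 5 - α 1) * (b 5 * F 0 4) := by
      rw [r15, z14, r05]; ring
    rcases P0 with P0 | P0
    ·
      have p4 : p 4 = 1 := by clear D20 A42 D12 D54 D35 A25 A51 A13; omega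
      have p2 : p 2 = 2 := v5_up 0 A42 P0 p4 D20
      have p5 : p 5 = 3 := v5_up 1 A25 p4 p2 D54
      have p1 : p 1 = 4 := v5_up 2 A51 p2 p5 D12
      have p3 : p 3 = 5 := v5_up 3 A13 p5 p1 D35
      clear D20 A42 D12 D54 D35 A25 A51 A13 A04
      have w04 : |F 0 4| = b 1 := v5_w hF (by norm_num) (by norm_num) p4 (by rw [p4, P0])
      have w24 : |F 2 4| = b 2 := v5_w' hF (by norm_num) (by norm_num) p2 (by rw [p4, p2])
      have w15 : |F 1 5| = b 4 := v5_w' hF (by norm_num) (by norm_num) p1 (by rw [p1, p5])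
      rw [b1] at w04
      have b45 : b 4 = b 5 := by
        rw [← w15, r05, abs_mul, w04, abs_of_pos (by linarith), mul_one]
      have e1 : b 2 ^ 2 = b 4 ^ 2 + b 5 ^ 2 - 1 := by
        have g4 := v5_sq hb4
        have g5 := v5_sq hb5
        have := congrArg abs e24
        rw [abs_mul, abs_mul, w24, w04, abs_of_pos (show 0 < b 2 by linarith), mul_one,
          abs_of_pos (by linarith)] at this
        rw [← this]; ring
      have e2 : (α 5 - α 2) * (α 5 - α 1) = 0 := by
        have h' : b 2 * (b 5 * F 2 4 + (α 5 - α 2) * F 2 5 - b 2 * F 1 5) = 0 := by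
          rw [← r25]; ring
        have h'' : (α 5 - α 2) * (α 5 - α 1) * (b 5 * F 0 4) = 0 := by
          rw [r05] at h'
          linear_combination h' - b 5 * e24 - (α 5 - α 2) * e25 + b 5 * F 0 4 * e1
        rcases mul_eq_zero.mp h'' with h | h
        · exact h
        · exact absurd h (mul_ne_zero (by linarith) h4)
      have n51' : α 5 - α 1 ≠ 0 := by
        intro h
        rw [h, zero_mul] at e25
        exact (mul_ne_zero (show b 2 ≠ 0 by linarith) n25) e25
      have a52 : α 5 = α 2 := by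
        rcases mul_eq_zero.mp e2 with h | h
        · linarith
        · exact absurd h n51'
      have e3 : b 5 ^ 2 * (α 5 - α 1) = α 2 * b 2 ^ 2 := by
        have h : (b 5 ^ 2 * (α 5 - α 1) - α 2 * b 2 ^ 2) * F 0 4 = 0 := by
          linear_combination -b 2 * r23 - b 5 * e25 + α 2 * e24 - α 2 * F 0 4 * e1
        rcases mul_eq_zero.mp h with h | h
        · linarith
        · exact absurd h h4
      have e4 : - (b 5 ^ 2 * α 1) = α 2 * (b 5 ^ 2 - 1) := by
        rw [e1, b45, a52] at e3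
        linear_combination e3
      have g1 := hB.αnn 1
      have g2 := hB.αnn 2
      have a1 : α 1 = 0 := v5_fin hb5 g1 g2 e4
      left
      exact three_of α (i := 0) (j := 1) (k := 3) (by norm_num) (by norm_num) (by norm_num)
        (by norm_num) (by norm_num) (by norm_num) (by rw [hB.α0, a1]) a31.symm
    ·
      have p4 : p 4 = 4 := by
        have := hF.p_le 4 (by norm_num)
        clear D20 A42 D12 D54 D35 A25 A51 A13; omega
      have p2 : p 2 = 3 := v5_dn 3 A42 P0 p4 D20
      have p5 : p 5 = 2 := v5_dn 2 A25 p4 p2 D54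
      have p1 : p 1 = 1 := v5_dn 1 A51 p2 p5 D12
      clear D20 A42 D12 D54 D35 A25 A51 A13 A04
      have d1 := v5_d hF (u := 1) (by norm_num) p1
      have d0 := v5_d hF (u := 0) (by norm_num) P0
      exfalso
      have : α 5 = α 1 := by rw [← d0, ← d1, r01]
      rw [this, sub_self, zero_mul] at e25
      exact (mul_ne_zero (show b 2 ≠ 0 by linarith) n25) e25

end LS
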