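import Pool.Agent.LS.Core
import Pool.Agent.LS.PT

/-! Part `V6` of the classification of self-dual Leonard systems with integral normalized
intersection numbers (MP_963a96_al). -/
open Finset
namespace LS

variable {α b : ℕ → ℤ} {p : ℕ → ℕ} {F : ℕ → ℕ → ℤ}

theorem v6_ne (hF : PathF 5 α b p F) {u v : ℕ} (hu : u ≤ 5) (hv : v ≤ 5) (h : u ≠ v) :
    p u ≠ p v := fun e => h (hF.p_inj u hu v hv e)

theorem v6_adj (hB : Base 5 α b) (hF : PathF 5 α b p F) {u v : ℕ} (hu : u ≤ 5) (hv : v ≤ 5)
    (huv : u ≠ v) (h : F u v ≠ 0) : p v = p u + 1 ∨ p u = p v + 1 := by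
  rcases hF.adj hB hu hv huv h with h | h
  · exact Or.inl h.1
  · exact Or.inr h.1

theorem v6_next (hB : Base 5 α b) (hF : PathF 5 α b p F) {u : ℕ} (hu : u ≤ 5) (h : p u < 5) :
    ∃ v ≤ 5, p v = p u + 1 ∧ F u v ≠ 0 := by
  obtain ⟨v, hv, e⟩ := hF.surj (p u + 1) (by omega)
  exact ⟨v, hv, e, hF.ne_zero hB hu hv e⟩

theorem v6_prev (hB : Base 5 α b) (hF : PathF 5 α b p F) {u : ℕ} (hu : u ≤ 5) (h : 1 ≤ p u) :
    ∃ v ≤ 5, p u = p v + 1 ∧ F u v ≠ 0 := by
  have := hF.p_le u hu
  obtain ⟨v, hv, e⟩ := hF.surj (p u - 1) (by omega)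
  have e' : p u = p v + 1 := by omega
  refine ⟨v, hv, e', ?_⟩
  rw [hF.symm u v]
  exact hF.ne_zero hB hv hu e'

theorem v6_w (hF : PathF 5 α b p F) {u v k : ℕ} (hu : u ≤ 5) (hv : v ≤ 5) (h : p v = k)
    (hk : p v = p u + 1) : |F u v| = b k := by
  rw [← h]; exact hF.edge u hu v hv hk

theorem v6_w' (hF : PathF 5 α b p F) {u v k : ℕ} (hu : u ≤ 5) (hv : v ≤ 5) (h : p u = k)
    (hk : p u = p v + 1) : |F u v| = b k := by
  rw [hF.symm u v, ← h]; exact hF.edge v hv u hu hk

theorem v6_d (hF : PathF 5 α b p F) {u k : ℕ} (hu : u ≤ 5) (h : p u = k) : F u u = α k := by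
  rw [← h]; exact hF.diag u hu

theorem v6_up {x y w : ℕ} (k : ℕ) (h : y = x + 1 ∨ x = y + 1) (hw : w = k) (hx : x = k + 1)
    (hn : y ≠ w) : y = k + 2 := by omega

theorem v6_dn {x y w : ℕ} (k : ℕ) (h : y = x + 1 ∨ x = y + 1) (hw : w = k + 2) (hx : x = k + 1)
    (hn : y ≠ w) : y = k := by omega

theorem v6_sq {x : ℤ} (h : 1 ≤ x) : 1 ≤ x ^ 2 := by nlinarith

theorem v6_fin {x y z : ℤ} (h : 1 ≤ x) (hy : 0 ≤ y) (hz : 0 ≤ z)
    (e : - (x ^ 2 * y) = z * (x ^ 2 - 1)) : y = 0 := by
  have h1 := v6_sq h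
  have h2 : 0 ≤ z * (x ^ 2 - 1) := mul_nonneg hz (by linarith)
  nlinarith [mul_nonneg (sub_nonneg.mpr h1) hy]

theorem v6_end (hB : Base 5 α b) (hF : PathF 5 α b p F) {u w : ℕ} (hu : u ≤ 5)
    (h : ∀ v ≤ 5, v ≠ u → v ≠ w → F u v = 0) : p u = 0 ∨ p u = 5 := by
  by_contra hc
  have := hF.p_le u hu
  obtain ⟨v, hv, e, hne⟩ := v6_next hB hF hu (by omega)
  obtain ⟨v', hv', e', hne'⟩ := v6_prev hB hF hu (by omega)
  have h1 : v = w := by
    by_contra h1
    exact hne (h v hv (by rintro rfl; omega) h1)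
  have h2 : v' = w := by
    by_contra h1
    exact hne' (h v' hv' (by rintro rfl; omega) h1)
  subst h1
  subst h2
  omega

theorem v6_one {x : ℤ} (h : 1 ≤ x) (e : x ^ 2 = 1) : x = 1 := by nlinarith

theorem v6_absmul {x y : ℤ} (h : 1 ≤ x) (e : |x * y| = 1) : x = 1 ∧ |y| = 1 := by
  rw [abs_mul, abs_of_pos (by linarith)] at e
  have hy : 1 ≤ |y| := by
    by_contra hc
    have : |y| = 0 := by have := abs_nonneg y; omega
    rw [this, mul_zero] at e
    exact absurd e (by norm_num)
  constructor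
  · nlinarith
  · nlinarith

theorem v6_bal {x y z w : ℤ} (hx : 0 ≤ x) (hz : 0 ≤ z) (e : x * y + z * w = 0) :
    x * |y| = z * |w| := by
  have h : x * y = - (z * w) := by linarith
  have := congrArg abs h
  rwa [abs_neg, abs_mul, abs_mul, abs_of_nonneg hx, abs_of_nonneg hz] at this

theorem V6 (hB : Base 5 α b) (hF : PathF 5 α b p F)
    (h12 : (F 0 1 ≠ 0 ∧ F 0 2 = 0) ∨ (F 0 1 = 0 ∧ F 0 2 ≠ 0))
    (h3 : F 0 3 = 0) (h4 : F 0 4 ≠ 0) (h5 : F 0 5 = 0) : Three 5 α := by
  have b1 := hB.b1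
  have a0 := hB.α0
  have b6 : b 6 = 0 := hB.bout 6 (by norm_num)
  have hb2 := hB.bpos 2 (by norm_num) (by norm_num)
  have hb3 := hB.bpos 3 (by norm_num) (by norm_num)
  have hb4 := hB.bpos 4 (by norm_num) (by norm_num)
  have hb5 := hB.bpos 5 (by norm_num) (by norm_num)
  have r01 := hF.recur0 hB 1 (by norm_num)
  have r02 := hF.recur0 hB 2 (by norm_num)
  have r03 := hF.recur0 hB 3 (by norm_num)
  have r04 := hF.recur0 hB 4 (by norm_num)
  have r05 := hF.recur0 hB 5 (by norm_num)
  rcases h12 with ⟨h1, h2⟩ | ⟨h1, h2⟩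
  · exfalso
    norm_num [b1, b6, h2, h3, h5] at r01 r02 r03 r04 r05
    have n10 : F 1 0 ≠ 0 := by rw [hF.symm 1 0]; exact h1
    have n12 : F 1 2 ≠ 0 := by rw [r02]; exact mul_ne_zero (by linarith) h1
    have n15 : F 1 5 ≠ 0 := by rw [r05]; exact mul_ne_zero (by linarith) h4
    exact n15 (hF.deg hB (by norm_num) (by norm_num) (by norm_num) (by norm_num)
      (by norm_num) (by norm_num) (by norm_num) (by norm_num) (by norm_num) (by norm_num) n10 n12)
  have r12 := hF.recur1 hB 2 (by norm_num)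
  have r13 := hF.recur1 hB 3 (by norm_num)
  have r14 := hF.recur1 hB 4 (by norm_num)
  have r15 := hF.recur1 hB 5 (by norm_num)
  norm_num [b1, b6, h1, h3, h5] at r01 r02 r03 r04 r05 r12 r13 r14 r15
  have n15 : F 1 5 ≠ 0 := by rw [r05]; exact mul_ne_zero (by linarith) h4
  have n20 : F 2 0 ≠ 0 := by rw [hF.symm 2 0]; exact h2
  have n40 : F 4 0 ≠ 0 := by rw [hF.symm 4 0]; exact h4
  have z24 : F 2 4 = 0 := hF.tri hB (by norm_num) (by norm_num) (by norm_num) (by norm_num)
    (by norm_num) (by norm_num) n20 h4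
  have z12 : F 1 2 = 0 := by
    by_contra n12
    have n21 : F 2 1 ≠ 0 := by rw [hF.symm 2 1]; exact n12
    have z13 : F 1 3 = 0 := hF.deg hB (by norm_num) (by norm_num) (by norm_num) (by norm_num)
      (by norm_num) (by norm_num) (by norm_num) (by norm_num) (by norm_num) (by norm_num) n12 n15
    have z14 : F 1 4 = 0 := hF.deg hB (by norm_num) (by norm_num) (by norm_num) (by norm_num)
      (by norm_num) (by norm_num) (by norm_num) (by norm_num) (by norm_num) (by norm_num) n12 n15
    have z23 : F 2 3 = 0 := hF.deg hB (by norm_num) (by norm_num) (by norm_num) (by norm_num)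
      (by norm_num) (by norm_num) (by norm_num) (by norm_num) (by norm_num) (by norm_num) n20 n21
    rw [z13, z14, z23] at r13
    exact (mul_ne_zero (show b 3 ≠ 0 by linarith) n12) (by linarith)
  have a2 : α 2 = 0 := by
    rw [r02] at z12
    rcases mul_eq_zero.mp z12 with h | h
    · exact h
    · exact absurd h h2
  by_cases a4 : α 4 = 0
  · exact three_of α (i := 0) (j := 2) (k := 4) (by norm_num) (by norm_num) (by norm_num)
      (by norm_num) (by norm_num) (by norm_num) (by rw [a0, a2]) (by rw [a2, a4])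
  have n14 : F 1 4 ≠ 0 := by rw [r04]; exact mul_ne_zero a4 h4
  have z13 : F 1 3 = 0 := hF.deg hB (by norm_num) (by norm_num) (by norm_num) (by norm_num)
    (by norm_num) (by norm_num) (by norm_num) (by norm_num) (by norm_num) (by norm_num) n14 n15
  have e23 : b 2 * F 2 3 = b 4 * F 1 4 := by rw [r13, z12, z13]; ring
  have n23 : F 2 3 ≠ 0 := by
    intro h
    rw [h, mul_zero] at e23
    exact (mul_ne_zero (show b 4 ≠ 0 by linarith) n14) e23.symm
  have z25 : F 2 5 = 0 := hF.deg hB (by norm_num) (by norm_num) (by norm_num) (by norm_num)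
    (by norm_num) (by norm_num) (by norm_num) (by norm_num) (by norm_num) (by norm_num) n20 n23
  have a1 : α 1 = α 4 + α 5 := by
    rw [z25, r04, r05] at r15
    have h : b 5 * F 0 4 * (α 4 + α 5 - α 1) = 0 := by linear_combination -r15
    rcases mul_eq_zero.mp h with h | h
    · exact absurd h (mul_ne_zero (by linarith) h4)
    · linarith
  have e45 : b 5 ^ 2 - 1 = α 5 * α 4 := by
    rw [z24, z13, r04, r05, a1] at r14
    have h : F 0 4 * (b 5 ^ 2 - 1 - α 5 * α 4) = 0 := by linear_combination -r14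
    rcases mul_eq_zero.mp h with h | h
    · exact absurd h h4
    · linarith

  have n51 : F 5 1 ≠ 0 := by rw [hF.symm 5 1]; exact n15
  have A51 := v6_adj hB hF (u := 5) (v := 1) (by norm_num) (by norm_num) (by norm_num) n51
  have A14 := v6_adj hB hF (u := 1) (v := 4) (by norm_num) (by norm_num) (by norm_num) n14
  have A40 := v6_adj hB hF (u := 4) (v := 0) (by norm_num) (by norm_num) (by norm_num) n40
  have A02 := v6_adj hB hF (u := 0) (v := 2) (by norm_num) (by norm_num) (by norm_num) h2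
  have A23 := v6_adj hB hF (u := 2) (v := 3) (by norm_num) (by norm_num) (by norm_num) n23
  have D45 := v6_ne hF (u := 4) (v := 5) (by norm_num) (by norm_num) (by norm_num)
  have D01 := v6_ne hF (u := 0) (v := 1) (by norm_num) (by norm_num) (by norm_num)
  have D24 := v6_ne hF (u := 2) (v := 4) (by norm_num) (by norm_num) (by norm_num)
  have D30 := v6_ne hF (u := 3) (v := 0) (by norm_num) (by norm_num) (by norm_num)
  have hpos : (p 5 = 0 ∧ p 1 = 1) ∨ (p 3 = 0 ∧ p 2 = 1 ∧ p 0 = 2 ∧ p 4 = 3 ∧ p 1 = 4 ∧ p 5 = 5) := by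
    have q0 := hF.p_le 0 (by norm_num)
    have q1 := hF.p_le 1 (by norm_num)
    have q2 := hF.p_le 2 (by norm_num)
    have q3 := hF.p_le 3 (by norm_num)
    have q4 := hF.p_le 4 (by norm_num)
    have q5 := hF.p_le 5 (by norm_num)
    clear a1 e45 e23 n51 z25 n23 z13 n14 a4 a2 z12 z24 n40 n20 n15 r15 r14 r13 r12 r05 r04 r03 r02 r01 hb2 hb3 hb4 hb5 b6 b1 a0 h1 h2 h3 h4 h5
    rcases A51 with A51 | A51
    ·
      have A14' : p 4 = p 1 + 1 := by omega
      have A40' : p 0 = p 4 + 1 := by omega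
      have A02' : p 2 = p 0 + 1 := by omega
      have A23' : p 3 = p 2 + 1 := by omega
      omega
    · have A14' : p 1 = p 4 + 1 := by omega
      have A40' : p 4 = p 0 + 1 := by omega
      have A02' : p 0 = p 2 + 1 := by omega
      have A23' : p 2 = p 3 + 1 := by omega
      omega
  clear A51 A14 A40 A02 A23 D45 D01 D24 D30
  rcases hpos with ⟨p5, p1⟩ | ⟨p3, p2, p0, p4, p1, p5⟩
  · have w15 : |F 1 5| = b 1 := v6_w' hF (by norm_num) (by norm_num) p1 (by rw [p1, p5])
    rw [b1, r05] at w15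
    obtain ⟨g5, -⟩ := v6_absmul hb5 w15
    have a5 : α 5 = 0 := by
      rw [g5] at e45
      rcases mul_eq_zero.mp (show α 5 * α 4 = 0 by linarith) with h | h
      · exact h
      · exact absurd h a4
    exact three_of α (i := 0) (j := 2) (k := 5) (by norm_num) (by norm_num) (by norm_num)
      (by norm_num) (by norm_num) (by norm_num) (by rw [a0, a2]) (by rw [a2, a5])
  · have d0 := v6_d hF (u := 0) (by norm_num) p0
    have d2 := v6_d hF (u := 2) (by norm_num) p2
    have d1 := v6_d hF (u := 1) (by norm_num) p1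
    have w15 : |F 1 5| = b 5 := v6_w hF (by norm_num) (by norm_num) p5 (by rw [p1, p5])
    have w04 : |F 0 4| = b 3 := v6_w hF (by norm_num) (by norm_num) p4 (by rw [p4, p0])
    have w02 : |F 0 2| = b 2 := v6_w' hF (by norm_num) (by norm_num) p0 (by rw [p0, p2])
    have w14 : |F 1 4| = b 4 := v6_w' hF (by norm_num) (by norm_num) p1 (by rw [p1, p4])
    have w23 : |F 2 3| = b 1 := v6_w' hF (by norm_num) (by norm_num) p2 (by rw [p2, p3])
    rw [b1] at w23
    have s1 : |F 0 4| = 1 := by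
      rw [r05, abs_mul, abs_of_pos (show 0 < b 5 by linarith)] at w15
      have : b 5 * (|F 0 4| - 1) = 0 := by linear_combination w15
      rcases mul_eq_zero.mp this with h | h
      · linarith
      · linarith
    have g3 : b 3 = 1 := by rw [← w04, s1]
    have g24 : b 2 = b 4 := by
      rw [z13, g3] at r03
      have := v6_bal (x := 1) (y := F 0 2) (z := b 4) (w := F 0 4) (by norm_num) (by linarith)
        (by linarith)
      rw [s1, w02] at this
      linarith
    have g4 : b 2 = b 4 ^ 2 := by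
      have := congrArg abs e23
      rw [abs_mul, abs_mul, w23, w14, abs_of_pos (show 0 < b 2 by linarith),
        abs_of_pos (show 0 < b 4 by linarith)] at this
      linarith [sq (b 4)]
    have g4' : b 4 = 1 := by
      have h : b 4 * (b 4 - 1) = 0 := by linear_combination g24 - g4
      rcases mul_eq_zero.mp h with h | h
      · linarith
      · linarith
    have g2' : b 2 = 1 := by rw [g24, g4']
    have a41 : α 4 = 1 := by
      rw [r04, abs_mul, s1, abs_of_nonneg (hB.αnn 4), g4'] at w14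
      linarith
    have s' : F 0 2 = 1 := by
      rw [r01, d0, a2, g2', a41] at d1
      linarith
    have a1' : α 1 = 0 := by
      rw [z12, z13, d2, d1, g2', a41, s'] at r12
      linarith
    exact three_of α (i := 0) (j := 1) (k := 2) (by norm_num) (by norm_num) (by norm_num)
      (by norm_num) (by norm_num) (by norm_num) (by rw [a0, a1']) (by rw [a1', a2])

theorem V7 (hB : Base 5 α b) (hF : PathF 5 α b p F) (h1 : F 0 1 = 0)
    (h2 : F 0 2 = 0) (h3 : F 0 3 ≠ 0) (h4 : F 0 4 ≠ 0) (h5 : F 0 5 = 0) : Three 5 α := by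
  have b1 := hB.b1
  have b6 : b 6 = 0 := hB.bout 6 (by norm_num)
  have hb2 := hB.bpos 2 (by norm_num) (by norm_num)
  have hb3 := hB.bpos 3 (by norm_num) (by norm_num)
  have hb4 := hB.bpos 4 (by norm_num) (by norm_num)
  have hb5 := hB.bpos 5 (by norm_num) (by norm_num)
  have r01 := hF.recur0 hB 1 (by norm_num)
  have r02 := hF.recur0 hB 2 (by norm_num)
  have r03 := hF.recur0 hB 3 (by norm_num)
  have r04 := hF.recur0 hB 4 (by norm_num)
  have r05 := hF.recur0 hB 5 (by norm_num)
  have r12 := hF.recur1 hB 2 (by norm_num)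
  have r13 := hF.recur1 hB 3 (by norm_num)
  have r14 := hF.recur1 hB 4 (by norm_num)
  have r15 := hF.recur1 hB 5 (by norm_num)
  norm_num [b1, b6, h1, h2, h5] at r01 r02 r03 r04 r05 r12 r13 r14 r15
  have n12 : F 1 2 ≠ 0 := by rw [r02]; exact mul_ne_zero (by linarith) h3
  have n15 : F 1 5 ≠ 0 := by rw [r05]; exact mul_ne_zero (by linarith) h4
  have n21 : F 2 1 ≠ 0 := by rw [hF.symm 2 1]; exact n12
  have n51 : F 5 1 ≠ 0 := by rw [hF.symm 5 1]; exact n15
  have n30 : F 3 0 ≠ 0 := by rw [hF.symm 3 0]; exact h3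
  have n40 : F 4 0 ≠ 0 := by rw [hF.symm 4 0]; exact h4
  have z13 : F 1 3 = 0 := hF.deg hB (by norm_num) (by norm_num) (by norm_num) (by norm_num)
    (by norm_num) (by norm_num) (by norm_num) (by norm_num) (by norm_num) (by norm_num) n12 n15
  have z14 : F 1 4 = 0 := hF.deg hB (by norm_num) (by norm_num) (by norm_num) (by norm_num)
    (by norm_num) (by norm_num) (by norm_num) (by norm_num) (by norm_num) (by norm_num) n12 n15
  have z34 : F 3 4 = 0 := hF.tri hB (by norm_num) (by norm_num) (by norm_num) (by norm_num)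
    (by norm_num) (by norm_num) n30 h4
  have z25 : F 2 5 = 0 := hF.tri hB (by norm_num) (by norm_num) (by norm_num) (by norm_num)
    (by norm_num) (by norm_num) n21 n15
  have e23 : b 2 * F 2 3 = (b 3 ^ 2 - 1) * F 0 3 := by rw [r13, z13, z14, r02]; ring
  have e24 : b 2 * F 2 4 = (b 5 ^ 2 - 1) * F 0 4 := by rw [r14, z13, z14, r05]; ring
  have r24 := hF.recurk hB 2 (by norm_num) 4 (by norm_num)
  have r25 := hF.recurk hB 2 (by norm_num) 5 (by norm_num)
  norm_num [z34, z14, z25, b6] at r24 r25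
  have z23 : F 2 3 = 0 := by
    by_contra n23
    have z24 : F 2 4 = 0 := hF.deg hB (by norm_num) (by norm_num) (by norm_num) (by norm_num)
      (by norm_num) (by norm_num) (by norm_num) (by norm_num) (by norm_num) (by norm_num) n21 n23
    rw [z24, mul_zero, add_zero] at r24
    exact (mul_ne_zero (show b 4 ≠ 0 by linarith) n23) r24.symm
  have g3 : b 3 = 1 := by
    rw [z23, mul_zero] at e23
    rcases mul_eq_zero.mp e23.symm with h | h
    · exact v6_one hb3 (by linarith)
    · exact absurd h h3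
  have A30 := v6_adj hB hF (u := 3) (v := 0) (by norm_num) (by norm_num) (by norm_num) n30
  have A04 := v6_adj hB hF (u := 0) (v := 4) (by norm_num) (by norm_num) (by norm_num) h4
  have A21 := v6_adj hB hF (u := 2) (v := 1) (by norm_num) (by norm_num) (by norm_num) n21
  have A15 := v6_adj hB hF (u := 1) (v := 5) (by norm_num) (by norm_num) (by norm_num) n15
  have D34 := v6_ne hF (u := 3) (v := 4) (by norm_num) (by norm_num) (by norm_num)
  have D25 := v6_ne hF (u := 2) (v := 5) (by norm_num) (by norm_num) (by norm_num)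
  have z24 : F 2 4 = 0 := by
    by_contra n24
    have z35 : F 3 5 = 0 := by
      by_contra n35
      have A35 := v6_adj hB hF (u := 3) (v := 5) (by norm_num) (by norm_num) (by norm_num) n35
      have A24 := v6_adj hB hF (u := 2) (v := 4) (by norm_num) (by norm_num) (by norm_num) n24
      have D02 := v6_ne hF (u := 0) (v := 2) (by norm_num) (by norm_num) (by norm_num)
      have D41 := v6_ne hF (u := 4) (v := 1) (by norm_num) (by norm_num) (by norm_num)
      clear r25 r24 e24 e23 z25 z34 z14 z13 n40 n30 n51 n21 n15 n12 r15 r14 r13 r12 r05 r04 r03 r02 r01 hb2 hb3 hb4 hb5 b6 b1 h1 h2 h3 h4 h5 z23 g3 n24 n35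
      rcases A30 with A30 | A30
      · have h1 : p 4 = p 0 + 1 := by omega
        have h2 : p 2 = p 4 + 1 := by omega
        have h3 : p 1 = p 2 + 1 := by omega
        have h4 : p 5 = p 1 + 1 := by omega
        omega
      · have h1 : p 0 = p 4 + 1 := by omega
        have h2 : p 4 = p 2 + 1 := by omega
        have h3 : p 2 = p 1 + 1 := by omega
        have h4 : p 1 = p 5 + 1 := by omega
        omega
    rw [z35, mul_zero, r05] at r25
    have h : F 0 4 * b 5 * (b 5 ^ 2 - 1 - b 2 ^ 2) = 0 := by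
      linear_combination -b 5 * e24 - b 2 * r25
    rcases mul_eq_zero.mp h with h | h
    · exact absurd h (mul_ne_zero h4 (by linarith))
    · exact sq_ne (b 5) (b 2) hb5 hb2 (by linarith)
  have g5 : b 5 = 1 := by
    rw [z24, mul_zero] at e24
    rcases mul_eq_zero.mp e24.symm with h | h
    · exact v6_one hb5 (by linarith)
    · exact absurd h h4
  have e35 : F 3 5 = - (b 2 * F 0 4) := by
    rw [z24, r05, g3, g5] at r25
    linarith
  have n35 : F 3 5 ≠ 0 := by
    rw [e35]
    exact neg_ne_zero.mpr (mul_ne_zero (by linarith) h4)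
  have A35 := v6_adj hB hF (u := 3) (v := 5) (by norm_num) (by norm_num) (by norm_num) n35
  have D05 := v6_ne hF (u := 0) (v := 5) (by norm_num) (by norm_num) (by norm_num)
  have D13 := v6_ne hF (u := 1) (v := 3) (by norm_num) (by norm_num) (by norm_num)
  have hpos : (p 4 = 0 ∧ p 0 = 1 ∧ p 3 = 2 ∧ p 5 = 3 ∧ p 1 = 4 ∧ p 2 = 5) ∨
      (p 2 = 0 ∧ p 1 = 1 ∧ p 5 = 2 ∧ p 3 = 3 ∧ p 0 = 4 ∧ p 4 = 5) := by
    have q2 := hF.p_le 2 (by norm_num)
    have q4 := hF.p_le 4 (by norm_num)
    clear n35 e35 g5 z24 g3 z23 r25 r24 e24 e23 z25 z34 z14 z13 n40 n30 n51 n21 n15 n12 r15 r14 r13 r12 r05 r04 r03 r02 r01 hb2 hb3 hb4 hb5 b6 b1 h1 h2 h3 h4 h5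
    rcases A04 with A04 | A04
    ·
      have h1 : p 0 = p 3 + 1 := by omega
      have h2 : p 3 = p 5 + 1 := by omega
      have h3 : p 5 = p 1 + 1 := by omega
      have h4 : p 1 = p 2 + 1 := by omega
      omega
    · have h1 : p 3 = p 0 + 1 := by omega
      have h2 : p 5 = p 3 + 1 := by omega
      have h3 : p 1 = p 5 + 1 := by omega
      have h4 : p 2 = p 1 + 1 := by omega
      omega
  clear A30 A04 A21 A15 D34 D25 A35 D05 D13
  have c13 : α 3 * |F 0 3| = b 4 * |F 0 4| := by
    rw [z13] at r03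
    exact v6_bal (hB.αnn 3) (by linarith) (by linarith)
  have c14 : b 4 * |F 0 3| = α 4 * |F 0 4| := by
    rw [z14] at r04
    exact v6_bal (by linarith) (hB.αnn 4) (by linarith)
  rcases hpos with ⟨p4, p0, p3, p5, p1, p2⟩ | ⟨p2, p1, p5, p3, p0, p4⟩
  · have d0 := v6_d hF (u := 0) (by norm_num) p0
    have d1 := v6_d hF (u := 1) (by norm_num) p1
    have w04 : |F 0 4| = b 1 := v6_w' hF (by norm_num) (by norm_num) p0 (by rw [p0, p4])
    have w03 : |F 0 3| = b 2 := v6_w hF (by norm_num) (by norm_num) p3 (by rw [p3, p0])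
    have w35 : |F 3 5| = b 3 := v6_w hF (by norm_num) (by norm_num) p5 (by rw [p5, p3])
    have w15 : |F 1 5| = b 4 := v6_w' hF (by norm_num) (by norm_num) p1 (by rw [p1, p5])
    rw [b1] at w04
    rw [e35, abs_neg, g3] at w35
    obtain ⟨g2, -⟩ := v6_absmul hb2 w35
    rw [r05, g5, one_mul, w04] at w15
    rw [w04, w03, g2, ← w15] at c13
    rw [w04, w03, g2, ← w15] at c14
    have a3 : α 3 = 1 := by linarith
    have a4 : α 4 = 1 := by linarith
    have a1 : α 1 = 1 := by rw [← d0, ← r01, d1, a4]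
    exact three_of α (i := 1) (j := 3) (k := 4) (by norm_num) (by norm_num) (by norm_num)
      (by norm_num) (by norm_num) (by norm_num) (by rw [a1, a3]) (by rw [a3, a4])
  · have d0 := v6_d hF (u := 0) (by norm_num) p0
    have d1 := v6_d hF (u := 1) (by norm_num) p1
    have w12 : |F 1 2| = b 1 := v6_w' hF (by norm_num) (by norm_num) p1 (by rw [p1, p2])
    have w15 : |F 1 5| = b 2 := v6_w hF (by norm_num) (by norm_num) p5 (by rw [p5, p1])
    have w35 : |F 3 5| = b 3 := v6_w' hF (by norm_num) (by norm_num) p3 (by rw [p3, p5])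
    have w03 : |F 0 3| = b 4 := v6_w' hF (by norm_num) (by norm_num) p0 (by rw [p0, p3])
    rw [r02, g3, one_mul, b1] at w12
    rw [e35, abs_neg, g3] at w35
    obtain ⟨g2, w04⟩ := v6_absmul hb2 w35
    rw [w12] at w03
    rw [w04, w12, ← w03] at c13
    rw [w04, w12, ← w03] at c14
    have a3 : α 3 = 1 := by linarith
    have a4 : α 4 = 1 := by linarith
    have a1 : α 1 = 1 := by rw [← d1, r01, d0, a4]
    exact three_of α (i := 1) (j := 3) (k := 4) (by norm_num) (by norm_num) (by norm_num)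
      (by norm_num) (by norm_num) (by norm_num) (by rw [a1, a3]) (by rw [a3, a4])

end LS
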