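import Pool.Agent.LS.Core
import Pool.Agent.LS.PT

/-! Part `V8` of the classification of self-dual Leonard systems with integral normalized
intersection numbers (MP_963a96_al). -/
open Finset
namespace LS

variable {α b : ℕ → ℤ} {p : ℕ → ℕ} {F : ℕ → ℕ → ℤ}

theorem v8_ch6 (hB : Base 5 α b) (hF : PathF 5 α b p F) (v : ℕ → ℕ) (hv : ∀ i ≤ 5, v i ≤ 5)
    (hinj : ∀ i ≤ 5, ∀ j ≤ 5, v i = v j → i = j) (hadj : ∀ i < 5, F (v i) (v (i + 1)) ≠ 0) :
    (p (v 0) = 0 ∧ p (v 1) = 1 ∧ p (v 2) = 2 ∧ p (v 3) = 3 ∧ p (v 4) = 4 ∧ p (v 5) = 5) ∨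
    (p (v 0) = 5 ∧ p (v 1) = 4 ∧ p (v 2) = 3 ∧ p (v 3) = 2 ∧ p (v 4) = 1 ∧ p (v 5) = 0) := by
  have h0 := hF.p_le (v 0) (hv 0 (by norm_num))
  have h5 := hF.p_le (v 5) (hv 5 (by norm_num))
  rcases hF.mono hB 5 v hv hinj hadj with h | h
  · left
    have e1 := h 1 (by norm_num)
    have e2 := h 2 (by norm_num)
    have e3 := h 3 (by norm_num)
    have e4 := h 4 (by norm_num)
    have e5 := h 5 (by norm_num)
    omega
  · right
    have e1 := h 1 (by norm_num)
    have e2 := h 2 (by norm_num)
    have e3 := h 3 (by norm_num)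
    have e4 := h 4 (by norm_num)
    have e5 := h 5 (by norm_num)
    omega

theorem v8_ends (hB : Base 5 α b) (hF : PathF 5 α b p F) (k : ℕ) (hk : 2 ≤ k) (v : ℕ → ℕ)
    (hv : ∀ i ≤ k, v i ≤ 5)
    (hinj : ∀ i ≤ k, ∀ j ≤ k, v i = v j → i = j) (hadj : ∀ i < k, F (v i) (v (i + 1)) ≠ 0) :
    F (v 0) (v k) = 0 := by
  rcases hF.mono hB k v hv hinj hadj with h | h
  · have e := h k le_rfl
    exact hF.far _ (hv 0 (by omega)) _ (hv k le_rfl) (by omega)
  · have e := h k le_rfl
    rw [hF.symm]
    exact hF.far _ (hv k le_rfl) _ (hv 0 (by omega)) (by omega)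

theorem v8_e (hF : PathF 5 α b p F) {u v k : ℕ} (hu : u ≤ 5) (hv : v ≤ 5) (h1 : p u = k)
    (h2 : p v = k + 1) : |F u v| = b (k + 1) := by
  rw [hF.edge u hu v hv (by omega), h2]

theorem v8_g (hF : PathF 5 α b p F) {u k : ℕ} (hu : u ≤ 5) (h1 : p u = k) : F u u = α k := by
  rw [hF.diag u hu, h1]

theorem V8 (hB : Base 5 α b) (hF : PathF 5 α b p F)
    (M' : ℕ) (h1 : 1 ≤ M') (h3 : M' ≤ 3) (hM' : F 0 M' ≠ 0) (h5 : F 0 5 ≠ 0)
    (h0 : ∀ v, 1 ≤ v → v < 5 → v ≠ M' → F 0 v = 0) : Three 5 α := by
  have b1 := hB.b1
  have b2 := hB.bpos 2 (by norm_num) (by norm_num)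
  have b3 := hB.bpos 3 (by norm_num) (by norm_num)
  have b4 := hB.bpos 4 (by norm_num) (by norm_num)
  have b5 := hB.bpos 5 (by norm_num) (by norm_num)
  have b6 := hB.bout 6 (by norm_num)
  have a0 := hB.α0
  have r1 := hF.recur0 hB
  have r2 := hF.recur1 hB
  have r11 := r1 1 (by norm_num)
  have r12 := r1 2 (by norm_num)
  have r13 := r1 3 (by norm_num)
  have r14 := r1 4 (by norm_num)
  have r15 := r1 5 (by norm_num)
  have r25 := r2 5 (by norm_num)
  norm_num at r11 r12 r13 r14 r15 r25
  have sy10 := hF.symm 1 0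
  have sy50 := hF.symm 5 0
  obtain rfl | rfl | rfl : M' = 1 ∨ M' = 2 ∨ M' = 3 := by omega
  · have e2 := h0 2 (by norm_num) (by norm_num) (by norm_num)
    have e3 := h0 3 (by norm_num) (by norm_num) (by norm_num)
    have e4 := h0 4 (by norm_num) (by norm_num) (by norm_num)
    exfalso
    rw [e2, e3] at r12
    rw [e3, e4] at r14
    have n10 : F 1 0 ≠ 0 := by rw [sy10]; exact hM'
    have n12 : F 1 2 ≠ 0 := by
      rw [r12, mul_zero, mul_zero, add_zero, add_zero]
      exact mul_ne_zero (by omega) hM'
    have n14 : F 1 4 ≠ 0 := by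
      rw [r14, mul_zero, mul_zero, zero_add, zero_add]
      exact mul_ne_zero (by omega) h5
    exact n14 (hF.deg hB (u := 1) (v := 0) (w := 2) (t := 4) (by norm_num) (by norm_num)
      (by norm_num) (by norm_num) (by norm_num) (by norm_num) (by norm_num) (by norm_num)
      (by norm_num) (by norm_num) n10 n12)
  · have e1 := h0 1 (by norm_num) (by norm_num) (by norm_num)
    have e3 := h0 3 (by norm_num) (by norm_num) (by norm_num)
    have e4 := h0 4 (by norm_num) (by norm_num) (by norm_num)
    rw [e1, e3, mul_zero, mul_zero, zero_add, add_zero] at r12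
    rw [e3, e4, mul_zero, mul_zero, add_zero, add_zero] at r13
    rw [e3, e4, mul_zero, mul_zero, zero_add, zero_add] at r14
    rw [e4, b6, mul_zero, zero_mul, zero_add, add_zero] at r15
    have n13 : F 1 3 ≠ 0 := by
      rw [r13]
      exact mul_ne_zero (by omega) hM'
    have n14 : F 1 4 ≠ 0 := by
      rw [r14]
      exact mul_ne_zero (by omega) h5
    have z12 := hF.deg hB (u := 1) (v := 3) (w := 4) (t := 2) (by norm_num) (by norm_num)
      (by norm_num) (by norm_num) (by norm_num) (by norm_num) (by norm_num) (by norm_num)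
      (by norm_num) (by norm_num) n13 n14
    have z15 := hF.deg hB (u := 1) (v := 3) (w := 4) (t := 5) (by norm_num) (by norm_num)
      (by norm_num) (by norm_num) (by norm_num) (by norm_num) (by norm_num) (by norm_num)
      (by norm_num) (by norm_num) n13 n14
    rw [z12] at r12
    rw [z15] at r15
    have a2 : α 2 = 0 := (mul_eq_zero.1 r12.symm).resolve_right hM'
    have a5 : α 5 = 0 := (mul_eq_zero.1 r15.symm).resolve_right h5
    exact three_of α (i := 0) (j := 2) (k := 5) (by norm_num) (by norm_num) (by norm_num)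
      (by norm_num) (by norm_num) (by norm_num) (by rw [a0, a2]) (by rw [a2, a5])
  · have e1 := h0 1 (by norm_num) (by norm_num) (by norm_num)
    have e2 := h0 2 (by norm_num) (by norm_num) (by norm_num)
    have e4 := h0 4 (by norm_num) (by norm_num) (by norm_num)
    rw [e1, e2, mul_zero, mul_zero, zero_add, zero_add] at r12
    rw [e2, e4, mul_zero, mul_zero, zero_add, add_zero] at r13
    rw [e4, mul_zero, add_zero] at r14
    rw [e4, b6, mul_zero, zero_mul, zero_add, add_zero] at r15
    rw [b6, zero_mul, add_zero] at r25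
    have n12 : F 1 2 ≠ 0 := by
      rw [r12]
      exact mul_ne_zero (by omega) hM'
    by_cases c3 : α 3 = 0
    · by_cases c5 : α 5 = 0
      · exact three_of α (i := 0) (j := 3) (k := 5) (by norm_num) (by norm_num) (by norm_num)
          (by norm_num) (by norm_num) (by norm_num) (by rw [a0, c3]) (by rw [c3, c5])
      · have n15 : F 1 5 ≠ 0 := by
          rw [r15]
          exact mul_ne_zero c5 h5
        have z14 := hF.deg hB (u := 1) (v := 2) (w := 5) (t := 4) (by norm_num) (by norm_num)
          (by norm_num) (by norm_num) (by norm_num) (by norm_num) (by norm_num) (by norm_num)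
          (by norm_num) (by norm_num) n12 n15
        have z52 := hF.deg hB (u := 5) (v := 0) (w := 1) (t := 2) (by norm_num) (by norm_num)
          (by norm_num) (by norm_num) (by norm_num) (by norm_num) (by norm_num) (by norm_num)
          (by norm_num) (by norm_num) (by rw [sy50]; exact h5)
          (by rw [hF.symm 5 1]; exact n15)
        rw [hF.symm 5 2] at z52
        rw [z52, z14, r15] at r25
        have h6 : (α 5 - α 1) * α 5 = 1 := by
          have h7 : ((α 5 - α 1) * α 5 - 1) * F 0 5 = 0 := by linear_combination -r25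
          have h8 := (mul_eq_zero.1 h7).resolve_right h5
          linarith
        have ha5 := hB.αnn 5
        have h9 : α 5 = 1 := by
          have h10 : α 5 ∣ 1 := ⟨α 5 - α 1, by linarith⟩
          exact Int.eq_one_of_dvd_one ha5 h10
        have h11 : α 1 = 0 := by
          rw [h9] at h6
          linarith
        exact three_of α (i := 0) (j := 1) (k := 3) (by norm_num) (by norm_num) (by norm_num)
          (by norm_num) (by norm_num) (by norm_num) (by rw [a0, h11]) (by rw [h11, c3])
    · exfalso
      have n13 : F 1 3 ≠ 0 := by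
        rw [r13]
        exact mul_ne_zero c3 hM'
      have z14 := hF.deg hB (u := 1) (v := 2) (w := 3) (t := 4) (by norm_num) (by norm_num)
        (by norm_num) (by norm_num) (by norm_num) (by norm_num) (by norm_num) (by norm_num)
        (by norm_num) (by norm_num) n12 n13
      have z15 := hF.deg hB (u := 1) (v := 2) (w := 3) (t := 5) (by norm_num) (by norm_num)
        (by norm_num) (by norm_num) (by norm_num) (by norm_num) (by norm_num) (by norm_num)
        (by norm_num) (by norm_num) n12 n13
      rw [z14, z15, mul_zero, mul_zero] at r25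
      have h6 := v8_ends hB hF 4 (by norm_num) (fun i => [5, 0, 3, 1, 2].getD i 0) (by decide)
        (by decide) (by
          intro i hi
          have n50 : F 5 0 ≠ 0 := by rw [sy50]; exact h5
          have n31 : F 3 1 ≠ 0 := by rw [hF.symm 3 1]; exact n13
          obtain rfl | rfl | rfl | rfl : i = 0 ∨ i = 1 ∨ i = 2 ∨ i = 3 := by omega
          exacts [n50, hM', n31, n12])
      have h7 : F 5 2 = 0 := h6
      rw [hF.symm 5 2] at h7
      rw [h7] at r25
      apply h5
      linarith

theorem v9_abs {a c x y : ℤ} (ha : 0 ≤ a) (hc : 0 ≤ c) (h : a * x = c * y ∨ a * x = -(c * y)) :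
    a * |x| = c * |y| := by
  have h1 : |a * x| = |c * y| := by
    rcases h with h | h
    · rw [h]
    · rw [h, abs_neg]
  rwa [abs_mul, abs_mul, abs_of_nonneg ha, abs_of_nonneg hc] at h1

theorem V9 (hB : Base 5 α b) (hF : PathF 5 α b p F) (h1 : F 0 1 = 0)
    (h2 : F 0 2 = 0) (h3 : F 0 3 = 0) (h4 : F 0 4 ≠ 0) (h5 : F 0 5 ≠ 0) :
    Three 5 α ∨ (α 1 = α 3 ∧ α 2 = α 4) ∨
      (α 3 = α 1 ∧ α 5 = α 2 ∧ b 4 = 1 ∧ b 5 = b 3 ∧ α 4 = b 2 ∧ b 2 * α 2 = b 3 ^ 2) := by
  have b1 := hB.b1
  have b2 := hB.bpos 2 (by norm_num) (by norm_num)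
  have b3 := hB.bpos 3 (by norm_num) (by norm_num)
  have b4 := hB.bpos 4 (by norm_num) (by norm_num)
  have b5 := hB.bpos 5 (by norm_num) (by norm_num)
  have b6 := hB.bout 6 (by norm_num)
  have a0 := hB.α0
  have a4 := hB.αnn 4
  have a5 := hB.αnn 5
  have r1 := hF.recur0 hB
  have r2 := hF.recur1 hB
  have r3 := hF.recurk hB 2 (by norm_num)
  have r11 := r1 1 (by norm_num)
  have r13 := r1 3 (by norm_num)
  have r14 := r1 4 (by norm_num)
  have r15 := r1 5 (by norm_num)
  have q23 := r2 3 (by norm_num)
  have q24 := r2 4 (by norm_num)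
  have q25 := r2 5 (by norm_num)
  have t34 := r3 4 (by norm_num)
  have t35 := r3 5 (by norm_num)
  have r12 := r1 2 (by norm_num)
  norm_num at r11 r12 r13 r14 r15 q23 q24 q25 t34 t35
  rw [h1, h2, b1, one_mul, mul_zero, mul_zero, add_zero, add_zero] at r11
  rw [h1, h2, h3, mul_zero, mul_zero, mul_zero, add_zero, add_zero] at r12
  rw [h2, h3, mul_zero, mul_zero, zero_add, zero_add] at r13
  rw [h3, mul_zero, zero_add] at r14
  rw [b6, zero_mul, add_zero] at r15 q25 t35
  rw [r12, h3, mul_zero, zero_add, sub_zero] at q23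
  have sy10 := hF.symm 1 0
  have sy40 := hF.symm 4 0
  have sy50 := hF.symm 5 0
  have sy31 := hF.symm 3 1
  have sy41 := hF.symm 4 1
  have sy51 := hF.symm 5 1
  have sy32 := hF.symm 3 2
  have sy42 := hF.symm 4 2
  have sy52 := hF.symm 5 2
  have sy43 := hF.symm 4 3
  have sy53 := hF.symm 5 3
  have n40 : F 4 0 ≠ 0 := by rw [sy40]; exact h4
  have n50 : F 5 0 ≠ 0 := by rw [sy50]; exact h5
  have n13 : F 1 3 ≠ 0 := by
    rw [r13]
    exact mul_ne_zero (by omega) h4
  have n31 : F 3 1 ≠ 0 := by rw [sy31]; exact n13
  by_cases c14 : F 1 4 = 0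
  ·
    have f4 : α 4 * F 0 4 = -(b 5 * F 0 5) := by
      rw [c14] at r14
      linarith
    have p4 : 1 ≤ α 4 := by
      rcases a4.lt_or_eq with h | h
      · omega
      · exfalso
        rw [← h, zero_mul] at f4
        exact mul_ne_zero (show b 5 ≠ 0 by omega) h5 (by linarith)
    by_cases c15 : F 1 5 = 0
    ·
      have f5 : b 5 * F 0 4 = -(α 5 * F 0 5) := by
        rw [c15] at r15
        linarith
      have p5 : 1 ≤ α 5 := by
        rcases a5.lt_or_eq with h | h
        · omega
        · exfalso
          rw [← h, zero_mul, neg_zero] at f5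
          exact mul_ne_zero (show b 5 ≠ 0 by omega) h4 f5
      rw [c14, mul_zero, add_zero] at q23
      rw [c14, c15, mul_zero, mul_zero, add_zero, add_zero] at q24
      rw [c14, c15, mul_zero, mul_zero, zero_add, zero_sub] at q25
      rw [c14, mul_zero, sub_zero] at t34
      rw [c15, mul_zero, sub_zero] at t35
      have n25 : F 2 5 ≠ 0 := by
        intro h
        rw [h, mul_zero] at q25
        exact h5 (by linarith)
      have n52 : F 5 2 ≠ 0 := by rw [sy52]; exact n25
      have z53 : F 5 3 = 0 := hF.deg hB (u := 5) (v := 0) (w := 2) (t := 3) (by norm_num)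
        (by norm_num) (by norm_num) (by norm_num) (by norm_num) (by norm_num) (by norm_num)
        (by norm_num) (by norm_num) (by norm_num) n50 n52
      have z42 : F 4 2 = 0 := v8_ends hB hF 3 (by norm_num) (fun i => [4, 0, 5, 2].getD i 0)
        (by decide) (by decide) (by
          intro i hi
          obtain rfl | rfl | rfl : i = 0 ∨ i = 1 ∨ i = 2 := by omega
          exacts [n40, h5, n52])
      rw [sy42] at z42
      rw [sy53] at z53
      rw [z42, mul_zero] at q24 t35
      rw [z53, mul_zero, zero_add] at t35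
      rw [z42, mul_zero, add_zero] at t34
      have e52 : α 5 = α 2 := by
        have h := (mul_eq_zero.1 t35.symm).resolve_right n25
        linarith
      have e4 : b 4 = 1 := by
        have h : (b 4 ^ 2 - 1) * F 0 4 = 0 := by
          rw [r13] at q24
          linear_combination -q24
        have h' := (mul_eq_zero.1 h).resolve_right h4
        nlinarith
      by_cases c23 : F 2 3 = 0
      ·
        have e31 : α 3 = α 1 := by
          rw [c23, mul_zero] at q23
          have h := (mul_eq_zero.1 q23.symm).resolve_right n13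
          linarith
        rw [c23, mul_zero, zero_add] at t34
        have n34 : F 3 4 ≠ 0 := by
          intro h
          rw [h, mul_zero] at t34
          exact mul_ne_zero (show b 5 ≠ 0 by omega) n25 t34.symm
        rcases v8_ch6 hB hF (fun i => [1, 3, 4, 0, 5, 2].getD i 0) (by decide) (by decide) (by
          intro i hi
          obtain rfl | rfl | rfl | rfl | rfl : i = 0 ∨ i = 1 ∨ i = 2 ∨ i = 3 ∨ i = 4 := by omega
          exacts [n13, n34, n40, h5, n52]) with ⟨k0, k1, k2, k3, k4, k5⟩ | ⟨k0, k1, k2, k3, k4, k5⟩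
        · left
          have g0 : F 0 0 = α 3 := v8_g hF (by norm_num) k3
          have g1 : F 1 1 = α 0 := v8_g hF (by norm_num) k0
          have e : α 0 = α 3 := by rw [← g0, ← g1, r11]
          exact three_of α (i := 0) (j := 3) (k := 1) (by norm_num) (by norm_num) (by norm_num)
            (by norm_num) (by norm_num) (by norm_num) e e31
        · right; right
          have l25 : |F 2 5| = b 1 := v8_e hF (u := 2) (v := 5) (by norm_num) (by norm_num) k5 k4
          have l05 : |F 5 0| = b 2 := v8_e hF (u := 5) (v := 0) (by norm_num) (by norm_num) k4 k3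
          have l04 : |F 0 4| = b 3 := v8_e hF (u := 0) (v := 4) (by norm_num) (by norm_num) k3 k2
          have l34 : |F 4 3| = b 4 := v8_e hF (u := 4) (v := 3) (by norm_num) (by norm_num) k2 k1
          rw [sy50] at l05
          rw [sy43] at l34
          have m1 := v9_abs (by omega) (by omega) (Or.inl t34)
          have m2 := v9_abs (by omega) (by omega) (Or.inr f4)
          have m3 := v9_abs (by omega) (by omega) (Or.inr f5)
          rw [l34, l25, e4, b1, mul_one, mul_one] at m1
          rw [l04, l05, ← m1] at m2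
          rw [l04, l05, ← m1, e52] at m3
          refine ⟨e31, e52, e4, m1.symm, ?_, by linarith⟩
          have h : (α 4 - b 2) * b 3 = 0 := by linear_combination m2
          have h' := (mul_eq_zero.1 h).resolve_right (by omega)
          linarith
      ·
        left
        have n32 : F 3 2 ≠ 0 := by rw [sy32]; exact c23
        have z34 : F 3 4 = 0 := hF.deg hB (u := 3) (v := 1) (w := 2) (t := 4) (by norm_num)
          (by norm_num) (by norm_num) (by norm_num) (by norm_num) (by norm_num) (by norm_num)
          (by norm_num) (by norm_num) (by norm_num) n31 n32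
        rcases v8_ch6 hB hF (fun i => [1, 3, 2, 5, 0, 4].getD i 0) (by decide) (by decide) (by
          intro i hi
          obtain rfl | rfl | rfl | rfl | rfl : i = 0 ∨ i = 1 ∨ i = 2 ∨ i = 3 ∨ i = 4 := by omega
          exacts [n13, n32, n25, n50, h4]) with ⟨k0, k1, k2, k3, k4, k5⟩ | ⟨k0, k1, k2, k3, k4, k5⟩
        · exfalso
          have g0 : F 0 0 = α 4 := v8_g hF (by norm_num) k4
          have g1 : F 1 1 = α 0 := v8_g hF (by norm_num) k0
          have e : α 0 = α 4 := by rw [← g0, ← g1, r11]
          omega
        · have l04 : |F 4 0| = b 1 := v8_e hF (u := 4) (v := 0) (by norm_num) (by norm_num) k5 k4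
          have l05 : |F 0 5| = b 2 := v8_e hF (u := 0) (v := 5) (by norm_num) (by norm_num) k4 k3
          rw [sy40, b1] at l04
          have m3 := v9_abs (by omega) (by omega) (Or.inr f5)
          have m4 := v9_abs (a := b 2) (x := F 2 5) (c := 1) (y := F 0 5) (by omega) (by omega)
            (Or.inr (by linarith))
          have l25 : |F 5 2| = b 3 := v8_e hF (u := 5) (v := 2) (by norm_num) (by norm_num) k3 k2
          have l13 : |F 3 1| = b 5 := v8_e hF (u := 3) (v := 1) (by norm_num) (by norm_num) k1 k0
          have m5 := v9_abs (a := 1) (x := F 1 3) (c := b 4) (y := F 0 4) (by omega) (by omega)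
            (Or.inl (by linarith))
          rw [sy31] at l13
          rw [l13, l04, e4, one_mul, one_mul] at m5
          rw [l04, l05, m5, one_mul] at m3
          have e5 : α 5 = 1 := Int.eq_one_of_dvd_one a5 ⟨b 2, m3⟩
          have g0 : F 0 0 = α 1 := v8_g hF (by norm_num) k4
          have g1 : F 1 1 = α 5 := v8_g hF (by norm_num) k0
          have e : α 1 = α 5 := by rw [← g0, ← g1, r11]
          exact three_of α (i := 1) (j := 5) (k := 2) (by norm_num) (by norm_num) (by norm_num)
            (by norm_num) (by norm_num) (by norm_num) e e52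
    ·
      right; left
      have n51 : F 5 1 ≠ 0 := by rw [sy51]; exact c15
      have z52 : F 5 2 = 0 := hF.deg hB (u := 5) (v := 0) (w := 1) (t := 2) (by norm_num)
        (by norm_num) (by norm_num) (by norm_num) (by norm_num) (by norm_num) (by norm_num)
        (by norm_num) (by norm_num) (by norm_num) n50 n51
      have z53 : F 5 3 = 0 := hF.deg hB (u := 5) (v := 0) (w := 1) (t := 3) (by norm_num)
        (by norm_num) (by norm_num) (by norm_num) (by norm_num) (by norm_num) (by norm_num)
        (by norm_num) (by norm_num) (by norm_num) n50 n51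
      rw [sy52] at z52
      rw [sy53] at z53
      rw [z52, z53, mul_zero, mul_zero, add_zero] at t35
      have n24 : F 2 4 ≠ 0 := by
        intro h
        rw [h, mul_zero, zero_sub] at t35
        exact mul_ne_zero (show b 2 ≠ 0 by omega) c15 (by linarith)
      have n42 : F 4 2 ≠ 0 := by rw [sy42]; exact n24
      have z43 : F 4 3 = 0 := hF.deg hB (u := 4) (v := 0) (w := 2) (t := 3) (by norm_num)
        (by norm_num) (by norm_num) (by norm_num) (by norm_num) (by norm_num) (by norm_num)
        (by norm_num) (by norm_num) (by norm_num) n40 n42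
      rw [sy43] at z43
      have z23 : F 2 3 = 0 := v8_ends hB hF 5 (by norm_num)
        (fun i => [2, 4, 0, 5, 1, 3].getD i 0) (by decide) (by decide) (by
          intro i hi
          obtain rfl | rfl | rfl | rfl | rfl : i = 0 ∨ i = 1 ∨ i = 2 ∨ i = 3 ∨ i = 4 := by omega
          exacts [n24, n40, h5, n51, n13])
      rw [z23, c14, mul_zero, mul_zero, add_zero] at q23
      rw [z43, z23, z52, c14, mul_zero, mul_zero, mul_zero, mul_zero, zero_add, add_zero,
        sub_zero] at t34
      have e1 := (mul_eq_zero.1 q23.symm).resolve_right n13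
      have e2 := (mul_eq_zero.1 t34.symm).resolve_right n24
      exact ⟨by linarith, by linarith⟩
  ·
    left
    have n41 : F 4 1 ≠ 0 := by rw [sy41]; exact c14
    have z15 : F 1 5 = 0 := hF.deg hB (u := 1) (v := 3) (w := 4) (t := 5) (by norm_num)
      (by norm_num) (by norm_num) (by norm_num) (by norm_num) (by norm_num) (by norm_num)
      (by norm_num) (by norm_num) (by norm_num) n13 c14
    have z42 : F 4 2 = 0 := hF.deg hB (u := 4) (v := 0) (w := 1) (t := 2) (by norm_num)
      (by norm_num) (by norm_num) (by norm_num) (by norm_num) (by norm_num) (by norm_num)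
      (by norm_num) (by norm_num) (by norm_num) n40 n41
    have z43 : F 4 3 = 0 := hF.deg hB (u := 4) (v := 0) (w := 1) (t := 3) (by norm_num)
      (by norm_num) (by norm_num) (by norm_num) (by norm_num) (by norm_num) (by norm_num)
      (by norm_num) (by norm_num) (by norm_num) n40 n41
    have z53 : F 5 3 = 0 := v8_ends hB hF 4 (by norm_num) (fun i => [5, 0, 4, 1, 3].getD i 0)
      (by decide) (by decide) (by
        intro i hi
        obtain rfl | rfl | rfl | rfl : i = 0 ∨ i = 1 ∨ i = 2 ∨ i = 3 := by omega
        exacts [n50, h4, n41, n13])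
    rw [sy42] at z42
    rw [sy43] at z43
    rw [sy53] at z53
    rw [z42, z15, mul_zero, mul_zero, add_zero] at q24
    rw [z15, mul_zero, add_zero] at q25
    rw [z43, z42, mul_zero, mul_zero, add_zero] at t34
    rw [z53, z42, z15, mul_zero, mul_zero, mul_zero, zero_add, sub_zero] at t35
    have q24' : (b 4 ^ 2 - 1) * F 0 4 + (α 4 - α 1) * F 1 4 = 0 := by
      rw [r13] at q24
      linear_combination -q24
    have m5 := v9_abs (a := 1) (x := F 1 3) (c := b 4) (y := F 0 4) (by omega) (by omega)
      (Or.inl (by linarith))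
    rw [one_mul] at m5
    by_cases c25 : F 2 5 = 0
    ·
      rw [c25, mul_zero] at q25
      rw [c25, mul_zero, add_zero] at t34
      have n23 : F 2 3 ≠ 0 := by
        intro h
        rw [h, mul_zero, zero_sub] at t34
        exact mul_ne_zero (show b 2 ≠ 0 by omega) c14 (by linarith)
      have n32 : F 3 2 ≠ 0 := by rw [sy32]; exact n23
      have m6 := v9_abs (a := 1) (x := F 0 5) (c := b 5) (y := F 1 4) (by omega) (by omega)
        (Or.inl (by linarith))
      rw [one_mul] at m6
      have m7 := v9_abs (a := b 4) (x := F 2 3) (c := b 2) (y := F 1 4) (by omega) (by omega)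
        (Or.inl (by linarith))
      rcases v8_ch6 hB hF (fun i => [5, 0, 4, 1, 3, 2].getD i 0) (by decide) (by decide) (by
        intro i hi
        obtain rfl | rfl | rfl | rfl | rfl : i = 0 ∨ i = 1 ∨ i = 2 ∨ i = 3 ∨ i = 4 := by omega
        exacts [n50, h4, n41, n13, n32]) with ⟨k0, k1, k2, k3, k4, k5⟩ | ⟨k0, k1, k2, k3, k4, k5⟩
      · have l05 : |F 5 0| = b 1 := v8_e hF (u := 5) (v := 0) (by norm_num) (by norm_num) k0 k1
        have l04 : |F 0 4| = b 2 := v8_e hF (u := 0) (v := 4) (by norm_num) (by norm_num) k1 k2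
        have l14 : |F 4 1| = b 3 := v8_e hF (u := 4) (v := 1) (by norm_num) (by norm_num) k2 k3
        have l13 : |F 1 3| = b 4 := v8_e hF (u := 1) (v := 3) (by norm_num) (by norm_num) k3 k4
        have l23 : |F 3 2| = b 5 := v8_e hF (u := 3) (v := 2) (by norm_num) (by norm_num) k4 k5
        rw [sy50, b1] at l05
        rw [sy41] at l14
        rw [sy32] at l23
        rw [l05, l14] at m6
        rw [l23, l14] at m7
        rw [l13, l04] at m5
        have e5 : b 5 = 1 := Int.eq_one_of_dvd_one (by omega) ⟨b 3, m6⟩
        rw [e5, one_mul] at m6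
        have e2 : b 2 = 1 := by
          have h : b 4 * (b 2 - 1) = 0 := by linear_combination -m5
          have h' := (mul_eq_zero.1 h).resolve_left (by omega)
          linarith
        rw [e5, e2, ← m6, mul_one, mul_one] at m7
        have e41 : α 4 = α 1 := by
          rw [m7] at q24'
          have h : (α 4 - α 1) * F 1 4 = 0 := by linarith
          have h' := (mul_eq_zero.1 h).resolve_right c14
          linarith
        have g0 : F 0 0 = α 1 := v8_g hF (by norm_num) k1
        have g1 : F 1 1 = α 3 := v8_g hF (by norm_num) k3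
        have e : α 1 = α 3 := by rw [← g0, ← g1, r11]
        exact three_of α (i := 4) (j := 1) (k := 3) (by norm_num) (by norm_num) (by norm_num)
          (by norm_num) (by norm_num) (by norm_num) e41 e
      · have l23 : |F 2 3| = b 1 := v8_e hF (u := 2) (v := 3) (by norm_num) (by norm_num) k5 k4
        have l13 : |F 3 1| = b 2 := v8_e hF (u := 3) (v := 1) (by norm_num) (by norm_num) k4 k3
        have l14 : |F 1 4| = b 3 := v8_e hF (u := 1) (v := 4) (by norm_num) (by norm_num) k3 k2
        have l04 : |F 4 0| = b 4 := v8_e hF (u := 4) (v := 0) (by norm_num) (by norm_num) k2 k1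
        have l05 : |F 0 5| = b 5 := v8_e hF (u := 0) (v := 5) (by norm_num) (by norm_num) k1 k0
        rw [b1] at l23
        rw [sy31] at l13
        rw [sy40] at l04
        rw [l13, l04] at m5
        rw [l05] at m6
        rw [l23, mul_one] at m7
        have f14 : |F 1 4| = 1 := by
          have h : b 5 * (|F 1 4| - 1) = 0 := by linear_combination -m6
          have h' := (mul_eq_zero.1 h).resolve_left (by omega)
          linarith
        rw [f14, mul_one] at m7
        have e4 : b 4 = 1 := by
          have h : b 4 * (b 4 - 1) = 0 := by linear_combination -m7 - m5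
          have h' := (mul_eq_zero.1 h).resolve_left (by omega)
          linarith
        have e41 : α 4 = α 1 := by
          rw [e4] at q24'
          have h : (α 4 - α 1) * F 1 4 = 0 := by linarith
          have h' := (mul_eq_zero.1 h).resolve_right c14
          linarith
        have g0 : F 0 0 = α 4 := v8_g hF (by norm_num) k1
        have g1 : F 1 1 = α 2 := v8_g hF (by norm_num) k3
        have e : α 4 = α 2 := by rw [← g0, ← g1, r11]
        exact three_of α (i := 1) (j := 4) (k := 2) (by norm_num) (by norm_num) (by norm_num)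
          (by norm_num) (by norm_num) (by norm_num) e41.symm e
    ·
      exfalso
      have n52 : F 5 2 ≠ 0 := by rw [sy52]; exact c25
      have ch : ∀ i < 5, F ([3, 1, 4, 0, 5, 2].getD i 0) ([3, 1, 4, 0, 5, 2].getD (i + 1) 0) ≠ 0 := by
        intro i hi
        obtain rfl | rfl | rfl | rfl | rfl : i = 0 ∨ i = 1 ∨ i = 2 ∨ i = 3 ∨ i = 4 := by omega
        exacts [n31, c14, n40, h5, n52]
      have z32 : F 3 2 = 0 := v8_ends hB hF 5 (by norm_num) (fun i => [3, 1, 4, 0, 5, 2].getD i 0)
        (by decide) (by decide) ch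
      rw [sy32] at z32
      rw [z32, mul_zero, zero_add] at t34
      have m8 := v9_abs (a := b 5) (x := F 2 5) (c := b 2) (y := F 1 4) (by omega) (by omega)
        (Or.inl (by linarith))
      have key : (b 5 ^ 2 - b 2 ^ 2) * F 1 4 = b 5 * F 0 5 := by
        linear_combination -b 2 * t34 - b 5 * q25
      rcases v8_ch6 hB hF (fun i => [3, 1, 4, 0, 5, 2].getD i 0) (by decide) (by decide) ch with
        ⟨k0, k1, k2, k3, k4, k5⟩ | ⟨k0, k1, k2, k3, k4, k5⟩
      · have l14 : |F 1 4| = b 2 := v8_e hF (u := 1) (v := 4) (by norm_num) (by norm_num) k1 k2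
        have l25 : |F 5 2| = b 5 := v8_e hF (u := 5) (v := 2) (by norm_num) (by norm_num) k4 k5
        rw [sy52] at l25
        rw [l14, l25] at m8
        have h : b 5 * F 0 5 = 0 := by
          rw [← key]
          have h' : b 5 ^ 2 - b 2 ^ 2 = 0 := by linear_combination m8
          rw [h', zero_mul]
        exact mul_ne_zero (show b 5 ≠ 0 by omega) h5 h
      · have l25 : |F 2 5| = b 1 := v8_e hF (u := 2) (v := 5) (by norm_num) (by norm_num) k5 k4
        have l05 : |F 5 0| = b 2 := v8_e hF (u := 5) (v := 0) (by norm_num) (by norm_num) k4 k3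
        have l14 : |F 4 1| = b 4 := v8_e hF (u := 4) (v := 1) (by norm_num) (by norm_num) k2 k1
        rw [b1] at l25
        rw [sy50] at l05
        rw [sy41] at l14
        rw [l14, l25, mul_one] at m8
        have hk := congrArg abs key
        rw [abs_mul, abs_mul, l14, l05, abs_of_nonneg (show 0 ≤ b 5 by omega), m8] at hk
        have h2' : |b 4 ^ 2 - 1| = 1 := by
          have e1 : (b 2 * b 4) ^ 2 - b 2 ^ 2 = b 2 ^ 2 * (b 4 ^ 2 - 1) := by ring
          rw [e1, abs_mul, abs_of_nonneg (sq_nonneg (b 2))] at hk
          have h : (b 2 ^ 2 * b 4) * (|b 4 ^ 2 - 1| - 1) = 0 := by linear_combination hk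
          have h' := (mul_eq_zero.1 h).resolve_left
            (mul_ne_zero (pow_ne_zero 2 (by omega)) (by omega))
          linarith
        rcases eq_or_eq_neg_of_abs_eq h2' with h | h
        · have h3' : b 4 ^ 2 = 2 := by linarith
          have h4' : b 4 < 2 := by nlinarith
          have h5' : b 4 = 1 := by omega
          rw [h5'] at h3'
          norm_num at h3'
        · have h3' : b 4 ^ 2 = 0 := by linarith
          nlinarith

end LS
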