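import Pool.Agent.LS.Core
import Pool.Agent.LS.PT
import Pool.Agent.LS.W0
import Pool.Agent.LS.W1
import Pool.Agent.LS.GA5
import Pool.Agent.LS.AW2
import Pool.Agent.LS.CH1
import Pool.Agent.LS.Q1
import Pool.Agent.LS.Q2
import Pool.Agent.LS.Q3
import Pool.Agent.LS.V3
import Pool.Agent.LS.V4
import Pool.Agent.LS.V5
import Pool.Agent.LS.V6
import Pool.Agent.LS.V8
import Pool.Agent.LS.V11

/-! Part `V12` of the classification of self-dual Leonard systems with integral normalized
intersection numbers (MP_963a96_al). -/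
open Finset
namespace LS

variable {α b : ℕ → ℤ} {p : ℕ → ℕ} {F : ℕ → ℕ → ℤ}

variable {lam : ℕ → ℝ} {S : ℕ → ℕ → ℝ} {N : ℕ → ℕ → ℕ → ℤ} {π : ℕ → ℕ} {ε : ℕ → ℤ}

theorem v12_eq (h : Ctx 5 α b lam S N π ε p F) (h1 : α 1 = α 3) (h2 : α 2 = α 4) : Three 5 α := by
  obtain ⟨γ, ρ, p0, p1, hA⟩ := aw_rel h.str.base h.str.weak (by norm_num)
  have h3 := lemma_Z h.str.base hA (by norm_num) 2 (by norm_num) (by norm_num) h1 h2
  have h3' : α 1 = α 2 := h3
  exact three_of α (i := 1) (j := 2) (k := 3) (by norm_num) (by norm_num) (by norm_num) (by norm_num)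
    (by norm_num) (by norm_num) h3' (h3'.symm.trans h1)

theorem v12_spec (h : Ctx 5 α b lam S N π ε p F)
    (hp : (p 0 = 0 ∧ p 4 = 1 ∧ p 2 = 2 ∧ p 3 = 3 ∧ p 1 = 4 ∧ p 5 = 5) ∨
      (p 5 = 0 ∧ p 1 = 1 ∧ p 3 = 2 ∧ p 2 = 3 ∧ p 4 = 4 ∧ p 0 = 5)) : False := by
  obtain ⟨γ, ρ, p0, p1, hA⟩ := aw_rel h.str.base h.str.weak (by norm_num)
  obtain ⟨γ', ρ', p0', p1', hA'⟩ := aw_rel h.str.base
    (conj_weak h.str.weak h.str.pos h.gal h.tw) (by norm_num)
  have q0 := h.πp 0 (by norm_num)
  have q1 := h.πp 1 (by norm_num)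
  have q2 := h.πp 2 (by norm_num)
  have q3 := h.πp 3 (by norm_num)
  have q4 := h.πp 4 (by norm_num)
  have q5 := h.πp 5 (by norm_num)
  refine spec5w lam (fun j => lam (π j)) _ _ _ _ hA.inj hA.w1 hA'.w1 ?_
  rcases hp with ⟨e0, e4, e2, e3, e1, e5⟩ | ⟨e5, e1, e3, e2, e4, e0⟩
  · left
    rw [e0] at q0
    rw [e1] at q1
    rw [e2] at q2
    rw [e3] at q3
    rw [e4] at q4
    rw [e5] at q5
    simp only [q0, q1, q2, q3, q4, q5, and_self]
  · right
    rw [e0] at q0
    rw [e1] at q1
    rw [e2] at q2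
    rw [e3] at q3
    rw [e4] at q4
    rw [e5] at q5
    simp only [q0, q1, q2, q3, q4, q5, and_self]

theorem V12 (h : Ctx 5 α b lam S N π ε p F) (hM : ∃ v, 2 ≤ v ∧ v ≤ 5 ∧ F 0 v ≠ 0) :
    Three 5 α := by
  have hB := h.str.base
  have hF := h.path
  have dg : ∀ v w t : ℕ, 1 ≤ v → v ≤ 5 → 1 ≤ w → w ≤ 5 → 1 ≤ t → t ≤ 5 → v ≠ w → v ≠ t → w ≠ t →
      F 0 v ≠ 0 → F 0 w ≠ 0 → F 0 t = 0 := by
    intro v w t hv1 hv hw1 hw ht1 ht h4 h5 h6 e1 e2
    exact hF.deg hB (by norm_num) hv hw ht (by omega) (by omega) (by omega) h4 h5 h6 e1 e2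
  by_cases f5 : F 0 5 = 0
  · by_cases f4 : F 0 4 = 0
    · by_cases f3 : F 0 3 = 0
      · have f2 : F 0 2 ≠ 0 := by
          obtain ⟨v, hv1, hv2, hv⟩ := hM
          intro h2
          apply hv
          interval_cases v
          · exact h2
          · exact f3
          · exact f4
          · exact f5
        have hq := Q2 hB hF (by norm_num) f2 (by
          intro v hv1 hv2
          interval_cases v
          · exact f3
          · exact f4
          · exact f5)
        exact v12_eq h (hq 1 (by norm_num) (by norm_num)) (hq 2 (by norm_num) (by norm_num))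
      · by_cases f1 : F 0 1 = 0
        · by_cases f2 : F 0 2 = 0
          · exact (Q3 hB hF (by norm_num) f1 f2 f3 (by
              intro v hv1 hv2
              interval_cases v
              · exact f4
              · exact f5)).elim
          · exact V4 hB hF f1 f2 f3 f4 f5
        · have f2 := dg 1 3 2 (by norm_num) (by norm_num) (by norm_num) (by norm_num) (by norm_num)
            (by norm_num) (by norm_num) (by norm_num) (by norm_num) f1 f3
          exact V3 hB hF f1 f2 f3 f4 f5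
    · by_cases f3 : F 0 3 = 0
      · by_cases f1 : F 0 1 = 0
        · by_cases f2 : F 0 2 = 0
          · rcases V5 hB hF f1 f2 f3 f4 f5 with h5 | h5
            · exact h5
            · exact (v12_spec h h5).elim
          · exact V6 hB hF (Or.inr ⟨f1, f2⟩) f3 f4 f5
        · have f2 := dg 1 4 2 (by norm_num) (by norm_num) (by norm_num) (by norm_num) (by norm_num)
            (by norm_num) (by norm_num) (by norm_num) (by norm_num) f1 f4
          exact V6 hB hF (Or.inl ⟨f1, f2⟩) f3 f4 f5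
      · have f1 := dg 3 4 1 (by norm_num) (by norm_num) (by norm_num) (by norm_num) (by norm_num)
          (by norm_num) (by norm_num) (by norm_num) (by norm_num) f3 f4
        have f2 := dg 3 4 2 (by norm_num) (by norm_num) (by norm_num) (by norm_num) (by norm_num)
          (by norm_num) (by norm_num) (by norm_num) (by norm_num) f3 f4
        exact V7 hB hF f1 f2 f3 f4 f5
  · by_cases hex : ∃ M', 1 ≤ M' ∧ M' ≤ 3 ∧ F 0 M' ≠ 0
    · obtain ⟨M', h1, h3, hM'⟩ := hex
      refine V8 hB hF M' h1 h3 hM' f5 ?_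
      intro v hv1 hv5 hvM
      exact dg M' 5 v h1 (by omega) (by norm_num) (by norm_num) hv1 (by omega) (by omega)
        (Ne.symm hvM) (by omega) hM' f5
    · push Not at hex
      have f1 := hex 1 (by norm_num) (by norm_num)
      have f2 := hex 2 (by norm_num) (by norm_num)
      have f3 := hex 3 (by norm_num) (by norm_num)
      by_cases f4 : F 0 4 = 0
      · exact Q1 hB hF (by norm_num) f1 f2 f3 f4
      · rcases V9 hB hF f1 f2 f3 f4 f5 with h5 | h5 | h5
        · exact h5
        · exact v12_eq h h5.1 h5.2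
        · exact spec5N h.str h5

end LS
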