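import Pool.Agent.LS.Core
import Pool.Agent.LS.PT
import Pool.Agent.LS.W0
import Pool.Agent.LS.W1
import Pool.Agent.LS.GA2
import Pool.Agent.LS.GA4
import Pool.Agent.LS.GA5
import Pool.Agent.LS.K2
import Pool.Agent.LS.RV1
import Pool.Agent.LS.RV7
import Pool.Agent.LS.Q17
import Pool.Agent.LS.V12
import Pool.Agent.LS.U8
import Pool.Agent.LS.R01
import Pool.Agent.LS.CHX
import Pool.Agent.LS.CB
import Pool.Agent.LS.CA

/-! Part `C4` of the classification of self-dual Leonard systems with integral normalized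
intersection numbers (MP_963a96_al). -/
open Finset
namespace LS

variable {d : ℕ} {α b : ℕ → ℤ} {lam : ℕ → ℝ} {S : ℕ → ℕ → ℝ} {N : ℕ → ℕ → ℕ → ℤ}

theorem exists_three (h : Str d α b lam S N) (hd : 4 ≤ d) : Three d α := by
  by_cases hall : ∀ π, IsGal d lam π → (∀ j ≤ d, π j = j) ∨ (∀ j ≤ d, π j = d - j)
  · obtain ⟨π, hπ, j, hj, hmove⟩ := exists_moved' h (by omega)
    have hrev : ∀ j ≤ d, π j = d - j := by
      rcases hall π hπ with h1 | h1
      · exact absurd (h1 j hj) hmove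
      · exact h1
    have hα : α d = 0 := reversal_only h (by omega) hall ⟨π, hπ, hrev⟩
    obtain ⟨ε, hε⟩ := exists_twist h π hπ
    obtain ⟨p, F, hC⟩ := exists_ctx h hπ hε
    obtain ⟨h1, -, -⟩ := rev_data hC hrev
    have hz : ∀ i ≤ d, α i = 0 := by
      intro i hi
      have e1 := h1 i hi
      have e2 := h.base.αnn i
      have e3 := h.base.αnn (d - i)
      omega
    refine ⟨0, 1, 2, by omega, by omega, by omega, ?_, ?_⟩
    · rw [hz 0 (by omega), hz 1 (by omega)]
    · rw [hz 1 (by omega), hz 2 (by omega)]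
  · push Not at hall
    obtain ⟨π, hπ, ⟨j1, hj1, hm1⟩, ⟨j2, hj2, hm2⟩⟩ := hall
    obtain ⟨ε, hε⟩ := exists_twist h π hπ
    obtain ⟨p, F, hC⟩ := exists_ctx h hπ hε
    have hF := hC.path
    have hex : ∃ v, 2 ≤ v ∧ v ≤ d ∧ F 0 v ≠ 0 := by
      by_contra hno
      push Not at hno
      rcases row01 h.base hF hno with hp | hp
      · have e1 := hC.pπ j1 hj1
        rw [hp _ (hπ.maps j1 hj1)] at e1
        exact hm1 e1
      · have e1 := hC.pπ j2 hj2
        have e2 := hπ.maps j2 hj2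
        rw [hp _ e2] at e1
        omega
    rcases Nat.lt_or_ge d 6 with h6 | h6
    · rcases Nat.lt_or_ge d 5 with h5 | h5
      · obtain rfl : d = 4 := by omega
        exact U8 hC hex
      · obtain rfl : d = 5 := by omega
        exact V12 hC hex
    · exact Q17 h.base hF h6 hex

theorem class4 (h : Str d α b lam S N) (hd : 4 ≤ d) :
    (∀ i, 1 ≤ i → i ≤ d → b i = 1) ∧
    (((∀ i < d, α i = 0) ∧ (α d = 0 ∨ α d = 1)) ∨
     ((∀ i, 1 ≤ i → i < d → α i = 1) ∧ (α d = 1 ∨ α d = 2))) := by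
  have h3 := exists_three h hd
  obtain ⟨hc, -, -⟩ := chains h hd h3
  rcases lt_or_ge (α 1) 1 with ha | ha
  · have h1 : α 1 = 0 := by
      have := h.base.αnn 1
      omega
    have h0 : ∀ i < d, α i = 0 := by
      intro i hi
      rcases Nat.eq_zero_or_pos i with rfl | hpos
      · exact h.base.α0
      · rw [hc i hpos hi, h1]
    obtain ⟨e1, e2⟩ := classA h hd h0
    exact ⟨e1, Or.inl ⟨h0, e2⟩⟩
  · obtain ⟨e1, e2, e3⟩ := classB h hd h3 ha
    exact ⟨e1, Or.inr ⟨e2, e3⟩⟩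

end LS
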