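import Mathlib

/-!
# Core structures for the classification (all indices are natural numbers, `0..d`)
-/

open Finset

namespace LS

/-- Basic hypotheses on the integer data: `α i` (`0 ≤ i ≤ d`) is the diagonal, `b i = T_{i-1,i}`
(`1 ≤ i ≤ d`) the off-diagonal of the symmetric tridiagonal matrix `T`. -/
structure Base (d : ℕ) (α b : ℕ → ℤ) : Prop where
  one_le : 1 ≤ d
  α0 : α 0 = 0
  αnn : ∀ i, 0 ≤ α i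
  αout : ∀ i, d < i → α i = 0
  b0 : b 0 = 0
  b1 : b 1 = 1
  bpos : ∀ i, 1 ≤ i → i ≤ d → 1 ≤ b i
  bout : ∀ i, d < i → b i = 0

/-- `S` (indices `0..d`, zero outside) is symmetric, orthogonal, and its columns are eigenvectors
of `T` with eigenvalues `x j`. -/
structure Weak (d : ℕ) (α b : ℕ → ℤ) (x : ℕ → ℝ) (S : ℕ → ℕ → ℝ) : Prop where
  symm : ∀ i j, S i j = S j i
  out : ∀ i j, d < i → S i j = 0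
  orth : ∀ i ≤ d, ∀ j ≤ d, ∑ l ∈ range (d+1), S i l * S j l = if i = j then 1 else 0
  ne : ∀ j ≤ d, S 0 j ≠ 0
  eig : ∀ i ≤ d, ∀ j ≤ d,
    x j * S i j = b i * S (i-1) j + α i * S i j + b (i+1) * S (i+1) j

/-- The full structure extracted from a self-dual Leonard system with integral `N`. -/
structure Str (d : ℕ) (α b : ℕ → ℤ) (lam : ℕ → ℝ) (S : ℕ → ℕ → ℝ) (N : ℕ → ℕ → ℕ → ℤ) :
    Prop where
  base : Base d α b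
  weak : Weak d α b lam S
  pos : ∀ j ≤ d, 0 < S 0 j
  lamout : ∀ j, d < j → lam j = 0
  Nnn : ∀ i j h, 0 ≤ N i j h
  Nout : ∀ i j h, d < i ∨ d < j ∨ d < h → N i j h = 0
  Ndef : ∀ i ≤ d, ∀ j ≤ d, ∀ h ≤ d,
    (N i j h : ℝ) = ∑ l ∈ range (d+1), S i l * S j l * S h l / S 0 l

/-- Entries of `T`. -/
def Te (α b : ℕ → ℤ) (i j : ℕ) : ℤ :=
  if i = j then α i else if i + 1 = j then b j else if j + 1 = i then b i else 0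

/-- `π` is (the permutation of indices given by) an element of the Galois group of the
eigenvalues. -/
structure IsGal (d : ℕ) (lam : ℕ → ℝ) (π : ℕ → ℕ) : Prop where
  maps : ∀ i ≤ d, π i ≤ d
  inj : ∀ i ≤ d, ∀ j ≤ d, π i = π j → i = j
  fix : ∀ i, d < i → π i = i
  rel : ∀ P : MvPolynomial ℕ ℚ, MvPolynomial.aeval lam P = 0 →
    MvPolynomial.aeval (fun i => lam (π i)) P = 0

structure Twist (d : ℕ) (S : ℕ → ℕ → ℝ) (π : ℕ → ℕ) (ε : ℕ → ℤ) : Prop where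
  sgn : ∀ i, ε i = 1 ∨ ε i = -1
  ε0 : ε 0 = 1
  sym : ∀ i ≤ d, ∀ j ≤ d, (ε j : ℝ) * S i (π j) = ε i * S j (π i)

/-- `F = G T Gᵗ` for a signed permutation matrix `G`, commuting with `T`; `p = π⁻¹` gives the
position of a vertex on the Hamiltonian path of `F`. -/
structure PathF (d : ℕ) (α b : ℕ → ℤ) (p : ℕ → ℕ) (F : ℕ → ℕ → ℤ) : Prop where
  p_le : ∀ u ≤ d, p u ≤ d
  p_inj : ∀ u ≤ d, ∀ v ≤ d, p u = p v → u = v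
  symm : ∀ u v, F u v = F v u
  out : ∀ u v, d < u → F u v = 0
  diag : ∀ u ≤ d, F u u = α (p u)
  edge : ∀ u ≤ d, ∀ v ≤ d, p v = p u + 1 → |F u v| = b (p v)
  far : ∀ u ≤ d, ∀ v ≤ d, p u + 1 < p v → F u v = 0
  comm : ∀ u ≤ d, ∀ v ≤ d,
    b u * F (u-1) v + α u * F u v + b (u+1) * F (u+1) v
      = b v * F u (v-1) + α v * F u v + b (v+1) * F u (v+1)

/-- Everything attached to one Galois element: `p = π⁻¹`, `F = S diag(λ_{π l}) S`. -/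
structure Ctx (d : ℕ) (α b : ℕ → ℤ) (lam : ℕ → ℝ) (S : ℕ → ℕ → ℝ) (N : ℕ → ℕ → ℕ → ℤ)
    (π : ℕ → ℕ) (ε : ℕ → ℤ) (p : ℕ → ℕ) (F : ℕ → ℕ → ℤ) : Prop where
  str : Str d α b lam S N
  gal : IsGal d lam π
  tw : Twist d S π ε
  path : PathF d α b p F
  pπ : ∀ i ≤ d, p (π i) = i
  πp : ∀ u ≤ d, π (p u) = u
  fsgn : ∀ i ≤ d, ∀ j ≤ d, F (π i) (π j) = ε i * ε j * Te α b i j
  lin : ∀ u ≤ d, ∀ v ≤ d, (F u v : ℝ) = ∑ l ∈ range (d+1), S u l * lam (π l) * S v l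

/-- Three equal diagonal entries. -/
def Three (d : ℕ) (α : ℕ → ℤ) : Prop :=
  ∃ i j k, i < j ∧ j < k ∧ k ≤ d ∧ α i = α j ∧ α j = α k

/-- `T` is persymmetric. -/
def Pers (d : ℕ) (α b : ℕ → ℤ) : Prop :=
  (∀ i ≤ d, α (d - i) = α i) ∧ (∀ i, 1 ≤ i → i ≤ d → b (d + 1 - i) = b i)

/-- The data for diameter 3 (in the first case `b` is then `(1,m,1)`). -/
def D3 (α b : ℕ → ℤ) : Prop :=
  (α 1 = 0 ∧ α 2 = 0 ∧ α 3 = 0) ∨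
  (α 1 = 0 ∧ α 2 = 0 ∧ α 3 = 1 ∧ b 2 = 1 ∧ b 3 = 1) ∨
  (α 1 = 1 ∧ α 2 = 1 ∧ α 3 = 1 ∧ b 2 = 1 ∧ b 3 = 1) ∨
  (α 1 = 1 ∧ α 2 = 1 ∧ α 3 = 2 ∧ b 2 = 1 ∧ b 3 = 1) ∨
  (α 1 = 2 ∧ α 2 = 4 ∧ α 3 = 2 ∧ b 2 = 2 ∧ b 3 = 3)

/-- Askey–Wilson relations. -/
structure AWrel (d : ℕ) (α b : ℕ → ℤ) (x : ℕ → ℝ) (ω γ ρ p0 p1 : ℝ) : Prop where
  inj : ∀ i ≤ d, ∀ j ≤ d, x i = x j → i = j
  w1 : ∀ i, 1 ≤ i → i + 1 ≤ d → x (i+1) + x (i-1) = ω * x i + γ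
  w2 : ∀ i, i + 1 ≤ d →
    x i ^ 2 - ω * x i * x (i+1) + x (i+1) ^ 2 - γ * (x i + x (i+1)) = ρ
  w3 : ∀ i ≤ d, (α i : ℝ) * ((2 - ω) * x i ^ 2 - 2 * γ * x i - ρ) = p0 + p1 * x i + γ * x i ^ 2
  w4 : ∀ i, i + 1 ≤ d → ((α i : ℝ) + α (i+1)) * (x i + x (i+1) - γ)
    - ω * (α i * x i + α (i+1) * x (i+1)) - γ * (x i + x (i+1)) = p1
  w5 : ∀ i ≤ d, (b i : ℝ) ^ 2 * (2 * x i - ω * x (i-1) - γ)
    + (b (i+1) : ℝ) ^ 2 * (2 * x i - ω * x (i+1) - γ)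
    + (α i : ℝ) ^ 2 * ((2 - ω) * x i - γ) - 2 * γ * α i * x i - ρ * x i = p1 * α i + p0

/-- The parameter `ω` of a sequence of eigenvalues. -/
noncomputable def om (x : ℕ → ℝ) : ℝ := (x 0 - x 3) / (x 1 - x 2) - 1

/-- Shifted relations, when `α_1 = … = α_{d-1} = a`, `α_0 = 0`, `α_d = a + c` (`y i = x i - a`). -/
structure Chain (d : ℕ) (a c : ℤ) (b : ℕ → ℤ) (y : ℕ → ℝ) (ω ρ : ℝ) : Prop where
  inj : ∀ i ≤ d, ∀ j ≤ d, y i = y j → i = j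
  c1 : ∀ i, 1 ≤ i → i + 1 ≤ d → y (i+1) + y (i-1) = ω * y i
  c2 : ∀ i, i + 1 ≤ d → y i ^ 2 - ω * y i * y (i+1) + y (i+1) ^ 2 = ρ
  c0 : a ≠ 0 → y 1 = (ω - 1) * y 0
  cd : c ≠ 0 → y (d-1) = (ω - 1) * y d
  e0 : 2 * y 0 - ω * y 1 + (2 - ω) * (a:ℝ) ^ 2 * y 0 = ρ * y 0
  ei : ∀ i, 1 ≤ i → i + 1 ≤ d → (b i : ℝ) ^ 2 * (2 * y i - ω * y (i-1))
    + (b (i+1) : ℝ) ^ 2 * (2 * y i - ω * y (i+1)) = ρ * y i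
  ed : (b d : ℝ) ^ 2 * (2 * y d - ω * y (d-1)) + (2 - ω) * (c:ℝ) ^ 2 * y d = ρ * y d

/-- Centered relations in the reversal case: `y i = lam i - c/2`, `a1 = α_1 - c/2`, `B = b_2^2`,
`c = α_d ≥ 1`. -/
structure RevC (d : ℕ) (c a1 B : ℝ) (y : ℕ → ℝ) (ω : ℝ) : Prop where
  three_le : 3 ≤ d
  cpos : 1 ≤ c
  a1le : |a1| ≤ c / 2
  inj : ∀ i ≤ d, ∀ j ≤ d, y i = y j → i = j
  anti : ∀ i ≤ d, y (d - i) = - y i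
  c1 : ∀ i, 1 ≤ i → i + 1 ≤ d → y (i+1) + y (i-1) = ω * y i
  Q0 : y 0 ^ 2 - ω * y 0 * y 1 + y 1 ^ 2 ≠ 0
  e1 : 2 * a1 * (y 0 + (1 - ω) * y 1) * y 0 = c * ((1 - ω) * y 0 + y 1) * y 1
  n : (y 0 ^ 2 - c ^ 2 / 4) * (y 0 ^ 2 - ω * y 0 * y 1 + y 1 ^ 2) = 2 * y 0 ^ 2 - ω * y 0 * y 1
  d1 : y 0 * ((2 * y 1 - ω * y 0) + B * (2 * y 1 - ω * y 2) + a1 ^ 2 * (2 - ω) * y 1
      - (y 0 ^ 2 - ω * y 0 * y 1 + y 1 ^ 2) * y 1)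
    = (- c / 2) * ((2 - ω) * y 0 ^ 2 - (y 0 ^ 2 - ω * y 0 * y 1 + y 1 ^ 2)) * a1

/-- End chain of length `e`: edge squares `B 1 = 1, …, B e`, loop square `C` at the end `e`. -/
structure EndChain (e : ℕ) (B : ℕ → ℝ) (C : ℝ) (y : ℕ → ℝ) (ω : ℝ) : Prop where
  two_le : 2 ≤ e
  B1 : B 1 = 1
  Bpos : ∀ i, 1 ≤ i → i ≤ e → 1 ≤ B i
  Cpos : 1 ≤ C
  inj : ∀ i ≤ e, ∀ j ≤ e, y i = y j → i = j
  c1 : ∀ i, 1 ≤ i → i + 1 ≤ e → y (i+1) + y (i-1) = ω * y i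
  ce : y (e-1) = (ω - 1) * y e
  e0 : 2 * y 0 - ω * y 1 = (2 - ω) * y e ^ 2 * y 0
  ei : ∀ i, 1 ≤ i → i + 1 ≤ e → B i * (2 * y i - ω * y (i-1))
    + B (i+1) * (2 * y i - ω * y (i+1)) = (2 - ω) * y e ^ 2 * y i
  ee : B e * (2 * y e - ω * y (e-1)) + (2 - ω) * C * y e = (2 - ω) * y e ^ 2 * y e

/-- `W_0 = 1, W_1 = ω - 1, W_{k+2} = ω W_{k+1} - W_k`. -/
def Wp (ω : ℝ) : ℕ → ℝ
  | 0 => 1
  | 1 => ω - 1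
  | (k+2) => ω * Wp ω (k+1) - Wp ω k

/-- `V_0 = 1, V_1 = ω + 1, V_{k+2} = ω V_{k+1} - V_k`. -/
def Vp (ω : ℝ) : ℕ → ℝ
  | 0 => 1
  | 1 => ω + 1
  | (k+2) => ω * Vp ω (k+1) - Vp ω k

/-- `U_0 = 1, U_1 = ω, U_{k+2} = ω U_{k+1} - U_k`. -/
def Up (ω : ℝ) : ℕ → ℝ
  | 0 => 1
  | 1 => ω
  | (k+2) => ω * Up ω (k+1) - Up ω k

end LS
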