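import Pool.Agent.LS.Core
import Pool.Agent.LS.PT
import Pool.Agent.LS.W1

/-! Part `D21` of the classification of self-dual Leonard systems with integral normalized
intersection numbers (MP_963a96_al). -/
open Finset
namespace LS

variable {α b : ℕ → ℤ} {p : ℕ → ℕ} {F : ℕ → ℕ → ℤ}

variable {lam : ℕ → ℝ} {S : ℕ → ℕ → ℝ} {N : ℕ → ℕ → ℕ → ℤ}

theorem d21_rows (hB : Base 2 α b) (hF : PathF 2 α b p F) :
    F 1 1 = F 0 0 + α 1 * F 0 1 + b 2 * F 0 2 ∧ F 1 2 = b 2 * F 0 1 + α 2 * F 0 2 ∧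
    b 2 * F 2 2 = b 2 * F 1 1 + (α 2 - α 1) * F 1 2 - F 0 2 := by
  have h3 : b 3 = 0 := hB.bout 3 (by norm_num)
  have e1 := hF.recur0 hB 1 (by norm_num)
  have e2 := hF.recur0 hB 2 (by norm_num)
  have e3 := hF.recur1 hB 2 (by norm_num)
  norm_num [h3, hB.b1] at e1 e2 e3
  exact ⟨e1, e2, e3⟩

theorem D2N (h : Str 2 α b lam S N) :
    b 2 * N 2 2 2 = b 2 ^ 2 + α 2 ^ 2 - α 1 * α 2 - 1 := by
  have h1 := N_rec h 1 (by norm_num) 2 (by norm_num) 2 (by norm_num)
  have h2 := N_zero h 2 (by norm_num) 2 (by norm_num)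
  have h3 := N_one h 2 (by norm_num) 2 (by norm_num)
  have h4 := N_one h 1 (by norm_num) 2 (by norm_num)
  have h5 : b 3 = 0 := h.base.bout 3 (by norm_num)
  unfold Te at h3 h4
  norm_num [h5, h.base.b1] at h1 h2 h3 h4
  rw [h2, h3, h4] at h1
  linarith

theorem D2a (hB : Base 2 α b) (hF : PathF 2 α b p F) (h0 : p 0 = 0) (h1 : p 2 = 1)
    (h2 : p 1 = 2) : False := by
  obtain ⟨e1, e2, e3⟩ := d21_rows hB hF
  have hm := hB.bpos 2 (by norm_num) le_rfl
  have h01 : F 0 1 = 0 := hF.far 0 (by norm_num) 1 (by norm_num) (by rw [h0, h2]; norm_num)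
  have h00 := hF.diag 0 (by norm_num)
  have h11 := hF.diag 1 (by norm_num)
  have h22 := hF.diag 2 (by norm_num)
  have h02 := hF.edge 0 (by norm_num) 2 (by norm_num) (by rw [h0, h1])
  rw [h0, hB.α0] at h00
  rw [h2] at h11
  rw [h1] at h22
  rw [h1, hB.b1] at h02
  rw [h00, h01, h11] at e1
  rw [h01] at e2
  have hc := hB.αnn 2
  rcases abs_eq (by norm_num : (0:ℤ) ≤ 1) |>.1 h02 with h | h
  · rw [h] at e1 e2 e3
    rw [h22, h11] at e3
    have hc2 : α 2 = b 2 := by linarith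
    have h12 : F 1 2 = b 2 := by linarith
    rw [h12, hc2] at e3
    have e4 : 2 * (b 2 * α 1) = 2 * (b 2 * b 2) - 1 := by linarith
    omega
  · rw [h] at e1
    nlinarith

theorem D2b (hB : Base 2 α b) (hF : PathF 2 α b p F) (h0 : p 1 = 0) (h1 : p 2 = 1)
    (h2 : p 0 = 2) : b 2 = 1 ∧ α 2 = 1 := by
  obtain ⟨e1, e2, e3⟩ := d21_rows hB hF
  have hm := hB.bpos 2 (by norm_num) le_rfl
  have h01 : F 0 1 = 0 := by
    rw [hF.symm]
    exact hF.far 1 (by norm_num) 0 (by norm_num) (by rw [h0, h2]; norm_num)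
  have h12 := hF.edge 1 (by norm_num) 2 (by norm_num) (by rw [h0, h1])
  have h20 := hF.edge 2 (by norm_num) 0 (by norm_num) (by rw [h1, h2])
  rw [h1, hB.b1] at h12
  rw [h2, hF.symm] at h20
  rw [h01] at e2
  have hc := hB.αnn 2
  have e4 : F 1 2 = α 2 * F 0 2 := by linarith
  rw [e4, abs_mul, h20, abs_of_nonneg hc] at h12
  have h5 := Int.eq_one_or_neg_one_of_mul_eq_one h12
  have h6 : α 2 = 1 := by
    rcases h5 with h5 | h5
    · exact h5
    · omega
  rw [h6] at h12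
  exact ⟨by linarith, h6⟩

theorem D2c (hB : Base 2 α b) (hF : PathF 2 α b p F) (h0 : p 1 = 0) (h1 : p 0 = 1)
    (h2 : p 2 = 2) : α 2 = 1 ∧ 2 * α 1 = b 2 ^ 2 := by
  obtain ⟨e1, e2, e3⟩ := d21_rows hB hF
  have hm := hB.bpos 2 (by norm_num) le_rfl
  have h12 : F 1 2 = 0 := hF.far 1 (by norm_num) 2 (by norm_num) (by rw [h0, h2]; norm_num)
  have h10 := hF.edge 1 (by norm_num) 0 (by norm_num) (by rw [h0, h1])
  have h02 := hF.edge 0 (by norm_num) 2 (by norm_num) (by rw [h1, h2])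
  have h00 := hF.diag 0 (by norm_num)
  have h11 := hF.diag 1 (by norm_num)
  rw [h1, hB.b1, hF.symm] at h10
  rw [h2] at h02
  rw [h1] at h00
  rw [h0, hB.α0] at h11
  rw [h12] at e2
  rw [h00, h11] at e1
  have hc := hB.αnn 2
  rcases abs_eq (by norm_num : (0:ℤ) ≤ 1) |>.1 h10 with h | h <;>
    rcases abs_eq (by omega : (0:ℤ) ≤ b 2) |>.1 h02 with h' | h'
  · rw [h, h'] at e2
    exfalso
    nlinarith
  · rw [h, h'] at e1 e2
    have h6 : α 2 = 1 := by
      have : b 2 * (1 - α 2) = 0 := by linarith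
      rcases mul_eq_zero.1 this with h7 | h7
      · omega
      · omega
    exact ⟨h6, by linarith [sq (b 2)]⟩
  · rw [h, h'] at e1
    exfalso
    nlinarith
  · rw [h, h'] at e2
    exfalso
    nlinarith

theorem D2d (hB : Base 2 α b) (hF : PathF 2 α b p F) (h0 : p 2 = 0) (h1 : p 0 = 1)
    (h2 : p 1 = 2) : b 2 = 1 ∧ α 2 = 1 := by
  obtain ⟨e1, e2, e3⟩ := d21_rows hB hF
  have hm := hB.bpos 2 (by norm_num) le_rfl
  have h12 : F 1 2 = 0 := by
    rw [hF.symm]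
    exact hF.far 2 (by norm_num) 1 (by norm_num) (by rw [h0, h2]; norm_num)
  have h20 := hF.edge 2 (by norm_num) 0 (by norm_num) (by rw [h0, h1])
  have h11 := hF.diag 1 (by norm_num)
  have h22 := hF.diag 2 (by norm_num)
  rw [h1, hB.b1, hF.symm] at h20
  rw [h2] at h11
  rw [h0, hB.α0] at h22
  rw [h22, h11, h12] at e3
  have hc := hB.αnn 2
  have e4 : b 2 * α 2 = F 0 2 := by linarith
  have h5 : b 2 * α 2 = 1 := by
    rcases abs_eq (by norm_num : (0:ℤ) ≤ 1) |>.1 h20 with h | h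
    · linarith
    · rw [h] at e4
      exfalso
      nlinarith
  have h6 : b 2 = 1 := by
    rcases Int.eq_one_or_neg_one_of_mul_eq_one h5 with h | h
    · exact h
    · omega
  rw [h6] at h5
  exact ⟨h6, by linarith⟩

end LS
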