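import Pool.Agent.LS.Core
import Pool.Agent.LS.PT
import Pool.Agent.LS.W0
import Pool.Agent.LS.W1
import Pool.Agent.LS.GA2
import Pool.Agent.LS.GA4
import Pool.Agent.LS.GA5
import Pool.Agent.LS.K2
import Pool.Agent.LS.RV1
import Pool.Agent.LS.D21

/-! Part `D22` of the classification of self-dual Leonard systems with integral normalized
intersection numbers (MP_963a96_al). -/
open Finset
namespace LS

variable {α b : ℕ → ℤ} {p : ℕ → ℕ} {F : ℕ → ℕ → ℤ}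

variable {lam : ℕ → ℝ} {S : ℕ → ℕ → ℝ} {N : ℕ → ℕ → ℕ → ℤ}

theorem class2 (h : Str 2 α b lam S N) :
    (b 2 = 1 ∧ α 2 = 2 * α 1) ∨ (b 2 = 1 ∧ α 2 = 1 ∧ α 1 = 0) ∨ (b 2 = 1 ∧ α 2 = 1 ∧ α 1 = 1) ∨
    (∃ k : ℕ, 1 ≤ k ∧ b 2 = 2 * k ∧ α 1 = 2 * k ^ 2 ∧ α 2 = 1) := by
  have hB := h.base
  obtain ⟨π, hπ, j, hj, hjm⟩ := exists_moved' h le_rfl
  obtain ⟨ε, hε⟩ := exists_twist h π hπ
  obtain ⟨p, F, hc⟩ := exists_ctx h hπ hε
  have hF := hc.path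
  have l0 := hF.p_le 0 (by norm_num)
  have l1 := hF.p_le 1 (by norm_num)
  have l2 := hF.p_le 2 (by norm_num)
  have n01 : p 0 ≠ p 1 := fun e => absurd (hF.p_inj 0 (by norm_num) 1 (by norm_num) e) (by norm_num)
  have n02 : p 0 ≠ p 2 := fun e => absurd (hF.p_inj 0 (by norm_num) 2 (by norm_num) e) (by norm_num)
  have n12 : p 1 ≠ p 2 := fun e => absurd (hF.p_inj 1 (by norm_num) 2 (by norm_num) e) (by norm_num)
  have q0 := hc.πp 0 (by norm_num)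
  have q1 := hc.πp 1 (by norm_num)
  have q2 := hc.πp 2 (by norm_num)
  have hN := D2N h
  have hNn := h.Nnn 2 2 2
  have ha1 := hB.αnn 1
  have key : b 2 = 1 → α 2 = 1 → α 1 = 0 ∨ α 1 = 1 := by
    intro e1 e2
    rw [e1, e2] at hN
    norm_num at hN
    omega
  have hcases : (p 0 = 0 ∧ p 1 = 1 ∧ p 2 = 2) ∨ (p 0 = 0 ∧ p 2 = 1 ∧ p 1 = 2) ∨
      (p 1 = 0 ∧ p 0 = 1 ∧ p 2 = 2) ∨ (p 1 = 0 ∧ p 2 = 1 ∧ p 0 = 2) ∨
      (p 2 = 0 ∧ p 0 = 1 ∧ p 1 = 2) ∨ (p 2 = 0 ∧ p 1 = 1 ∧ p 0 = 2) := by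
    have m0 : p 0 = 0 ∨ p 0 = 1 ∨ p 0 = 2 := by omega
    have m1 : p 1 = 0 ∨ p 1 = 1 ∨ p 1 = 2 := by omega
    have m2 : p 2 = 0 ∨ p 2 = 1 ∨ p 2 = 2 := by omega
    clear hj hjm hN hNn ha1 key q0 q1 q2 l0 l1 l2
    rcases m0 with h0 | h0 | h0 <;> rcases m1 with h1 | h1 | h1 <;> rcases m2 with h2 | h2 | h2 <;>
      simp only [h0, h1, h2] at n01 n02 n12 ⊢ <;> simp at n01 n02 n12 ⊢
  rcases hcases with ⟨a0, a1, a2⟩ | ⟨a0, a1, a2⟩ | ⟨a0, a1, a2⟩ | ⟨a0, a1, a2⟩ | ⟨a0, a1, a2⟩ | ⟨a0, a1, a2⟩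
  · exfalso
    rw [a0] at q0
    rw [a1] at q1
    rw [a2] at q2
    have hj' : j = 0 ∨ j = 1 ∨ j = 2 := by omega
    rcases hj' with rfl | rfl | rfl
    · exact hjm q0
    · exact hjm q1
    · exact hjm q2
  · exact absurd (D2a hB hF a0 a1 a2) id
  · obtain ⟨e1, e2⟩ := D2c hB hF a0 a1 a2
    right; right; right
    have hb := hB.bpos 2 (by norm_num) le_rfl
    have hev : Even (b 2) := by
      rw [← Int.not_odd_iff_even]
      intro ho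
      have h1 : Odd (b 2 ^ 2) := ho.pow
      rw [← e2, Int.odd_iff] at h1
      omega
    obtain ⟨k, hk⟩ := hev
    have hk1 : 1 ≤ k := by omega
    refine ⟨k.toNat, by omega, ?_, ?_, e1⟩
    · have : ((k.toNat : ℕ) : ℤ) = k := Int.toNat_of_nonneg (by omega)
      rw [this]
      omega
    · have : ((k.toNat : ℕ) : ℤ) = k := Int.toNat_of_nonneg (by omega)
      rw [this]
      rw [hk] at e2
      nlinarith
  · obtain ⟨e1, e2⟩ := D2b hB hF a0 a1 a2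
    rcases key e1 e2 with h1 | h1
    · exact Or.inr (Or.inl ⟨e1, e2, h1⟩)
    · exact Or.inr (Or.inr (Or.inl ⟨e1, e2, h1⟩))
  · obtain ⟨e1, e2⟩ := D2d hB hF a0 a1 a2
    rcases key e1 e2 with h1 | h1
    · exact Or.inr (Or.inl ⟨e1, e2, h1⟩)
    · exact Or.inr (Or.inr (Or.inl ⟨e1, e2, h1⟩))
  · left
    have hrev : ∀ j ≤ 2, π j = 2 - j := by
      intro j hj
      rw [a2] at q0
      rw [a1] at q1
      rw [a0] at q2
      have hj' : j = 0 ∨ j = 1 ∨ j = 2 := by omega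
      rcases hj' with rfl | rfl | rfl
      · exact q2
      · exact q1
      · exact q0
    obtain ⟨r1, r2, -⟩ := rev_data hc hrev
    have h1 := r1 1 (by norm_num)
    have h2 := r2 1 (by norm_num) (by norm_num)
    norm_num at h1 h2
    rw [hB.b1] at h2
    exact ⟨h2, by omega⟩

end LS
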