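import Mathlib

/-!
# Self-dual Leonard systems with integral normalized intersection numbers (MP_963a96_al)

Definitions of the problem file, over `ℝ`, for the algebra `Mat_{d+1}(ℝ)`.
-/

open Matrix Polynomial Finset

namespace LS

/-- The algebra `Mat_{d+1}(ℝ)`. -/
abbrev Mat (d : ℕ) := Matrix (Fin (d+1)) (Fin (d+1)) ℝ

/-- The primitive idempotents `E_i = ∏_{j ≠ i} (A - θ_j I)/(θ_i - θ_j)` of `A` for the ordering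
`θ_0, …, θ_d` of its eigenvalues. -/
noncomputable def primIdem {d : ℕ} (A : Mat d) (θ : Fin (d+1) → ℝ) (i : Fin (d+1)) : Mat d :=
  aeval A (∏ j ∈ univ.erase i, (C ((θ i - θ j)⁻¹) * (X - C (θ j))))

/-- A Leonard system in `Mat_{d+1}(ℝ)`: multiplicity-free `A`, `As = A^*`, with orderings `θ`, `θs`
of their `d+1` distinct real eigenvalues, such that `E_i A^* E_j` is zero for `|i-j| > 1` and
nonzero for `|i-j| = 1`, and the same for `E^*_i A E^*_j`. -/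
structure LeonardSystem (d : ℕ) where
  A : Mat d
  As : Mat d
  θ : Fin (d+1) → ℝ
  θs : Fin (d+1) → ℝ
  θ_inj : Function.Injective θ
  θs_inj : Function.Injective θs
  θ_eig : ∀ i, Module.End.HasEigenvalue (Matrix.toLin' A) (θ i)
  θs_eig : ∀ i, Module.End.HasEigenvalue (Matrix.toLin' As) (θs i)
  far : ∀ i j : Fin (d+1), ((i:ℕ) + 1 < j ∨ (j:ℕ) + 1 < i) →
    primIdem A θ i * As * primIdem A θ j = 0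
  near : ∀ i j : Fin (d+1), ((i:ℕ) + 1 = j ∨ (j:ℕ) + 1 = i) →
    primIdem A θ i * As * primIdem A θ j ≠ 0
  fars : ∀ i j : Fin (d+1), ((i:ℕ) + 1 < j ∨ (j:ℕ) + 1 < i) →
    primIdem As θs i * A * primIdem As θs j = 0
  nears : ∀ i j : Fin (d+1), ((i:ℕ) + 1 = j ∨ (j:ℕ) + 1 = i) →
    primIdem As θs i * A * primIdem As θs j ≠ 0

namespace LeonardSystem

variable {d : ℕ} (Φ : LeonardSystem d)

/-- `E_i` -/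
noncomputable def E (i : Fin (d+1)) : Mat d := primIdem Φ.A Φ.θ i
/-- `E^*_i` -/
noncomputable def Es (i : Fin (d+1)) : Mat d := primIdem Φ.As Φ.θs i

/-- The dual `Φ^* = (A^*; A; {E^*_i}; {E_i})`. -/
def dual : LeonardSystem d where
  A := Φ.As
  As := Φ.A
  θ := Φ.θs
  θs := Φ.θ
  θ_inj := Φ.θs_inj
  θs_inj := Φ.θ_inj
  θ_eig := Φ.θs_eig
  θs_eig := Φ.θ_eig
  far := Φ.fars
  near := Φ.nears
  fars := Φ.far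
  nears := Φ.near

/-- Isomorphism of Leonard systems: an algebra isomorphism sending `A, A^*, E_i, E^*_i` to
`A', A'^*, E'_i, E'^*_i`. -/
def Iso (Φ Ψ : LeonardSystem d) : Prop :=
  ∃ σ : Mat d ≃ₐ[ℝ] Mat d, σ Φ.A = Ψ.A ∧ σ Φ.As = Ψ.As ∧
    (∀ i, σ (Φ.E i) = Ψ.E i) ∧ (∀ i, σ (Φ.Es i) = Ψ.Es i)

/-- `Φ` is self-dual: `Φ ≅ Φ^*`. -/
def SelfDual : Prop := Iso Φ Φ.dual

/-- `a_i = tr(E^*_i A)` for `0 ≤ i ≤ d` (and `0` for `i > d`). -/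
noncomputable def a (i : ℕ) : ℝ :=
  if h : i < d + 1 then Matrix.trace (Φ.Es ⟨i, h⟩ * Φ.A) else 0

/-- `x_i = tr(E^*_i A E^*_{i-1} A)` for `1 ≤ i ≤ d` (and `0` otherwise). -/
noncomputable def x (i : ℕ) : ℝ :=
  if h : 1 ≤ i ∧ i < d + 1 then
    Matrix.trace (Φ.Es ⟨i, h.2⟩ * Φ.A * Φ.Es ⟨i - 1, by omega⟩ * Φ.A) else 0

/-- `p_0 = 1`, `p_1 = λ - a_0`, `p_{i+1} = (λ - a_i) p_i - x_i p_{i-1}`. -/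
noncomputable def p : ℕ → ℝ[X]
  | 0 => 1
  | 1 => X - C (Φ.a 0)
  | (n+2) => (X - C (Φ.a (n+1))) * p (n+1) - C (Φ.x (n+1)) * p n

/-- `ν = tr(E_0 E^*_0)^{-1}` -/
noncomputable def ν : ℝ := (Matrix.trace (Φ.E 0 * Φ.Es 0))⁻¹

/-- `k_i = ν tr(E^*_i E_0)` -/
noncomputable def k (i : Fin (d+1)) : ℝ := Φ.ν * Matrix.trace (Φ.Es i * Φ.E 0)

/-- `v_i = k_i p_i / p_i(θ_0)` -/
noncomputable def v (i : Fin (d+1)) : ℝ[X] := C (Φ.k i / (Φ.p i).eval (Φ.θ 0)) * Φ.p i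

/-- `A_i = v_i(A)` -/
noncomputable def Ai (i : Fin (d+1)) : Mat d := aeval Φ.A (Φ.v i)

/-- `P h i j` are the intersection numbers `p^h_{ij}`: `A_i A_j = ∑_h p^h_{ij} A_h`. -/
def IsInter (P : Fin (d+1) → Fin (d+1) → Fin (d+1) → ℝ) : Prop :=
  ∀ i j, Φ.Ai i * Φ.Ai j = ∑ h, P h i j • Φ.Ai h

/-- All normalized intersection numbers `N^h_{ij} = p^h_{ij} (k_h/(k_i k_j))^{1/2}` are
nonnegative integers (the square root is the complex principal one, so that no positivity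
of the `k_i` is presupposed). -/
def IntegralN : Prop :=
  ∃ P, Φ.IsInter P ∧ ∀ h i j, ∃ n : ℕ,
    ((P h i j : ℝ) : ℂ) * (((Φ.k h / (Φ.k i * Φ.k j) : ℝ)) : ℂ) ^ ((1:ℂ)/2) = (n : ℂ)

end LeonardSystem

open LeonardSystem

/-- The symmetric tridiagonal matrix with diagonal `α_0, …, α_d` and off-diagonal entries
`T_{i-1,i} = T_{i,i-1} = b_i` (`1 ≤ i ≤ d`). -/
def Tmat (d : ℕ) (α b : ℕ → ℤ) : Mat d := Matrix.of fun i j =>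
  if (i:ℕ) = j then (α i : ℝ) else if (i:ℕ) + 1 = j then (b j : ℝ)
  else if (j:ℕ) + 1 = i then (b i : ℝ) else 0

/-- `Ψ` is the Leonard system `A = ξ T + ζ`, `A^* = ξ diag(λ_0,…,λ_d) + ζ`,
`θ_i = θ^*_i = ξ λ_i + ζ`. -/
def IsStd {d : ℕ} (Ψ : LeonardSystem d) (α b : ℕ → ℤ) (lam : ℕ → ℝ) (ξ ζ : ℝ) : Prop :=
  Ψ.A = ξ • Tmat d α b + ζ • (1 : Mat d) ∧
  Ψ.As = ξ • Matrix.diagonal (fun i : Fin (d+1) => lam i) + ζ • (1 : Mat d) ∧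
  (∀ i : Fin (d+1), Ψ.θ i = ξ * lam i + ζ) ∧ (∀ i : Fin (d+1), Ψ.θs i = ξ * lam i + ζ)

/-! ### The list -/

/-- `SU(2)_d`; for even `d` a second ordering. -/
def F1 (d : ℕ) (α b : ℕ → ℤ) (lam : ℕ → ℝ) : Prop :=
  (∀ i ≤ d, α i = 0) ∧ (∀ i, 1 ≤ i → i ≤ d → b i = 1) ∧
  ((∀ j ≤ d, lam j = 2 * Real.cos ((j + 1) * Real.pi / (d + 2))) ∨
   (Even d ∧ ∀ j ≤ d, lam j = (-1) ^ j * (2 * Real.cos ((j + 1) * Real.pi / (d + 2)))))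

def F2 (d : ℕ) (α b : ℕ → ℤ) (lam : ℕ → ℝ) : Prop :=
  1 ≤ d ∧ (∀ i < d, α i = 0) ∧ α d = 1 ∧ (∀ i, 1 ≤ i → i ≤ d → b i = 1) ∧
  (∀ j ≤ d, lam j = (-1) ^ j * (2 * Real.cos ((j + 1) * Real.pi / (2 * d + 3))))

def F3 (d : ℕ) (α b : ℕ → ℤ) (lam : ℕ → ℝ) : Prop :=
  1 ≤ d ∧ α 0 = 0 ∧ (∀ i, 1 ≤ i → i ≤ d → α i = 1) ∧ (∀ i, 1 ≤ i → i ≤ d → b i = 1) ∧
  (∀ j ≤ d, lam j = 1 + 2 * Real.cos ((4 * j + 2) * Real.pi / (2 * d + 3)))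

def F4 (d : ℕ) (α b : ℕ → ℤ) (lam : ℕ → ℝ) : Prop :=
  1 ≤ d ∧ α 0 = 0 ∧ (∀ i, 1 ≤ i → i < d → α i = 1) ∧ α d = 2 ∧
  (∀ i, 1 ≤ i → i ≤ d → b i = 1) ∧
  (∀ j ≤ d, lam j = 1 + 2 * Real.cos ((2 * j + 1) * Real.pi / (2 * d + 2)))

/-- diameter 1 -/
def G1 (d : ℕ) (α b : ℕ → ℤ) (lam : ℕ → ℝ) : Prop :=
  d = 1 ∧ ∃ m : ℕ, α 0 = 0 ∧ α 1 = m ∧ b 1 = 1 ∧
  lam 0 = (m + Real.sqrt (m ^ 2 + 4)) / 2 ∧ lam 1 = (m - Real.sqrt (m ^ 2 + 4)) / 2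

/-- diameter 2, first family -/
def G2a (d : ℕ) (α b : ℕ → ℤ) (lam : ℕ → ℝ) : Prop :=
  d = 2 ∧ ∃ m : ℕ, α 0 = 0 ∧ α 1 = m ∧ α 2 = 2 * m ∧ b 1 = 1 ∧ b 2 = 1 ∧
  lam 0 = m + Real.sqrt (m ^ 2 + 2) ∧ lam 1 = m ∧ lam 2 = m - Real.sqrt (m ^ 2 + 2)

/-- diameter 2, second family -/
def G2b (d : ℕ) (α b : ℕ → ℤ) (lam : ℕ → ℝ) : Prop :=
  d = 2 ∧ ∃ k : ℕ, 1 ≤ k ∧ α 0 = 0 ∧ α 1 = 2 * k ^ 2 ∧ α 2 = 1 ∧ b 1 = 1 ∧ b 2 = 2 * k ∧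
  lam 0 = k ^ 2 + 1 + k * Real.sqrt (k ^ 2 + 2) ∧
  lam 1 = k ^ 2 + 1 - k * Real.sqrt (k ^ 2 + 2) ∧ lam 2 = -1

/-- diameter 3, family -/
def G3 (d : ℕ) (α b : ℕ → ℤ) (lam : ℕ → ℝ) : Prop :=
  d = 3 ∧ ∃ m : ℕ, 1 ≤ m ∧ (∀ i ≤ 3, α i = 0) ∧ b 1 = 1 ∧ b 2 = m ∧ b 3 = 1 ∧
  lam 0 = (m + Real.sqrt (m ^ 2 + 4)) / 2 ∧ lam 1 = (-m + Real.sqrt (m ^ 2 + 4)) / 2 ∧
  lam 2 = (m - Real.sqrt (m ^ 2 + 4)) / 2 ∧ lam 3 = (-m - Real.sqrt (m ^ 2 + 4)) / 2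

/-- diameter 3, sporadic -/
def Sp (d : ℕ) (α b : ℕ → ℤ) (lam : ℕ → ℝ) : Prop :=
  d = 3 ∧ α 0 = 0 ∧ α 1 = 2 ∧ α 2 = 4 ∧ α 3 = 2 ∧ b 1 = 1 ∧ b 2 = 2 ∧ b 3 = 3 ∧
  lam 0 = 3 - 4 * Real.cos (8 * Real.pi / 9) ∧ lam 1 = 3 - 4 * Real.cos (4 * Real.pi / 9) ∧
  lam 2 = 3 - 4 * Real.cos (2 * Real.pi / 9) ∧ lam 3 = -1

/-- The complete list. -/
def Item (d : ℕ) (α b : ℕ → ℤ) (lam : ℕ → ℝ) : Prop :=
  F1 d α b lam ∨ F2 d α b lam ∨ F3 d α b lam ∨ F4 d α b lam ∨ G1 d α b lam ∨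
  G2a d α b lam ∨ G2b d α b lam ∨ G3 d α b lam ∨ Sp d α b lam

end LS
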