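import Pool.Agent.LS.Core
open Finset
namespace LS
/-! Definitions for the existence of the four infinite families . -/

/-- `b i = 1` for `1 ≤ i ≤ d` -/
def bone (d : ℕ) : ℕ → ℤ := fun i => if 1 ≤ i ∧ i ≤ d then 1 else 0
def alF1 : ℕ → ℤ := fun _ => 0
def alF2 (d : ℕ) : ℕ → ℤ := fun i => if i = d then 1 else 0
def alF3 (d : ℕ) : ℕ → ℤ := fun i => if 1 ≤ i ∧ i ≤ d then 1 else 0
def alF4 (d : ℕ) : ℕ → ℤ := fun i => if 1 ≤ i ∧ i < d then 1 else if i = d then 2 else 0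

noncomputable def lamF1 (d : ℕ) : ℕ → ℝ := fun j =>
  if j ≤ d then 2 * Real.cos ((j + 1) * Real.pi / (d + 2)) else 0
noncomputable def lamF1' (d : ℕ) : ℕ → ℝ := fun j =>
  if j ≤ d then (-1) ^ j * (2 * Real.cos ((j + 1) * Real.pi / (d + 2))) else 0
noncomputable def lamF2 (d : ℕ) : ℕ → ℝ := fun j =>
  if j ≤ d then (-1) ^ j * (2 * Real.cos ((j + 1) * Real.pi / (2 * d + 3))) else 0
noncomputable def lamF3 (d : ℕ) : ℕ → ℝ := fun j =>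
  if j ≤ d then 1 + 2 * Real.cos ((4 * j + 2) * Real.pi / (2 * d + 3)) else 0
noncomputable def lamF4 (d : ℕ) : ℕ → ℝ := fun j =>
  if j ≤ d then 1 + 2 * Real.cos ((2 * j + 1) * Real.pi / (2 * d + 2)) else 0

noncomputable def XF1 (d : ℕ) : ℕ → ℕ → ℝ := fun i j =>
  if i ≤ d ∧ j ≤ d then Real.sin ((i + 1) * (j + 1) * Real.pi / (d + 2)) else 0
noncomputable def XF1' (d : ℕ) : ℕ → ℕ → ℝ := fun i j =>
  if i ≤ d ∧ j ≤ d then (-1) ^ (i * j) * Real.sin ((i + 1) * (j + 1) * Real.pi / (d + 2)) else 0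
noncomputable def XF2 (d : ℕ) : ℕ → ℕ → ℝ := fun i j =>
  if i ≤ d ∧ j ≤ d then (-1) ^ (i * j) * Real.sin ((i + 1) * (j + 1) * Real.pi / (2 * d + 3)) else 0
noncomputable def XF3 (d : ℕ) : ℕ → ℕ → ℝ := fun i j =>
  if i ≤ d ∧ j ≤ d then Real.sin ((2 * i + 1) * (2 * j + 1) * Real.pi / (2 * d + 3)) else 0
noncomputable def XF4 (d : ℕ) : ℕ → ℕ → ℝ := fun i j =>
  if i ≤ d ∧ j ≤ d then Real.sin ((2 * i + 1) * (2 * j + 1) * Real.pi / (4 * d + 4)) else 0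

def NF1 (d : ℕ) : ℕ → ℕ → ℕ → ℤ := fun h i j =>
  if (h ≤ d ∧ i ≤ d ∧ j ≤ d) ∧ i ≤ h + j ∧ j ≤ h + i ∧ h ≤ i + j ∧ h + i + j ≤ 2 * d ∧
    (h + i + j) % 2 = 0 then 1 else 0
def NF2 (d : ℕ) : ℕ → ℕ → ℕ → ℤ := fun h i j =>
  if (h ≤ d ∧ i ≤ d ∧ j ≤ d) ∧ ((i ≤ h + j ∧ j ≤ h + i ∧ h ≤ i + j ∧ (h + i + j) % 2 = 0) ∨
    (2 * d + 1 ≤ h + i + j ∧ (h + i + j) % 2 = 1)) then 1 else 0
def NF3 (d : ℕ) : ℕ → ℕ → ℕ → ℤ := fun h i j =>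
  if (h ≤ d ∧ i ≤ d ∧ j ≤ d) ∧ i ≤ h + j ∧ j ≤ h + i ∧ h ≤ i + j ∧ h + i + j ≤ 2 * d + 1
    then 1 else 0
def NF4 (d : ℕ) : ℕ → ℕ → ℕ → ℤ := fun h i j =>
  (if (h ≤ d ∧ i ≤ d ∧ j ≤ d) ∧ i ≤ h + j ∧ j ≤ h + i ∧ h ≤ i + j then 1 else 0) +
  (if (h ≤ d ∧ i ≤ d ∧ j ≤ d) ∧ 2 * d + 1 ≤ h + i + j then 1 else 0)

/-- unnormalized `S` -/
structure XFacts (d : ℕ) (α b : ℕ → ℤ) (lam : ℕ → ℝ) (X : ℕ → ℕ → ℝ) (n0 : ℝ) : Prop where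
  symm : ∀ i j, X i j = X j i
  out : ∀ i j, d < i → X i j = 0
  pos : ∀ j ≤ d, 0 < X 0 j
  n0pos : 0 < n0
  norm : ∀ j ≤ d, ∑ i ∈ range (d+1), X i j ^ 2 = n0
  lamout : ∀ j, d < j → lam j = 0
  inj : ∀ i ≤ d, ∀ j ≤ d, lam i = lam j → i = j
  eig : ∀ i ≤ d, ∀ j ≤ d,
    lam j * X i j = b i * X (i-1) j + α i * X i j + b (i+1) * X (i+1) j

/-- `N` given by the recursion (first index is the running one) -/
structure NFacts (d : ℕ) (α b : ℕ → ℤ) (N : ℕ → ℕ → ℕ → ℤ) : Prop where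
  nn : ∀ i j h, 0 ≤ N i j h
  out : ∀ i j h, d < i ∨ d < j ∨ d < h → N i j h = 0
  zero : ∀ i ≤ d, ∀ j ≤ d, N 0 i j = if i = j then 1 else 0
  recu : ∀ k < d, ∀ i ≤ d, ∀ j ≤ d,
    b k * N (k-1) i j + α k * N k i j + b (k+1) * N (k+1) i j
      = b i * N k (i-1) j + α i * N k i j + b (i+1) * N k (i+1) j

end LS
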