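import Pool.Agent.LS.Core
import Pool.Agent.LS.Fam

/-! Part `FN1` of the classification of self-dual Leonard systems with integral normalized
intersection numbers (MP_963a96_al). -/
open Finset
namespace LS

theorem FN1 (d : ℕ) (hd : 1 ≤ d) : Base d alF1 (bone d) ∧ NFacts d alF1 (bone d) (NF1 d) := by
  refine ⟨⟨hd, rfl, fun i => le_refl 0, fun i _ => rfl, ?_, ?_, ?_, ?_⟩, ⟨?_, ?_, ?_, ?_⟩⟩
  · simp [bone]
  · simp [bone, hd]
  · intro i h1 h2
    simp [bone, h1, h2]
  · intro i h1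
    simp only [bone]
    rw [if_neg (by omega)]
  · intro i j h
    simp only [NF1]
    split_ifs <;> norm_num
  · intro i j h hh
    simp only [NF1]
    rw [if_neg (by omega)]
  · intro i hi j hj
    simp only [NF1]
    split_ifs <;> omega
  · intro k hk i hi j hj
    have hbk1 : bone d (k+1) = 1 := by
      simp only [bone]; rw [if_pos (by omega)]
    have e1 : bone d k * NF1 d (k-1) i j = if 1 ≤ k ∧ (i ≤ (k-1) + j ∧ j ≤ (k-1) + i ∧
        (k-1) ≤ i + j ∧ (k-1) + i + j ≤ 2 * d ∧ ((k-1) + i + j) % 2 = 0) then 1 else 0 := by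
      simp only [bone, NF1]
      split_ifs <;> omega
    have e2 : bone d (k+1) * NF1 d (k+1) i j = if (i ≤ (k+1) + j ∧ j ≤ (k+1) + i ∧
        (k+1) ≤ i + j ∧ (k+1) + i + j ≤ 2 * d ∧ ((k+1) + i + j) % 2 = 0) then 1 else 0 := by
      simp only [hbk1, NF1, one_mul]
      split_ifs <;> omega
    have e3 : bone d i * NF1 d k (i-1) j = if 1 ≤ i ∧ ((i-1) ≤ k + j ∧ j ≤ k + (i-1) ∧
        k ≤ (i-1) + j ∧ k + (i-1) + j ≤ 2 * d ∧ (k + (i-1) + j) % 2 = 0) then 1 else 0 := by
      simp only [bone, NF1]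
      split_ifs <;> omega
    have e4 : bone d (i+1) * NF1 d k (i+1) j = if i < d ∧ ((i+1) ≤ k + j ∧ j ≤ k + (i+1) ∧
        k ≤ (i+1) + j ∧ k + (i+1) + j ≤ 2 * d ∧ (k + (i+1) + j) % 2 = 0) then 1 else 0 := by
      simp only [bone, NF1]
      split_ifs <;> omega
    rw [e1, e2, e3, e4]
    simp only [alF1, zero_mul, add_zero]
    split_ifs <;> omega

end LS
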