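import Pool.Agent.LS.Core
import Pool.Agent.LS.Fam

/-! Part `FN2` of the classification of self-dual Leonard systems with integral normalized
intersection numbers (MP_963a96_al). -/
open Finset
namespace LS

theorem fn2_bone_pos {d i : ℕ} (h1 : 1 ≤ i) (h2 : i ≤ d) : bone d i = 1 := if_pos ⟨h1, h2⟩

theorem fn2_bone_zero (d : ℕ) : bone d 0 = 0 := if_neg (by omega)

theorem fn2_bone_out {d i : ℕ} (h : d < i) : bone d i = 0 := if_neg (by omega)

theorem fn2_al_d (d : ℕ) : alF2 d d = 1 := if_pos rfl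

theorem fn2_al_ne {d i : ℕ} (h : i ≠ d) : alF2 d i = 0 := if_neg h

theorem fn2_base (d : ℕ) (hd : 1 ≤ d) : Base d (alF2 d) (bone d) where
  one_le := hd
  α0 := fn2_al_ne (by omega)
  αnn := fun i => by rw [alF2]; split_ifs <;> omega
  αout := fun i hi => fn2_al_ne (by omega)
  b0 := fn2_bone_zero d
  b1 := fn2_bone_pos le_rfl hd
  bpos := fun i h1 h2 => (fn2_bone_pos h1 h2).ge
  bout := fun i hi => fn2_bone_out hi

theorem fn2_recu (d : ℕ) (hd : 1 ≤ d) : ∀ k < d, ∀ i ≤ d, ∀ j ≤ d,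
    bone d k * NF2 d (k-1) i j + alF2 d k * NF2 d k i j + bone d (k+1) * NF2 d (k+1) i j
      = bone d i * NF2 d k (i-1) j + alF2 d i * NF2 d k i j + bone d (i+1) * NF2 d k (i+1) j := by
  intro k hk i hi j hj
  rw [fn2_al_ne (show k ≠ d by omega), fn2_bone_pos (show 1 ≤ k + 1 by omega) hk]
  rcases Nat.eq_zero_or_pos k with rfl | hk0
  · rw [fn2_bone_zero]
    rcases Nat.eq_zero_or_pos i with rfl | hi0
    · rw [fn2_bone_zero, fn2_al_ne (show 0 ≠ d by omega),
        fn2_bone_pos (show 1 ≤ 0 + 1 by omega) hk]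
      simp only [zero_mul, one_mul, zero_add, NF2]
      split_ifs <;> omega
    · rw [fn2_bone_pos hi0 hi]
      rcases Nat.lt_or_ge i d with hid | hid
      · rw [fn2_al_ne (show i ≠ d by omega), fn2_bone_pos (show 1 ≤ i + 1 by omega) hid]
        simp only [zero_mul, one_mul, zero_add, NF2]
        split_ifs <;> omega
      · obtain rfl : i = d := by omega
        rw [fn2_al_d, fn2_bone_out (show i < i + 1 by omega)]
        simp only [zero_mul, one_mul, zero_add, NF2]
        split_ifs <;> omega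
  · rw [fn2_bone_pos hk0 hk.le]
    obtain ⟨k, rfl⟩ : ∃ k', k = k' + 1 := ⟨k - 1, by omega⟩
    rw [Nat.add_sub_cancel]
    rcases Nat.eq_zero_or_pos i with rfl | hi0
    · rw [fn2_bone_zero, fn2_al_ne (show 0 ≠ d by omega),
        fn2_bone_pos (show 1 ≤ 0 + 1 by omega) (show 0 + 1 ≤ d by omega)]
      simp only [zero_mul, one_mul, zero_add, add_zero, NF2]
      split_ifs <;> omega
    · rw [fn2_bone_pos hi0 hi]
      obtain ⟨i, rfl⟩ : ∃ i', i = i' + 1 := ⟨i - 1, by omega⟩
      rw [Nat.add_sub_cancel]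
      rcases Nat.lt_or_ge (i + 1) d with hid | hid
      · rw [fn2_al_ne (show i + 1 ≠ d by omega), fn2_bone_pos (show 1 ≤ i + 1 + 1 by omega) hid]
        simp only [zero_mul, one_mul, add_zero, NF2]
        split_ifs <;> omega
      · obtain rfl : i + 1 = d := by omega
        rw [fn2_al_d, fn2_bone_out (show i + 1 < i + 1 + 1 by omega)]
        simp only [zero_mul, one_mul, add_zero, NF2]
        split_ifs <;> omega

theorem FN2 (d : ℕ) (hd : 1 ≤ d) : Base d (alF2 d) (bone d) ∧ NFacts d (alF2 d) (bone d) (NF2 d) := by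
  refine ⟨fn2_base d hd, ⟨?_, ?_, ?_, fn2_recu d hd⟩⟩
  · intro i j h
    rw [NF2]
    split_ifs <;> omega
  · intro i j h hh
    rw [NF2]
    split_ifs <;> omega
  · intro i hi j hj
    rw [NF2]
    split_ifs <;> omega

end LS
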