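import Pool.Agent.LS.Core
import Pool.Agent.LS.Fam

/-! Part `FN3` of the classification of self-dual Leonard systems with integral normalized
intersection numbers (MP_963a96_al). -/
open Finset
namespace LS

theorem fn3_b0 (d : ℕ) : bone d 0 = 0 := by
  unfold bone
  rw [if_neg (by omega)]

theorem fn3_b (d i : ℕ) (h1 : 1 ≤ i) (h2 : i ≤ d) : bone d i = 1 := by
  unfold bone
  rw [if_pos ⟨h1, h2⟩]

theorem fn3_b' (d i : ℕ) (h : d < i) : bone d i = 0 := by
  unfold bone
  rw [if_neg (by omega)]

theorem fn3_a0 (d : ℕ) : alF3 d 0 = 0 := by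
  unfold alF3
  rw [if_neg (by omega)]

theorem fn3_a (d i : ℕ) (h1 : 1 ≤ i) (h2 : i ≤ d) : alF3 d i = 1 := by
  unfold alF3
  rw [if_pos ⟨h1, h2⟩]

theorem FN3 (d : ℕ) (hd : 1 ≤ d) : Base d (alF3 d) (bone d) ∧ NFacts d (alF3 d) (bone d) (NF3 d) := by
  refine ⟨⟨hd, fn3_a0 d, ?_, ?_, fn3_b0 d, fn3_b d 1 le_rfl hd, ?_, ?_⟩, ⟨?_, ?_, ?_, ?_⟩⟩
  · intro i
    unfold alF3
    split_ifs <;> norm_num
  · intro i hi
    unfold alF3
    rw [if_neg (by omega)]
  · intro i h1 h2
    rw [fn3_b d i h1 h2]
  · intro i hi
    exact fn3_b' d i hi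
  · intro i j h
    unfold NF3
    split_ifs <;> norm_num
  · intro i j h hh
    unfold NF3
    rw [if_neg (by omega)]
  · intro i hi j hj
    unfold NF3
    split_ifs <;> omega
  · intro k hk i hi j hj
    rcases Nat.eq_zero_or_pos k with rfl | hk0
    · rw [fn3_b0, fn3_a0, fn3_b d (0+1) (by omega) (by omega)]
      rcases Nat.eq_zero_or_pos i with rfl | hi0
      · rw [fn3_b0, fn3_a0, fn3_b d (0+1) (by omega) (by omega)]
        simp only [zero_mul, one_mul, zero_add]
        unfold NF3
        split_ifs <;> omega
      · rw [fn3_b d i hi0 hi, fn3_a d i hi0 hi]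
        by_cases hid : i = d
        · rw [fn3_b' d (i+1) (by omega)]
          simp only [zero_mul, one_mul, zero_add, add_zero]
          unfold NF3
          split_ifs <;> omega
        · rw [fn3_b d (i+1) (by omega) (by omega)]
          simp only [zero_mul, one_mul, zero_add, add_zero]
          unfold NF3
          split_ifs <;> omega
    · rw [fn3_b d k hk0 hk.le, fn3_a d k hk0 hk.le, fn3_b d (k+1) (by omega) (by omega)]
      rcases Nat.eq_zero_or_pos i with rfl | hi0
      · rw [fn3_b0, fn3_a0, fn3_b d (0+1) (by omega) (by omega)]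
        simp only [zero_mul, one_mul, zero_add, add_zero]
        unfold NF3
        split_ifs <;> omega
      · rw [fn3_b d i hi0 hi, fn3_a d i hi0 hi]
        by_cases hid : i = d
        · rw [fn3_b' d (i+1) (by omega)]
          simp only [zero_mul, one_mul, zero_add, add_zero]
          have key : NF3 d (k-1) i j + NF3 d (k+1) i j = NF3 d k (i-1) j := by
            unfold NF3
            split_ifs <;> omega
          linarith
        · rw [fn3_b d (i+1) (by omega) (by omega)]
          simp only [zero_mul, one_mul, zero_add, add_zero]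
          have key : NF3 d (k-1) i j + NF3 d (k+1) i j = NF3 d k (i-1) j + NF3 d k (i+1) j := by
            unfold NF3
            split_ifs <;> omega
          linarith

end LS
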