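import Pool.Agent.LS.Core
import Pool.Agent.LS.Fam

/-! Part `FN4` of the classification of self-dual Leonard systems with integral normalized
intersection numbers (MP_963a96_al). -/
open Finset
namespace LS

def fn4_A (d h i j : ℕ) : ℤ :=
  if (h ≤ d ∧ i ≤ d ∧ j ≤ d) ∧ i ≤ h + j ∧ j ≤ h + i ∧ h ≤ i + j then 1 else 0

def fn4_B (d h i j : ℕ) : ℤ :=
  if (h ≤ d ∧ i ≤ d ∧ j ≤ d) ∧ 2 * d + 1 ≤ h + i + j then 1 else 0

theorem fn4_AB (d h i j : ℕ) : NF4 d h i j = fn4_A d h i j + fn4_B d h i j := rfl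

theorem fn4_zero {d i j : ℕ} (hi : i ≤ d) (hj : j ≤ d) :
    NF4 d 0 i j = if i = j then 1 else 0 := by
  rw [fn4_AB]
  unfold fn4_A fn4_B
  split_ifs <;> omega

theorem fn4_symm (d h i j : ℕ) : NF4 d h i j = NF4 d i h j := by
  rw [fn4_AB, fn4_AB]
  have e1 : fn4_A d h i j = fn4_A d i h j := by
    unfold fn4_A
    split_ifs <;> omega
  have e2 : fn4_B d h i j = fn4_B d i h j := by
    unfold fn4_B
    split_ifs <;> omega
  rw [e1, e2]

theorem fn4_one {d i j : ℕ} (hi : i ≤ d) (hj : j ≤ d) :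
    NF4 d 1 i j = (if j = i + 1 then 1 else 0) + (if i = j + 1 then 1 else 0)
      + (if i = j ∧ 1 ≤ i then 1 else 0) + (if i = d ∧ j = d ∧ 1 ≤ d then 1 else 0) := by
  rw [fn4_AB]
  have e1 : fn4_A d 1 i j = (if j = i + 1 then 1 else 0) + (if i = j + 1 then 1 else 0)
      + (if i = j ∧ 1 ≤ i then 1 else 0) := by
    unfold fn4_A
    split_ifs <;> omega
  have e2 : fn4_B d 1 i j = (if i = d ∧ j = d ∧ 1 ≤ d then 1 else 0) := by
    unfold fn4_B
    split_ifs <;> omega
  rw [e1, e2]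

theorem fn4_mid {d k i j : ℕ} (hk1 : 1 ≤ k) (hkd : k < d) (hi1 : 1 ≤ i) (hid : i < d)
    (hj : j ≤ d) : NF4 d (k-1) i j + NF4 d (k+1) i j = NF4 d k (i-1) j + NF4 d k (i+1) j := by
  simp only [fn4_AB]
  have e1 : fn4_A d (k-1) i j + fn4_A d (k+1) i j = fn4_A d k (i-1) j + fn4_A d k (i+1) j := by
    unfold fn4_A
    split_ifs <;> omega
  have e2 : fn4_B d (k-1) i j + fn4_B d (k+1) i j = fn4_B d k (i-1) j + fn4_B d k (i+1) j := by
    unfold fn4_B
    split_ifs <;> omega
  linear_combination e1 + e2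

theorem fn4_Ad {d h j : ℕ} (hh : h ≤ d) (hj : j ≤ d) :
    fn4_A d h d j = if d ≤ h + j then 1 else 0 := by
  unfold fn4_A
  split_ifs <;> omega

theorem fn4_Bd {d h j : ℕ} (hh : h ≤ d) (hj : j ≤ d) :
    fn4_B d h d j = if d + 1 ≤ h + j then 1 else 0 := by
  unfold fn4_B
  split_ifs <;> omega

theorem fn4_end {d k j : ℕ} (hk1 : 1 ≤ k) (hkd : k < d)
    (hj : j ≤ d) : NF4 d (k-1) d j + NF4 d (k+1) d j = NF4 d k (d-1) j + NF4 d k d j := by
  simp only [fn4_AB]
  rw [fn4_Ad (by omega) hj, fn4_Ad (by omega) hj, fn4_Ad (by omega) hj,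
    fn4_Bd (by omega) hj, fn4_Bd (by omega) hj, fn4_Bd (by omega) hj]
  have e1 : fn4_A d k (d-1) j = if d ≤ k + 1 + j then 1 else 0 := by
    unfold fn4_A
    split_ifs <;> omega
  have e2 : fn4_B d k (d-1) j = if d + 1 ≤ k - 1 + j then 1 else 0 := by
    unfold fn4_B
    split_ifs <;> omega
  have e3 : (if d + 1 ≤ k + 1 + j then (1:ℤ) else 0) = if d ≤ k + j then 1 else 0 := by
    split_ifs <;> omega
  have e4 : (if d ≤ k - 1 + j then (1:ℤ) else 0) = if d + 1 ≤ k + j then 1 else 0 := by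
    split_ifs <;> omega
  rw [e1, e2, e3, e4]
  ring

theorem FN4 (d : ℕ) (hd : 1 ≤ d) : Base d (alF4 d) (bone d) ∧ NFacts d (alF4 d) (bone d) (NF4 d) := by
  have hb : ∀ i, 1 ≤ i → i ≤ d → bone d i = 1 := fun i h1 h2 => if_pos ⟨h1, h2⟩
  have hb0 : bone d 0 = 0 := if_neg (by omega)
  have hbd : ∀ i, d < i → bone d i = 0 := fun i h1 => if_neg (by omega)
  have ha0 : alF4 d 0 = 0 := by
    unfold alF4
    split_ifs <;> omega
  have ha1 : ∀ i, 1 ≤ i → i < d → alF4 d i = 1 := fun i h1 h2 => if_pos ⟨h1, h2⟩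
  have had : alF4 d d = 2 := by
    unfold alF4
    split_ifs <;> omega
  refine ⟨⟨hd, ha0, ?_, ?_, hb0, hb 1 le_rfl hd, ?_, hbd⟩, ⟨?_, ?_, ?_, ?_⟩⟩
  · intro i
    unfold alF4
    split_ifs <;> omega
  · intro i hi
    unfold alF4
    split_ifs <;> omega
  · intro i h1 h2
    rw [hb i h1 h2]
  · intro i j h
    rw [fn4_AB]
    unfold fn4_A fn4_B
    split_ifs <;> omega
  · intro i j h hijh
    rw [fn4_AB]
    unfold fn4_A fn4_B
    split_ifs <;> omega
  · intro i hi j hj
    exact fn4_zero hi hj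
  · intro k hk i hi j hj
    rcases Nat.eq_zero_or_pos k with hk0 | hk1
    · subst hk0
      rw [hb0, ha0, hb (0 + 1) (by omega) (by omega), show (0:ℕ) + 1 = 1 from rfl,
        fn4_one hi hj, fn4_zero hi hj]
      rcases Nat.eq_zero_or_pos i with hi0 | hi1
      · subst hi0
        rw [hb0, ha0, hb (0 + 1) (by omega) (by omega),
          fn4_zero (show 0 + 1 ≤ d by omega) hj, zero_mul, zero_mul, one_mul, one_mul,
          if_neg (show ¬ (0 = j + 1) by omega), if_neg (show ¬ (0 = j ∧ 1 ≤ 0) by omega),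
          if_neg (show ¬ (0 = d ∧ j = d ∧ 1 ≤ d) by omega)]
        rcases eq_or_ne j (0 + 1) with h1 | h1
        · rw [if_pos h1, if_pos h1.symm]
          ring
        · rw [if_neg h1, if_neg h1.symm]
          ring
      · rcases Nat.lt_or_ge i d with hid | hid
        · rw [hb i hi1 hi, ha1 i hi1 hid, hb (i + 1) (by omega) (by omega),
            fn4_zero (show i - 1 ≤ d by omega) hj, fn4_zero (show i + 1 ≤ d by omega) hj]
          split_ifs <;> omega
        · have hid2 : i = d := le_antisymm hi hid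
          subst hid2
          rw [hb i hi1 hi, had, hbd (i + 1) (by omega), zero_mul,
            fn4_zero (show i - 1 ≤ i by omega) hj]
          split_ifs <;> omega
    · rw [hb k hk1 (by omega), ha1 k hk1 hk, hb (k + 1) (by omega) (by omega)]
      rcases Nat.eq_zero_or_pos i with hi0 | hi1
      · subst hi0
        rw [hb0, ha0, hb (0 + 1) (by omega) (by omega), show (0:ℕ) + 1 = 1 from rfl,
          fn4_symm d (k - 1) 0 j, fn4_symm d k 0 j, fn4_symm d (k + 1) 0 j, fn4_symm d k 1 j,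
          fn4_one (show k ≤ d by omega) hj, fn4_zero (show k - 1 ≤ d by omega) hj,
          fn4_zero (show k ≤ d by omega) hj, fn4_zero (show k + 1 ≤ d by omega) hj]
        split_ifs <;> omega
      · rcases Nat.lt_or_ge i d with hid | hid
        · rw [hb i hi1 hi, ha1 i hi1 hid, hb (i + 1) (by omega) (by omega)]
          linear_combination fn4_mid hk1 hk hi1 hid hj
        · have hid2 : i = d := le_antisymm hi hid
          subst hid2
          rw [hb i hi1 hi, had, hbd (i + 1) (by omega)]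
          linear_combination fn4_end hk1 hk hj

end LS
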