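import Pool.Agent.LS.Core

/-! Part `TR` of the classification of self-dual Leonard systems with integral normalized
intersection numbers (MP_963a96_al). -/
open Finset
namespace LS

theorem sum_sin_sq1 (n : ℕ) (φ : ℝ) :
    4 * Real.sin φ * ∑ k ∈ range n, Real.sin ((k + 1) * φ) ^ 2
      = (2 * n + 1) * Real.sin φ - Real.sin ((2 * n + 1) * φ) := by
  induction n with
  | zero => simp
  | succ n ih =>
    rw [Finset.sum_range_succ, mul_add, ih]
    push_cast
    have h1 : (2 * (n : ℝ) + 1) * φ = 2 * (((n : ℝ) + 1) * φ) - φ := by ring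
    have h2 : (2 * ((n : ℝ) + 1) + 1) * φ = 2 * (((n : ℝ) + 1) * φ) + φ := by ring
    rw [h1, h2, Real.sin_sub, Real.sin_add, Real.cos_two_mul, Real.sin_two_mul]
    have h3 := Real.sin_sq_add_cos_sq (((n : ℝ) + 1) * φ)
    linear_combination (4 * Real.sin φ) * h3

theorem sum_sin_sq2 (n : ℕ) (φ : ℝ) :
    4 * Real.sin (2 * φ) * ∑ k ∈ range n, Real.sin ((2 * k + 1) * φ) ^ 2
      = 2 * n * Real.sin (2 * φ) - Real.sin (4 * n * φ) := by
  induction n with
  | zero => simp
  | succ n ih =>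
    rw [Finset.sum_range_succ, mul_add, ih]
    push_cast
    have h1 : 4 * (n : ℝ) * φ = 2 * ((2 * (n : ℝ) + 1) * φ) - 2 * φ := by ring
    have h2 : 4 * ((n : ℝ) + 1) * φ = 2 * ((2 * (n : ℝ) + 1) * φ) + 2 * φ := by ring
    rw [h1, h2, Real.sin_sub, Real.sin_add, Real.cos_two_mul ((2 * (n : ℝ) + 1) * φ)]
    have h3 := Real.sin_sq_add_cos_sq ((2 * (n : ℝ) + 1) * φ)
    linear_combination (4 * Real.sin (2 * φ)) * h3

end LS
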