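import Pool.Agent.LS.Core
import Pool.Agent.LS.Fam
import Pool.Agent.LS.TR

/-! Part `FX1` of the classification of self-dual Leonard systems with integral normalized
intersection numbers (MP_963a96_al). -/
open Finset
namespace LS

noncomputable def fx1_phi (d j : ℕ) : ℝ := ((j : ℝ) + 1) * Real.pi / ((d : ℝ) + 2)

theorem fx1_pos {d j : ℕ} (hj : j ≤ d) : 0 < fx1_phi d j ∧ fx1_phi d j < Real.pi := by
  have hd : (0:ℝ) < (d:ℝ) + 2 := by positivity
  have hj' : (j:ℝ) ≤ d := by exact_mod_cast hj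
  have hpi := Real.pi_pos
  unfold fx1_phi
  constructor
  · positivity
  · rw [div_lt_iff₀ hd]
    nlinarith

theorem fx1_arg (d i j : ℕ) :
    ((i : ℝ) + 1) * ((j : ℝ) + 1) * Real.pi / ((d : ℝ) + 2) = ((i : ℝ) + 1) * fx1_phi d j := by
  unfold fx1_phi
  ring

theorem fx1_mul (d j : ℕ) : ((d : ℝ) + 2) * fx1_phi d j = ((j : ℝ) + 1) * Real.pi := by
  have hd : (d:ℝ) + 2 ≠ 0 := by positivity
  unfold fx1_phi
  field_simp

theorem fx1_end (d j : ℕ) : Real.sin (((d : ℝ) + 2) * fx1_phi d j) = 0 := by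
  rw [fx1_mul]
  have := Real.sin_nat_mul_pi (j + 1)
  push_cast at this
  exact this

theorem fx1_sum {d j : ℕ} (hj : j ≤ d) :
    ∑ i ∈ range (d+1), Real.sin (((i : ℝ) + 1) * fx1_phi d j) ^ 2 = ((d:ℝ) + 2) / 2 := by
  have h1 := sum_sin_sq1 (d + 1) (fx1_phi d j)
  obtain ⟨h0, hpi⟩ := fx1_pos hj
  have hs : 0 < Real.sin (fx1_phi d j) := Real.sin_pos_of_pos_of_lt_pi h0 hpi
  have h2 : Real.sin ((2 * ((d + 1 : ℕ) : ℝ) + 1) * fx1_phi d j) = - Real.sin (fx1_phi d j) := by
    have e : (2 * ((d + 1 : ℕ) : ℝ) + 1) * fx1_phi d j =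
        ((j + 1 : ℕ) : ℝ) * (2 * Real.pi) - fx1_phi d j := by
      have := fx1_mul d j
      push_cast
      linear_combination 2 * this
    rw [e, Real.sin_nat_mul_two_pi_sub]
  rw [h2] at h1
  push_cast at h1
  have h3 : 4 * Real.sin (fx1_phi d j) *
      (∑ i ∈ range (d+1), Real.sin (((i : ℝ) + 1) * fx1_phi d j) ^ 2 - ((d:ℝ) + 2) / 2) = 0 := by
    linear_combination h1
  rcases mul_eq_zero.1 h3 with h4 | h4
  · exfalso
    linarith
  · linarith

theorem fx1_rec (φ t : ℝ) :
    2 * Real.cos φ * Real.sin ((t + 1) * φ) = Real.sin (t * φ) + Real.sin ((t + 2) * φ) := by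
  have e1 : t * φ = (t + 1) * φ - φ := by ring
  have e2 : (t + 2) * φ = (t + 1) * φ + φ := by ring
  rw [e1, e2, Real.sin_sub, Real.sin_add]
  ring

theorem fx1_cosinj {d i j : ℕ} (hi : i ≤ d) (hj : j ≤ d)
    (h : Real.cos (fx1_phi d i) = Real.cos (fx1_phi d j)) : i = j := by
  obtain ⟨h1, h2⟩ := fx1_pos hi
  obtain ⟨h3, h4⟩ := fx1_pos hj
  have h5 := Real.injOn_cos ⟨h1.le, h2.le⟩ ⟨h3.le, h4.le⟩ h
  have h6 := fx1_mul d i
  have h7 := fx1_mul d j
  rw [h5, h7] at h6
  have h8 := mul_right_cancel₀ Real.pi_ne_zero h6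
  have h9 : (j : ℝ) = i := by linarith
  exact_mod_cast h9.symm

theorem fx1_sinv {d i j : ℕ} (hi : i ≤ d) (hj : j ≤ d) :
    XF1 d i j = Real.sin (((i : ℝ) + 1) * fx1_phi d j) := by
  unfold XF1
  rw [if_pos ⟨hi, hj⟩, fx1_arg]

theorem fx1_sinv' {d i j : ℕ} (hi : i ≤ d) (hj : j ≤ d) :
    XF1' d i j = (-1) ^ (i * j) * Real.sin (((i : ℝ) + 1) * fx1_phi d j) := by
  unfold XF1'
  rw [if_pos ⟨hi, hj⟩, fx1_arg]

theorem fx1_lam {d j : ℕ} (hj : j ≤ d) : lamF1 d j = 2 * Real.cos (fx1_phi d j) := by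
  unfold lamF1 fx1_phi
  rw [if_pos hj]

theorem fx1_lam' {d j : ℕ} (hj : j ≤ d) :
    lamF1' d j = (-1) ^ j * (2 * Real.cos (fx1_phi d j)) := by
  unfold lamF1' fx1_phi
  rw [if_pos hj]

theorem FX1 (d : ℕ) (hd : 1 ≤ d) :
    XFacts d alF1 (bone d) (lamF1 d) (XF1 d) (((d:ℝ) + 2) / 2) := by
  refine ⟨?_, ?_, ?_, ?_, ?_, ?_, ?_, ?_⟩
  · intro i j
    unfold XF1
    by_cases h : i ≤ d ∧ j ≤ d
    · rw [if_pos h, if_pos ⟨h.2, h.1⟩, mul_comm ((i:ℝ)+1) ((j:ℝ)+1)]
    · rw [if_neg h, if_neg (fun h' => h ⟨h'.2, h'.1⟩)]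
  · intro i j hi
    unfold XF1
    rw [if_neg]
    omega
  · intro j hj
    rw [fx1_sinv (Nat.zero_le d) hj]
    obtain ⟨h1, h2⟩ := fx1_pos hj
    simp only [Nat.cast_zero, zero_add, one_mul]
    exact Real.sin_pos_of_pos_of_lt_pi h1 h2
  · positivity
  · intro j hj
    rw [← fx1_sum hj]
    apply Finset.sum_congr rfl
    intro i hi
    rw [fx1_sinv (by rw [Finset.mem_range] at hi; omega) hj]
  · intro j hj
    unfold lamF1
    rw [if_neg (by omega)]
  · intro i hi j hj h
    rw [fx1_lam hi, fx1_lam hj] at h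
    exact fx1_cosinj hi hj (by linarith)
  · intro i hi j hj
    have hA : ((bone d i : ℤ) : ℝ) * XF1 d (i-1) j = Real.sin ((i : ℝ) * fx1_phi d j) := by
      rcases Nat.eq_zero_or_pos i with h0 | h0
      · subst h0
        simp [bone]
      · have : bone d i = 1 := by
          unfold bone
          rw [if_pos ⟨h0, hi⟩]
        rw [this, fx1_sinv (by omega) hj]
        have e : ((i - 1 : ℕ) : ℝ) + 1 = i := by
          rw [Nat.cast_sub h0]
          push_cast
          ring
        rw [e]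
        push_cast
        ring
    have hB : ((bone d (i+1) : ℤ) : ℝ) * XF1 d (i+1) j =
        Real.sin (((i : ℝ) + 2) * fx1_phi d j) := by
      rcases Nat.lt_or_ge i d with h0 | h0
      · have : bone d (i+1) = 1 := by
          unfold bone
          rw [if_pos ⟨by omega, by omega⟩]
        rw [this, fx1_sinv (by omega) hj]
        have e : ((i + 1 : ℕ) : ℝ) + 1 = (i : ℝ) + 2 := by
          push_cast
          ring
        rw [e]
        push_cast
        ring
      · have hid : i = d := by omega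
        subst hid
        rw [fx1_end]
        unfold bone
        rw [if_neg (by omega)]
        simp
    rw [hA, hB, fx1_sinv hi hj, fx1_lam hj]
    have h1 := fx1_rec (fx1_phi d j) i
    simp only [alF1, Int.cast_zero, zero_mul, add_zero]
    exact h1

theorem FX1' (d : ℕ) (hd : 1 ≤ d) (he : Even d) :
    XFacts d alF1 (bone d) (lamF1' d) (XF1' d) (((d:ℝ) + 2) / 2) := by
  refine ⟨?_, ?_, ?_, ?_, ?_, ?_, ?_, ?_⟩
  · intro i j
    unfold XF1'
    by_cases h : i ≤ d ∧ j ≤ d
    · rw [if_pos h, if_pos ⟨h.2, h.1⟩, mul_comm ((i:ℝ)+1) ((j:ℝ)+1), mul_comm i j]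
    · rw [if_neg h, if_neg (fun h' => h ⟨h'.2, h'.1⟩)]
  · intro i j hi
    unfold XF1'
    rw [if_neg]
    omega
  · intro j hj
    rw [fx1_sinv' (Nat.zero_le d) hj]
    obtain ⟨h1, h2⟩ := fx1_pos hj
    simp only [Nat.cast_zero, zero_add, one_mul, zero_mul, pow_zero]
    exact Real.sin_pos_of_pos_of_lt_pi h1 h2
  · positivity
  · intro j hj
    rw [← fx1_sum hj]
    apply Finset.sum_congr rfl
    intro i hi
    rw [fx1_sinv' (by rw [Finset.mem_range] at hi; omega) hj, mul_pow, ← pow_mul, mul_comm (i * j) 2,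
      pow_mul]
    simp
  · intro j hj
    unfold lamF1'
    rw [if_neg (by omega)]
  ·
    have key : ∀ i ≤ d, ∃ k ≤ d, k % 2 = i % 2 ∧ (i % 2 = 0 → k = i) ∧ (i % 2 = 1 → k = d - i) ∧
        lamF1' d i = 2 * Real.cos (fx1_phi d k) := by
      intro i hi
      rcases Nat.mod_two_eq_zero_or_one i with h0 | h1
      · refine ⟨i, hi, rfl, fun _ => rfl, fun h => by omega, ?_⟩
        rw [fx1_lam' hi, Even.neg_one_pow (Nat.even_iff.2 h0), one_mul]
      · have hd2 := Nat.even_iff.1 he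
        refine ⟨d - i, by omega, by omega, fun h => by omega, fun _ => rfl, ?_⟩
        rw [fx1_lam' hi, Odd.neg_one_pow (Nat.odd_iff.2 h1)]
        have e : fx1_phi d (d - i) = Real.pi - fx1_phi d i := by
          have hd' : (d:ℝ) + 2 ≠ 0 := by positivity
          unfold fx1_phi
          rw [Nat.cast_sub hi]
          field_simp
          ring
        rw [e, Real.cos_pi_sub]
        ring
    intro i hi j hj h
    obtain ⟨k, hk, hk1, hk2, hk3, hk4⟩ := key i hi
    obtain ⟨l, hl, hl1, hl2, hl3, hl4⟩ := key j hj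
    rw [hk4, hl4] at h
    have hkl := fx1_cosinj hk hl (by linarith)
    subst hkl
    rcases Nat.mod_two_eq_zero_or_one i with h0 | h0
    · have h1 : j % 2 = 0 := by omega
      rw [← hk2 h0, ← hl2 h1]
    · have h1 : j % 2 = 1 := by omega
      have h2 := hk3 h0
      have h3 := hl3 h1
      omega
  · intro i hi j hj
    set s : ℝ := (-1) ^ ((i + 1) * j) with hs
    have hA : ((bone d i : ℤ) : ℝ) * XF1' d (i-1) j = s * Real.sin ((i : ℝ) * fx1_phi d j) := by
      rcases Nat.eq_zero_or_pos i with h0 | h0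
      · subst h0
        simp [bone]
      · have : bone d i = 1 := by
          unfold bone
          rw [if_pos ⟨h0, hi⟩]
        rw [this, fx1_sinv' (by omega) hj]
        have e : ((i - 1 : ℕ) : ℝ) + 1 = i := by
          rw [Nat.cast_sub h0]
          push_cast
          ring
        have e2 : (-1 : ℝ) ^ ((i - 1) * j) = s := by
          rw [hs]
          obtain ⟨k, rfl⟩ : ∃ k, i = k + 1 := ⟨i - 1, by omega⟩
          have e3 : (k + 1 + 1) * j = (k + 1 - 1) * j + 2 * j := by
            simp only [Nat.add_sub_cancel]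
            ring
          rw [e3, pow_add, pow_mul (-1 : ℝ) 2 j]
          simp
        rw [e, e2]
        push_cast
        ring
    have hB : ((bone d (i+1) : ℤ) : ℝ) * XF1' d (i+1) j =
        s * Real.sin (((i : ℝ) + 2) * fx1_phi d j) := by
      rcases Nat.lt_or_ge i d with h0 | h0
      · have : bone d (i+1) = 1 := by
          unfold bone
          rw [if_pos ⟨by omega, by omega⟩]
        rw [this, fx1_sinv' (by omega) hj]
        have e : ((i + 1 : ℕ) : ℝ) + 1 = (i : ℝ) + 2 := by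
          push_cast
          ring
        rw [e, hs]
        push_cast
        ring
      · have hid : i = d := by omega
        subst hid
        rw [fx1_end]
        unfold bone
        rw [if_neg (by omega)]
        simp
    rw [hA, hB, fx1_sinv' hi hj, fx1_lam' hj]
    have h1 := fx1_rec (fx1_phi d j) i
    have h2 : (-1 : ℝ) ^ j * (-1) ^ (i * j) = s := by
      rw [hs, ← pow_add]
      congr 1
      ring
    simp only [alF1, Int.cast_zero, zero_mul, add_zero]
    rw [← mul_add, ← h1, ← h2]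
    ring

end LS
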