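import Pool.Agent.LS.Core
import Pool.Agent.LS.Fam
import Pool.Agent.LS.TR

/-! Part `FX2` of the classification of self-dual Leonard systems with integral normalized
intersection numbers (MP_963a96_al). -/
open Finset
namespace LS

noncomputable def fx2_ph (d j : ℕ) : ℝ := ((j : ℝ) + 1) * Real.pi / (2 * d + 3)

theorem fx2_X {d i j : ℕ} (hi : i ≤ d) (hj : j ≤ d) :
    XF2 d i j = (-1) ^ (i * j) * Real.sin (((i : ℝ) + 1) * fx2_ph d j) := by
  unfold XF2 fx2_ph
  rw [if_pos ⟨hi, hj⟩]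
  congr 2
  ring

theorem fx2_lam {d j : ℕ} (hj : j ≤ d) :
    lamF2 d j = (-1) ^ j * (2 * Real.cos (fx2_ph d j)) := by
  unfold lamF2 fx2_ph
  rw [if_pos hj]

theorem fx2_pos (d j : ℕ) : 0 < fx2_ph d j := by
  unfold fx2_ph
  have := Real.pi_pos
  positivity

theorem fx2_lt {d j : ℕ} (hj : j ≤ d) : fx2_ph d j < Real.pi / 2 := by
  unfold fx2_ph
  have h1 : (j : ℝ) ≤ d := by exact_mod_cast hj
  have h2 : (0 : ℝ) ≤ d := Nat.cast_nonneg d
  rw [div_lt_div_iff₀ (by positivity) (by norm_num)]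
  have := Real.pi_pos
  nlinarith

theorem fx2_inj {d i j : ℕ} (h : fx2_ph d i = fx2_ph d j) : i = j := by
  unfold fx2_ph at h
  have h2 : (0 : ℝ) ≤ d := Nat.cast_nonneg d
  have h3 : (2 * (d : ℝ) + 3) ≠ 0 := by positivity
  have h4 : ((i : ℝ) + 1) = ((j : ℝ) + 1) := by
    field_simp at h
    linarith
  have h6 : (i : ℝ) = j := by linarith
  exact_mod_cast h6

theorem fx2_mul (d j : ℕ) : (2 * (d : ℝ) + 3) * fx2_ph d j = ((j + 1 : ℕ) : ℝ) * Real.pi := by
  unfold fx2_ph
  have h2 : (0 : ℝ) ≤ d := Nat.cast_nonneg d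
  have h3 : (2 * (d : ℝ) + 3) ≠ 0 := by positivity
  push_cast
  field_simp

theorem fx2_sin_pos {d j : ℕ} (hj : j ≤ d) : 0 < Real.sin (fx2_ph d j) :=
  Real.sin_pos_of_pos_of_lt_pi (fx2_pos d j) (by have := fx2_lt hj; have := Real.pi_pos; linarith)

theorem fx2_cos_pos {d j : ℕ} (hj : j ≤ d) : 0 < Real.cos (fx2_ph d j) :=
  Real.cos_pos_of_mem_Ioo ⟨by have := fx2_pos d j; have := Real.pi_pos; linarith, fx2_lt hj⟩

theorem fx2_sq (k : ℕ) : ((-1 : ℝ) ^ k) ^ 2 = 1 := by
  rw [← pow_mul, mul_comm, pow_mul]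
  norm_num

theorem FX2 (d : ℕ) (hd : 1 ≤ d) :
    XFacts d (alF2 d) (bone d) (lamF2 d) (XF2 d) ((2 * (d:ℝ) + 3) / 4) := by
  have hd0 : (0 : ℝ) ≤ d := Nat.cast_nonneg d
  refine ⟨?_, ?_, ?_, by positivity, ?_, ?_, ?_, ?_⟩
  · intro i j
    unfold XF2
    by_cases h : i ≤ d ∧ j ≤ d
    · rw [if_pos h, if_pos ⟨h.2, h.1⟩, mul_comm i j]
      congr 2
      ring
    · rw [if_neg h, if_neg (fun h' => h ⟨h'.2, h'.1⟩)]
  · intro i j hi
    unfold XF2
    rw [if_neg (fun h' => absurd h'.1 (by omega))]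
  · intro j hj
    rw [fx2_X (by omega) hj, zero_mul, pow_zero, one_mul, Nat.cast_zero, zero_add, one_mul]
    exact fx2_sin_pos hj
  · intro j hj
    have h1 : ∑ i ∈ range (d + 1), XF2 d i j ^ 2 =
        ∑ i ∈ range (d + 1), Real.sin (((i : ℝ) + 1) * fx2_ph d j) ^ 2 := by
      refine Finset.sum_congr rfl fun i hi => ?_
      rw [Finset.mem_range] at hi
      rw [fx2_X (by omega) hj, mul_pow, fx2_sq, one_mul]
    rw [h1]
    have h2 := sum_sin_sq1 (d + 1) (fx2_ph d j)
    have h3 : (2 * ((d + 1 : ℕ) : ℝ) + 1) = 2 * (d : ℝ) + 3 := by push_cast; ring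
    rw [h3, fx2_mul, Real.sin_nat_mul_pi, sub_zero] at h2
    have h4 := fx2_sin_pos hj
    have h5 : Real.sin (fx2_ph d j) * (4 * ∑ i ∈ range (d + 1),
        Real.sin (((i : ℝ) + 1) * fx2_ph d j) ^ 2 - (2 * (d : ℝ) + 3)) = 0 := by
      linear_combination h2
    rcases mul_eq_zero.1 h5 with h6 | h6
    · exact absurd h6 h4.ne'
    · linarith
  · intro j hj
    unfold lamF2
    rw [if_neg (by omega)]
  · intro i hi j hj h
    rw [fx2_lam hi, fx2_lam hj] at h
    have h1 := congrArg (fun x : ℝ => |x|) h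
    simp only [abs_mul, abs_pow, abs_neg, abs_one, one_pow, one_mul] at h1
    rw [abs_of_pos (fx2_cos_pos hi), abs_of_pos (fx2_cos_pos hj)] at h1
    have h2 : Real.cos (fx2_ph d i) = Real.cos (fx2_ph d j) := by
      have : |(2 : ℝ)| = 2 := abs_of_pos (by norm_num)
      rw [this] at h1
      linarith
    apply fx2_inj (d := d)
    have hp := Real.pi_pos
    refine Real.injOn_cos ⟨(fx2_pos d i).le, ?_⟩ ⟨(fx2_pos d j).le, ?_⟩ h2
    · have := fx2_lt hi; linarith
    · have := fx2_lt hj; linarith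
  · intro i hi j hj
    set φ := fx2_ph d j with hφ
    have hsum : 2 * Real.cos φ * Real.sin (((i : ℝ) + 1) * φ) =
        Real.sin ((i : ℝ) * φ) + Real.sin (((i : ℝ) + 2) * φ) := by
      have e1 : (i : ℝ) * φ = ((i : ℝ) + 1) * φ - φ := by ring
      have e2 : ((i : ℝ) + 2) * φ = ((i : ℝ) + 1) * φ + φ := by ring
      rw [e1, e2, Real.sin_sub, Real.sin_add]
      ring
    have hleft : lamF2 d j * XF2 d i j = (-1) ^ ((i + 1) * j) *
        (Real.sin ((i : ℝ) * φ) + Real.sin (((i : ℝ) + 2) * φ)) := by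
      have e3 : (-1 : ℝ) ^ ((i + 1) * j) = (-1) ^ (i * j) * (-1) ^ j := by
        rw [← pow_add]
        congr 1
        ring
      rw [fx2_lam hj, fx2_X hi hj, ← hφ, ← hsum, e3]
      ring
    have hb1 : (bone d i : ℝ) * XF2 d (i - 1) j = (-1) ^ ((i + 1) * j) * Real.sin ((i : ℝ) * φ) := by
      rcases i with _ | i
      · simp [bone]
      · have h1 : bone d (i + 1) = 1 := by unfold bone; rw [if_pos ⟨by omega, hi⟩]
        have h2 : ((i + 1 : ℕ) : ℝ) = (i : ℝ) + 1 := by push_cast; ring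
        rw [h1, Nat.add_sub_cancel, fx2_X (by omega) hj, ← hφ, h2]
        have h3 : (-1 : ℝ) ^ ((i + 1 + 1) * j) = (-1) ^ (i * j) := by
          have : (i + 1 + 1) * j = i * j + 2 * j := by ring
          rw [this, pow_add, pow_mul (-1 : ℝ) 2 j]
          norm_num
        rw [h3]
        push_cast
        ring
    have hb2 : (alF2 d i : ℝ) * XF2 d i j + (bone d (i + 1) : ℝ) * XF2 d (i + 1) j =
        (-1) ^ ((i + 1) * j) * Real.sin (((i : ℝ) + 2) * φ) := by
      by_cases h : i = d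
      · subst h
        have h1 : alF2 i i = 1 := by unfold alF2; rw [if_pos rfl]
        have h2 : bone i (i + 1) = 0 := by
          unfold bone
          rw [if_neg (by omega)]
        rw [h1, h2, fx2_X le_rfl hj, ← hφ]
        have h3 : ((i : ℝ) + 2) * φ = ((j + 1 : ℕ) : ℝ) * Real.pi - ((i : ℝ) + 1) * φ := by
          rw [← fx2_mul i j, ← hφ]
          ring
        have e3 : (-1 : ℝ) ^ ((i + 1) * j) = (-1) ^ (i * j) * (-1) ^ j := by
          rw [← pow_add]
          congr 1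
          ring
        rw [h3, Real.sin_nat_mul_pi_sub, e3]
        have h4 : (-1 : ℝ) ^ j * (-1) ^ (j + 1) = -1 := by
          rw [← pow_add]
          have : j + (j + 1) = 2 * j + 1 := by ring
          rw [this, pow_succ, pow_mul]
          norm_num
        push_cast
        generalize Real.sin (((i : ℝ) + 1) * φ) = s
        generalize (-1 : ℝ) ^ (i * j) = u at *
        linear_combination (u * s) * h4
      · have h1 : alF2 d i = 0 := by unfold alF2; rw [if_neg h]
        have h2 : bone d (i + 1) = 1 := by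
          unfold bone
          rw [if_pos ⟨by omega, by omega⟩]
        have h3 : (((i + 1 : ℕ) : ℝ) + 1) = (i : ℝ) + 2 := by push_cast; ring
        rw [h1, h2, fx2_X (i := i + 1) (by omega) hj, ← hφ, h3]
        push_cast
        ring
    rw [hleft, mul_add, ← hb1, ← hb2]
    ring

theorem FX2_inj (d : ℕ) : ∀ i ≤ d, ∀ j ≤ d, XF2 d 0 i = XF2 d 0 j → i = j := by
  intro i hi j hj h
  rw [fx2_X (by omega) hi, fx2_X (by omega) hj] at h
  simp only [zero_mul, pow_zero, one_mul, Nat.cast_zero, zero_add] at h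
  apply fx2_inj (d := d)
  have hp := Real.pi_pos
  refine Real.injOn_sin ⟨?_, (fx2_lt hi).le⟩ ⟨?_, (fx2_lt hj).le⟩ h
  · have := fx2_pos d i; linarith
  · have := fx2_pos d j; linarith

end LS
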