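import Pool.Agent.LS.Core
import Pool.Agent.LS.Fam
import Pool.Agent.LS.TR

/-! Part `FX3` of the classification of self-dual Leonard systems with integral normalized
intersection numbers (MP_963a96_al). -/
open Finset
namespace LS

noncomputable def fx3_ph (d j : ℕ) : ℝ := (2 * j + 1) * Real.pi / (2 * d + 3)

theorem fx3_den (d : ℕ) : (2 * (d : ℝ) + 3) ≠ 0 := by positivity

theorem fx3_X {d i j : ℕ} (hi : i ≤ d) (hj : j ≤ d) :
    XF3 d i j = Real.sin ((2 * i + 1) * fx3_ph d j) := by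
  rw [XF3, if_pos ⟨hi, hj⟩, fx3_ph]
  congr 1
  ring

theorem fx3_lam {d j : ℕ} (hj : j ≤ d) : lamF3 d j = 1 + 2 * Real.cos (2 * fx3_ph d j) := by
  rw [lamF3, if_pos hj, fx3_ph]
  congr 3
  ring

theorem fx3_mul (d j : ℕ) : (2 * (d : ℝ) + 3) * fx3_ph d j = (2 * j + 1) * Real.pi := by
  rw [fx3_ph]
  field_simp

theorem fx3_sin_ne {d j : ℕ} (hj : j ≤ d) : Real.sin (2 * fx3_ph d j) ≠ 0 := by
  intro h
  obtain ⟨n, hn⟩ := Real.sin_eq_zero_iff.1 h
  have h1 := fx3_mul d j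
  have h2 : ((n : ℝ) * (2 * d + 3) - 2 * (2 * j + 1)) * Real.pi = 0 := by
    linear_combination (2 * (d : ℝ) + 3) * hn + 2 * h1
  have h3 := (mul_eq_zero.1 h2).resolve_right Real.pi_ne_zero
  have h4 : n * (2 * (d : ℤ) + 3) = 2 * (2 * j + 1) := by
    have h5 : (n : ℝ) * (2 * d + 3) = 2 * (2 * j + 1) := by linarith
    exact_mod_cast h5
  have hj' : (j : ℤ) ≤ d := by exact_mod_cast hj
  have hn1 : 0 < n := by
    by_contra hcon
    have : n * (2 * (d : ℤ) + 3) ≤ 0 := mul_nonpos_of_nonpos_of_nonneg (by omega) (by omega)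
    omega
  have hn2 : n < 2 := by
    by_contra hcon
    have : 2 * (2 * (d : ℤ) + 3) ≤ n * (2 * (d : ℤ) + 3) :=
      mul_le_mul_of_nonneg_right (by omega) (by omega)
    omega
  obtain rfl : n = 1 := by omega
  omega

theorem fx3_norm {d j : ℕ} (hj : j ≤ d) :
    ∑ i ∈ range (d + 1), XF3 d i j ^ 2 = (2 * (d : ℝ) + 3) / 4 := by
  have h1 : ∑ i ∈ range (d + 1), XF3 d i j ^ 2 =
      ∑ i ∈ range (d + 1), Real.sin ((2 * i + 1) * fx3_ph d j) ^ 2 := by
    refine Finset.sum_congr rfl fun i hi => ?_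
    rw [Finset.mem_range] at hi
    rw [fx3_X (by omega) hj]
  rw [h1]
  have h2 := sum_sin_sq2 (d + 1) (fx3_ph d j)
  have h3 : Real.sin (4 * ((d + 1 : ℕ) : ℝ) * fx3_ph d j) = - Real.sin (2 * fx3_ph d j) := by
    have h4 : 4 * ((d + 1 : ℕ) : ℝ) * fx3_ph d j =
        - (2 * fx3_ph d j) + ((2 * j + 1 : ℕ) : ℝ) * (2 * Real.pi) := by
      have h5 := fx3_mul d j
      push_cast
      linear_combination 2 * h5
    rw [h4, Real.sin_add_nat_mul_two_pi, Real.sin_neg]
  rw [h3] at h2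
  have h5 := fx3_sin_ne hj
  have h6 : Real.sin (2 * fx3_ph d j) *
      (4 * ∑ i ∈ range (d + 1), Real.sin ((2 * i + 1) * fx3_ph d j) ^ 2 - (2 * (d : ℝ) + 3)) = 0 := by
    push_cast at h2
    linear_combination h2
  have h7 := (mul_eq_zero.1 h6).resolve_left h5
  linarith

theorem fx3_inj (d : ℕ) : ∀ i ≤ d, ∀ j ≤ d, lamF3 d i = lamF3 d j → i = j := by
  intro i hi j hj h
  rw [fx3_lam hi, fx3_lam hj] at h
  have h1 : Real.cos (2 * fx3_ph d i) = Real.cos (2 * fx3_ph d j) := by linarith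
  obtain ⟨k, hk⟩ := Real.cos_eq_cos_iff.1 h1
  have hi1 := fx3_mul d i
  have hj1 := fx3_mul d j
  have hi' : (i : ℤ) ≤ d := by exact_mod_cast hi
  have hj' : (j : ℤ) ≤ d := by exact_mod_cast hj
  rcases hk with hk | hk
  · have h2 : ((2 * (j : ℝ) - 2 * i) * 2 - 2 * k * (2 * d + 3)) * Real.pi = 0 := by
      linear_combination (2 * (d : ℝ) + 3) * hk - 2 * hj1 + 2 * hi1
    have h3 := (mul_eq_zero.1 h2).resolve_right Real.pi_ne_zero
    have h4 : 2 * ((j : ℤ) - i) = k * (2 * d + 3) := by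
      have h5 : 2 * ((j : ℝ) - i) = k * (2 * d + 3) := by linarith
      exact_mod_cast h5
    have hk1 : k < 1 := by
      by_contra hcon
      have : 1 * (2 * (d : ℤ) + 3) ≤ k * (2 * d + 3) :=
        mul_le_mul_of_nonneg_right (by omega) (by omega)
      omega
    have hk2 : -1 < k := by
      by_contra hcon
      have : k * (2 * (d : ℤ) + 3) ≤ (-1) * (2 * d + 3) :=
        mul_le_mul_of_nonneg_right (by omega) (by omega)
      omega
    obtain rfl : k = 0 := by omega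
    omega
  · have h2 : ((2 * (j : ℝ) + 2 * i + 2) * 2 - 2 * k * (2 * d + 3)) * Real.pi = 0 := by
      linear_combination (2 * (d : ℝ) + 3) * hk - 2 * hj1 - 2 * hi1
    have h3 := (mul_eq_zero.1 h2).resolve_right Real.pi_ne_zero
    have h4 : 2 * ((j : ℤ) + i + 1) = k * (2 * d + 3) := by
      have h5 : 2 * ((j : ℝ) + i + 1) = k * (2 * d + 3) := by linarith
      exact_mod_cast h5
    have hk1 : k < 2 := by
      by_contra hcon
      have : 2 * (2 * (d : ℤ) + 3) ≤ k * (2 * d + 3) :=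
        mul_le_mul_of_nonneg_right (by omega) (by omega)
      omega
    have hk2 : 0 < k := by
      by_contra hcon
      have : k * (2 * (d : ℤ) + 3) ≤ 0 := mul_nonpos_of_nonpos_of_nonneg (by omega) (by omega)
      omega
    obtain rfl : k = 1 := by omega
    omega

theorem fx3_eig (d : ℕ) (hd : 1 ≤ d) : ∀ i ≤ d, ∀ j ≤ d,
    lamF3 d j * XF3 d i j =
      bone d i * XF3 d (i-1) j + alF3 d i * XF3 d i j + bone d (i+1) * XF3 d (i+1) j := by
  intro i hi j hj
  rw [fx3_lam hj, fx3_X hi hj]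
  set φ := fx3_ph d j with hφ
  have key : 2 * Real.cos (2 * φ) * Real.sin ((2 * i + 1) * φ) =
      Real.sin ((2 * i - 1) * φ) + Real.sin ((2 * i + 3) * φ) := by
    have e1 : (2 * (i : ℝ) - 1) * φ = (2 * i + 1) * φ - 2 * φ := by ring
    have e2 : (2 * (i : ℝ) + 3) * φ = (2 * i + 1) * φ + 2 * φ := by ring
    rw [e1, e2, Real.sin_sub, Real.sin_add]
    ring
  rcases Nat.eq_zero_or_pos i with rfl | hi0
  · have hb0 : bone d 0 = 0 := if_neg (by omega)
    have hb1 : bone d (0 + 1) = 1 := if_pos (by omega)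
    have ha : alF3 d 0 = 0 := if_neg (by omega)
    rw [hb0, hb1, ha, fx3_X (show 0 + 1 ≤ d by omega) hj, ← hφ]
    have e1 : (2 * ((0 : ℕ) : ℝ) - 1) * φ = - φ := by push_cast; ring
    have e2 : (2 * ((0 : ℕ) : ℝ) + 1) * φ = φ := by push_cast; ring
    have e3 : (2 * ((0 : ℕ) : ℝ) + 3) * φ = (2 * ((0 + 1 : ℕ) : ℝ) + 1) * φ := by push_cast; ring
    rw [e1, e2, e3, Real.sin_neg] at key
    rw [e2]
    push_cast at key ⊢
    linear_combination key
  · have hbi : bone d i = 1 := if_pos ⟨hi0, hi⟩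
    have ha : alF3 d i = 1 := if_pos ⟨hi0, hi⟩
    obtain ⟨i, rfl⟩ : ∃ i', i = i' + 1 := ⟨i - 1, by omega⟩
    have e1 : (2 * ((i + 1 : ℕ) : ℝ) - 1) * φ = (2 * (i : ℝ) + 1) * φ := by push_cast; ring
    rw [e1] at key
    rw [hbi, ha, Nat.add_sub_cancel, fx3_X (show i ≤ d by omega) hj, ← hφ]
    rcases Nat.lt_or_ge (i + 1) d with hid | hid
    · have hb1 : bone d (i + 1 + 1) = 1 := if_pos (by omega)
      rw [hb1, fx3_X (show i + 1 + 1 ≤ d by omega) hj, ← hφ]
      have e3 : (2 * ((i + 1 : ℕ) : ℝ) + 3) * φ = (2 * ((i + 1 + 1 : ℕ) : ℝ) + 1) * φ := by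
        push_cast; ring
      rw [e3] at key
      push_cast at key ⊢
      linear_combination key
    · obtain rfl : i + 1 = d := by omega
      have hb1 : bone (i + 1) (i + 1 + 1) = 0 := if_neg (by omega)
      have e3 : Real.sin ((2 * ((i + 1 : ℕ) : ℝ) + 3) * φ) = 0 := by
        rw [hφ, fx3_mul]
        have e4 : (2 * (j : ℝ) + 1) * Real.pi = ((2 * j + 1 : ℕ) : ℝ) * Real.pi := by push_cast; ring
        rw [e4]
        exact Real.sin_nat_mul_pi _
      rw [hb1]
      rw [e3] at key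
      push_cast at key ⊢
      linear_combination key

theorem FX3 (d : ℕ) (hd : 1 ≤ d) :
    XFacts d (alF3 d) (bone d) (lamF3 d) (XF3 d) ((2 * (d:ℝ) + 3) / 4) where
  symm := by
    intro i j
    by_cases h : i ≤ d ∧ j ≤ d
    · rw [XF3, XF3, if_pos h, if_pos ⟨h.2, h.1⟩]
      congr 1
      ring
    · rw [XF3, XF3, if_neg h, if_neg (fun h' => h ⟨h'.2, h'.1⟩)]
  out := by
    intro i j hi
    exact if_neg (by omega)
  pos := by
    intro j hj
    rw [fx3_X (by omega) hj]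
    have hj' : (j : ℝ) ≤ d := by exact_mod_cast hj
    have hm := fx3_mul d j
    have h0 : (0 : ℝ) ≤ d := Nat.cast_nonneg _
    have h1 : (0 : ℝ) ≤ j := Nat.cast_nonneg _
    have hpi := Real.pi_pos
    have e2 : (2 * ((0 : ℕ) : ℝ) + 1) * fx3_ph d j = fx3_ph d j := by push_cast; ring
    rw [e2]
    apply Real.sin_pos_of_pos_of_lt_pi
    · rw [fx3_ph]
      positivity
    · rw [fx3_ph, div_lt_iff₀ (by positivity)]
      nlinarith
  n0pos := by positivity
  norm := fun j hj => fx3_norm hj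
  lamout := fun j hj => if_neg (by omega)
  inj := fx3_inj d
  eig := fx3_eig d hd

theorem FX3_inj (d : ℕ) : ∀ i ≤ d, ∀ j ≤ d, XF3 d 0 i = XF3 d 0 j → i = j := by
  intro i hi j hj h
  rw [fx3_X (by omega) hi, fx3_X (by omega) hj] at h
  have e2 : ∀ l, (2 * ((0 : ℕ) : ℝ) + 1) * fx3_ph d l = fx3_ph d l := by
    intro l; push_cast; ring
  rw [e2, e2] at h
  obtain ⟨k, hk⟩ := Real.sin_eq_sin_iff.1 h
  have hi1 := fx3_mul d i
  have hj1 := fx3_mul d j
  have hi' : (i : ℤ) ≤ d := by exact_mod_cast hi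
  have hj' : (j : ℤ) ≤ d := by exact_mod_cast hj
  rcases hk with hk | hk
  · have h2 : ((2 * (j : ℝ) - 2 * i) - 2 * k * (2 * d + 3)) * Real.pi = 0 := by
      linear_combination (2 * (d : ℝ) + 3) * hk - hj1 + hi1
    have h3 := (mul_eq_zero.1 h2).resolve_right Real.pi_ne_zero
    have h4 : ((j : ℤ) - i) = k * (2 * d + 3) := by
      have h5 : ((j : ℝ) - i) = k * (2 * d + 3) := by linarith
      exact_mod_cast h5
    have hk1 : k < 1 := by
      by_contra hcon
      have : 1 * (2 * (d : ℤ) + 3) ≤ k * (2 * d + 3) :=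
        mul_le_mul_of_nonneg_right (by omega) (by omega)
      omega
    have hk2 : -1 < k := by
      by_contra hcon
      have : k * (2 * (d : ℤ) + 3) ≤ (-1) * (2 * d + 3) :=
        mul_le_mul_of_nonneg_right (by omega) (by omega)
      omega
    obtain rfl : k = 0 := by omega
    omega
  · have h2 : ((2 * (j : ℝ) + 2 * i + 2) - (2 * k + 1) * (2 * d + 3)) * Real.pi = 0 := by
      linear_combination (2 * (d : ℝ) + 3) * hk - hj1 - hi1
    have h3 := (mul_eq_zero.1 h2).resolve_right Real.pi_ne_zero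
    have h4 : (2 * ((j : ℤ) + i + 1)) = 2 * (k * (2 * d + 3)) + 2 * d + 3 := by
      have h5 : (2 * ((j : ℝ) + i + 1)) = 2 * (k * (2 * d + 3)) + 2 * d + 3 := by linarith
      exact_mod_cast h5
    omega

end LS
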