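import Pool.Agent.LS.Core
import Pool.Agent.LS.Fam
import Pool.Agent.LS.TR

/-! Part `FX4` of the classification of self-dual Leonard systems with integral normalized
intersection numbers (MP_963a96_al). -/
open Finset
namespace LS

noncomputable def fx4_phi (d j : ℕ) : ℝ := (2 * (j:ℝ) + 1) * Real.pi / (4 * (d:ℝ) + 4)

theorem fx4_X {d i j : ℕ} (hi : i ≤ d) (hj : j ≤ d) :
    XF4 d i j = Real.sin ((2 * (i:ℝ) + 1) * fx4_phi d j) := by
  unfold XF4 fx4_phi
  rw [if_pos ⟨hi, hj⟩]
  congr 1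
  ring

theorem fx4_lam {d j : ℕ} (hj : j ≤ d) : lamF4 d j = 1 + 2 * Real.cos (2 * fx4_phi d j) := by
  unfold lamF4 fx4_phi
  rw [if_pos hj]
  congr 3
  field_simp
  ring

theorem fx4_phi_pos (d j : ℕ) : 0 < fx4_phi d j := by
  unfold fx4_phi
  have := Real.pi_pos
  positivity

theorem fx4_phi_lt {d j : ℕ} (hj : j ≤ d) : 2 * fx4_phi d j < Real.pi := by
  unfold fx4_phi
  have hpi := Real.pi_pos
  have hj' : (j:ℝ) ≤ d := by exact_mod_cast hj
  have hd0 : (0:ℝ) < 4 * (d:ℝ) + 4 := by positivity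
  rw [show 2 * ((2 * (j:ℝ) + 1) * Real.pi / (4 * (d:ℝ) + 4)) =
    (2 * (2 * (j:ℝ) + 1) * Real.pi) / (4 * (d:ℝ) + 4) by ring, div_lt_iff₀ hd0]
  nlinarith

theorem fx4_mul (d j : ℕ) : (4 * (d:ℝ) + 4) * fx4_phi d j = (2 * (j:ℝ) + 1) * Real.pi := by
  unfold fx4_phi
  field_simp

theorem fx4_sin_odd (j : ℕ) (x : ℝ) :
    Real.sin ((2 * (j:ℝ) + 1) * Real.pi - x) = Real.sin x := by
  rw [show (2 * (j:ℝ) + 1) * Real.pi - x = (Real.pi - x) + (j:ℝ) * (2 * Real.pi) by ring,
    Real.sin_add_nat_mul_two_pi, Real.sin_pi_sub]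

theorem fx4_prod (A φ : ℝ) :
    2 * Real.cos (2 * φ) * Real.sin A = Real.sin (A - 2 * φ) + Real.sin (A + 2 * φ) := by
  rw [Real.sin_sub, Real.sin_add]
  ring

theorem fx4_phi_inj {d i j : ℕ} (h : fx4_phi d i = fx4_phi d j) : i = j := by
  unfold fx4_phi at h
  have hpi := Real.pi_pos
  have hd0 : (0:ℝ) < 4 * (d:ℝ) + 4 := by positivity
  rw [div_left_inj' hd0.ne'] at h
  have h1 := mul_right_cancel₀ hpi.ne' h
  have h2 : (i:ℝ) = j := by linarith
  exact_mod_cast h2

theorem FX4 (d : ℕ) (hd : 1 ≤ d) :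
    XFacts d (alF4 d) (bone d) (lamF4 d) (XF4 d) (((d:ℝ) + 1) / 2) := by
  refine ⟨?_, ?_, ?_, by positivity, ?_, ?_, ?_, ?_⟩
  · intro i j
    unfold XF4
    by_cases h : i ≤ d ∧ j ≤ d
    · rw [if_pos h, if_pos h.symm]
      congr 1
      ring
    · rw [if_neg h, if_neg (fun h' => h h'.symm)]
  · intro i j h
    unfold XF4
    rw [if_neg (by omega)]
  · intro j hj
    rw [fx4_X (Nat.zero_le d) hj]
    have h1 := fx4_phi_pos d j
    have h2 := fx4_phi_lt hj
    apply Real.sin_pos_of_pos_of_lt_pi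
    · push_cast
      linarith
    · push_cast
      linarith
  · intro j hj
    have h1 := sum_sin_sq2 (d+1) (fx4_phi d j)
    have h2 : Real.sin (4 * ((d+1 : ℕ):ℝ) * fx4_phi d j) = 0 := by
      have h3 := fx4_mul d j
      rw [show 4 * ((d+1 : ℕ):ℝ) * fx4_phi d j = (4 * (d:ℝ) + 4) * fx4_phi d j by push_cast; ring,
        h3]
      have h4 := fx4_sin_odd j 0
      rw [sub_zero, Real.sin_zero] at h4
      exact h4
    rw [h2, sub_zero] at h1
    have h5 : 0 < Real.sin (2 * fx4_phi d j) :=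
      Real.sin_pos_of_pos_of_lt_pi (by linarith [fx4_phi_pos d j]) (fx4_phi_lt hj)
    have h6 : ∑ i ∈ range (d+1), XF4 d i j ^ 2 =
        ∑ k ∈ range (d+1), Real.sin ((2 * (k:ℝ) + 1) * fx4_phi d j) ^ 2 := by
      refine Finset.sum_congr rfl fun k hk => ?_
      rw [fx4_X (by rw [Finset.mem_range] at hk; omega) hj]
    rw [h6]
    apply mul_left_cancel₀ (show (4 * Real.sin (2 * fx4_phi d j)) ≠ 0 by positivity)
    rw [h1]
    push_cast
    ring
  · intro j hj
    unfold lamF4
    rw [if_neg (by omega)]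
  · intro i hi j hj h
    rw [fx4_lam hi, fx4_lam hj] at h
    have h1 : Real.cos (2 * fx4_phi d i) = Real.cos (2 * fx4_phi d j) := by linarith
    have h2 := Real.injOn_cos
      ⟨by linarith [fx4_phi_pos d i], (fx4_phi_lt hi).le⟩
      ⟨by linarith [fx4_phi_pos d j], (fx4_phi_lt hj).le⟩ h1
    exact fx4_phi_inj (d := d) (by linarith)
  · intro i hi j hj
    rw [fx4_lam hj, fx4_X hi hj]
    have hp := fx4_prod ((2 * (i:ℝ) + 1) * fx4_phi d j) (fx4_phi d j)
    rcases Nat.eq_zero_or_pos i with h0 | h0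
    · subst h0
      have e1 : bone d 0 = 0 := by simp [bone]
      have e2 : alF4 d 0 = 0 := by
        unfold alF4
        rw [if_neg (by omega), if_neg (by omega)]
      have e3 : bone d (0+1) = 1 := by
        unfold bone
        rw [if_pos (by omega)]
      rw [e1, e2, e3, fx4_X (show 0 + 1 ≤ d by omega) hj]
      push_cast at hp ⊢
      rw [show (2 * (0:ℝ) + 1) * fx4_phi d j - 2 * fx4_phi d j = - fx4_phi d j by ring,
        show (2 * (0:ℝ) + 1) * fx4_phi d j + 2 * fx4_phi d j = (2 * 1 + 1) * fx4_phi d j by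
          ring, Real.sin_neg, show (2 * (0:ℝ) + 1) * fx4_phi d j = fx4_phi d j by ring] at hp
      rw [show (2 * (0:ℝ) + 1) * fx4_phi d j = fx4_phi d j by ring]
      linarith
    · have e1 : bone d i = 1 := by
        unfold bone
        rw [if_pos (by omega)]
      have ei : ((i - 1 : ℕ) : ℝ) = (i:ℝ) - 1 := by
        rw [Nat.cast_sub h0]
        simp
      rw [e1, fx4_X (show i - 1 ≤ d by omega) hj, ei]
      rw [show (2 * (i:ℝ) + 1) * fx4_phi d j - 2 * fx4_phi d j =
          (2 * ((i:ℝ) - 1) + 1) * fx4_phi d j by ring,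
        show (2 * (i:ℝ) + 1) * fx4_phi d j + 2 * fx4_phi d j =
          (2 * ((i:ℝ) + 1) + 1) * fx4_phi d j by ring] at hp
      rcases Nat.lt_or_ge i d with h1 | h1
      · have e2 : alF4 d i = 1 := by
          unfold alF4
          rw [if_pos ⟨h0, h1⟩]
        have e3 : bone d (i+1) = 1 := by
          unfold bone
          rw [if_pos (by omega)]
        rw [e2, e3, fx4_X (show i + 1 ≤ d by omega) hj]
        push_cast
        linarith
      · have hid : i = d := by omega
        have e2 : alF4 d i = 2 := by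
          unfold alF4
          rw [if_neg (by omega), if_pos hid]
        have e3 : bone d (i+1) = 0 := by
          unfold bone
          rw [if_neg (by omega)]
        have h7 : Real.sin ((2 * ((i:ℝ) + 1) + 1) * fx4_phi d j) =
            Real.sin ((2 * (i:ℝ) + 1) * fx4_phi d j) := by
          have h3 := fx4_mul d j
          have h4 := fx4_sin_odd j ((2 * (i:ℝ) + 1) * fx4_phi d j)
          rw [← h3] at h4
          rw [← h4]
          congr 1
          rw [hid]
          ring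
        rw [e2, e3]
        push_cast
        linarith

theorem FX4_inj (d : ℕ) : ∀ i ≤ d, ∀ j ≤ d, XF4 d 0 i = XF4 d 0 j → i = j := by
  intro i hi j hj h
  rw [fx4_X (Nat.zero_le d) hi, fx4_X (Nat.zero_le d) hj] at h
  have e : ∀ k, (2 * ((0:ℕ):ℝ) + 1) * fx4_phi d k = fx4_phi d k := by
    intro k
    push_cast
    ring
  rw [e, e] at h
  have a1 := fx4_phi_pos d i
  have a2 := fx4_phi_pos d j
  have a3 := fx4_phi_lt hi
  have a4 := fx4_phi_lt hj
  have h2 := Real.injOn_sin ⟨by linarith, by linarith⟩ ⟨by linarith, by linarith⟩ h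
  exact fx4_phi_inj h2

end LS
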