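import Pool.Agent.LS.Core
import Pool.Agent.LS.Fam

/-! Part `MK` of the classification of self-dual Leonard systems with integral normalized
intersection numbers (MP_963a96_al). -/
open Finset
namespace LS

variable {d : ℕ} {α b : ℕ → ℤ} {lam : ℕ → ℝ} {N : ℕ → ℕ → ℕ → ℤ}

theorem mk_orth0 {X : ℕ → ℕ → ℝ} {n0 : ℝ} (hB : Base d α b) (hX : XFacts d α b lam X n0)
    {j k : ℕ} (hj : j ≤ d) (hk : k ≤ d) (hjk : j ≠ k) :
    ∑ i ∈ range (d+1), X i j * X i k = 0 := by
  have hb0 : (b 0 : ℝ) = 0 := by rw [hB.b0]; simp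
  have hbd : (b (d+1) : ℝ) = 0 := by rw [hB.bout (d+1) (by omega)]; simp
  have h1 : (lam j - lam k) * ∑ i ∈ range (d+1), X i j * X i k = 0 := by
    have h2 : (lam j - lam k) * ∑ i ∈ range (d+1), X i j * X i k =
        ∑ i ∈ range (d+1), ((b i : ℝ) * (X (i-1) j * X i k - X i j * X (i-1) k) -
          (b (i+1) : ℝ) * (X (i+1-1) j * X (i+1) k - X (i+1) j * X (i+1-1) k)) := by
      rw [Finset.mul_sum]
      refine Finset.sum_congr rfl fun i hi => ?_
      have hi' : i ≤ d := by
        have := Finset.mem_range.mp hi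
        omega
      have e1 := hX.eig i hi' j hj
      have e2 := hX.eig i hi' k hk
      rw [Nat.add_sub_cancel]
      linear_combination X i k * e1 - X i j * e2
    rw [h2, Finset.sum_range_sub' (fun i => (b i : ℝ) * (X (i-1) j * X i k - X i j * X (i-1) k))]
    simp only [hb0, hbd, zero_mul, sub_zero]
  rcases mul_eq_zero.mp h1 with h | h
  · exact absurd (hX.inj j hj k hk (sub_eq_zero.mp h)) hjk
  · exact h

theorem mk_gram {X : ℕ → ℕ → ℝ} {n0 : ℝ} (hB : Base d α b) (hX : XFacts d α b lam X n0)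
    {i j : ℕ} (hi : i ≤ d) (hj : j ≤ d) :
    ∑ l ∈ range (d+1), X i l * X j l = if i = j then n0 else 0 := by
  have h : ∑ l ∈ range (d+1), X i l * X j l = ∑ l ∈ range (d+1), X l i * X l j :=
    Finset.sum_congr rfl fun l _ => by rw [hX.symm i l, hX.symm j l]
  rw [h]
  split_ifs with hij
  · subst hij
    rw [← hX.norm i hi]
    exact Finset.sum_congr rfl fun l _ => by ring
  · exact mk_orth0 hB hX hi hj hij

theorem mk_weak {X : ℕ → ℕ → ℝ} {n0 : ℝ} (hB : Base d α b) (hX : XFacts d α b lam X n0) :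
    Weak d α b lam (fun i j => X i j / Real.sqrt n0) := by
  have hs : 0 < Real.sqrt n0 := Real.sqrt_pos.mpr hX.n0pos
  have hs2 : Real.sqrt n0 * Real.sqrt n0 = n0 := Real.mul_self_sqrt hX.n0pos.le
  refine ⟨?_, ?_, ?_, ?_, ?_⟩
  · intro i j
    show X i j / Real.sqrt n0 = X j i / Real.sqrt n0
    rw [hX.symm i j]
  · intro i j hi
    show X i j / Real.sqrt n0 = 0
    rw [hX.out i j hi, zero_div]
  · intro i hi j hj
    show ∑ l ∈ range (d+1), X i l / Real.sqrt n0 * (X j l / Real.sqrt n0) = _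
    have h1 : ∑ l ∈ range (d+1), X i l / Real.sqrt n0 * (X j l / Real.sqrt n0) =
        (∑ l ∈ range (d+1), X i l * X j l) / n0 := by
      rw [Finset.sum_div]
      refine Finset.sum_congr rfl fun l _ => ?_
      rw [div_mul_div_comm, hs2]
    rw [h1, mk_gram hB hX hi hj]
    split_ifs
    · exact div_self hX.n0pos.ne'
    · exact zero_div _
  · intro j hj
    exact (div_pos (hX.pos j hj) hs).ne'
  · intro i hi j hj
    show lam j * (X i j / Real.sqrt n0) = b i * (X (i-1) j / Real.sqrt n0) +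
      α i * (X i j / Real.sqrt n0) + b (i+1) * (X (i+1) j / Real.sqrt n0)
    rw [← mul_div_assoc, hX.eig i hi j hj]
    ring

theorem mk_M_recu {S : ℕ → ℕ → ℝ} (hW : Weak d α b lam S) {k i : ℕ} (hk : k ≤ d) (hi : i ≤ d)
    (j : ℕ) :
    (b k : ℝ) * ∑ l ∈ range (d+1), S (k-1) l * S i l * S j l / S 0 l +
      α k * ∑ l ∈ range (d+1), S k l * S i l * S j l / S 0 l +
      b (k+1) * ∑ l ∈ range (d+1), S (k+1) l * S i l * S j l / S 0 l =
    (b i : ℝ) * ∑ l ∈ range (d+1), S k l * S (i-1) l * S j l / S 0 l +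
      α i * ∑ l ∈ range (d+1), S k l * S i l * S j l / S 0 l +
      b (i+1) * ∑ l ∈ range (d+1), S k l * S (i+1) l * S j l / S 0 l := by
  simp only [Finset.mul_sum, ← Finset.sum_add_distrib]
  refine Finset.sum_congr rfl fun l hl => ?_
  have hl' : l ≤ d := by
    have := Finset.mem_range.mp hl
    omega
  have e1 := hW.eig k hk l hl'
  have e2 := hW.eig i hi l hl'
  have e3 : (b k : ℝ) * S (k-1) l + α k * S k l + b (k+1) * S (k+1) l = lam l * S k l := e1.symm
  have e4 : (b i : ℝ) * S (i-1) l + α i * S i l + b (i+1) * S (i+1) l = lam l * S i l := e2.symm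
  linear_combination (S i l * S j l / S 0 l) * e3 - (S k l * S j l / S 0 l) * e4

theorem mk_M_zero {S : ℕ → ℕ → ℝ} (hW : Weak d α b lam S) {i j : ℕ} (hi : i ≤ d) (hj : j ≤ d) :
    ∑ l ∈ range (d+1), S 0 l * S i l * S j l / S 0 l = if i = j then 1 else 0 := by
  rw [← hW.orth i hi j hj]
  refine Finset.sum_congr rfl fun l hl => ?_
  have hl' : l ≤ d := by
    have := Finset.mem_range.mp hl
    omega
  have h0 := hW.ne l hl'
  field_simp

theorem mk_N_eq {S : ℕ → ℕ → ℝ} (hB : Base d α b) (hW : Weak d α b lam S)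
    (hN : NFacts d α b N) (k : ℕ) : ∀ k' ≤ k, k' ≤ d → ∀ i ≤ d, ∀ j ≤ d,
    (N k' i j : ℝ) = ∑ l ∈ range (d+1), S k' l * S i l * S j l / S 0 l := by
  induction k with
  | zero =>
    intro k' hk' _ i hi j hj
    have : k' = 0 := by omega
    subst this
    rw [mk_M_zero hW hi hj, hN.zero i hi j hj]
    split_ifs <;> simp
  | succ k ih =>
    intro k' hk' hk'd i hi j hj
    by_cases hlt : k' ≤ k
    · exact ih k' hlt hk'd i hi j hj
    · have hk : k' = k + 1 := by omega
      subst hk
      have hkd : k < d := by omega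
      have hb1 : (1 : ℝ) ≤ (b (k+1) : ℝ) := by
        exact_mod_cast hB.bpos (k+1) (by omega) hk'd
      have hbd : (b (d+1) : ℝ) = 0 := by rw [hB.bout (d+1) (by omega)]; simp
      have r1 : (b k : ℝ) * N (k-1) i j + α k * N k i j + b (k+1) * N (k+1) i j
          = b i * N k (i-1) j + α i * N k i j + b (i+1) * N k (i+1) j := by
        exact_mod_cast hN.recu k hkd i hi j hj
      have r2 := mk_M_recu hW hkd.le hi j
      have h1 := ih (k-1) (by omega) (by omega) i hi j hj
      have h2 := ih k le_rfl hkd.le i hi j hj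
      have h3 := ih k le_rfl hkd.le (i-1) (by omega) j hj
      have h4 : (b (i+1) : ℝ) * N k (i+1) j =
          b (i+1) * ∑ l ∈ range (d+1), S k l * S (i+1) l * S j l / S 0 l := by
        rcases Nat.lt_or_ge i d with hid | hid
        · rw [ih k le_rfl hkd.le (i+1) (by omega) j hj]
        · have : i = d := by omega
          subst this
          rw [hbd, zero_mul, zero_mul]
      rw [← h1, ← h2, ← h3, ← h4] at r2
      have h5 : (b (k+1) : ℝ) * ((N (k+1) i j : ℝ) -
          ∑ l ∈ range (d+1), S (k+1) l * S i l * S j l / S 0 l) = 0 := by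
        linear_combination r1 - r2
      rcases mul_eq_zero.mp h5 with h | h
      · rw [h] at hb1
        exact absurd hb1 (by norm_num)
      · exact sub_eq_zero.mp h

theorem mk_Str {X : ℕ → ℕ → ℝ} {n0 : ℝ} (hB : Base d α b) (hX : XFacts d α b lam X n0)
    (hN : NFacts d α b N) : Str d α b lam (fun i j => X i j / Real.sqrt n0) N := by
  have hW := mk_weak hB hX
  refine ⟨hB, hW, ?_, hX.lamout, hN.nn, hN.out, ?_⟩
  · intro j hj
    exact div_pos (hX.pos j hj) (Real.sqrt_pos.mpr hX.n0pos)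
  · intro i hi j hj h hh
    exact mk_N_eq hB hW hN i i le_rfl hi j hj h hh

end LS
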