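import Pool.Agent.LS.Core
import Pool.Agent.LS.W0
import Pool.Agent.LS.W1

/-! Part `O1` of the classification of self-dual Leonard systems with integral normalized
intersection numbers (MP_963a96_al). -/
open Finset
namespace LS

variable {d : ℕ} {α b : ℕ → ℤ} {lam lam' : ℕ → ℝ} {S S' : ℕ → ℕ → ℝ} {N N' : ℕ → ℕ → ℕ → ℤ}

lemma o1_shift (hB : Base d α b) (f g : ℕ → ℝ) :
    ∑ i ∈ range (d+1), (b i : ℝ) * f (i-1) * g i = ∑ i ∈ range (d+1), (b (i+1) : ℝ) * f i * g (i+1) := by
  rw [sum_range_succ', sum_range_succ _ d, hB.b0, hB.bout (d+1) (by omega)]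
  simp

lemma o1_orth (h : Str d α b lam S N) (h' : Str d α b lam' S' N') {j m : ℕ} (hj : j ≤ d)
    (hm : m ≤ d) (hne : ∑ i ∈ range (d+1), S i j * S' i m ≠ 0) : lam j = lam' m := by
  have e1 : ∑ i ∈ range (d+1), (lam j * S i j) * S' i m =
      ∑ i ∈ range (d+1), ((b i : ℝ) * S (i-1) j * S' i m + α i * S i j * S' i m +
        b (i+1) * S (i+1) j * S' i m) := by
    refine sum_congr rfl fun i hi => ?_
    rw [h.weak.eig i (by rw [mem_range] at hi; omega) j hj]
    ring
  have e2 : ∑ i ∈ range (d+1), S i j * (lam' m * S' i m) =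
      ∑ i ∈ range (d+1), ((b i : ℝ) * S' (i-1) m * S i j + α i * S i j * S' i m +
        b (i+1) * S' (i+1) m * S i j) := by
    refine sum_congr rfl fun i hi => ?_
    rw [h'.weak.eig i (by rw [mem_range] at hi; omega) m hm]
    ring
  rw [sum_add_distrib, sum_add_distrib] at e1 e2
  have s1 := o1_shift h.base (fun i => S i j) (fun i => S' i m)
  have s2 := o1_shift h.base (fun i => S' i m) (fun i => S i j)
  have t1 : ∑ i ∈ range (d+1), (b (i+1) : ℝ) * S (i+1) j * S' i m =
      ∑ i ∈ range (d+1), (b (i+1) : ℝ) * S' i m * S (i+1) j :=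
    sum_congr rfl fun i _ => by ring
  have t2 : ∑ i ∈ range (d+1), (b (i+1) : ℝ) * S' (i+1) m * S i j =
      ∑ i ∈ range (d+1), (b (i+1) : ℝ) * S i j * S' (i+1) m :=
    sum_congr rfl fun i _ => by ring
  have e3 : lam j * ∑ i ∈ range (d+1), S i j * S' i m = lam' m * ∑ i ∈ range (d+1), S i j * S' i m := by
    rw [mul_sum, mul_sum]
    have l1 : ∑ i ∈ range (d+1), lam j * (S i j * S' i m) =
        ∑ i ∈ range (d+1), (lam j * S i j) * S' i m := sum_congr rfl fun i _ => by ring
    have l2 : ∑ i ∈ range (d+1), lam' m * (S i j * S' i m) =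
        ∑ i ∈ range (d+1), S i j * (lam' m * S' i m) := sum_congr rfl fun i _ => by ring
    rw [l1, l2, e1, e2, s1, s2, t1, t2]
    ring
  exact mul_right_cancel₀ hne e3

lemma o1_cols (h : Str d α b lam S N) (h' : Str d α b lam' S' N') {j m : ℕ} (hj : j ≤ d)
    (hm : m ≤ d) (hl : lam j = lam' m) : ∀ i ≤ d, S i j = S' i m := by
  have key : ∀ i, i ≤ d → S i j * S' 0 m = S' i m * S 0 j := by
    intro i
    induction i using Nat.strong_induction_on with
    | _ i ih =>
      intro hi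
      rcases Nat.eq_zero_or_pos i with rfl | hpos
      · ring
      obtain ⟨k, rfl⟩ : ∃ k, i = k + 1 := ⟨i - 1, by omega⟩
      have e1 := h.weak.eig k (by omega) j hj
      have e2 := h'.weak.eig k (by omega) m hm
      have i1 := ih k (by omega) (by omega)
      have i2 := ih (k-1) (by omega) (by omega)
      have hb : (b (k+1) : ℝ) ≠ 0 := by
        have := h.base.bpos (k+1) (by omega) hi
        have h2 : (1:ℝ) ≤ b (k+1) := by exact_mod_cast this
        linarith
      apply mul_left_cancel₀ hb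
      rw [← hl] at e2
      linear_combination (lam j - α k) * i1 - b k * i2 - S' 0 m * e1 + S 0 j * e2
  have n1 : ∑ i ∈ range (d+1), S i j * S i j = 1 := by
    have := h.weak.orth j hj j hj
    rw [if_pos rfl] at this
    rw [← this]
    exact sum_congr rfl fun i _ => by rw [h.weak.symm i j]
  have n2 : ∑ i ∈ range (d+1), S' i m * S' i m = 1 := by
    have := h'.weak.orth m hm m hm
    rw [if_pos rfl] at this
    rw [← this]
    exact sum_congr rfl fun i _ => by rw [h'.weak.symm i m]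
  have e : S' 0 m ^ 2 = S 0 j ^ 2 := by
    have a1 : S' 0 m ^ 2 * ∑ i ∈ range (d+1), S i j * S i j =
        S 0 j ^ 2 * ∑ i ∈ range (d+1), S' i m * S' i m := by
      rw [mul_sum, mul_sum]
      refine sum_congr rfl fun i hi => ?_
      have := key i (by rw [mem_range] at hi; omega)
      linear_combination (S i j * S' 0 m + S' i m * S 0 j) * this
    rw [n1, n2] at a1
    linarith
  have e0 : S' 0 m = S 0 j :=
    (pow_left_inj₀ (h'.pos m hm).le (h.pos j hj).le (by norm_num)).1 e
  intro i hi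
  have := key i hi
  rw [e0] at this
  exact mul_right_cancel₀ (h.pos j hj).ne' this

lemma o1_max (h : Str d α b lam S N) {m : ℕ} (hm : m ≤ d) : lam m ≤ lam 0 := by
  have h1 := PF2 h 1 h.base.one_le m hm
  rw [← lam_eq h m hm, ← lam_eq h 0 (Nat.zero_le d)] at h1
  exact (le_abs_self _).trans h1

theorem ord_perm (h : Str d α b lam S N) (h' : Str d α b lam' S' N') :
    ∃ π : ℕ → ℕ, π 0 = 0 ∧ (∀ j ≤ d, π j ≤ d) ∧ (∀ i ≤ d, ∀ j ≤ d, π i = π j → i = j) ∧
      (∀ j ≤ d, lam j = lam' (π j)) ∧ (∀ i ≤ d, ∀ j ≤ d, S i j = S' i (π j)) ∧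
      (∀ i ≤ d, ∀ j ≤ d, S' i (π j) = S' j (π i)) ∧ (∀ j ≤ d, S' 0 (π j) = S' 0 j) := by
  have hex : ∀ j, ∃ m, j ≤ d → (m ≤ d ∧ lam j = lam' m) := by
    intro j
    by_cases hj : j ≤ d
    · by_contra hcon
      push Not at hcon
      have hz : ∀ m ≤ d, ∑ i ∈ range (d+1), S i j * S' i m = 0 := by
        intro m hm
        by_contra hne
        exact (hcon m).2 hm (o1_orth h h' hj hm hne)
      exact h.weak.ne j hj (weak_comp h'.weak (fun i => S i j) hz 0 (Nat.zero_le d))
    · exact ⟨0, fun hh => absurd hh hj⟩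
  choose π hπ using hex
  have hle : ∀ j ≤ d, π j ≤ d := fun j hj => (hπ j hj).1
  have hlam : ∀ j ≤ d, lam j = lam' (π j) := fun j hj => (hπ j hj).2
  have hS : ∀ i ≤ d, ∀ j ≤ d, S i j = S' i (π j) := fun i hi j hj =>
    o1_cols h h' hj (hle j hj) (hlam j hj) i hi
  have hinj : ∀ i ≤ d, ∀ j ≤ d, π i = π j → i = j := by
    intro i hi j hj hij
    refine weak_inj h.base h.weak i hi j hj ?_
    rw [hlam i hi, hlam j hj, hij]
  have hsurj : ∃ k ≤ d, π k = 0 := by
    have h1 : (range (d+1)).image π = range (d+1) := by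
      apply eq_of_subset_of_card_le
      · intro x hx
        rw [mem_image] at hx
        obtain ⟨y, hy, rfl⟩ := hx
        rw [mem_range] at hy ⊢
        have := hle y (by omega)
        omega
      · rw [card_image_of_injOn]
        intro x hx y hy hxy
        simp only [coe_range, Set.mem_Iio] at hx hy
        exact hinj x (by omega) y (by omega) hxy
    have h2 : 0 ∈ (range (d+1)).image π := by
      rw [h1, mem_range]
      omega
    rw [mem_image] at h2
    obtain ⟨k, hk, hk2⟩ := h2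
    rw [mem_range] at hk
    exact ⟨k, by omega, hk2⟩
  have h0 : π 0 = 0 := by
    obtain ⟨k, hk, hk0⟩ := hsurj
    refine weak_inj h'.base h'.weak _ (hle 0 (Nat.zero_le d)) 0 (Nat.zero_le d) ?_
    have a1 := o1_max h hk
    have a2 := o1_max h' (hle 0 (Nat.zero_le d))
    have a3 := hlam k hk
    have a4 := hlam 0 (Nat.zero_le d)
    rw [hk0] at a3
    linarith
  refine ⟨π, h0, hle, hinj, hlam, hS, ?_, ?_⟩
  · intro i hi j hj
    rw [← hS i hi j hj, ← hS j hj i hi, h.weak.symm]
  · intro j hj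
    rw [← hS 0 (Nat.zero_le d) j hj, h.weak.symm 0 j, hS j hj 0 (Nat.zero_le d), h0,
      h'.weak.symm]

theorem ord_rigid (h : Str d α b lam S N) (h' : Str d α b lam' S' N')
    (hinj : ∀ i, 1 ≤ i → i ≤ d → ∀ j, 1 ≤ j → j ≤ d → S' 0 i = S' 0 j → i = j) :
    ∀ j ≤ d, lam j = lam' j := by
  obtain ⟨π, h0, hle, hin, hlam, hS, hsy, hz⟩ := ord_perm h h'
  intro j hj
  rcases Nat.eq_zero_or_pos j with rfl | hpos
  · rw [hlam 0 hj, h0]
  have h1 : 1 ≤ π j := by
    rcases Nat.eq_zero_or_pos (π j) with h2 | h2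
    · exfalso
      have := hin j hj 0 (Nat.zero_le d) (by rw [h2, h0])
      omega
    · exact h2
  have h2 := hinj (π j) h1 (hle j hj) j hpos hj (hz j hj)
  rw [hlam j hj, h2]

theorem ord3 (h : Str 3 α b lam S N) (h' : Str 3 α b lam' S' N') (h1 : S' 0 3 ≠ S' 0 1)
    (h2 : S' 0 3 ≠ S' 0 2) (h3 : S' 1 1 ≠ S' 2 2) : ∀ j ≤ 3, lam j = lam' j := by
  obtain ⟨π, h0, hle, hin, hlam, hS, hsy, hz⟩ := ord_perm h h'
  have p1 := hle 1 (by norm_num)
  have p2 := hle 2 (by norm_num)
  have p3 := hle 3 (by norm_num)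
  have n1 : π 1 ≠ 0 := fun hh => by
    have := hin 1 (by norm_num) 0 (by norm_num) (by rw [hh, h0]); omega
  have n2 : π 2 ≠ 0 := fun hh => by
    have := hin 2 (by norm_num) 0 (by norm_num) (by rw [hh, h0]); omega
  have n3 : π 3 ≠ 0 := fun hh => by
    have := hin 3 (by norm_num) 0 (by norm_num) (by rw [hh, h0]); omega
  have m12 : π 1 ≠ π 2 := fun hh => by
    have := hin 1 (by norm_num) 2 (by norm_num) hh; omega
  have m13 : π 1 ≠ π 3 := fun hh => by
    have := hin 1 (by norm_num) 3 (by norm_num) hh; omega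
  have m23 : π 2 ≠ π 3 := fun hh => by
    have := hin 2 (by norm_num) 3 (by norm_num) hh; omega
  have z3 := hz 3 (by norm_num)
  have e3 : π 3 = 3 := by
    have h31 : π 3 ≠ 1 := fun hh => by
      rw [hh] at z3
      exact h1 z3.symm
    have h32 : π 3 ≠ 2 := fun hh => by
      rw [hh] at z3
      exact h2 z3.symm
    omega
  have e1 : π 1 = 1 := by
    by_contra hne
    have e1 : π 1 = 2 := by omega
    have e2 : π 2 = 1 := by omega
    have := hsy 1 (by norm_num) 2 (by norm_num)
    rw [e1, e2] at this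
    exact h3 this
  have e2 : π 2 = 2 := by omega
  intro j hj
  interval_cases j
  · rw [hlam 0 (by norm_num), h0]
  · rw [hlam 1 (by norm_num), e1]
  · rw [hlam 2 (by norm_num), e2]
  · rw [hlam 3 (by norm_num), e3]

end LS
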