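import Pool.Agent.LS.Core
import Pool.Agent.LS.Fam
import Pool.Agent.LS.MK
import Pool.Agent.LS.FN1
import Pool.Agent.LS.FN2
import Pool.Agent.LS.FN3
import Pool.Agent.LS.FN4
import Pool.Agent.LS.FX1
import Pool.Agent.LS.FX2
import Pool.Agent.LS.FX3
import Pool.Agent.LS.FX4
import Pool.Agent.LS.O1

/-! Part `FS` of the classification of self-dual Leonard systems with integral normalized
intersection numbers (MP_963a96_al). -/
open Finset
namespace LS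

variable {d : ℕ} {α b : ℕ → ℤ} {lam : ℕ → ℝ} {S : ℕ → ℕ → ℝ} {N : ℕ → ℕ → ℕ → ℤ}

theorem fs_bone (hB : Base d α b) (hb : ∀ i, 1 ≤ i → i ≤ d → b i = 1) : b = bone d := by
  funext i
  unfold bone
  by_cases h : 1 ≤ i ∧ i ≤ d
  · rw [if_pos h, hb i h.1 h.2]
  · rw [if_neg h]
    rcases Nat.eq_zero_or_pos i with h0 | h0
    · rw [h0, hB.b0]
    · exact hB.bout i (by omega)

theorem fs_div {X : ℕ → ℕ → ℝ} {n0 : ℝ} (hn : 0 < n0) {i j : ℕ}
    (h : X 0 i / Real.sqrt n0 = X 0 j / Real.sqrt n0) : X 0 i = X 0 j := by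
  have h1 : Real.sqrt n0 ≠ 0 := (Real.sqrt_pos.mpr hn).ne'
  exact (div_left_inj' h1).mp h

theorem FS1 (d : ℕ) (hd : 1 ≤ d) : ∃ S, Str d alF1 (bone d) (lamF1 d) S (NF1 d) :=
  ⟨_, mk_Str (FN1 d hd).1 (FX1 d hd) (FN1 d hd).2⟩

theorem FS1' (d : ℕ) (hd : 1 ≤ d) (he : Even d) :
    ∃ S, Str d alF1 (bone d) (lamF1' d) S (NF1 d) :=
  ⟨_, mk_Str (FN1 d hd).1 (FX1' d hd he) (FN1 d hd).2⟩

theorem FS2 (d : ℕ) (hd : 1 ≤ d) : ∃ S, Str d (alF2 d) (bone d) (lamF2 d) S (NF2 d) :=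
  ⟨_, mk_Str (FN2 d hd).1 (FX2 d hd) (FN2 d hd).2⟩

theorem FS3 (d : ℕ) (hd : 1 ≤ d) : ∃ S, Str d (alF3 d) (bone d) (lamF3 d) S (NF3 d) :=
  ⟨_, mk_Str (FN3 d hd).1 (FX3 d hd) (FN3 d hd).2⟩

theorem FS4 (d : ℕ) (hd : 1 ≤ d) : ∃ S, Str d (alF4 d) (bone d) (lamF4 d) S (NF4 d) :=
  ⟨_, mk_Str (FN4 d hd).1 (FX4 d hd) (FN4 d hd).2⟩

theorem FS2_ord (h : Str d α b lam S N) (h0 : ∀ i < d, α i = 0) (hd : α d = 1)
    (hb : ∀ i, 1 ≤ i → i ≤ d → b i = 1) :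
    ∀ j ≤ d, lam j = (-1) ^ j * (2 * Real.cos ((j + 1) * Real.pi / (2 * d + 3))) := by
  have hB := h.base
  have h1 := hB.one_le
  have eb : b = bone d := fs_bone hB hb
  have ea : α = alF2 d := by
    funext i
    unfold alF2
    rcases lt_trichotomy i d with hi | hi | hi
    · rw [if_neg (by omega), h0 i hi]
    · rw [if_pos hi, hi, hd]
    · rw [if_neg (by omega), hB.αout i hi]
  subst eb
  subst ea
  have h' := mk_Str (FN2 d h1).1 (FX2 d h1) (FN2 d h1).2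
  have h2 := ord_rigid h h' (fun i _ hi j _ hj he =>
    FX2_inj d i hi j hj (fs_div (FX2 d h1).n0pos he))
  intro j hj
  rw [h2 j hj]
  unfold lamF2
  rw [if_pos hj]

theorem FS3_ord (h : Str d α b lam S N) (h1 : ∀ i, 1 ≤ i → i ≤ d → α i = 1)
    (hb : ∀ i, 1 ≤ i → i ≤ d → b i = 1) :
    ∀ j ≤ d, lam j = 1 + 2 * Real.cos ((4 * j + 2) * Real.pi / (2 * d + 3)) := by
  have hB := h.base
  have hd := hB.one_le
  have eb : b = bone d := fs_bone hB hb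
  have ea : α = alF3 d := by
    funext i
    unfold alF3
    by_cases hi : 1 ≤ i ∧ i ≤ d
    · rw [if_pos hi, h1 i hi.1 hi.2]
    · rw [if_neg hi]
      rcases Nat.eq_zero_or_pos i with h0 | h0
      · rw [h0, hB.α0]
      · exact hB.αout i (by omega)
  subst eb
  subst ea
  have h' := mk_Str (FN3 d hd).1 (FX3 d hd) (FN3 d hd).2
  have h2 := ord_rigid h h' (fun i _ hi j _ hj he =>
    FX3_inj d i hi j hj (fs_div (FX3 d hd).n0pos he))
  intro j hj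
  rw [h2 j hj]
  unfold lamF3
  rw [if_pos hj]

theorem FS4_ord (h : Str d α b lam S N) (h1 : ∀ i, 1 ≤ i → i < d → α i = 1) (hd : α d = 2)
    (hb : ∀ i, 1 ≤ i → i ≤ d → b i = 1) :
    ∀ j ≤ d, lam j = 1 + 2 * Real.cos ((2 * j + 1) * Real.pi / (2 * d + 2)) := by
  have hB := h.base
  have hd1 := hB.one_le
  have eb : b = bone d := fs_bone hB hb
  have ea : α = alF4 d := by
    funext i
    unfold alF4
    by_cases hi : 1 ≤ i ∧ i < d
    · rw [if_pos hi, h1 i hi.1 hi.2]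
    · rw [if_neg hi]
      by_cases hi2 : i = d
      · rw [if_pos hi2, hi2, hd]
      · rw [if_neg hi2]
        rcases Nat.eq_zero_or_pos i with h0 | h0
        · rw [h0, hB.α0]
        · exact hB.αout i (by omega)
  subst eb
  subst ea
  have h' := mk_Str (FN4 d hd1).1 (FX4 d hd1) (FN4 d hd1).2
  have h2 := ord_rigid h h' (fun i _ hi j _ hj he =>
    FX4_inj d i hi j hj (fs_div (FX4 d hd1).n0pos he))
  intro j hj
  rw [h2 j hj]
  unfold lamF4
  rw [if_pos hj]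

end LS
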