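import Pool.Agent.LS.Core
import Pool.Agent.LS.Fam
import Pool.Agent.LS.MK

/-! Part `G1` of the classification of self-dual Leonard systems with integral normalized
intersection numbers (MP_963a96_al). -/
open Finset
namespace LS

def g1_M {R : Type} [Zero R] (x00 x01 x02 x11 x12 x22 : R) (i j : ℕ) : R :=
  if i = 0 ∧ j = 0 then x00 else if (i = 0 ∧ j = 1) ∨ (i = 1 ∧ j = 0) then x01 else
  if (i = 0 ∧ j = 2) ∨ (i = 2 ∧ j = 0) then x02 else if i = 1 ∧ j = 1 then x11 else
  if (i = 1 ∧ j = 2) ∨ (i = 2 ∧ j = 1) then x12 else if i = 2 ∧ j = 2 then x22 else 0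

theorem g1_M_symm {R : Type} [Zero R] (x00 x01 x02 x11 x12 x22 : R) (i j : ℕ) :
    g1_M x00 x01 x02 x11 x12 x22 i j = g1_M x00 x01 x02 x11 x12 x22 j i := by
  unfold g1_M
  split_ifs <;> first | rfl | omega

theorem g1_M_out {R : Type} [Zero R] (x00 x01 x02 x11 x12 x22 : R) (i j : ℕ)
    (h : 2 < i ∨ 2 < j) : g1_M x00 x01 x02 x11 x12 x22 i j = 0 := by
  unfold g1_M
  split_ifs <;> first | rfl | omega

theorem g1_M_out1 {R : Type} [Zero R] (x00 x01 x11 : R) (i j : ℕ)
    (h : 1 < i ∨ 1 < j) : g1_M x00 x01 0 x11 0 0 i j = 0 := by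
  unfold g1_M
  split_ifs <;> first | rfl | omega

def g1_v {R : Type} [Zero R] (x0 x1 x2 : R) (i : ℕ) : R :=
  if i = 0 then x0 else if i = 1 then x1 else if i = 2 then x2 else 0

theorem g1_v_out {R : Type} [Zero R] (x0 x1 x2 : R) (i : ℕ) (h : 2 < i) :
    g1_v x0 x1 x2 i = 0 := by
  unfold g1_v
  split_ifs <;> first | rfl | omega

theorem g1_v_out1 {R : Type} [Zero R] (x0 x1 : R) (i : ℕ) (h : 1 < i) :
    g1_v x0 x1 0 i = 0 := by
  unfold g1_v
  split_ifs <;> first | rfl | omega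

theorem g1_N_out (A B C : ℕ → ℕ → ℤ) (hA : ∀ i j, 2 < i ∨ 2 < j → A i j = 0)
    (hB : ∀ i j, 2 < i ∨ 2 < j → B i j = 0) (hC : ∀ i j, 2 < i ∨ 2 < j → C i j = 0)
    (k i j : ℕ) (h : 2 < k ∨ 2 < i ∨ 2 < j) :
    (if k = 0 then A i j else if k = 1 then B i j else if k = 2 then C i j else 0) = 0 := by
  split_ifs with h0 h1 h2
  · exact hA i j (by omega)
  · exact hB i j (by omega)
  · exact hC i j (by omega)
  · rfl

theorem G1S (m : ℕ) : ∃ (α b : ℕ → ℤ) (lam : ℕ → ℝ) (S : ℕ → ℕ → ℝ) (N : ℕ → ℕ → ℕ → ℤ),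
    Str 1 α b lam S N ∧ α 1 = m ∧ lam 0 = (m + Real.sqrt (m ^ 2 + 4)) / 2 ∧
    lam 1 = (m - Real.sqrt (m ^ 2 + 4)) / 2 := by
  set s : ℝ := Real.sqrt ((m : ℝ) ^ 2 + 4) with hs
  have hs2 : s ^ 2 = (m : ℝ) ^ 2 + 4 := Real.sq_sqrt (by positivity)
  have hspos : 0 < s := Real.sqrt_pos.2 (by positivity)
  have hm0 : (0 : ℝ) ≤ m := Nat.cast_nonneg m
  set l : ℝ := (m + s) / 2 with hl
  have hlpos : 0 < l := by rw [hl]; positivity
  have hl2 : l ^ 2 = m * l + 1 := by
    rw [hl]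
    linear_combination (1 / 4) * hs2
  have hls : s = 2 * l - m := by rw [hl]; ring
  have hB : Base 1 (g1_v 0 (m : ℤ) 0) (g1_v 0 1 0) := by
    refine ⟨le_rfl, rfl, ?_, ?_, rfl, rfl, ?_, ?_⟩
    · intro i
      unfold g1_v
      split_ifs <;> positivity
    · intro i hi
      exact g1_v_out1 _ _ i hi
    · intro i h1 h2
      have : i = 1 := by omega
      subst this
      exact le_rfl
    · intro i hi
      exact g1_v_out1 _ _ i hi
  have hX : XFacts 1 (g1_v 0 (m : ℤ) 0) (g1_v 0 1 0) (g1_v l (m - l) 0)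
      (g1_M 1 l 0 (-1) 0 0) (1 + l ^ 2) := by
    refine ⟨fun i j => g1_M_symm _ _ _ _ _ _ i j, fun i j hi => g1_M_out1 _ _ _ i j (Or.inl hi),
      ?_, by positivity, ?_, fun j hj => g1_v_out1 _ _ j hj, ?_, ?_⟩
    · intro j hj
      interval_cases j <;> simp [g1_M, hlpos]
    · intro j hj
      interval_cases j <;> simp [g1_M, Finset.sum_range_succ] <;> ring
    · intro i hi j hj h
      interval_cases i <;> interval_cases j <;> simp [g1_v] at h ⊢ <;> nlinarith
    · intro i hi j hj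
      interval_cases i <;> interval_cases j <;> simp [g1_M, g1_v] <;> nlinarith
  have hN : NFacts 1 (g1_v 0 (m : ℤ) 0) (g1_v 0 1 0) (fun k i j =>
      if k = 0 then g1_M 1 0 0 1 0 0 i j else if k = 1 then g1_M 0 1 0 (m : ℤ) 0 0 i j else 0) := by
    refine ⟨?_, ?_, ?_, ?_⟩
    · intro i j h
      simp only [g1_M]
      split_ifs <;> positivity
    · intro k i j h
      split_ifs with h0 h1
      · exact g1_M_out1 _ _ _ i j (by omega)
      · exact g1_M_out1 _ _ _ i j (by omega)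
      · rfl
    · intro i hi j hj
      interval_cases i <;> interval_cases j <;> simp [g1_M]
    · intro k hk i hi j hj
      interval_cases k <;> interval_cases i <;> interval_cases j <;> simp [g1_M, g1_v]
  refine ⟨_, _, _, _, _, mk_Str hB hX hN, rfl, rfl, ?_⟩
  show (m : ℝ) - l = (m - s) / 2
  rw [hl]
  ring

theorem G2aS (m : ℕ) : ∃ (α b : ℕ → ℤ) (lam : ℕ → ℝ) (S : ℕ → ℕ → ℝ) (N : ℕ → ℕ → ℕ → ℤ),
    Str 2 α b lam S N ∧ α 1 = m ∧ α 2 = 2 * m ∧ b 2 = 1 ∧
    lam 0 = m + Real.sqrt (m ^ 2 + 2) ∧ lam 1 = m ∧ lam 2 = m - Real.sqrt (m ^ 2 + 2) ∧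
    S 0 1 ≠ S 0 2 := by
  set s : ℝ := Real.sqrt ((m : ℝ) ^ 2 + 2) with hs
  have hs2 : s ^ 2 = (m : ℝ) ^ 2 + 2 := Real.sq_sqrt (by positivity)
  have hspos : 0 < s := Real.sqrt_pos.2 (by positivity)
  have hm0 : (0 : ℝ) ≤ m := Nat.cast_nonneg m
  obtain ⟨l, hl⟩ : ∃ l : ℝ, l = m + s := ⟨_, rfl⟩
  have hlpos : 0 < l := by rw [hl]; positivity
  have hl2 : l ^ 2 = 2 * m * l + 2 := by
    rw [hl]
    linear_combination hs2
  have hls : s = l - m := by rw [hl]; ring
  have hB : Base 2 (g1_v 0 (m : ℤ) (2 * m)) (g1_v 0 1 1) := by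
    refine ⟨by norm_num, rfl, ?_, ?_, rfl, rfl, ?_, ?_⟩
    · intro i
      unfold g1_v
      split_ifs <;> positivity
    · intro i hi
      exact g1_v_out _ _ _ i hi
    · intro i h1 h2
      interval_cases i <;> exact le_rfl
    · intro i hi
      exact g1_v_out _ _ _ i hi
  have hml : 0 < (m : ℝ) * l + 1 := by positivity
  have hX : XFacts 2 (g1_v 0 (m : ℤ) (2 * m)) (g1_v 0 1 1) (g1_v l m (2 * m - l))
      (g1_M 1 l (m * l + 1) (m * l) (-l) 1) (1 + l ^ 2 + (m * l + 1) ^ 2) := by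
    refine ⟨fun i j => g1_M_symm _ _ _ _ _ _ i j, fun i j hi => g1_M_out _ _ _ _ _ _ i j (Or.inl hi),
      ?_, by positivity, ?_, fun j hj => g1_v_out _ _ _ j hj, ?_, ?_⟩
    · intro j hj
      interval_cases j <;> simp [g1_M, hlpos, hml]
    · intro j hj
      interval_cases j
      · simp [g1_M, Finset.sum_range_succ]
      · simp [g1_M, Finset.sum_range_succ]
        linear_combination hl2
      · simp [g1_M, Finset.sum_range_succ]
        ring
    · intro i hi j hj h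
      interval_cases i <;> interval_cases j <;> simp [g1_v] at h ⊢ <;> linarith
    · intro i hi j hj
      interval_cases i <;> interval_cases j <;> simp [g1_M, g1_v]
      all_goals first
        | ring1
        | linear_combination hl2
        | linear_combination -hl2
        | linear_combination (m : ℝ) * hl2
        | linear_combination -(m : ℝ) * hl2
  have hN : NFacts 2 (g1_v 0 (m : ℤ) (2 * m)) (g1_v 0 1 1) (fun k i j =>
      if k = 0 then g1_M 1 0 0 1 0 1 i j else if k = 1 then g1_M 0 1 0 (m : ℤ) 1 (2 * m) i j else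
      if k = 2 then g1_M 0 0 1 1 (2 * m) (2 * m ^ 2) i j else 0) := by
    refine ⟨?_, ?_, ?_, ?_⟩
    · intro i j h
      simp only [g1_M]
      split_ifs <;> positivity
    · intro k i j h
      exact g1_N_out _ _ _ (fun i j => g1_M_out _ _ _ _ _ _ i j)
        (fun i j => g1_M_out _ _ _ _ _ _ i j) (fun i j => g1_M_out _ _ _ _ _ _ i j) k i j h
    · intro i hi j hj
      interval_cases i <;> interval_cases j <;> simp [g1_M]
    · intro k hk i hi j hj
      interval_cases k <;> interval_cases i <;> interval_cases j <;> simp [g1_M, g1_v] <;> ring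
  refine ⟨_, _, _, _, _, mk_Str hB hX hN, rfl, rfl, rfl, ?_, rfl, ?_, ?_⟩
  · exact hl
  · show 2 * (m : ℝ) - l = m - s
    rw [hl]
    ring
  · intro h
    have hn0 : 0 < Real.sqrt (1 + l ^ 2 + ((m : ℝ) * l + 1) ^ 2) := Real.sqrt_pos.2 (by positivity)
    rw [div_left_inj' hn0.ne'] at h
    have h2 : l = m * l + 1 := by simpa [g1_M] using h
    rcases Nat.eq_zero_or_pos m with h0 | h0
    · subst h0
      simp at h2 hl2
      rw [h2] at hl2
      norm_num at hl2
    · have h3 : (1 : ℝ) ≤ m := by exact_mod_cast h0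
      nlinarith

theorem G2bS (k : ℕ) (hk : 1 ≤ k) :
    ∃ (α b : ℕ → ℤ) (lam : ℕ → ℝ) (S : ℕ → ℕ → ℝ) (N : ℕ → ℕ → ℕ → ℤ),
    Str 2 α b lam S N ∧ α 1 = 2 * k ^ 2 ∧ α 2 = 1 ∧ b 2 = 2 * k ∧
    lam 0 = k ^ 2 + 1 + k * Real.sqrt (k ^ 2 + 2) ∧
    lam 1 = k ^ 2 + 1 - k * Real.sqrt (k ^ 2 + 2) ∧ lam 2 = -1 ∧ S 0 1 ≠ S 0 2 := by
  set s : ℝ := Real.sqrt ((k : ℝ) ^ 2 + 2) with hs
  have hs2 : s ^ 2 = (k : ℝ) ^ 2 + 2 := Real.sq_sqrt (by positivity)
  have hspos : 0 < s := Real.sqrt_pos.2 (by positivity)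
  have hk1 : (1 : ℝ) ≤ k := by exact_mod_cast hk
  obtain ⟨l, hl⟩ : ∃ l : ℝ, l = k ^ 2 + 1 + k * s := ⟨_, rfl⟩
  obtain ⟨μ, hμ⟩ : ∃ μ : ℝ, μ = k + s := ⟨_, rfl⟩
  have hlpos : 1 < l := by rw [hl]; nlinarith
  have hμpos : 0 < μ := by rw [hμ]; positivity
  have hl2 : l ^ 2 = 2 * (k ^ 2 + 1) * l - 1 := by
    rw [hl]
    linear_combination (k : ℝ) ^ 2 * hs2
  have hμ2 : μ ^ 2 = 2 * l := by
    rw [hl, hμ]
    linear_combination hs2
  have hkμ : k * μ = l - 1 := by
    rw [hl, hμ]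
    ring
  have hB : Base 2 (g1_v 0 (2 * (k : ℤ) ^ 2) 1) (g1_v 0 1 (2 * (k : ℤ))) := by
    refine ⟨by norm_num, rfl, ?_, ?_, rfl, rfl, ?_, ?_⟩
    · intro i
      unfold g1_v
      split_ifs <;> positivity
    · intro i hi
      exact g1_v_out _ _ _ i hi
    · intro i h1 h2
      interval_cases i
      · exact le_rfl
      · show (1 : ℤ) ≤ 2 * k
        have : (1 : ℤ) ≤ k := by exact_mod_cast hk
        linarith
    · intro i hi
      exact g1_v_out _ _ _ i hi
  have hμl : μ * l = 2 * k * l + μ := by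
    linear_combination (k : ℝ) * hμ2 - μ * hkμ
  have hX : XFacts 2 (g1_v 0 (2 * (k : ℤ) ^ 2) 1) (g1_v 0 1 (2 * (k : ℤ)))
      (g1_v l (2 * (k ^ 2 + 1) - l) (-1))
      (g1_M 1 l μ 1 (-μ) (l - 1)) (1 + l ^ 2 + μ ^ 2) := by
    refine ⟨fun i j => g1_M_symm _ _ _ _ _ _ i j, fun i j hi => g1_M_out _ _ _ _ _ _ i j (Or.inl hi),
      ?_, by positivity, ?_, fun j hj => g1_v_out _ _ _ j hj, ?_, ?_⟩
    · intro j hj
      interval_cases j
      · simp [g1_M]
      · simp [g1_M]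
        linarith
      · simp [g1_M, hμpos]
    · intro j hj
      interval_cases j
      · simp [g1_M, Finset.sum_range_succ]
      · simp [g1_M, Finset.sum_range_succ]
        ring
      · simp [g1_M, Finset.sum_range_succ]
        linear_combination hμ2
    · have h01 : l ≠ 2 * ((k : ℝ) ^ 2 + 1) - l := by
        intro h
        nlinarith
      have h02 : l ≠ -1 := by
        intro h
        linarith
      have h12 : 2 * ((k : ℝ) ^ 2 + 1) - l ≠ -1 := by
        intro h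
        nlinarith
      intro i hi j hj h
      interval_cases i <;> interval_cases j
      · rfl
      · exact absurd h h01
      · exact absurd h h02
      · exact absurd h.symm h01
      · rfl
      · exact absurd h h12
      · exact absurd h.symm h02
      · exact absurd h.symm h12
      · rfl
    · intro i hi j hj
      interval_cases i <;> interval_cases j <;> simp [g1_M, g1_v]
      all_goals first
        | ring1
        | linear_combination -hl2
        | linear_combination hl2 - 2 * hkμ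
        | linear_combination 2 * hkμ
        | linear_combination 2 * (k : ℝ) * hkμ
        | linear_combination hμl
        | linear_combination hμl - 2 * (k : ℝ) * hkμ
  have hN : NFacts 2 (g1_v 0 (2 * (k : ℤ) ^ 2) 1) (g1_v 0 1 (2 * (k : ℤ))) (fun h i j =>
      if h = 0 then g1_M 1 0 0 1 0 1 i j else
      if h = 1 then g1_M 0 1 0 (2 * (k : ℤ) ^ 2) (2 * k) 1 i j else
      if h = 2 then g1_M 0 0 1 (2 * (k : ℤ)) 1 k i j else 0) := by
    refine ⟨?_, ?_, ?_, ?_⟩
    · intro i j h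
      simp only [g1_M]
      split_ifs <;> positivity
    · intro k i j h
      exact g1_N_out _ _ _ (fun i j => g1_M_out _ _ _ _ _ _ i j)
        (fun i j => g1_M_out _ _ _ _ _ _ i j) (fun i j => g1_M_out _ _ _ _ _ _ i j) k i j h
    · intro i hi j hj
      interval_cases i <;> interval_cases j <;> simp [g1_M]
    · intro h hh i hi j hj
      interval_cases h <;> interval_cases i <;> interval_cases j <;> simp [g1_M, g1_v] <;> ring
  refine ⟨_, _, _, _, _, mk_Str hB hX hN, rfl, rfl, rfl, ?_, ?_, rfl, ?_⟩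
  · exact hl
  · show 2 * ((k : ℝ) ^ 2 + 1) - l = k ^ 2 + 1 - k * s
    rw [hl]
    ring
  · intro h
    have hn0 : 0 < Real.sqrt (1 + l ^ 2 + μ ^ 2) := Real.sqrt_pos.2 (by positivity)
    rw [div_left_inj' hn0.ne'] at h
    have h2 : l = μ := by simpa [g1_M] using h
    rw [← h2] at hkμ
    nlinarith

end LS
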