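import Pool.Agent.LS.Core
import Pool.Agent.LS.Fam
import Pool.Agent.LS.W0
import Pool.Agent.LS.W1
import Pool.Agent.LS.W3
import Pool.Agent.LS.MK
import Pool.Agent.LS.FN1
import Pool.Agent.LS.FX1
import Pool.Agent.LS.O1

/-! Part `O2` of the classification of self-dual Leonard systems with integral normalized
intersection numbers (MP_963a96_al). -/
open Finset
namespace LS

variable {d : ℕ} {α b : ℕ → ℤ} {lam : ℕ → ℝ} {S : ℕ → ℕ → ℝ} {N : ℕ → ℕ → ℕ → ℤ}

theorem o2_sin {d a c : ℕ} (ha : a ≤ d) (hc : c ≤ d)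
    (h : Real.sin (((a : ℝ) + 1) * Real.pi / (d + 2)) = Real.sin (((c : ℝ) + 1) * Real.pi / (d + 2))) :
    a = c ∨ a = d - c := by
  have hp := Real.pi_pos
  have hd2 : ((d : ℝ) + 2) ≠ 0 := by positivity
  obtain ⟨k, hk⟩ := Real.sin_eq_sin_iff.1 h
  rcases hk with hk | hk
  · left
    have h1 : ((c : ℝ) + 1) = 2 * k * (d + 2) + (a + 1) := by
      apply mul_right_cancel₀ hp.ne'
      field_simp at hk
      linear_combination Real.pi * hk
    have h2 : (c : ℤ) + 1 = 2 * k * (d + 2) + (a + 1) := by exact_mod_cast h1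
    have h3 : k = 0 := by
      rcases lt_trichotomy k 0 with h4 | h4 | h4
      · exfalso
        have h5 : k ≤ -1 := by omega
        have h6 : k * ((d : ℤ) + 2) ≤ -1 * ((d : ℤ) + 2) :=
          mul_le_mul_of_nonneg_right h5 (by omega)
        have h7 : 2 * k * ((d : ℤ) + 2) = 2 * (k * ((d : ℤ) + 2)) := by ring
        omega
      · exact h4
      · exfalso
        have h5 : 1 ≤ k := by omega
        have h6 : 1 * ((d : ℤ) + 2) ≤ k * ((d : ℤ) + 2) :=
          mul_le_mul_of_nonneg_right h5 (by omega)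
        have h7 : 2 * k * ((d : ℤ) + 2) = 2 * (k * ((d : ℤ) + 2)) := by ring
        omega
    rw [h3] at h2
    omega
  · right
    have h1 : ((c : ℝ) + 1) + (a + 1) = (2 * k + 1) * (d + 2) := by
      apply mul_right_cancel₀ hp.ne'
      field_simp at hk
      linear_combination Real.pi * hk
    have h2 : ((c : ℤ) + 1) + (a + 1) = (2 * k + 1) * (d + 2) := by exact_mod_cast h1
    have h7 : (2 * k + 1) * ((d : ℤ) + 2) = 2 * (k * ((d : ℤ) + 2)) + (d + 2) := by ring
    have h3 : k = 0 := by
      rcases lt_trichotomy k 0 with h4 | h4 | h4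
      · exfalso
        have h5 : k ≤ -1 := by omega
        have h6 : k * ((d : ℤ) + 2) ≤ -1 * ((d : ℤ) + 2) :=
          mul_le_mul_of_nonneg_right h5 (by omega)
        omega
      · exact h4
      · exfalso
        have h5 : 1 ≤ k := by omega
        have h6 : 1 * ((d : ℤ) + 2) ≤ k * ((d : ℤ) + 2) :=
          mul_le_mul_of_nonneg_right h5 (by omega)
        omega
    rw [h3] at h2
    omega

theorem F1_order (h : Str d α b lam S N) (h0 : ∀ i ≤ d, α i = 0)
    (h1 : ∀ i, 1 ≤ i → i ≤ d → b i = 1) :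
    (∀ j ≤ d, lam j = 2 * Real.cos ((j + 1) * Real.pi / (d + 2))) ∨
    (Even d ∧ ∀ j ≤ d, lam j = (-1) ^ j * (2 * Real.cos ((j + 1) * Real.pi / (d + 2)))) := by
  have hB := h.base
  have hd := hB.one_le
  have hα : α = alF1 := by
    funext i
    by_cases hi : i ≤ d
    · rw [h0 i hi]; rfl
    · rw [hB.αout i (by omega)]; rfl
  have hb : b = bone d := by
    funext i
    unfold bone
    by_cases hi : 1 ≤ i ∧ i ≤ d
    · rw [if_pos hi, h1 i hi.1 hi.2]
    · rw [if_neg hi]
      by_cases hi0 : i = 0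
      · rw [hi0, hB.b0]
      · rw [hB.bout i (by omega)]
  have h' : Str d α b (lamF1 d) (fun i j => XF1 d i j / Real.sqrt (((d : ℝ) + 2) / 2)) (NF1 d) := by
    rw [hα, hb]
    exact mk_Str (FN1 d hd).1 (FX1 d hd) (FN1 d hd).2
  have hn0 : Real.sqrt (((d : ℝ) + 2) / 2) ≠ 0 := by
    have : 0 < ((d : ℝ) + 2) / 2 := by positivity
    exact (Real.sqrt_pos.2 this).ne'
  obtain ⟨S', hS'⟩ : ∃ S' : ℕ → ℕ → ℝ, S' = fun i j => XF1 d i j / Real.sqrt (((d : ℝ) + 2) / 2) :=
    ⟨_, rfl⟩
  rw [← hS'] at h'
  obtain ⟨π, hπ0, hπd, hπi, hπl, hπS, hπS', hπ1⟩ := ord_perm h h'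
  obtain ⟨-, hlr, hSr⟩ := bip h' (fun i => by rw [hα]; rfl)
  have hlam' : ∀ j ≤ d, lamF1 d j = 2 * Real.cos ((j + 1) * Real.pi / (d + 2)) := fun j hj => by
    unfold lamF1
    rw [if_pos hj]
  have hS'0 : ∀ j ≤ d, S' 0 j = Real.sin (((j : ℝ) + 1) * Real.pi / (d + 2)) /
      Real.sqrt (((d : ℝ) + 2) / 2) := fun j hj => by
    rw [hS']
    show XF1 d 0 j / _ = _
    unfold XF1
    rw [if_pos ⟨by omega, hj⟩]
    push_cast
    rw [zero_add, one_mul]
  have hcase : ∀ j ≤ d, π j = j ∨ π j = d - j := fun j hj => by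
    have h2 := hπ1 j hj
    rw [hS'0 _ (hπd j hj), hS'0 j hj, div_left_inj' hn0] at h2
    exact o2_sin (hπd j hj) hj h2
  have hS1 : ∀ j ≤ d, S' 1 j = lamF1 d j * S' 0 j := fun j hj => by
    have h2 := h'.weak.eig 0 (by omega) j hj
    rw [hB.b0, hB.α0, hB.b1] at h2
    simp only [Int.cast_zero, zero_mul, zero_add, Int.cast_one, one_mul] at h2
    exact h2.symm
  have hne : ∀ j ≤ d, d - j ≠ j → S' 1 j ≠ 0 := fun j hj hjj h2 => by
    rw [hS1 j hj] at h2
    rcases mul_eq_zero.1 h2 with h3 | h3
    · apply hjj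
      have h4 := hlr j hj
      apply weak_inj hB h'.weak _ (by omega) _ hj
      rw [h4, h3, neg_zero]
    · exact h'.weak.ne j hj h3
  have hrev1 : ∀ j ≤ d, S' 1 (d - j) = - S' 1 j := fun j hj => by
    have := hSr 1 hd j hj
    rw [this]
    ring
  by_cases hp1 : π 1 = 1
  · left
    intro j hj
    have h2 : π j = j := by
      rcases hcase j hj with h3 | h3
      · exact h3
      · by_cases hjj : d - j = j
        · rw [h3, hjj]
        · exfalso
          have h4 := hπS' 1 hd j hj
          rw [h3, hp1, hrev1 j hj, h'.weak.symm j 1] at h4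
          exact hne j hj hjj (by linarith)
    rw [hπl j hj, h2, hlam' j hj]
  · right
    have hp2 : π 1 = d - 1 := by
      rcases hcase 1 hd with h3 | h3
      · exact absurd h3 hp1
      · exact h3
    have hd2 : 2 ≤ d := by
      by_contra hcon
      have h3 : d = 1 := by omega
      rw [h3, Nat.sub_self, ← hπ0] at hp2
      have := hπi 1 hd 0 (by omega) hp2
      omega
    have hkey : ∀ j ≤ d, S' 1 (π j) = (-1) ^ j * S' 1 j := fun j hj => by
      rw [hπS' 1 hd j hj, hp2, hSr j hj 1 hd, h'.weak.symm j 1]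
    constructor
    · have h3 : π d = d := by
        rcases hcase d le_rfl with h4 | h4
        · exact h4
        · exfalso
          rw [Nat.sub_self, ← hπ0] at h4
          have := hπi d le_rfl 0 (by omega) h4
          omega
      have h4 := hkey d le_rfl
      rw [h3] at h4
      have h5 := hne d le_rfl (by omega)
      by_contra hodd
      rw [Nat.not_even_iff_odd] at hodd
      rw [hodd.neg_one_pow] at h4
      apply h5
      linarith
    · intro j hj
      have h3 : lam j = (-1) ^ j * lamF1 d j := by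
        rw [hπl j hj]
        by_cases hjj : d - j = j
        · have h4 : π j = j := by
            rcases hcase j hj with h5 | h5
            · exact h5
            · rw [h5, hjj]
          have h5 := hlr j hj
          rw [hjj] at h5
          have h6 : lamF1 d j = 0 := by linarith
          rw [h4, h6, mul_zero]
        · have h4 := hkey j hj
          have h5 := hne j hj hjj
          rcases hcase j hj with h6 | h6
          · rw [h6] at h4 ⊢
            have h7 : ((-1 : ℝ) ^ j - 1) * S' 1 j = 0 := by linear_combination (-1 : ℝ) * h4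
            rcases mul_eq_zero.1 h7 with h8 | h8
            · have h9 : (-1 : ℝ) ^ j = 1 := by linarith
              rw [h9, one_mul]
            · exact absurd h8 h5
          · rw [h6, hrev1 j hj] at h4
            rw [h6, hlr j hj]
            have h7 : ((-1 : ℝ) ^ j + 1) * S' 1 j = 0 := by linear_combination (-1 : ℝ) * h4
            rcases mul_eq_zero.1 h7 with h8 | h8
            · have h9 : (-1 : ℝ) ^ j = -1 := by linarith
              rw [h9, neg_one_mul]
            · exact absurd h8 h5
      rw [h3, hlam' j hj]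

end LS
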