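import Pool.Agent.LS.Defs
import Pool.Agent.LS.Core
import Pool.Agent.LS.Fam
import Pool.Agent.LS.FS
import Pool.Agent.LS.O1
import Pool.Agent.LS.O2
import Pool.Agent.LS.G1
import Pool.Agent.LS.D22

/-! Part `I1` of the classification of self-dual Leonard systems with integral normalized
intersection numbers (MP_963a96_al). -/
open Finset
namespace LS

variable {lam : ℕ → ℝ} {S : ℕ → ℕ → ℝ} {N : ℕ → ℕ → ℕ → ℤ}

theorem i1_inj2 {S' : ℕ → ℕ → ℝ} (h : S' 0 1 ≠ S' 0 2) :
    ∀ i, 1 ≤ i → i ≤ 2 → ∀ j, 1 ≤ j → j ≤ 2 → S' 0 i = S' 0 j → i = j := by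
  intro i hi hi2 j hj hj2 e
  interval_cases i <;> interval_cases j
  · rfl
  · exact absurd e h
  · exact absurd e.symm h
  · rfl

theorem i1_eq2 {α b α' b' : ℕ → ℤ} (hB : Base 2 α b) (hB' : Base 2 α' b') (h1 : α 1 = α' 1)
    (h2 : α 2 = α' 2) (h3 : b 2 = b' 2) : α' = α ∧ b' = b := by
  constructor
  · funext i
    match i with
    | 0 => rw [hB.α0, hB'.α0]
    | 1 => exact h1.symm
    | 2 => exact h2.symm
    | (n+3) => rw [hB.αout _ (by omega), hB'.αout _ (by omega)]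
  · funext i
    match i with
    | 0 => rw [hB.b0, hB'.b0]
    | 1 => rw [hB.b1, hB'.b1]
    | 2 => exact h3.symm
    | (n+3) => rw [hB.bout _ (by omega), hB'.bout _ (by omega)]

theorem item1 {α b : ℕ → ℤ} (h : Str 1 α b lam S N) : Item 1 α b lam := by
  obtain ⟨m, hm⟩ := Int.eq_ofNat_of_zero_le (h.base.αnn 1)
  obtain ⟨α', b', lam', S', N', h', h1, h2, h3⟩ := G1S m
  have ea : α' = α := by
    funext i
    match i with
    | 0 => rw [h.base.α0, h'.base.α0]
    | 1 => rw [hm, h1]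
    | (n+2) => rw [h.base.αout _ (by omega), h'.base.αout _ (by omega)]
  have eb : b' = b := by
    funext i
    match i with
    | 0 => rw [h.base.b0, h'.base.b0]
    | 1 => rw [h.base.b1, h'.base.b1]
    | (n+2) => rw [h.base.bout _ (by omega), h'.base.bout _ (by omega)]
  subst ea
  subst eb
  have hr := ord_rigid h h' (by
    intro i hi hi1 j hj hj1 _
    omega)
  refine Or.inr (Or.inr (Or.inr (Or.inr (Or.inl ⟨rfl, m, h.base.α0, hm, h.base.b1, ?_, ?_⟩))))
  · rw [hr 0 (by omega)]; exact h2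
  · rw [hr 1 (by omega)]; exact h3

theorem item2 {α b : ℕ → ℤ} (h : Str 2 α b lam S N) : Item 2 α b lam := by
  rcases class2 h with ⟨e1, e2⟩ | ⟨e1, e2, e3⟩ | ⟨e1, e2, e3⟩ | ⟨k, hk, e1, e2, e3⟩
  · obtain ⟨m, hm⟩ := Int.eq_ofNat_of_zero_le (h.base.αnn 1)
    obtain ⟨α', b', lam', S', N', h', h1, h2, h3, l0, l1, l2, hne⟩ := G2aS m
    have hm' : α 1 = (m : ℤ) := hm
    obtain ⟨ea, eb⟩ := i1_eq2 h.base h'.base (by rw [hm', h1]) (by rw [e2, hm', h2])
      (by rw [e1, h3])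
    subst ea
    subst eb
    have hr := ord_rigid h h' (i1_inj2 hne)
    refine Or.inr (Or.inr (Or.inr (Or.inr (Or.inr (Or.inl ⟨rfl, m, h.base.α0, hm', h2,
      h.base.b1, e1, ?_, ?_, ?_⟩)))))
    · rw [hr 0 (by omega)]; exact l0
    · rw [hr 1 (by omega)]; exact l1
    · rw [hr 2 (by omega)]; exact l2
  · have ha : ∀ i < 2, α i = 0 := by
      intro i hi
      interval_cases i
      · exact h.base.α0
      · exact e3
    have hb : ∀ i, 1 ≤ i → i ≤ 2 → b i = 1 := by
      intro i hi hi2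
      interval_cases i
      · exact h.base.b1
      · exact e1
    exact Or.inr (Or.inl ⟨by omega, ha, e2, hb, FS2_ord h ha e2 hb⟩)
  · have ha : ∀ i, 1 ≤ i → i ≤ 2 → α i = 1 := by
      intro i hi hi2
      interval_cases i
      · exact e3
      · exact e2
    have hb : ∀ i, 1 ≤ i → i ≤ 2 → b i = 1 := by
      intro i hi hi2
      interval_cases i
      · exact h.base.b1
      · exact e1
    exact Or.inr (Or.inr (Or.inl ⟨by omega, h.base.α0, ha, hb, FS3_ord h ha hb⟩))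
  · obtain ⟨α', b', lam', S', N', h', h1, h2, h3, l0, l1, l2, hne⟩ := G2bS k hk
    obtain ⟨ea, eb⟩ := i1_eq2 h.base h'.base (by rw [e2, h1]) (by rw [e3, h2])
      (by rw [e1, h3])
    subst ea
    subst eb
    have hr := ord_rigid h h' (i1_inj2 hne)
    refine Or.inr (Or.inr (Or.inr (Or.inr (Or.inr (Or.inr (Or.inl ⟨rfl, k, hk, h.base.α0, e2,
      e3, h.base.b1, e1, ?_, ?_, ?_⟩))))))
    · rw [hr 0 (by omega)]; exact l0
    · rw [hr 1 (by omega)]; exact l1
    · rw [hr 2 (by omega)]; exact l2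

end LS
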