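import Pool.Agent.LS.Core
import Pool.Agent.LS.Fam
import Pool.Agent.LS.MK

/-! Part `G3` of the classification of self-dual Leonard systems with integral normalized
intersection numbers (MP_963a96_al). -/
open Finset
namespace LS

def g3_X (δ : ℝ) (i j : ℕ) : ℝ :=
  (([[1, δ, δ, 1], [δ, 1, -1, -δ], [δ, -1, -1, δ], [1, -δ, δ, -1]] : List (List ℝ)).getD i []).getD
    j 0

def g3_lam (m δ : ℝ) (j : ℕ) : ℝ := ([δ, δ - m, m - δ, -δ] : List ℝ).getD j 0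

def g3_b (m : ℤ) (i : ℕ) : ℤ := ([0, 1, m, 1] : List ℤ).getD i 0

def g3_N (m : ℤ) (i j h : ℕ) : ℤ :=
  ((([[[1, 0, 0, 0], [0, 1, 0, 0], [0, 0, 1, 0], [0, 0, 0, 1]],
    [[0, 1, 0, 0], [1, 0, m, 0], [0, m, 0, 1], [0, 0, 1, 0]],
    [[0, 0, 1, 0], [0, m, 0, 1], [1, 0, m, 0], [0, 1, 0, 0]],
    [[0, 0, 0, 1], [0, 0, 1, 0], [0, 1, 0, 0], [1, 0, 0, 0]]] : List (List (List ℤ))).getD i
      []).getD j []).getD h 0

theorem g3_X_out (δ : ℝ) (i j : ℕ) (hi : 3 < i) : g3_X δ i j = 0 := by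
  obtain ⟨k, rfl⟩ : ∃ k, i = k + 4 := ⟨i - 4, by omega⟩
  simp [g3_X]

theorem g3_X_out' (δ : ℝ) (i j : ℕ) (hj : 3 < j) : g3_X δ i j = 0 := by
  by_cases hi : 3 < i
  · exact g3_X_out δ i j hi
  · obtain ⟨k, rfl⟩ : ∃ k, j = k + 4 := ⟨j - 4, by omega⟩
    have hi' : i ≤ 3 := by omega
    interval_cases i <;> simp [g3_X]

theorem g3_X_symm (δ : ℝ) (i j : ℕ) : g3_X δ i j = g3_X δ j i := by
  by_cases hi : 3 < i
  · rw [g3_X_out δ i j hi, g3_X_out' δ j i hi]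
  · by_cases hj : 3 < j
    · rw [g3_X_out δ j i hj, g3_X_out' δ i j hj]
    · have hi' : i ≤ 3 := by omega
      have hj' : j ≤ 3 := by omega
      interval_cases i <;> interval_cases j <;> simp [g3_X]

theorem g3_N_out (m : ℤ) (i j h : ℕ) (hh : 3 < i ∨ 3 < j ∨ 3 < h) : g3_N m i j h = 0 := by
  by_cases hi : 3 < i
  · obtain ⟨k, rfl⟩ : ∃ k, i = k + 4 := ⟨i - 4, by omega⟩
    simp [g3_N]
  · have hi' : i ≤ 3 := by omega
    by_cases hj : 3 < j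
    · obtain ⟨k, rfl⟩ : ∃ k, j = k + 4 := ⟨j - 4, by omega⟩
      interval_cases i <;> simp [g3_N]
    · have hj' : j ≤ 3 := by omega
      have hh' : 3 < h := by omega
      obtain ⟨k, rfl⟩ : ∃ k, h = k + 4 := ⟨h - 4, by omega⟩
      interval_cases i <;> interval_cases j <;> simp [g3_N]

theorem g3_base (m : ℤ) (hm : 1 ≤ m) : Base 3 (fun _ => 0) (g3_b m) := by
  refine ⟨by norm_num, rfl, fun i => le_refl _, fun i _ => rfl, by simp [g3_b], by simp [g3_b],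
    ?_, ?_⟩
  · intro i h1 h2
    interval_cases i <;> simp [g3_b, hm]
  · intro i hi
    obtain ⟨k, rfl⟩ : ∃ k, i = k + 4 := ⟨i - 4, by omega⟩
    simp [g3_b]

theorem g3_NF (m : ℤ) (hm : 1 ≤ m) : NFacts 3 (fun _ => 0) (g3_b m) (g3_N m) := by
  refine ⟨?_, g3_N_out m, ?_, ?_⟩
  · intro i j h
    by_cases hh : 3 < i ∨ 3 < j ∨ 3 < h
    · rw [g3_N_out m i j h hh]
    · have hi : i ≤ 3 := by omega
      have hj : j ≤ 3 := by omega
      have hh' : h ≤ 3 := by omega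
      have hm0 : 0 ≤ m := by omega
      interval_cases i <;> interval_cases j <;> interval_cases h <;> simp [g3_N, hm0]
  · intro i hi j hj
    interval_cases i <;> interval_cases j <;> simp [g3_N]
  · intro k hk i hi j hj
    interval_cases k <;> interval_cases i <;> interval_cases j <;> simp [g3_N, g3_b] <;> ring

theorem g3_XF (m : ℕ) (hm : 1 ≤ m) (δ : ℝ) (hδ : δ ^ 2 = m * δ + 1) (h1 : 1 < δ)
    (hmδ : (m : ℝ) < δ) :
    XFacts 3 (fun _ => 0) (g3_b (m : ℤ)) (g3_lam m δ) (g3_X δ) (2 + 2 * δ ^ 2) := by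
  have hm1 : (1 : ℝ) ≤ m := by exact_mod_cast hm
  refine ⟨g3_X_symm δ, g3_X_out δ, ?_, by positivity, ?_, ?_, ?_, ?_⟩
  · intro j hj
    interval_cases j <;> simp [g3_X] <;> linarith
  · intro j hj
    interval_cases j <;> simp [g3_X, Finset.sum_range_succ] <;> ring
  · intro j hj
    obtain ⟨k, rfl⟩ : ∃ k, j = k + 4 := ⟨j - 4, by omega⟩
    simp [g3_lam]
  · intro i hi j hj hij
    have h2 : δ - m < δ := by linarith
    have h3 : m - δ < δ - m := by linarith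
    have h4 : -δ < m - δ := by linarith
    interval_cases i <;> interval_cases j <;> simp [g3_lam] at hij ⊢ <;> linarith
  · intro i hi j hj
    interval_cases i <;> interval_cases j <;> simp [g3_X, g3_lam, g3_b] <;> nlinarith

theorem G3S (m : ℕ) (hm : 1 ≤ m) :
    ∃ (α b : ℕ → ℤ) (lam : ℕ → ℝ) (S : ℕ → ℕ → ℝ) (N : ℕ → ℕ → ℕ → ℤ),
    Str 3 α b lam S N ∧ (∀ i, α i = 0) ∧ b 2 = m ∧ b 3 = 1 ∧
    lam 0 = (m + Real.sqrt (m ^ 2 + 4)) / 2 ∧ lam 1 = (-m + Real.sqrt (m ^ 2 + 4)) / 2 ∧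
    lam 2 = (m - Real.sqrt (m ^ 2 + 4)) / 2 ∧ lam 3 = (-m - Real.sqrt (m ^ 2 + 4)) / 2 ∧
    S 0 3 ≠ S 0 1 ∧ S 0 3 ≠ S 0 2 ∧ S 1 1 ≠ S 2 2 := by
  have hm1 : (1 : ℝ) ≤ m := by exact_mod_cast hm
  have hs0 : (0 : ℝ) ≤ (m : ℝ) ^ 2 + 4 := by positivity
  have hs : Real.sqrt ((m : ℝ) ^ 2 + 4) ^ 2 = (m : ℝ) ^ 2 + 4 := Real.sq_sqrt hs0
  have hsp : 0 ≤ Real.sqrt ((m : ℝ) ^ 2 + 4) := Real.sqrt_nonneg _
  obtain ⟨δ, hδdef⟩ : ∃ δ : ℝ, δ = (m + Real.sqrt ((m : ℝ) ^ 2 + 4)) / 2 := ⟨_, rfl⟩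
  have hr : Real.sqrt ((m : ℝ) ^ 2 + 4) = 2 * δ - m := by rw [hδdef]; ring
  rw [hr] at hs hsp
  have hδ : δ ^ 2 = m * δ + 1 := by nlinarith
  have hlt : (m : ℝ) < δ := by nlinarith
  have h1 : 1 < δ := by linarith
  have hXF := g3_XF m hm δ hδ h1 hlt
  have hS := mk_Str (g3_base (m : ℤ) (by exact_mod_cast hm)) hXF
    (g3_NF (m : ℤ) (by exact_mod_cast hm))
  have hn : 0 < Real.sqrt (2 + 2 * δ ^ 2) := Real.sqrt_pos.mpr (by positivity)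
  refine ⟨_, _, _, _, _, hS, fun i => rfl, by simp [g3_b], by simp [g3_b], ?_, ?_, ?_, ?_, ?_, ?_,
    ?_⟩
  · rw [hr]; simp [g3_lam]
  · rw [hr]; simp [g3_lam]; ring
  · rw [hr]; simp [g3_lam]; ring
  · rw [hr]; simp [g3_lam]; ring
  · intro h
    have h' : (1 : ℝ) / Real.sqrt (2 + 2 * δ ^ 2) = δ / Real.sqrt (2 + 2 * δ ^ 2) := by
      simpa [g3_X] using h
    rw [div_left_inj' (ne_of_gt hn)] at h'
    linarith
  · intro h
    have h' : (1 : ℝ) / Real.sqrt (2 + 2 * δ ^ 2) = δ / Real.sqrt (2 + 2 * δ ^ 2) := by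
      simpa [g3_X] using h
    rw [div_left_inj' (ne_of_gt hn)] at h'
    linarith
  · intro h
    have h' : (1 : ℝ) / Real.sqrt (2 + 2 * δ ^ 2) = (-1) / Real.sqrt (2 + 2 * δ ^ 2) := by
      simpa [g3_X] using h
    rw [div_left_inj' (ne_of_gt hn)] at h'
    linarith

end LS
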