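import Pool.Agent.LS.Core
import Pool.Agent.LS.Fam
import Pool.Agent.LS.MK

/-! Part `GS` of the classification of self-dual Leonard systems with integral normalized
intersection numbers (MP_963a96_al). -/
open Finset
namespace LS

def gs_al : ℕ → ℤ
  | 1 => 2
  | 2 => 4
  | 3 => 2
  | _ => 0

def gs_b : ℕ → ℤ
  | 1 => 1
  | 2 => 2
  | 3 => 3
  | _ => 0

def gs_N : ℕ → ℕ → ℕ → ℤ := fun h i j =>
  if h ≤ 3 ∧ i ≤ 3 ∧ j ≤ 3 then
    ((([[[1,0,0,0],[0,1,0,0],[0,0,1,0],[0,0,0,1]],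
       [[0,1,0,0],[1,2,2,0],[0,2,4,3],[0,0,3,2]],
       [[0,0,1,0],[0,2,4,3],[1,4,10,6],[0,3,6,4]],
       [[0,0,0,1],[0,0,3,2],[0,3,6,4],[1,2,4,2]]] : List (List (List ℤ))).getD h []).getD i
        []).getD j 0
  else 0

noncomputable def gs_lam (u : ℝ) : ℕ → ℝ
  | 0 => 2 * u ^ 2 + 2 * u - 1
  | 1 => 7 - 2 * u ^ 2
  | 2 => 3 - 2 * u
  | 3 => -1
  | _ => 0

noncomputable def gs_X (u : ℝ) : ℕ → ℕ → ℝ
  | 0, 0 => 1
  | 0, 1 => 2 * u ^ 2 + 2 * u - 1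
  | 0, 2 => 4 * u ^ 2 + 6 * u - 3
  | 0, 3 => 2 * u ^ 2 + 4 * u - 1
  | 1, 0 => 2 * u ^ 2 + 2 * u - 1
  | 1, 1 => 4 * u ^ 2 + 6 * u - 3
  | 1, 2 => -1
  | 1, 3 => -(2 * u ^ 2 + 4 * u - 1)
  | 2, 0 => 4 * u ^ 2 + 6 * u - 3
  | 2, 1 => -1
  | 2, 2 => -(2 * u ^ 2 + 2 * u - 1)
  | 2, 3 => 2 * u ^ 2 + 4 * u - 1
  | 3, 0 => 2 * u ^ 2 + 4 * u - 1
  | 3, 1 => -(2 * u ^ 2 + 4 * u - 1)
  | 3, 2 => 2 * u ^ 2 + 4 * u - 1
  | 3, 3 => -(2 * u ^ 2 + 4 * u - 1)
  | _, _ => 0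

lemma gs_NF : NFacts 3 gs_al gs_b gs_N := by
  refine ⟨?_, ?_, ?_, ?_⟩
  · intro i j h
    by_cases hh : i ≤ 3 ∧ j ≤ 3 ∧ h ≤ 3
    · obtain ⟨h1, h2, h3⟩ := hh
      interval_cases i <;> interval_cases j <;> interval_cases h <;> decide
    · unfold gs_N
      rw [if_neg hh]
  · intro i j h hh
    unfold gs_N
    rw [if_neg (by omega)]
  · intro i hi j hj
    interval_cases i <;> interval_cases j <;> decide
  · intro k hk i hi j hj
    interval_cases k <;> interval_cases i <;> interval_cases j <;> decide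

lemma gs_base : Base 3 gs_al gs_b := by
  refine ⟨by norm_num, rfl, ?_, ?_, rfl, rfl, ?_, ?_⟩
  · intro i
    match i with
    | 0 => decide
    | 1 => decide
    | 2 => decide
    | 3 => decide
    | (n+4) => exact le_refl _
  · intro i hi
    match i, hi with
    | (n+4), _ => rfl
  · intro i h1 h2
    interval_cases i <;> decide
  · intro i hi
    match i, hi with
    | (n+4), _ => rfl

lemma gs_XF {u : ℝ} (h3 : u ^ 3 = 3 * u - 1) (hu : 3 / 2 < u) (hu2 : u < 2) :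
    XFacts 3 gs_al gs_b (gs_lam u) (gs_X u) (4 * (2 * u ^ 2 + 4 * u - 1) ^ 2) := by
  have h4 : u ^ 4 = 3 * u ^ 2 - u := by linear_combination u * h3
  have hsq : 9 / 4 < u ^ 2 := by nlinarith
  have hsq2 : u ^ 2 < 4 := by nlinarith
  have hn : 0 < 2 * u ^ 2 + 4 * u - 1 := by linarith
  refine ⟨?_, ?_, ?_, by positivity, ?_, ?_, ?_, ?_⟩
  · intro i j
    match i, j with
    | 0, 0 => rfl
    | 0, 1 => rfl
    | 0, 2 => rfl
    | 0, 3 => rfl
    | 1, 0 => rfl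
    | 1, 1 => rfl
    | 1, 2 => rfl
    | 1, 3 => rfl
    | 2, 0 => rfl
    | 2, 1 => rfl
    | 2, 2 => rfl
    | 2, 3 => rfl
    | 3, 0 => rfl
    | 3, 1 => rfl
    | 3, 2 => rfl
    | 3, 3 => rfl
    | (n+4), 0 => rfl
    | (n+4), 1 => rfl
    | (n+4), 2 => rfl
    | (n+4), 3 => rfl
    | (n+4), (m+4) => rfl
    | 0, (m+4) => rfl
    | 1, (m+4) => rfl
    | 2, (m+4) => rfl
    | 3, (m+4) => rfl
  · intro i j hi
    match i, hi with
    | (n+4), _ => rfl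
  · intro j hj
    interval_cases j <;> simp only [gs_X] <;> linarith
  · intro j hj
    interval_cases j <;> simp only [sum_range_succ, sum_range_zero, gs_X] <;>
      linarith [h3, h4]
  · intro j hj
    match j, hj with
    | (n+4), _ => rfl
  · have h01 : (2 * u ^ 2 + 2 * u - 1 : ℝ) > 7 - 2 * u ^ 2 := by linarith
    have h12 : 7 - 2 * u ^ 2 > 3 - 2 * u := by nlinarith
    have h23 : 3 - 2 * u > -1 := by linarith
    intro i hi j hj hij
    interval_cases i <;> interval_cases j <;> first | rfl | (exfalso; simp only [gs_lam] at hij; linarith)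
  · intro i hi j hj
    interval_cases i <;> interval_cases j <;>
      simp only [gs_X, gs_lam, gs_al, gs_b, Nat.zero_sub, Nat.sub_self, zero_add, Int.cast_zero, Int.cast_one,
        Int.cast_ofNat] <;> norm_num <;> linarith [h3, h4]

theorem SpS : ∃ (α b : ℕ → ℤ) (lam : ℕ → ℝ) (S : ℕ → ℕ → ℝ) (N : ℕ → ℕ → ℕ → ℤ),
    Str 3 α b lam S N ∧ α 1 = 2 ∧ α 2 = 4 ∧ α 3 = 2 ∧ b 2 = 2 ∧ b 3 = 3 ∧
    lam 0 = 3 - 4 * Real.cos (8 * Real.pi / 9) ∧ lam 1 = 3 - 4 * Real.cos (4 * Real.pi / 9) ∧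
    lam 2 = 3 - 4 * Real.cos (2 * Real.pi / 9) ∧ lam 3 = -1 ∧
    S 0 1 ≠ S 0 2 ∧ S 0 1 ≠ S 0 3 ∧ S 0 2 ≠ S 0 3 := by
  set u : ℝ := 2 * Real.cos (2 * Real.pi / 9) with hu
  have h3 : u ^ 3 = 3 * u - 1 := by
    have h1 := Real.cos_three_mul (2 * Real.pi / 9)
    have h2 : Real.cos (3 * (2 * Real.pi / 9)) = -(1 / 2) := by
      rw [show 3 * (2 * Real.pi / 9) = Real.pi - Real.pi / 3 by ring, Real.cos_pi_sub,
        Real.cos_pi_div_three]
    rw [h2] at h1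
    rw [hu]
    linear_combination -2 * h1
  have hv : 2 * Real.cos (4 * Real.pi / 9) = u ^ 2 - 2 := by
    have h1 := Real.cos_two_mul (2 * Real.pi / 9)
    rw [show 2 * (2 * Real.pi / 9) = 4 * Real.pi / 9 by ring] at h1
    rw [hu]
    linear_combination 2 * h1
  have hw : 2 * Real.cos (8 * Real.pi / 9) = 2 - u - u ^ 2 := by
    have h1 := Real.cos_two_mul (4 * Real.pi / 9)
    rw [show 2 * (4 * Real.pi / 9) = 8 * Real.pi / 9 by ring] at h1
    have h2 : 2 * Real.cos (8 * Real.pi / 9) = (2 * Real.cos (4 * Real.pi / 9)) ^ 2 - 2 := by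
      linear_combination 2 * h1
    rw [h2, hv]
    linear_combination u * h3
  have hu1 : 3 / 2 < u := by
    have h1 := Real.one_sub_sq_div_two_le_cos (x := 2 * Real.pi / 9)
    have h2 := Real.pi_lt_d2
    have h4 := Real.pi_pos
    have h5 : (2 * Real.pi / 9) ^ 2 < (0.7) ^ 2 := by
      apply pow_lt_pow_left₀ _ (by positivity) (by norm_num)
      linarith
    rw [hu]
    nlinarith
  have hu2 : u < 2 := by
    have h1 := Real.cos_le_one (2 * Real.pi / 9)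
    rcases lt_or_eq_of_le (show u ≤ 2 by rw [hu]; linarith) with h | h
    · exact h
    · exfalso
      rw [h] at h3
      norm_num at h3
  have hX := gs_XF h3 hu1 hu2
  have hS := mk_Str gs_base hX gs_NF
  have hs : 0 < Real.sqrt (4 * (2 * u ^ 2 + 4 * u - 1) ^ 2) := Real.sqrt_pos.2 hX.n0pos
  have hsq : 9 / 4 < u ^ 2 := by nlinarith
  have hne : ∀ x y : ℝ, x ≠ y → x / Real.sqrt (4 * (2 * u ^ 2 + 4 * u - 1) ^ 2) ≠
      y / Real.sqrt (4 * (2 * u ^ 2 + 4 * u - 1) ^ 2) := by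
    intro x y hxy h
    exact hxy ((div_left_inj' hs.ne').1 h)
  refine ⟨gs_al, gs_b, gs_lam u, _, gs_N, hS, rfl, rfl, rfl, rfl, rfl, ?_, ?_, ?_, rfl,
    hne _ _ ?_, hne _ _ ?_, hne _ _ ?_⟩
  · simp only [gs_lam]
    linarith
  · simp only [gs_lam]
    linarith
  · simp only [gs_lam]
    linarith
  · simp only [gs_X]
    intro h
    linarith
  · simp only [gs_X]
    intro h
    linarith
  · simp only [gs_X]
    intro h
    linarith

end LS
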