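import Pool.Agent.LS.Core
import Pool.Agent.LS.W0
import Pool.Agent.LS.W1
import Pool.Agent.LS.GA1
import Pool.Agent.LS.GA3
import Pool.Agent.LS.GA4
import Pool.Agent.LS.GA5

/-! Part `K3` of the classification of self-dual Leonard systems with integral normalized
intersection numbers (MP_963a96_al). -/
open Finset
namespace LS

theorem k3_weak {α b : ℕ → ℤ} {x : ℕ → ℝ} {S : ℕ → ℕ → ℝ} (hB : Base 3 α b)
    (h : Weak 3 α b x S) (hx : x 0 ≠ 0) :
    x 2 / x 0 = x 2 * (x 0 - α 1) - b 2 * (S 2 1 / S 0 1) := by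
  have e00 := h.eig 0 (by norm_num) 0 (by norm_num)
  have e10 := h.eig 1 (by norm_num) 0 (by norm_num)
  have e02 := h.eig 0 (by norm_num) 2 (by norm_num)
  have s1 := h.symm 0 2
  have s2 := h.symm 1 2
  have s3 := h.symm 0 1
  have n00 := h.ne 0 (by norm_num)
  have n01 := h.ne 1 (by norm_num)
  simp only [hB.α0, hB.b0, hB.b1, Int.cast_zero, Int.cast_one, zero_mul, zero_add, one_mul, Nat.sub_self] at e00 e10 e02
  norm_num at e10
  rw [s3] at n01 ⊢
  have h10 : S 1 0 = x 0 * S 0 0 := by linarith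
  have h21 : S 2 1 = x 2 * S 2 0 := by rw [← s2, ← s1]; linarith
  have hb : (b 2 : ℝ) * S 2 0 = (x 0 - α 1) * (x 0 * S 0 0) - S 0 0 := by
    rw [← h10]; linarith
  have key : (b 2 : ℝ) * (S 2 1 / S 1 0) = x 2 * ((x 0 - α 1) * (x 0 * S 0 0) - S 0 0) / (x 0 * S 0 0) := by
    rw [h21, h10, ← hb]; ring
  rw [key]
  field_simp
  ring

theorem no_swap {α b : ℕ → ℤ} {lam : ℕ → ℝ} {S : ℕ → ℕ → ℝ} {N : ℕ → ℕ → ℕ → ℤ}
    (h : Str 3 α b lam S N)
    (hex : ∃ π, IsGal 3 lam π ∧ π 0 = 0 ∧ π 1 = 2 ∧ π 2 = 1 ∧ π 3 = 3)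
    (hall : ∀ π, IsGal 3 lam π → (∀ j ≤ 3, π j = j) ∨
      (π 0 = 0 ∧ π 1 = 2 ∧ π 2 = 1 ∧ π 3 = 3)) : False := by
  obtain ⟨π, hπ, p0, p1, p2, p3⟩ := hex
  obtain ⟨ε, hε⟩ := exists_twist h π hπ
  have hW := conj_weak h.weak h.pos hπ hε

  obtain ⟨r, hr⟩ := fixed_field h (MvPolynomial.X 0) 1 (by simp) (by
    intro σ hσ
    have : σ 0 = 0 := by
      rcases hall σ hσ with h1 | h1
      · exact h1 0 (by norm_num)
      · exact h1.1
    simp [this])
  simp only [MvPolynomial.aeval_X, map_one, mul_one] at hr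
  obtain ⟨D, hD⟩ := int_of_rat (lam 0) (lam_integral h 0 (by norm_num)) r hr
  have hD1 : (1 : ℝ) ≤ D := by
    rw [← hD, lam_eq h 0 (by norm_num)]; exact PF3 h 1 (by norm_num)
  have hD0 : lam 0 ≠ 0 := by rw [hD]; linarith

  have u1 := k3_weak h.base h.weak hD0
  have u2 := k3_weak h.base hW (by simpa [p0] using hD0)
  have i1 : IsIntegral ℤ (lam 2 / lam 0) := by
    rw [u1]
    refine IsIntegral.sub (IsIntegral.mul (lam_integral h 2 (by norm_num))
      (IsIntegral.sub (lam_integral h 0 (by norm_num)) ?_)) (IsIntegral.mul ?_ (t_integral h 2 (by norm_num) 1 (by norm_num)))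
    · exact_mod_cast isIntegral_algebraMap (R := ℤ) (A := ℝ) (x := α 1)
    · exact_mod_cast isIntegral_algebraMap (R := ℤ) (A := ℝ) (x := b 2)
  have i2 : IsIntegral ℤ (lam 1 / lam 0) := by
    have hq : ((ε 1 : ℝ) * S 2 (π 1)) / ((ε 1 : ℝ) * S 0 (π 1)) = S 2 2 / S 0 2 := by
      rw [p1]
      have : (ε 1 : ℝ) ≠ 0 := by
        rcases hε.sgn 1 with h1 | h1 <;> rw [h1] <;> norm_num
      rw [mul_div_mul_left _ _ this]
    simp only [p0, p2] at u2
    rw [u2, hq]
    refine IsIntegral.sub (IsIntegral.mul (lam_integral h 1 (by norm_num))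
      (IsIntegral.sub (lam_integral h 0 (by norm_num)) ?_)) (IsIntegral.mul ?_ (t_integral h 2 (by norm_num) 2 (by norm_num)))
    · exact_mod_cast isIntegral_algebraMap (R := ℤ) (A := ℝ) (x := α 1)
    · exact_mod_cast isIntegral_algebraMap (R := ℤ) (A := ℝ) (x := b 2)
  obtain ⟨s, hs⟩ := fixed_field h (MvPolynomial.X 1 * MvPolynomial.X 2) (MvPolynomial.X 0 ^ 2)
    (by simpa using hD0) (by
    intro σ hσ
    rcases hall σ hσ with h1 | h1
    · simp [h1 0 (by norm_num), h1 1 (by norm_num), h1 2 (by norm_num)]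
    · simp only [map_mul, map_pow, MvPolynomial.aeval_X, h1.1, h1.2.1, h1.2.2.1]; ring)
  simp only [map_mul, map_pow, MvPolynomial.aeval_X] at hs
  have hprod : lam 2 / lam 0 * (lam 1 / lam 0) = s := by
    field_simp
    linarith
  obtain ⟨n, hn⟩ := int_of_rat _ (i1.mul i2) s hprod
  have hn' : lam 1 * lam 2 = n * (D:ℝ) ^ 2 := by
    rw [← hn, ← hD]; field_simp
  have b1 : |lam 1| ≤ D := by
    rw [← hD, lam_eq h 1 (by norm_num), lam_eq h 0 (by norm_num)]; exact PF2 h 1 (by norm_num) 1 (by norm_num)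
  have b2 : |lam 2| ≤ D := by
    rw [← hD, lam_eq h 2 (by norm_num), lam_eq h 0 (by norm_num)]; exact PF2 h 1 (by norm_num) 2 (by norm_num)
  have hinj := weak_inj h.base h.weak
  by_cases hz : n = 0
  · rw [hz] at hn'
    have hn'' : lam 1 = 0 ∨ lam 2 = 0 := by
      rw [← mul_eq_zero]; simpa using hn'
    rcases hn'' with h1 | h1
    · have := hπ.rel (MvPolynomial.X 1) (by simpa using h1)
      simp only [MvPolynomial.aeval_X, p1] at this
      have := hinj 1 (by norm_num) 2 (by norm_num) (by rw [h1, this])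
      omega
    · have := hπ.rel (MvPolynomial.X 2) (by simpa using h1)
      simp only [MvPolynomial.aeval_X, p2] at this
      have := hinj 1 (by norm_num) 2 (by norm_num) (by rw [h1, this])
      omega
  · have h1 : (1 : ℝ) ≤ |(n:ℝ)| := by
      have : 1 ≤ |n| := Int.one_le_abs hz
      exact_mod_cast this
    have h2 : |lam 1| * |lam 2| = |(n:ℝ)| * (D:ℝ)^2 := by
      rw [← abs_mul, hn', abs_mul, abs_of_nonneg (sq_nonneg (D:ℝ))]
    have h3 : |lam 1| = D := by
      apply le_antisymm b1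
      by_contra hc
      rw [not_le] at hc
      have : |lam 1| * |lam 2| < (D:ℝ) ^ 2 := by
        nlinarith [abs_nonneg (lam 1), abs_nonneg (lam 2)]
      nlinarith
    have h4 : |lam 2| = D := by
      apply le_antisymm b2
      by_contra hc
      rw [not_le] at hc
      have : |lam 1| * |lam 2| < (D:ℝ) ^ 2 := by
        nlinarith [abs_nonneg (lam 1), abs_nonneg (lam 2)]
      nlinarith
    have n1 : lam 1 ≠ D := by
      intro hh
      have := hinj 1 (by norm_num) 0 (by norm_num) (by rw [hh, hD])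
      omega
    have n2 : lam 2 ≠ D := by
      intro hh
      have := hinj 2 (by norm_num) 0 (by norm_num) (by rw [hh, hD])
      omega
    have e1 : lam 1 = -D := by
      rcases abs_choice (lam 1) with hh | hh
      · rw [hh] at h3; exact absurd h3 n1
      · rw [hh] at h3; linarith
    have e2 : lam 2 = -D := by
      rcases abs_choice (lam 2) with hh | hh
      · rw [hh] at h4; exact absurd h4 n2
      · rw [hh] at h4; linarith
    have := hinj 1 (by norm_num) 2 (by norm_num) (by rw [e1, e2])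
    omega

end LS
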