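import Pool.Agent.LS.Core
import Pool.Agent.LS.W1

/-! Part `T0` of the classification of self-dual Leonard systems with integral normalized
intersection numbers (MP_963a96_al). -/
open Finset
namespace LS

variable {α b : ℕ → ℤ} {p : ℕ → ℕ} {F : ℕ → ℕ → ℤ}

variable {lam : ℕ → ℝ} {S : ℕ → ℕ → ℝ} {N : ℕ → ℕ → ℕ → ℤ}

theorem N3data (h : Str 3 α b lam S N) :
    b 2 * N 2 3 3 = b 3 ^ 2 + α 3 ^ 2 - α 1 * α 3 - 1 ∧
    b 2 * N 2 2 3 = b 3 * (α 2 - α 1 + α 3) ∧
    b 3 * N 3 3 3 = b 3 * N 2 2 3 + (α 3 - α 2) * N 2 3 3 - b 2 * α 3 := by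
  have e1 := N_rec h 1 (by norm_num) 3 (by norm_num) 3 (by norm_num)
  have e2 := N_rec h 1 (by norm_num) 2 (by norm_num) 3 (by norm_num)
  have e3 := N_rec h 2 (by norm_num) 3 (by norm_num) 3 (by norm_num)
  have z33 := N_zero h 3 (by norm_num) 3 (by norm_num)
  have z23 := N_zero h 2 (by norm_num) 3 (by norm_num)
  have o33 := N_one h 3 (by norm_num) 3 (by norm_num)
  have o23 := N_one h 2 (by norm_num) 3 (by norm_num)
  have o13 := N_one h 1 (by norm_num) 3 (by norm_num)
  have b4 := h.base.bout 4 (by norm_num)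
  have b1 := h.base.b1
  norm_num [Te] at z33 z23 o33 o23 o13 e1 e2 e3
  rw [z33, o33, o23, b1, b4] at e1
  rw [z23, o23, o13, o33, b1] at e2
  rw [o33, b4] at e3
  refine ⟨by linear_combination e1, by linear_combination e2, by linear_combination e3⟩

theorem TA (h : Str 3 α b lam S N) (h1 : α 1 = b 2) (h2 : α 2 = b 2 ^ 2) (h3 : α 3 = b 2)
    (h4 : b 3 = 1 ∨ b 3 ^ 2 = b 2 ^ 3 + 1) : D3 α b := by
  obtain ⟨e1, e2, e3⟩ := N3data h
  have hm := h.base.bpos 2 (by norm_num) (by norm_num)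
  have hq := h.base.bpos 3 (by norm_num) (by norm_num)
  have n333 := h.Nnn 3 3 3
  have n233 := h.Nnn 2 3 3
  rw [h1, h3] at e1
  rw [h1, h2, h3] at e2
  rw [h2, h3] at e3
  set m := b 2 with hmdef
  set q := b 3 with hqdef
  have e2' : N 2 2 3 = q * m := by
    have : m * N 2 2 3 = m * (q * m) := by linear_combination e2
    exact mul_left_cancel₀ (by omega) this
  rcases h4 with h4 | h4
  · rw [h4] at e1 e3 e2'
    have e1' : N 2 3 3 = 0 := by
      have : m * N 2 3 3 = m * 0 := by linear_combination e1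
      exact mul_left_cancel₀ (by omega) this
    rw [e1', e2'] at e3
    have hm1 : m = 1 := by nlinarith
    right; right; left
    refine ⟨by omega, by rw [h2, hm1]; norm_num, by omega, hm1, h4⟩
  · have e1' : N 2 3 3 = m ^ 2 := by
      have : m * N 2 3 3 = m * m ^ 2 := by linear_combination e1 + h4
      exact mul_left_cancel₀ (by omega) this
    rw [e1', e2'] at e3
    have e4 : q * N 3 3 3 = m * (m ^ 2 - m + 1) := by linear_combination e3 + m * h4
    have hcop : IsCoprime q m := ⟨q, -m ^ 2, by linear_combination h4⟩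
    obtain ⟨k, hk⟩ : q ∣ m ^ 2 - m + 1 := hcop.dvd_of_dvd_mul_left ⟨_, e4.symm⟩
    have e5 : q = (m + 1) * k := by
      have : q * q = q * ((m + 1) * k) := by linear_combination h4 + (m + 1) * hk
      exact mul_left_cancel₀ (by omega) this
    have e6 : (m + 1) ∣ 3 := by
      have h5 : (m + 1) ∣ m ^ 2 - m + 1 := by
        rw [hk, e5]
        exact ⟨k * k, by ring⟩
      have h6 : (3 : ℤ) = (m ^ 2 - m + 1) - (m + 1) * (m - 2) := by ring
      rw [h6]
      exact dvd_sub h5 (dvd_mul_right _ _)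
    have h7 : m + 1 ≤ 3 := Int.le_of_dvd (by norm_num) e6
    have h8 : m = 1 ∨ m = 2 := by omega
    rcases h8 with h8 | h8
    · rw [h8] at e6
      norm_num at e6
    · rw [h8] at h4
      have h9 : q = 3 := by nlinarith
      right; right; right; right
      refine ⟨by omega, by rw [h2, h8]; norm_num, by omega, h8, h9⟩

theorem TB (h : Str 3 α b lam S N) (h1 : α 1 = b 2 ^ 2 + b 2) (h2 : α 2 = 0) (h3 : α 3 = b 2)
    (h4 : b 3 = 1) : False := by
  obtain ⟨e1, -, -⟩ := N3data h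
  have hm := h.base.bpos 2 (by norm_num) (by norm_num)
  have n233 := h.Nnn 2 3 3
  rw [h1, h3, h4] at e1
  have e2 : b 2 * N 2 3 3 = - b 2 ^ 3 := by linear_combination e1
  have e3 : 0 ≤ b 2 * N 2 3 3 := mul_nonneg (by omega) n233
  have e4 : 0 < b 2 ^ 3 := by positivity
  omega

theorem TC (h : Str 3 α b lam S N) (h2 : α 2 = α 1 * b 3) (h3 : α 3 = 0) :
    α 1 = 0 ∨ b 3 = 1 := by
  obtain ⟨e1, e2, e3⟩ := N3data h
  have hm := h.base.bpos 2 (by norm_num) (by norm_num)
  have hq := h.base.bpos 3 (by norm_num) (by norm_num)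
  have n333 := h.Nnn 3 3 3
  have ha := h.base.αnn 1
  rw [h3] at e1 e2 e3
  rw [h2] at e2 e3
  have e4 : b 2 * (b 3 * N 3 3 3) = - (α 1 * b 3 * (b 3 - 1)) := by
    linear_combination b 2 * e3 + b 3 * e2 - α 1 * b 3 * e1
  have e5 : 0 ≤ b 2 * (b 3 * N 3 3 3) := mul_nonneg (by omega) (mul_nonneg (by omega) n333)
  by_contra hcon
  push Not at hcon
  obtain ⟨hc1, hc2⟩ := hcon
  have h5 : 0 < α 1 * b 3 * (b 3 - 1) := mul_pos (mul_pos (by omega) (by omega)) (by omega)
  omega

theorem TD (h : Str 3 α b lam S N) (h1 : α 1 = b 2 + α 3) (h2 : α 2 = b 2) (h4 : b 3 = 1) :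
    α 3 = 0 := by
  obtain ⟨e1, -, -⟩ := N3data h
  have hm := h.base.bpos 2 (by norm_num) (by norm_num)
  have n233 := h.Nnn 2 3 3
  have hc := h.base.αnn 3
  rw [h1, h4] at e1
  have e2 : N 2 3 3 = - α 3 := by
    have : b 2 * N 2 3 3 = b 2 * (- α 3) := by linear_combination e1
    exact mul_left_cancel₀ (by omega) this
  omega

end LS
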