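import Pool.Agent.LS.Core
import Pool.Agent.LS.PT

/-! Part `T11` of the classification of self-dual Leonard systems with integral normalized
intersection numbers (MP_963a96_al). -/
open Finset
namespace LS

variable {α b : ℕ → ℤ} {p : ℕ → ℕ} {F : ℕ → ℕ → ℤ}

theorem t11_rows (hB : Base 3 α b) (hF : PathF 3 α b p F) :
    F 1 1 = F 0 0 + α 1 * F 0 1 + b 2 * F 0 2 ∧
    F 1 2 = b 2 * F 0 1 + α 2 * F 0 2 + b 3 * F 0 3 ∧
    F 1 3 = b 3 * F 0 2 + α 3 * F 0 3 ∧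
    b 2 * F 2 2 = b 2 * F 1 1 + (α 2 - α 1) * F 1 2 + b 3 * F 1 3 - F 0 2 ∧
    b 2 * F 2 3 = b 3 * F 1 2 + (α 3 - α 1) * F 1 3 - F 0 3 ∧
    b 3 * F 3 3 = b 3 * F 2 2 + (α 3 - α 2) * F 2 3 - b 2 * F 1 3 := by
  have h1 := hF.recur0 hB 1 (by norm_num)
  have h2 := hF.recur0 hB 2 (by norm_num)
  have h3 := hF.recur0 hB 3 (by norm_num)
  have h4 := hF.recur1 hB 2 (by norm_num)
  have h5 := hF.recur1 hB 3 (by norm_num)
  have h6 := hF.recurk hB 2 (by norm_num) 3 (by norm_num)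
  have hb4 : b 4 = 0 := hB.bout 4 (by norm_num)
  have hb1 := hB.b1
  norm_num at h1 h2 h3 h4 h5 h6
  rw [hb4] at h3 h5 h6
  rw [hb1] at h1
  refine ⟨by linarith, by linarith, by linarith, by linarith, by linarith, by linarith⟩

theorem t11_two {m a : ℤ} (hm : 1 ≤ m) (ha : m ≤ a) (h : m * a = 2) : m = 1 ∧ a = 2 := by
  have h1 : m = 1 := by nlinarith
  subst h1
  exact ⟨rfl, by linarith⟩

theorem T11a (hB : Base 3 α b) (hF : PathF 3 α b p F) (h0 : p 2 = 0) (h1 : p 0 = 1)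
    (h2 : p 3 = 2) (h3 : p 1 = 3) :
    b 3 = 1 ∧ ((α 1 = b 2 ∧ α 2 = b 2 ∧ α 3 = 0) ∨ (b 2 = 1 ∧ α 1 = 1 ∧ α 2 = 1 ∧ α 3 = 2)) := by
  obtain ⟨r1, r2, r3, r4, r5, r6⟩ := t11_rows hB hF
  have e1 := hF.edge 2 (by norm_num) 0 (by norm_num) (by rw [h1, h0])
  have e2 := hF.edge 0 (by norm_num) 3 (by norm_num) (by rw [h2, h1])
  have e3 := hF.edge 3 (by norm_num) 1 (by norm_num) (by rw [h3, h2])
  have f1 := hF.far 2 (by norm_num) 3 (by norm_num) (by rw [h0, h2]; norm_num)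
  have f2 := hF.far 2 (by norm_num) 1 (by norm_num) (by rw [h0, h3]; norm_num)
  have f3 := hF.far 0 (by norm_num) 1 (by norm_num) (by rw [h1, h3]; norm_num)
  have d0 := hF.diag 0 (by norm_num)
  have d1 := hF.diag 1 (by norm_num)
  have d2 := hF.diag 2 (by norm_num)
  have d3 := hF.diag 3 (by norm_num)
  rw [h0, hB.α0] at d2
  rw [h1] at d0 e1
  rw [h2] at d3 e2
  rw [h3] at d1 e3
  rw [hF.symm 2 0, hB.b1] at e1
  rw [hF.symm 3 1] at e3
  rw [hF.symm 2 1] at f2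
  have hm := hB.bpos 2 (by norm_num) (by norm_num)
  have hq := hB.bpos 3 (by norm_num) (by norm_num)
  have ha1 := hB.αnn 1
  have ha2 := hB.αnn 2
  have ha3 := hB.αnn 3
  rw [f3, d0, d1] at r1
  rw [f3, f2] at r2
  rw [f2, d2, d1] at r4
  rw [f1, f2] at r5
  rw [f1, d3, d2] at r6

  have k1 : α 2 = b 3 * b 2 := by
    have h5 : |α 2 * F 0 2| = |b 3 * F 0 3| := by
      rw [show α 2 * F 0 2 = -(b 3 * F 0 3) by linarith, abs_neg]
    rw [abs_mul, abs_mul, e1, e2, abs_of_nonneg ha2, abs_of_pos (by omega : (0:ℤ) < b 3)] at h5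
    linarith
  have k2 : b 3 = 1 ∧ F 1 3 = -1 := by
    have h5 : b 2 * (F 1 3 + b 3 * b 3) = 0 := by
      rw [k1] at r6
      linear_combination r6
    have h6 : F 1 3 = -(b 3 * b 3) := by
      rcases mul_eq_zero.1 h5 with h | h
      · omega
      · linarith
    rw [h6, abs_neg, abs_of_nonneg (by positivity)] at e3
    have h7 : b 3 = 1 := by nlinarith
    exact ⟨h7, by rw [h6, h7]; norm_num⟩
  obtain ⟨hq1, hz⟩ := k2
  rw [hq1] at k1 r2 r3
  rw [hz] at r3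
  rw [one_mul] at k1
  refine ⟨hq1, ?_⟩
  rcases abs_eq (by norm_num : (0:ℤ) ≤ 1) |>.1 e1 with hx | hx
  · rw [hx] at r1 r2 r3
    have hs : F 0 3 = - b 2 := by linarith
    rw [hs] at r3
    obtain ⟨u1, u2⟩ := t11_two hm (by linarith : b 2 ≤ α 3) (by linarith)
    right
    refine ⟨u1, by linarith, by linarith, u2⟩
  · rw [hx] at r1 r2 r3
    have hs : F 0 3 = b 2 := by linarith
    rw [hs] at r3
    have h5 : α 3 * b 2 = 0 := by linarith
    have h6 : α 3 = 0 := by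
      rcases mul_eq_zero.1 h5 with h | h
      · exact h
      · omega
    left
    exact ⟨by linarith, k1, h6⟩

theorem T11b (hB : Base 3 α b) (hF : PathF 3 α b p F) (h0 : p 1 = 0) (h1 : p 3 = 1)
    (h2 : p 0 = 2) (h3 : p 2 = 3) :
    b 3 = 1 ∧ ((α 1 = b 2 ∧ α 2 = b 2 ∧ α 3 = 0) ∨ (b 2 = 1 ∧ α 1 = 1 ∧ α 2 = 1 ∧ α 3 = 2)) := by
  obtain ⟨r1, r2, r3, r4, r5, r6⟩ := t11_rows hB hF
  have e1 := hF.edge 1 (by norm_num) 3 (by norm_num) (by rw [h1, h0])
  have e2 := hF.edge 3 (by norm_num) 0 (by norm_num) (by rw [h2, h1])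
  have e3 := hF.edge 0 (by norm_num) 2 (by norm_num) (by rw [h3, h2])
  have f1 := hF.far 1 (by norm_num) 0 (by norm_num) (by rw [h0, h2]; norm_num)
  have f2 := hF.far 1 (by norm_num) 2 (by norm_num) (by rw [h0, h3]; norm_num)
  have f3 := hF.far 3 (by norm_num) 2 (by norm_num) (by rw [h1, h3]; norm_num)
  have d0 := hF.diag 0 (by norm_num)
  have d1 := hF.diag 1 (by norm_num)
  have d2 := hF.diag 2 (by norm_num)
  have d3 := hF.diag 3 (by norm_num)
  rw [h0, hB.α0] at d1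
  rw [h1] at d3 e1
  rw [h2] at d0 e2
  rw [h3] at d2 e3
  rw [hB.b1] at e1
  rw [hF.symm 3 0] at e2
  rw [hF.symm 1 0] at f1
  rw [hF.symm 3 2] at f3
  have hm := hB.bpos 2 (by norm_num) (by norm_num)
  have hq := hB.bpos 3 (by norm_num) (by norm_num)
  have ha1 := hB.αnn 1
  have ha2 := hB.αnn 2
  have ha3 := hB.αnn 3
  rw [f1, d0, d1] at r1
  rw [f1, f2] at r2
  rw [f2, f3] at r5
  have hx : F 0 2 = - b 3 := by
    rcases abs_eq (by omega : (0:ℤ) ≤ b 3) |>.1 e3 with h | h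
    · rw [h] at r1; nlinarith
    · exact h
  have hα2 : α 2 = b 2 * b 3 := by
    rw [hx] at r1
    linarith
  have hs : F 0 3 = b 2 * b 3 := by
    rw [hx, hα2] at r2
    have h5 : b 3 * (F 0 3 - b 2 * b 3) = 0 := by linear_combination -r2
    rcases mul_eq_zero.1 h5 with h | h
    · omega
    · linarith
  have hq1 : b 3 = 1 := by
    rw [hs, abs_of_pos (by positivity)] at e2
    nlinarith
  rw [hq1, mul_one] at hs hα2
  rw [hq1] at hx
  rw [hx, hs, hq1] at r3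
  rw [hs] at r5
  refine ⟨hq1, ?_⟩
  rcases abs_eq (by norm_num : (0:ℤ) ≤ 1) |>.1 e1 with hz | hz
  · rw [hz] at r3 r5
    obtain ⟨u1, u2⟩ := t11_two hm (by linarith : b 2 ≤ α 3) (by linarith)
    right
    exact ⟨u1, by linarith, by linarith, u2⟩
  · rw [hz] at r3 r5
    have h5 : α 3 * b 2 = 0 := by linarith
    have h6 : α 3 = 0 := by
      rcases mul_eq_zero.1 h5 with h | h
      · exact h
      · omega
    left
    exact ⟨by linarith, hα2, h6⟩

end LS
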