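import Pool.Agent.LS.Core
import Pool.Agent.LS.PT

/-! Part `T12` of the classification of self-dual Leonard systems with integral normalized
intersection numbers (MP_963a96_al). -/
open Finset
namespace LS

variable {α b : ℕ → ℤ} {p : ℕ → ℕ} {F : ℕ → ℕ → ℤ}

theorem t12_rows (hB : Base 3 α b) (hF : PathF 3 α b p F) :
    F 1 1 = F 0 0 + α 1 * F 0 1 + b 2 * F 0 2 ∧
    F 1 2 = b 2 * F 0 1 + α 2 * F 0 2 + b 3 * F 0 3 ∧
    F 1 3 = b 3 * F 0 2 + α 3 * F 0 3 ∧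
    b 2 * F 2 2 = b 2 * F 1 1 + (α 2 - α 1) * F 1 2 + b 3 * F 1 3 - F 0 2 ∧
    b 2 * F 2 3 = b 3 * F 1 2 + (α 3 - α 1) * F 1 3 - F 0 3 ∧
    b 3 * F 3 3 = b 3 * F 2 2 + (α 3 - α 2) * F 2 3 - b 2 * F 1 3 := by
  have h1 := hF.recur0 hB 1 (by norm_num)
  have h2 := hF.recur0 hB 2 (by norm_num)
  have h3 := hF.recur0 hB 3 (by norm_num)
  have h4 := hF.recur1 hB 2 (by norm_num)
  have h5 := hF.recur1 hB 3 (by norm_num)
  have h6 := hF.recurk hB 2 (by norm_num) 3 (by norm_num)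
  have hb4 : b 4 = 0 := hB.bout 4 (by norm_num)
  have hb1 := hB.b1
  norm_num at h1 h2 h3 h4 h5 h6
  rw [hb4] at h3 h5 h6
  rw [hb1] at h1
  refine ⟨by linarith, by linarith, by linarith, by linarith, by linarith, by linarith⟩

theorem T12a (hB : Base 3 α b) (hF : PathF 3 α b p F) (h0 : p 3 = 0) (h1 : p 0 = 1)
    (h2 : p 2 = 2) (h3 : p 1 = 3) :
    b 3 = 1 ∧ α 2 = 0 ∧ α 3 = b 2 ∧ (α 1 = b 2 ^ 2 + b 2 ∨ (b 2 = 1 ∧ α 1 = 0)) := by
  obtain ⟨r1, r2, r3, r4, r5, r6⟩ := t12_rows hB hF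
  have e1 := hF.edge 3 (by norm_num) 0 (by norm_num) (by rw [h1, h0])
  have e2 := hF.edge 0 (by norm_num) 2 (by norm_num) (by rw [h2, h1])
  have e3 := hF.edge 2 (by norm_num) 1 (by norm_num) (by rw [h3, h2])
  have f1 := hF.far 3 (by norm_num) 2 (by norm_num) (by rw [h0, h2]; norm_num)
  have f2 := hF.far 3 (by norm_num) 1 (by norm_num) (by rw [h0, h3]; norm_num)
  have f3 := hF.far 0 (by norm_num) 1 (by norm_num) (by rw [h1, h3]; norm_num)
  have d0 := hF.diag 0 (by norm_num)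
  have d1 := hF.diag 1 (by norm_num)
  have d2 := hF.diag 2 (by norm_num)
  have d3 := hF.diag 3 (by norm_num)
  rw [h0, hB.α0] at d3
  rw [h1] at d0 e1
  rw [h2] at d2 e2
  rw [h3] at d1 e3
  rw [hF.symm 3 0, hB.b1] at e1
  rw [hF.symm 2 1] at e3
  rw [hF.symm 3 2] at f1
  rw [hF.symm 3 1] at f2
  have hm := hB.bpos 2 (by norm_num) (by norm_num)
  have hq := hB.bpos 3 (by norm_num) (by norm_num)
  have ha1 := hB.αnn 1
  have ha2 := hB.αnn 2
  have ha3 := hB.αnn 3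
  rw [f3, d0, d1] at r1
  rw [f3] at r2
  rw [f2] at r3 r4 r5 r6
  rw [d2, d1] at r4
  rw [f1] at r5 r6
  rw [d3, d2] at r6
  have hα2 : α 2 = 0 := by
    have : b 3 * α 2 = 0 := by linarith
    rcases mul_eq_zero.1 this with h | h
    · omega
    · exact h
  rw [hα2] at r2 r4
  have hqz : b 3 * F 1 2 = F 0 3 := by linarith
  have hq1 : b 3 = 1 := by
    have h5 : |b 3 * F 1 2| = b 3 * b 3 := by
      rw [abs_mul, e3, abs_of_pos (by omega)]
    rw [hqz, e1] at h5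
    nlinarith
  rw [hq1] at r2 r3 r4 hqz e3
  have hx : |F 0 2| = b 2 := e2
  rcases abs_eq (by norm_num : (0:ℤ) ≤ 1) |>.1 e1 with hy | hy
  · rw [hy] at r2 r3 hqz
    have hx1 : F 0 2 = - α 3 := by linarith
    have hx2 : α 3 = b 2 := by
      rw [hx1, abs_neg, abs_of_nonneg ha3] at hx
      exact hx
    refine ⟨hq1, hα2, hx2, Or.inl ?_⟩
    have hz : F 1 2 = 1 := by linarith
    rw [hz, hx1, hx2] at r4
    nlinarith
  · rw [hy] at r2 r3 hqz
    have hx1 : F 0 2 = α 3 := by linarith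
    have hx2 : α 3 = b 2 := by
      rw [hx1, abs_of_nonneg ha3] at hx
      exact hx
    have hz : F 1 2 = -1 := by linarith
    rw [hz, hx1, hx2] at r4
    have h7 : α 1 = b 2 - b 2 * b 2 := by linarith
    have h8 : b 2 = 1 := by nlinarith
    refine ⟨hq1, hα2, hx2, Or.inr ⟨h8, ?_⟩⟩
    rw [h7, h8]; norm_num

theorem T12b (hB : Base 3 α b) (hF : PathF 3 α b p F) (h0 : p 1 = 0) (h1 : p 2 = 1)
    (h2 : p 0 = 2) (h3 : p 3 = 3) :
    b 3 ^ 2 = b 2 ^ 3 + 1 ∧ α 1 = b 2 ∧ α 2 = b 2 ^ 2 ∧ α 3 = b 2 := by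
  obtain ⟨r1, r2, r3, r4, r5, r6⟩ := t12_rows hB hF
  have e1 := hF.edge 1 (by norm_num) 2 (by norm_num) (by rw [h1, h0])
  have e2 := hF.edge 2 (by norm_num) 0 (by norm_num) (by rw [h2, h1])
  have e3 := hF.edge 0 (by norm_num) 3 (by norm_num) (by rw [h3, h2])
  have f1 := hF.far 1 (by norm_num) 0 (by norm_num) (by rw [h0, h2]; norm_num)
  have f2 := hF.far 1 (by norm_num) 3 (by norm_num) (by rw [h0, h3]; norm_num)
  have f3 := hF.far 2 (by norm_num) 3 (by norm_num) (by rw [h1, h3]; norm_num)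
  have d0 := hF.diag 0 (by norm_num)
  have d1 := hF.diag 1 (by norm_num)
  have d2 := hF.diag 2 (by norm_num)
  have d3 := hF.diag 3 (by norm_num)
  rw [h0, hB.α0] at d1
  rw [h1] at d2 e1
  rw [h2] at d0 e2
  rw [h3] at d3 e3
  rw [hB.b1] at e1
  rw [hF.symm 2 0] at e2
  rw [hF.symm 1 0] at f1
  have hm := hB.bpos 2 (by norm_num) (by norm_num)
  have hq := hB.bpos 3 (by norm_num) (by norm_num)
  have ha1 := hB.αnn 1
  have ha2 := hB.αnn 2
  have ha3 := hB.αnn 3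
  rw [f1, d0, d1] at r1
  rw [f1] at r2
  rw [f2] at r3 r4 r5 r6
  rw [d2, d1] at r4
  rw [f3] at r5 r6
  rw [d3, d2] at r6
  have h31 : α 3 = α 1 := by
    have : b 3 * (α 3 - α 1) = 0 := by linarith
    rcases mul_eq_zero.1 this with h | h
    · omega
    · linarith
  have hx : F 0 2 = - b 2 := by
    rcases abs_eq (by omega : (0:ℤ) ≤ b 2) |>.1 e2 with h | h
    · rw [h] at r1; nlinarith
    · exact h
  have hy : F 0 3 = b 3 * F 1 2 := by linarith
  have hα2 : α 2 = b 2 ^ 2 := by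
    rw [hx] at r1
    nlinarith
  rcases abs_eq (by norm_num : (0:ℤ) ≤ 1) |>.1 e1 with hz | hz
  · rw [hz] at hy r2
    rw [hy, hx] at r3
    have h5 : b 3 * (α 3 - b 2) = 0 := by linarith
    have h6 : α 3 = b 2 := by
      rcases mul_eq_zero.1 h5 with h | h
      · omega
      · linarith
    refine ⟨?_, by rw [← h31]; exact h6, hα2, h6⟩
    rw [hy, hx, hα2] at r2
    linear_combination -r2
  · rw [hz] at hy r2
    rw [hy, hx] at r3
    have h5 : b 3 * (α 3 + b 2) = 0 := by linarith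
    rcases mul_eq_zero.1 h5 with h | h
    · omega
    · omega

end LS
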