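import Pool.Agent.LS.Core
import Pool.Agent.LS.PT

/-! Part `T3` of the classification of self-dual Leonard systems with integral normalized
intersection numbers (MP_963a96_al). -/
open Finset
namespace LS

variable {α b : ℕ → ℤ} {p : ℕ → ℕ} {F : ℕ → ℕ → ℤ}

theorem t3_rows (hB : Base 3 α b) (hF : PathF 3 α b p F) :
    F 1 1 = F 0 0 + α 1 * F 0 1 + b 2 * F 0 2 ∧ F 1 2 = b 2 * F 0 1 + α 2 * F 0 2 + b 3 * F 0 3 ∧
      F 1 3 = b 3 * F 0 2 + α 3 * F 0 3 ∧
      b 2 * F 2 2 = b 2 * F 1 1 + (α 2 - α 1) * F 1 2 + b 3 * F 1 3 - F 0 2 ∧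
      b 2 * F 2 3 = b 3 * F 1 2 + (α 3 - α 1) * F 1 3 - F 0 3 := by
  have b1 := hB.b1
  have b4 : b 4 = 0 := hB.bout 4 (by norm_num)
  have r1 := PathF.recur0 hB hF 1 (by norm_num)
  have r2 := PathF.recur0 hB hF 2 (by norm_num)
  have r3 := PathF.recur0 hB hF 3 (by norm_num)
  have r4 := PathF.recur1 hB hF 2 (by norm_num)
  have r5 := PathF.recur1 hB hF 3 (by norm_num)
  norm_num at r1 r2 r3 r4 r5
  rw [b1, one_mul] at r1
  rw [b4, zero_mul, add_zero] at r3 r5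
  exact ⟨r1, r2, r3, r4, r5⟩

theorem t3_far (hF : PathF 3 α b p F) {u v : ℕ} (hu : u ≤ 3) (hv : v ≤ 3) (h : p v + 1 < p u) :
    F u v = 0 := by
  rw [hF.symm]
  exact hF.far v hv u hu h

theorem t3_edge (hF : PathF 3 α b p F) {u v : ℕ} (hu : u ≤ 3) (hv : v ≤ 3) (h : p u = p v + 1) :
    |F u v| = b (p u) := by
  rw [hF.symm]
  exact hF.edge v hv u hu h

theorem T3a (hB : Base 3 α b) (hF : PathF 3 α b p F) (h0 : p 0 = 0) (h1 : p 1 = 2)
    (h2 : p 2 = 1) (h3 : p 3 = 3) :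
    α 2 = b 2 ∧ α 1 = b 2 + α 3 ∧ b 3 ^ 2 = 1 + 2 * b 2 * α 3 := by
  obtain ⟨r1, r2, r3, r4, r5⟩ := t3_rows hB hF
  have hm := hB.bpos 2 (by norm_num) (by norm_num)
  have hq := hB.bpos 3 (by norm_num) (by norm_num)
  have f01 : F 0 1 = 0 := hF.far 0 (by norm_num) 1 (by norm_num) (by omega)
  have f03 : F 0 3 = 0 := hF.far 0 (by norm_num) 3 (by norm_num) (by omega)
  have f23 : F 2 3 = 0 := hF.far 2 (by norm_num) 3 (by norm_num) (by omega)
  have d0 := hF.diag 0 (by norm_num)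
  have d1 := hF.diag 1 (by norm_num)
  have d2 := hF.diag 2 (by norm_num)
  have e02 := hF.edge 0 (by norm_num) 2 (by norm_num) (by omega)
  rw [h0, hB.α0] at d0
  rw [h1] at d1
  rw [h2] at d2
  rw [h2, hB.b1] at e02
  have a2 := hB.αnn 2
  rw [f01, d0] at r1
  rw [f01, f03] at r2
  rw [f03] at r3
  rw [d2] at r4
  rw [f23, f03] at r5
  rcases abs_cases (F 0 2) with ⟨e, _⟩ | ⟨e, _⟩
  · rw [e] at e02
    rw [e02] at r1 r2 r3 r4
    have h5 : α 2 = b 2 := by linarith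
    have f12 : F 1 2 = b 2 := by linarith
    have f13 : F 1 3 = b 3 := by linarith
    have h6 : b 3 * (α 1 - (b 2 + α 3)) = 0 := by
      rw [f12, f13] at r5
      linarith
    have h7 : α 1 = b 2 + α 3 := by
      rcases mul_eq_zero.1 h6 with h | h
      · omega
      · linarith
    refine ⟨h5, h7, ?_⟩
    rw [d1, f12, f13, h5, h7] at r4
    nlinarith
  · exfalso
    rw [e] at e02
    have h5 : F 0 2 = -1 := by linarith
    rw [h5] at r1
    linarith

theorem T3b (hB : Base 3 α b) (hF : PathF 3 α b p F) (h0 : p 0 = 3) (h1 : p 1 = 1)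
    (h2 : p 2 = 2) (h3 : p 3 = 0) : α 2 = b 2 ∧ α 1 = b 2 + α 3 ∧ b 3 = 1 := by
  obtain ⟨r1, r2, r3, r4, r5⟩ := t3_rows hB hF
  have hm := hB.bpos 2 (by norm_num) (by norm_num)
  have hq := hB.bpos 3 (by norm_num) (by norm_num)
  have f01 : F 0 1 = 0 := t3_far hF (by norm_num) (by norm_num) (by omega)
  have f03 : F 0 3 = 0 := t3_far hF (by norm_num) (by norm_num) (by omega)
  have f23 : F 2 3 = 0 := t3_far hF (by norm_num) (by norm_num) (by omega)
  have e13 : |F 1 3| = b (p 1) := t3_edge hF (by norm_num) (by norm_num) (by omega)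
  have e12 := hF.edge 1 (by norm_num) 2 (by norm_num) (by omega)
  rw [h1, hB.b1] at e13
  rw [h2] at e12
  have a2 := hB.αnn 2
  rw [f01, f03] at r2
  rw [f03] at r3
  rw [f23, f03] at r5
  have r2' : F 1 2 = α 2 * F 0 2 := by linarith
  have r3' : F 1 3 = b 3 * F 0 2 := by linarith
  rw [r3', abs_mul, abs_of_pos (by omega : 0 < b 3)] at e13
  rw [r2', abs_mul, abs_of_nonneg a2] at e12
  have hs : 1 ≤ |F 0 2| := by
    by_contra hcon
    have h5 : |F 0 2| ≤ 0 := by omega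
    have h6 : |F 0 2| = 0 := le_antisymm h5 (abs_nonneg _)
    rw [h6, mul_zero] at e13
    omega
  have hq1 : b 3 = 1 := by nlinarith
  rw [hq1, one_mul] at e13
  rw [e13, mul_one] at e12
  have hs0 : F 0 2 ≠ 0 := by
    intro h
    rw [h, abs_zero] at e13
    omega
  refine ⟨e12, ?_, hq1⟩
  rw [r2', r3', hq1] at r5
  have h6 : (α 2 + α 3 - α 1) * F 0 2 = 0 := by linarith
  rcases mul_eq_zero.1 h6 with h | h
  · rw [← e12]
    linarith
  · exact absurd h hs0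

theorem T7a (hB : Base 3 α b) (hF : PathF 3 α b p F)
    (h : (p 0 = 0 ∧ p 1 = 1 ∧ p 3 = 2 ∧ p 2 = 3) ∨ (p 2 = 0 ∧ p 3 = 1 ∧ p 1 = 2 ∧ p 0 = 3)) :
    False := by
  obtain ⟨r1, r2, r3, r4, r5⟩ := t3_rows hB hF
  have hm := hB.bpos 2 (by norm_num) (by norm_num)
  have key : F 0 1 ≠ 0 ∧ F 0 2 = 0 ∧ F 0 3 = 0 ∧ F 1 2 = 0 := by
    rcases h with ⟨h0, h1, h3, h2⟩ | ⟨h2, h3, h1, h0⟩
    · refine ⟨PathF.ne_zero hB hF (by norm_num) (by norm_num) (by omega),
        hF.far 0 (by norm_num) 2 (by norm_num) (by omega),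
        hF.far 0 (by norm_num) 3 (by norm_num) (by omega),
        hF.far 1 (by norm_num) 2 (by norm_num) (by omega)⟩
    · refine ⟨?_, t3_far hF (by norm_num) (by norm_num) (by omega),
        t3_far hF (by norm_num) (by norm_num) (by omega),
        t3_far hF (by norm_num) (by norm_num) (by omega)⟩
      rw [hF.symm]
      exact PathF.ne_zero hB hF (by norm_num) (by norm_num) (by omega)
  obtain ⟨k1, k2, k3, k4⟩ := key
  rw [k2, k3, k4, mul_zero, mul_zero, add_zero, add_zero] at r2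
  rcases mul_eq_zero.1 r2.symm with h5 | h5
  · omega
  · exact k1 h5

theorem T7b (hB : Base 3 α b) (hF : PathF 3 α b p F)
    (h : (p 1 = 0 ∧ p 0 = 1 ∧ p 2 = 2 ∧ p 3 = 3) ∨ (p 3 = 0 ∧ p 2 = 1 ∧ p 0 = 2 ∧ p 1 = 3)) :
    False := by
  obtain ⟨r1, r2, r3, r4, r5⟩ := t3_rows hB hF
  have hq := hB.bpos 3 (by norm_num) (by norm_num)
  have key : F 0 2 ≠ 0 ∧ F 0 3 = 0 ∧ F 1 3 = 0 := by
    rcases h with ⟨h1, h0, h2, h3⟩ | ⟨h3, h2, h0, h1⟩
    · refine ⟨PathF.ne_zero hB hF (by norm_num) (by norm_num) (by omega),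
        hF.far 0 (by norm_num) 3 (by norm_num) (by omega),
        hF.far 1 (by norm_num) 3 (by norm_num) (by omega)⟩
    · refine ⟨?_, t3_far hF (by norm_num) (by norm_num) (by omega),
        t3_far hF (by norm_num) (by norm_num) (by omega)⟩
      rw [hF.symm]
      exact PathF.ne_zero hB hF (by norm_num) (by norm_num) (by omega)
  obtain ⟨k1, k2, k3⟩ := key
  rw [k2, k3, mul_zero, add_zero] at r3
  rcases mul_eq_zero.1 r3.symm with h5 | h5
  · omega
  · exact k1 h5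

end LS
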