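import Pool.Agent.LS.Core
import Pool.Agent.LS.PT

/-! Part `T4` of the classification of self-dual Leonard systems with integral normalized
intersection numbers (MP_963a96_al). -/
open Finset
namespace LS

variable {α b : ℕ → ℤ} {p : ℕ → ℕ} {F : ℕ → ℕ → ℤ}

theorem t4_cube (m q : ℤ) (hm : 1 ≤ m) (hq : 1 ≤ q) (h : (q ^ 2 - 1) * q = m ^ 3) : False := by
  have h1 : m < q := by
    by_contra hc
    push Not at hc
    have : q ^ 3 ≤ m ^ 3 := pow_le_pow_left₀ (by linarith) hc 3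
    nlinarith
  have h2 : m ≤ q - 1 := by linarith
  have h3 : m ^ 3 ≤ (q - 1) ^ 3 := pow_le_pow_left₀ (by linarith) h2 3
  nlinarith

theorem T4a (hB : Base 3 α b) (hF : PathF 3 α b p F) (h0 : p 0 = 0) (h1 : p 2 = 1)
    (h2 : p 3 = 2) (h3 : p 1 = 3) : False := by
  have hm : 1 ≤ b 2 := hB.bpos 2 (by norm_num) (by norm_num)
  have hq : 1 ≤ b 3 := hB.bpos 3 (by norm_num) (by norm_num)
  have b1 := hB.b1
  have hb4 : b 4 = 0 := hB.bout 4 (by norm_num)
  have a0 := hB.α0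
  have F03 : F 0 3 = 0 := hF.far 0 (by norm_num) 3 (by norm_num) (by rw [h0, h2]; norm_num)
  have F01 : F 0 1 = 0 := hF.far 0 (by norm_num) 1 (by norm_num) (by rw [h0, h3]; norm_num)
  have F21 : F 2 1 = 0 := hF.far 2 (by norm_num) 1 (by norm_num) (by rw [h1, h3]; norm_num)
  have F12 : F 1 2 = 0 := by rw [hF.symm]; exact F21
  have e02 : |F 0 2| = b (p 2) := hF.edge 0 (by norm_num) 2 (by norm_num) (by rw [h0, h1])
  have e23 : |F 2 3| = b (p 3) := hF.edge 2 (by norm_num) 3 (by norm_num) (by rw [h1, h2])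
  have F00 : F 0 0 = α (p 0) := hF.diag 0 (by norm_num)
  have F22 : F 2 2 = α (p 2) := hF.diag 2 (by norm_num)
  have F11 : F 1 1 = α (p 1) := hF.diag 1 (by norm_num)
  rw [h0, a0] at F00
  rw [h1] at F22 e02
  rw [h2] at e23
  rw [h3] at F11
  rw [b1] at e02
  have r1 := hF.recur0 hB 1 (by norm_num)
  have r2 := hF.recur0 hB 2 (by norm_num)
  have r3 := hF.recur0 hB 3 (by norm_num)
  have s2 := hF.recur1 hB 2 (by norm_num)
  have s3 := hF.recur1 hB 3 (by norm_num)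
  norm_num at r1 r2 r3 s2 s3
  rw [F00, F01, F11, b1] at r1
  rw [F12, F01, F03] at r2
  rw [F03, hb4] at r3
  rw [F12, F22] at s2
  rw [F12, hb4, F03] at s3
  have p3 : 0 ≤ α 3 := hB.αnn 3
  have hs : F 0 2 = 1 := by
    rcases abs_eq (by norm_num : (0:ℤ) ≤ 1) |>.1 e02 with h | h
    · exact h
    · exfalso; rw [h] at r1; linarith
  rw [hs] at r1 r2 r3 s2
  have a3 : α 3 = b 2 := by linarith
  have f13 : F 1 3 = b 3 := by linarith
  rw [f13] at s2 s3
  rw [a3] at s3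
  rw [F11, a3] at s2
  have hsq : (F 2 3) ^ 2 = (b 2) ^ 2 := by rw [← sq_abs, e23]
  have k1 : b 2 * α 1 = b 2 ^ 2 + b 3 ^ 2 - 1 := by nlinarith
  have k2 : b 2 * F 2 3 = (b 2 - α 1) * b 3 := by linarith
  have k3 : b 2 ^ 2 * F 2 3 = - ((b 3 ^ 2 - 1) * b 3) := by
    have : b 2 * (b 2 * F 2 3) = (b 2 ^ 2 - b 2 * α 1) * b 3 := by rw [k2]; ring
    rw [k1] at this
    linarith
  have k4 : ((b 3 ^ 2 - 1) * b 3) ^ 2 = (b 2 ^ 3) ^ 2 := by
    have : (b 2 ^ 2 * F 2 3) ^ 2 = ((b 3 ^ 2 - 1) * b 3) ^ 2 := by rw [k3]; ring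
    rw [← this, mul_pow, hsq]; ring
  have q2 : 0 ≤ (b 3 ^ 2 - 1) * b 3 := by
    apply mul_nonneg
    · nlinarith
    · linarith
  have m3 : 0 < b 2 ^ 3 := by positivity
  have k5 : (b 3 ^ 2 - 1) * b 3 = b 2 ^ 3 := by
    nlinarith
  exact t4_cube (b 2) (b 3) hm hq k5

theorem T4b (hB : Base 3 α b) (hF : PathF 3 α b p F) (h0 : p 1 = 0) (h1 : p 3 = 1)
    (h2 : p 2 = 2) (h3 : p 0 = 3) :
    b 3 = 1 ∧ α 2 = 0 ∧ α 3 = b 2 ∧ (α 1 = b 2 ^ 2 + b 2 ∨ (b 2 = 1 ∧ α 1 = 0)) := by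
  have hm : 1 ≤ b 2 := hB.bpos 2 (by norm_num) (by norm_num)
  have hq : 1 ≤ b 3 := hB.bpos 3 (by norm_num) (by norm_num)
  have b1 := hB.b1
  have hb4 : b 4 = 0 := hB.bout 4 (by norm_num)
  have a0 := hB.α0
  have F10 : F 1 0 = 0 := hF.far 1 (by norm_num) 0 (by norm_num) (by rw [h0, h3]; norm_num)
  have F12 : F 1 2 = 0 := hF.far 1 (by norm_num) 2 (by norm_num) (by rw [h0, h2]; norm_num)
  have F30 : F 3 0 = 0 := hF.far 3 (by norm_num) 0 (by norm_num) (by rw [h1, h3]; norm_num)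
  have F01 : F 0 1 = 0 := by rw [hF.symm]; exact F10
  have F03 : F 0 3 = 0 := by rw [hF.symm]; exact F30
  have e13 : |F 1 3| = b (p 3) := hF.edge 1 (by norm_num) 3 (by norm_num) (by rw [h0, h1])
  have e32 : |F 3 2| = b (p 2) := hF.edge 3 (by norm_num) 2 (by norm_num) (by rw [h1, h2])
  have e20 : |F 2 0| = b (p 0) := hF.edge 2 (by norm_num) 0 (by norm_num) (by rw [h2, h3])
  have F00 : F 0 0 = α (p 0) := hF.diag 0 (by norm_num)
  have F22 : F 2 2 = α (p 2) := hF.diag 2 (by norm_num)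
  have F11 : F 1 1 = α (p 1) := hF.diag 1 (by norm_num)
  have F33 : F 3 3 = α (p 3) := hF.diag 3 (by norm_num)
  rw [h3] at F00 e20
  rw [h2] at F22 e32
  rw [h1] at F33 e13
  rw [h0, a0] at F11
  rw [b1] at e13
  rw [hF.symm 3 2] at e32
  rw [hF.symm 2 0] at e20
  have r1 := hF.recur0 hB 1 (by norm_num)
  have r2 := hF.recur0 hB 2 (by norm_num)
  have r3 := hF.recur0 hB 3 (by norm_num)
  have s2 := hF.recur1 hB 2 (by norm_num)
  have s3 := hF.recur1 hB 3 (by norm_num)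
  norm_num at r1 r2 r3 s2 s3
  rw [F00, F01, F11, b1] at r1
  rw [F12, F01, F03] at r2
  rw [F03, hb4] at r3
  rw [F12, F22, F11] at s2
  rw [F12, hb4, F03] at s3
  have p3 : 0 ≤ α 3 := hB.αnn 3
  have p1 : 0 ≤ α 1 := hB.αnn 1
  have s0 : F 0 2 ≠ 0 := by
    intro h; rw [h] at e20; norm_num at e20; linarith
  have a2 : α 2 = 0 := by
    have : α 2 * F 0 2 = 0 := by linarith
    rcases mul_eq_zero.1 this with h | h
    · exact h
    · exact absurd h s0
  have f13 : F 1 3 = b 3 * F 0 2 := by linarith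
  have abss : |F 1 3| = b 3 * |F 0 2| := by rw [f13, abs_mul, abs_of_nonneg (by linarith)]
  have q1 : b 3 = 1 := by
    rw [e13, e20] at abss
    nlinarith
  rw [q1] at e20
  have hs : F 0 2 = -1 := by
    rcases abs_eq (by norm_num : (0:ℤ) ≤ 1) |>.1 e20 with h | h
    · exfalso; rw [h] at r1; linarith
    · exact h
  rw [hs] at r1 f13
  have a3 : α 3 = b 2 := by linarith
  rw [q1] at f13
  have f13' : F 1 3 = -1 := by linarith
  rw [f13', a3] at s3
  have k2 : b 2 * F 2 3 = α 1 - b 2 := by linarith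
  refine ⟨q1, a2, a3, ?_⟩
  rcases abs_eq (by linarith : (0:ℤ) ≤ b 2) |>.1 e32 with h | h
  · left; rw [h] at k2; linarith
  · right
    rw [h] at k2
    have hm1 : b 2 = 1 := by nlinarith
    refine ⟨hm1, ?_⟩
    rw [hm1] at k2
    linarith

end LS
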