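import Pool.Agent.LS.Core
import Pool.Agent.LS.PT

/-! Part `T5` of the classification of self-dual Leonard systems with integral normalized
intersection numbers (MP_963a96_al). -/
open Finset
namespace LS

variable {α b : ℕ → ℤ} {p : ℕ → ℕ} {F : ℕ → ℕ → ℤ}

theorem t5_rows (hB : Base 3 α b) (hF : PathF 3 α b p F) :
    F 1 1 = F 0 0 + α 1 * F 0 1 + b 2 * F 0 2 ∧
    F 1 2 = b 2 * F 0 1 + α 2 * F 0 2 + b 3 * F 0 3 ∧
    F 1 3 = b 3 * F 0 2 + α 3 * F 0 3 ∧
    b 2 * F 2 2 = b 2 * F 1 1 + (α 2 - α 1) * F 1 2 + b 3 * F 1 3 - F 0 2 ∧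
    b 2 * F 2 3 = b 3 * F 1 2 + (α 3 - α 1) * F 1 3 - F 0 3 ∧
    b 3 * F 3 3 = b 3 * F 2 2 + (α 3 - α 2) * F 2 3 - b 2 * F 1 3 := by
  have h1 := hF.recur0 hB 1 (by norm_num)
  have h2 := hF.recur0 hB 2 (by norm_num)
  have h3 := hF.recur0 hB 3 (by norm_num)
  have h4 := hF.recur1 hB 2 (by norm_num)
  have h5 := hF.recur1 hB 3 (by norm_num)
  have h6 := hF.recurk hB 2 (by norm_num) 3 (by norm_num)
  have hb4 : b 4 = 0 := hB.bout 4 (by norm_num)
  have hb1 := hB.b1
  have e32 := hF.symm 3 2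
  norm_num at h1 h2 h3 h4 h5 h6
  rw [hb4] at h3 h5 h6
  rw [hb1] at h1
  refine ⟨by linarith, by linarith, by linarith, by linarith, by linarith, ?_⟩
  linarith

theorem t5_abs {x m s : ℤ} (hx : 0 ≤ x) (hs : s = 1 ∨ s = -1) (h : |x * s| = m) : x = m := by
  rcases hs with h1 | h1
  · rw [h1, mul_one, abs_of_nonneg hx] at h
    exact h
  · rw [h1, mul_neg, mul_one, abs_neg, abs_of_nonneg hx] at h
    exact h

theorem T5a (hB : Base 3 α b) (hF : PathF 3 α b p F) (h0 : p 0 = 0) (h1 : p 3 = 1)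
    (h2 : p 1 = 2) (h3 : p 2 = 3) : False := by
  obtain ⟨r1, r2, r3, r4, r5, r6⟩ := t5_rows hB hF
  have f01 : F 0 1 = 0 := hF.far 0 (by norm_num) 1 (by norm_num) (by omega)
  have f02 : F 0 2 = 0 := hF.far 0 (by norm_num) 2 (by norm_num) (by omega)
  have f32 : F 3 2 = 0 := hF.far 3 (by norm_num) 2 (by norm_num) (by omega)
  have f23 : F 2 3 = 0 := by rw [hF.symm]; exact f32
  have e03 := hF.edge 0 (by norm_num) 3 (by norm_num) (by omega)
  have e31 := hF.edge 3 (by norm_num) 1 (by norm_num) (by omega)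
  have g0 := hF.diag 0 (by norm_num)
  have g1 := hF.diag 1 (by norm_num)
  have g2 := hF.diag 2 (by norm_num)
  have hα0 := hB.α0
  have hb1 := hB.b1
  have hm := hB.bpos 2 (by norm_num) (by norm_num)
  have hq := hB.bpos 3 (by norm_num) (by norm_num)
  have ha1 := hB.αnn 1
  have ha3 := hB.αnn 3
  rw [h1, hb1] at e03
  rw [h2, hF.symm] at e31
  rw [h0, hα0] at g0
  rw [h2] at g1
  rw [h3] at g2
  rw [f01, f02, g0, g1] at r1
  rw [f01, f02] at r2
  rw [f02] at r3
  rw [f02] at r4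
  rw [f23] at r5
  have hs : F 0 3 = 1 ∨ F 0 3 = -1 := by
    rcases abs_eq (zero_le_one (α := ℤ)) |>.1 e03 with h | h
    · exact Or.inl h
    · exact Or.inr h
  have r3' : F 1 3 = α 3 * F 0 3 := by linarith
  have r2' : F 1 2 = b 3 * F 0 3 := by linarith
  rw [r3'] at e31
  have hα3 : α 3 = b 2 := t5_abs ha3 hs e31
  have hα2 : α 2 = 0 := by linarith
  rw [r2', r3', hα3] at r5
  rw [r2', r3', g1, g2, hα3, hα2] at r4
  generalize F 0 3 = s at *
  generalize b 2 = m at *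
  generalize b 3 = q at *
  generalize α 1 = a at *
  rcases hs with rfl | rfl
  · have k1 : q ^ 2 - 1 + m ^ 2 - a * m = 0 := by linarith
    have k2 : m ^ 2 = q * (m - a) := by linarith
    have k3 : m ^ 3 = q * (1 - q ^ 2) := by
      have : m ^ 3 = m * (q * (m - a)) := by rw [← k2]; ring
      rw [this]
      linear_combination q * k1
    have k4 : 0 < m ^ 3 := by positivity
    have k5 : 0 ≤ q * (q ^ 2 - 1) := by
      have : 0 ≤ q ^ 2 - 1 := by nlinarith
      positivity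
    linarith
  · have k1 : q ^ 2 - 1 + m ^ 2 - a * m = 0 := by linarith
    have k2 : m ^ 2 = - (q * (m - a)) := by linarith
    have k3 : m ^ 3 = q ^ 3 - q := by
      have : m ^ 3 = m * (- (q * (m - a))) := by rw [← k2]; ring
      rw [this]
      linear_combination -q * k1
    have k4 : 0 < m ^ 3 := by positivity
    have k6 : 2 ≤ q := by
      by_contra hc
      have : q = 1 := by omega
      rw [this] at k3
      norm_num at k3
      omega
    have k7 : m < q := lt_of_pow_lt_pow_left₀ 3 (by omega) (by linarith)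
    have k8 : q - 1 < m := by
      refine lt_of_pow_lt_pow_left₀ 3 (by omega) ?_
      rw [k3]
      nlinarith
    omega

theorem T5b (hB : Base 3 α b) (hF : PathF 3 α b p F) (h0 : p 2 = 0) (h1 : p 1 = 1)
    (h2 : p 3 = 2) (h3 : p 0 = 3) :
    b 3 = 1 ∧ α 1 = b 2 ∧ α 2 = b 2 ^ 2 ∧ α 3 = b 2 := by
  obtain ⟨r1, r2, r3, r4, r5, r6⟩ := t5_rows hB hF
  have f23 : F 2 3 = 0 := hF.far 2 (by norm_num) 3 (by norm_num) (by omega)
  have f20 : F 2 0 = 0 := hF.far 2 (by norm_num) 0 (by norm_num) (by omega)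
  have f10 : F 1 0 = 0 := hF.far 1 (by norm_num) 0 (by norm_num) (by omega)
  have f02 : F 0 2 = 0 := by rw [hF.symm]; exact f20
  have f01 : F 0 1 = 0 := by rw [hF.symm]; exact f10
  have e21 := hF.edge 2 (by norm_num) 1 (by norm_num) (by omega)
  have e13 := hF.edge 1 (by norm_num) 3 (by norm_num) (by omega)
  have e30 := hF.edge 3 (by norm_num) 0 (by norm_num) (by omega)
  have g0 := hF.diag 0 (by norm_num)
  have g1 := hF.diag 1 (by norm_num)
  have g2 := hF.diag 2 (by norm_num)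
  have hα0 := hB.α0
  have hb1 := hB.b1
  have hm := hB.bpos 2 (by norm_num) (by norm_num)
  have hq := hB.bpos 3 (by norm_num) (by norm_num)
  have ha2 := hB.αnn 2
  have ha3 := hB.αnn 3
  rw [h1, hb1, hF.symm] at e21
  rw [h2] at e13
  rw [h3, hF.symm] at e30
  rw [h3] at g0
  rw [h1] at g1
  rw [h0, hα0] at g2
  rw [f01, f02, g0, g1] at r1
  rw [f01, f02] at r2
  rw [f02] at r3
  rw [f02] at r4
  have r3' : F 1 3 = α 3 * F 0 3 := by linarith
  have r2' : F 1 2 = b 3 * F 0 3 := by linarith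
  rw [r2', abs_mul, e30, abs_of_pos (by omega : 0 < b 3)] at e21
  have hq1 : b 3 = 1 := by nlinarith
  rw [hq1] at e30
  have hs : F 0 3 = 1 ∨ F 0 3 = -1 := by
    rcases abs_eq (zero_le_one (α := ℤ)) |>.1 e30 with h | h
    · exact Or.inl h
    · exact Or.inr h
  rw [r3'] at e13
  have hα3 : α 3 = b 2 := t5_abs ha3 hs e13
  have hα1 : α 1 = b 2 := by linarith
  rw [r2', r3', g1, g2, hα3, hα1, hq1] at r4
  refine ⟨hq1, hα1, ?_, hα3⟩
  rcases hs with h | h
  · rw [h] at r4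
    nlinarith
  · rw [h] at r4
    linarith

theorem T6a (hB : Base 3 α b) (hF : PathF 3 α b p F) (h0 : p 0 = 0) (h1 : p 3 = 1)
    (h2 : p 2 = 2) (h3 : p 1 = 3) : False := by
  obtain ⟨r1, r2, r3, r4, r5, r6⟩ := t5_rows hB hF
  have f02 : F 0 2 = 0 := hF.far 0 (by norm_num) 2 (by norm_num) (by omega)
  have f01 : F 0 1 = 0 := hF.far 0 (by norm_num) 1 (by norm_num) (by omega)
  have f31 : F 3 1 = 0 := hF.far 3 (by norm_num) 1 (by norm_num) (by omega)
  have f13 : F 1 3 = 0 := by rw [hF.symm]; exact f31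
  have e03 := hF.edge 0 (by norm_num) 3 (by norm_num) (by omega)
  have e32 := hF.edge 3 (by norm_num) 2 (by norm_num) (by omega)
  have hb1 := hB.b1
  have hm := hB.bpos 2 (by norm_num) (by norm_num)
  have hq := hB.bpos 3 (by norm_num) (by norm_num)
  rw [h1, hb1] at e03
  rw [h2, hF.symm] at e32
  rw [f01, f02] at r2
  have hs : F 0 3 = 1 ∨ F 0 3 = -1 := by
    rcases abs_eq (zero_le_one (α := ℤ)) |>.1 e03 with h | h
    · exact Or.inl h
    · exact Or.inr h
  have r2' : F 1 2 = b 3 * F 0 3 := by linarith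
  rw [f13, r2'] at r5
  have hnn : 0 ≤ b 3 ^ 2 - 1 := by nlinarith
  have k1 : |b 2 * F 2 3| = b 3 ^ 2 - 1 := by
    have k2 : b 2 * F 2 3 = (b 3 ^ 2 - 1) * F 0 3 := by linarith
    rw [k2]
    rcases hs with h | h
    · rw [h, mul_one, abs_of_nonneg hnn]
    · rw [h, mul_neg, mul_one, abs_neg, abs_of_nonneg hnn]
  rw [abs_mul, e32, abs_of_pos (by omega : 0 < b 2)] at k1
  exact sq_ne (b 3) (b 2) hq hm (by linarith)

theorem T6b (hB : Base 3 α b) (hF : PathF 3 α b p F) (h0 : p 1 = 0) (h1 : p 2 = 1)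
    (h2 : p 3 = 2) (h3 : p 0 = 3) : False := by
  obtain ⟨r1, r2, r3, r4, r5, r6⟩ := t5_rows hB hF
  have f13 : F 1 3 = 0 := hF.far 1 (by norm_num) 3 (by norm_num) (by omega)
  have f10 : F 1 0 = 0 := hF.far 1 (by norm_num) 0 (by norm_num) (by omega)
  have f20 : F 2 0 = 0 := hF.far 2 (by norm_num) 0 (by norm_num) (by omega)
  have f02 : F 0 2 = 0 := by rw [hF.symm]; exact f20
  have f01 : F 0 1 = 0 := by rw [hF.symm]; exact f10
  have e12 := hF.edge 1 (by norm_num) 2 (by norm_num) (by omega)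
  have e23 := hF.edge 2 (by norm_num) 3 (by norm_num) (by omega)
  have e30 := hF.edge 3 (by norm_num) 0 (by norm_num) (by omega)
  have hb1 := hB.b1
  have hm := hB.bpos 2 (by norm_num) (by norm_num)
  have hq := hB.bpos 3 (by norm_num) (by norm_num)
  rw [h1, hb1] at e12
  rw [h2] at e23
  rw [h3, hF.symm] at e30
  rw [f01, f02] at r2
  have r2' : F 1 2 = b 3 * F 0 3 := by linarith
  rw [r2', abs_mul, e30, abs_of_pos (by omega : 0 < b 3)] at e12
  have hq1 : b 3 = 1 := by nlinarith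
  rw [f13, r2', hq1] at r5
  have k1 : b 2 * F 2 3 = 0 := by linarith
  rcases mul_eq_zero.1 k1 with h | h
  · omega
  · rw [h, abs_zero] at e23
    omega

end LS
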