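import Pool.Agent.LS.Core
import Pool.Agent.LS.PT

/-! Part `T8` of the classification of self-dual Leonard systems with integral normalized
intersection numbers (MP_963a96_al). -/
open Finset
namespace LS

variable {α b : ℕ → ℤ} {p : ℕ → ℕ} {F : ℕ → ℕ → ℤ}

theorem T8a (hB : Base 3 α b) (hF : PathF 3 α b p F) (h0 : p 3 = 0) (h1 : p 1 = 1)
    (h2 : p 0 = 2) (h3 : p 2 = 3) :
    b 3 = 1 ∧ α 1 = b 2 ∧ α 2 = b 2 ^ 2 ∧ α 3 = b 2 := by
  have hm : 1 ≤ b 2 := hB.bpos 2 (by norm_num) (by norm_num)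
  have hq : 1 ≤ b 3 := hB.bpos 3 (by norm_num) (by norm_num)
  have b1 := hB.b1
  have hb4 : b 4 = 0 := hB.bout 4 (by norm_num)
  have a0 := hB.α0
  have r1 := hF.recur0 hB 1 (by norm_num)
  have r2 := hF.recur0 hB 2 (by norm_num)
  have r3 := hF.recur0 hB 3 (by norm_num)
  have s2 := hF.recur1 hB 2 (by norm_num)
  have s3 := hF.recur1 hB 3 (by norm_num)
  have t3 := hF.recurk hB 2 (by norm_num) 3 (by norm_num)
  norm_num at r1 r2 r3 s2 s3 t3
  have F00 : F 0 0 = α (p 0) := hF.diag 0 (by norm_num)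
  have F22 : F 2 2 = α (p 2) := hF.diag 2 (by norm_num)
  have F11 : F 1 1 = α (p 1) := hF.diag 1 (by norm_num)
  have F33 : F 3 3 = α (p 3) := hF.diag 3 (by norm_num)
  have p1' : 0 ≤ α 1 := hB.αnn 1
  have p2' : 0 ≤ α 2 := hB.αnn 2
  have p3' : 0 ≤ α 3 := hB.αnn 3
  have F30 : F 3 0 = 0 := hF.far 3 (by norm_num) 0 (by norm_num) (by rw [h0, h2]; norm_num)
  have F12 : F 1 2 = 0 := hF.far 1 (by norm_num) 2 (by norm_num) (by rw [h1, h3]; norm_num)
  have F32 : F 3 2 = 0 := hF.far 3 (by norm_num) 2 (by norm_num) (by rw [h0, h3]; norm_num)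
  have F03 : F 0 3 = 0 := by rw [hF.symm]; exact F30
  have F23 : F 2 3 = 0 := by rw [hF.symm]; exact F32
  have e31 : |F 3 1| = b (p 1) := hF.edge 3 (by norm_num) 1 (by norm_num) (by rw [h0, h1])
  have e10 : |F 1 0| = b (p 0) := hF.edge 1 (by norm_num) 0 (by norm_num) (by rw [h1, h2])
  have e02 : |F 0 2| = b (p 2) := hF.edge 0 (by norm_num) 2 (by norm_num) (by rw [h2, h3])
  rw [h0, a0] at F33
  rw [h1] at F11 e31
  rw [h2] at F00 e10
  rw [h3] at F22 e02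
  rw [b1, hF.symm 3 1] at e31
  rw [hF.symm 1 0] at e10
  rw [F12, F03] at r2
  rw [F03, hb4] at r3
  rw [F12, F22, F11] at s2
  rw [F12, F03, F23, hb4] at s3
  rw [F33, F22, F23, hb4] at t3
  have f13 : F 1 3 = b 3 * F 0 2 := by linarith
  have q1 : b 3 = 1 := by
    have : |F 1 3| = b 3 * |F 0 2| := by rw [f13, abs_mul, abs_of_nonneg (by linarith)]
    rw [e31, e02] at this
    nlinarith
  have f0 : F 1 3 ≠ 0 := by
    intro h; rw [h] at e31; norm_num at e31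
  have a31 : α 3 = α 1 := by
    have : (α 3 - α 1) * F 1 3 = 0 := by linarith
    rcases mul_eq_zero.1 this with h | h
    · linarith
    · exact absurd h f0
  have a2 : α 2 = b 2 ^ 2 := by
    have h1 : α 2 * F 0 2 = - (b 2 * F 0 1) := by linarith
    have h2 : |α 2 * F 0 2| = |b 2 * F 0 1| := by rw [h1, abs_neg]
    rw [abs_mul, abs_mul, e02, e10, abs_of_nonneg p2', abs_of_nonneg (by linarith : (0:ℤ) ≤ b 2), q1] at h2
    linarith
  rw [q1] at e02 t3 f13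
  rw [f13] at t3
  have a3 : α 3 = b 2 * F 0 2 := by linarith
  have hs : F 0 2 = 1 := by
    rcases abs_eq (by norm_num : (0:ℤ) ≤ 1) |>.1 e02 with h | h
    · exact h
    · exfalso; rw [h] at a3; linarith
  rw [hs] at a3
  exact ⟨q1, by linarith, a2, by linarith⟩

theorem T8b (hB : Base 3 α b) (hF : PathF 3 α b p F) (h0 : p 2 = 0) (h1 : p 0 = 1)
    (h2 : p 1 = 2) (h3 : p 3 = 3) :
    b 3 ^ 2 = b 2 ^ 3 + 1 ∧ α 1 = b 2 ∧ α 2 = b 2 ^ 2 ∧ α 3 = b 2 := by
  have hm : 1 ≤ b 2 := hB.bpos 2 (by norm_num) (by norm_num)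
  have hq : 1 ≤ b 3 := hB.bpos 3 (by norm_num) (by norm_num)
  have b1 := hB.b1
  have hb4 : b 4 = 0 := hB.bout 4 (by norm_num)
  have a0 := hB.α0
  have r1 := hF.recur0 hB 1 (by norm_num)
  have r2 := hF.recur0 hB 2 (by norm_num)
  have r3 := hF.recur0 hB 3 (by norm_num)
  have s2 := hF.recur1 hB 2 (by norm_num)
  have s3 := hF.recur1 hB 3 (by norm_num)
  have t3 := hF.recurk hB 2 (by norm_num) 3 (by norm_num)
  norm_num at r1 r2 r3 s2 s3 t3
  have F00 : F 0 0 = α (p 0) := hF.diag 0 (by norm_num)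
  have F22 : F 2 2 = α (p 2) := hF.diag 2 (by norm_num)
  have F11 : F 1 1 = α (p 1) := hF.diag 1 (by norm_num)
  have F33 : F 3 3 = α (p 3) := hF.diag 3 (by norm_num)
  have p1' : 0 ≤ α 1 := hB.αnn 1
  have p2' : 0 ≤ α 2 := hB.αnn 2
  have p3' : 0 ≤ α 3 := hB.αnn 3
  have F23 : F 2 3 = 0 := hF.far 2 (by norm_num) 3 (by norm_num) (by rw [h0, h3]; norm_num)
  have F21 : F 2 1 = 0 := hF.far 2 (by norm_num) 1 (by norm_num) (by rw [h0, h2]; norm_num)
  have F03 : F 0 3 = 0 := hF.far 0 (by norm_num) 3 (by norm_num) (by rw [h1, h3]; norm_num)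
  have F12 : F 1 2 = 0 := by rw [hF.symm]; exact F21
  have e20 : |F 2 0| = b (p 0) := hF.edge 2 (by norm_num) 0 (by norm_num) (by rw [h0, h1])
  have e01 : |F 0 1| = b (p 1) := hF.edge 0 (by norm_num) 1 (by norm_num) (by rw [h1, h2])
  have e13 : |F 1 3| = b (p 3) := hF.edge 1 (by norm_num) 3 (by norm_num) (by rw [h2, h3])
  rw [h0, a0] at F22
  rw [h1] at F00 e20
  rw [h2] at F11 e01
  rw [h3] at F33 e13
  rw [b1, hF.symm 2 0] at e20
  rw [F12, F03] at r2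
  rw [F03, hb4] at r3
  rw [F12, F22, F11] at s2
  rw [F12, F03, F23, hb4] at s3
  rw [F33, F22, F23, hb4] at t3
  have f13 : F 1 3 = b 3 * F 0 2 := by linarith
  have f0 : F 1 3 ≠ 0 := by
    intro h; rw [h] at e13; norm_num at e13; linarith
  have a31 : α 3 = α 1 := by
    have : (α 3 - α 1) * F 1 3 = 0 := by linarith
    rcases mul_eq_zero.1 this with h | h
    · linarith
    · exact absurd h f0
  have a2 : α 2 = b 2 ^ 2 := by
    have h1 : α 2 * F 0 2 = - (b 2 * F 0 1) := by linarith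
    have h2 : |α 2 * F 0 2| = |b 2 * F 0 1| := by rw [h1, abs_neg]
    rw [abs_mul, abs_mul, e20, e01, abs_of_nonneg p2', abs_of_nonneg (by linarith : (0:ℤ) ≤ b 2)] at h2
    linarith
  rw [f13] at t3 s2
  have a3 : α 3 = - (b 2 * F 0 2) := by
    have : b 3 * (α 3 + b 2 * F 0 2) = 0 := by linarith
    rcases mul_eq_zero.1 this with h | h
    · exfalso; linarith
    · linarith
  have hs : F 0 2 = -1 := by
    rcases abs_eq (by norm_num : (0:ℤ) ≤ 1) |>.1 e20 with h | h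
    · exfalso; rw [h] at a3; linarith
    · exact h
  rw [hs] at a3 s2
  rw [a2] at s2
  exact ⟨by linarith, by linarith, a2, by linarith⟩

theorem T10a (hB : Base 3 α b) (hF : PathF 3 α b p F) (h0 : p 2 = 0) (h1 : p 1 = 1)
    (h2 : p 0 = 2) (h3 : p 3 = 3) : False := by
  have hm : 1 ≤ b 2 := hB.bpos 2 (by norm_num) (by norm_num)
  have hq : 1 ≤ b 3 := hB.bpos 3 (by norm_num) (by norm_num)
  have b1 := hB.b1
  have hb4 : b 4 = 0 := hB.bout 4 (by norm_num)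
  have a0 := hB.α0
  have r1 := hF.recur0 hB 1 (by norm_num)
  have r2 := hF.recur0 hB 2 (by norm_num)
  have r3 := hF.recur0 hB 3 (by norm_num)
  have s2 := hF.recur1 hB 2 (by norm_num)
  have s3 := hF.recur1 hB 3 (by norm_num)
  have t3 := hF.recurk hB 2 (by norm_num) 3 (by norm_num)
  norm_num at r1 r2 r3 s2 s3 t3
  have F00 : F 0 0 = α (p 0) := hF.diag 0 (by norm_num)
  have F22 : F 2 2 = α (p 2) := hF.diag 2 (by norm_num)
  have F11 : F 1 1 = α (p 1) := hF.diag 1 (by norm_num)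
  have F33 : F 3 3 = α (p 3) := hF.diag 3 (by norm_num)
  have p1' : 0 ≤ α 1 := hB.αnn 1
  have p2' : 0 ≤ α 2 := hB.αnn 2
  have p3' : 0 ≤ α 3 := hB.αnn 3
  have F20 : F 2 0 = 0 := hF.far 2 (by norm_num) 0 (by norm_num) (by rw [h0, h2]; norm_num)
  have F23 : F 2 3 = 0 := hF.far 2 (by norm_num) 3 (by norm_num) (by rw [h0, h3]; norm_num)
  have F13 : F 1 3 = 0 := hF.far 1 (by norm_num) 3 (by norm_num) (by rw [h1, h3]; norm_num)
  have F02 : F 0 2 = 0 := by rw [hF.symm]; exact F20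
  have e10 : |F 1 0| = b (p 0) := hF.edge 1 (by norm_num) 0 (by norm_num) (by rw [h1, h2])
  have e03 : |F 0 3| = b (p 3) := hF.edge 0 (by norm_num) 3 (by norm_num) (by rw [h2, h3])
  rw [h2] at e10
  rw [h3] at e03
  rw [hF.symm 1 0] at e10
  rw [F02] at r2
  rw [F23, F13, hb4] at s3
  have k1 : F 0 3 = b 3 * F 1 2 := by linarith
  have k2 : (1 - b 3 ^ 2) * F 0 3 = b 3 * (b 2 * F 0 1) := by
    have : b 3 * F 1 2 = b 3 * (b 2 * F 0 1) + b 3 ^ 2 * F 0 3 := by rw [r2]; ring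
    linarith
  have k3 : |(b 3 ^ 2 - 1) * F 0 3| = |b 3 * (b 2 * F 0 1)| := by
    rw [← k2, ← abs_neg]; congr 1; ring
  rw [abs_mul, abs_mul, abs_mul, e03, e10, abs_of_nonneg (by nlinarith : (0:ℤ) ≤ b 3 ^ 2 - 1),
    abs_of_nonneg (by linarith : (0:ℤ) ≤ b 3), abs_of_nonneg (by linarith : (0:ℤ) ≤ b 2)] at k3
  have k4 : b 3 * (b 3 ^ 2 - 1 - b 2 ^ 2) = 0 := by linarith
  rcases mul_eq_zero.1 k4 with h | h
  · linarith
  · exact sq_ne (b 3) (b 2) hq hm (by linarith)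

theorem T10b (hB : Base 3 α b) (hF : PathF 3 α b p F) (h0 : p 3 = 0) (h1 : p 0 = 1)
    (h2 : p 1 = 2) (h3 : p 2 = 3) : False := by
  have hm : 1 ≤ b 2 := hB.bpos 2 (by norm_num) (by norm_num)
  have hq : 1 ≤ b 3 := hB.bpos 3 (by norm_num) (by norm_num)
  have b1 := hB.b1
  have hb4 : b 4 = 0 := hB.bout 4 (by norm_num)
  have a0 := hB.α0
  have r1 := hF.recur0 hB 1 (by norm_num)
  have r2 := hF.recur0 hB 2 (by norm_num)
  have r3 := hF.recur0 hB 3 (by norm_num)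
  have s2 := hF.recur1 hB 2 (by norm_num)
  have s3 := hF.recur1 hB 3 (by norm_num)
  have t3 := hF.recurk hB 2 (by norm_num) 3 (by norm_num)
  norm_num at r1 r2 r3 s2 s3 t3
  have F00 : F 0 0 = α (p 0) := hF.diag 0 (by norm_num)
  have F22 : F 2 2 = α (p 2) := hF.diag 2 (by norm_num)
  have F11 : F 1 1 = α (p 1) := hF.diag 1 (by norm_num)
  have F33 : F 3 3 = α (p 3) := hF.diag 3 (by norm_num)
  have p1' : 0 ≤ α 1 := hB.αnn 1
  have p2' : 0 ≤ α 2 := hB.αnn 2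
  have p3' : 0 ≤ α 3 := hB.αnn 3
  have F31 : F 3 1 = 0 := hF.far 3 (by norm_num) 1 (by norm_num) (by rw [h0, h2]; norm_num)
  have F32 : F 3 2 = 0 := hF.far 3 (by norm_num) 2 (by norm_num) (by rw [h0, h3]; norm_num)
  have F02 : F 0 2 = 0 := hF.far 0 (by norm_num) 2 (by norm_num) (by rw [h1, h3]; norm_num)
  have F13 : F 1 3 = 0 := by rw [hF.symm]; exact F31
  have F23 : F 2 3 = 0 := by rw [hF.symm]; exact F32
  have e30 : |F 3 0| = b (p 0) := hF.edge 3 (by norm_num) 0 (by norm_num) (by rw [h0, h1])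
  have e01 : |F 0 1| = b (p 1) := hF.edge 0 (by norm_num) 1 (by norm_num) (by rw [h1, h2])
  have e12 : |F 1 2| = b (p 2) := hF.edge 1 (by norm_num) 2 (by norm_num) (by rw [h2, h3])
  rw [h1, b1, hF.symm 3 0] at e30
  rw [h2] at e01
  rw [h3] at e12
  rw [F02] at r2
  rw [F23, F13, hb4] at s3
  have k1 : F 0 3 = b 3 * F 1 2 := by linarith
  have q1 : b 3 = 1 := by
    have : |F 0 3| = b 3 * |F 1 2| := by rw [k1, abs_mul, abs_of_nonneg (by linarith)]
    rw [e30, e12] at this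
    nlinarith
  rw [q1] at k1 r2
  have k2 : b 2 * F 0 1 = 0 := by linarith
  rcases mul_eq_zero.1 k2 with h | h
  · linarith
  · rw [h] at e01; norm_num at e01; linarith

end LS
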