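import Pool.Agent.LS.Core
import Pool.Agent.LS.PT
import Pool.Agent.LS.W0
import Pool.Agent.LS.W1

/-! Part `T9` of the classification of self-dual Leonard systems with integral normalized
intersection numbers (MP_963a96_al). -/
open Finset
namespace LS

variable {α b : ℕ → ℤ} {p : ℕ → ℕ} {F : ℕ → ℕ → ℤ}

variable {lam : ℕ → ℝ} {S : ℕ → ℕ → ℝ} {N : ℕ → ℕ → ℕ → ℤ} {π : ℕ → ℕ} {ε : ℕ → ℤ}

theorem t9_rows (hB : Base 3 α b) (hF : PathF 3 α b p F) :
    F 1 1 = F 0 0 + α 1 * F 0 1 + b 2 * F 0 2 ∧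
    F 1 2 = b 2 * F 0 1 + α 2 * F 0 2 + b 3 * F 0 3 ∧
    F 1 3 = b 3 * F 0 2 + α 3 * F 0 3 ∧
    b 2 * F 2 2 = b 2 * F 1 1 + (α 2 - α 1) * F 1 2 + b 3 * F 1 3 - F 0 2 ∧
    b 2 * F 2 3 = b 3 * F 1 2 + (α 3 - α 1) * F 1 3 - F 0 3 ∧
    b 3 * F 3 3 = b 3 * F 2 2 + (α 3 - α 2) * F 2 3 - b 2 * F 1 3 := by
  have h1 := hF.recur0 hB 1 (by norm_num)
  have h2 := hF.recur0 hB 2 (by norm_num)
  have h3 := hF.recur0 hB 3 (by norm_num)
  have h4 := hF.recur1 hB 2 (by norm_num)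
  have h5 := hF.recur1 hB 3 (by norm_num)
  have h6 := hF.recurk hB 2 (by norm_num) 3 (by norm_num)
  have hb4 : b 4 = 0 := hB.bout 4 (by norm_num)
  have hb1 := hB.b1
  norm_num at h1 h2 h3 h4 h5 h6
  rw [hb4] at h3 h5 h6
  rw [hb1] at h1
  refine ⟨by linarith, by linarith, by linarith, by linarith, by linarith, by linarith⟩

theorem t9_row0 (h : Ctx 3 α b lam S N π ε p F) {l : ℕ} (hl : l ≤ 3) :
    (F 0 0 : ℝ) * S 0 l + F 0 1 * S 1 l + F 0 2 * S 2 l + F 0 3 * S 3 l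
      = lam (π l) * S 0 l := by
  have hw := h.str.weak
  have h0 : (F 0 0 : ℝ) * S 0 l + F 0 1 * S 1 l + F 0 2 * S 2 l + F 0 3 * S 3 l
      = ∑ v ∈ range (3+1), (F 0 v : ℝ) * S v l := by
    simp [Finset.sum_range_succ]
  rw [h0]
  have h1 : ∀ v ∈ range (3+1), (F 0 v : ℝ) * S v l
      = ∑ k ∈ range (3+1), S 0 k * lam (π k) * (S k v * S l v) := by
    intro v hv
    rw [h.lin 0 (by norm_num) v (Nat.lt_succ_iff.1 (mem_range.1 hv)), Finset.sum_mul]
    refine Finset.sum_congr rfl fun k _ => ?_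
    rw [hw.symm v k, hw.symm v l]
    ring
  rw [Finset.sum_congr rfl h1, Finset.sum_comm]
  have h2 : ∀ k ∈ range (3+1), ∑ v ∈ range (3+1), S 0 k * lam (π k) * (S k v * S l v)
      = if k = l then S 0 k * lam (π k) else 0 := by
    intro k hk
    rw [← Finset.mul_sum, hw.orth k (Nat.lt_succ_iff.1 (mem_range.1 hk)) l hl]
    split_ifs <;> ring
  rw [Finset.sum_congr rfl h2, Finset.sum_ite_eq' (range (3+1)) l,
    if_pos (mem_range.2 (Nat.lt_succ_iff.2 hl))]
  ring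

theorem T9a (h : Ctx 3 α b lam S N π ε p F) (h0 : p 1 = 0) (h1 : p 0 = 1)
    (h2 : p 3 = 2) (h3 : p 2 = 3) : α 1 = 0 ∧ α 2 = 0 ∧ α 3 = 0 := by
  have hB := h.str.base
  have hF := h.path
  obtain ⟨r1, r2, r3, r4, r5, r6⟩ := t9_rows hB hF
  have e1 := hF.edge 1 (by norm_num) 0 (by norm_num) (by rw [h1, h0])
  have e2 := hF.edge 0 (by norm_num) 3 (by norm_num) (by rw [h2, h1])
  have e3 := hF.edge 3 (by norm_num) 2 (by norm_num) (by rw [h3, h2])
  have f1 := hF.far 1 (by norm_num) 3 (by norm_num) (by rw [h0, h2]; norm_num)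
  have f2 := hF.far 1 (by norm_num) 2 (by norm_num) (by rw [h0, h3]; norm_num)
  have f3 := hF.far 0 (by norm_num) 2 (by norm_num) (by rw [h1, h3]; norm_num)
  have d0 := hF.diag 0 (by norm_num)
  have d1 := hF.diag 1 (by norm_num)
  have d2 := hF.diag 2 (by norm_num)
  have d3 := hF.diag 3 (by norm_num)
  rw [h0, hB.α0] at d1
  rw [h1] at d0 e1
  rw [h2] at d3 e2
  rw [h3] at d2 e3
  rw [hF.symm 1 0, hB.b1] at e1
  rw [hF.symm 3 2] at e3
  have hm := hB.bpos 2 (by norm_num) (by norm_num)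
  have hq := hB.bpos 3 (by norm_num) (by norm_num)
  have ha1 := hB.αnn 1
  have ha2 := hB.αnn 2
  have ha3 := hB.αnn 3
  rw [f3, d0, d1] at r1
  rw [f3, f2] at r2
  rw [f3, f1] at r3
  rw [f1, f2] at r5
  rw [f1, d3, d2] at r6
  have hs0 : F 0 3 ≠ 0 := by
    intro h5
    rw [h5, abs_zero] at e2
    omega
  have hα3 : α 3 = 0 := by
    have h5 : α 3 * F 0 3 = 0 := by linarith
    rcases mul_eq_zero.1 h5 with h | h
    · exact h
    · exact absurd h hs0
  have hq1 : b 3 = 1 := by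
    have h5 : |b 2 * F 2 3| = b 2 := by
      rw [show b 2 * F 2 3 = -F 0 3 by linarith, abs_neg, e2]
    rw [abs_mul, abs_of_pos (by omega : (0:ℤ) < b 2), e3] at h5
    nlinarith
  rw [hq1] at r2 r6
  rw [hα3] at r6
  have hs : F 0 3 = - (b 2 * F 0 1) := by linarith
  have hz : F 2 3 = F 0 1 := by
    have h5 : b 2 * (F 2 3 - F 0 1) = 0 := by linarith
    rcases mul_eq_zero.1 h5 with h | h
    · omega
    · linarith
  rw [hz] at r6
  rcases abs_eq (by norm_num : (0:ℤ) ≤ 1) |>.1 e1 with hx | hx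
  · rw [hx] at r1 r6
    exact ⟨by linarith, by linarith, hα3⟩
  · exfalso
    have hs' : F 0 3 = b 2 := by rw [hs, hx]; ring
    have hπ0 : π 0 = 1 := by
      have := h.πp 1 (by norm_num)
      rwa [h0] at this
    have hπ1 : π 1 = 0 := by
      have := h.πp 0 (by norm_num)
      rwa [h1] at this
    have g0 := t9_row0 h (l := 0) (by norm_num)
    have g1 := t9_row0 h (l := 1) (by norm_num)
    rw [hπ0, hx, hs', f3] at g0
    rw [hπ1, hx, hs', f3] at g1
    have hw := h.str.weak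
    have p0 := hw.ne 0 (by norm_num)
    have p1 := hw.ne 1 (by norm_num)
    have p3 := hw.ne 3 (by norm_num)
    have L0 := lam_eq h.str 0 (by norm_num)
    have L1 := lam_eq h.str 1 (by norm_num)
    have L3 := lam_eq h.str 3 (by norm_num)
    have L0' : S 1 0 = lam 0 * S 0 0 := by rw [L0]; field_simp
    have L1' : S 1 1 = lam 1 * S 0 1 := by rw [L1]; field_simp
    rw [L0'] at g0
    rw [L1'] at g1
    push_cast at g0 g1
    have hmR : (b 2 : ℝ) ≠ 0 := by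
      have : b 2 ≠ 0 := by omega
      exact_mod_cast this
    have key : S 3 0 * S 0 1 = S 3 1 * S 0 0 := by
      have h5 : (b 2 : ℝ) * (S 3 0 * S 0 1 - S 3 1 * S 0 0) = 0 := by
        linear_combination S 0 1 * g0 - S 0 0 * g1
      rcases mul_eq_zero.1 h5 with h | h
      · exact absurd h hmR
      · linarith
    have hL : lam 3 = lam 0 := by
      rw [L3, L0, hw.symm 1 3, hw.symm 1 0, div_eq_div_iff p3 p0, hw.symm 0 3]
      linarith
    have := weak_inj hB hw 3 (by norm_num) 0 (by norm_num) hL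
    omega

theorem T9b (hB : Base 3 α b) (hF : PathF 3 α b p F) (h0 : p 2 = 0) (h1 : p 3 = 1)
    (h2 : p 0 = 2) (h3 : p 1 = 3) : α 3 = 0 ∧ α 2 = α 1 * b 3 := by
  obtain ⟨r1, r2, r3, r4, r5, r6⟩ := t9_rows hB hF
  have e2 := hF.edge 3 (by norm_num) 0 (by norm_num) (by rw [h2, h1])
  have e3 := hF.edge 0 (by norm_num) 1 (by norm_num) (by rw [h3, h2])
  have f1 := hF.far 2 (by norm_num) 0 (by norm_num) (by rw [h0, h2]; norm_num)
  have f3 := hF.far 3 (by norm_num) 1 (by norm_num) (by rw [h1, h3]; norm_num)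
  have d0 := hF.diag 0 (by norm_num)
  have d1 := hF.diag 1 (by norm_num)
  rw [h2] at d0 e2
  rw [h3] at d1 e3
  rw [hF.symm 3 0] at e2
  rw [hF.symm 2 0] at f1
  rw [hF.symm 3 1] at f3
  have hm := hB.bpos 2 (by norm_num) (by norm_num)
  have hq := hB.bpos 3 (by norm_num) (by norm_num)
  have ha1 := hB.αnn 1
  have ha2 := hB.αnn 2
  have ha3 := hB.αnn 3
  rw [f1, d0, d1] at r1
  rw [f1, f3] at r3
  have hs0 : F 0 3 ≠ 0 := by
    intro h5
    rw [h5, abs_zero] at e2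
    omega
  have hα3 : α 3 = 0 := by
    have h5 : α 3 * F 0 3 = 0 := by linarith
    rcases mul_eq_zero.1 h5 with h | h
    · exact h
    · exact absurd h hs0
  refine ⟨hα3, ?_⟩
  rw [hα3] at r1
  rcases abs_eq (by omega : (0:ℤ) ≤ b 3) |>.1 e3 with hx | hx
  · rw [hx] at r1
    have h5 : 0 ≤ α 1 * b 3 := mul_nonneg ha1 (by omega)
    linarith
  · rw [hx] at r1
    linarith

end LS
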