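import Pool.Agent.LS.Core
import Pool.Agent.LS.PT
import Pool.Agent.LS.W0
import Pool.Agent.LS.W1
import Pool.Agent.LS.GA5
import Pool.Agent.LS.T0
import Pool.Agent.LS.T3
import Pool.Agent.LS.T4
import Pool.Agent.LS.T5
import Pool.Agent.LS.T8
import Pool.Agent.LS.T9
import Pool.Agent.LS.T11
import Pool.Agent.LS.T12

/-! Part `T13` of the classification of self-dual Leonard systems with integral normalized
intersection numbers (MP_963a96_al). -/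
open Finset
namespace LS

variable {α b : ℕ → ℤ} {p : ℕ → ℕ} {F : ℕ → ℕ → ℤ}

variable {lam : ℕ → ℝ} {S : ℕ → ℕ → ℝ} {N : ℕ → ℕ → ℕ → ℤ} {π : ℕ → ℕ} {ε : ℕ → ℤ}

theorem t13_pers (hB : Base 3 α b) (h3 : α 3 = 0) (h21 : α 2 = α 1) (hb : b 3 = 1) :
    Pers 3 α b := by
  have h0 := hB.α0
  have hb1 := hB.b1
  constructor
  · intro i hi
    interval_cases i
    · show α 3 = α 0
      rw [h3, h0]
    · show α 2 = α 1
      exact h21
    · show α 1 = α 2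
      exact h21.symm
    · show α 0 = α 3
      rw [h3, h0]
  · intro i h1 hi
    interval_cases i
    · show b 3 = b 1
      rw [hb, hb1]
    · rfl
    · show b 1 = b 3
      rw [hb, hb1]

theorem t13_A (h : Str 3 α b lam S N)
    (h1 : b 3 = 1 ∧ α 1 = b 2 ∧ α 2 = b 2 ^ 2 ∧ α 3 = b 2) : D3 α b ∨ Pers 3 α b :=
  Or.inl (TA h h1.2.1 h1.2.2.1 h1.2.2.2 (Or.inl h1.1))

theorem t13_A' (h : Str 3 α b lam S N)
    (h1 : b 3 ^ 2 = b 2 ^ 3 + 1 ∧ α 1 = b 2 ∧ α 2 = b 2 ^ 2 ∧ α 3 = b 2) :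
    D3 α b ∨ Pers 3 α b :=
  Or.inl (TA h h1.2.1 h1.2.2.1 h1.2.2.2 (Or.inr h1.1))

theorem t13_B (h : Str 3 α b lam S N)
    (h1 : b 3 = 1 ∧ α 2 = 0 ∧ α 3 = b 2 ∧ (α 1 = b 2 ^ 2 + b 2 ∨ (b 2 = 1 ∧ α 1 = 0))) :
    D3 α b ∨ Pers 3 α b := by
  obtain ⟨h3, h2, h4, h5 | ⟨h5, h6⟩⟩ := h1
  · exact (TB h h5 h2 h4 h3).elim
  · exact Or.inl (Or.inr (Or.inl ⟨h6, h2, by rw [h4, h5], h5, h3⟩))

theorem t13_C (h : Str 3 α b lam S N) (h1 : α 3 = 0 ∧ α 2 = α 1 * b 3) :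
    D3 α b ∨ Pers 3 α b := by
  obtain ⟨h3, h2⟩ := h1
  rcases TC h h2 h3 with h4 | h4
  · refine Or.inl (Or.inl ⟨h4, ?_, h3⟩)
    rw [h2, h4, zero_mul]
  · refine Or.inr (t13_pers h.base h3 ?_ h4)
    rw [h2, h4, mul_one]

theorem t13_D (h : Str 3 α b lam S N) (h1 : α 2 = b 2 ∧ α 1 = b 2 + α 3 ∧ b 3 = 1) :
    D3 α b ∨ Pers 3 α b := by
  obtain ⟨h2, h3, h4⟩ := h1
  have h5 := TD h h3 h2 h4
  refine Or.inr (t13_pers h.base h5 ?_ h4)
  rw [h2, h3, h5, add_zero]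

theorem t13_E (h : Str 3 α b lam S N)
    (h1 : b 3 = 1 ∧ ((α 1 = b 2 ∧ α 2 = b 2 ∧ α 3 = 0) ∨
      (b 2 = 1 ∧ α 1 = 1 ∧ α 2 = 1 ∧ α 3 = 2))) : D3 α b ∨ Pers 3 α b := by
  obtain ⟨h2, ⟨h3, h4, h5⟩ | ⟨h3, h4, h5, h6⟩⟩ := h1
  · exact Or.inr (t13_pers h.base h5 (by rw [h3, h4]) h2)
  · exact Or.inl (Or.inr (Or.inr (Or.inr (Or.inl ⟨h4, h5, h6, h3, h2⟩))))

theorem T13 (h : Ctx 3 α b lam S N π ε p F) (h1 : ¬ ∀ u ≤ 3, p u = u)
    (h2 : ¬ ∀ u ≤ 3, p u = 3 - u) (h3 : ¬ (p 0 = 0 ∧ p 1 = 2 ∧ p 2 = 1 ∧ p 3 = 3)) :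
    D3 α b ∨ Pers 3 α b := by
  have hS := h.str
  have hB := h.str.base
  have hF := h.path
  have l0 := hF.p_le 0 (by norm_num)
  have l1 := hF.p_le 1 (by norm_num)
  have l2 := hF.p_le 2 (by norm_num)
  have l3 := hF.p_le 3 (by norm_num)
  have i01 : p 0 ≠ p 1 := fun e => by have := hF.p_inj 0 (by norm_num) 1 (by norm_num) e; omega
  have i02 : p 0 ≠ p 2 := fun e => by have := hF.p_inj 0 (by norm_num) 2 (by norm_num) e; omega
  have i03 : p 0 ≠ p 3 := fun e => by have := hF.p_inj 0 (by norm_num) 3 (by norm_num) e; omega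
  have i12 : p 1 ≠ p 2 := fun e => by have := hF.p_inj 1 (by norm_num) 2 (by norm_num) e; omega
  have i13 : p 1 ≠ p 3 := fun e => by have := hF.p_inj 1 (by norm_num) 3 (by norm_num) e; omega
  have i23 : p 2 ≠ p 3 := fun e => by have := hF.p_inj 2 (by norm_num) 3 (by norm_num) e; omega
  have c0 : p 0 = 0 ∨ p 0 = 1 ∨ p 0 = 2 ∨ p 0 = 3 := by omega
  have c1 : p 1 = 0 ∨ p 1 = 1 ∨ p 1 = 2 ∨ p 1 = 3 := by omega
  have c2 : p 2 = 0 ∨ p 2 = 1 ∨ p 2 = 2 ∨ p 2 = 3 := by omega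
  have c3 : p 3 = 0 ∨ p 3 = 1 ∨ p 3 = 2 ∨ p 3 = 3 := by omega
  have k1 : ¬ (p 0 = 0 ∧ p 1 = 1 ∧ p 2 = 2 ∧ p 3 = 3) := by
    rintro ⟨a0, a1, a2, a3⟩
    apply h1
    intro u hu
    interval_cases u <;> assumption
  have k2 : ¬ (p 0 = 3 ∧ p 1 = 2 ∧ p 2 = 1 ∧ p 3 = 0) := by
    rintro ⟨a0, a1, a2, a3⟩
    apply h2
    intro u hu
    interval_cases u <;> assumption
  rcases c0 with e0 | e0 | e0 | e0 <;> rcases c1 with e1 | e1 | e1 | e1 <;>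
    first
    | (exfalso; omega)
    | (rcases c2 with e2 | e2 | e2 | e2 <;>
        first
        | (exfalso; omega)
        | (rcases c3 with e3 | e3 | e3 | e3 <;>
            first
            | (exfalso; omega)
            | exact t13_D hS (T3b hB hF e0 e1 e2 e3)
            | exact (T7a hB hF (Or.inl ⟨e0, e1, e3, e2⟩)).elim
            | exact (T7a hB hF (Or.inr ⟨e2, e3, e1, e0⟩)).elim
            | exact (T7b hB hF (Or.inl ⟨e1, e0, e2, e3⟩)).elim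
            | exact (T7b hB hF (Or.inr ⟨e3, e2, e0, e1⟩)).elim
            | exact (T4a hB hF e0 e2 e3 e1).elim
            | exact t13_B hS (T4b hB hF e1 e3 e2 e0)
            | exact (T5a hB hF e0 e3 e1 e2).elim
            | exact t13_A hS (T5b hB hF e2 e1 e3 e0)
            | exact (T6a hB hF e0 e3 e2 e1).elim
            | exact (T6b hB hF e1 e2 e3 e0).elim
            | exact t13_A hS (T8a hB hF e3 e1 e0 e2)
            | exact t13_A' hS (T8b hB hF e2 e0 e1 e3)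
            | exact (T10a hB hF e2 e1 e0 e3).elim
            | exact (T10b hB hF e3 e0 e1 e2).elim
            | exact Or.inl (Or.inl (T9a h e1 e0 e3 e2))
            | exact t13_C hS (T9b hB hF e2 e3 e0 e1)
            | exact t13_E hS (T11a hB hF e2 e0 e3 e1)
            | exact t13_E hS (T11b hB hF e1 e3 e0 e2)
            | exact t13_B hS (T12a hB hF e3 e0 e2 e1)
            | exact t13_A' hS (T12b hB hF e1 e2 e0 e3)))

end LS
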