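import Pool.Agent.LS.Core
import Pool.Agent.LS.PT
import Pool.Agent.LS.W0
import Pool.Agent.LS.W1
import Pool.Agent.LS.W2
import Pool.Agent.LS.W3
import Pool.Agent.LS.GA2
import Pool.Agent.LS.GA4
import Pool.Agent.LS.GA5
import Pool.Agent.LS.K2
import Pool.Agent.LS.K3
import Pool.Agent.LS.RV1
import Pool.Agent.LS.RV7
import Pool.Agent.LS.T3
import Pool.Agent.LS.T13

/-! Part `T14` of the classification of self-dual Leonard systems with integral normalized
intersection numbers (MP_963a96_al). -/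
open Finset
namespace LS

variable {α b : ℕ → ℤ} {p : ℕ → ℕ} {F : ℕ → ℕ → ℤ}

variable {lam : ℕ → ℝ} {S : ℕ → ℕ → ℝ} {N : ℕ → ℕ → ℕ → ℤ} {π : ℕ → ℕ} {ε : ℕ → ℤ}

theorem t14_ctx (h : Str 3 α b lam S N) {π : ℕ → ℕ} (hπ : IsGal 3 lam π) :
    ∃ ε p F, Ctx 3 α b lam S N π ε p F := by
  obtain ⟨ε, hε⟩ := exists_twist h π hπ
  obtain ⟨p, F, hc⟩ := exists_ctx h hπ hε
  exact ⟨ε, p, F, hc⟩

theorem t14_gen (h : Str 3 α b lam S N) {π : ℕ → ℕ} (hπ : IsGal 3 lam π)
    (h1 : ¬ ∀ j ≤ 3, π j = j) (h2 : ¬ ∀ j ≤ 3, π j = 3 - j)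
    (h3 : ¬ (π 0 = 0 ∧ π 1 = 2 ∧ π 2 = 1 ∧ π 3 = 3)) : D3 α b := by
  obtain ⟨ε, p, F, hc⟩ := t14_ctx h hπ
  have k1 : ¬ ∀ u ≤ 3, p u = u := by
    intro hp
    apply h1
    intro j hj
    have := hc.pπ j hj
    rwa [hp _ (hπ.maps j hj)] at this
  have k2 : ¬ ∀ u ≤ 3, p u = 3 - u := by
    intro hp
    apply h2
    intro j hj
    have h4 := hc.pπ j hj
    have h5 := hπ.maps j hj
    rw [hp _ h5] at h4
    omega
  have k3 : ¬ (p 0 = 0 ∧ p 1 = 2 ∧ p 2 = 1 ∧ p 3 = 3) := by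
    rintro ⟨a0, a1, a2, a3⟩
    apply h3
    have c0 := hc.πp 0 (by norm_num)
    have c1 := hc.πp 1 (by norm_num)
    have c2 := hc.πp 2 (by norm_num)
    have c3 := hc.πp 3 (by norm_num)
    rw [a0] at c0
    rw [a1] at c1
    rw [a2] at c2
    rw [a3] at c3
    exact ⟨c0, c2, c1, c3⟩
  rcases T13 hc k1 k2 k3 with h4 | h4
  · exact h4
  · have h5 := pers_zero h h4
    exact Or.inl ⟨h5 1, h5 2, h5 3⟩

theorem class3 (h : Str 3 α b lam S N) : D3 α b ∧ ((∀ i, α i = 0) → b 3 = 1) := by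
  refine ⟨?_, fun h0 => ?_⟩
  · by_cases H : ∃ π, IsGal 3 lam π ∧ (¬ ∀ j ≤ 3, π j = j) ∧ (¬ ∀ j ≤ 3, π j = 3 - j) ∧
        ¬ (π 0 = 0 ∧ π 1 = 2 ∧ π 2 = 1 ∧ π 3 = 3)
    · obtain ⟨π, hπ, h1, h2, h3⟩ := H
      exact t14_gen h hπ h1 h2 h3
    · have hall : ∀ π, IsGal 3 lam π → (∀ j ≤ 3, π j = j) ∨ (∀ j ≤ 3, π j = 3 - j) ∨
          (π 0 = 0 ∧ π 1 = 2 ∧ π 2 = 1 ∧ π 3 = 3) := by
        intro π hπ
        by_contra hcon
        push Not at hcon
        apply H
        refine ⟨π, hπ, ?_, ?_, ?_⟩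
        · intro h5
          obtain ⟨j, hj, hne⟩ := hcon.1
          exact hne (h5 j hj)
        · intro h5
          obtain ⟨j, hj, hne⟩ := hcon.2.1
          exact hne (h5 j hj)
        · rintro ⟨a0, a1, a2, a3⟩
          exact hcon.2.2 a0 a1 a2 a3
      by_cases hrev : ∃ π, IsGal 3 lam π ∧ ∀ j ≤ 3, π j = 3 - j
      · obtain ⟨π0, hπ0, hr0⟩ := hrev
        obtain ⟨ε0, p0, F0, hc0⟩ := t14_ctx h hπ0
        obtain ⟨g1, g2, g3⟩ := rev_data hc0 hr0
        have a12 : α 1 = α 3 - α 2 := by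
          have := g1 2 (by norm_num)
          norm_num at this
          exact this
        have b31 : b 3 = 1 := by
          have := g2 1 (by norm_num) (by norm_num)
          norm_num at this
          rw [this, h.base.b1]
        by_cases hsw : ∃ π, IsGal 3 lam π ∧ π 0 = 0 ∧ π 1 = 2 ∧ π 2 = 1 ∧ π 3 = 3
        · exfalso
          obtain ⟨π1, hπ1, s0, s1, s2, s3⟩ := hsw
          obtain ⟨ε1, p1, F1, hc1⟩ := t14_ctx h hπ1
          have c0 := hc1.pπ 0 (by norm_num)
          have c1 := hc1.pπ 1 (by norm_num)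
          have c2 := hc1.pπ 2 (by norm_num)
          have c3 := hc1.pπ 3 (by norm_num)
          rw [s0] at c0
          rw [s1] at c1
          rw [s2] at c2
          rw [s3] at c3
          obtain ⟨u1, u2, u3⟩ := T3a h.base hc1.path c0 c2 c1 c3
          have hm := h.base.bpos 2 (by norm_num) (by norm_num)
          have h3 := h.base.αnn 3
          rw [b31] at u3
          have h5 : b 2 * α 3 = 0 := by linarith
          rcases mul_eq_zero.1 h5 with h6 | h6
          · omega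
          · rw [h6] at a12 u2
            omega
        · have h3 : α 3 = 0 := by
            refine reversal_only h (by norm_num) ?_ ⟨π0, hπ0, hr0⟩
            intro π hπ
            rcases hall π hπ with h5 | h5 | h5
            · exact Or.inl h5
            · exact Or.inr h5
            · exact absurd ⟨π, hπ, h5⟩ hsw
          have ha1 := h.base.αnn 1
          have ha2 := h.base.αnn 2
          exact Or.inl ⟨by omega, by omega, h3⟩
      · exfalso
        have hall2 : ∀ π, IsGal 3 lam π → (∀ j ≤ 3, π j = j) ∨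
            (π 0 = 0 ∧ π 1 = 2 ∧ π 2 = 1 ∧ π 3 = 3) := by
          intro π hπ
          rcases hall π hπ with h5 | h5 | h5
          · exact Or.inl h5
          · exact absurd ⟨π, hπ, h5⟩ hrev
          · exact Or.inr h5
        refine no_swap h ?_ hall2
        obtain ⟨π, hπ, j, hj, hne⟩ := exists_moved' h (by norm_num)
        rcases hall2 π hπ with h5 | h5
        · exact absurd (h5 j hj) hne
        · exact ⟨π, hπ, h5⟩
  · have h1 := (bip h h0).1.2 1 (by norm_num) (by norm_num)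
    norm_num at h1
    rw [h1, h.base.b1]

end LS
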