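import Pool.Agent.LS.Defs
import Pool.Agent.LS.Core
import Pool.Agent.LS.Fam
import Pool.Agent.LS.FS
import Pool.Agent.LS.O1
import Pool.Agent.LS.O2
import Pool.Agent.LS.G3
import Pool.Agent.LS.GS
import Pool.Agent.LS.T14
import Pool.Agent.LS.C4

/-! Part `I3` of the classification of self-dual Leonard systems with integral normalized
intersection numbers (MP_963a96_al). -/
open Finset
namespace LS

variable {lam : ℕ → ℝ} {S : ℕ → ℕ → ℝ} {N : ℕ → ℕ → ℕ → ℤ}

theorem i3_bext {b b' : ℕ → ℤ} (h : ∀ i, i ≤ 3 → b' i = b i) (h0 : ∀ i, 3 < i → b i = 0)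
    (h0' : ∀ i, 3 < i → b' i = 0) : b' = b := by
  funext i
  by_cases hi : i ≤ 3
  · exact h i hi
  · rw [h0 i (by omega), h0' i (by omega)]

theorem i3_case1 {α b : ℕ → ℤ} (h : Str 3 α b lam S N) (h1 : α 1 = 0) (h2 : α 2 = 0)
    (h3 : α 3 = 0) (hb3' : (∀ i, α i = 0) → b 3 = 1) : G3 3 α b lam := by
  have hα : ∀ i, α i = 0 := by
    intro i
    by_cases hi : i ≤ 3
    · interval_cases i
      · exact h.base.α0
      · exact h1
      · exact h2
      · exact h3
    · exact h.base.αout i (by omega)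
  have hb3 := hb3' hα
  have hb2 := h.base.bpos 2 (by omega) (by omega)
  obtain ⟨m, hm⟩ : ∃ m : ℕ, b 2 = m := ⟨(b 2).toNat, by omega⟩
  have hm1 : 1 ≤ m := by omega
  obtain ⟨α', b', lam', S', N', h', hα', hb2', hb3v, l0, l1, l2, l3, n1, n2, n3⟩ := G3S m hm1
  have e1 : α' = α := by funext i; rw [hα i, hα' i]
  have e2 : b' = b := by
    apply i3_bext _ (fun i hi => h.base.bout i hi) (fun i hi => h'.base.bout i hi)
    intro i hi
    interval_cases i
    · rw [h.base.b0, h'.base.b0]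
    · rw [h.base.b1, h'.base.b1]
    · rw [hm, hb2']
    · rw [hb3, hb3v]
  subst e1 e2
  have hlam := ord3 h h' n1 n2 n3
  refine ⟨rfl, m, hm1, fun i _ => hα i, h.base.b1, hm, hb3, ?_, ?_, ?_, ?_⟩
  · rw [hlam 0 (by omega), l0]
  · rw [hlam 1 (by omega), l1]
  · rw [hlam 2 (by omega), l2]
  · rw [hlam 3 (by omega), l3]

theorem i3_case5 {α b : ℕ → ℤ} (h : Str 3 α b lam S N) (h1 : α 1 = 2) (h2 : α 2 = 4)
    (h3 : α 3 = 2) (hb2 : b 2 = 2) (hb3 : b 3 = 3) : Sp 3 α b lam := by
  obtain ⟨α', b', lam', S', N', h', a1, a2, a3, hb2', hb3', l0, l1, l2, l3, n1, n2, n3⟩ := SpS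
  have e1 : α' = α := by
    apply i3_bext _ (fun i hi => h.base.αout i hi) (fun i hi => h'.base.αout i hi)
    intro i hi
    interval_cases i
    · rw [h.base.α0, h'.base.α0]
    · rw [h1, a1]
    · rw [h2, a2]
    · rw [h3, a3]
  have e2 : b' = b := by
    apply i3_bext _ (fun i hi => h.base.bout i hi) (fun i hi => h'.base.bout i hi)
    intro i hi
    interval_cases i
    · rw [h.base.b0, h'.base.b0]
    · rw [h.base.b1, h'.base.b1]
    · rw [hb2, hb2']
    · rw [hb3, hb3']
  subst e1 e2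
  have hlam : ∀ j ≤ 3, lam j = lam' j := by
    apply ord_rigid h h'
    intro i hi hi3 j hj hj3 hij
    interval_cases i <;> interval_cases j
    · rfl
    · exact absurd hij n1
    · exact absurd hij n2
    · exact absurd hij.symm n1
    · rfl
    · exact absurd hij n3
    · exact absurd hij.symm n2
    · exact absurd hij.symm n3
    · rfl
  refine ⟨rfl, h.base.α0, h1, h2, h3, h.base.b1, hb2, hb3, ?_, ?_, ?_, ?_⟩
  · rw [hlam 0 (by omega), l0]
  · rw [hlam 1 (by omega), l1]
  · rw [hlam 2 (by omega), l2]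
  · rw [hlam 3 (by omega), l3]

theorem item3 {α b : ℕ → ℤ} (h : Str 3 α b lam S N) : Item 3 α b lam := by
  obtain ⟨hD, hb3⟩ := class3 h
  have hball : b 2 = 1 → b 3 = 1 → ∀ i, 1 ≤ i → i ≤ 3 → b i = 1 := by
    intro e2 e3 i hi hi3
    interval_cases i
    · exact h.base.b1
    · exact e2
    · exact e3
  rcases hD with ⟨h1, h2, h3⟩ | ⟨h1, h2, h3, e2, e3⟩ | ⟨h1, h2, h3, e2, e3⟩ | ⟨h1, h2, h3, e2, e3⟩
    | ⟨h1, h2, h3, e2, e3⟩
  · have := i3_case1 h h1 h2 h3 hb3
    unfold Item; tauto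
  · have hb := hball e2 e3
    have h0 : ∀ i < 3, α i = 0 := by
      intro i hi
      interval_cases i
      · exact h.base.α0
      · exact h1
      · exact h2
    have : F2 3 α b lam := ⟨by omega, h0, h3, hb, FS2_ord h h0 h3 hb⟩
    unfold Item; tauto
  · have hb := hball e2 e3
    have h0 : ∀ i, 1 ≤ i → i ≤ 3 → α i = 1 := by
      intro i hi hi3
      interval_cases i
      · exact h1
      · exact h2
      · exact h3
    have : F3 3 α b lam := ⟨by omega, h.base.α0, h0, hb, FS3_ord h h0 hb⟩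
    unfold Item; tauto
  · have hb := hball e2 e3
    have h0 : ∀ i, 1 ≤ i → i < 3 → α i = 1 := by
      intro i hi hi3
      interval_cases i
      · exact h1
      · exact h2
    have : F4 3 α b lam := ⟨by omega, h.base.α0, h0, h3, hb, FS4_ord h h0 h3 hb⟩
    unfold Item; tauto
  · have := i3_case5 h h1 h2 h3 e2 e3
    unfold Item; tauto

theorem item4 {d : ℕ} {α b : ℕ → ℤ} (h : Str d α b lam S N) (hd : 4 ≤ d) :
    Item d α b lam := by
  obtain ⟨hb, hc⟩ := class4 h hd
  rcases hc with ⟨h0, hz | hz⟩ | ⟨h0, hz | hz⟩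
  · have hall : ∀ i ≤ d, α i = 0 := by
      intro i hi
      rcases Nat.lt_or_eq_of_le hi with hi | rfl
      · exact h0 i hi
      · exact hz
    have : F1 d α b lam := ⟨hall, hb, F1_order h hall hb⟩
    unfold Item; tauto
  · have : F2 d α b lam := ⟨by omega, h0, hz, hb, FS2_ord h h0 hz hb⟩
    unfold Item; tauto
  · have hall : ∀ i, 1 ≤ i → i ≤ d → α i = 1 := by
      intro i hi hid
      rcases Nat.lt_or_eq_of_le hid with hid | rfl
      · exact h0 i hi hid
      · exact hz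
    have : F3 d α b lam := ⟨by omega, h.base.α0, hall, hb, FS3_ord h hall hb⟩
    unfold Item; tauto
  · have : F4 d α b lam := ⟨by omega, h.base.α0, h0, hz, hb, FS4_ord h h0 hz hb⟩
    unfold Item; tauto

end LS
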