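import Pool.Agent.LS.Defs

/-! Part `L1` of the classification of self-dual Leonard systems with integral normalized
intersection numbers (MP_963a96_al). -/
open Matrix Polynomial Finset
namespace LS

theorem l1_conj {d : ℕ} (A : Mat d) (θ : Fin (d+1) → ℝ) (hθ : Function.Injective θ)
    (he : ∀ i, Module.End.HasEigenvalue (Matrix.toLin' A) (θ i)) :
    ∃ P Q : Mat d, P * Q = 1 ∧ Q * P = 1 ∧
      ∀ q : ℝ[X], aeval A q = P * Matrix.diagonal (fun i => q.eval (θ i)) * Q := by
  choose v hv using fun i => (he i).exists_hasEigenvector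
  have hli : LinearIndependent ℝ v :=
    Module.End.eigenvectors_linearIndependent' (Matrix.toLin' A) θ hθ v hv
  set P : Mat d := Matrix.of fun k i => v i k with hP
  have hcol : P.col = v := by
    funext i k
    rfl
  have hunit : IsUnit P := by
    rw [← Matrix.linearIndependent_cols_iff_isUnit, hcol]
    exact hli
  obtain ⟨u, hu⟩ := hunit
  refine ⟨P, (u⁻¹ : (Mat d)ˣ), ?_, ?_, ?_⟩
  · rw [← hu]
    exact u.mul_inv
  · rw [← hu]
    exact u.inv_mul
  · have hAP : A * P = P * Matrix.diagonal θ := by
      ext k i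
      rw [Matrix.mul_diagonal]
      have h1 := (hv i).apply_eq_smul
      have h2 := congrFun h1 k
      rw [Matrix.toLin'_apply] at h2
      rw [Matrix.mul_apply]
      rw [Matrix.mulVec, dotProduct] at h2
      rw [Pi.smul_apply, smul_eq_mul] at h2
      rw [hP]
      simp only [Matrix.of_apply]
      rw [h2, mul_comm]
    have key : ∀ q : ℝ[X], aeval A q * P = P * Matrix.diagonal (fun i => q.eval (θ i)) := by
      intro q
      induction q using Polynomial.induction_on' with
      | add p q hp hq =>
        rw [map_add, add_mul, hp, hq, ← mul_add, Matrix.diagonal_add]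
        simp
      | monomial n a =>
        induction n with
        | zero =>
          rw [Polynomial.monomial_zero_left, Polynomial.aeval_C, Algebra.algebraMap_eq_smul_one,
            smul_mul_assoc, one_mul]
          have : (fun i => (C a : ℝ[X]).eval (θ i)) = fun _ : Fin (d+1) => a := by
            funext i
            simp
          rw [this, ← Matrix.smul_one_eq_diagonal, mul_smul_comm, mul_one]
        | succ n ih =>
          have h1 : (monomial (n+1) a : ℝ[X]) = monomial n a * X := by
            rw [Polynomial.monomial_mul_X]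
          rw [h1, map_mul, aeval_X, mul_assoc, hAP, ← mul_assoc, ih, mul_assoc,
            Matrix.diagonal_mul_diagonal]
          simp only [eval_mul, eval_X]
    intro q
    rw [← key q, mul_assoc]
    have : P * ((u⁻¹ : (Mat d)ˣ) : Mat d) = 1 := by
      rw [← hu]
      exact u.mul_inv
    rw [this, mul_one]

theorem l1_eval {d : ℕ} (θ : Fin (d+1) → ℝ) (hθ : Function.Injective θ) (i k : Fin (d+1)) :
    (∏ j ∈ univ.erase i, (C ((θ i - θ j)⁻¹) * (X - C (θ j)))).eval (θ k) =
      if k = i then 1 else 0 := by
  rw [Polynomial.eval_prod]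
  by_cases h : k = i
  · subst h
    rw [if_pos rfl]
    refine Finset.prod_eq_one fun j hj => ?_
    have hne : θ k - θ j ≠ 0 := by
      rw [sub_ne_zero]
      intro h
      exact (Finset.ne_of_mem_erase hj) (hθ h).symm
    simp only [eval_mul, eval_C, eval_sub, eval_X]
    exact inv_mul_cancel₀ hne
  · rw [if_neg h]
    refine Finset.prod_eq_zero (Finset.mem_erase.2 ⟨h, Finset.mem_univ k⟩) ?_
    simp

theorem primIdem_facts {d : ℕ} (A : Mat d) (θ : Fin (d+1) → ℝ) (hθ : Function.Injective θ)
    (he : ∀ i, Module.End.HasEigenvalue (Matrix.toLin' A) (θ i)) :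
    (∀ i j, primIdem A θ i * primIdem A θ j = if i = j then primIdem A θ i else 0) ∧
    (∑ i, primIdem A θ i = 1) ∧
    (∀ i, A * primIdem A θ i = θ i • primIdem A θ i) ∧
    (∀ i, primIdem A θ i * A = θ i • primIdem A θ i) ∧
    (∀ i, primIdem A θ i ≠ 0) ∧
    (∀ q : ℝ[X], aeval A q = ∑ i, q.eval (θ i) • primIdem A θ i) ∧
    (∀ i, ∃ u v : Fin (d+1) → ℝ, primIdem A θ i = Matrix.vecMulVec u v ∧ v ⬝ᵥ u = 1) ∧
    (∀ i (M : Mat d), primIdem A θ i * M * primIdem A θ i
      = Matrix.trace (primIdem A θ i * M) • primIdem A θ i) := by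
  obtain ⟨P, Q, hPQ, hQP, hA⟩ := l1_conj A θ hθ he
  have hE : ∀ i, primIdem A θ i = P * Matrix.diagonal (fun k => if k = i then (1:ℝ) else 0) * Q := by
    intro i
    unfold primIdem
    rw [hA]
    congr 2
    congr 1
    funext k
    exact l1_eval θ hθ i k

  have hmul : ∀ f g : Fin (d+1) → ℝ, (P * Matrix.diagonal f * Q) * (P * Matrix.diagonal g * Q) =
      P * Matrix.diagonal (fun i => f i * g i) * Q := by
    intro f g
    rw [← Matrix.diagonal_mul_diagonal]
    calc (P * Matrix.diagonal f * Q) * (P * Matrix.diagonal g * Q) =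
        P * Matrix.diagonal f * (Q * P) * Matrix.diagonal g * Q := by
          simp only [mul_assoc]
      _ = _ := by
          rw [hQP, mul_one]
          simp only [mul_assoc]
  have hsmul : ∀ (c : ℝ) (f : Fin (d+1) → ℝ), c • (P * Matrix.diagonal f * Q) =
      P * Matrix.diagonal (fun i => c * f i) * Q := by
    intro c f
    have h1 : Matrix.diagonal (fun i => c * f i) = c • Matrix.diagonal f := by
      rw [← Matrix.diagonal_smul]
      rfl
    rw [h1, mul_smul_comm, smul_mul_assoc]
  have hsum : ∀ (f : Fin (d+1) → Fin (d+1) → ℝ), ∑ i, (P * Matrix.diagonal (f i) * Q) =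
      P * Matrix.diagonal (fun k => ∑ i, f i k) * Q := by
    intro f
    rw [← Finset.sum_mul, ← Finset.mul_sum]
    congr 2
    ext a b
    rw [Matrix.sum_apply]
    by_cases hab : a = b
    · subst hab
      simp
    · simp [Matrix.diagonal_apply_ne _ hab]
  have hAA : A = P * Matrix.diagonal θ * Q := by
    have h1 := hA X
    rw [aeval_X] at h1
    simpa using h1
  have hvec : ∀ i, primIdem A θ i = Matrix.vecMulVec (fun k => P k i) (fun k => Q i k) := by
    intro i
    rw [hE]
    ext a b
    rw [Matrix.mul_apply, Matrix.vecMulVec_apply]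
    rw [Finset.sum_eq_single i]
    · rw [Matrix.mul_diagonal]
      simp
    · intro k _ hk
      rw [Matrix.mul_diagonal]
      simp [hk]
    · intro h
      exact absurd (Finset.mem_univ i) h
  have hvu : ∀ i, (fun k => Q i k) ⬝ᵥ (fun k => P k i) = 1 := by
    intro i
    have h1 : (Q * P) i i = 1 := by
      rw [hQP, Matrix.one_apply_eq]
    rw [Matrix.mul_apply] at h1
    exact h1
  refine ⟨?_, ?_, ?_, ?_, ?_, ?_, ?_, ?_⟩
  · intro i j
    rw [hE, hE, hmul]
    by_cases hij : i = j
    · subst hij
      rw [if_pos rfl]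
      congr 2
      congr 1
      funext k
      by_cases hk : k = i <;> simp [hk]
    · rw [if_neg hij]
      have h1 : (fun k : Fin (d+1) => (if k = i then (1:ℝ) else 0) * (if k = j then (1:ℝ) else 0)) =
          fun _ => 0 := by
        funext k
        by_cases hk : k = i
        · subst hk
          simp [hij]
        · simp [hk]
      rw [h1]
      have h2 : Matrix.diagonal (fun _ : Fin (d+1) => (0:ℝ)) = 0 := Matrix.diagonal_zero
      rw [h2, mul_zero, zero_mul]
  · simp only [hE]
    rw [hsum]
    have h1 : (fun k : Fin (d+1) => ∑ i, (if k = i then (1:ℝ) else 0)) = fun _ => 1 := by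
      funext k
      simp
    rw [h1]
    have h2 : Matrix.diagonal (fun _ : Fin (d+1) => (1:ℝ)) = 1 := Matrix.diagonal_one
    rw [h2, mul_one, hPQ]
  · intro i
    rw [hE, hsmul]
    conv_lhs => rw [hAA]
    rw [hmul]
    congr 2
    congr 1
    funext k
    by_cases hk : k = i <;> simp [hk]
  · intro i
    rw [hE, hsmul]
    conv_lhs => rw [hAA]
    rw [hmul]
    congr 2
    congr 1
    funext k
    by_cases hk : k = i <;> simp [hk]
  · intro i h0
    have h1 := hvec i
    rw [h0] at h1
    have h2 := hvu i
    have h3 : Matrix.trace (Matrix.vecMulVec (fun k => P k i) (fun k => Q i k)) = 1 := by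
      rw [Matrix.trace]
      simp only [Matrix.diag_apply, Matrix.vecMulVec_apply]
      rw [← h2, dotProduct]
      exact Finset.sum_congr rfl fun k _ => mul_comm _ _
    rw [← h1, Matrix.trace_zero] at h3
    exact absurd h3 (by norm_num)
  · intro q
    simp only [hE, hsmul]
    rw [hsum, hA]
    congr 2
    congr 1
    funext k
    simp
  · intro i
    exact ⟨_, _, hvec i, hvu i⟩
  · intro i M
    rw [hvec i]
    set u : Fin (d+1) → ℝ := fun k => P k i
    set v : Fin (d+1) → ℝ := fun k => Q i k
    have h1 : Matrix.trace (Matrix.vecMulVec u v * M) = (v ᵥ* M) ⬝ᵥ u := by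
      rw [Matrix.vecMulVec_mul, Matrix.trace]
      simp only [Matrix.diag_apply, Matrix.vecMulVec_apply]
      rw [dotProduct]
      exact Finset.sum_congr rfl fun k _ => mul_comm _ _
    rw [h1, Matrix.vecMulVec_mul]
    ext a b
    rw [Matrix.mul_apply, Matrix.smul_apply, Matrix.vecMulVec_apply, smul_eq_mul, dotProduct,
      Finset.sum_mul]
    refine Finset.sum_congr rfl fun k _ => ?_
    rw [Matrix.vecMulVec_apply, Matrix.vecMulVec_apply]
    ring

end LS
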