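import Pool.Agent.LS.Defs
import Pool.Agent.LS.Core
import Pool.Agent.LS.L1

/-! Part `L10` of the classification of self-dual Leonard systems with integral normalized
intersection numbers (MP_963a96_al). -/
open Matrix Polynomial Finset
namespace LS

def Smat (d : ℕ) (S : ℕ → ℕ → ℝ) : Mat d := Matrix.of fun i j => S i j

noncomputable def l10_conj {d : ℕ} (P : Mat d) (hP : P * P = 1) : Mat d ≃ₐ[ℝ] Mat d where
  toFun M := P * M * P
  invFun M := P * M * P
  left_inv M := by
    show P * (P * M * P) * P = M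
    rw [show P * (P * M * P) * P = (P * P) * M * (P * P) by simp only [mul_assoc], hP]
    simp
  right_inv M := by
    show P * (P * M * P) * P = M
    rw [show P * (P * M * P) * P = (P * P) * M * (P * P) by simp only [mul_assoc], hP]
    simp
  map_mul' M N := by
    show P * (M * N) * P = (P * M * P) * (P * N * P)
    rw [show (P * M * P) * (P * N * P) = P * M * (P * P) * N * P by simp only [mul_assoc], hP]
    simp only [mul_assoc, mul_one, one_mul]
  map_add' M N := by
    show P * (M + N) * P = P * M * P + P * N * P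
    rw [mul_add, add_mul]
  commutes' r := by
    show P * (algebraMap ℝ (Mat d) r) * P = algebraMap ℝ (Mat d) r
    rw [← Algebra.commutes, mul_assoc, hP, mul_one]

theorem l10_conj_apply {d : ℕ} (P : Mat d) (hP : P * P = 1) (M : Mat d) :
    l10_conj P hP M = P * M * P := rfl

theorem l10_prim_conj {d : ℕ} (P : Mat d) (hP : P * P = 1) (D : Mat d) (t : Fin (d+1) → ℝ)
    (i : Fin (d+1)) : primIdem (P * D * P) t i = P * primIdem D t i * P := by
  unfold primIdem
  rw [← l10_conj_apply P hP D, ← l10_conj_apply P hP, Polynomial.aeval_algHom_apply]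

theorem l10_aeval_diag {d : ℕ} (t : Fin (d+1) → ℝ) (q : ℝ[X]) :
    aeval (Matrix.diagonal t : Mat d) q = Matrix.diagonal (fun k => q.eval (t k)) := by
  have h1 : (Matrix.diagonal t : Mat d) = Matrix.diagonalAlgHom ℝ t := rfl
  rw [h1, Polynomial.aeval_algHom_apply]
  show Matrix.diagonal (aeval t q) = _
  congr 1
  funext k
  have h2 := Polynomial.aeval_algHom_apply (Pi.evalAlgHom ℝ (fun _ : Fin (d+1) => ℝ) k) t q
  rw [Polynomial.coe_aeval_eq_eval] at h2
  exact h2.symm

theorem l10_prim_diag {d : ℕ} (t : Fin (d+1) → ℝ) (ht : Function.Injective t) (i : Fin (d+1)) :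
    primIdem (Matrix.diagonal t : Mat d) t i = Matrix.single i i 1 := by
  unfold primIdem
  rw [l10_aeval_diag]
  have h1 : ∀ k, (∏ j ∈ univ.erase i, (C ((t i - t j)⁻¹) * (X - C (t j)))).eval (t k) =
      if k = i then 1 else 0 := by
    intro k
    rw [Polynomial.eval_prod]
    split_ifs with hk
    · subst hk
      refine Finset.prod_eq_one fun j hj => ?_
      have hne : t k - t j ≠ 0 := sub_ne_zero.2 fun h => (Finset.mem_erase.1 hj).1 (ht h).symm
      simp [hne]
    · refine Finset.prod_eq_zero (Finset.mem_erase.2 ⟨hk, Finset.mem_univ k⟩) ?_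
      simp
  simp only [h1]
  ext a b
  rw [Matrix.diagonal_apply, Matrix.single_apply]
  by_cases hab : a = b
  · subst hab
    by_cases ha : a = i
    · subst ha; simp
    · rw [if_pos rfl, if_neg ha, if_neg (fun h => ha h.1.symm)]
  · rw [if_neg hab, if_neg]
    rintro ⟨rfl, rfl⟩
    exact hab rfl

theorem l10_tri {d : ℕ} {α b : ℕ → ℤ} (hb0 : b 0 = 0) (v : ℕ → ℝ) (hv : v (d+1) = 0)
    (i : Fin (d+1)) :
    ∑ k : Fin (d+1), Tmat d α b i k * v k =
      b i * v ((i:ℕ)-1) + α i * v i + b ((i:ℕ)+1) * v ((i:ℕ)+1) := by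
  have h1 : ∀ k : Fin (d+1), Tmat d α b i k * v k =
      (fun k : ℕ => (if k = (i:ℕ) then (α i : ℝ) * v i else 0) +
        (if k = (i:ℕ) + 1 then (b ((i:ℕ)+1) : ℝ) * v ((i:ℕ)+1) else 0) +
        (if k + 1 = (i:ℕ) then (b i : ℝ) * v ((i:ℕ)-1) else 0)) k := by
    intro k
    simp only [Tmat, Matrix.of_apply]
    by_cases h1 : (i:ℕ) = k
    · rw [if_pos h1, if_pos h1.symm, if_neg (by omega), if_neg (by omega), ← h1]
      ring
    · rw [if_neg h1, if_neg (show ¬ ((k:ℕ) = (i:ℕ)) from fun h => h1 h.symm)]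
      by_cases h2 : (i:ℕ) + 1 = k
      · rw [if_pos h2, if_pos h2.symm, if_neg (by omega), ← h2]
        ring
      · rw [if_neg h2, if_neg (show ¬ ((k:ℕ) = (i:ℕ) + 1) from fun h => h2 h.symm)]
        by_cases h3 : (k:ℕ) + 1 = i
        · rw [if_pos h3, if_pos h3, show (i:ℕ) - 1 = k by omega]
          ring
        · rw [if_neg h3, if_neg h3]
          ring
  rw [Finset.sum_congr rfl fun k _ => h1 k, ← Finset.sum_range (fun k : ℕ =>
      (if k = (i:ℕ) then (α i : ℝ) * v i else 0) +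
        (if k = (i:ℕ) + 1 then (b ((i:ℕ)+1) : ℝ) * v ((i:ℕ)+1) else 0) +
        (if k + 1 = (i:ℕ) then (b i : ℝ) * v ((i:ℕ)-1) else 0)),
    Finset.sum_add_distrib, Finset.sum_add_distrib]
  have hi := i.2
  rw [Finset.sum_ite_eq', if_pos (Finset.mem_range.2 hi), Finset.sum_ite_eq']
  have e2 : (if (i:ℕ) + 1 ∈ range (d+1) then (b ((i:ℕ)+1) : ℝ) * v ((i:ℕ)+1) else 0) =
      (b ((i:ℕ)+1) : ℝ) * v ((i:ℕ)+1) := by
    split_ifs with h
    · rfl
    · have : (i:ℕ) + 1 = d + 1 := by
        rw [Finset.mem_range] at h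
        omega
      rw [this, hv, mul_zero]
  rw [e2]
  have e3 : ∑ k ∈ range (d+1), (if k + 1 = (i:ℕ) then (b i : ℝ) * v ((i:ℕ)-1) else 0) =
      b i * v ((i:ℕ)-1) := by
    by_cases h0 : (i:ℕ) = 0
    · rw [h0, hb0]
      simp
    · have : ∀ k ∈ range (d+1), (if k + 1 = (i:ℕ) then (b i : ℝ) * v ((i:ℕ)-1) else 0) =
          if k = (i:ℕ) - 1 then (b i : ℝ) * v ((i:ℕ)-1) else 0 := by
        intro k _
        by_cases hk : k + 1 = (i:ℕ)
        · rw [if_pos hk, if_pos (by omega)]
        · rw [if_neg hk, if_neg (by omega)]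
      rw [Finset.sum_congr rfl this, Finset.sum_ite_eq', if_pos (Finset.mem_range.2 (by omega))]
  rw [e3]
  ring

theorem l10_SS {d : ℕ} {α b : ℕ → ℤ} {lam : ℕ → ℝ} {S : ℕ → ℕ → ℝ}
    (h : Weak d α b lam S) : Smat d S * Smat d S = 1 := by
  ext i j
  rw [Matrix.mul_apply, Matrix.one_apply]
  have h1 := h.orth i (by have := i.2; omega) j (by have := j.2; omega)
  rw [Finset.sum_range] at h1
  have h2 : ∀ k : Fin (d+1), Smat d S i k * Smat d S k j = S i k * S j k := by
    intro k
    simp only [Smat, Matrix.of_apply]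
    rw [h.symm k j]
  rw [Finset.sum_congr rfl fun k _ => h2 k, h1]
  by_cases hij : i = j
  · rw [if_pos hij, if_pos (by rw [hij])]
  · rw [if_neg hij, if_neg (fun he => hij (Fin.ext he))]

theorem l10_ST {d : ℕ} {α b : ℕ → ℤ} {lam : ℕ → ℝ} {S : ℕ → ℕ → ℝ}
    (h : Weak d α b lam S) : (Smat d S)ᵀ = Smat d S := by
  ext i j
  simp only [Smat, Matrix.transpose_apply, Matrix.of_apply]
  exact h.symm j i

theorem l10_TS {d : ℕ} {α b : ℕ → ℤ} {lam : ℕ → ℝ} {S : ℕ → ℕ → ℝ} (hb0 : b 0 = 0)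
    (h : Weak d α b lam S) : Tmat d α b * Smat d S =
      Smat d S * Matrix.diagonal (fun i : Fin (d+1) => lam i) := by
  ext i j
  rw [Matrix.mul_diagonal, Matrix.mul_apply]
  have h1 := l10_tri (α := α) hb0 (fun k => S k j) (h.out _ _ (by omega)) i
  have h2 := h.eig i (by have := i.2; omega) j (by have := j.2; omega)
  simp only [Smat, Matrix.of_apply]
  rw [h1, ← h2]
  ring

theorem l10_T {d : ℕ} {α b : ℕ → ℤ} {lam : ℕ → ℝ} {S : ℕ → ℕ → ℝ} (hb0 : b 0 = 0)
    (h : Weak d α b lam S) : Tmat d α b =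
      Smat d S * Matrix.diagonal (fun i : Fin (d+1) => lam i) * Smat d S := by
  rw [← l10_TS hb0 h, mul_assoc, l10_SS h, mul_one]

theorem l10_inj {d : ℕ} {α b : ℕ → ℤ} {lam : ℕ → ℝ} {S : ℕ → ℕ → ℝ} (hB : Base d α b)
    (h : Weak d α b lam S) : ∀ j ≤ d, ∀ k ≤ d, lam j = lam k → j = k := by
  intro j hj k hk hjk
  by_contra hne
  have hprop : ∀ i, i ≤ d → S i j * S 0 k = S i k * S 0 j ∧
      (i + 1 ≤ d → S (i+1) j * S 0 k = S (i+1) k * S 0 j) := by
    intro i
    induction i with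
    | zero =>
      intro _
      refine ⟨mul_comm _ _, fun h1 => ?_⟩
      have e1 := h.eig 0 (by omega) j hj
      have e2 := h.eig 0 (by omega) k hk
      have hb := hB.bpos 1 le_rfl h1
      have hb' : (0:ℝ) < b 1 := by exact_mod_cast (by omega : 0 < b 1)
      rw [hB.b0] at e1 e2
      simp only [Int.cast_zero, zero_mul, zero_add] at e1 e2
      apply mul_left_cancel₀ hb'.ne'
      rw [hjk] at e1
      linear_combination S 0 j * e2 - S 0 k * e1
    | succ i ih =>
      intro hi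
      obtain ⟨ih1, ih2⟩ := ih (by omega)
      have ih3 := ih2 hi
      refine ⟨ih3, fun h1 => ?_⟩
      have e1 := h.eig (i+1) hi j hj
      have e2 := h.eig (i+1) hi k hk
      have hb := hB.bpos (i+1+1) (by omega) h1
      have hb' : (0:ℝ) < b (i+1+1) := by exact_mod_cast (by omega : 0 < b (i+1+1))
      rw [show i + 1 - 1 = i from rfl] at e1 e2
      apply mul_left_cancel₀ hb'.ne'
      rw [hjk] at e1
      linear_combination S 0 j * e2 - S 0 k * e1 + (lam k - α (i+1)) * ih3 - b (i+1) * ih1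
  have h1 := h.orth j hj k hk
  have h2 := h.orth j hj j hj
  rw [if_neg hne] at h1
  rw [if_pos rfl] at h2
  have h3 : S 0 k * ∑ l ∈ range (d+1), S j l * S j l =
      S 0 j * ∑ l ∈ range (d+1), S j l * S k l := by
    rw [Finset.mul_sum, Finset.mul_sum]
    refine Finset.sum_congr rfl fun l hl => ?_
    have hl' : l ≤ d := by
      rw [Finset.mem_range] at hl
      omega
    have h4 := (hprop l hl').1
    rw [h.symm j l, h.symm k l]
    linear_combination S l j * h4
  rw [h1, h2, mul_one, mul_zero] at h3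
  exact h.ne k hk h3

theorem l10_far {d : ℕ} {α b : ℕ → ℤ} (ξ ζ : ℝ) (i j : Fin (d+1))
    (hij : (i:ℕ) + 1 < j ∨ (j:ℕ) + 1 < i) :
    (ξ • Tmat d α b + ζ • (1 : Mat d)) i j = 0 := by
  have h1 : i ≠ j := by
    rintro rfl
    omega
  have h2 : Tmat d α b i j = 0 := by
    simp only [Tmat, Matrix.of_apply]
    rw [if_neg (by omega), if_neg (by omega), if_neg (by omega)]
  rw [Matrix.add_apply, Matrix.smul_apply, Matrix.smul_apply, h2, Matrix.one_apply_ne h1]
  simp

theorem l10_near {d : ℕ} {α b : ℕ → ℤ} (hB : Base d α b) (ξ ζ : ℝ) (hξ : ξ ≠ 0)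
    (i j : Fin (d+1)) (hij : (i:ℕ) + 1 = j ∨ (j:ℕ) + 1 = i) :
    (ξ • Tmat d α b + ζ • (1 : Mat d)) i j ≠ 0 := by
  have h1 : i ≠ j := by
    rintro rfl
    omega
  have hi := i.2
  have hj := j.2
  have h2 : Tmat d α b i j ≠ 0 := by
    simp only [Tmat, Matrix.of_apply]
    rw [if_neg (by omega)]
    rcases hij with h | h
    · rw [if_pos h]
      have := hB.bpos j (by omega) (by omega)
      exact_mod_cast (by omega : b j ≠ 0)
    · rw [if_neg (by omega), if_pos h]
      have := hB.bpos i (by omega) (by omega)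
      exact_mod_cast (by omega : b i ≠ 0)
  rw [Matrix.add_apply, Matrix.smul_apply, Matrix.smul_apply, Matrix.one_apply_ne h1]
  simp only [smul_eq_mul, mul_zero, add_zero]
  exact mul_ne_zero hξ h2

theorem l10_sms {d : ℕ} (M : Mat d) (i j : Fin (d+1)) :
    Matrix.single i i (1:ℝ) * M * Matrix.single j j 1 = Matrix.single i j (M i j) := by
  rw [Matrix.single_mul_mul_single]
  simp

theorem l10_single_ne {d : ℕ} (i j : Fin (d+1)) {c : ℝ} (hc : c ≠ 0) :
    (Matrix.single i j c : Mat d) ≠ 0 := by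
  intro h
  have := congrFun (congrFun h i) j
  simp at this
  exact hc this

theorem l10_main {d : ℕ} {α b : ℕ → ℤ} {lam : ℕ → ℝ} {S : ℕ → ℕ → ℝ} (hB : Base d α b)
    (h : Weak d α b lam S) (ξ ζ : ℝ) (hξ : ξ ≠ 0) :
    Function.Injective (fun i : Fin (d+1) => ξ * lam i + ζ) ∧
    (ξ • Matrix.diagonal (fun i : Fin (d+1) => lam i) + ζ • (1 : Mat d) =
      Matrix.diagonal (fun i : Fin (d+1) => ξ * lam i + ζ)) ∧
    (ξ • Tmat d α b + ζ • (1 : Mat d) =
      Smat d S * (ξ • Matrix.diagonal (fun i : Fin (d+1) => lam i) + ζ • (1 : Mat d)) * Smat d S) ∧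
    (∀ i, primIdem (ξ • Matrix.diagonal (fun i : Fin (d+1) => lam i) + ζ • (1 : Mat d))
      (fun i : Fin (d+1) => ξ * lam i + ζ) i = Matrix.single i i 1) ∧
    (∀ i, primIdem (ξ • Tmat d α b + ζ • (1 : Mat d))
      (fun i : Fin (d+1) => ξ * lam i + ζ) i = Smat d S * Matrix.single i i 1 * Smat d S) := by
  have hP := l10_SS h
  have h1 : Function.Injective (fun i : Fin (d+1) => ξ * lam i + ζ) := by
    intro i j hij
    simp only at hij
    have h2 : lam i = lam j := by
      apply mul_left_cancel₀ hξ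
      linarith
    exact Fin.ext (l10_inj hB h i (by have := i.2; omega) j (by have := j.2; omega) h2)
  have h2 : ξ • Matrix.diagonal (fun i : Fin (d+1) => lam i) + ζ • (1 : Mat d) =
      Matrix.diagonal (fun i : Fin (d+1) => ξ * lam i + ζ) := by
    ext i j
    by_cases hij : i = j
    · subst hij
      simp
    · rw [Matrix.add_apply, Matrix.smul_apply, Matrix.smul_apply, Matrix.diagonal_apply_ne _ hij,
        Matrix.one_apply_ne hij, Matrix.diagonal_apply_ne _ hij]
      simp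
  have h3 : ξ • Tmat d α b + ζ • (1 : Mat d) =
      Smat d S * (ξ • Matrix.diagonal (fun i : Fin (d+1) => lam i) + ζ • (1 : Mat d)) *
        Smat d S := by
    rw [mul_add, add_mul, Matrix.mul_smul, Matrix.smul_mul, Matrix.mul_smul, Matrix.smul_mul,
      ← l10_T hB.b0 h, mul_one, hP]
  have h4 : ∀ i, primIdem (ξ • Matrix.diagonal (fun i : Fin (d+1) => lam i) + ζ • (1 : Mat d))
      (fun i : Fin (d+1) => ξ * lam i + ζ) i = Matrix.single i i 1 := by
    intro i
    rw [h2]
    exact l10_prim_diag _ h1 i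
  refine ⟨h1, h2, h3, h4, ?_⟩
  intro i
  rw [h3, l10_prim_conj _ hP, h4]

theorem exists_std {d : ℕ} {α b : ℕ → ℤ} {lam : ℕ → ℝ} {S : ℕ → ℕ → ℝ} {N : ℕ → ℕ → ℕ → ℤ}
    (h : Str d α b lam S N) (ξ ζ : ℝ) (hξ : ξ ≠ 0) :
    ∃ Ψ : LeonardSystem d, IsStd Ψ α b lam ξ ζ := by
  have hB := h.base
  have hW := h.weak
  have hP := l10_SS hW
  obtain ⟨h1, h2, h3, h4, h5⟩ := l10_main hB hW ξ ζ hξ
  have hPA : Smat d S * (ξ • Tmat d α b + ζ • (1 : Mat d)) * Smat d S =
      ξ • Matrix.diagonal (fun i : Fin (d+1) => lam i) + ζ • (1 : Mat d) := by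
    rw [h3]
    rw [show Smat d S * (Smat d S * (ξ • Matrix.diagonal (fun i : Fin (d+1) => lam i) +
        ζ • (1 : Mat d)) * Smat d S) * Smat d S = (Smat d S * Smat d S) *
        (ξ • Matrix.diagonal (fun i : Fin (d+1) => lam i) + ζ • (1 : Mat d)) *
        (Smat d S * Smat d S) by simp only [mul_assoc], hP]
    simp
  have hsand : ∀ i j : Fin (d+1), primIdem (ξ • Tmat d α b + ζ • (1 : Mat d))
        (fun i : Fin (d+1) => ξ * lam i + ζ) i *
      (ξ • Matrix.diagonal (fun i : Fin (d+1) => lam i) + ζ • (1 : Mat d)) *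
      primIdem (ξ • Tmat d α b + ζ • (1 : Mat d)) (fun i : Fin (d+1) => ξ * lam i + ζ) j =
      Smat d S * Matrix.single i j ((ξ • Tmat d α b + ζ • (1 : Mat d)) i j) * Smat d S := by
    intro i j
    rw [h5, h5, ← hPA, ← l10_sms]
    rw [show Smat d S * Matrix.single i i 1 * Smat d S *
        (Smat d S * (ξ • Tmat d α b + ζ • (1 : Mat d)) * Smat d S) *
        (Smat d S * Matrix.single j j 1 * Smat d S) =
        Smat d S * Matrix.single i i 1 * (Smat d S * Smat d S) *
        (ξ • Tmat d α b + ζ • (1 : Mat d)) * (Smat d S * Smat d S) *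
        Matrix.single j j 1 * Smat d S by simp only [mul_assoc], hP]
    simp only [mul_assoc, mul_one, one_mul]
  have hdiagv : ∀ i : Fin (d+1),
      (ξ • Matrix.diagonal (fun i : Fin (d+1) => lam i) + ζ • (1 : Mat d)) *ᵥ (Pi.single i 1) =
      (ξ * lam i + ζ) • (Pi.single i (1:ℝ) : Fin (d+1) → ℝ) := by
    intro i
    rw [h2]
    ext k
    rw [Matrix.mulVec_diagonal]
    by_cases hk : k = i
    · subst hk
      simp
    · simp [hk]
  refine ⟨{ A := ξ • Tmat d α b + ζ • (1 : Mat d)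
            As := ξ • Matrix.diagonal (fun i : Fin (d+1) => lam i) + ζ • (1 : Mat d)
            θ := fun i : Fin (d+1) => ξ * lam i + ζ
            θs := fun i : Fin (d+1) => ξ * lam i + ζ
            θ_inj := h1
            θs_inj := h1
            θ_eig := ?_
            θs_eig := ?_
            far := ?_
            near := ?_
            fars := ?_
            nears := ?_ }, rfl, rfl, fun _ => rfl, fun _ => rfl⟩
  · intro i
    refine Module.End.hasEigenvalue_of_hasEigenvector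
      (x := Smat d S *ᵥ (Pi.single i 1)) ⟨?_, ?_⟩
    · rw [Module.End.mem_eigenspace_iff, Matrix.toLin'_apply, Matrix.mulVec_mulVec, h3]
      rw [show Smat d S * (ξ • Matrix.diagonal (fun i : Fin (d+1) => lam i) + ζ • (1 : Mat d)) *
          Smat d S * Smat d S = Smat d S *
          (ξ • Matrix.diagonal (fun i : Fin (d+1) => lam i) + ζ • (1 : Mat d)) *
          (Smat d S * Smat d S) by simp only [mul_assoc], hP, mul_one, ← Matrix.mulVec_mulVec,
          hdiagv, Matrix.mulVec_smul]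
    · intro h0
      have h6 : Smat d S *ᵥ (Smat d S *ᵥ (Pi.single i 1)) = 0 := by
        rw [h0, Matrix.mulVec_zero]
      rw [Matrix.mulVec_mulVec, hP, Matrix.one_mulVec] at h6
      have := congrFun h6 i
      simp at this
  · intro i
    refine Module.End.hasEigenvalue_of_hasEigenvector (x := Pi.single i 1) ⟨?_, ?_⟩
    · rw [Module.End.mem_eigenspace_iff, Matrix.toLin'_apply, hdiagv]
    · intro h0
      have := congrFun h0 i
      simp at this
  · intro i j hij
    rw [hsand, l10_far ξ ζ i j hij]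
    simp
  · intro i j hij h0
    rw [hsand] at h0
    have h6 : Smat d S * (Smat d S * Matrix.single i j
        ((ξ • Tmat d α b + ζ • (1 : Mat d)) i j) * Smat d S) * Smat d S = 0 := by
      rw [h0]
      simp
    rw [show Smat d S * (Smat d S * Matrix.single i j
        ((ξ • Tmat d α b + ζ • (1 : Mat d)) i j) * Smat d S) * Smat d S =
        (Smat d S * Smat d S) * Matrix.single i j
        ((ξ • Tmat d α b + ζ • (1 : Mat d)) i j) * (Smat d S * Smat d S) by
        simp only [mul_assoc], hP, one_mul, mul_one] at h6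
    exact l10_single_ne i j (l10_near hB ξ ζ hξ i j hij) h6
  · intro i j hij
    rw [h4, h4, l10_sms, l10_far ξ ζ i j hij]
    simp
  · intro i j hij
    rw [h4, h4, l10_sms]
    exact l10_single_ne i j (l10_near hB ξ ζ hξ i j hij)

theorem std_idem {d : ℕ} {α b : ℕ → ℤ} {lam : ℕ → ℝ} {S : ℕ → ℕ → ℝ} {N : ℕ → ℕ → ℕ → ℤ}
    (h : Str d α b lam S N) (ξ ζ : ℝ) (hξ : ξ ≠ 0) (Ψ : LeonardSystem d)
    (hΨ : IsStd Ψ α b lam ξ ζ) :
    Smat d S * Smat d S = 1 ∧ (Smat d S)ᵀ = Smat d S ∧
    Tmat d α b = Smat d S * Matrix.diagonal (fun i : Fin (d+1) => lam i) * Smat d S ∧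
    (∀ i, Ψ.Es i = Matrix.single i i 1) ∧
    (∀ i, Ψ.E i = Smat d S * Matrix.single i i 1 * Smat d S) := by
  have hB := h.base
  have hW := h.weak
  obtain ⟨h1, h2, h3, h4, h5⟩ := l10_main hB hW ξ ζ hξ
  obtain ⟨g1, g2, g3, g4⟩ := hΨ
  have e3 : Ψ.θ = fun i : Fin (d+1) => ξ * lam i + ζ := funext g3
  have e4 : Ψ.θs = fun i : Fin (d+1) => ξ * lam i + ζ := funext g4
  refine ⟨l10_SS hW, l10_ST hW, l10_T hB.b0 hW, ?_, ?_⟩
  · intro i
    unfold LeonardSystem.Es
    rw [g2, e4]
    exact h4 i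
  · intro i
    unfold LeonardSystem.E
    rw [g1, e3]
    exact h5 i

end LS
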