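import Pool.Agent.LS.Defs
import Pool.Agent.LS.Core
import Pool.Agent.LS.L1
import Pool.Agent.LS.L10

/-! Part `L11` of the classification of self-dual Leonard systems with integral normalized
intersection numbers (MP_963a96_al). -/
open Matrix Polynomial Finset
namespace LS

theorem l11_trace {d : ℕ} (i j : Fin (d+1)) (c : ℝ) (M : Mat d) :
    Matrix.trace (Matrix.single i j c * M) = c * M j i := by
  unfold Matrix.trace
  rw [Finset.sum_eq_single i]
  · simp
  · intro k _ hk
    simp [hk]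
  · intro h
    exact absurd (Finset.mem_univ i) h

theorem std_params {d : ℕ} {α b : ℕ → ℤ} {lam : ℕ → ℝ} {S : ℕ → ℕ → ℝ} {N : ℕ → ℕ → ℕ → ℤ}
    (h : Str d α b lam S N) (ξ ζ : ℝ) (hξ : ξ ≠ 0) (Ψ : LeonardSystem d)
    (hΨ : IsStd Ψ α b lam ξ ζ) :
    (∀ i ≤ d, Ψ.a i = ξ * α i + ζ) ∧ (∀ i, 1 ≤ i → i ≤ d → Ψ.x i = ξ ^ 2 * (b i) ^ 2) ∧
    Ψ.SelfDual := by
  obtain ⟨hP, -, hT, hEs, hE⟩ := std_idem h ξ ζ hξ Ψ hΨ
  obtain ⟨g1, g2, g3, g4⟩ := hΨ
  refine ⟨?_, ?_, ?_⟩
  · intro i hi
    unfold LeonardSystem.a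
    rw [dif_pos (by omega), hEs, l11_trace, one_mul, g1, Matrix.add_apply, Matrix.smul_apply,
      Matrix.smul_apply, Matrix.one_apply_eq]
    simp [Tmat]
  · intro i h1 hi
    unfold LeonardSystem.x
    rw [dif_pos ⟨h1, by omega⟩, hEs, hEs, l10_sms, l11_trace, g1]
    have e1 : Tmat d α b ⟨i, by omega⟩ ⟨i - 1, by omega⟩ = b i := by
      simp only [Tmat, Matrix.of_apply]
      rw [if_neg (by omega), if_neg (by omega), if_pos (by omega)]
    have e2 : Tmat d α b ⟨i - 1, by omega⟩ ⟨i, by omega⟩ = b i := by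
      simp only [Tmat, Matrix.of_apply]
      rw [if_neg (by omega), if_pos (by omega)]
    have hne : (⟨i, by omega⟩ : Fin (d+1)) ≠ ⟨i - 1, by omega⟩ := by
      intro he
      have := congrArg Fin.val he
      simp only at this
      omega
    rw [Matrix.add_apply, Matrix.add_apply, Matrix.smul_apply, Matrix.smul_apply,
      Matrix.smul_apply, Matrix.smul_apply, e1, e2, Matrix.one_apply_ne hne,
      Matrix.one_apply_ne hne.symm]
    simp only [smul_eq_mul, mul_zero, add_zero]
    ring
  · have hPA : Smat d S * Ψ.A * Smat d S = Ψ.As := by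
      rw [g1, g2, mul_add, add_mul, Matrix.mul_smul, Matrix.smul_mul, Matrix.mul_smul,
        Matrix.smul_mul, hT, mul_one, hP]
      rw [show Smat d S * (Smat d S * Matrix.diagonal (fun i : Fin (d+1) => lam i) * Smat d S) *
        Smat d S = (Smat d S * Smat d S) * Matrix.diagonal (fun i : Fin (d+1) => lam i) *
        (Smat d S * Smat d S) by simp only [mul_assoc], hP, one_mul, mul_one]
    have hPAs : Smat d S * Ψ.As * Smat d S = Ψ.A := by
      rw [← hPA]
      rw [show Smat d S * (Smat d S * Ψ.A * Smat d S) * Smat d S =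
        (Smat d S * Smat d S) * Ψ.A * (Smat d S * Smat d S) by simp only [mul_assoc], hP,
        one_mul, mul_one]
    refine ⟨l10_conj (Smat d S) hP, ?_, ?_, ?_, ?_⟩
    · rw [l10_conj_apply, hPA]
      rfl
    · rw [l10_conj_apply, hPAs]
      rfl
    · intro i
      rw [l10_conj_apply, hE]
      show _ = Ψ.Es i
      rw [hEs]
      rw [show Smat d S * (Smat d S * Matrix.single i i 1 * Smat d S) * Smat d S =
        (Smat d S * Smat d S) * Matrix.single i i 1 * (Smat d S * Smat d S) by
        simp only [mul_assoc], hP, one_mul, mul_one]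
    · intro i
      rw [l10_conj_apply, hEs]
      show _ = Ψ.E i
      rw [hE]

end LS
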