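import Pool.Agent.LS.Defs
import Pool.Agent.LS.L1

/-! Part `L3` of the classification of self-dual Leonard systems with integral normalized
intersection numbers (MP_963a96_al). -/
open Matrix Polynomial Finset
namespace LS

structure IsStdBasis {d : ℕ} (Φ : LeonardSystem d) (w : ℕ → (Fin (d+1) → ℝ)) : Prop where
  out : ∀ i, d < i → w i = 0
  ne : ∀ i ≤ d, w i ≠ 0
  es : ∀ i : Fin (d+1), Φ.Es i *ᵥ w i = w i
  eig : ∀ i : Fin (d+1), Φ.As *ᵥ w i = Φ.θs i • w i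
  act : ∀ i ≤ d, Φ.A *ᵥ w i = w (i+1) + Φ.a i • w i + Φ.x i • w (i-1)
  pol : ∀ i ≤ d, (aeval Φ.A (Φ.p i)) *ᵥ w 0 = w i
  last : (aeval Φ.A (Φ.p (d+1))) *ᵥ w 0 = 0
  indep : LinearIndependent ℝ (fun i : Fin (d+1) => w i)

theorem l3_rank {d : ℕ} {E : Mat d} (hE : ∃ u v : Fin (d+1) → ℝ, E = Matrix.vecMulVec u v ∧ v ⬝ᵥ u = 1)
    {w : Fin (d+1) → ℝ} (hw : w ≠ 0) (hEw : E *ᵥ w = w) :
    (∀ y, ∃ c : ℝ, E *ᵥ y = c • w) ∧ (∀ M : Mat d, M *ᵥ w = 0 → M * E = 0) := by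
  obtain ⟨u, v, hE, hvu⟩ := hE
  have hmul : ∀ y, E *ᵥ y = (v ⬝ᵥ y) • u := by
    intro y
    rw [hE, Matrix.vecMulVec_mulVec]
    ext i
    simp [mul_comm]
  have hc : v ⬝ᵥ w ≠ 0 := by
    intro h
    apply hw
    rw [← hEw, hmul, h, zero_smul]
  have hu : u = (v ⬝ᵥ w)⁻¹ • w := by
    have h1 := hmul w
    rw [hEw] at h1
    rw [h1, dotProduct_smul, hvu, smul_eq_mul, mul_one, smul_smul, inv_mul_cancel₀ hc, one_smul]
  refine ⟨fun y => ⟨(v ⬝ᵥ y) * (v ⬝ᵥ w)⁻¹, ?_⟩, fun M hM => ?_⟩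
  · rw [hmul, mul_smul, ← hu]
  · have hMu : M *ᵥ u = 0 := by
      rw [hu, Matrix.mulVec_smul, hM, smul_zero]
    rw [hE, Matrix.mul_vecMulVec, hMu]
    ext i j
    simp [Matrix.vecMulVec_apply]

theorem l3_sum {d : ℕ} (k : ℕ) (z : Fin (d+1) → ℝ) (hz : d < k → z = 0) :
    ∑ j : Fin (d+1), (if (j:ℕ) = k then z else 0) = z := by
  by_cases hk : k < d + 1
  · rw [Finset.sum_eq_single ⟨k, hk⟩]
    · rw [if_pos rfl]
    · intro j _ hj
      rw [if_neg]
      intro h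
      exact hj (Fin.ext h)
    · intro h
      exact absurd (Finset.mem_univ _) h
  · rw [hz (by omega)]
    simp

theorem l3_sum' {d : ℕ} (k : ℕ) (hk : k ≤ d) (z : Fin (d+1) → ℝ) (hz : k = 0 → z = 0) :
    ∑ j : Fin (d+1), (if (j:ℕ) + 1 = k then z else 0) = z := by
  rcases Nat.eq_zero_or_pos k with h0 | h0
  · rw [hz h0]
    simp
  · have h1 := l3_sum (d := d) (k - 1) z (fun h => by omega)
    refine Eq.trans (Finset.sum_congr rfl (fun j _ => ?_)) h1
    have : ((j:ℕ) + 1 = k) = ((j:ℕ) = k - 1) := by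
      apply propext
      omega
    simp only [this]

theorem exists_stdBasis {d : ℕ} (Φ : LeonardSystem d) :
    (∃ w, IsStdBasis Φ w) ∧ Φ.x 0 = 0 ∧ (∀ i, 1 ≤ i → i ≤ d → Φ.x i ≠ 0) := by
  obtain ⟨h1, h2, h3, h4, h5, h6, h7, h8⟩ := primIdem_facts Φ.As Φ.θs Φ.θs_inj Φ.θs_eig
  have hx0 : Φ.x 0 = 0 := by
    rw [LeonardSystem.x, dif_neg]
    omega

  obtain ⟨F, hF⟩ : ∃ F : Fin (d+1) → Mat d, F = fun i => primIdem Φ.As Φ.θs i := ⟨_, rfl⟩
  have hFE : ∀ i, Φ.Es i = F i := by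
    intro i
    rw [hF]
    rfl
  replace h1 : ∀ i j, F i * F j = if i = j then F i else 0 := by
    intro i j
    rw [hF]
    exact h1 i j
  replace h2 : ∑ i, F i = 1 := by
    rw [hF]
    exact h2
  replace h3 : ∀ i, Φ.As * F i = Φ.θs i • F i := by
    intro i
    rw [hF]
    exact h3 i
  replace h7 : ∀ i, ∃ u v : Fin (d+1) → ℝ, F i = Matrix.vecMulVec u v ∧ v ⬝ᵥ u = 1 := by
    intro i
    rw [hF]
    exact h7 i
  replace h8 : ∀ i (M : Mat d), F i * M * F i = Matrix.trace (F i * M) • F i := by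
    intro i M
    rw [hF]
    exact h8 i M
  have hfar : ∀ i j : Fin (d+1), ((i:ℕ) + 1 < j ∨ (j:ℕ) + 1 < i) → F i * Φ.A * F j = 0 := by
    intro i j h
    rw [hF]
    exact Φ.fars i j h
  have hnear : ∀ i j : Fin (d+1), ((i:ℕ) + 1 = j ∨ (j:ℕ) + 1 = i) → F i * Φ.A * F j ≠ 0 := by
    intro i j h
    rw [hF]
    exact Φ.nears i j h
  clear h4 h5 h6

  obtain ⟨u0, v0, hu0, hv0⟩ := h7 0
  obtain ⟨w, hw⟩ : ∃ w : ℕ → (Fin (d+1) → ℝ), w = fun n => Nat.rec (motive := fun _ => Fin (d+1) → ℝ) u0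
      (fun i wi => if h : i + 1 < d + 1 then F ⟨i+1, h⟩ *ᵥ (Φ.A *ᵥ wi) else 0) n := ⟨_, rfl⟩
  have w0 : w 0 = u0 := congrFun hw 0
  have ws : ∀ i, w (i+1) = if h : i + 1 < d + 1 then F ⟨i+1, h⟩ *ᵥ (Φ.A *ᵥ w i) else 0 := by
    intro i
    rw [hw]
  have hw0 : w 0 ≠ 0 := by
    rw [w0]
    intro h
    rw [h, dotProduct_zero] at hv0
    exact zero_ne_one hv0
  have hF0 : F 0 *ᵥ w 0 = w 0 := by
    rw [hu0, Matrix.vecMulVec_mulVec, w0, hv0]
    ext i
    simp
  have key : ∀ i (hi : i < d + 1), w i ≠ 0 ∧ F ⟨i, hi⟩ *ᵥ w i = w i := by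
    intro i
    induction i with
    | zero =>
      intro hi
      exact ⟨hw0, hF0⟩
    | succ i ih =>
      intro hi
      obtain ⟨a1, a2⟩ := ih (by omega)
      have hs := ws i
      rw [dif_pos hi] at hs
      refine ⟨?_, ?_⟩
      · intro h0
        rw [hs] at h0
        have h9 := (l3_rank (h7 ⟨i, by omega⟩) a1 a2).2 (F ⟨i+1, hi⟩ * Φ.A) (by
          rw [← Matrix.mulVec_mulVec]
          exact h0)
        exact hnear ⟨i+1, hi⟩ ⟨i, by omega⟩ (Or.inr rfl) h9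
      · rw [hs, Matrix.mulVec_mulVec, h1, if_pos rfl]
  have hout : ∀ i, d < i → w i = 0 := by
    intro i hi
    obtain ⟨j, rfl⟩ : ∃ j, i = j + 1 := ⟨i - 1, by omega⟩
    rw [ws, dif_neg (by omega)]
  have hne : ∀ i ≤ d, w i ≠ 0 := fun i hi => (key i (by omega)).1
  have hes : ∀ i : Fin (d+1), F i *ᵥ w i = w i := fun i => (key i i.2).2
  have heig : ∀ i : Fin (d+1), Φ.As *ᵥ w i = Φ.θs i • w i := by
    intro i
    have e : Φ.As *ᵥ w i = (Φ.As * F i) *ᵥ w i := by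
      rw [← Matrix.mulVec_mulVec, hes]
    rw [e, h3, Matrix.smul_mulVec, hes]

  have hcross : ∀ i j : Fin (d+1), i ≠ j → F i *ᵥ w j = 0 := by
    intro i j hij
    rw [← hes j, Matrix.mulVec_mulVec, h1, if_neg hij, Matrix.zero_mulVec]

  have hdown : ∀ i (h1' : 1 ≤ i) (hi : i < d + 1), F ⟨i-1, by omega⟩ *ᵥ (Φ.A *ᵥ w i) = Φ.x i • w (i-1) := by
    intro i hi1 hi
    obtain ⟨b1, b2⟩ := key (i-1) (by omega)
    obtain ⟨c1, c2⟩ := key i hi
    obtain ⟨y, hy⟩ := (l3_rank (h7 ⟨i-1, by omega⟩) b1 b2).1 (Φ.A *ᵥ w i)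
    have hx : Φ.x i = Matrix.trace (F ⟨i, hi⟩ * Φ.A * F ⟨i-1, by omega⟩ * Φ.A) := by
      rw [LeonardSystem.x, dif_pos ⟨hi1, hi⟩, hFE, hFE]
    have e1 := h8 ⟨i, hi⟩ (Φ.A * F ⟨i-1, by omega⟩ * Φ.A)
    have e2 : F ⟨i, hi⟩ * (Φ.A * F ⟨i-1, by omega⟩ * Φ.A) = F ⟨i, hi⟩ * Φ.A * F ⟨i-1, by omega⟩ * Φ.A := by
      simp only [mul_assoc]
    rw [e2, ← hx] at e1
    have e3 := congrArg (fun M : Mat d => M *ᵥ w i) e1
    simp only [Matrix.smul_mulVec] at e3
    rw [c2, ← Matrix.mulVec_mulVec, c2, ← Matrix.mulVec_mulVec, ← Matrix.mulVec_mulVec, ← Matrix.mulVec_mulVec, hy,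
      Matrix.mulVec_smul, Matrix.mulVec_smul] at e3
    have e4 := ws (i-1)
    have e5 : i - 1 + 1 = i := by omega
    simp only [e5] at e4
    rw [dif_pos hi] at e4
    rw [← e4] at e3
    have e6 : (y - Φ.x i) • w i = 0 := by
      rw [sub_smul, e3, sub_self]
    have e7 : y = Φ.x i := by
      rcases smul_eq_zero.1 e6 with h | h
      · linarith
      · exact absurd h c1
    rw [hy, e7]
  have hact : ∀ i ≤ d, Φ.A *ᵥ w i = w (i+1) + Φ.a i • w i + Φ.x i • w (i-1) := by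
    intro i hi
    have hi' : i < d + 1 := by omega
    obtain ⟨c1, c2⟩ := key i hi'
    have e1 : Φ.A *ᵥ w i = ∑ j, F j *ᵥ (Φ.A *ᵥ w i) := by
      rw [← Matrix.sum_mulVec, h2, Matrix.one_mulVec]
    have e2 : ∀ j : Fin (d+1), F j *ᵥ (Φ.A *ᵥ w i) = (if (j:ℕ) = i + 1 then w (i+1) else 0)
        + (if (j:ℕ) = i then Φ.a i • w i else 0) + (if (j:ℕ) + 1 = i then Φ.x i • w (i-1) else 0) := by
      intro j
      have e3 : F j *ᵥ (Φ.A *ᵥ w i) = (F j * Φ.A * F ⟨i, hi'⟩) *ᵥ w i := by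
        rw [← Matrix.mulVec_mulVec, c2, Matrix.mulVec_mulVec]
      by_cases ha : (j:ℕ) = i + 1
      · rw [if_pos ha, if_neg (by omega), if_neg (by omega), add_zero, add_zero, ws, dif_pos (by omega)]
        have : j = ⟨i+1, by omega⟩ := Fin.ext ha
        exact congrArg (fun k => F k *ᵥ (Φ.A *ᵥ w i)) this
      · by_cases hb : (j:ℕ) = i
        · rw [if_neg ha, if_pos hb, if_neg (by omega), add_zero, zero_add, e3]
          have : j = ⟨i, hi'⟩ := Fin.ext hb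
          rw [this, h8, Matrix.smul_mulVec, c2]
          rw [LeonardSystem.a, dif_pos hi', hFE]
        · by_cases hc : (j:ℕ) + 1 = i
          · rw [if_neg ha, if_neg hb, if_pos hc, zero_add, zero_add]
            have : j = ⟨i-1, by omega⟩ := Fin.ext (by simp; omega)
            rw [this]
            exact hdown i (by omega) hi'
          · rw [if_neg ha, if_neg hb, if_neg hc, add_zero, add_zero, e3, hfar _ _ (by simp only; omega),
              Matrix.zero_mulVec]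
    calc Φ.A *ᵥ w i = ∑ j, F j *ᵥ (Φ.A *ᵥ w i) := e1
      _ = ∑ j : Fin (d+1), ((if (j:ℕ) = i + 1 then w (i+1) else 0)
        + (if (j:ℕ) = i then Φ.a i • w i else 0) + (if (j:ℕ) + 1 = i then Φ.x i • w (i-1) else 0)) :=
          Finset.sum_congr rfl (fun j _ => e2 j)
      _ = w (i+1) + Φ.a i • w i + Φ.x i • w (i-1) := by
          rw [Finset.sum_add_distrib, Finset.sum_add_distrib, l3_sum (i+1) (w (i+1)) (hout _),
            l3_sum i _ (fun h => by omega), l3_sum' i hi _ (fun h => by rw [h, hx0, zero_smul])]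
  have hpol : ∀ i ≤ d + 1, (aeval Φ.A (Φ.p i)) *ᵥ w 0 = w i := by
    intro i
    induction i using Nat.strong_induction_on with
    | _ i ih =>
      intro hi
      match i, ih, hi with
      | 0, _, _ =>
        rw [LeonardSystem.p, map_one, Matrix.one_mulVec]
      | 1, _, _ =>
        have h9 := hact 0 (Nat.zero_le d)
        rw [hx0, zero_smul, add_zero, zero_add] at h9
        rw [LeonardSystem.p, map_sub, aeval_X, aeval_C, Matrix.sub_mulVec, h9, Algebra.algebraMap_eq_smul_one,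
          Matrix.smul_mulVec, Matrix.one_mulVec, add_sub_cancel_right]
      | (n+2), ih, hi =>
        have h9 := hact (n+1) (by omega)
        have g1 := ih (n+1) (by omega) (by omega)
        have g0 := ih n (by omega) (by omega)
        rw [LeonardSystem.p, map_sub, map_mul, map_mul, map_sub, aeval_X, aeval_C, aeval_C, Matrix.sub_mulVec,
          ← Matrix.mulVec_mulVec, ← Matrix.mulVec_mulVec, g1, g0, Matrix.sub_mulVec, h9]
        rw [Algebra.algebraMap_eq_smul_one, Algebra.algebraMap_eq_smul_one,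
          Matrix.smul_mulVec, Matrix.one_mulVec, Matrix.smul_mulVec, Matrix.one_mulVec]
        have e : n + 1 - 1 = n := by omega
        rw [e]
        abel
  refine ⟨⟨w, ?_⟩, hx0, ?_⟩
  · refine ⟨hout, hne, ?_, heig, hact, fun i hi => hpol i (by omega), ?_, ?_⟩
    · intro i
      rw [hFE]
      exact hes i
    · rw [hpol (d+1) le_rfl, hout _ (by omega)]
    · rw [Fintype.linearIndependent_iff]
      intro g hg i
      have e1 := congrArg (fun y => F i *ᵥ y) hg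
      simp only [Matrix.mulVec_zero, Matrix.mulVec_sum, Matrix.mulVec_smul] at e1
      rw [Finset.sum_eq_single i] at e1
      · rw [hes] at e1
        rcases smul_eq_zero.1 e1 with h | h
        · exact h
        · exact absurd h (hne i (by omega))
      · intro j _ hj
        rw [hcross i j (Ne.symm hj), smul_zero]
      · intro h
        exact absurd (Finset.mem_univ _) h
  · intro i hi1 hi hx
    have hi' : i < d + 1 := by omega
    obtain ⟨c1, c2⟩ := key i hi'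
    have h9 := hdown i hi1 hi'
    rw [hx, zero_smul, Matrix.mulVec_mulVec] at h9
    exact hnear ⟨i-1, by omega⟩ ⟨i, hi'⟩ (Or.inl (by simp only; omega)) ((l3_rank (h7 ⟨i, hi'⟩) c1 c2).2 _ h9)

end LS
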