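import Pool.Agent.LS.Defs
import Pool.Agent.LS.L1
import Pool.Agent.LS.L3

/-! Part `L4` of the classification of self-dual Leonard systems with integral normalized
intersection numbers (MP_963a96_al). -/
open Matrix Polynomial Finset
namespace LS

noncomputable def LeonardSystem.xprod {d : ℕ} (Φ : LeonardSystem d) (i : ℕ) : ℝ :=
  ∏ m ∈ Finset.Icc 1 i, Φ.x m

noncomputable def LeonardSystem.mu {d : ℕ} (Φ : LeonardSystem d) (j : Fin (d+1)) : ℝ :=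
  Matrix.trace (Φ.E j * Φ.Es 0)

theorem l4_p_succ {d : ℕ} (Φ : LeonardSystem d) (hx0 : Φ.x 0 = 0) (n : ℕ) (t : ℝ) :
    (Φ.p (n + 1)).eval t = (t - Φ.a n) * (Φ.p n).eval t - Φ.x n * (Φ.p (n - 1)).eval t := by
  cases n with
  | zero => simp [LeonardSystem.p, hx0]
  | succ n => simp [LeonardSystem.p]

theorem l4_xprod_succ {d : ℕ} (Φ : LeonardSystem d) (n : ℕ) :
    Φ.xprod (n + 1) = Φ.xprod n * Φ.x (n + 1) := by
  unfold LeonardSystem.xprod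
  rw [Finset.prod_Icc_succ_top (by omega)]

theorem l4_xprod_ne {d : ℕ} (Φ : LeonardSystem d) (hx : ∀ i, 1 ≤ i → i ≤ d → Φ.x i ≠ 0) {i : ℕ}
    (hi : i ≤ d) : Φ.xprod i ≠ 0 := by
  unfold LeonardSystem.xprod
  rw [Finset.prod_ne_zero_iff]
  intro m hm
  rw [Finset.mem_Icc] at hm
  exact hx m hm.1 (hm.2.trans hi)

theorem l4_E_w {d : ℕ} (Φ : LeonardSystem d) {w : ℕ → (Fin (d+1) → ℝ)} (hw : IsStdBasis Φ w)
    (j : Fin (d+1)) (i : ℕ) (hi : i ≤ d) :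
    Φ.E j *ᵥ w i = (Φ.p i).eval (Φ.θ j) • (Φ.E j *ᵥ w 0) := by
  obtain ⟨e1, e2, e3, e4, e5, e6, e7, e8⟩ := primIdem_facts Φ.A Φ.θ Φ.θ_inj Φ.θ_eig
  have h1 : Φ.E j * aeval Φ.A (Φ.p i) = (Φ.p i).eval (Φ.θ j) • Φ.E j := by
    rw [e6, Finset.mul_sum]
    rw [Finset.sum_eq_single j]
    · rw [mul_smul_comm]
      congr 1
      have := e1 j j
      rw [if_pos rfl] at this
      exact this
    · intro k _ hk
      rw [mul_smul_comm]
      have := e1 j k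
      rw [if_neg (Ne.symm hk)] at this
      show (Φ.p i).eval (Φ.θ k) • (primIdem Φ.A Φ.θ j * primIdem Φ.A Φ.θ k) = 0
      rw [this, smul_zero]
    · intro h
      exact absurd (Finset.mem_univ _) h
  rw [← hw.pol i hi, Matrix.mulVec_mulVec, h1, Matrix.smul_mulVec]

theorem l4_zero {d : ℕ} (Φ : LeonardSystem d) {w : ℕ → (Fin (d+1) → ℝ)} (hw : IsStdBasis Φ w)
    (M : Mat d) (h : ∀ i ≤ d, M *ᵥ w i = 0) : M = 0 := by
  let b := basisOfLinearIndependentOfCardEqFinrank hw.indep (by simp)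
  have h1 : Matrix.toLin' M = 0 := by
    apply b.ext
    intro i
    rw [coe_basisOfLinearIndependentOfCardEqFinrank, Matrix.toLin'_apply, LinearMap.zero_apply]
    exact h i (Nat.lt_succ_iff.1 i.2)
  exact (LinearEquiv.map_eq_zero_iff Matrix.toLin').1 h1

theorem l4_eig {d : ℕ} (Φ : LeonardSystem d) {w : ℕ → (Fin (d+1) → ℝ)} (hw : IsStdBasis Φ w)
    (hx0 : Φ.x 0 = 0) (hx : ∀ i, 1 ≤ i → i ≤ d → Φ.x i ≠ 0) {t : ℝ}
    (ht : (Φ.p (d + 1)).eval t = 0) :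
    Φ.A *ᵥ (∑ i ∈ range (d + 1), ((Φ.p i).eval t / Φ.xprod i) • w i) =
      t • ∑ i ∈ range (d + 1), ((Φ.p i).eval t / Φ.xprod i) • w i := by
  set q : ℕ → ℝ := fun i => (Φ.p i).eval t / Φ.xprod i with hq
  set r : ℕ → ℝ := fun i => (Φ.p (i + 1)).eval t / Φ.xprod i with hr
  set s : ℕ → ℝ := fun i => if i = 0 then 0 else q (i - 1) with hs
  have hX : ∀ i ≤ d, Φ.xprod i ≠ 0 := fun i hi => l4_xprod_ne Φ hx hi
  have h1 : Φ.A *ᵥ (∑ i ∈ range (d + 1), q i • w i) =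
      (∑ i ∈ range (d + 1), q i • w (i + 1)) + (∑ i ∈ range (d + 1), (Φ.a i * q i) • w i) +
        ∑ i ∈ range (d + 1), (q i * Φ.x i) • w (i - 1) := by
    rw [Matrix.mulVec_sum, ← Finset.sum_add_distrib, ← Finset.sum_add_distrib]
    refine Finset.sum_congr rfl fun i hi => ?_
    rw [Matrix.mulVec_smul, hw.act i (Nat.lt_succ_iff.1 (mem_range.1 hi)), smul_add, smul_add,
      smul_smul, smul_smul, mul_comm (q i) (Φ.a i)]
  have h2 : (∑ i ∈ range (d + 1), q i • w (i + 1)) = ∑ i ∈ range (d + 1), s i • w i := by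
    rw [Finset.sum_range_succ, hw.out (d + 1) (by omega), smul_zero, add_zero,
      Finset.sum_range_succ']
    simp [hs]
  have h3 : (∑ i ∈ range (d + 1), (q i * Φ.x i) • w (i - 1)) =
      ∑ i ∈ range (d + 1), r i • w i := by
    rw [Finset.sum_range_succ', hx0, mul_zero, zero_smul, add_zero, Finset.sum_range_succ]
    have hrd : r d = 0 := by
      rw [hr]
      simp only [ht, zero_div]
    rw [hrd, zero_smul, add_zero]
    refine Finset.sum_congr rfl fun i hi => ?_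
    have hid : i + 1 ≤ d := mem_range.1 hi
    have e1 : q (i + 1) * Φ.x (i + 1) = r i := by
      rw [hq, hr]
      simp only
      rw [l4_xprod_succ]
      have e2 := hX i (by omega)
      have e3 := hx (i + 1) (by omega) hid
      field_simp
    rw [e1, Nat.add_sub_cancel]
  rw [h1, h2, h3, ← Finset.sum_add_distrib, ← Finset.sum_add_distrib, Finset.smul_sum]
  refine Finset.sum_congr rfl fun i hi => ?_
  have hid : i ≤ d := Nat.lt_succ_iff.1 (mem_range.1 hi)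
  rw [← add_smul, ← add_smul, smul_smul]
  congr 1
  have e2 := hX i hid
  cases i with
  | zero =>
    simp only [hs, hq, hr, if_pos]
    rw [l4_p_succ Φ hx0 0 t, hx0]
    field_simp
    ring
  | succ i =>
    simp only [hs, hq, hr]
    rw [if_neg (by omega), l4_p_succ Φ hx0 (i + 1) t, Nat.add_sub_cancel, l4_xprod_succ]
    have e3 := hX i (by omega)
    have e4 := hx (i + 1) (by omega) hid
    field_simp
    ring

theorem l4_range {d : ℕ} (Φ : LeonardSystem d) (j : Fin (d+1)) {y : Fin (d+1) → ℝ}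
    (hy : Φ.A *ᵥ y = Φ.θ j • y) : Φ.E j *ᵥ y = y := by
  obtain ⟨e1, e2, e3, e4, e5, e6, e7, e8⟩ := primIdem_facts Φ.A Φ.θ Φ.θ_inj Φ.θ_eig
  have h1 : ∀ i, i ≠ j → primIdem Φ.A Φ.θ i *ᵥ y = 0 := by
    intro i hi
    have h2 : primIdem Φ.A Φ.θ i *ᵥ (Φ.A *ᵥ y) = Φ.θ i • (primIdem Φ.A Φ.θ i *ᵥ y) := by
      rw [Matrix.mulVec_mulVec, e4, Matrix.smul_mulVec]
    rw [hy, Matrix.mulVec_smul] at h2
    have h3 : (Φ.θ j - Φ.θ i) • (primIdem Φ.A Φ.θ i *ᵥ y) = 0 := by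
      rw [sub_smul, h2, sub_self]
    rcases smul_eq_zero.1 h3 with h | h
    · exact absurd (Φ.θ_inj (sub_eq_zero.1 h)).symm hi
    · exact h
  have h4 : y = ∑ i, primIdem Φ.A Φ.θ i *ᵥ y := by
    rw [← Matrix.sum_mulVec, e2, Matrix.one_mulVec]
  rw [Finset.sum_eq_single j (fun i _ hi => h1 i hi)
    (fun h => absurd (Finset.mem_univ _) h)] at h4
  exact h4.symm

theorem l4_Es {d : ℕ} (Φ : LeonardSystem d) {w : ℕ → (Fin (d+1) → ℝ)} (hw : IsStdBasis Φ w)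
    (i k : Fin (d+1)) : Φ.Es i *ᵥ w k = if i = k then w k else 0 := by
  obtain ⟨e1, e2, e3, e4, e5, e6, e7, e8⟩ := primIdem_facts Φ.As Φ.θs Φ.θs_inj Φ.θs_eig
  split_ifs with h
  · rw [h]
    exact hw.es k
  · rw [← hw.es k, Matrix.mulVec_mulVec]
    have := e1 i k
    rw [if_neg h] at this
    show (primIdem Φ.As Φ.θs i * primIdem Φ.As Φ.θs k) *ᵥ w k = 0
    rw [this, Matrix.zero_mulVec]

theorem l4_Es_sum {d : ℕ} (Φ : LeonardSystem d) {w : ℕ → (Fin (d+1) → ℝ)} (hw : IsStdBasis Φ w)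
    (i : Fin (d+1)) (c : Fin (d+1) → ℝ) :
    Φ.Es i *ᵥ (∑ k : Fin (d+1), c k • w k) = c i • w i := by
  rw [Matrix.mulVec_sum, Finset.sum_eq_single i]
  · rw [Matrix.mulVec_smul, l4_Es Φ hw, if_pos rfl]
  · intro k _ hk
    rw [Matrix.mulVec_smul, l4_Es Φ hw, if_neg (Ne.symm hk), smul_zero]
  · intro h
    exact absurd (Finset.mem_univ _) h

theorem l4_b {d : ℕ} (Φ : LeonardSystem d) {w : ℕ → (Fin (d+1) → ℝ)} (hw : IsStdBasis Φ w)
    (hx0 : Φ.x 0 = 0) (hx : ∀ i, 1 ≤ i → i ≤ d → Φ.x i ≠ 0) (j : Fin (d+1)) :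
    Φ.mu j ≠ 0 ∧ Φ.E j *ᵥ w 0 =
      ∑ i : Fin (d+1), (Φ.mu j * (Φ.p i).eval (Φ.θ j) / Φ.xprod i) • w i := by
  obtain ⟨e1, e2, e3, e4, e5, e6, e7, e8⟩ := primIdem_facts Φ.A Φ.θ Φ.θ_inj Φ.θ_eig
  obtain ⟨f1, f2, f3, f4, f5, f6, f7, f8⟩ := primIdem_facts Φ.As Φ.θs Φ.θs_inj Φ.θs_eig
  have hz : Φ.E j *ᵥ w 0 ≠ 0 := by
    intro h
    apply e5 j
    apply l4_zero Φ hw
    intro i hi
    have := l4_E_w Φ hw j i hi
    rw [h, smul_zero] at this
    exact this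
  have hlast : (Φ.p (d + 1)).eval (Φ.θ j) = 0 := by
    have h1 : Φ.E j * aeval Φ.A (Φ.p (d + 1)) = (Φ.p (d + 1)).eval (Φ.θ j) • Φ.E j := by
      rw [e6, Finset.mul_sum]
      rw [Finset.sum_eq_single j]
      · rw [mul_smul_comm]
        congr 1
        have := e1 j j
        rw [if_pos rfl] at this
        exact this
      · intro k _ hk
        rw [mul_smul_comm]
        have := e1 j k
        rw [if_neg (Ne.symm hk)] at this
        show (Φ.p (d + 1)).eval (Φ.θ k) • (primIdem Φ.A Φ.θ j * primIdem Φ.A Φ.θ k) = 0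
        rw [this, smul_zero]
      · intro h
        exact absurd (Finset.mem_univ _) h
    have h2 : (Φ.p (d + 1)).eval (Φ.θ j) • (Φ.E j *ᵥ w 0) = 0 := by
      rw [← Matrix.smul_mulVec, ← h1, ← Matrix.mulVec_mulVec, hw.last, Matrix.mulVec_zero]
    rcases smul_eq_zero.1 h2 with h | h
    · exact h
    · exact absurd h hz
  have hy := l4_eig Φ hw hx0 hx hlast
  set y := ∑ i ∈ range (d + 1), ((Φ.p i).eval (Φ.θ j) / Φ.xprod i) • w i with hydef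
  have hyF : y = ∑ i : Fin (d+1), ((Φ.p i).eval (Φ.θ j) / Φ.xprod i) • w i := by
    rw [hydef, Finset.sum_range]
  have hEy := l4_range Φ j hy

  have hys : y = (∑ i : Fin (d+1), (Φ.p i).eval (Φ.θ j) / Φ.xprod i * (Φ.p i).eval (Φ.θ j)) •
      (Φ.E j *ᵥ w 0) := by
    rw [Finset.sum_smul]
    conv_lhs => rw [← hEy, hyF]
    rw [Matrix.mulVec_sum]
    refine Finset.sum_congr rfl fun i _ => ?_
    rw [Matrix.mulVec_smul, l4_E_w Φ hw j i (Nat.lt_succ_iff.1 i.2), smul_smul]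
  set s := ∑ i : Fin (d+1), (Φ.p i).eval (Φ.θ j) / Φ.xprod i * (Φ.p i).eval (Φ.θ j) with hs
  have hEsy : Φ.Es 0 *ᵥ y = w 0 := by
    rw [hyF, l4_Es_sum Φ hw 0 (fun i => (Φ.p i).eval (Φ.θ j) / Φ.xprod i)]
    simp [LeonardSystem.p, LeonardSystem.xprod]
  have hw0 : w 0 ≠ 0 := hw.ne 0 (Nat.zero_le _)
  have hEs0 : Φ.Es 0 *ᵥ w 0 = w 0 := hw.es 0
  have htr : Φ.Es 0 *ᵥ (Φ.E j *ᵥ w 0) = Φ.mu j • w 0 := by
    have h1 : Φ.Es 0 * Φ.E j * Φ.Es 0 = Matrix.trace (Φ.Es 0 * Φ.E j) • Φ.Es 0 := f8 0 (Φ.E j)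
    have h2 := congrArg (fun M => M *ᵥ w 0) h1
    simp only [← Matrix.mulVec_mulVec, Matrix.smul_mulVec] at h2
    rw [hEs0] at h2
    rw [h2]
    unfold LeonardSystem.mu
    rw [Matrix.trace_mul_comm]
  have hmus : s * Φ.mu j = 1 := by
    have h1 : (s * Φ.mu j - 1) • w 0 = 0 := by
      rw [sub_smul, one_smul, ← smul_smul, ← htr, ← Matrix.mulVec_smul, ← hys, hEsy, sub_self]
    rcases smul_eq_zero.1 h1 with h | h
    · linarith
    · exact absurd h hw0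
  have hmu0 : Φ.mu j ≠ 0 := right_ne_zero_of_mul (by rw [hmus]; exact one_ne_zero)
  refine ⟨hmu0, ?_⟩
  have h5 : Φ.E j *ᵥ w 0 = Φ.mu j • y := by
    rw [hys, smul_smul, mul_comm, hmus, one_smul]
  rw [h5, hyF, Finset.smul_sum]
  refine Finset.sum_congr rfl fun i _ => ?_
  rw [smul_smul, mul_div_assoc]

theorem eigen_facts {d : ℕ} (Φ : LeonardSystem d) :
    (∀ i ≤ d, Φ.xprod i ≠ 0) ∧
    (∀ j, Φ.mu j ≠ 0) ∧
    (∀ w, IsStdBasis Φ w → ∀ j, Φ.E j *ᵥ w 0 =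
      ∑ i : Fin (d+1), (Φ.mu j * (Φ.p i).eval (Φ.θ j) / Φ.xprod i) • w i) ∧
    (∀ i k : Fin (d+1), ∑ j, Φ.mu j * (Φ.p i).eval (Φ.θ j) * (Φ.p k).eval (Φ.θ j)
      = if i = k then Φ.xprod i else 0) ∧
    (∀ i : Fin (d+1), Matrix.trace (Φ.Es i * Φ.E 0) * Φ.xprod i
      = Φ.mu 0 * (Φ.p i).eval (Φ.θ 0) ^ 2) := by
  obtain ⟨⟨w, hw⟩, hx0, hx⟩ := exists_stdBasis Φ
  obtain ⟨e1, e2, e3, e4, e5, e6, e7, e8⟩ := primIdem_facts Φ.A Φ.θ Φ.θ_inj Φ.θ_eig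
  obtain ⟨f1, f2, f3, f4, f5, f6, f7, f8⟩ := primIdem_facts Φ.As Φ.θs Φ.θs_inj Φ.θs_eig
  have hX : ∀ i ≤ d, Φ.xprod i ≠ 0 := fun i hi => l4_xprod_ne Φ hx hi
  refine ⟨hX, fun j => (l4_b Φ hw hx0 hx j).1, fun w' hw' j => (l4_b Φ hw' hx0 hx j).2, ?_, ?_⟩
  · intro i k
    have h1 : w k = ∑ i : Fin (d+1), (∑ j, Φ.mu j * (Φ.p i).eval (Φ.θ j) *
        (Φ.p k).eval (Φ.θ j) / Φ.xprod i) • w i := by
      have h2 : w k = ∑ j, Φ.E j *ᵥ w k := by
        rw [← Matrix.sum_mulVec]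
        have : ∑ j, Φ.E j = 1 := e2
        rw [this, Matrix.one_mulVec]
      rw [h2]
      simp only [Finset.sum_smul]
      rw [Finset.sum_comm]
      refine Finset.sum_congr rfl fun j _ => ?_
      rw [l4_E_w Φ hw j k (Nat.lt_succ_iff.1 k.2), (l4_b Φ hw hx0 hx j).2, Finset.smul_sum]
      refine Finset.sum_congr rfl fun i _ => ?_
      rw [smul_smul]
      congr 1
      ring
    have h3 : ∑ i : Fin (d+1), ((∑ j, Φ.mu j * (Φ.p i).eval (Φ.θ j) *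
        (Φ.p k).eval (Φ.θ j) / Φ.xprod i) - (if i = k then 1 else 0)) • w i = 0 := by
      simp only [sub_smul, Finset.sum_sub_distrib, ite_smul, one_smul, zero_smul]
      rw [← h1, Finset.sum_ite_eq']
      simp
    have h4 := Fintype.linearIndependent_iff.1 hw.indep _ h3 i
    have hXi := hX i (Nat.lt_succ_iff.1 i.2)
    have h5 : ∑ j, Φ.mu j * (Φ.p i).eval (Φ.θ j) * (Φ.p k).eval (Φ.θ j) / Φ.xprod i =
        (∑ j, Φ.mu j * (Φ.p i).eval (Φ.θ j) * (Φ.p k).eval (Φ.θ j)) / Φ.xprod i := by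
      rw [Finset.sum_div]
    rw [h5, sub_eq_zero, div_eq_iff hXi] at h4
    rw [h4]
    split_ifs
    · rw [one_mul]
    · rw [zero_mul]
  · intro i
    have hXi := hX i (Nat.lt_succ_iff.1 i.2)
    have hwi : w i ≠ 0 := hw.ne i (Nat.lt_succ_iff.1 i.2)
    have h1 : Φ.Es i * Φ.E 0 * Φ.Es i = Matrix.trace (Φ.Es i * Φ.E 0) • Φ.Es i := f8 i (Φ.E 0)
    have h2 := congrArg (fun M => M *ᵥ w i) h1
    simp only [← Matrix.mulVec_mulVec, Matrix.smul_mulVec] at h2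
    rw [hw.es i, l4_E_w Φ hw 0 i (Nat.lt_succ_iff.1 i.2), (l4_b Φ hw hx0 hx 0).2,
      Matrix.mulVec_smul,
      l4_Es_sum Φ hw i (fun k => Φ.mu 0 * (Φ.p k).eval (Φ.θ 0) / Φ.xprod k), smul_smul] at h2
    have h3 : ((Φ.p i).eval (Φ.θ 0) * (Φ.mu 0 * (Φ.p i).eval (Φ.θ 0) / Φ.xprod i) -
        Matrix.trace (Φ.Es i * Φ.E 0)) • w i = 0 := by
      rw [sub_smul, h2, sub_self]
    rcases smul_eq_zero.1 h3 with h | h
    · rw [sub_eq_zero] at h
      rw [← h]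
      field_simp
    · exact absurd h hwi

end LS
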