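import Pool.Agent.LS.Defs
import Pool.Agent.LS.Core
import Pool.Agent.LS.L1
import Pool.Agent.LS.L4
import Pool.Agent.LS.L10
import Pool.Agent.LS.L11

/-! Part `L12` of the classification of self-dual Leonard systems with integral normalized
intersection numbers (MP_963a96_al). -/
open Matrix Polynomial Finset
namespace LS

noncomputable def l12_be (b : ℕ → ℤ) (i : ℕ) : ℝ := ∏ m ∈ Finset.Icc 1 i, (b m : ℝ)

theorem l12_be_zero (b : ℕ → ℤ) : l12_be b 0 = 1 := by simp [l12_be]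

theorem l12_be_succ (b : ℕ → ℤ) (i : ℕ) : l12_be b (i+1) = l12_be b i * (b (i+1) : ℝ) := by
  unfold l12_be
  rw [Finset.prod_Icc_succ_top (by omega)]

theorem l12_be_pos {d : ℕ} {α b : ℕ → ℤ} (h : Base d α b) (i : ℕ) (hi : i ≤ d) :
    0 < l12_be b i := by
  unfold l12_be
  refine Finset.prod_pos fun m hm => ?_
  rw [Finset.mem_Icc] at hm
  have h1 := h.bpos m hm.1 (hm.2.trans hi)
  have h2 : (0 : ℤ) < b m := by omega
  exact_mod_cast h2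

theorem l12_p {d : ℕ} {α b : ℕ → ℤ} {lam : ℕ → ℝ} {S : ℕ → ℕ → ℝ} {N : ℕ → ℕ → ℕ → ℤ}
    (h : Str d α b lam S N) (ξ ζ : ℝ) (Ψ : LeonardSystem d)
    (hθ : ∀ i : Fin (d+1), Ψ.θ i = ξ * lam i + ζ)
    (ha : ∀ i ≤ d, Ψ.a i = ξ * α i + ζ)
    (hx : ∀ i, 1 ≤ i → i ≤ d → Ψ.x i = ξ ^ 2 * (b i) ^ 2) (l : Fin (d+1)) :
    ∀ i ≤ d, (Ψ.p i).eval (Ψ.θ l) * S 0 l = ξ ^ i * l12_be b i * S i l := by
  have hl : (l : ℕ) ≤ d := by have := l.2; omega
  have hb := h.base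
  have hw := h.weak
  have key : ∀ i, i ≤ d → i + 1 ≤ d →
      (Ψ.p i).eval (Ψ.θ l) * S 0 l = ξ ^ i * l12_be b i * S i l ∧
      (Ψ.p (i+1)).eval (Ψ.θ l) * S 0 l = ξ ^ (i+1) * l12_be b (i+1) * S (i+1) l := by
    intro i
    induction i with
    | zero =>
      intro _ h1
      constructor
      · show (Polynomial.eval (Ψ.θ l) (1 : ℝ[X])) * S 0 l = _
        rw [l12_be_zero]
        simp
      · show (Polynomial.eval (Ψ.θ l) (X - C (Ψ.a 0) : ℝ[X])) * S 0 l = _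
        rw [l12_be_succ, l12_be_zero, Polynomial.eval_sub, Polynomial.eval_X, Polynomial.eval_C,
          ha 0 (Nat.zero_le _), hθ l]
        have h2 := hw.eig 0 (Nat.zero_le _) l hl
        have h3 : (b 0 : ℝ) = 0 := by exact_mod_cast hb.b0
        rw [h3] at h2
        have h4 : (0 : ℕ) + 1 = 1 := rfl
        rw [h4] at h2 ⊢
        linear_combination ξ * h2
    | succ n ih =>
      intro h1 h2
      obtain ⟨h3, h4⟩ := ih (by omega) h1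
      refine ⟨h4, ?_⟩
      show (Polynomial.eval (Ψ.θ l) ((X - C (Ψ.a (n+1))) * Ψ.p (n+1) - C (Ψ.x (n+1)) * Ψ.p n : ℝ[X]))
        * S 0 l = _
      rw [Polynomial.eval_sub, Polynomial.eval_mul, Polynomial.eval_mul, Polynomial.eval_sub,
        Polynomial.eval_X, Polynomial.eval_C, Polynomial.eval_C, ha (n+1) h1,
        hx (n+1) (by omega) h1, hθ l, l12_be_succ b (n+1)]
      have h5 := hw.eig (n+1) h1 l hl
      have h6 : n + 1 - 1 = n := by omega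
      rw [h6] at h5
      have h7 := l12_be_succ b n
      have h8 : ξ ^ (n + 1 + 1) = ξ ^ n * ξ ^ 2 := by ring
      have h9 : ξ ^ (n + 1) = ξ ^ n * ξ := by ring
      rw [h9] at h4
      rw [h8]
      rw [h7] at h4 ⊢
      have e1 : ((ξ * lam l + ζ - (ξ * α (n+1) + ζ)) * Polynomial.eval (Ψ.θ l) (Ψ.p (n+1)) -
          ξ ^ 2 * (b (n+1)) ^ 2 * Polynomial.eval (Ψ.θ l) (Ψ.p n)) * S 0 l
          = ξ * (lam l - α (n+1)) * (Polynomial.eval (Ψ.θ l) (Ψ.p (n+1)) * S 0 l)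
            - ξ ^ 2 * (b (n+1)) ^ 2 * (Polynomial.eval (Ψ.θ l) (Ψ.p n) * S 0 l) := by ring
      rw [hθ l] at e1 h3 h4
      rw [e1, h3, h4]
      linear_combination (ξ ^ n * ξ ^ 2 * l12_be b n * (b (n+1) : ℝ)) * h5
  intro i hi
  rcases Nat.eq_zero_or_pos i with h0 | h0
  · subst h0
    show (Polynomial.eval (Ψ.θ l) (1 : ℝ[X])) * S 0 l = _
    rw [l12_be_zero]
    simp
  · obtain ⟨n, rfl⟩ : ∃ n, i = n + 1 := ⟨i - 1, by omega⟩
    exact (key n (by omega) hi).2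

theorem l12_k {d : ℕ} {α b : ℕ → ℤ} {lam : ℕ → ℝ} {S : ℕ → ℕ → ℝ} {N : ℕ → ℕ → ℕ → ℤ}
    (h : Str d α b lam S N) (Ψ : LeonardSystem d)
    (hEs : ∀ i, Ψ.Es i = Matrix.single i i 1)
    (hE : ∀ i, Ψ.E i = Smat d S * Matrix.single i i 1 * Smat d S) (i : Fin (d+1)) :
    Ψ.k i = (S i 0 / S 0 0) ^ 2 := by
  have h0 : S 0 0 ≠ 0 := h.weak.ne 0 (Nat.zero_le _)
  have h1 : Matrix.trace (Ψ.E 0 * Ψ.Es 0) = S 0 0 ^ 2 := by
    rw [hE, hEs, Matrix.trace_mul_single]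
    rw [Matrix.mul_assoc, Matrix.mul_apply]
    simp [Smat, Matrix.single, Matrix.mul_apply, Matrix.of_apply, Finset.sum_ite_eq, ite_and]
    ring
  have h2 : Matrix.trace (Ψ.Es i * Ψ.E 0) = S i 0 ^ 2 := by
    rw [hE, hEs, Matrix.trace_single_mul]
    have h3 := h.weak.symm i 0
    simp [Smat, Matrix.single, Matrix.mul_apply, Matrix.of_apply, Finset.sum_ite_eq, ite_and]
    rw [h.weak.symm 0 i]
    ring
  unfold LeonardSystem.k LeonardSystem.ν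
  rw [h1, h2]
  field_simp

theorem l12_v {d : ℕ} {α b : ℕ → ℤ} {lam : ℕ → ℝ} {S : ℕ → ℕ → ℝ} {N : ℕ → ℕ → ℕ → ℤ}
    (h : Str d α b lam S N) (ξ ζ : ℝ) (hξ : ξ ≠ 0) (Ψ : LeonardSystem d)
    (hθ : ∀ i : Fin (d+1), Ψ.θ i = ξ * lam i + ζ)
    (ha : ∀ i ≤ d, Ψ.a i = ξ * α i + ζ)
    (hx : ∀ i, 1 ≤ i → i ≤ d → Ψ.x i = ξ ^ 2 * (b i) ^ 2)
    (hEs : ∀ i, Ψ.Es i = Matrix.single i i 1)
    (hE : ∀ i, Ψ.E i = Smat d S * Matrix.single i i 1 * Smat d S) (i l : Fin (d+1)) :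
    (Ψ.v i).eval (Ψ.θ l) = (S i 0 / S 0 0) * (S i l / S 0 l) := by
  have hi : (i : ℕ) ≤ d := by have := i.2; omega
  have hl : (l : ℕ) ≤ d := by have := l.2; omega
  have h0 : S 0 0 ≠ 0 := h.weak.ne 0 (Nat.zero_le _)
  have h0l : S 0 l ≠ 0 := h.weak.ne l hl
  have hi0 : S i 0 ≠ 0 := by
    rw [h.weak.symm]
    exact h.weak.ne i hi
  have hβ := l12_be_pos h.base i hi
  have hξi : ξ ^ (i : ℕ) ≠ 0 := pow_ne_zero _ hξ
  have h1 := l12_p h ξ ζ Ψ hθ ha hx l i hi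
  have h2 := l12_p h ξ ζ Ψ hθ ha hx 0 i hi
  have h3 : (((0 : Fin (d+1)) : ℕ)) = 0 := rfl
  rw [h3] at h2
  have h4 : Polynomial.eval (Ψ.θ l) (Ψ.p i) = ξ ^ (i : ℕ) * l12_be b i * S i l / S 0 l := by
    rw [eq_div_iff h0l]
    exact h1
  have h5 : Polynomial.eval (Ψ.θ 0) (Ψ.p i) = ξ ^ (i : ℕ) * l12_be b i * S i 0 / S 0 0 := by
    rw [eq_div_iff h0]
    exact h2
  unfold LeonardSystem.v
  rw [Polynomial.eval_mul, Polynomial.eval_C, h4, h5, l12_k h Ψ hEs hE i]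
  have hβ' := hβ.ne'
  field_simp

theorem l12_sum {d : ℕ} {α b : ℕ → ℤ} {lam : ℕ → ℝ} {S : ℕ → ℕ → ℝ} {N : ℕ → ℕ → ℕ → ℤ}
    (h : Str d α b lam S N) (i j l : ℕ) (hi : i ≤ d) (hj : j ≤ d) (hl : l ≤ d) :
    ∑ m ∈ range (d+1), (N i j m : ℝ) * S m l = S i l * S j l / S 0 l := by
  have h1 : ∀ m ∈ range (d+1), (N i j m : ℝ) * S m l =
      ∑ k ∈ range (d+1), (S i k * S j k / S 0 k) * (S k m * S l m) := by
    intro m hm
    rw [Finset.mem_range] at hm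
    rw [h.Ndef i hi j hj m (by omega), Finset.sum_mul]
    refine Finset.sum_congr rfl fun k _ => ?_
    rw [h.weak.symm k m, h.weak.symm l m]
    ring
  rw [Finset.sum_congr rfl h1, Finset.sum_comm]
  have h2 : ∀ k ∈ range (d+1), ∑ m ∈ range (d+1), (S i k * S j k / S 0 k) * (S k m * S l m) =
      (S i k * S j k / S 0 k) * (if k = l then 1 else 0) := by
    intro k hk
    rw [Finset.mem_range] at hk
    rw [← Finset.mul_sum, h.weak.orth k (by omega) l hl]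
  rw [Finset.sum_congr rfl h2]
  have h3 : ∀ k ∈ range (d+1), (S i k * S j k / S 0 k) * (if k = l then (1:ℝ) else 0) =
      if k = l then S i l * S j l / S 0 l else 0 := by
    intro k _
    by_cases hkl : k = l
    · subst hkl
      simp
    · simp [hkl]
  rw [Finset.sum_congr rfl h3, Finset.sum_ite_eq' (range (d+1)) l]
  rw [if_pos (Finset.mem_range.2 (by omega))]

theorem l12_sqrt (n u v w : ℝ) (hu : 0 < u) (hv : 0 < v) (hw : 0 < w) :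
    ((u * v * n / w : ℝ) : ℂ) * (((w ^ 2 / (u ^ 2 * v ^ 2) : ℝ)) : ℂ) ^ ((1:ℂ)/2) = (n : ℂ) := by
  have h1 : w ^ 2 / (u ^ 2 * v ^ 2) = (w / (u * v)) ^ 2 := by
    field_simp
  have h2 : 0 < w / (u * v) := by positivity
  have h3 : ((1 : ℂ) / 2) = (((1 : ℝ) / 2 : ℝ) : ℂ) := by
    push_cast
    rfl
  rw [h1, h3, ← Complex.ofReal_cpow (by positivity), ← Real.sqrt_eq_rpow, Real.sqrt_sq h2.le,
    ← Complex.ofReal_mul]
  congr 1
  field_simp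

theorem std_integral {d : ℕ} {α b : ℕ → ℤ} {lam : ℕ → ℝ} {S : ℕ → ℕ → ℝ} {N : ℕ → ℕ → ℕ → ℤ}
    (h : Str d α b lam S N) (ξ ζ : ℝ) (hξ : ξ ≠ 0) (Ψ : LeonardSystem d)
    (hΨ : IsStd Ψ α b lam ξ ζ) : Ψ.IntegralN := by
  obtain ⟨hS1, hS2, hT, hEs, hE⟩ := std_idem h ξ ζ hξ Ψ hΨ
  obtain ⟨ha, hx, -⟩ := std_params h ξ ζ hξ Ψ hΨ
  have hθ := hΨ.2.2.1
  obtain ⟨-, -, -, -, -, hq, -, -⟩ := primIdem_facts Ψ.A Ψ.θ Ψ.θ_inj Ψ.θ_eig
  have hv := l12_v h ξ ζ hξ Ψ hθ ha hx hEs hE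
  have hD : ∀ i : Fin (d+1), 0 < S i 0 / S 0 0 := by
    intro i
    have h1 := h.pos i (by have := i.2; omega)
    have h2 := h.pos 0 (Nat.zero_le _)
    rw [h.weak.symm i 0]
    exact div_pos h1 h2
  refine ⟨fun h' i j => (S i 0 / S 0 0) * (S j 0 / S 0 0) * (N i j h' : ℝ) / (S h' 0 / S 0 0),
    ?_, ?_⟩
  · intro i j
    unfold LeonardSystem.Ai
    rw [← map_mul, hq]
    have e1 : ∀ m : Fin (d+1), aeval Ψ.A (Ψ.v m) =
        ∑ l, (Ψ.v m).eval (Ψ.θ l) • primIdem Ψ.A Ψ.θ l := fun m => hq _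
    simp only [e1, Finset.smul_sum, smul_smul]
    rw [Finset.sum_comm]
    refine Finset.sum_congr rfl fun l _ => ?_
    rw [← Finset.sum_smul]
    congr 1
    have hl : (l : ℕ) ≤ d := by have := l.2; omega
    have h0l : S 0 l ≠ 0 := h.weak.ne l hl
    have e2 := l12_sum h i j l (by have := i.2; omega) (by have := j.2; omega) hl
    rw [Finset.sum_range] at e2
    rw [Polynomial.eval_mul, hv, hv]
    have e3 : ∀ m : Fin (d+1), (S i 0 / S 0 0) * (S j 0 / S 0 0) * (N i j m : ℝ) / (S m 0 / S 0 0) *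
        (Ψ.v m).eval (Ψ.θ l) = ((S i 0 / S 0 0) * (S j 0 / S 0 0) / S 0 l) *
          ((N i j m : ℝ) * S m l) := by
      intro m
      rw [hv]
      have h1 := (hD m).ne'
      generalize S m 0 / S 0 0 = D at h1 ⊢
      field_simp
    rw [Finset.sum_congr rfl fun m _ => e3 m, ← Finset.mul_sum, e2]
    generalize S i 0 / S 0 0 = D1
    generalize S j 0 / S 0 0 = D2
    field_simp
  · intro h' i j
    refine ⟨(N i j h').toNat, ?_⟩
    have e1 : (((N i j h').toNat : ℕ) : ℂ) = (((N i j h' : ℤ) : ℝ) : ℂ) := by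
      have e2 : (((N i j h').toNat : ℕ) : ℤ) = N i j h' := Int.toNat_of_nonneg (h.Nnn _ _ _)
      have e3 : (((N i j h').toNat : ℕ) : ℂ) = ((((N i j h').toNat : ℕ) : ℤ) : ℂ) := by
        push_cast
        rfl
      rw [e3, e2]
      push_cast
      rfl
    rw [e1, l12_k h Ψ hEs hE, l12_k h Ψ hEs hE, l12_k h Ψ hEs hE]
    exact l12_sqrt _ _ _ _ (hD i) (hD j) (hD h')

end LS
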