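import Pool.Agent.LS.Defs

/-! Part `L13` of the classification of self-dual Leonard systems with integral normalized
intersection numbers (MP_963a96_al). -/
open Matrix Polynomial Finset
namespace LS

theorem l13_fin (i j : Fin (0+1)) : i = j := by
  apply Fin.ext
  omega

theorem l13_primIdem (A : Mat 0) (θ : Fin (0+1) → ℝ) (i : Fin (0+1)) : primIdem A θ i = 1 := by
  have h : (univ : Finset (Fin (0+1))).erase i = ∅ := by
    ext j
    simp [l13_fin j i]
  rw [primIdem, h, Finset.prod_empty, map_one]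

theorem l13_scalar (M : Mat 0) : M = (M 0 0) • (1 : Mat 0) := by
  ext i j
  rw [l13_fin i 0, l13_fin j 0]
  simp

theorem l13_trace_one : Matrix.trace (1 : Mat 0) = 1 := by
  simp [Matrix.trace]

theorem l13_alg (σ : Mat 0 ≃ₐ[ℝ] Mat 0) (M : Mat 0) : σ M = M := by
  rw [l13_scalar M, map_smul, map_one]

theorem l13_Tmat (α b : ℕ → ℤ) (h : α 0 = 0) : Tmat 0 α b = 0 := by
  ext i j
  rw [l13_fin i 0, l13_fin j 0]
  simp [Tmat, h]

theorem l13_diag (lam : ℕ → ℝ) (h : lam 0 = 0) :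
    Matrix.diagonal (fun i : Fin (0+1) => lam i) = 0 := by
  ext i j
  rw [l13_fin i 0, l13_fin j 0]
  simp [h]

theorem l13_item {α b : ℕ → ℤ} {lam : ℕ → ℝ} (h : Item 0 α b lam) : α 0 = 0 ∧ lam 0 = 0 := by
  have hc : Real.cos ((0 + 1) * Real.pi / (0 + 2)) = 0 := by
    have : (0 + 1) * Real.pi / (0 + 2) = Real.pi / 2 := by ring
    rw [this, Real.cos_pi_div_two]
  rcases h with h | h | h | h | h | h | h | h | h
  · obtain ⟨h1, _, h3⟩ := h
    refine ⟨h1 0 (le_refl 0), ?_⟩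
    rcases h3 with h3 | ⟨_, h3⟩
    · have h4 := h3 0 (le_refl 0)
      rw [h4]
      push_cast
      rw [hc, mul_zero]
    · have h4 := h3 0 (le_refl 0)
      rw [h4]
      push_cast
      rw [hc, mul_zero, mul_zero]
  · exact absurd h.1 (by omega)
  · exact absurd h.1 (by omega)
  · exact absurd h.1 (by omega)
  · exact absurd h.1 (by omega)
  · exact absurd h.1 (by omega)
  · exact absurd h.1 (by omega)
  · exact absurd h.1 (by omega)
  · exact absurd h.1 (by omega)

theorem l13_eig (A : Mat 0) (c : ℝ) (hA : A = c • (1 : Mat 0)) :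
    Module.End.HasEigenvalue (Matrix.toLin' A) c := by
  refine Module.End.hasEigenvalue_of_hasEigenvector (x := fun _ => (1 : ℝ)) ⟨?_, ?_⟩
  · rw [Module.End.mem_eigenspace_iff, hA, Matrix.toLin'_apply, Matrix.smul_mulVec, Matrix.one_mulVec]
  · intro h
    have h1 := congrFun h 0
    simp at h1

theorem l13_eig_eq (A : Mat 0) (c : ℝ) (h : Module.End.HasEigenvalue (Matrix.toLin' A) c) : c = A 0 0 := by
  obtain ⟨v, hv⟩ := h.exists_hasEigenvector
  have h1 := hv.apply_eq_smul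
  have h2 : v 0 ≠ 0 := by
    intro h3
    apply hv.2
    funext i
    rw [l13_fin i 0, h3]
    rfl
  rw [Matrix.toLin'_apply] at h1
  have h4 := congrFun h1 0
  rw [l13_scalar A, Matrix.smul_mulVec, Matrix.one_mulVec] at h4
  simp only [Pi.smul_apply, smul_eq_mul] at h4
  have h5 := mul_right_cancel₀ h2 h4
  rw [← h5]

theorem l13_integral (Φ : LeonardSystem 0) : Φ.IntegralN := by
  have hE : ∀ i, Φ.E i = 1 := fun i => l13_primIdem _ _ i
  have hEs : ∀ i, Φ.Es i = 1 := fun i => l13_primIdem _ _ i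
  have hν : Φ.ν = 1 := by
    rw [LeonardSystem.ν, hE, hEs, mul_one, l13_trace_one, inv_one]
  have hk : ∀ i, Φ.k i = 1 := by
    intro i
    rw [LeonardSystem.k, hν, hE, hEs, mul_one, l13_trace_one, mul_one]
  have hp : ∀ i : Fin (0+1), Φ.p i = 1 := by
    intro i
    rw [l13_fin i 0]
    show Φ.p 0 = 1
    rw [LeonardSystem.p]
  have hv : ∀ i, Φ.v i = 1 := by
    intro i
    rw [LeonardSystem.v, hk, hp, Polynomial.eval_one, div_one, map_one, one_mul]
  have hA : ∀ i, Φ.Ai i = 1 := by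
    intro i
    rw [LeonardSystem.Ai, hv, map_one]
  refine ⟨fun _ _ _ => 1, ?_, ?_⟩
  · intro i j
    simp only [hA, mul_one, one_smul]
    rw [Finset.sum_const, Finset.card_univ, Fintype.card_fin]
    simp
  · intro h i j
    refine ⟨1, ?_⟩
    rw [hk, hk, hk]
    simp

theorem l13_selfdual (Φ : LeonardSystem 0) (h : Φ.A = Φ.As) : Φ.SelfDual := by
  refine ⟨AlgEquiv.refl, ?_, ?_, ?_, ?_⟩
  · exact h
  · exact h.symm
  · intro i
    show Φ.E i = Φ.dual.E i
    rw [LeonardSystem.E, LeonardSystem.E, l13_primIdem, l13_primIdem]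
  · intro i
    show Φ.Es i = Φ.dual.Es i
    rw [LeonardSystem.Es, LeonardSystem.Es, l13_primIdem, l13_primIdem]

theorem diam_zero :
    (∀ Φ : LeonardSystem 0, (Φ.SelfDual ∧ Φ.IntegralN) ↔
      ∃ α b lam, Item 0 α b lam ∧ ∃ ξ ζ : ℝ, ξ ≠ 0 ∧ ∃ Ψ : LeonardSystem 0,
        IsStd Ψ α b lam ξ ζ ∧ LeonardSystem.Iso Φ Ψ) ∧
    (∀ α b lam, Item 0 α b lam → ∀ ξ ζ : ℝ, ξ ≠ 0 → ∃ Ψ : LeonardSystem 0,
        IsStd Ψ α b lam ξ ζ) := by
  refine ⟨fun Φ => ⟨?_, ?_⟩, ?_⟩
  · rintro ⟨hs, _⟩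
    obtain ⟨σ, h1, _, _, _⟩ := hs
    have hAA : Φ.A = Φ.As := by
      have h2 := l13_alg σ Φ.A
      rw [← h2]
      exact h1
    refine ⟨fun _ => 0, fun _ => 1, fun _ => 0, Or.inl ⟨fun _ _ => rfl, fun _ _ _ => rfl, Or.inl ?_⟩,
      1, Φ.A 0 0, one_ne_zero, Φ, ⟨?_, ?_, ?_, ?_⟩, ⟨AlgEquiv.refl, rfl, rfl, fun _ => rfl, fun _ => rfl⟩⟩
    · intro j hj
      have hj0 : j = 0 := by omega
      subst hj0
      have : ((0 : ℕ) + 1) * Real.pi / ((0 : ℕ) + 2) = Real.pi / 2 := by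
        push_cast
        ring
      rw [this, Real.cos_pi_div_two, mul_zero]
    · have hT : Tmat 0 (fun _ => (0 : ℤ)) (fun _ => (1 : ℤ)) = 0 := l13_Tmat _ _ rfl
      have hs2 : Φ.A = (1 : ℝ) • (0 : Mat 0) + (Φ.A 0 0) • (1 : Mat 0) := by
        rw [smul_zero, zero_add (a := (Φ.A 0 0) • (1 : Mat 0))]
        exact l13_scalar Φ.A
      rw [← hT] at hs2
      exact hs2
    · have hT : Matrix.diagonal (fun i : Fin (0+1) => (fun _ : ℕ => (0 : ℝ)) (i : ℕ)) = 0 :=
        l13_diag (fun _ => 0) rfl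
      have hs2 : Φ.As = (1 : ℝ) • (0 : Mat 0) + (Φ.A 0 0) • (1 : Mat 0) := by
        rw [smul_zero, zero_add (a := (Φ.A 0 0) • (1 : Mat 0)), ← hAA]
        exact l13_scalar Φ.A
      rw [← hT] at hs2
      exact hs2
    · intro i
      rw [l13_eig_eq _ _ (Φ.θ_eig i)]
      ring
    · intro i
      rw [l13_eig_eq _ _ (Φ.θs_eig i), ← hAA]
      ring
  · rintro ⟨α, b, lam, hI, ξ, ζ, hξ, Ψ, hstd, σ, h1, h2, _, _⟩
    obtain ⟨ha, hl⟩ := l13_item hI
    refine ⟨l13_selfdual Φ ?_, l13_integral Φ⟩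
    rw [l13_alg] at h1 h2
    rw [h1, h2, hstd.1, hstd.2.1, l13_Tmat _ _ ha, l13_diag _ hl]
  · intro α b lam hI ξ ζ hξ
    obtain ⟨ha, hl⟩ := l13_item hI
    have hA : ξ • Tmat 0 α b + ζ • (1 : Mat 0) = ζ • (1 : Mat 0) := by
      rw [l13_Tmat _ _ ha, smul_zero, zero_add (a := ζ • (1 : Mat 0))]
    have hAs : ξ • Matrix.diagonal (fun i : Fin (0+1) => lam i) + ζ • (1 : Mat 0) = ζ • (1 : Mat 0) := by
      rw [l13_diag _ hl, smul_zero, zero_add (a := ζ • (1 : Mat 0))]
    have hθ : ∀ i : Fin (0+1), ξ * lam i + ζ = ζ := by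
      intro i
      rw [l13_fin i 0]
      show ξ * lam 0 + ζ = ζ
      rw [hl]
      ring
    refine ⟨{ A := ξ • Tmat 0 α b + ζ • (1 : Mat 0)
              As := ξ • Matrix.diagonal (fun i : Fin (0+1) => lam i) + ζ • (1 : Mat 0)
              θ := fun i => ξ * lam i + ζ
              θs := fun i => ξ * lam i + ζ
              θ_inj := fun i j _ => l13_fin i j
              θs_inj := fun i j _ => l13_fin i j
              θ_eig := ?_
              θs_eig := ?_
              far := ?_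
              near := ?_
              fars := ?_
              nears := ?_ }, rfl, rfl, fun _ => rfl, fun _ => rfl⟩
    · intro i
      rw [hθ i]
      exact l13_eig _ _ hA
    · intro i
      rw [hθ i]
      exact l13_eig _ _ hAs
    · intro i j h
      omega
    · intro i j h
      omega
    · intro i j h
      omega
    · intro i j h
      omega

end LS
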