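import Pool.Agent.LS.Defs

/-! Part `L2` of the classification of self-dual Leonard systems with integral normalized
intersection numbers (MP_963a96_al). -/
open Matrix Polynomial Finset
namespace LS

theorem trace_algEquiv {d : ℕ} (σ : Mat d ≃ₐ[ℝ] Mat d) (M : Mat d) :
    Matrix.trace (σ M) = Matrix.trace M := by
  obtain ⟨T, hT⟩ := AlgEquiv.eq_linearEquivConjAlgEquiv
    (((Matrix.toLinAlgEquiv' (R := ℝ) (n := Fin (d+1))).symm.trans σ).trans
      (Matrix.toLinAlgEquiv' (R := ℝ) (n := Fin (d+1))))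
  have h1 : Matrix.toLin' (σ M) = T.conj (Matrix.toLin' M) := by
    have h2 := congrArg (fun f => f (Matrix.toLin' M)) hT
    have h3 : (Matrix.toLinAlgEquiv' (R := ℝ) (n := Fin (d+1))).symm (Matrix.toLin' M) = M := by
      exact LinearMap.toMatrix'_toLin' M
    simp only [AlgEquiv.trans_apply, h3] at h2
    exact h2
  rw [← Matrix.trace_toLin'_eq, h1, LinearMap.trace_conj', Matrix.trace_toLin'_eq]

theorem map_primIdem {d : ℕ} (σ : Mat d ≃ₐ[ℝ] Mat d) (A : Mat d) (θ : Fin (d+1) → ℝ)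
    (i : Fin (d+1)) : σ (primIdem A θ i) = primIdem (σ A) θ i := by
  unfold primIdem
  exact (Polynomial.aeval_algHom_apply (σ : Mat d →ₐ[ℝ] Mat d) A _).symm

end LS
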