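import Pool.Agent.LS.Defs
import Pool.Agent.LS.L1
import Pool.Agent.LS.L2
import Pool.Agent.LS.L3
import Pool.Agent.LS.L4

/-! Part `L6` of the classification of self-dual Leonard systems with integral normalized
intersection numbers (MP_963a96_al). -/
open Matrix Polynomial Finset
namespace LS

theorem l6_eig {d : ℕ} {A A' : Mat d} {θ θ' : Fin (d+1) → ℝ} (hθ : Function.Injective θ)
    (he : ∀ i, Module.End.HasEigenvalue (Matrix.toLin' A) (θ i)) (hθ' : Function.Injective θ')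
    (he' : ∀ i, Module.End.HasEigenvalue (Matrix.toLin' A') (θ' i))
    (σ : Mat d ≃ₐ[ℝ] Mat d) (hA : σ A = A') (hE : ∀ i, σ (primIdem A θ i) = primIdem A' θ' i) :
    θ = θ' := by
  obtain ⟨_, _, h3, _, _, _, _, _⟩ := primIdem_facts A θ hθ he
  obtain ⟨_, _, h3', _, h5', _, _, _⟩ := primIdem_facts A' θ' hθ' he'
  funext i
  have h1 := congrArg σ (h3 i)
  rw [map_mul, map_smul, hA, hE, h3' i] at h1
  have h2 : (θ' i - θ i) • primIdem A' θ' i = 0 := by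
    rw [sub_smul, h1, sub_self]
  rcases smul_eq_zero.1 h2 with h4 | h4
  · linarith
  · exact absurd h4 (h5' i)

theorem l6_symm {d : ℕ} {Φ Ψ : LeonardSystem d} (h : LeonardSystem.Iso Φ Ψ) :
    LeonardSystem.Iso Ψ Φ := by
  obtain ⟨σ, h1, h2, h3, h4⟩ := h
  exact ⟨σ.symm, by rw [← h1, σ.symm_apply_apply], by rw [← h2, σ.symm_apply_apply],
    fun i => by rw [← h3, σ.symm_apply_apply], fun i => by rw [← h4, σ.symm_apply_apply]⟩

theorem l6_trans {d : ℕ} {Φ Ψ Ω : LeonardSystem d} (h : LeonardSystem.Iso Φ Ψ)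
    (h' : LeonardSystem.Iso Ψ Ω) : LeonardSystem.Iso Φ Ω := by
  obtain ⟨σ, h1, h2, h3, h4⟩ := h
  obtain ⟨τ, g1, g2, g3, g4⟩ := h'
  exact ⟨σ.trans τ, by rw [AlgEquiv.trans_apply, h1, g1], by rw [AlgEquiv.trans_apply, h2, g2],
    fun i => by rw [AlgEquiv.trans_apply, h3, g3], fun i => by rw [AlgEquiv.trans_apply, h4, g4]⟩

theorem l6_dual {d : ℕ} {Φ Ψ : LeonardSystem d} (h : LeonardSystem.Iso Φ Ψ) :
    LeonardSystem.Iso Φ.dual Ψ.dual := by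
  obtain ⟨σ, h1, h2, h3, h4⟩ := h
  exact ⟨σ, h2, h1, h4, h3⟩

theorem iso_numbers {d : ℕ} (Φ Ψ : LeonardSystem d) (h : LeonardSystem.Iso Φ Ψ) :
    Φ.θ = Ψ.θ ∧ Φ.θs = Ψ.θs ∧ Φ.a = Ψ.a ∧ Φ.x = Ψ.x ∧ Φ.p = Ψ.p ∧ Φ.mu = Ψ.mu ∧
    Φ.k = Ψ.k ∧ Φ.v = Ψ.v ∧
    (∀ i, Matrix.trace (Φ.Es i * Φ.E 0) = Matrix.trace (Ψ.Es i * Ψ.E 0)) ∧
    (∀ i, Matrix.trace (Φ.E i * Φ.Es 0) = Matrix.trace (Ψ.E i * Ψ.Es 0)) := by
  obtain ⟨σ, hA, hAs, hE, hEs⟩ := h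
  have tr : ∀ M, Matrix.trace (σ M) = Matrix.trace M := trace_algEquiv σ
  have hθ : Φ.θ = Ψ.θ := l6_eig Φ.θ_inj Φ.θ_eig Ψ.θ_inj Ψ.θ_eig σ hA hE
  have hθs : Φ.θs = Ψ.θs := l6_eig Φ.θs_inj Φ.θs_eig Ψ.θs_inj Ψ.θs_eig σ hAs hEs
  have ha : Φ.a = Ψ.a := by
    funext n
    unfold LeonardSystem.a
    split_ifs with hn
    · rw [← tr, map_mul, hEs, hA]
    · rfl
  have hx : Φ.x = Ψ.x := by
    funext n
    unfold LeonardSystem.x
    split_ifs with hn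
    · rw [← tr, map_mul, map_mul, map_mul, hEs, hEs, hA]
    · rfl
  have hp : Φ.p = Ψ.p := by
    have key : ∀ n, Φ.p n = Ψ.p n ∧ Φ.p (n+1) = Ψ.p (n+1) := by
      intro n
      induction n with
      | zero =>
        constructor
        · simp only [LeonardSystem.p]
        · show X - C (Φ.a 0) = X - C (Ψ.a 0)
          rw [ha]
      | succ n ih =>
        refine ⟨ih.2, ?_⟩
        show (X - C (Φ.a (n+1))) * Φ.p (n+1) - C (Φ.x (n+1)) * Φ.p n =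
          (X - C (Ψ.a (n+1))) * Ψ.p (n+1) - C (Ψ.x (n+1)) * Ψ.p n
        rw [ih.1, ih.2, ha, hx]
    funext n
    exact (key n).1
  have hmu : Φ.mu = Ψ.mu := by
    funext j
    unfold LeonardSystem.mu
    rw [← tr, map_mul, hE, hEs]
  have h8 : ∀ i, Matrix.trace (Φ.Es i * Φ.E 0) = Matrix.trace (Ψ.Es i * Ψ.E 0) := by
    intro i
    rw [← tr, map_mul, hE, hEs]
  have h9 : ∀ i, Matrix.trace (Φ.E i * Φ.Es 0) = Matrix.trace (Ψ.E i * Ψ.Es 0) := by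
    intro i
    rw [← tr, map_mul, hE, hEs]
  have hk : Φ.k = Ψ.k := by
    funext i
    unfold LeonardSystem.k LeonardSystem.ν
    rw [h8, h9]
  have hv : Φ.v = Ψ.v := by
    funext i
    unfold LeonardSystem.v
    rw [hk, hp, hθ]
  exact ⟨hθ, hθs, ha, hx, hp, hmu, hk, hv, h8, h9⟩

theorem iso_invariance {d : ℕ} (Φ Ψ : LeonardSystem d) (h : LeonardSystem.Iso Φ Ψ) :
    LeonardSystem.Iso Ψ Φ ∧ (Φ.SelfDual ↔ Ψ.SelfDual) ∧ (Φ.IntegralN ↔ Ψ.IntegralN) := by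
  have key : ∀ Φ Ψ : LeonardSystem d, LeonardSystem.Iso Φ Ψ →
      (Φ.SelfDual → Ψ.SelfDual) ∧ (Φ.IntegralN → Ψ.IntegralN) := by
    intro Φ Ψ h
    refine ⟨fun hs => ?_, ?_⟩
    · exact l6_trans (l6_symm h) (l6_trans hs (l6_dual h))
    · rintro ⟨P, hP, hn⟩
      obtain ⟨_, _, _, _, _, _, hk, hv, _, _⟩ := iso_numbers Φ Ψ h
      obtain ⟨σ, hA, hAs, hE, hEs⟩ := h
      have hAi : ∀ i, σ (Φ.Ai i) = Ψ.Ai i := by
        intro i
        unfold LeonardSystem.Ai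
        rw [← hv, ← hA]
        exact (Polynomial.aeval_algHom_apply (σ : Mat d →ₐ[ℝ] Mat d) Φ.A (Φ.v i)).symm
      refine ⟨P, ?_, ?_⟩
      · intro i j
        have h1 := congrArg σ (hP i j)
        rw [map_mul, map_sum, hAi, hAi] at h1
        rw [h1]
        refine Finset.sum_congr rfl fun m _ => ?_
        rw [map_smul, hAi]
      · intro m i j
        rw [← hk]
        exact hn m i j
  exact ⟨l6_symm h, ⟨(key Φ Ψ h).1, (key Ψ Φ (l6_symm h)).1⟩,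
    ⟨(key Φ Ψ h).2, (key Ψ Φ (l6_symm h)).2⟩⟩

end LS
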