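import Pool.Agent.LS.Defs
import Pool.Agent.LS.L1
import Pool.Agent.LS.L3
import Pool.Agent.LS.L4

/-! Part `L5` of the classification of self-dual Leonard systems with integral normalized
intersection numbers (MP_963a96_al). -/
open Matrix Polynomial Finset
namespace LS

theorem l5_rank {d : ℕ} (A : Mat d) (θ : Fin (d+1) → ℝ) (hθ : Function.Injective θ)
    (he : ∀ i, Module.End.HasEigenvalue (Matrix.toLin' A) (θ i)) (i : Fin (d+1))
    {x y : Fin (d+1) → ℝ} (hx : primIdem A θ i *ᵥ x = x) (hy : primIdem A θ i *ᵥ y = y)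
    (hy0 : y ≠ 0) : ∃ t : ℝ, x = t • y := by
  obtain ⟨u, v, huv, -⟩ := (primIdem_facts A θ hθ he).2.2.2.2.2.2.1 i
  have hm : ∀ z : Fin (d+1) → ℝ, primIdem A θ i *ᵥ z = (v ⬝ᵥ z) • u := by
    intro z
    rw [huv]
    ext k
    simp only [Matrix.mulVec, dotProduct, Matrix.vecMulVec_apply, Pi.smul_apply, smul_eq_mul,
      Finset.sum_mul]
    exact Finset.sum_congr rfl fun l _ => by ring
  rw [hm] at hx hy
  have hvy : v ⬝ᵥ y ≠ 0 := by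
    intro h
    rw [h, zero_smul] at hy
    exact hy0 hy.symm
  refine ⟨(v ⬝ᵥ x) / (v ⬝ᵥ y), ?_⟩
  calc x = (v ⬝ᵥ x) • u := hx.symm
    _ = ((v ⬝ᵥ x) / (v ⬝ᵥ y)) • ((v ⬝ᵥ y) • u) := by
        rw [smul_smul, div_mul_cancel₀ _ hvy]
    _ = _ := by rw [hy]

theorem l5_mul_aeval {d : ℕ} (A : Mat d) (θ : Fin (d+1) → ℝ) (hθ : Function.Injective θ)
    (he : ∀ i, Module.End.HasEigenvalue (Matrix.toLin' A) (θ i)) (i : Fin (d+1)) (q : ℝ[X]) :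
    primIdem A θ i * aeval A q = q.eval (θ i) • primIdem A θ i := by
  obtain ⟨h1, -, -, -, -, h6, -⟩ := primIdem_facts A θ hθ he
  rw [h6 q, Finset.mul_sum, Finset.sum_eq_single i]
  · rw [mul_smul_comm, h1 i i, if_pos rfl]
  · intro k _ hk
    rw [mul_smul_comm, h1 i k, if_neg (Ne.symm hk), smul_zero]
  · intro h
    exact absurd (Finset.mem_univ i) h

theorem l5_core {d : ℕ} (Φ : LeonardSystem d) :
    (∀ j : Fin (d+1), (Φ.dual.p j).eval (Φ.θs 0) ≠ 0) ∧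
    (∀ i j : Fin (d+1), (Φ.dual.p j).eval (Φ.θs i) * (Φ.p i).eval (Φ.θ 0)
      = (Φ.dual.p j).eval (Φ.θs 0) * (Φ.p i).eval (Φ.θ j)) := by
  obtain ⟨⟨w, hw⟩, -, -⟩ := exists_stdBasis Φ
  obtain ⟨⟨w', hw'⟩, -, -⟩ := exists_stdBasis Φ.dual
  obtain ⟨hX, hmu, hb, -, -⟩ := eigen_facts Φ
  obtain ⟨h1, -, -, -, -, -, -⟩ := primIdem_facts Φ.As Φ.θs Φ.θs_inj Φ.θs_eig
  obtain ⟨g1, -, -, -, -, -, -⟩ := primIdem_facts Φ.A Φ.θ Φ.θ_inj Φ.θ_eig
  have hbz := fun j => hb w hw j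
  have hp0 : ∀ x : ℝ, (Φ.p ((0 : Fin (d+1)) : ℕ)).eval x = 1 := by
    intro x
    show (Φ.p 0).eval x = 1
    show (1 : ℝ[X]).eval x = 1
    exact Polynomial.eval_one
  have hX0 : Φ.xprod ((0 : Fin (d+1)) : ℕ) = 1 := by
    simp [LeonardSystem.xprod]

  have hz : ∀ j, Φ.E j *ᵥ w 0 ≠ 0 := by
    intro j hj
    rw [hbz j] at hj
    have := Fintype.linearIndependent_iff.1 hw.indep _ hj 0
    rw [hp0, hX0, mul_one, div_one] at this
    exact hmu j this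
  have hEE : ∀ j, Φ.E j *ᵥ (Φ.E j *ᵥ w 0) = Φ.E j *ᵥ w 0 := by
    intro j
    rw [Matrix.mulVec_mulVec]
    have := g1 j j
    rw [if_pos rfl] at this
    unfold LeonardSystem.E
    rw [this]

  have hEw : ∀ i k : Fin (d+1), Φ.Es i *ᵥ w k = if i = k then w i else 0 := by
    intro i k
    rw [← hw.es k, Matrix.mulVec_mulVec]
    have := h1 i k
    unfold LeonardSystem.Es
    rw [this]
    by_cases hik : i = k
    · subst hik
      rw [if_pos rfl, if_pos rfl]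
      exact hw.es i
    · rw [if_neg hik, if_neg hik, Matrix.zero_mulVec]
  have hEz : ∀ i j : Fin (d+1), Φ.Es i *ᵥ (Φ.E j *ᵥ w 0)
      = (Φ.mu j * (Φ.p i).eval (Φ.θ j) / Φ.xprod i) • w i := by
    intro i j
    rw [hbz j]
    have hsum : Φ.Es i *ᵥ (∑ k : Fin (d+1), (Φ.mu j * (Φ.p k).eval (Φ.θ j) / Φ.xprod k) • w k)
        = ∑ k : Fin (d+1), Φ.Es i *ᵥ ((Φ.mu j * (Φ.p k).eval (Φ.θ j) / Φ.xprod k) • w k) := by
      have := map_sum (Matrix.mulVecLin (Φ.Es i))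
        (fun k : Fin (d+1) => (Φ.mu j * (Φ.p k).eval (Φ.θ j) / Φ.xprod k) • w k) Finset.univ
      exact this
    rw [hsum, Finset.sum_eq_single i]
    · rw [Matrix.mulVec_smul, hEw i i, if_pos rfl]
    · intro k _ hk
      rw [Matrix.mulVec_smul, hEw i k, if_neg (Ne.symm hk), smul_zero]
    · intro h
      exact absurd (Finset.mem_univ i) h

  obtain ⟨t, ht⟩ := l5_rank Φ.A Φ.θ Φ.θ_inj Φ.θ_eig 0 (hEE 0) (hw'.es 0) (hw'.ne 0 (Nat.zero_le _))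
  have ht' : Φ.E 0 *ᵥ w 0 = t • w' 0 := ht
  have ht0 : t ≠ 0 := by
    intro h
    rw [h, zero_smul] at ht'
    exact hz 0 ht'
  have hpol : ∀ j : Fin (d+1), (aeval Φ.As (Φ.dual.p j)) *ᵥ (Φ.E 0 *ᵥ w 0) = t • w' j := by
    intro j
    rw [ht', Matrix.mulVec_smul]
    have := hw'.pol j (Nat.lt_succ_iff.1 j.2)
    rw [show (Φ.As : Mat d) = Φ.dual.A from rfl, this]

  have hκ : ∀ j : Fin (d+1), ∃ κ : ℝ, t • w' j = κ • (Φ.E j *ᵥ w 0) := by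
    intro j
    refine l5_rank Φ.A Φ.θ Φ.θ_inj Φ.θ_eig j ?_ (hEE j) (hz j)
    rw [Matrix.mulVec_smul]
    have := hw'.es j
    rw [show primIdem Φ.A Φ.θ j = Φ.dual.Es j from rfl, this]
  have key : ∀ j : Fin (d+1), ∃ κ : ℝ, t • w' j = κ • (Φ.E j *ᵥ w 0) ∧
      ∀ i : Fin (d+1), (Φ.dual.p j).eval (Φ.θs i) * (Φ.mu 0 * (Φ.p i).eval (Φ.θ 0))
        = κ * (Φ.mu j * (Φ.p i).eval (Φ.θ j)) := by
    intro j
    obtain ⟨κ, hk⟩ := hκ j
    refine ⟨κ, hk, fun i => ?_⟩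
    have e1 : Φ.Es i *ᵥ ((aeval Φ.As (Φ.dual.p j)) *ᵥ (Φ.E 0 *ᵥ w 0))
        = (Φ.dual.p j).eval (Φ.θs i) • (Φ.Es i *ᵥ (Φ.E 0 *ᵥ w 0)) := by
      rw [Matrix.mulVec_mulVec]
      have := l5_mul_aeval Φ.As Φ.θs Φ.θs_inj Φ.θs_eig i (Φ.dual.p j)
      rw [show Φ.Es i * aeval Φ.As (Φ.dual.p j) = (Φ.dual.p j).eval (Φ.θs i) • Φ.Es i from this,
        Matrix.smul_mulVec]
    rw [hpol j, hk, Matrix.mulVec_smul, hEz i j, hEz i 0, smul_smul, smul_smul] at e1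
    have e2 := sub_eq_zero.2 e1
    rw [← sub_smul] at e2
    have hwi : w (i : ℕ) ≠ 0 := hw.ne i (Nat.lt_succ_iff.1 i.2)
    rcases smul_eq_zero.1 e2 with e3 | e3
    · have hXi := hX i (Nat.lt_succ_iff.1 i.2)
      have e4 := sub_eq_zero.1 e3
      rw [← mul_div_assoc, ← mul_div_assoc, div_left_inj' hXi] at e4
      exact e4.symm
    · exact absurd e3 hwi
  constructor
  · intro j hj
    obtain ⟨κ, hk, hi⟩ := key j
    have e0 := hi 0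
    rw [hp0, hp0, hj, zero_mul, mul_one] at e0
    have hκ0 : κ = 0 := by
      rcases mul_eq_zero.1 e0.symm with h | h
      · exact h
      · exact absurd h (hmu j)
    rw [hκ0, zero_smul] at hk
    rcases smul_eq_zero.1 hk with h | h
    · exact ht0 h
    · exact hw'.ne j (Nat.lt_succ_iff.1 j.2) h
  · intro i j
    obtain ⟨κ, hk, hi⟩ := key j
    have e0 := hi 0
    rw [hp0, hp0, mul_one, mul_one] at e0
    have e1 := hi i
    have hm0 := hmu 0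
    have e2 : Φ.mu 0 * ((Φ.dual.p j).eval (Φ.θs i) * (Φ.p i).eval (Φ.θ 0)
        - (Φ.dual.p j).eval (Φ.θs 0) * (Φ.p i).eval (Φ.θ j)) = 0 := by
      linear_combination e1 - (Φ.p i).eval (Φ.θ j) * e0
    rcases mul_eq_zero.1 e2 with h | h
    · exact absurd h hm0
    · linarith

theorem aw_duality {d : ℕ} (Φ : LeonardSystem d) :
    (∀ i : Fin (d+1), (Φ.p i).eval (Φ.θ 0) ≠ 0) ∧
    (∀ i : Fin (d+1), (Φ.dual.p i).eval (Φ.θs 0) ≠ 0) ∧
    (∀ i j : Fin (d+1), (Φ.dual.p j).eval (Φ.θs i) * (Φ.p i).eval (Φ.θ 0)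
      = (Φ.dual.p j).eval (Φ.θs 0) * (Φ.p i).eval (Φ.θ j)) := by
  obtain ⟨h1, h2⟩ := l5_core Φ
  obtain ⟨h3, -⟩ := l5_core Φ.dual
  exact ⟨h3, h1, h2⟩

end LS
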