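import Pool.Agent.LS.Defs
import Pool.Agent.LS.L1
import Pool.Agent.LS.L2
import Pool.Agent.LS.L3
import Pool.Agent.LS.L4
import Pool.Agent.LS.L5
import Pool.Agent.LS.L6

/-! Part `L7` of the classification of self-dual Leonard systems with integral normalized
intersection numbers (MP_963a96_al). -/
open Matrix Polynomial Finset
namespace LS

theorem l7_half (t : ℝ) (ht : 0 ≤ t) : ((t : ℝ) : ℂ) ^ ((1:ℂ)/2) = ((Real.sqrt t : ℝ) : ℂ) := by
  rw [Real.sqrt_eq_rpow, Complex.ofReal_cpow ht]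
  norm_num

theorem l7_core {d : ℕ} (k : Fin (d+1) → ℝ) (ν : ℝ) (W : Fin (d+1) → Fin (d+1) → ℝ)
    (P : Fin (d+1) → Fin (d+1) → Fin (d+1) → ℝ)
    (hk0 : k 0 = 1) (hk : ∀ i, k i ≠ 0) (hν : ν ≠ 0) (hW0 : ∀ l, W 0 l = 1)
    (horth : ∀ i h, ∑ l, k l * W i l * W h l = if i = h then ν / k i else 0)
    (hP : ∀ i j l, k i * W i l * (k j * W j l) = ∑ h, P h i j * (k h * W h l))
    (hN : ∀ h i j, ∃ n : ℕ,
      ((P h i j : ℝ) : ℂ) * (((k h / (k i * k j) : ℝ)) : ℂ) ^ ((1:ℂ)/2) = (n : ℂ)) :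
    (∀ i, 0 < k i) ∧ 0 < ν ∧
    ∃ (N : Fin (d+1) → Fin (d+1) → Fin (d+1) → ℕ),
      (∀ j, 0 < Real.sqrt (k 0 * k j / ν) * W 0 j) ∧
      (∀ i j, ∑ l, (Real.sqrt (k i * k l / ν) * W i l) * (Real.sqrt (k j * k l / ν) * W j l)
        = if i = j then 1 else 0) ∧
      (∀ i j h, (N i j h : ℝ) = ∑ l, (Real.sqrt (k i * k l / ν) * W i l) *
        (Real.sqrt (k j * k l / ν) * W j l) * (Real.sqrt (k h * k l / ν) * W h l) /
        (Real.sqrt (k 0 * k l / ν) * W 0 l)) := by

  have hPf : ∀ h i j, ν * P h i j = k i * k j * ∑ l, k l * W i l * W j l * W h l := by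
    intro h i j
    have h1 : ∑ l, k l * W h l * (k i * W i l * (k j * W j l))
        = ∑ l, k l * W h l * ∑ h', P h' i j * (k h' * W h' l) :=
      Finset.sum_congr rfl (fun l _ => by rw [hP i j l])
    have h2 : ∑ l, k l * W h l * ∑ h', P h' i j * (k h' * W h' l)
        = ∑ h', P h' i j * k h' * ∑ l, k l * W h l * W h' l := by
      simp only [Finset.mul_sum]
      rw [Finset.sum_comm]
      refine Finset.sum_congr rfl (fun h' _ => Finset.sum_congr rfl (fun l _ => by ring))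
    rw [h2] at h1
    simp only [horth, mul_ite, mul_zero, Finset.sum_ite_eq, Finset.mem_univ, if_true] at h1
    have h3 : P h i j * k h * (ν / k h) = ν * P h i j := by
      have := hk h
      field_simp
    rw [h3] at h1
    rw [← h1, Finset.mul_sum]
    exact Finset.sum_congr rfl (fun l _ => by ring)
  have hP0 : ∀ i, P 0 i i = k i := by
    intro i
    have h1 := hPf 0 i i
    have h2 : ∑ l, k l * W i l * W i l * W 0 l = ν / k i := by
      have := horth i i
      rw [if_pos rfl] at this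
      rw [← this]
      exact Finset.sum_congr rfl (fun l _ => by rw [hW0, mul_one])
    rw [h2] at h1
    have h3 : k i * k i * (ν / k i) = ν * k i := by
      have := hk i
      field_simp
    rw [h3] at h1
    exact mul_left_cancel₀ hν h1
  have hkpos : ∀ i, 0 < k i := by
    intro i
    obtain ⟨n, hn⟩ := hN 0 i i
    have hnn : 0 ≤ 1 / (k i * k i) := by
      have := mul_self_nonneg (k i)
      positivity
    rw [hP0, hk0, l7_half _ hnn] at hn
    have hn' : k i * Real.sqrt (1 / (k i * k i)) = n := by exact_mod_cast hn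
    have hs : 0 < Real.sqrt (1 / (k i * k i)) := by
      apply Real.sqrt_pos.mpr
      have : 0 < k i * k i := mul_self_pos.mpr (hk i)
      positivity
    have h0 : 0 ≤ k i * Real.sqrt (1 / (k i * k i)) := by
      rw [hn']; positivity
    have h1 : 0 ≤ k i := by
      by_contra hneg
      push Not at hneg
      have := mul_neg_of_neg_of_pos hneg hs
      linarith
    exact lt_of_le_of_ne h1 (Ne.symm (hk i))
  have hνpos : 0 < ν := by
    have h1 := horth 0 0
    rw [if_pos rfl, hk0, div_one] at h1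
    rw [← h1]
    apply Finset.sum_pos
    · intro l _
      rw [hW0, mul_one, mul_one]
      exact hkpos l
    · exact Finset.univ_nonempty
  refine ⟨hkpos, hνpos, ?_⟩
  set r : Fin (d+1) → ℝ := fun i => Real.sqrt (k i) with hr
  set s : ℝ := Real.sqrt ν with hs
  have hrpos : ∀ i, 0 < r i := fun i => Real.sqrt_pos.mpr (hkpos i)
  have hspos : 0 < s := Real.sqrt_pos.mpr hνpos
  have hr2 : ∀ i, k i = r i * r i := fun i => (Real.mul_self_sqrt (hkpos i).le).symm
  have hs2 : ν = s * s := (Real.mul_self_sqrt hνpos.le).symm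
  have hsq : ∀ i j, Real.sqrt (k i * k j / ν) = r i * r j / s := by
    intro i j
    rw [Real.sqrt_div (mul_pos (hkpos i) (hkpos j)).le, Real.sqrt_mul (hkpos i).le]
  have hr0 : r 0 = 1 := by simp [hr, hk0]
  choose N hNn using hN
  refine ⟨fun i j h => N h i j, ?_, ?_, ?_⟩
  · intro j
    rw [hW0, mul_one, hsq]
    have := hrpos 0
    have := hrpos j
    positivity
  · intro i j
    have h1 : ∀ l, (Real.sqrt (k i * k l / ν) * W i l) * (Real.sqrt (k j * k l / ν) * W j l)
        = r i * r j / ν * (k l * W i l * W j l) := by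
      intro l
      rw [hsq, hsq, hs2, hr2 l]
      field_simp
    simp only [h1, ← Finset.mul_sum, horth]
    split_ifs with hij
    · subst hij
      rw [hr2 i]
      have := (hrpos i).ne'
      field_simp
    · rw [mul_zero]
  · intro i j h
    have h1 : ∀ l, (Real.sqrt (k i * k l / ν) * W i l) *
        (Real.sqrt (k j * k l / ν) * W j l) * (Real.sqrt (k h * k l / ν) * W h l) /
        (Real.sqrt (k 0 * k l / ν) * W 0 l)
        = r i * r j * r h / ν * (k l * W i l * W j l * W h l) := by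
      intro l
      rw [hW0, mul_one, hsq, hsq, hsq, hsq, hs2, hr2 l, hr0]
      have := (hrpos l).ne'
      field_simp
    simp only [h1, ← Finset.mul_sum]
    have h2 := hPf h i j
    have h3 := hNn h i j
    have hnn : 0 ≤ k h / (k i * k j) := by
      have := hkpos h
      have := hkpos i
      have := hkpos j
      positivity
    rw [l7_half _ hnn] at h3
    have h4 : P h i j * Real.sqrt (k h / (k i * k j)) = N h i j := by exact_mod_cast h3
    have h5 : Real.sqrt (k h / (k i * k j)) = r h / (r i * r j) := by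
      rw [Real.sqrt_div (hkpos h).le, Real.sqrt_mul (hkpos i).le]
    rw [h5] at h4
    rw [← h4]
    have h6 : ∑ l, k l * W i l * W j l * W h l = ν * P h i j / (k i * k j) := by
      rw [h2]
      have := hk i
      have := hk j
      field_simp
    rw [h6, hr2 i, hr2 j]
    have := (hrpos i).ne'
    have := (hrpos j).ne'
    field_simp

theorem exists_S {d : ℕ} (Φ : LeonardSystem d) (hs : Φ.SelfDual) (hN : Φ.IntegralN) :
    Φ.θs = Φ.θ ∧ (∀ i : Fin (d+1), 0 < Φ.k i) ∧ 0 < Φ.ν ∧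
    (∀ i : Fin (d+1), Φ.k i * Φ.xprod i = (Φ.p i).eval (Φ.θ 0) ^ 2) ∧
    ∃ (S : Fin (d+1) → Fin (d+1) → ℝ) (N : Fin (d+1) → Fin (d+1) → Fin (d+1) → ℕ),
      (∀ i j, S i j = Real.sqrt (Φ.k i * Φ.k j / Φ.ν) *
        ((Φ.p i).eval (Φ.θ j) / (Φ.p i).eval (Φ.θ 0))) ∧
      (∀ i j, S i j = S j i) ∧ (∀ j, 0 < S 0 j) ∧
      (∀ i j, ∑ l, S i l * S j l = if i = j then 1 else 0) ∧
      (∀ i j h, (N i j h : ℝ) = ∑ l, S i l * S j l * S h l / S 0 l) := by
  obtain ⟨hθ, hθs, -, -, hp, -, -, -, htr, -⟩ := iso_numbers Φ Φ.dual hs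
  have hθθ : Φ.θs = Φ.θ := hθ.symm
  have hpd : Φ.dual.p = Φ.p := hp.symm
  obtain ⟨hX, hmu, -, horth, hd⟩ := eigen_facts Φ
  obtain ⟨hq, -, haw⟩ := aw_duality Φ
  obtain ⟨hE2, -, -, -, hEne, hEq, -, -⟩ := primIdem_facts Φ.A Φ.θ Φ.θ_inj Φ.θ_eig
  have hm : ∀ i, Matrix.trace (Φ.Es i * Φ.E 0) = Φ.mu i := htr
  have hνdef : Φ.ν = (Φ.mu 0)⁻¹ := rfl
  have hμ0 : Φ.mu 0 ≠ 0 := hmu 0
  have hkmu : ∀ i, Φ.k i * Φ.mu 0 = Φ.mu i := by
    intro i
    have : Φ.k i = (Φ.mu 0)⁻¹ * Φ.mu i := by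
      rw [← hm i]; rfl
    rw [this]
    field_simp
  have hkne : ∀ i, Φ.k i ≠ 0 := by
    intro i h0
    have := hkmu i
    rw [h0, zero_mul] at this
    exact hmu i this.symm
  have hk0 : Φ.k 0 = 1 := by
    have := hkmu 0
    exact mul_right_cancel₀ hμ0 (by rw [this, one_mul])
  have hνne : Φ.ν ≠ 0 := by rw [hνdef]; exact inv_ne_zero hμ0
  have hkX : ∀ i : Fin (d+1), Φ.k i * Φ.xprod i = (Φ.p i).eval (Φ.θ 0) ^ 2 := by
    intro i
    have h1 := hd i
    rw [hm i, ← hkmu i] at h1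
    have h2 : Φ.mu 0 * (Φ.k i * Φ.xprod i) = Φ.mu 0 * (Φ.p i).eval (Φ.θ 0) ^ 2 := by
      rw [← h1]; ring
    exact mul_left_cancel₀ hμ0 h2
  set W : Fin (d+1) → Fin (d+1) → ℝ :=
    fun i j => (Φ.p i).eval (Φ.θ j) / (Φ.p i).eval (Φ.θ 0) with hW
  have hWsym : ∀ i j, W i j = W j i := by
    intro i j
    have h1 := haw i j
    rw [hpd, hθθ] at h1
    simp only [hW]
    rw [div_eq_div_iff (hq i) (hq j)]
    linarith
  have hW0 : ∀ l, W 0 l = 1 := by
    intro l
    have : Φ.p ((0 : Fin (d+1)) : ℕ) = 1 := by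
      simp [LeonardSystem.p]
    simp only [hW, this, Polynomial.eval_one, div_one]
  have horthW : ∀ i h, ∑ l, Φ.k l * W i l * W h l = if i = h then Φ.ν / Φ.k i else 0 := by
    intro i h
    have h1 := horth i h
    have h2 : ∀ l, Φ.mu l * (Φ.p i).eval (Φ.θ l) * (Φ.p h).eval (Φ.θ l)
        = Φ.mu 0 * (Φ.p i).eval (Φ.θ 0) * (Φ.p h).eval (Φ.θ 0) * (Φ.k l * W i l * W h l) := by
      intro l
      rw [← hkmu l]
      simp only [hW]
      have := hq i
      have := hq h
      field_simp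
    rw [Finset.sum_congr rfl (fun l _ => h2 l), ← Finset.mul_sum] at h1
    split_ifs at h1 ⊢ with hih
    · subst hih
      have h3 := hkX i
      have hkk := hkne i
      have hqq := hq i
      have h4 : Φ.xprod i = (Φ.p i).eval (Φ.θ 0) ^ 2 / Φ.k i := by
        rw [← h3]; field_simp
      rw [h4] at h1
      rw [hνdef]
      field_simp at h1 ⊢
      linarith
    · rcases mul_eq_zero.mp h1 with h3 | h3
      · exfalso
        exact (mul_ne_zero (mul_ne_zero hμ0 (hq i)) (hq h)) h3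
      · exact h3
  obtain ⟨P, hPI, hPN⟩ := hN
  have hPrel : ∀ i j l, Φ.k i * W i l * (Φ.k j * W j l) = ∑ h, P h i j * (Φ.k h * W h l) := by
    intro i j l
    have hv : ∀ h, (Φ.v h).eval (Φ.θ l) = Φ.k h * W h l := by
      intro h
      simp only [LeonardSystem.v, hW, Polynomial.eval_mul, Polynomial.eval_C]
      ring
    have hA : ∀ h, Φ.Ai h * primIdem Φ.A Φ.θ l = (Φ.k h * W h l) • primIdem Φ.A Φ.θ l := by
      intro h
      rw [LeonardSystem.Ai, hEq (Φ.v h), Finset.sum_mul]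
      simp only [Matrix.smul_mul, hE2, smul_ite, smul_zero, Finset.sum_ite_eq',
        Finset.mem_univ, if_true, hv]
    have h1 := hPI i j
    have h2 : Φ.Ai i * Φ.Ai j * primIdem Φ.A Φ.θ l
        = (∑ h, P h i j • Φ.Ai h) * primIdem Φ.A Φ.θ l := by rw [h1]
    rw [Matrix.mul_assoc, hA j, Matrix.mul_smul, hA i, Finset.sum_mul, smul_smul] at h2
    simp only [Matrix.smul_mul, hA, smul_smul] at h2
    rw [← Finset.sum_smul] at h2
    have h3 := smul_left_injective ℝ (hEne l) h2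
    rw [← h3]
    ring
  obtain ⟨hkpos, hνpos, N, hS0, hSo, hSN⟩ := l7_core Φ.k Φ.ν W P hk0 hkne hνne hW0 horthW hPrel hPN
  refine ⟨hθθ, hkpos, hνpos, hkX,
    fun i j => Real.sqrt (Φ.k i * Φ.k j / Φ.ν) * W i j, N, fun i j => rfl, ?_, hS0, hSo, hSN⟩
  intro i j
  simp only
  rw [hWsym i j, mul_comm (Φ.k i) (Φ.k j)]

end LS
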