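import Pool.Agent.LS.Defs
import Pool.Agent.LS.Core
import Pool.Agent.LS.L1
import Pool.Agent.LS.L3
import Pool.Agent.LS.L4
import Pool.Agent.LS.L5
import Pool.Agent.LS.L6
import Pool.Agent.LS.L7

/-! Part `L8` of the classification of self-dual Leonard systems with integral normalized
intersection numbers (MP_963a96_al). -/
open Matrix Polynomial Finset
namespace LS

theorem l8_core {d : ℕ} (hd : 1 ≤ d) (θ a x r : ℕ → ℝ) (S : ℕ → ℕ → ℝ) (N : ℕ → ℕ → ℕ → ℤ)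
    (hsymm : ∀ i j, S i j = S j i) (hout : ∀ i j, d < i → S i j = 0)
    (horth : ∀ i ≤ d, ∀ j ≤ d, ∑ l ∈ range (d+1), S i l * S j l = if i = j then 1 else 0)
    (hpos : ∀ j ≤ d, 0 < S 0 j) (hNnn : ∀ i j h, 0 ≤ N i j h)
    (hNout : ∀ i j h, d < i ∨ d < j ∨ d < h → N i j h = 0)
    (hNdef : ∀ i ≤ d, ∀ j ≤ d, ∀ h ≤ d,
      (N i j h : ℝ) = ∑ l ∈ range (d+1), S i l * S j l * S h l / S 0 l)
    (hr0 : r 0 = 0) (hr : ∀ i, 1 ≤ i → i ≤ d → r i ≠ 0)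
    (hrx : ∀ i, 1 ≤ i → i ≤ d → x i = r i ^ 2)
    (hrec : ∀ i ≤ d, ∀ j ≤ d,
      θ j * S i j = r (i+1) * S (i+1) j + a i * S i j + r i * S (i-1) j) :
    ∃ (α b : ℕ → ℤ) (lam : ℕ → ℝ), Str d α b lam S N ∧
      (∀ i ≤ d, θ i = r 1 * lam i + a 0) ∧ (∀ i ≤ d, a i = r 1 * α i + a 0) ∧
      (∀ i, 1 ≤ i → i ≤ d → x i = r 1 ^ 2 * (b i) ^ 2) := by
  have hξ : r 1 ≠ 0 := hr 1 le_rfl hd
  have hθ : ∀ j ≤ d, θ j = r 1 * (S 1 j / S 0 j) + a 0 := by
    intro j hj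
    have h1 := hrec 0 (Nat.zero_le d) j hj
    have h2 := (hpos j hj).ne'
    rw [hr0, zero_mul, add_zero, zero_add] at h1
    field_simp
    linarith
  have hkey : ∀ i ≤ d, ∀ h ≤ d, r 1 * (N 1 i h : ℝ) + a 0 * (if i = h then 1 else 0) =
      ∑ l ∈ range (d+1), θ l * S i l * S h l := by
    intro i hi h hh
    rw [hNdef 1 hd i hi h hh, ← horth i hi h hh, Finset.mul_sum, Finset.mul_sum,
      ← Finset.sum_add_distrib]
    refine Finset.sum_congr rfl (fun l hl => ?_)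
    rw [hθ l (by rw [Finset.mem_range] at hl; omega)]
    ring
  have hsum : ∀ i ≤ d, ∀ h ≤ d, ∑ l ∈ range (d+1), θ l * S i l * S h l =
      r (i+1) * (if i + 1 = h then 1 else 0) + a i * (if i = h then 1 else 0) +
        r i * (if i - 1 = h then 1 else 0) := by
    intro i hi h hh
    have h1 : ∑ l ∈ range (d+1), S (i+1) l * S h l = if i + 1 = h then 1 else 0 := by
      rcases Nat.lt_or_ge i d with h2 | h2
      · exact horth (i+1) h2 h hh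
      · rw [if_neg (by omega)]
        refine Finset.sum_eq_zero (fun l _ => ?_)
        rw [hout (i+1) l (by omega), zero_mul]
    rw [← h1, ← horth i hi h hh, ← horth (i-1) (by omega) h hh, Finset.mul_sum, Finset.mul_sum,
      Finset.mul_sum, ← Finset.sum_add_distrib, ← Finset.sum_add_distrib]
    refine Finset.sum_congr rfl (fun l hl => ?_)
    rw [hrec i hi l (by rw [Finset.mem_range] at hl; omega)]
    ring
  have hα : ∀ i ≤ d, a i = r 1 * (N 1 i i : ℝ) + a 0 := by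
    intro i hi
    have h1 := hkey i hi i hi
    rw [hsum i hi i hi, if_pos rfl, if_neg (by omega)] at h1
    have h2 : r i * (if i - 1 = i then (1 : ℝ) else 0) = 0 := by
      split_ifs with h3
      · have : i = 0 := by omega
        rw [this, hr0, zero_mul]
      · rw [mul_zero]
    rw [h2] at h1
    linarith
  have hb : ∀ i, 1 ≤ i → i ≤ d → r i = r 1 * (N 1 (i-1) i : ℝ) := by
    intro i hi1 hi
    have h1 := hkey (i-1) (by omega) i hi
    rw [hsum (i-1) (by omega) i hi, if_neg (by omega), if_pos (by omega), if_neg (by omega),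
      Nat.sub_add_cancel hi1] at h1
    linarith
  have hbne : ∀ i, 1 ≤ i → i ≤ d → 1 ≤ N 1 (i-1) i := by
    intro i hi1 hi
    have h1 := hNnn 1 (i-1) i
    rcases h1.lt_or_eq with h2 | h2
    · omega
    · exfalso
      have h3 := hb i hi1 hi
      rw [← h2, Int.cast_zero, mul_zero] at h3
      exact hr i hi1 hi h3
  have hα0 : N 1 0 0 = 0 := by
    have h1 := hα 0 (Nat.zero_le d)
    have h2 : r 1 * (N 1 0 0 : ℝ) = 0 := by linarith
    have h3 := (mul_eq_zero.1 h2).resolve_left hξ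
    exact_mod_cast h3
  have hb1 : N 1 0 1 = 1 := by
    have h1 := hb 1 le_rfl hd
    have h2 : r 1 * ((N 1 (1-1) 1 : ℝ) - 1) = 0 := by linarith
    have h3 := (mul_eq_zero.1 h2).resolve_left hξ
    have h4 : (N 1 0 1 : ℝ) = 1 := by
      have h5 : (N 1 (1-1) 1 : ℝ) = 1 := by linarith
      exact h5
    exact_mod_cast h4
  refine ⟨fun i => N 1 i i, fun i => if i = 0 then 0 else N 1 (i-1) i, fun j => S 1 j / S 0 j,
    ⟨⟨hd, hα0, fun i => hNnn 1 i i, fun i hi => hNout 1 i i (Or.inr (Or.inl hi)), if_pos rfl,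
      ?_, ?_, ?_⟩, ⟨hsymm, hout, horth, fun j hj => (hpos j hj).ne', ?_⟩, hpos, ?_, hNnn, hNout,
      hNdef⟩, hθ, hα, ?_⟩
  · show (if (1 : ℕ) = 0 then (0 : ℤ) else N 1 (1-1) 1) = 1
    rw [if_neg one_ne_zero]
    exact hb1
  · intro i hi1 hi
    show 1 ≤ (if i = 0 then (0 : ℤ) else N 1 (i-1) i)
    rw [if_neg (by omega)]
    exact hbne i hi1 hi
  · intro i hi
    show (if i = 0 then (0 : ℤ) else N 1 (i-1) i) = 0
    rw [if_neg (by omega)]
    exact hNout 1 (i-1) i (Or.inr (Or.inr hi))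
  · intro i hi j hj
    show S 1 j / S 0 j * S i j = ((if i = 0 then (0 : ℤ) else N 1 (i-1) i : ℤ) : ℝ) * S (i-1) j +
      (N 1 i i : ℝ) * S i j + ((if i + 1 = 0 then (0 : ℤ) else N 1 (i+1-1) (i+1) : ℤ) : ℝ) * S (i+1) j
    have h1 := hrec i hi j hj
    have h2 : r i = r 1 * ((if i = 0 then (0 : ℤ) else N 1 (i-1) i : ℤ) : ℝ) := by
      split_ifs with h3
      · rw [h3, hr0, Int.cast_zero, mul_zero]
      · exact hb i (by omega) hi
    have h4 : r (i+1) * S (i+1) j =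
        r 1 * (((if i + 1 = 0 then (0 : ℤ) else N 1 (i+1-1) (i+1) : ℤ) : ℝ) * S (i+1) j) := by
      rcases Nat.lt_or_ge i d with h5 | h5
      · rw [if_neg (by omega), hb (i+1) (by omega) h5]
        ring
      · rw [hout (i+1) j (by omega), mul_zero, mul_zero, mul_zero]
    rw [h4, h2, hα i hi, hθ j hj] at h1
    apply mul_left_cancel₀ hξ
    linear_combination h1
  · intro j hj
    show S 1 j / S 0 j = 0
    rw [hsymm 1 j, hout j 1 hj, zero_div]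
  · intro i hi1 hi
    show x i = r 1 ^ 2 * ((if i = 0 then (0 : ℤ) else N 1 (i-1) i : ℤ) : ℝ) ^ 2
    rw [if_neg (by omega), hrx i hi1 hi, hb i hi1 hi]
    ring

theorem l8_last {d : ℕ} (Φ : LeonardSystem d) (j : Fin (d+1)) :
    (Φ.p (d+1)).eval (Φ.θ j) = 0 := by
  obtain ⟨⟨w, hw⟩, -, -⟩ := exists_stdBasis Φ
  obtain ⟨hX, hμ, hE, -, -⟩ := eigen_facts Φ
  obtain ⟨hm, -, -, -, -, hq, -, -⟩ := primIdem_facts Φ.A Φ.θ Φ.θ_inj Φ.θ_eig
  have h1 : Φ.E j *ᵥ w 0 ≠ 0 := by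
    intro h0
    have h2 := hE w hw j
    rw [h0] at h2
    have h3 := Fintype.linearIndependent_iff.1 hw.indep _ h2.symm 0
    have h4 : Φ.xprod ((0 : Fin (d+1)) : ℕ) = 1 := by
      simp [LeonardSystem.xprod]
    have h5 : Φ.p ((0 : Fin (d+1)) : ℕ) = 1 := by
      simp [LeonardSystem.p]
    rw [h4, h5, eval_one, mul_one, div_one] at h3
    exact hμ j h3
  have h2 : Φ.E j * aeval Φ.A (Φ.p (d+1)) = (Φ.p (d+1)).eval (Φ.θ j) • Φ.E j := by
    rw [hq, Finset.mul_sum]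
    rw [Finset.sum_eq_single j]
    · rw [Matrix.mul_smul]
      congr 1
      have := hm j j
      rw [if_pos rfl] at this
      exact this
    · intro i _ hi
      rw [Matrix.mul_smul]
      have := hm j i
      rw [if_neg (Ne.symm hi)] at this
      have h3 : Φ.E j * primIdem Φ.A Φ.θ i = 0 := this
      rw [h3, smul_zero]
    · intro h
      exact absurd (Finset.mem_univ j) h
  have h3 : (Φ.p (d+1)).eval (Φ.θ j) • (Φ.E j *ᵥ w 0) = 0 := by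
    rw [← Matrix.smul_mulVec, ← h2, ← Matrix.mulVec_mulVec, hw.last, Matrix.mulVec_zero]
  exact (smul_eq_zero.1 h3).resolve_right h1

theorem exists_Str {d : ℕ} (hd : 1 ≤ d) (Φ : LeonardSystem d) (hs : Φ.SelfDual)
    (hN : Φ.IntegralN) :
    ∃ (α b : ℕ → ℤ) (lam : ℕ → ℝ) (S : ℕ → ℕ → ℝ) (N : ℕ → ℕ → ℕ → ℤ) (ξ ζ : ℝ),
      Str d α b lam S N ∧ ξ ≠ 0 ∧ (∀ i : Fin (d+1), Φ.θ i = ξ * lam i + ζ) ∧
      (∀ i : Fin (d+1), Φ.θs i = ξ * lam i + ζ) ∧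
      (∀ i ≤ d, Φ.a i = ξ * α i + ζ) ∧ (∀ i, 1 ≤ i → i ≤ d → Φ.x i = ξ ^ 2 * (b i) ^ 2) := by
  obtain ⟨hθs, hk, hν, hkX, S₀, N₀, hS, hsymm, hpos, horth, hNdef⟩ := exists_S Φ hs hN
  obtain ⟨hP, -, -⟩ := aw_duality Φ
  obtain ⟨-, hx0, hx⟩ := exists_stdBasis Φ
  obtain ⟨hX, -, -, -, -⟩ := eigen_facts Φ

  set c : ℕ → ℝ := fun i => if h : i < d + 1 then
    Real.sqrt (Φ.k ⟨i, h⟩) / (Φ.p i).eval (Φ.θ 0) else 1 with hc
  have hci : ∀ i (h : i < d + 1), c i = Real.sqrt (Φ.k ⟨i, h⟩) / (Φ.p i).eval (Φ.θ 0) := by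
    intro i h
    rw [hc]
    exact dif_pos h
  have hPi : ∀ i (_ : i < d + 1), (Φ.p i).eval (Φ.θ 0) ≠ 0 := fun i h => hP ⟨i, h⟩
  have hcne : ∀ i, i < d + 1 → c i ≠ 0 := by
    intro i h
    rw [hci i h]
    exact div_ne_zero (Real.sqrt_pos.2 (hk ⟨i, h⟩)).ne' (hPi i h)
  have hc2 : ∀ i, i < d + 1 → c i ^ 2 * Φ.xprod i = 1 := by
    intro i h
    have h1 : Φ.k ⟨i, h⟩ * Φ.xprod i = (Φ.p i).eval (Φ.θ 0) ^ 2 := hkX ⟨i, h⟩
    have h2 := hPi i h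
    rw [hci i h, div_pow, Real.sq_sqrt (hk ⟨i, h⟩).le, div_mul_eq_mul_div, h1,
      div_self (pow_ne_zero 2 h2)]
  have hXs : ∀ i, 1 ≤ i → Φ.xprod i = Φ.xprod (i-1) * Φ.x i := by
    intro i hi
    obtain ⟨n, rfl⟩ : ∃ n, i = n + 1 := ⟨i - 1, by omega⟩
    rw [Nat.add_sub_cancel]
    simp only [LeonardSystem.xprod]
    rw [Finset.prod_Icc_succ_top (by omega)]
  have hcc : ∀ i, 1 ≤ i → i < d + 1 → c (i-1) ^ 2 = c i ^ 2 * Φ.x i := by
    intro i hi h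
    have h1 := hc2 i h
    have h2 := hc2 (i-1) (by omega)
    rw [hXs i hi] at h1
    have h3 : Φ.xprod (i-1) ≠ 0 := hX (i-1) (by omega)
    apply mul_right_cancel₀ h3
    rw [h2, ← h1]
    ring
  set r : ℕ → ℝ := fun i => if i = 0 then 0 else c (i-1) / c i with hr
  have hr0 : r 0 = 0 := if_pos rfl
  have hri : ∀ i, 1 ≤ i → r i = c (i-1) / c i := fun i hi => if_neg (by omega)
  set S : ℕ → ℕ → ℝ := fun i j => if h : i < d + 1 ∧ j < d + 1 then S₀ ⟨i, h.1⟩ ⟨j, h.2⟩ else 0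
    with hSdef
  have hSin : ∀ i j (hi : i < d + 1) (hj : j < d + 1), S i j = S₀ ⟨i, hi⟩ ⟨j, hj⟩ :=
    fun i j hi hj => dif_pos ⟨hi, hj⟩
  have hSout : ∀ i j, ¬ (i < d + 1 ∧ j < d + 1) → S i j = 0 := fun i j h => dif_neg h
  set N : ℕ → ℕ → ℕ → ℤ := fun i j h => if hh : i < d + 1 ∧ j < d + 1 ∧ h < d + 1 then
    (N₀ ⟨i, hh.1⟩ ⟨j, hh.2.1⟩ ⟨h, hh.2.2⟩ : ℤ) else 0 with hNd
  have hNin : ∀ i j h (hi : i < d + 1) (hj : j < d + 1) (hh : h < d + 1),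
      N i j h = (N₀ ⟨i, hi⟩ ⟨j, hj⟩ ⟨h, hh⟩ : ℤ) := fun i j h hi hj hh => dif_pos ⟨hi, hj, hh⟩
  have hSf : ∀ i j (hi : i < d + 1) (hj : j < d + 1),
      S i j = Real.sqrt (Φ.k ⟨j, hj⟩ / Φ.ν) * c i * (Φ.p i).eval (Φ.θ ⟨j, hj⟩) := by
    intro i j hi hj
    rw [hSin i j hi hj, hS, hci i hi]
    have h1 : Φ.k ⟨i, hi⟩ * Φ.k ⟨j, hj⟩ / Φ.ν = Φ.k ⟨i, hi⟩ * (Φ.k ⟨j, hj⟩ / Φ.ν) := by ring
    rw [h1, Real.sqrt_mul (hk ⟨i, hi⟩).le]
    ring
  have hrec : ∀ i ≤ d, ∀ j ≤ d, (fun j : ℕ => if h : j < d + 1 then Φ.θ ⟨j, h⟩ else 0) j * S i j =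
      r (i+1) * S (i+1) j + Φ.a i * S i j + r i * S (i-1) j := by
    intro i hi j hj
    have hj' : j < d + 1 := by omega
    have hi' : i < d + 1 := by omega
    have hθj : (fun j : ℕ => if h : j < d + 1 then Φ.θ ⟨j, h⟩ else 0) j = Φ.θ ⟨j, hj'⟩ :=
      dif_pos hj'
    rw [hθj]

    have h1 : r (i+1) * S (i+1) j = Real.sqrt (Φ.k ⟨j, hj'⟩ / Φ.ν) * c i *
        (Φ.p (i+1)).eval (Φ.θ ⟨j, hj'⟩) := by
      rcases Nat.lt_or_ge i d with h2 | h2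
      · rw [hSf (i+1) j (by omega) hj', hri (i+1) (by omega), Nat.add_sub_cancel]
        have h3 := hcne (i+1) (by omega)
        field_simp
      · have h3 : i = d := by omega
        rw [hSout (i+1) j (by omega), mul_zero, h3, l8_last Φ ⟨j, hj'⟩, mul_zero]
    rw [h1, hSf i j hi' hj']
    rcases Nat.eq_zero_or_pos i with h2 | h2
    · rw [h2, hr0, zero_mul, add_zero, zero_add]
      have h3 : (Φ.p 1).eval (Φ.θ ⟨j, hj'⟩) = Φ.θ ⟨j, hj'⟩ - Φ.a 0 := by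
        simp [LeonardSystem.p]
      have h4 : (Φ.p 0).eval (Φ.θ ⟨j, hj'⟩) = 1 := by
        simp [LeonardSystem.p]
      rw [h3, h4]
      ring
    · rw [hSf (i-1) j (by omega) hj', hri i h2]
      have h3 := hcne i hi'
      have h4 := hcc i h2 hi'
      have h5 : c (i-1) / c i * (Real.sqrt (Φ.k ⟨j, hj'⟩ / Φ.ν) * c (i-1) *
          (Φ.p (i-1)).eval (Φ.θ ⟨j, hj'⟩)) =
          Real.sqrt (Φ.k ⟨j, hj'⟩ / Φ.ν) * c i * Φ.x i * (Φ.p (i-1)).eval (Φ.θ ⟨j, hj'⟩) := by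
        rw [div_mul_eq_mul_div, div_eq_iff h3]
        linear_combination (Real.sqrt (Φ.k ⟨j, hj'⟩ / Φ.ν) *
          (Φ.p (i-1)).eval (Φ.θ ⟨j, hj'⟩)) * h4
      rw [h5]
      obtain ⟨n, rfl⟩ : ∃ n, i = n + 1 := ⟨i - 1, by omega⟩
      rw [Nat.add_sub_cancel]
      have h6 : (Φ.p (n+1+1)).eval (Φ.θ ⟨j, hj'⟩) = (Φ.θ ⟨j, hj'⟩ - Φ.a (n+1)) *
          (Φ.p (n+1)).eval (Φ.θ ⟨j, hj'⟩) - Φ.x (n+1) * (Φ.p n).eval (Φ.θ ⟨j, hj'⟩) := by
        rw [LeonardSystem.p]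
        simp
      rw [h6]
      ring
  have hrne : ∀ i, 1 ≤ i → i ≤ d → r i ≠ 0 := by
    intro i hi1 hi
    rw [hri i hi1]
    exact div_ne_zero (hcne (i-1) (by omega)) (hcne i (by omega))
  have hrx : ∀ i, 1 ≤ i → i ≤ d → Φ.x i = r i ^ 2 := by
    intro i hi1 hi
    have h3 := hcne i (by omega)
    rw [hri i hi1, div_pow, eq_div_iff (pow_ne_zero 2 h3), hcc i hi1 (by omega)]
    ring
  obtain ⟨α, b, lam, hStr, h1, h2, h3⟩ := l8_core hd
    (fun j : ℕ => if h : j < d + 1 then Φ.θ ⟨j, h⟩ else 0) Φ.a Φ.x r S N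
    (by
      intro i j
      by_cases h : i < d + 1 ∧ j < d + 1
      · rw [hSin i j h.1 h.2, hSin j i h.2 h.1, hsymm]
      · rw [hSout i j h, hSout j i (fun h' => h ⟨h'.2, h'.1⟩)])
    (fun i j h => hSout i j (by omega))
    (by
      intro i hi j hj
      rw [Finset.sum_range]
      have h1 := horth ⟨i, by omega⟩ ⟨j, by omega⟩
      have h2 : (if i = j then (1 : ℝ) else 0) =
          (if (⟨i, by omega⟩ : Fin (d+1)) = ⟨j, by omega⟩ then 1 else 0) := by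
        simp only [Fin.mk.injEq]
      rw [h2, ← h1]
      refine Finset.sum_congr rfl (fun l _ => ?_)
      rw [hSin i l (by omega) l.2, hSin j l (by omega) l.2])
    (by
      intro j hj
      rw [hSin 0 j (by omega) (by omega)]
      exact hpos _)
    (by
      intro i j h
      by_cases hh : i < d + 1 ∧ j < d + 1 ∧ h < d + 1
      · rw [hNin i j h hh.1 hh.2.1 hh.2.2]
        exact Int.natCast_nonneg _
      · rw [hNd]
        show 0 ≤ (if hh : i < d + 1 ∧ j < d + 1 ∧ h < d + 1 then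
          (N₀ ⟨i, hh.1⟩ ⟨j, hh.2.1⟩ ⟨h, hh.2.2⟩ : ℤ) else 0)
        rw [dif_neg hh])
    (fun i j h hh => dif_neg (by omega))
    (by
      intro i hi j hj h hh
      rw [hNin i j h (by omega) (by omega) (by omega), Finset.sum_range]
      have h1 := hNdef ⟨i, by omega⟩ ⟨j, by omega⟩ ⟨h, by omega⟩
      rw [Int.cast_natCast, h1]
      refine Finset.sum_congr rfl (fun l _ => ?_)
      rw [hSin i l (by omega) l.2, hSin j l (by omega) l.2, hSin h l (by omega) l.2,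
        hSin 0 l (by omega) l.2]
      rfl)
    hr0 hrne hrx hrec
  have hθ' : ∀ i : Fin (d+1), Φ.θ i = r 1 * lam i + Φ.a 0 := by
    intro i
    have h4 := h1 i (by omega)
    have h5 : (if h : (i : ℕ) < d + 1 then Φ.θ ⟨i, h⟩ else 0) = Φ.θ i := by
      rw [dif_pos i.2]
    rw [← h5]
    exact h4
  exact ⟨α, b, lam, S, N, r 1, Φ.a 0, hStr, hrne 1 le_rfl hd, hθ', fun i => by rw [hθs]; exact hθ' i,
    h2, h3⟩

end LS
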