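import Pool.Agent.LS.Defs
import Pool.Agent.LS.L1
import Pool.Agent.LS.L2
import Pool.Agent.LS.L3

/-! Part `L9` of the classification of self-dual Leonard systems with integral normalized
intersection numbers (MP_963a96_al). -/
open Matrix Polynomial Finset
namespace LS

theorem l9_conj {d : ℕ} {w w' : ℕ → (Fin (d+1) → ℝ)}
    (hw : LinearIndependent ℝ (fun i : Fin (d+1) => w i))
    (hw' : LinearIndependent ℝ (fun i : Fin (d+1) => w' i))
    (ho : ∀ i, d < i → w i = 0) (ho' : ∀ i, d < i → w' i = 0) :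
    ∃ e : (Fin (d+1) → ℝ) ≃ₗ[ℝ] (Fin (d+1) → ℝ), ∀ i : ℕ, e (w i) = w' i := by
  have hc : Fintype.card (Fin (d+1)) = Module.finrank ℝ (Fin (d+1) → ℝ) := by simp
  let B := basisOfLinearIndependentOfCardEqFinrank hw hc
  let B' := basisOfLinearIndependentOfCardEqFinrank hw' hc
  refine ⟨B.equiv B' (Equiv.refl _), fun i => ?_⟩
  by_cases hi : i < d + 1
  · have h1 : w i = B ⟨i, hi⟩ := by
      rw [coe_basisOfLinearIndependentOfCardEqFinrank]
    have h2 : w' i = B' ⟨i, hi⟩ := by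
      rw [coe_basisOfLinearIndependentOfCardEqFinrank]
    rw [h1, h2, Module.Basis.equiv_apply]
    rfl
  · rw [ho i (by omega), ho' i (by omega), map_zero]

noncomputable def l9_sig {d : ℕ} (e : (Fin (d+1) → ℝ) ≃ₗ[ℝ] (Fin (d+1) → ℝ)) : Mat d ≃ₐ[ℝ] Mat d :=
  (Matrix.toLinAlgEquiv' (R := ℝ) (n := Fin (d+1))).trans
    ((LinearEquiv.conjAlgEquiv ℝ e).trans (Matrix.toLinAlgEquiv' (R := ℝ) (n := Fin (d+1))).symm)

theorem l9_sig_mulVec {d : ℕ} (e : (Fin (d+1) → ℝ) ≃ₗ[ℝ] (Fin (d+1) → ℝ)) (M : Mat d)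
    (u : Fin (d+1) → ℝ) : l9_sig e M *ᵥ (e u) = e (M *ᵥ u) := by
  have h : Matrix.toLinAlgEquiv' (l9_sig e M) = LinearEquiv.conjAlgEquiv ℝ e (Matrix.toLinAlgEquiv' M) := by
    unfold l9_sig
    simp
  have h2 := congrArg (fun f => f (e u)) h
  simp only [Matrix.toLinAlgEquiv'_apply] at h2
  rw [h2]
  simp [LinearEquiv.conjAlgEquiv_apply]

theorem l9_eq {d : ℕ} {w' : ℕ → (Fin (d+1) → ℝ)}
    (hw' : LinearIndependent ℝ (fun i : Fin (d+1) => w' i)) {M N : Mat d}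
    (h : ∀ i : Fin (d+1), M *ᵥ w' i = N *ᵥ w' i) : M = N := by
  have hc : Fintype.card (Fin (d+1)) = Module.finrank ℝ (Fin (d+1) → ℝ) := by simp
  let B' := basisOfLinearIndependentOfCardEqFinrank hw' hc
  apply (Matrix.toLin' (R := ℝ) (m := Fin (d+1)) (n := Fin (d+1))).injective
  refine B'.ext fun i => ?_
  rw [coe_basisOfLinearIndependentOfCardEqFinrank, Matrix.toLin'_apply, Matrix.toLin'_apply]
  exact h i

theorem iso_of_params {d : ℕ} (Φ Ψ : LeonardSystem d) (h1 : Φ.θ = Ψ.θ) (h2 : Φ.θs = Ψ.θs)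
    (h3 : ∀ i ≤ d, Φ.a i = Ψ.a i) (h4 : ∀ i, 1 ≤ i → i ≤ d → Φ.x i = Ψ.x i) :
    LeonardSystem.Iso Φ Ψ := by
  obtain ⟨⟨w, hw⟩, hx0, -⟩ := exists_stdBasis Φ
  obtain ⟨⟨w', hw'⟩, hx0', -⟩ := exists_stdBasis Ψ
  obtain ⟨e, he⟩ := l9_conj hw.indep hw'.indep hw.out hw'.out
  have hA : l9_sig e Φ.A = Ψ.A := by
    refine l9_eq hw'.indep fun i => ?_
    have hi : (i : ℕ) ≤ d := Nat.lt_succ_iff.1 i.2
    rw [← he, l9_sig_mulVec, hw.act i hi, he, hw'.act i hi]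
    simp only [map_add, map_smul, he]
    rw [h3 i hi]
    by_cases h0 : (i : ℕ) = 0
    · rw [h0, hx0, hx0']
    · rw [h4 i (by omega) hi]
  have hAs : l9_sig e Φ.As = Ψ.As := by
    refine l9_eq hw'.indep fun i => ?_
    rw [← he, l9_sig_mulVec, hw.eig i, he, hw'.eig i, map_smul, he, h2]
  refine ⟨l9_sig e, hA, hAs, fun i => ?_, fun i => ?_⟩
  · unfold LeonardSystem.E
    rw [map_primIdem, hA, h1]
  · unfold LeonardSystem.Es
    rw [map_primIdem, hAs, h2]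

end LS
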