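import Pool.Agent.LS.Defs
import Pool.Agent.LS.Core
import Pool.Agent.LS.Fam
import Pool.Agent.LS.FS
import Pool.Agent.LS.G1
import Pool.Agent.LS.G3
import Pool.Agent.LS.GS

/-! Part `R1` of the classification of self-dual Leonard systems with integral normalized
intersection numbers (MP_963a96_al). -/
open Finset
namespace LS

theorem r1_bone {d : ℕ} {b : ℕ → ℤ} (hb : ∀ i, 1 ≤ i → i ≤ d → b i = 1) :
    ∀ i, 1 ≤ i → i ≤ d → bone d i = b i := by
  intro i h1 h2
  rw [hb i h1 h2]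
  unfold bone
  rw [if_pos ⟨h1, h2⟩]

theorem realize {d : ℕ} (hd : 1 ≤ d) {α b : ℕ → ℤ} {lam : ℕ → ℝ} (h : Item d α b lam) :
    ∃ (α' b' : ℕ → ℤ) (lam' : ℕ → ℝ) (S : ℕ → ℕ → ℝ) (N : ℕ → ℕ → ℕ → ℤ),
      Str d α' b' lam' S N ∧ (∀ i ≤ d, α' i = α i) ∧ (∀ i, 1 ≤ i → i ≤ d → b' i = b i) ∧
      (∀ i ≤ d, lam' i = lam i) := by
  rcases h with h | h | h | h | h | h | h | h | h
  ·
    obtain ⟨ha, hb, hl⟩ := h
    rcases hl with hl | ⟨he, hl⟩
    · obtain ⟨S, hS⟩ := FS1 d hd
      refine ⟨_, _, _, _, _, hS, ?_, r1_bone hb, ?_⟩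
      · intro i hi; rw [ha i hi]; rfl
      · intro i hi; rw [hl i hi]; unfold lamF1; rw [if_pos hi]
    · obtain ⟨S, hS⟩ := FS1' d hd he
      refine ⟨_, _, _, _, _, hS, ?_, r1_bone hb, ?_⟩
      · intro i hi; rw [ha i hi]; rfl
      · intro i hi; rw [hl i hi]; unfold lamF1'; rw [if_pos hi]
  ·
    obtain ⟨_, ha, had, hb, hl⟩ := h
    obtain ⟨S, hS⟩ := FS2 d hd
    refine ⟨_, _, _, _, _, hS, ?_, r1_bone hb, ?_⟩
    · intro i hi
      unfold alF2
      by_cases hid : i = d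
      · subst hid; rw [had, if_pos rfl]
      · rw [if_neg hid, ha i (by omega)]
    · intro i hi; rw [hl i hi]; unfold lamF2; rw [if_pos hi]
  ·
    obtain ⟨_, ha0, ha, hb, hl⟩ := h
    obtain ⟨S, hS⟩ := FS3 d hd
    refine ⟨_, _, _, _, _, hS, ?_, r1_bone hb, ?_⟩
    · intro i hi
      unfold alF3
      by_cases hi0 : i = 0
      · subst hi0; rw [ha0, if_neg (by omega)]
      · rw [if_pos ⟨by omega, hi⟩, ha i (by omega) hi]
    · intro i hi; rw [hl i hi]; unfold lamF3; rw [if_pos hi]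
  ·
    obtain ⟨_, ha0, ha, had, hb, hl⟩ := h
    obtain ⟨S, hS⟩ := FS4 d hd
    refine ⟨_, _, _, _, _, hS, ?_, r1_bone hb, ?_⟩
    · intro i hi
      unfold alF4
      by_cases hi0 : i = 0
      · subst hi0; rw [ha0, if_neg (by omega), if_neg (by omega)]
      · by_cases hid : i = d
        · subst hid; rw [had, if_neg (by omega), if_pos rfl]
        · rw [if_pos ⟨by omega, by omega⟩, ha i (by omega) (by omega)]
    · intro i hi; rw [hl i hi]; unfold lamF4; rw [if_pos hi]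
  ·
    obtain ⟨hd1, m, a0, a1, b1, l0, l1⟩ := h
    subst hd1
    obtain ⟨α', b', lam', S, N, hS, h1, h2, h3⟩ := G1S m
    refine ⟨α', b', lam', S, N, hS, ?_, ?_, ?_⟩
    · intro i hi
      interval_cases i
      · rw [hS.base.α0, a0]
      · rw [h1, a1]
    · intro i hi1 hi
      interval_cases i
      rw [hS.base.b1, b1]
    · intro i hi
      interval_cases i
      · rw [h2, l0]
      · rw [h3, l1]
  ·
    obtain ⟨hd1, m, a0, a1, a2, b1, b2, l0, l1, l2⟩ := h
    subst hd1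
    obtain ⟨α', b', lam', S, N, hS, h1, h2, h3, h4, h5, h6, _⟩ := G2aS m
    refine ⟨α', b', lam', S, N, hS, ?_, ?_, ?_⟩
    · intro i hi
      interval_cases i
      · rw [hS.base.α0, a0]
      · rw [h1, a1]
      · rw [h2, a2]
    · intro i hi1 hi
      interval_cases i
      · rw [hS.base.b1, b1]
      · rw [h3, b2]
    · intro i hi
      interval_cases i
      · rw [h4, l0]
      · rw [h5, l1]
      · rw [h6, l2]
  ·
    obtain ⟨hd1, k, hk, a0, a1, a2, b1, b2, l0, l1, l2⟩ := h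
    subst hd1
    obtain ⟨α', b', lam', S, N, hS, h1, h2, h3, h4, h5, h6, _⟩ := G2bS k hk
    refine ⟨α', b', lam', S, N, hS, ?_, ?_, ?_⟩
    · intro i hi
      interval_cases i
      · rw [hS.base.α0, a0]
      · rw [h1, a1]
      · rw [h2, a2]
    · intro i hi1 hi
      interval_cases i
      · rw [hS.base.b1, b1]
      · rw [h3, b2]
    · intro i hi
      interval_cases i
      · rw [h4, l0]
      · rw [h5, l1]
      · rw [h6, l2]
  ·
    obtain ⟨hd1, m, hm, a0, b1, b2, b3, l0, l1, l2, l3⟩ := h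
    subst hd1
    obtain ⟨α', b', lam', S, N, hS, h1, h2, h3, h4, h5, h6, h7, _⟩ := G3S m hm
    refine ⟨α', b', lam', S, N, hS, ?_, ?_, ?_⟩
    · intro i hi
      rw [h1 i, a0 i hi]
    · intro i hi1 hi
      interval_cases i
      · rw [hS.base.b1, b1]
      · rw [h2, b2]
      · rw [h3, b3]
    · intro i hi
      interval_cases i
      · rw [h4, l0]
      · rw [h5, l1]
      · rw [h6, l2]
      · rw [h7, l3]
  ·
    obtain ⟨hd1, a0, a1, a2, a3, b1, b2, b3, l0, l1, l2, l3⟩ := h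
    subst hd1
    obtain ⟨α', b', lam', S, N, hS, h1, h2, h3, h4, h5, h6, h7, h8, h9, _⟩ := SpS
    refine ⟨α', b', lam', S, N, hS, ?_, ?_, ?_⟩
    · intro i hi
      interval_cases i
      · rw [hS.base.α0, a0]
      · rw [h1, a1]
      · rw [h2, a2]
      · rw [h3, a3]
    · intro i hi1 hi
      interval_cases i
      · rw [hS.base.b1, b1]
      · rw [h4, b2]
      · rw [h5, b3]
    · intro i hi
      interval_cases i
      · rw [h6, l0]
      · rw [h7, l1]
      · rw [h8, l2]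
      · rw [h9, l3]

end LS
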