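import Pool.Agent.LS.Defs
import Pool.Agent.LS.Core
import Pool.Agent.LS.L6
import Pool.Agent.LS.L8
import Pool.Agent.LS.L9
import Pool.Agent.LS.L10
import Pool.Agent.LS.L11
import Pool.Agent.LS.L12
import Pool.Agent.LS.L13
import Pool.Agent.LS.I1
import Pool.Agent.LS.I3
import Pool.Agent.LS.R1

/-! Part `FIN` of the classification of self-dual Leonard systems with integral normalized
intersection numbers (MP_963a96_al). -/
open Finset Matrix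
namespace LS

theorem std_congr {d : ℕ} {Ψ : LeonardSystem d} {α b α' b' : ℕ → ℤ} {lam lam' : ℕ → ℝ}
    {ξ ζ : ℝ} (h : IsStd Ψ α b lam ξ ζ) (h1 : ∀ i ≤ d, α' i = α i)
    (h2 : ∀ i, 1 ≤ i → i ≤ d → b' i = b i) (h3 : ∀ i ≤ d, lam' i = lam i) :
    IsStd Ψ α' b' lam' ξ ζ := by
  obtain ⟨e1, e2, e3, e4⟩ := h
  have hT : Tmat d α' b' = Tmat d α b := by
    ext i j
    have hi := i.2
    have hj := j.2
    simp only [Tmat, Matrix.of_apply]
    split_ifs with c1 c2 c3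
    · rw [h1 i (by omega)]
    · rw [h2 j (by omega) (by omega)]
    · rw [h2 i (by omega) (by omega)]
    · rfl
  have hl : (fun i : Fin (d+1) => lam' i) = fun i : Fin (d+1) => lam i := by
    funext i
    have hi := i.2
    exact h3 i (by omega)
  refine ⟨by rw [hT]; exact e1, by rw [hl]; exact e2, ?_, ?_⟩
  · intro i
    have hi := i.2
    rw [h3 i (by omega)]; exact e3 i
  · intro i
    have hi := i.2
    rw [h3 i (by omega)]; exact e4 i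

theorem fin_item {d : ℕ} (hd : 1 ≤ d) {α b : ℕ → ℤ} {lam : ℕ → ℝ} {S : ℕ → ℕ → ℝ}
    {N : ℕ → ℕ → ℕ → ℤ} (h : Str d α b lam S N) : Item d α b lam := by
  rcases Nat.lt_or_ge d 4 with h4 | h4
  · interval_cases d
    · exact item1 h
    · exact item2 h
    · exact item3 h
  · exact item4 h h4

theorem classification (d : ℕ) :
    (∀ Φ : LeonardSystem d, (Φ.SelfDual ∧ Φ.IntegralN) ↔
      ∃ α b lam, Item d α b lam ∧ ∃ ξ ζ : ℝ, ξ ≠ 0 ∧ ∃ Ψ : LeonardSystem d,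
        IsStd Ψ α b lam ξ ζ ∧ LeonardSystem.Iso Φ Ψ) ∧
    (∀ α b lam, Item d α b lam → ∀ ξ ζ : ℝ, ξ ≠ 0 → ∃ Ψ : LeonardSystem d,
        IsStd Ψ α b lam ξ ζ) := by
  rcases Nat.eq_zero_or_pos d with rfl | hd
  · exact diam_zero
  have hex : ∀ α b lam, Item d α b lam → ∀ ξ ζ : ℝ, ξ ≠ 0 → ∃ Ψ : LeonardSystem d,
      IsStd Ψ α b lam ξ ζ := by
    intro α b lam hI ξ ζ hξ
    obtain ⟨α', b', lam', S, N, hS, h1, h2, h3⟩ := realize hd hI
    obtain ⟨Ψ, hΨ⟩ := exists_std hS ξ ζ hξ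
    exact ⟨Ψ, std_congr hΨ (fun i hi => (h1 i hi).symm) (fun i hi hid => (h2 i hi hid).symm)
      (fun i hi => (h3 i hi).symm)⟩
  refine ⟨fun Φ => ⟨?_, ?_⟩, hex⟩
  · rintro ⟨hs, hN⟩
    obtain ⟨α, b, lam, S, N, ξ, ζ, hS, hξ, hθ, hθs, ha, hx⟩ := exists_Str hd Φ hs hN
    have hI : Item d α b lam := fin_item hd hS
    obtain ⟨Ψ, hΨ⟩ := exists_std hS ξ ζ hξ
    obtain ⟨pa, px, -⟩ := std_params hS ξ ζ hξ Ψ hΨ
    refine ⟨α, b, lam, hI, ξ, ζ, hξ, Ψ, hΨ, ?_⟩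
    apply iso_of_params
    · funext i
      rw [hθ i, hΨ.2.2.1 i]
    · funext i
      rw [hθs i, hΨ.2.2.2 i]
    · intro i hi
      rw [ha i hi, pa i hi]
    · intro i hi hid
      rw [hx i hi hid, px i hi hid]
  · rintro ⟨α, b, lam, hI, ξ, ζ, hξ, Ψ, hΨ, hiso⟩
    obtain ⟨α', b', lam', S, N, hS, h1, h2, h3⟩ := realize hd hI
    have hΨ' := std_congr hΨ h1 h2 h3
    obtain ⟨-, -, hsd⟩ := std_params hS ξ ζ hξ Ψ hΨ'
    have hin := std_integral hS ξ ζ hξ Ψ hΨ'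
    obtain ⟨-, i1, i2⟩ := iso_invariance Φ Ψ hiso
    exact ⟨i1.mpr hsd, i2.mpr hin⟩

theorem fin_lam0 {d : ℕ} (hd : 1 ≤ d) {α b : ℕ → ℤ} {lam : ℕ → ℝ} {S : ℕ → ℕ → ℝ}
    {N : ℕ → ℕ → ℕ → ℤ} (h : Str d α b lam S N) : 0 < lam 0 := by
  have e := h.weak.eig 0 (by omega) 0 (by omega)
  rw [h.base.b0, h.base.α0] at e
  simp only [Int.cast_zero, zero_mul, zero_add] at e
  rw [h.base.b1, Int.cast_one, one_mul, h.weak.symm 1 0] at e
  have p0 := h.pos 0 (by omega)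
  have p1 := h.pos 1 hd
  by_contra hneg
  push Not at hneg
  have : lam 0 * S 0 0 ≤ 0 := mul_nonpos_of_nonpos_of_nonneg hneg p0.le
  linarith

theorem distinct {d : ℕ} (hd : 1 ≤ d) {α b α' b' : ℕ → ℤ} {lam lam' : ℕ → ℝ}
    (hI : Item d α b lam) (hI' : Item d α' b' lam') {ξ ζ ξ' ζ' : ℝ} (hξ : ξ ≠ 0) (hξ' : ξ' ≠ 0)
    {Ψ Ψ' : LeonardSystem d} (h : IsStd Ψ α b lam ξ ζ) (h' : IsStd Ψ' α' b' lam' ξ' ζ')
    (hiso : LeonardSystem.Iso Ψ Ψ') :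
    ξ = ξ' ∧ ζ = ζ' ∧ (∀ i ≤ d, α i = α' i) ∧ (∀ i, 1 ≤ i → i ≤ d → b i = b' i) ∧
      (∀ i ≤ d, lam i = lam' i) := by
  obtain ⟨α1, b1, lam1, S1, N1, hS1, r1, r2, r3⟩ := realize hd hI
  obtain ⟨α2, b2, lam2, S2, N2, hS2, s1, s2, s3⟩ := realize hd hI'
  have hΨ1 := std_congr h r1 r2 r3
  have hΨ2 := std_congr h' s1 s2 s3
  obtain ⟨pa, px, -⟩ := std_params hS1 ξ ζ hξ Ψ hΨ1
  obtain ⟨pa', px', -⟩ := std_params hS2 ξ' ζ' hξ' Ψ' hΨ2
  obtain ⟨eθ, -, ea, ex, -⟩ := iso_numbers Ψ Ψ' hiso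
  have hζ : ζ = ζ' := by
    have e1 := pa 0 (by omega)
    have e2 := pa' 0 (by omega)
    rw [hS1.base.α0, Int.cast_zero, mul_zero, zero_add] at e1
    rw [hS2.base.α0, Int.cast_zero, mul_zero, zero_add] at e2
    rw [← e1, ← e2, ea]
  have hsq : ξ ^ 2 = ξ' ^ 2 := by
    have e1 := px 1 (le_refl 1) hd
    have e2 := px' 1 (le_refl 1) hd
    rw [hS1.base.b1, Int.cast_one, one_pow, mul_one] at e1
    rw [hS2.base.b1, Int.cast_one, one_pow, mul_one] at e2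
    rw [← e1, ← e2, ex]
  have l1 := fin_lam0 hd hS1
  have l2 := fin_lam0 hd hS2
  have hθ : ∀ i (hi : i ≤ d), ξ * lam1 i + ζ = ξ' * lam2 i + ζ' := by
    intro i hi
    have e1 := hΨ1.2.2.1 ⟨i, by omega⟩
    have e2 := hΨ2.2.2.1 ⟨i, by omega⟩
    simp only at e1 e2
    rw [← e1, ← e2, eθ]
  have hξξ : ξ = ξ' := by
    rcases sq_eq_sq_iff_eq_or_eq_neg.mp hsq with h1 | h1
    · exact h1
    · exfalso
      have e := hθ 0 (by omega)
      rw [h1, hζ] at e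
      have e' : ξ' * (lam1 0 + lam2 0) = 0 := by linarith
      rcases mul_eq_zero.mp e' with h2 | h2
      · exact hξ' h2
      · linarith
  subst hξξ hζ
  refine ⟨rfl, rfl, ?_, ?_, ?_⟩
  · intro i hi
    have e1 := pa i hi
    have e2 := pa' i hi
    rw [ea, e2] at e1
    have e3 : ξ * ((α1 i : ℝ) - α2 i) = 0 := by linarith
    have e4 : (α1 i : ℝ) - α2 i = 0 := (mul_eq_zero.mp e3).resolve_left hξ
    have e5 : α1 i = α2 i := by
      have : (α1 i : ℝ) = α2 i := by linarith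
      exact_mod_cast this
    rw [← r1 i hi, ← s1 i hi, e5]
  · intro i hi hid
    have e1 := px i hi hid
    have e2 := px' i hi hid
    rw [ex, e2] at e1
    have e3 : ξ ^ 2 * ((b1 i : ℝ) ^ 2 - (b2 i : ℝ) ^ 2) = 0 := by linarith
    have e4 : (b1 i : ℝ) ^ 2 - (b2 i : ℝ) ^ 2 = 0 :=
      (mul_eq_zero.mp e3).resolve_left (pow_ne_zero 2 hξ)
    have e5 : b1 i ^ 2 = b2 i ^ 2 := by
      have : (b1 i : ℝ) ^ 2 = (b2 i : ℝ) ^ 2 := by linarith
      exact_mod_cast this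
    have p1 := hS1.base.bpos i hi hid
    have p2 := hS2.base.bpos i hi hid
    have e6 : b1 i = b2 i := by
      rcases sq_eq_sq_iff_eq_or_eq_neg.mp e5 with h1 | h1
      · exact h1
      · omega
    rw [← r2 i hi hid, ← s2 i hi hid, e6]
  · intro i hi
    have e := hθ i hi
    have e3 : ξ * (lam1 i - lam2 i) = 0 := by linarith
    have e4 : lam1 i - lam2 i = 0 := (mul_eq_zero.mp e3).resolve_left hξ
    rw [← r3 i hi, ← s3 i hi]
    linarith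

end LS
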